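import Pool.Agent.Lib.MP_640444_pr.Stmts2

-- part Pool.Agent.Lib.MP_640444_pr.Cur
section

/-!
If the randomly flipped pair is swap invariant then the almost sure current is constant.
-/

set_option autoImplicit false
open MeasureTheory Filter Finset
open scoped Classical Topology ENNReal
open Pool.Agent.Shared.Ergodic

namespace Pool.Agent.Lib.MP_640444_pr

namespace Cur

def H3 (δ : ℝ) (K m l : ℕ) (p : Om) : Prop :=
  ∑ x ∈ box ((K + 2) * l) with Ev x, hh m l p x ≤ δ * (l : ℝ) ^ 3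

def G2 (S : Cfg → Fin 3 → ℝ) (δ : ℝ) (K m l : ℕ) (p : Om) : Prop :=
  Close (S p.1) δ K l p.1 ∧ Close (S p.2) δ K l p.2 ∧ H3 δ K m l p

noncomputable def mid (S : Cfg → Fin 3 → ℝ) (p : Om) : Fin 3 → ℝ :=
  fun i => (S p.1 i + S p.2 i) / 2

lemma H3.mono {δ δ' : ℝ} {K m l : ℕ} {p : Om} (h : H3 δ K m l p) (hd : δ ≤ δ') :
    H3 δ' K m l p := le_trans h (mul_le_mul_of_nonneg_right hd (by positivity))

lemma G2.mono {S : Cfg → Fin 3 → ℝ} {δ δ' : ℝ} {K m l : ℕ} {p : Om} (h : G2 S δ K m l p)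
    (hd : δ ≤ δ') : G2 S δ' K m l p := ⟨h.1.mono hd, h.2.1.mono hd, h.2.2.mono hd⟩

lemma H3.err {δ : ℝ} {K m l : ℕ} {p : Om} (h : H3 δ K m l p) {z : V}
    (hz : z ∈ box (K + 1)) (i : Fin 3) :
    ∑ x ∈ cell l z with Ev x, err i m p x ≤ δ * (l : ℝ) ^ 3 ∧
    ∑ x ∈ cell l z with Ev x, Nl i p x l / (l : ℝ) ^ 3 ≤ δ * (l : ℝ) ^ 3 := by
  have h1 : ∑ x ∈ cell l z with Ev x, hh m l p x ≤ δ * (l : ℝ) ^ 3 :=
    (sum_le_sum_of_subset_of_nonneg (filter_subset_filter _ (cell_subset hz))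
      fun x _ _ => hh_nonneg m l p x).trans h
  have h2 : ∀ x, MP_640444_pr.err i m p x + Nl i p x l / (l : ℝ) ^ 3 ≤ hh m l p x := fun x =>
    single_le_sum (f := fun i => MP_640444_pr.err i m p x + Nl i p x l / (l : ℝ) ^ 3)
      (fun j _ => add_nonneg (abs_nonneg _) (Nl_div_nonneg j p x l)) (mem_univ i)
  constructor
  · refine (sum_le_sum fun x _ => ?_).trans h1
    linarith [h2 x, Nl_div_nonneg i p x l]
  · refine (sum_le_sum fun x _ => ?_).trans h1
    have : 0 ≤ MP_640444_pr.err i m p x := abs_nonneg _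
    linarith [h2 x]

lemma cell_sub {l : ℕ} {z x : V} (hx : x ∈ cell l z) : ∀ y ∈ cell l z, y - x ∈ box l := by
  intro y hy
  rw [mem_box]
  intro j
  have a := mem_cell.1 hx j
  have b := mem_cell.1 hy j
  simp only [Pi.sub_apply]
  exact abs_le.2 ⟨by omega, by omega⟩

lemma sv_cheb2 {δ t : ℝ} {K m l : ℕ} {p : Om} (hp : Til p) (h : H3 δ K m l p)
    (hl : 0 < l) (ht : 0 < t) {z : V} (hz : z ∈ box (K + 1)) (i : Fin 3) :
    coins {ξ | t * (l : ℝ) ^ 3 < |sv l z i (p, ξ)|} ≤ ENNReal.ofReal (4 * δ / t ^ 2) := by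
  have hl' : (0 : ℝ) < l := by exact_mod_cast hl
  have h1 := coins_cheb ({x ∈ cell l z | Ev x}) (rep p) (vel i p) (t := t * (l : ℝ) ^ 3)
    (B := 4 * δ * (l : ℝ) ^ 6) (by positivity) (by
      have h2 := (h.err hz i).2
      rw [← sum_div, div_le_iff₀ (by positivity)] at h2
      refine le_trans (sum_le_sum (g := fun x => 4 * Nl i p x l) fun x hx => ?_) ?_
      · rw [mem_filter] at hx
        have h3 := sum_vel_cm i hp hx.2 (cell l z) l (cell_sub hx.1)
        rw [← sum_filter, filter_filter]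
        simp only [rep_eq_iff]
        refine le_trans (sum_le_sum (g := fun y => 2 * |vel i p y|) fun y _ => ?_) ?_
        · refine (le_abs_self _).trans ?_
          rw [abs_mul]
          exact mul_le_mul_of_nonneg_right (abs_vel_le i p x) (abs_nonneg _)
        · rw [← mul_sum]; linarith
      · rw [← mul_sum]; nlinarith)
  refine h1.trans (le_of_eq ?_)
  congr 1
  field_simp

lemma dev_chg (s t : Fin 3 → ℝ) (σ : Cfg) (i : Fin 3) (Q : Finset V) :
    dev s σ i Q = dev t σ i Q + #{x ∈ Q | Ev x} * (t i - s i) := by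
  unfold dev
  rw [← nsmul_eq_mul, ← sum_const, ← sum_add_distrib]
  exact sum_congr rfl fun x _ => by ring

lemma flip_close2 {S : Cfg → Fin 3 → ℝ} {δ : ℝ} {K m l : ℕ} {ω : Om × (V → Bool)}
    (hp : Til ω.1) (h : G2 S δ K m l ω.1) (hm : 0 < m) (hml : (m : ℝ) ≤ δ * l)
    (hsv : ∀ z ∈ box (K + 1), ∀ i, |sv l z i ω| ≤ δ * (l : ℝ) ^ 3) :
    Close (mid S ω.1) (76 * δ) K l (fl ω).1 ∧ Close (mid S ω.1) (76 * δ) K l (fl ω).2 := by
  have key : ∀ z ∈ box (K + 1), ∀ i,
      |∑ x ∈ cell l z with (Ev x ∧ x ∈ FF ω), dv i ω.1 x -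
        (dev (mid S ω.1) ω.1.1 i (cell l z) - dev (mid S ω.1) ω.1.2 i (cell l z)) / 2| ≤
          74 * δ * (l : ℝ) ^ 3 ∧
      |dev (mid S ω.1) ω.1.1 i (cell l z) + dev (mid S ω.1) ω.1.2 i (cell l z)| ≤
          2 * δ * (l : ℝ) ^ 3 := by
    intro z hz i
    have e1 := (h.2.2.err hz i).1
    have e2 : (m : ℝ) * (l : ℝ) ^ 2 ≤ δ * (l : ℝ) ^ 3 :=
      (mul_le_mul_of_nonneg_right hml (by positivity)).trans (le_of_eq (by ring))
    have a1 := sumd i hp (FF ω) ∅ hm (fun k _ x _ _ hx => FF_cm ω (cm_tm_iter _ x k) hx) l z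
    have a2 := sumd i hp Set.univ ∅ hm (fun _ _ _ _ _ _ => trivial) l z
    simp only [Set.mem_univ, and_true, card_empty, Nat.cast_zero, zero_add] at a1 a2
    rw [dev_sub (mid S ω.1) hp] at a2
    have a3 : ∑ x ∈ cell l z with (Ev x ∧ x ∈ FF ω), vel i ω.1 x =
        (∑ x ∈ cell l z with Ev x, vel i ω.1 x + sv l z i ω) / 2 := by
      rw [sv, ← sum_add_distrib, sum_div, ← filter_filter, sum_filter (p := fun x => x ∈ FF ω)]
      refine sum_congr rfl fun x hx => ?_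
      by_cases hi : Inf ω.1 x
      · cases hc : ω.2 (rep ω.1 x) <;> simp [FF, FS, hi, hc, sg]
      · simp [vel_eq_zero i hp (mem_filter.1 hx).2 hi]
    have b1 := abs_le.1 (h.1 z hz i)
    have b2 := abs_le.1 (h.2.1 z hz i)
    have b3 := abs_le.1 (hsv z hz i)
    have b4 : dev (mid S ω.1) ω.1.1 i (cell l z) + dev (mid S ω.1) ω.1.2 i (cell l z) =
        dev (S ω.1.1) ω.1.1 i (cell l z) + dev (S ω.1.2) ω.1.2 i (cell l z) := by
      rw [dev_chg _ (S ω.1.1), dev_chg (mid S ω.1) (S ω.1.2), mid]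
      ring
    rw [a3] at a1
    rw [b4]
    rw [abs_le] at a1 a2
    refine ⟨abs_le.2 ⟨?_, ?_⟩, abs_le.2 ⟨?_, ?_⟩⟩ <;> linarith [a1.1, a1.2, a2.1, a2.2]
  have h0 : ∀ z ∈ box (K + 1), ∀ i : Fin 3, 0 ≤ δ * (l : ℝ) ^ 3 := fun z hz i =>
    (abs_nonneg _).trans (hsv z hz i)
  constructor
  · intro z hz i
    obtain ⟨k1, k2⟩ := key z hz i
    rw [fl, (dev_flp _ hp _ i _).1]
    rw [abs_le] at k1 k2 ⊢
    constructor <;> linarith [k1.1, k1.2, k2.1, k2.2, h0 z hz i]
  · intro z hz i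
    obtain ⟨k1, k2⟩ := key z hz i
    rw [fl, (dev_flp _ hp _ i _).2]
    rw [abs_le] at k1 k2 ⊢
    constructor <;> linarith [k1.1, k1.2, k2.1, k2.2, h0 z hz i]

lemma t2 : Tendsto (fun j : ℕ => 2 * j) atTop atTop :=
  tendsto_id.const_mul_atTop' (by norm_num)

lemma h3_prob {ν : Measure Om} [IsProbabilityMeasure ν] (hm : EvInv ν) (hT : ∀ᵐ p ∂ν, Til p)
    {δ η : ℝ} (hδ : 0 < δ) (hη : 0 < η) (K : ℕ) :
    ∃ m, 0 < m ∧ ∀ᶠ j : ℕ in atTop, ν {p | ¬ H3 δ K m (2 * j) p} ≤ ENNReal.ofReal η := by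
  have hK : (0 : ℝ) < (2 * K + 5) ^ 3 := by positivity
  obtain ⟨m, hm0, hm1⟩ := exists_hh hm hT (ε := η * δ / (2 * K + 5) ^ 3) (by positivity)
  refine ⟨m, hm0, ?_⟩
  filter_upwards [t2.eventually hm1, t2.eventually (eventually_ge_atTop 1)] with j a1 a4
  set l := 2 * j
  have hl : (1 : ℝ) ≤ l := by exact_mod_cast a4
  have b3 := hh_prob hm m l (box ((K + 2) * l)) (t := δ * (l : ℝ) ^ 3) (by positivity)
    (by positivity) a1
  have b4 : (#(box ((K + 2) * l)) : ℝ) * (η * δ / (2 * K + 5) ^ 3) / (δ * (l : ℝ) ^ 3) ≤ η := by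
    rw [card_box, div_le_iff₀ (by positivity)]
    have : ((((2 * ((K + 2) * l) + 1) ^ 3 : ℕ)) : ℝ) ≤ ((2 * K + 5) * l) ^ 3 := by
      push_cast
      exact pow_le_pow_left₀ (by positivity) (by nlinarith) 3
    refine (mul_le_mul_of_nonneg_right this (by positivity)).trans (le_of_eq ?_)
    field_simp
  exact le_trans (measure_mono fun p hp => not_le.1 hp) (b3.trans (ENNReal.ofReal_le_ofReal b4))

lemma ae_gen {X : Type} [MeasurableSpace X] (P : Measure X) (Q : ℝ → ℕ → ℕ → ℕ → X → Prop)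
    (hmono : ∀ δ δ' K m l x, δ ≤ δ' → Q δ K m l x → Q δ' K m l x)
    (h : ∀ δ η : ℝ, 0 < δ → 0 < η → ∀ K, ∃ m, 0 < m ∧
      ∀ᶠ j : ℕ in atTop, P {x | ¬ Q δ K m (2 * j) x} ≤ ENNReal.ofReal η) :
    ∀ᵐ x ∂P, ∀ δ : ℝ, 0 < δ → ∀ K l0 : ℕ, ∃ m l : ℕ, 0 < m ∧ l0 ≤ l ∧ Even l ∧
      (m : ℝ) ≤ δ * l ∧ Q δ K m l x := by
  have : ∀ᵐ x ∂P, ∀ n K l0 : ℕ, ∃ m l : ℕ, 0 < m ∧ l0 ≤ l ∧ Even l ∧
      (m : ℝ) ≤ 1 / ((n : ℝ) + 1) * l ∧ Q (1 / ((n : ℝ) + 1)) K m l x := by
    simp only [ae_all_iff]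
    intro n K l0
    rw [ae_iff]
    refine le_antisymm (ENNReal.le_of_forall_pos_le_add fun ε hε _ => ?_) zero_le
    have hδ : (0 : ℝ) < 1 / ((n : ℝ) + 1) := by positivity
    obtain ⟨m, a, b⟩ := h _ ε hδ hε K
    have hml : ∀ᶠ l : ℕ in atTop, (m : ℝ) ≤ 1 / ((n : ℝ) + 1) * l :=
      (tendsto_natCast_atTop_atTop.const_mul_atTop hδ).eventually_ge_atTop _
    obtain ⟨j, c, d, e⟩ := (b.and ((t2.eventually hml).and
      (t2.eventually (eventually_ge_atTop l0)))).exists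
    rw [zero_add, ← ENNReal.ofReal_coe_nnreal]
    exact le_trans (measure_mono fun p hp hg => hp ⟨m, 2 * j, a, e, even_two_mul j, d, hg⟩) c
  filter_upwards [this] with p hp δ hδ K l0
  obtain ⟨n, hn⟩ := exists_nat_one_div_lt hδ
  obtain ⟨m, l, a, b, c, d, e⟩ := hp n K l0
  exact ⟨m, l, a, b, c, d.trans (mul_le_mul_of_nonneg_right hn.le (by positivity)),
    hmono _ _ _ _ _ _ hn.le e⟩

section prob

variable {s : Fin 3 → ℝ} {μ : Measure Cfg} {S : Cfg → Fin 3 → ℝ}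

lemma pi_inv (h : Inv1 s μ) : EvInv (μ.prod μ) := by
  have := h.prob
  intro v hv
  have : MeasurePreserving (shift v) μ μ := ⟨measurable_shift v, h.inv v hv⟩
  exact this.prod this

lemma pi_til (h : Inv1 s μ) : ∀ᵐ p ∂(μ.prod μ), Til p := by
  have := h.prob
  have a1 : ∀ᵐ p ∂(μ.prod μ), IsTiling p.1 :=
    (measurePreserving_fst (μ := μ) (ν := μ)).quasiMeasurePreserving.ae h.tiling
  have a2 : ∀ᵐ p ∂(μ.prod μ), IsTiling p.2 :=
    (measurePreserving_snd (μ := μ) (ν := μ)).quasiMeasurePreserving.ae h.tiling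
  filter_upwards [a1, a2] with p h1 h2 using ⟨h1, h2⟩

lemma nu_til (h : Inv1 s μ) : ∀ᵐ p ∂(nu μ), Til p := by
  have := h.prob
  have hf := measurePreserving_fst (μ := μ.prod μ) (ν := coins)
  rw [nu, ae_map_iff measurable_fl.aemeasurable mset_til]
  filter_upwards [hf.quasiMeasurePreserving.ae (pi_til h)] with ω hω
  exact til_flp hω (invar_FF hω)

lemma nu_prob (h : Inv1 s μ) : IsProbabilityMeasure (nu μ) := by
  have := h.prob
  exact Measure.isProbabilityMeasure_map measurable_fl.aemeasurable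

lemma g2_prob (h : Inv1 s μ) (hS : ∀ δ : ℝ, 0 < δ → ∀ K : ℕ,
      Tendsto (fun j : ℕ => μ {σ | ¬ Close (S σ) δ K (2 * j) σ}) atTop (𝓝 0))
    {δ η : ℝ} (hδ : 0 < δ) (hη : 0 < η) (K : ℕ) : ∃ m, 0 < m ∧
      ∀ᶠ j : ℕ in atTop, (μ.prod μ) {p | ¬ G2 S δ K m (2 * j) p} ≤ ENNReal.ofReal η := by
  have := h.prob
  have h3 : 0 < η / 3 := by positivity
  obtain ⟨m, hm0, hm1⟩ := h3_prob (pi_inv h) (pi_til h) hδ h3 K
  have e3 : (0 : ENNReal) < ENNReal.ofReal (η / 3) := ENNReal.ofReal_pos.2 h3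
  refine ⟨m, hm0, ?_⟩
  filter_upwards [hm1, (hS δ hδ K).eventually (ge_mem_nhds e3)] with j b3 a5
  set l := 2 * j
  have hs : {p : Om | ¬ G2 S δ K m l p} ⊆ (Prod.fst ⁻¹' {σ | ¬ Close (S σ) δ K l σ} ∪
      Prod.snd ⁻¹' {σ | ¬ Close (S σ) δ K l σ}) ∪ {p | ¬ H3 δ K m l p} := by
    intro p hp
    by_contra hn
    simp only [Set.mem_union, Set.mem_preimage, Set.mem_ofPred_eq, not_or, not_not] at hn
    exact hp ⟨hn.1.1, hn.1.2, hn.2⟩
  refine (measure_mono hs).trans ((measure_union_le _ _).trans ?_)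
  have c1 := ((measurePreserving_fst (μ := μ) (ν := μ)).measure_preimage_le _).trans a5
  have c2 := ((measurePreserving_snd (μ := μ) (ν := μ)).measure_preimage_le _).trans a5
  refine (add_le_add ((measure_union_le _ _).trans (add_le_add c1 c2)) b3).trans (le_of_eq ?_)
  rw [← ENNReal.ofReal_add h3.le h3.le, ← ENNReal.ofReal_add (by positivity) h3.le]
  congr 1; ring

lemma flip_prob2 (h : Inv1 s μ) (hS : ∀ δ : ℝ, 0 < δ → ∀ K : ℕ,
      Tendsto (fun j : ℕ => μ {σ | ¬ Close (S σ) δ K (2 * j) σ}) atTop (𝓝 0))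
    {δ η : ℝ} (hδ : 0 < δ) (hη : 0 < η) (K : ℕ) :
    ∀ᶠ j : ℕ in atTop, ((μ.prod μ).prod coins) {ω | ¬ (Close (mid S ω.1) δ K (2 * j) (fl ω).1 ∧
      Close (mid S ω.1) δ K (2 * j) (fl ω).2)} ≤ ENNReal.ofReal η := by
  have := h.prob
  set t := δ / 76 with ht
  have ht0 : 0 < t := by positivity
  set c : ℝ := #(box (K + 1)) * 3 with hc
  have hc0 : 0 < c := by rw [hc, card_box]; positivity
  set δ' := min t (η / 2 * t ^ 2 / (4 * c)) with hδ'
  have hδ0 : 0 < δ' := lt_min ht0 (by positivity)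
  obtain ⟨m, hm, hP⟩ := g2_prob h hS hδ0 (half_pos hη) K
  have hml : ∀ᶠ l : ℕ in atTop, (m : ℝ) ≤ t * l :=
    (tendsto_natCast_atTop_atTop.const_mul_atTop ht0).eventually_ge_atTop _
  filter_upwards [hP, t2.eventually hml, t2.eventually (eventually_gt_atTop 0)] with j hP hml hl0
  set l := 2 * j
  set B := toMeasurable (μ.prod μ) {p | ¬ (Til p ∧ G2 S δ' K m l p)} with hB
  have hBm : MeasurableSet B := measurableSet_toMeasurable _ _
  have hBP : (μ.prod μ) B ≤ ENNReal.ofReal (η / 2) := by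
    rw [hB, measure_toMeasurable]
    refine le_trans (measure_mono_ae ?_) hP
    filter_upwards [pi_til h] with p hp h1 h2 using h1 ⟨hp, h2⟩
  let T : V → Fin 3 → Set (Om × (V → Bool)) := fun z i =>
    {ω | t * (l : ℝ) ^ 3 < |sv l z i ω|} ∩ Prod.fst ⁻¹' Bᶜ
  have hT : ∀ z ∈ box (K + 1), ∀ i, ((μ.prod μ).prod coins) (T z i) ≤
      ENNReal.ofReal (η / 2 / c) := by
    intro z hz i
    have hm' : MeasurableSet (T z i) :=
      (measurableSet_lt measurable_const (measurable_sv l z i).abs).inter (measurable_fst hBm.compl)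
    rw [Measure.prod_apply hm']
    refine (lintegral_mono (g := fun _ => ENNReal.ofReal (η / 2 / c)) fun p => ?_).trans (by simp)
    by_cases hpB : p ∈ B
    · have : Prod.mk p ⁻¹' T z i = ∅ := Set.eq_empty_of_forall_notMem fun ξ hξ => hξ.2 hpB
      simp [this]
    · have hg : Til p ∧ G2 S δ' K m l p := by
        by_contra hn
        exact hpB (subset_toMeasurable _ _ hn)
      refine le_trans (measure_mono fun ξ hξ => hξ.1)
        ((sv_cheb2 hg.1 hg.2.2.2 hl0 ht0 hz i).trans (ENNReal.ofReal_le_ofReal ?_))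
      rw [div_le_iff₀ (by positivity)]
      have : δ' ≤ η / 2 * t ^ 2 / (4 * c) := min_le_right _ _
      rw [le_div_iff₀ (by positivity)] at this
      rw [div_mul_eq_mul_div, le_div_iff₀ hc0]
      linarith
  have hs : {ω : Om × (V → Bool) | ¬ (Close (mid S ω.1) δ K l (fl ω).1 ∧
      Close (mid S ω.1) δ K l (fl ω).2)} ⊆
      Prod.fst ⁻¹' B ∪ ⋃ z ∈ box (K + 1), ⋃ i ∈ (univ : Finset (Fin 3)), T z i := by
    intro ω hω
    by_contra hn
    simp only [Set.mem_union, Set.mem_preimage, Set.mem_iUnion, not_or, not_exists] at hn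
    have hg : Til ω.1 ∧ G2 S δ' K m l ω.1 := by
      by_contra h
      exact hn.1 (subset_toMeasurable _ _ h)
    have := flip_close2 hg.1 (hg.2.mono (min_le_left _ _)) hm hml
      fun z hz i => not_lt.1 fun h => hn.2 z hz i (mem_univ _) ⟨h, hn.1⟩
    have e : 76 * t = δ := by rw [ht]; ring
    rw [e] at this
    exact hω this
  refine (measure_mono hs).trans ((measure_union_le _ _).trans ?_)
  have c1 := ((measurePreserving_fst (μ := μ.prod μ) (ν := coins)).measure_preimage_le _).trans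
    hBP
  have c2 : ((μ.prod μ).prod coins) (⋃ z ∈ box (K + 1), ⋃ i ∈ (univ : Finset (Fin 3)), T z i) ≤
      ENNReal.ofReal (η / 2) := by
    refine (measure_biUnion_finset_le _ _).trans ((sum_le_sum fun z hz =>
      (measure_biUnion_finset_le _ _).trans (sum_le_sum fun i _ => hT z hz i)).trans (le_of_eq ?_))
    rw [sum_const, sum_const, card_univ, Fintype.card_fin, smul_smul, nsmul_eq_mul,
      ← ENNReal.ofReal_natCast, ← ENNReal.ofReal_mul (by positivity)]
    congr 1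
    push_cast
    rw [← hc]
    field_simp
  refine (add_le_add c1 c2).trans (le_of_eq ?_)
  rw [← ENNReal.ofReal_add (half_pos hη).le (half_pos hη).le, add_halves]

lemma ae_good2 (h : Inv1 s μ) (hS : ∀ δ : ℝ, 0 < δ → ∀ K : ℕ,
      Tendsto (fun j : ℕ => μ {σ | ¬ Close (S σ) δ K (2 * j) σ}) atTop (𝓝 0)) :
    ∀ᵐ ω ∂((μ.prod μ).prod coins), ∀ δ : ℝ, 0 < δ → ∀ K l0 : ℕ, ∃ m l : ℕ, 0 < m ∧ l0 ≤ l ∧
      Even l ∧ (m : ℝ) ≤ δ * l ∧ Good (mid S ω.1) δ K m l (fl ω) := by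
  have := h.prob
  have := nu_prob h
  refine ae_gen ((μ.prod μ).prod coins) (fun δ K m l ω => Good (mid S ω.1) δ K m l (fl ω))
    (fun _ _ _ _ _ _ hd hg => Good.mono hg hd) ?_
  intro δ η hδ hη K
  obtain ⟨m, hm, hP⟩ := h3_prob (ν := nu μ) (fl_evInv (pi_inv h)) (nu_til h) hδ (half_pos hη) K
  refine ⟨m, hm, ?_⟩
  filter_upwards [hP, flip_prob2 h hS hδ (half_pos hη) K] with j h1 h2
  have hs : {ω : Om × (V → Bool) | ¬ Good (mid S ω.1) δ K m (2 * j) (fl ω)} ⊆
      {ω | ¬ (Close (mid S ω.1) δ K (2 * j) (fl ω).1 ∧ Close (mid S ω.1) δ K (2 * j) (fl ω).2)} ∪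
        fl ⁻¹' {p | ¬ H3 δ K m (2 * j) p} := by
    intro ω hω
    by_contra hn
    simp only [Set.mem_union, Set.mem_preimage, Set.mem_ofPred_eq, not_or, not_not] at hn
    exact hω ⟨hn.1.1, hn.1.2, hn.2⟩
  refine (measure_mono hs).trans ((measure_union_le _ _).trans ?_)
  refine (add_le_add h2 ((Measure.le_map_apply measurable_fl.aemeasurable _).trans h1)).trans
    (le_of_eq ?_)
  rw [← ENNReal.ofReal_add (half_pos hη).le (half_pos hη).le, add_halves]

lemma ae_unor2 (h : Inv1 s μ) (hν : SwpInv (nu μ)) (D : Finset (V × V)) (w : V) :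
    ∀ᵐ p ∂(μ.prod μ), ∀ p', Til p' → Unor p p' → Pure D w p' := by
  have := h.prob
  have := nu_prob h
  have hf := measurePreserving_fst (μ := μ.prod μ) (ν := coins)
  have hT := pi_til h
  have h0 : nu μ {p : Om | Til p ∧ Pure D w p}ᶜ = 0 := by
    refine (ae_map_iff measurable_fl.aemeasurable (mset_pure D w)).2 ?_
    filter_upwards [hf.quasiMeasurePreserving.ae hT,
      hf.quasiMeasurePreserving.ae (ae_pure D w (pi_inv h) hT)] with ω hω hp
    exact ⟨til_flp hω (invar_FF hω), pure_flp D w hω (invar_FF hω) hp⟩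
  have h1 := ae_of_ae_map measurable_fl.aemeasurable (ae_finMod hν (mset_pure D w).compl h0)
  filter_upwards [hT, Measure.ae_ae_of_ae_prod h1] with p hp h
  refine pure_of_unor hp ?_
  filter_upwards [h] with ξ hξ p' hp' hfm
  exact (not_not.1 (hξ (til_flp hp (invar_FF (ω := (p, ξ)) hp)) p' hp' hfm)).2

end prob

lemma cm_flp {p : Om} (hp : Til p) {F : Set V} (hF : Invar p F) {x y : V}
    (h : Cm (flp F p) x y) : Cm p x y := by
  refine closed_cm (til_flp hp hF) (G := {y | Cm p x y}) (fun z hz => ?_) h (Cm.refl p x)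
  simp only [flp, Set.mem_ofPred_eq] at hz ⊢
  split_ifs
  · exact ⟨hz.trans (cm_snd hp z), hz.trans (cm_fst hp z)⟩
  · exact ⟨hz.trans (cm_fst hp z), hz.trans (cm_snd hp z)⟩

lemma inf_flp {p : Om} (hp : Til p) {F : Set V} (hF : Invar p F) {x : V} (h : Inf p x) :
    Inf (flp F p) x := by
  rw [inf_iff_infinite] at h ⊢
  refine h.mono fun y hy => cm_flp (til_flp hp hF) (invar_flp hF F) ?_
  rwa [flp_flp]

lemma other {p : Om} (hp : Til p) (h : ¬ One p) (x : V) :
    ∃ y, Ev y ∧ Inf p y ∧ ¬ Cm p x y := by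
  by_contra hcon
  push Not at hcon
  have key : ∀ y, Inf p y → Cm p x y := fun y hy => by
    by_cases he : Ev y
    · exact hcon y he hy
    · exact (hcon (p.1 y) ((hp.1.ev y).2 he) (hy.cm (cm_fst hp y))).trans (cm_fst hp y).symm
  exact h fun a b ha hb => (key a ha).symm.trans (key b hb)

lemma vel_of_lab {p : Om} (hp : Til p) {x : V} (hx : Ev x) (h : ∀ w, OutLab ∅ w p x 0)
    (i : Fin 3) : vel i p x = 0 := by
  have h1 := ((outLab_even hp hx 0).1 (h (Pi.single i 1))).sub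
    ((outLab_even hp hx 0).1 (h (-Pi.single i 1)))
  rw [sub_zero] at h1
  refine Tendsto.limsup_eq (h1.congr fun n => ?_)
  simp only [avg]
  rw [← mul_sub, ← sum_sub_distrib]
  congr 1
  refine sum_congr rfl fun k _ => ?_
  have hy := (ev_iter tm_ev p k x).2 hx
  generalize (Tm p)^[k] x = y at hy
  have u1 := unit_coord (d := p.1 y - y) (hp.1 y).1 i
  have u2 := unit_coord (d := p.2 y - y) (hp.2 y).1 i
  simp only [sub_eq_iff_eq_add', Pi.sub_apply] at u1 u2
  have hd : dbl ∅ p y := fun _ h => absurd h (notMem_empty _)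
  simp only [gv, hy, hd, and_self, if_true, dv, if_pos hp]
  push_cast at u1 u2 ⊢
  linarith

/-- the velocity vanishes when the mean current of the flipped pair is interior -/
lemma vel_zero_of {c : Fin 3 → ℝ} (hc : ∑ i, |c i| < 1) {p : Om} (hp : Til p) {F : Set V}
    (hF : Invar p F) (h1 : ¬ One p) (hU : ∀ w p', Til p' → Unor p p' → Pure ∅ w p')
    (hC : ∀ x, Ev x → Conv (flp F p) x)
    (hg : ∀ δ : ℝ, 0 < δ → ∀ K l0 : ℕ, ∃ m l : ℕ, 0 < m ∧ l0 ≤ l ∧
      (m : ℝ) ≤ δ * l ∧ Good c δ K m l (flp F p)) {x : V} (hx : Ev x) (i : Fin 3) :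
    vel i p x = 0 := by
  by_cases hi : Inf p x
  swap
  · exact vel_eq_zero i hp hx hi
  refine vel_of_lab hp hx (fun w => ?_) i
  have hq := til_flp hp hF
  obtain ⟨y, e2, i2, hy⟩ := other hp h1 x
  have hL : OutLab ∅ w (flp F p) x 0 := by
    refine endgame c hc ∅ w _ hq
      (fun p' a b => hU w p' a (EG.Unor_trans (EG.unor_flp F p) b)) x y hx e2
      (by rw [← prm_coe hq]; exact inf_flp hp hF hi)
      (by rw [← prm_coe hq]; exact inf_flp hp hF i2) (fun k => ?_)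
      (ray_close hq hx e2 (hC x hx) (hC y e2) hg)
    rw [← prm_coe hq]
    exact ⟨fun e => hy (cm_flp hp hF ((cm_iff _ _ _).2 ⟨k, Or.inl e⟩)),
      fun e => hy (cm_flp hp hF ((cm_iff _ _ _).2 ⟨k, Or.inr e⟩))⟩
  by_cases hxF : x ∈ F
  · have hF' : Invar p.swap Fᶜ := fun z => ⟨not_congr (hF z).2, not_congr (hF z).1⟩
    rw [flp_compl, outLab_flp ∅ w hF' (not_not.2 hxF)] at hL
    obtain ⟨L, l1, l2⟩ := hU w p hp (Set.finite_empty.subset fun z hz => hz (Or.inl ⟨rfl, rfl⟩)) x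
    have : -L = 0 := tendsto_nhds_unique l2 hL
    rwa [neg_eq_zero.1 this] at l1
  · exact (outLab_flp ∅ w hF hxF 0).1 hL

lemma card_ev {l : ℕ} (hl : Even l) : (l : ℝ) ^ 3 ≤ 2 * #{x ∈ cell l 0 | Ev x} := by
  have h1 : #{x ∈ cell l 0 | ¬ Ev x} ≤ #{x ∈ cell l 0 | Ev x} := by
    obtain ⟨k, rfl⟩ := hl
    refine card_le_card_of_injOn (fun x => Function.update x 0 (2 * k - 1 - x 0))
      (fun x hx => ?_) fun x _ y _ h => ?_
    · simp only [coe_filter, Set.mem_ofPred_eq, mem_cell, Ev, Fin.sum_univ_three, Pi.zero_apply,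
        mul_zero, Fin.forall_fin_succ, Int.even_iff] at hx ⊢
      simp at hx ⊢
      omega
    · funext j
      have := congrFun h j
      by_cases hj : j = 0
      · subst hj
        simp only [Function.update_self] at this
        omega
      · simpa [Function.update_of_ne hj] using this
  have h2 : #{x ∈ cell l 0 | Ev x} + #{x ∈ cell l 0 | ¬ Ev x} = #(cell l 0) :=
    card_filter_add_card_filter_not _
  rw [card_cell] at h2
  have : l ^ 3 ≤ 2 * #{x ∈ cell l 0 | Ev x} := by omega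
  exact_mod_cast this

lemma zero_mem : (0 : V) ∈ box (0 + 1) := mem_box.2 fun _ => by simp

/-- the two currents agree if all moving points lie on one component -/
lemma eq_of_vel {S : Cfg → Fin 3 → ℝ} {p : Om} (hp : Til p)
    (hv : ∀ i x y, Ev x → Ev y → vel i p x ≠ 0 → vel i p y ≠ 0 → Cm p x y)
    (hg : ∀ δ : ℝ, 0 < δ → ∀ K l0 : ℕ, ∃ m l : ℕ, 0 < m ∧ l0 ≤ l ∧ Even l ∧
      (m : ℝ) ≤ δ * l ∧ G2 S δ K m l p) : S p.1 = S p.2 := by
  funext i
  have key : ∀ t : ℝ, 0 < t → t ≤ 1 → |S p.1 i - S p.2 i| ≤ 106 * t := by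
    intro t ht ht1
    obtain ⟨m, l, hm, hl, hl2, hml, h⟩ := hg (t ^ 2) (by positivity) 0 1
    have hl' : (0 : ℝ) < l := by exact_mod_cast hl
    obtain ⟨e1, e3⟩ := h.2.2.err zero_mem i
    rw [← sum_div, div_le_iff₀ (by positivity)] at e3
    have e2 : (m : ℝ) * (l : ℝ) ^ 2 ≤ t ^ 2 * (l : ℝ) ^ 3 :=
      (mul_le_mul_of_nonneg_right hml (by positivity)).trans (le_of_eq (by ring))
    have a2 := sumd i hp Set.univ ∅ hm (fun _ _ _ _ _ _ => trivial) l 0
    simp only [Set.mem_univ, and_true, card_empty, Nat.cast_zero, zero_add] at a2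
    rw [dev_sub (S p.1) hp, dev_chg (S p.1) (S p.2) p.2] at a2
    set T := ∑ x ∈ cell l 0 with Ev x, |vel i p x| with hT
    have hT2 : T ^ 2 ≤ (2 * t * (l : ℝ) ^ 3) ^ 2 := by
      rw [sq T]
      nth_rewrite 1 [hT]
      rw [sum_mul]
      refine (sum_le_sum (g := fun x => 4 * Nl i p x l) fun x hx => ?_).trans ?_
      · rw [mem_filter] at hx
        by_cases h0 : vel i p x = 0
        · simp [h0, Nl_nonneg]
        have h3 := sum_vel_cm i hp hx.2 (cell l 0) l (cell_sub hx.1)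
        have h4 : T = ∑ y ∈ cell l 0 with (Ev y ∧ Cm p x y), |vel i p y| := by
          rw [hT, ← filter_filter, sum_filter (p := fun y => Cm p x y)]
          refine sum_congr rfl fun y hy => ?_
          split_ifs with h5
          · rfl
          · by_contra h6
            exact h5 (hv i x y hx.2 (mem_filter.1 hy).2 h0 fun h7 => h6 (by rw [h7, abs_zero]))
        rw [← h4] at h3
        have h5 : 0 ≤ T := sum_nonneg fun _ _ => abs_nonneg _
        nlinarith [abs_vel_le i p x, abs_nonneg (vel i p x)]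
      · rw [← mul_sum]; nlinarith
    have hT3 : T ≤ 2 * t * (l : ℝ) ^ 3 := le_of_sq_le_sq hT2 (by positivity)
    have a3 := abs_le.1 ((abs_sum_le_sum_abs _ _).trans hT3)
    have b1 := abs_le.1 (h.1 0 zero_mem i)
    have b2 := abs_le.1 (h.2.1 0 zero_mem i)
    have b3 := card_ev hl2
    have b4 : t ^ 2 * (l : ℝ) ^ 3 ≤ t * (l : ℝ) ^ 3 :=
      mul_le_mul_of_nonneg_right (by nlinarith) (by positivity)
    have b5 : |(#{x ∈ cell l 0 | Ev x} : ℝ) * (S p.2 i - S p.1 i)| ≤ 53 * (t * (l : ℝ) ^ 3) := by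
      rw [abs_le] at a2 ⊢
      constructor <;> linarith [a2.1, a2.2, a3.1, a3.2]
    rw [abs_mul, abs_of_nonneg (by positivity), abs_sub_comm] at b5
    have b6 := mul_le_mul_of_nonneg_right b3 (abs_nonneg (S p.1 i - S p.2 i))
    have b7 : (l : ℝ) ^ 3 * |S p.1 i - S p.2 i| ≤ (l : ℝ) ^ 3 * (106 * t) := by linarith
    exact le_of_mul_le_mul_left b7 (by positivity)
  rw [← sub_eq_zero, ← abs_nonpos_iff]
  refine le_of_forall_pos_le_add fun ε hε => ?_
  have := key (min 1 (ε / 106)) (by positivity) (min_le_left _ _)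
  have h2 : min 1 (ε / 106) ≤ ε / 106 := min_le_right _ _
  linarith

lemma l1_le {a : Fin 3 → ℝ} {σ : Cfg} (hσ : IsTiling σ)
    (hg : ∀ δ : ℝ, 0 < δ → ∃ l : ℕ, 1 ≤ l ∧ Even l ∧ Close a δ 0 l σ) : ∑ i, |a i| ≤ 1 := by
  refine le_of_forall_pos_le_add fun ε hε => ?_
  obtain ⟨l, hl, hl2, h⟩ := hg (ε / 6) (by positivity)
  have hl' : (0 : ℝ) < l := by exact_mod_cast hl
  have b3 := card_ev hl2
  obtain ⟨N, hN⟩ : ∃ N : ℝ, N = (#{x ∈ cell l 0 | Ev x} : ℕ) := ⟨_, rfl⟩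
  rw [← hN] at b3
  have hN0 : 0 < N := by
    have : (0 : ℝ) < (l : ℝ) ^ 3 := by positivity
    linarith
  have h1 : ∀ i, N * |a i| ≤ ε / 6 * (l : ℝ) ^ 3 +
      ∑ x ∈ cell l 0 with Ev x, |((σ x i - x i : ℤ) : ℝ)| := by
    intro i
    have h2 := h 0 zero_mem i
    rw [dev_chg a 0, ← hN] at h2
    have h3 : |dev 0 σ i (cell l 0)| ≤ ∑ x ∈ cell l 0 with Ev x, |((σ x i - x i : ℤ) : ℝ)| := by
      refine (abs_sum_le_sum_abs _ _).trans (le_of_eq ?_)
      simp
    rw [← abs_of_pos hN0, ← abs_mul]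
    rw [abs_le] at h2 h3 ⊢
    simp only [Pi.zero_apply] at h2
    constructor <;> linarith [h2.1, h2.2, h3.1, h3.2]
  have h2 := sum_le_sum fun i (_ : i ∈ univ) => h1 i
  have h4 : ∑ x ∈ cell l 0 with Ev x, ∑ i, |((σ x i - x i : ℤ) : ℝ)| = N := by
    rw [hN, card_eq_sum_ones, Nat.cast_sum]
    refine sum_congr rfl fun x _ => ?_
    have := (hσ x).1
    unfold Adj at this
    exact_mod_cast this
  rw [← mul_sum, sum_add_distrib, sum_comm, h4] at h2
  simp only [sum_const, card_univ, Fintype.card_fin, nsmul_eq_mul] at h2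
  have h3 : N * ∑ i, |a i| ≤ N * (1 + ε) := by
    have := mul_le_mul_of_nonneg_left b3 hε.le
    push_cast at h2
    nlinarith
  exact le_of_mul_le_mul_left h3 hN0

/-- the final measure theoretic step -/
lemma const_of {X : Type} [MeasurableSpace X] {μ : Measure X} [IsProbabilityMeasure μ]
    {S : X → Fin 3 → ℝ} (hm : Measurable S) (hb : ∀ σ i, |S σ i| ≤ 1)
    (h1 : ∀ᵐ σ ∂μ, ∑ i, |S σ i| ≤ 1) (hs : ∑ i, |∫ σ, S σ i ∂μ| < 1)
    (h : ∀ᵐ p ∂(μ.prod μ), ∑ i, |(S p.1 i + S p.2 i) / 2| < 1 → S p.1 = S p.2) :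
    ∀ᵐ σ ∂μ, ∀ i, S σ i = ∫ τ, S τ i ∂μ := by
  have hlt : ∀ a b : Fin 3 → ℝ, ∑ i, |(a i + b i) / 2| = (∑ i, |a i + b i|) / 2 := fun a b => by
    rw [sum_div]
    exact sum_congr rfl fun i _ => by rw [abs_div, abs_two]
  by_cases hc : ∃ σ, ∑ i, |S σ i| < 1 ∧
      ∀ᵐ τ ∂μ, ∑ i, |(S σ i + S τ i) / 2| < 1 → S σ = S τ
  · obtain ⟨σ, a, b⟩ := hc
    have e : ∀ᵐ τ ∂μ, S τ = S σ := by
      filter_upwards [b, h1] with τ c d
      refine (c ?_).symm
      have := sum_le_sum fun i (_ : i ∈ univ) => abs_add_le (S σ i) (S τ i)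
      rw [sum_add_distrib] at this
      rw [hlt]
      linarith
    filter_upwards [e] with τ c i
    rw [integral_congr_ae (g := fun _ => S σ i) (e.mono fun ρ d => congrFun d i), c]
    simp
  exfalso
  have e1 : ∀ᵐ σ ∂μ, ∑ i, |S σ i| = 1 := by
    filter_upwards [h1, Measure.ae_ae_of_ae_prod h] with σ a b
    exact a.antisymm (not_lt.1 fun c => hc ⟨σ, c, b⟩)
  have e2 : ∀ᵐ p ∂(μ.prod μ), ∀ i, S p.1 i * S p.2 i = |S p.1 i| * |S p.2 i| := by
    filter_upwards [h, (measurePreserving_fst (μ := μ) (ν := μ)).quasiMeasurePreserving.ae e1,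
      (measurePreserving_snd (μ := μ) (ν := μ)).quasiMeasurePreserving.ae e1] with p a b c i
    by_cases d : S p.1 = S p.2
    · rw [d, abs_mul_abs_self]
    have d2 : ∑ i, (|S p.1 i| + |S p.2 i|) ≤ ∑ i, |S p.1 i + S p.2 i| := by
      have := not_lt.1 fun e => d (a e)
      rw [hlt] at this
      rw [sum_add_distrib]
      linarith
    have d3 := (sum_eq_sum_iff_of_le fun i (_ : i ∈ univ) => abs_add_le (S p.1 i) (S p.2 i)).1
      (le_antisymm (sum_le_sum fun i _ => abs_add_le _ _) d2) i (mem_univ i)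
    have d4 := congrArg (· ^ 2) d3
    simp only [sq_abs, add_sq] at d4
    linarith
  have hmi : ∀ i, Measurable fun σ => S σ i := fun i => (measurable_pi_apply i).comp hm
  have e3 : ∀ i, |∫ σ, S σ i ∂μ| = ∫ σ, |S σ i| ∂μ := by
    intro i
    have := integral_congr_ae (e2.mono fun p a => a i)
    rw [integral_prod_mul (fun σ => S σ i) fun σ => S σ i,
      integral_prod_mul (fun σ => |S σ i|) fun σ => |S σ i|, ← abs_mul_abs_self] at this
    exact (mul_self_inj (abs_nonneg _) (integral_nonneg fun _ => abs_nonneg _)).1 this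
  rw [sum_congr rfl fun i _ => e3 i, ← integral_finsetSum _ fun i _ =>
    integrable_of_bdd (hmi i).abs 1 fun σ => by rw [abs_abs]; exact hb σ i,
    integral_congr_ae e1] at hs
  simp at hs

end Cur

open Cur in
theorem cur_of (h : SStmt) : CurStmt := by
  intro s μ hs hμ hν
  obtain ⟨S, hm, hb, -, hS, hI⟩ := h s μ hμ
  have := hμ.prob
  have := nu_prob hμ
  have hf := measurePreserving_fst (μ := μ.prod μ) (ν := coins)
  have hG := ae_gen (μ.prod μ) (G2 S) (fun _ _ _ _ _ _ hd hg => G2.mono hg hd)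
    fun δ η hδ hη K => g2_prob hμ hS hδ hη K
  have h1 : ∀ᵐ σ ∂μ, ∑ i, |S σ i| ≤ 1 := by
    have : ∀ᵐ p ∂(μ.prod μ), ∑ i, |S p.1 i| ≤ 1 := by
      filter_upwards [pi_til hμ, hG] with p hp hg
      refine l1_le hp.1 fun δ hδ => ?_
      obtain ⟨m, l, -, a, b, -, c⟩ := hg δ hδ 0 1
      exact ⟨l, a, b, c.1⟩
    filter_upwards [Measure.ae_ae_of_ae_prod this] with σ a
    exact a.exists.choose_spec
  have h2 : ∀ i, ∫ σ, S σ i ∂μ = s i := by
    intro i
    have := hI Set.univ MeasurableSet.univ (fun _ _ => rfl) i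
    rw [Measure.restrict_univ, Set.univ_inter, Set.univ_inter] at this
    rw [← this, hμ.cur i]
    rfl
  have h3 : ∀ᵐ ω ∂((μ.prod μ).prod coins), ∑ i, |mid S ω.1 i| < 1 → S ω.1.1 = S ω.1.2 := by
    filter_upwards [hf.quasiMeasurePreserving.ae (pi_til hμ), hf.quasiMeasurePreserving.ae hG,
      hf.quasiMeasurePreserving.ae (ae_all_iff.2 fun w => ae_unor2 hμ hν ∅ w),
      ae_of_ae_map measurable_fl.aemeasurable (ae_conv (ν := nu μ) (fl_evInv (pi_inv hμ))),
      ae_good2 hμ hS] with ω hp hg hU hC hq hc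
    refine eq_of_vel hp (fun i x y hx hy a b => ?_) hg
    by_cases ho : One ω.1
    · exact ho x y (not_not.1 fun e => a (vel_eq_zero i hp hx e))
        (not_not.1 fun e => b (vel_eq_zero i hp hy e))
    · refine absurd (vel_zero_of hc hp (invar_FF hp) ho hU hC (fun δ hδ K l0 => ?_) hx i) a
      obtain ⟨m, l, a1, a2, -, a3, a4⟩ := hq δ hδ K l0
      exact ⟨m, l, a1, a2, a3, a4⟩
  have h4 := const_of hm hb h1 (by simp only [h2]; exact hs) (by
    filter_upwards [Measure.ae_ae_of_ae_prod h3] with p a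
    exact a.exists.choose_spec)
  intro A hA hinv i
  rw [hI A hA hinv i, setIntegral_congr_ae hA (g := fun _ => s i)
    (h4.mono fun σ a _ => (a i).trans (h2 i)), setIntegral_const, smul_eq_mul, mul_comm]

end Pool.Agent.Lib.MP_640444_pr
end

-- part Pool.Agent.Lib.MP_640444_pr.Approx
section

/-!
Periodic approximations of an entropy maximiser.
-/

set_option autoImplicit false
open MeasureTheory Filter Finset
open scoped Classical Topology ENNReal

namespace Pool.Agent.Lib.MP_640444_pr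

namespace Approx

/-- reduction modulo `n` -/
def md (n : ℕ) (x : V) : V := fun i => x i % (n : ℤ)

lemma mem_cell0 {n : ℕ} {x : V} : x ∈ cell n 0 ↔ ∀ i, 0 ≤ x i ∧ x i < n := by
  simp [mem_cell]

lemma md_mem {n : ℕ} (hn : 0 < n) (x : V) : md n x ∈ cell n 0 :=
  mem_cell0.2 fun i => ⟨Int.emod_nonneg _ (by omega), Int.emod_lt_of_pos _ (by omega)⟩

lemma md_of_mem {n : ℕ} {x : V} (h : x ∈ cell n 0) : md n x = x :=
  funext fun i => Int.emod_eq_of_lt (mem_cell0.1 h i).1 (mem_cell0.1 h i).2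

lemma md_add_md (n : ℕ) (x y : V) : md n (md n x + y) = md n (x + y) :=
  funext fun i => by simp [md]

lemma md_add_md' (n : ℕ) (x y : V) : md n (y + md n x) = md n (y + x) := by
  rw [add_comm, md_add_md, add_comm]

lemma md_eq (n : ℕ) (x : V) : x = md n x + (n : ℤ) • fun i => x i / (n : ℤ) :=
  funext fun i => by simp [md, Int.emod_add_mul_ediv]

lemma md_add_smul (n : ℕ) (x z : V) : md n (x + (n : ℤ) • z) = md n x :=
  funext fun i => by simp [md]

lemma ev_md {n : ℕ} (hn : Even n) (x : V) : Ev (md n x) ↔ Ev x := by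
  conv_rhs => rw [md_eq n x]
  exact (ev_add (ev_smul hn _)).symm

lemma md_cancel {n : ℕ} {v : V} (hv : v ∈ cell n 0) (u : V) : md n (md n (v + u) + -u) = v := by
  rw [md_add_md, add_neg_cancel_right, md_of_mem hv]

lemma md_inj {n : ℕ} (u : V) : Set.InjOn (fun v => md n (v + u)) (cell n 0) := by
  intro v hv w hw e
  have e' : md n (v + u) = md n (w + u) := e
  rw [← md_cancel hv u, e', md_cancel hw u]

/-- even points of the cell -/
noncomputable def E (n : ℕ) : Finset V := {x ∈ cell n 0 | Ev x}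

lemma mem_E {n : ℕ} {x : V} : x ∈ E n ↔ x ∈ cell n 0 ∧ Ev x := mem_filter

lemma card_E (n : ℕ) : (E n).card = Ne n := rfl

lemma sum_E_md {M : Type} [AddCommMonoid M] {n : ℕ} (hn : 0 < n) (he : Even n) {u : V}
    (hu : Ev u) (F : V → M) : ∑ v ∈ E n, F (md n (v + u)) = ∑ v ∈ E n, F v := by
  refine sum_nbij' (fun v => md n (v + u)) (fun v => md n (v + -u)) ?_ ?_ ?_ ?_ fun _ _ => rfl
  · intro v hv
    exact mem_E.2 ⟨md_mem hn _, (ev_md he _).2 ((ev_add hu).2 (mem_E.1 hv).2)⟩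
  · intro v hv
    exact mem_E.2 ⟨md_mem hn _, (ev_md he _).2 ((ev_add (ev_neg.2 hu)).2 (mem_E.1 hv).2)⟩
  · intro v hv
    exact md_cancel (mem_E.1 hv).1 u
  · intro v hv
    simpa using md_cancel (mem_E.1 hv).1 (-u)

lemma cube_le {n : ℕ} (hn : 0 < n) (he : Even n) : n ^ 3 ≤ 2 * Ne n := by
  have h1 : Ne n + #{x ∈ cell n 0 | ¬ Ev x} = (cell n 0).card :=
    card_filter_add_card_filter_not (s := cell n 0) Ev
  have h2 : #{x ∈ cell n 0 | ¬ Ev x} ≤ Ne n := by
    refine card_le_card_of_injOn (fun v => md n (v + e0)) (fun v hv => ?_)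
      ((md_inj e0).mono (coe_subset.2 (filter_subset _ _)))
    rw [mem_coe, mem_filter] at hv ⊢
    exact ⟨md_mem hn _, (ev_md he _).2 ((adj_e0 v).ev.2 hv.2)⟩
  rw [card_cell] at h1
  omega

lemma add_smul_mem {m q : ℕ} {u z : V} (hu : u ∈ cell m 0) (hz : z ∈ cell q 0) :
    u + (m : ℤ) • z ∈ cell (m * q) 0 := by
  refine mem_cell0.2 fun i => ?_
  obtain ⟨h1, h2⟩ := mem_cell0.1 hu i
  obtain ⟨h3, h4⟩ := mem_cell0.1 hz i
  simp only [Pi.add_apply, Pi.smul_apply, smul_eq_mul, Nat.cast_mul]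
  constructor
  · positivity
  · nlinarith [mul_le_mul_of_nonneg_left (show z i + 1 ≤ q from h4) (show (0 : ℤ) ≤ m by omega)]

lemma div_mem {m q : ℕ} (hm : 0 < m) {v : V} (hv : v ∈ cell (m * q) 0) :
    (fun i => v i / (m : ℤ)) ∈ cell q 0 := by
  refine mem_cell0.2 fun i => ?_
  obtain ⟨h1, h2⟩ := mem_cell0.1 hv i
  refine ⟨Int.ediv_nonneg h1 (by omega), Int.ediv_lt_of_lt_mul (by omega) ?_⟩
  rw [mul_comm]
  exact_mod_cast h2

lemma sum_E_split {M : Type} [AddCommMonoid M] {m : ℕ} (q : ℕ) (hm : 0 < m) (he : Even m)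
    (F : V → M) : ∑ v ∈ E (m * q), F v = ∑ u ∈ E m, ∑ z ∈ cell q 0, F (u + (m : ℤ) • z) := by
  rw [← sum_product' (f := fun u z => F (u + (m : ℤ) • z))]
  refine sum_nbij' (fun v => (md m v, fun i => v i / (m : ℤ))) (fun p => p.1 + (m : ℤ) • p.2)
    ?_ ?_ ?_ ?_ ?_
  · intro v hv
    exact mem_product.2 ⟨mem_E.2 ⟨md_mem hm _, (ev_md he _).2 (mem_E.1 hv).2⟩,
      div_mem hm (mem_E.1 hv).1⟩
  · intro p hp
    obtain ⟨h1, h2⟩ := mem_product.1 hp
    exact mem_E.2 ⟨add_smul_mem (mem_E.1 h1).1 h2, (ev_add (ev_smul he _)).2 (mem_E.1 h1).2⟩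
  · intro v _
    exact (md_eq m v).symm
  · intro p hp
    obtain ⟨h1, -⟩ := mem_product.1 hp
    refine Prod.ext (by rw [md_add_smul, md_of_mem (mem_E.1 h1).1]) (funext fun i => ?_)
    obtain ⟨h3, h4⟩ := mem_cell0.1 (mem_E.1 h1).1 i
    simp only [Pi.add_apply, Pi.smul_apply, smul_eq_mul]
    rw [Int.add_mul_ediv_left _ _ (by omega), Int.ediv_eq_zero_of_lt h3 h4, zero_add]
  · intro v _
    exact congrArg F (md_eq m v)

lemma Ne_mul {m : ℕ} (q : ℕ) (hm : 0 < m) (he : Even m) : Ne (m * q) = Ne m * q ^ 3 := by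
  have := sum_E_split q hm he (fun _ => (1 : ℕ))
  simpa [card_E, card_cell] using this

/-- translate of the periodic extension -/
def tr (n : ℕ) (v : V) (σ : Cfg) : Cfg := fun x => x + (σ (md n (x + v)) - md n (x + v))

lemma measurable_tr (n : ℕ) (v : V) : Measurable (tr n v) :=
  measurable_pi_lambda _ fun x =>
    (measurable_of_countable (fun y : V => x + (y - md n (x + v)))).comp (measurable_pi_apply _)

lemma shift_tr (n : ℕ) (u v : V) (σ : Cfg) : shift u (tr n v σ) = tr n (md n (v + -u)) σ := by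
  funext x
  simp only [shift, tr, md_add_md']
  rw [show x - u + v = x + (v + -u) by abel]
  abel

lemma adj_tr {n : ℕ} (hn : 0 < n) (v : V) {σ : Cfg} (h : Adm (cell n 0) σ) (x : V) :
    Adj x (tr n v σ x) := by
  have := (h _ (md_mem hn (x + v))).1
  simpa [Adj, tr] using this

lemma tr_tr {n : ℕ} (hn : 0 < n) (v : V) {σ : Cfg} (h : Adm (cell n 0) σ) (x : V)
    (hx : σ (md n (x + v)) ∈ cell n 0) : tr n v σ (tr n v σ x) = x := by
  have h1 := (h _ (md_mem hn (x + v))).2 hx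
  have h2 : md n (tr n v σ x + v) = σ (md n (x + v)) := by
    have : tr n v σ x + v = σ (md n (x + v)) + (n : ℤ) • fun i => (x + v) i / (n : ℤ) := by
      have e := md_eq n (x + v)
      rw [← sub_eq_iff_eq_add'] at e
      rw [← e, tr]
      abel
    rw [this, md_add_smul, md_of_mem hx]
  rw [tr, h2, h1, tr]
  abel

lemma mset_adj : MeasurableSet {σ : Cfg | ∀ x, Adj x (σ x)} := by
  rw [Set.ofPred_forall]
  exact MeasurableSet.iInter fun x => mset_prop (measurable_pi_apply x) (Adj x)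

/-- the averaged periodic law -/
noncomputable def avg (n : ℕ) (P : Measure Cfg) : Measure Cfg :=
  ((Ne n : ℝ≥0∞))⁻¹ • ∑ v ∈ E n, P.map (tr n v)

lemma Ne_pos {n : ℕ} (hn : 0 < n) (he : Even n) : 0 < Ne n := by
  have := cube_le hn he
  have h2 := pow_pos hn 3
  omega

lemma avg_apply (n : ℕ) (P : Measure Cfg) {A : Set Cfg} (hA : MeasurableSet A) :
    avg n P A = ((Ne n : ℝ≥0∞))⁻¹ * ∑ v ∈ E n, P (tr n v ⁻¹' A) := by
  simp only [avg, Measure.smul_apply, Measure.finsetSum_apply, smul_eq_mul,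
    Measure.map_apply (measurable_tr n _) hA]

lemma avg_real (n : ℕ) (P : Measure Cfg) [IsProbabilityMeasure P] {A : Set Cfg}
    (hA : MeasurableSet A) :
    (avg n P).real A = ((Ne n : ℝ))⁻¹ * ∑ v ∈ E n, P.real (tr n v ⁻¹' A) := by
  rw [Measure.real, avg_apply n P hA, ENNReal.toReal_mul, ENNReal.toReal_inv,
    ENNReal.toReal_sum fun _ _ => measure_ne_top _ _]
  simp [Measure.real]

lemma avg_prob {n : ℕ} (hn : 0 < n) (he : Even n) (P : Measure Cfg) [IsProbabilityMeasure P] :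
    IsProbabilityMeasure (avg n P) := by
  constructor
  rw [avg_apply n P MeasurableSet.univ]
  simp only [Set.preimage_univ, measure_univ, sum_const, card_E, nsmul_eq_mul, mul_one]
  exact ENNReal.inv_mul_cancel (by simpa using (Ne_pos hn he).ne') (by simp)

lemma avg_adj {n : ℕ} (hn : 0 < n) {P : Measure Cfg} (h : ∀ᵐ σ ∂P, Adm (cell n 0) σ) :
    ∀ᵐ σ ∂(avg n P), ∀ x, Adj x (σ x) := by
  refine Measure.ae_smul_measure (ae_finsetSum_measure_iff.2 fun v _ => ?_) _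
  rw [ae_map_iff (measurable_tr n v).aemeasurable mset_adj]
  filter_upwards [h] with σ hσ using adj_tr hn v hσ

lemma avg_inv {n : ℕ} (hn : 0 < n) (he : Even n) (P : Measure Cfg) {u : V} (hu : Ev u) :
    Measure.map (shift u) (avg n P) = avg n P := by
  ext A hA
  rw [Measure.map_apply (measurable_shift u) hA, avg_apply n P (measurable_shift u hA),
    avg_apply n P hA, ← sum_E_md hn he (ev_neg.2 hu) fun v => P (tr n v ⁻¹' A)]
  congr 1
  refine sum_congr rfl fun v _ => ?_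
  congr 1
  ext σ
  simp only [Set.mem_preimage, shift_tr]

lemma avg_cur {n : ℕ} (hn : 0 < n) (he : Even n) {s : Fin 3 → ℝ} {P : Measure Cfg}
    (h : Feas s n P) (i : Fin 3) :
    s i = (avg n P).real {σ | σ 0 = Pi.single i 1} - (avg n P).real {σ | σ 0 = -Pi.single i 1} := by
  obtain ⟨hP, hA, hI⟩ := h
  have m : ∀ d : V, MeasurableSet {σ : Cfg | σ 0 = d} := fun d =>
    mset_eq (measurable_pi_apply 0) measurable_const
  have m' : ∀ v d : V, MeasurableSet (tr n v ⁻¹' {σ : Cfg | σ 0 = d}) := fun v d =>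
    measurable_tr n v (m d)
  let g : V → V → Cfg → ℝ := fun v d => (tr n v ⁻¹' {σ : Cfg | σ 0 = d}).indicator 1
  have gi : ∀ v d, Integrable (g v d) P := fun v d =>
    (integrable_const (1 : ℝ)).indicator (m' v d)
  have ge : ∀ v d, ∫ σ, g v d σ ∂P = P.real (tr n v ⁻¹' {σ : Cfg | σ 0 = d}) := fun v d =>
    integral_indicator_one (m' v d)
  have e1 : ∫ σ, dev s σ i (cell n 0) ∂P =
      ∫ σ, ∑ v ∈ E n, (g v (Pi.single i 1) σ - g v (-Pi.single i 1) σ - s i) ∂P := by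
    refine integral_congr_ae ?_
    filter_upwards [hA] with σ hσ
    refine sum_congr rfl fun v hv => ?_
    have hv' := (mem_E.1 hv).1
    have e : tr n v σ 0 = σ v - v := by simp [tr, md_of_mem hv']
    have := unit_coord (d := σ v - v) (hσ v hv').1 i
    simp only [g, Set.indicator_apply, Set.mem_preimage, Set.mem_ofPred_eq, e, Pi.one_apply]
    rw [← this]
    simp
  rw [hI i, integral_finsetSum (E n)
    (f := fun v σ => g v (Pi.single i 1) σ - g v (-Pi.single i 1) σ - s i) fun v _ =>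
    ((gi v _).sub (gi v _)).sub (integrable_const _)] at e1
  have e2 : ∀ v, ∫ σ, (g v (Pi.single i 1) σ - g v (-Pi.single i 1) σ - s i) ∂P =
      P.real (tr n v ⁻¹' {σ : Cfg | σ 0 = Pi.single i 1}) -
        P.real (tr n v ⁻¹' {σ : Cfg | σ 0 = -Pi.single i 1}) - s i := by
    intro v
    rw [integral_sub (f := fun σ => g v (Pi.single i 1) σ - g v (-Pi.single i 1) σ)
      ((gi v _).sub (gi v _)) (integrable_const _), integral_sub (gi v _) (gi v _), ge, ge]
    simp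
  simp only [e2, sum_sub_distrib, sum_const, card_E, nsmul_eq_mul] at e1
  have hN : (0 : ℝ) < Ne n := by exact_mod_cast Ne_pos hn he
  rw [avg_real n P (m _), avg_real n P (m _), ← mul_sub, eq_inv_mul_iff_mul_eq₀ hN.ne']
  linarith

lemma avg_fail {n : ℕ} (hn : 0 < n) (he : Even n) {P : Measure Cfg} [IsProbabilityMeasure P]
    (hA : ∀ᵐ σ ∂P, Adm (cell n 0) σ) (x : V) :
    (avg n P).real {σ | σ (σ x) ≠ x} ≤ 12 / n := by
  have m : MeasurableSet {σ : Cfg | σ (σ x) ≠ x} :=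
    (mset_eq (meas_app measurable_id (measurable_pi_apply x)) measurable_const).compl
  let B : V → Prop := fun w => ∃ y, Adj w y ∧ y ∉ cell n 0
  let φ : V → V := fun w => if h : B w then h.choose else w
  have hφ : ∀ w i, |φ w i - w i| ≤ (1 : ℕ) := by
    intro w i
    by_cases h : B w
    · simpa [φ, h] using h.choose_spec.1.coord i
    · simp [φ, h]
  have c1 : #{w ∈ cell n 0 | B w} ≤ 6 * n ^ 2 := by
    refine (card_le_card fun w hw => ?_).trans ((card_exit n 0 φ 1 hφ).trans (by simp))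
    rw [mem_filter] at hw ⊢
    exact ⟨hw.1, by simpa [φ, hw.2] using hw.2.choose_spec.2⟩
  have c2 : #{v ∈ E n | B (md n (v + x))} ≤ 6 * n ^ 2 := by
    refine (card_le_card_of_injOn (fun v => md n (v + x)) (fun v hv => ?_)
      ((md_inj x).mono fun v hv => ?_)).trans c1
    · rw [mem_coe, mem_filter] at hv ⊢
      exact ⟨md_mem hn _, hv.2⟩
    · exact (mem_E.1 (mem_filter.1 hv).1).1
  have c3 : ∀ v, P.real (tr n v ⁻¹' {σ : Cfg | σ (σ x) ≠ x}) ≤
      if B (md n (v + x)) then 1 else 0 := by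
    intro v
    split_ifs with h
    · exact measureReal_le_one
    · refine le_of_eq ((measureReal_eq_zero_iff (measure_ne_top _ _)).2 ?_)
      refine measure_eq_zero_iff_ae_notMem.2 ?_
      filter_upwards [hA] with σ hσ h'
      refine h' (tr_tr hn v hσ x ?_)
      by_contra h2
      rw [add_comm] at h2
      exact h ⟨_, (hσ _ (md_mem hn _)).1, h2⟩
  have c4 : ∑ v ∈ E n, P.real (tr n v ⁻¹' {σ : Cfg | σ (σ x) ≠ x}) ≤ 6 * (n : ℝ) ^ 2 := by
    refine (sum_le_sum fun v _ => c3 v).trans ?_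
    rw [sum_boole]
    exact_mod_cast c2
  have hN : (0 : ℝ) < Ne n := by exact_mod_cast Ne_pos hn he
  have hn' : (0 : ℝ) < n := by exact_mod_cast hn
  have c5 : (n : ℝ) ^ 3 ≤ 2 * Ne n := by exact_mod_cast cube_le hn he
  rw [avg_real n P m, inv_mul_le_iff₀ hN]
  refine c4.trans ?_
  rw [← mul_div_assoc, le_div_iff₀ hn']
  nlinarith

lemma mset_res (T : Finset V) (a : Cfg) : MeasurableSet (res1 T ⁻¹' {a}) :=
  measurable_res1 T (measurableSet_singleton a)

lemma res1_mem {T : Finset V} {σ : Cfg} (h : ∀ v ∈ T, Adj v (σ v)) : res1 T σ ∈ Ent.Pat1 T :=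
  Ent.mem_Pat1.2 ⟨fun v hv => by simpa [res1, hv] using Ent.Adj.sub_mem (h v hv),
    fun v hv => by simp [res1, hv]⟩

/-- concavity of entropy -/
lemma avg_ent {n : ℕ} (hn : 0 < n) (he : Even n) (P : Measure Cfg) [IsProbabilityMeasure P]
    (T : Finset V) : ((Ne n : ℝ))⁻¹ * ∑ v ∈ E n, Hv P (res1 T ∘ tr n v) (Ent.Pat1 T) ≤
      H1 (avg n P) T := by
  have hN : (0 : ℝ) < Ne n := by exact_mod_cast Ne_pos hn he
  unfold H1 Hv ent
  rw [sum_comm, mul_sum]
  refine sum_le_sum fun a _ => ?_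
  have := Real.concaveOn_negMulLog.le_map_sum (t := E n) (w := fun _ => ((Ne n : ℝ))⁻¹)
    (p := fun v => P.real (tr n v ⁻¹' (res1 T ⁻¹' {a}))) (fun _ _ => by positivity)
    (by simp [card_E, hN.ne']) (fun _ _ => measureReal_nonneg)
  simp only [smul_eq_mul, ← mul_sum] at this
  beta_reduce
  rw [avg_real n P (mset_res T a)]
  exact this

/-- the patterns on the translated subcells determine the pattern on the cell -/
lemma split_ent (h : ShanStmt) {m q : ℕ} (hm : 0 < m) (hq : 0 < q) (P : Measure Cfg)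
    [IsProbabilityMeasure P] (hA : ∀ᵐ σ ∂P, Adm (cell (m * q) 0) σ) (u : V) :
    H1 P (cell (m * q) 0) ≤ ∑ z ∈ cell q 0,
      Hv P (res1 (cell m 0) ∘ tr (m * q) (u + (m : ℤ) • z)) (Ent.Pat1 (cell m 0)) := by
  have hn : 0 < m * q := Nat.mul_pos hm hq
  refine h Cfg Cfg V P (fun _ => Cfg) (cell q 0) (res1 (cell (m * q) 0)) _
    (fun z => res1 (cell m 0) ∘ tr (m * q) (u + (m : ℤ) • z)) (fun _ => Ent.Pat1 (cell m 0))
    {σ | Adm (cell (m * q) 0) σ} (mset_res _) (fun z b => measurable_tr _ _ (mset_res _ b)) hA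
    (fun σ hσ => ⟨res1_mem fun v hv => (hσ v hv).1, fun z _ =>
      res1_mem fun v _ => adj_tr hn _ hσ v⟩) ?_
  intro σ _ σ' _ e
  refine res1_eq_iff.2 fun w hw => ?_
  set y := md (m * q) (w + -u) with hy
  have h1 := res1_eq_iff.1 (e _ (div_mem hm (md_mem hn (w + -u)))) (md m y) (md_mem hm y)
  have h2 : md (m * q) (md m y + (u + (m : ℤ) • fun i => y i / (m : ℤ))) = w := by
    rw [add_comm u, ← add_assoc, ← md_eq m y, hy]
    simpa using md_cancel hw (-u)
  simp only [tr] at h1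
  rw [← hy, h2] at h1
  simpa using h1

lemma avg_H1 (h : ShanStmt) {m q : ℕ} (hm : 0 < m) (he : Even m) (hq : 0 < q) (P : Measure Cfg)
    [IsProbabilityMeasure P] (hA : ∀ᵐ σ ∂P, Adm (cell (m * q) 0) σ) :
    H1 P (cell (m * q) 0) / (q : ℝ) ^ 3 ≤ H1 (avg (m * q) P) (cell m 0) := by
  refine le_trans ?_ (avg_ent (Nat.mul_pos hm hq) (he.mul_right q) P _)
  have hN : (0 : ℝ) < Ne m := by exact_mod_cast Ne_pos hm he
  have hq' : (0 : ℝ) < (q : ℝ) ^ 3 := by positivity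
  have h1 := sum_le_sum fun u (_ : u ∈ E m) => split_ent h hm hq P hA u
  rw [sum_const, card_E, nsmul_eq_mul] at h1
  rw [sum_E_split q hm he, Ne_mul q hm he, Nat.cast_mul, Nat.cast_pow,
    le_inv_mul_iff₀ (mul_pos hN hq'), mul_assoc, mul_div_cancel₀ _ hq'.ne']
  exact h1

/-- brickwork tilings -/
noncomputable def br (d : V) : Cfg := fun x => if Ev x then x + d else x - d

lemma br_adm {d : V} (hd : ∑ j, |d j| = 1) (Λ : Finset V) : Adm Λ (br d) := by
  intro x _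
  have a1 : Adj x (br d x) := by
    unfold br
    split_ifs
    · simpa [Adj] using hd
    · simpa [Adj] using hd
  refine ⟨a1, fun _ => ?_⟩
  have a2 := a1.ev
  by_cases hx : Ev x
  · rw [br, if_neg (by simpa [hx] using a2), br, if_pos hx]
    abel
  · rw [br, if_pos (by simpa [hx] using a2), br, if_neg hx]
    abel

lemma dev_br (s : Fin 3 → ℝ) (d : V) (i : Fin 3) (n : ℕ) :
    dev s (br d) i (cell n 0) = Ne n * ((d i : ℝ) - s i) := by
  unfold dev
  rw [sum_congr rfl (g := fun _ => (d i : ℝ) - s i) fun x hx => by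
    simp [br, (mem_filter.1 hx).2], sum_const, nsmul_eq_mul, Ne]

lemma feas_ne {s : Fin 3 → ℝ} (hs : Int0 s) (n : ℕ) : ∃ P, Feas s n P := by
  let κ : ℝ := (1 - ∑ i, |s i|) / 6
  have hκ : 0 ≤ κ := by
    have : ∑ i, |s i| < 1 := hs
    simp only [κ]
    linarith
  let w : Fin 3 × Bool → ℝ := fun p => κ + if p.2 then max (s p.1) 0 else max (-s p.1) 0
  let d : Fin 3 × Bool → V := fun p => if p.2 then Pi.single p.1 1 else -Pi.single p.1 1
  have hw : ∀ p, 0 ≤ w p := fun p => by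
    simp only [w]
    split_ifs <;> positivity
  have hd : ∀ p, ∑ j, |d p j| = 1 := by
    rintro ⟨i, b⟩
    cases b <;> fin_cases i <;> simp [d, Fin.sum_univ_three]
  have hm : ∀ i, max (s i) 0 + max (-s i) 0 = |s i| := fun i => max_zero_add_max_neg_zero_eq_abs_self _
  have hm' : ∀ i, max (s i) 0 - max (-s i) 0 = s i := fun i => max_zero_sub_max_neg_zero_eq_self _
  have w1 : ∑ p, w p = 1 := by
    have h0 := hm 0
    have h1 := hm 1
    have h2 := hm 2
    simp only [w, κ, Fintype.sum_prod_type, Fin.sum_univ_three, Fintype.sum_bool, if_true,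
      Bool.false_eq_true, if_false]
    linarith
  have w2 : ∀ i, ∑ p, w p * (d p i : ℝ) = s i := by
    intro i
    have h0 := hm' 0
    have h1 := hm' 1
    have h2 := hm' 2
    fin_cases i <;> simp [w, d, Fintype.sum_prod_type, Fin.sum_univ_three] <;> linarith
  refine ⟨∑ p, ENNReal.ofReal (w p) • Measure.dirac (br (d p)), ⟨?_⟩, ?_, fun i => ?_⟩
  · simp only [Measure.finsetSum_apply, Measure.smul_apply, measure_univ, smul_eq_mul, mul_one]
    rw [← ENNReal.ofReal_sum_of_nonneg fun p _ => hw p, w1, ENNReal.ofReal_one]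
  · refine ae_finsetSum_measure_iff.2 fun p _ => Measure.ae_smul_measure ?_ _
    rw [ae_dirac_eq]
    exact br_adm (hd p) _
  · rw [integral_finsetSum_measure fun p _ =>
      (integrable_dirac (by simp)).smul_measure ENNReal.ofReal_ne_top]
    simp only [integral_smul_measure, integral_dirac, dev_br, ENNReal.toReal_ofReal (hw _),
      smul_eq_mul]
    have : ∀ p, w p * (Ne n * ((d p i : ℝ) - s i)) = Ne n * (w p * d p i) - Ne n * s i * w p :=
      fun p => by ring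
    simp only [this, sum_sub_distrib, ← mul_sum, w1, w2]
    ring

lemma hsup_nonneg (s : Fin 3 → ℝ) (n : ℕ) : 0 ≤ hsup s n := by
  refine Real.sSup_nonneg ?_
  rintro _ ⟨P, ⟨hP, -⟩, rfl⟩
  exact sum_nonneg fun a _ => Real.negMulLog_nonneg measureReal_nonneg measureReal_le_one

lemma hst_le (s : Fin 3 → ℝ) (k : ℕ) : 8 ^ (k + 1) * hst s ≤ hsup s (2 ^ (k + 1)) := by
  have : hst s ≤ hsup s (2 ^ (k + 1)) / 8 ^ (k + 1) := by
    refine ciInf_le (f := fun k : ℕ => hsup s (2 ^ (k + 1)) / 8 ^ (k + 1)) ⟨0, ?_⟩ k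
    rintro _ ⟨j, rfl⟩
    exact div_nonneg (hsup_nonneg _ _) (by positivity)
  rwa [le_div_iff₀' (by positivity)] at this

end Approx

open Approx in
theorem approx_of (h : ShanStmt) : ApproxStmt := by
  intro s hs k
  have hn : 0 < 2 ^ (k + 1) := by positivity
  have he : ∀ j : ℕ, Even (2 ^ (j + 1)) := fun j => (even_two.pow_of_ne_zero (by omega))
  obtain ⟨P0, hP0⟩ := feas_ne hs (2 ^ (k + 1))
  obtain ⟨_, ⟨P, hP, rfl⟩, hlt⟩ := exists_lt_of_lt_csSup
    (s := {h | ∃ P, Feas s (2 ^ (k + 1)) P ∧ h = H1 P (cell (2 ^ (k + 1)) 0)})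
    (b := hsup s (2 ^ (k + 1)) - 1) ⟨_, P0, hP0, rfl⟩ (sub_one_lt _)
  have := hP.1
  refine ⟨avg (2 ^ (k + 1)) P, avg_prob hn (he k) P, avg_adj hn hP.2.1,
    fun v hv => avg_inv hn (he k) P hv, fun i => avg_cur hn (he k) hP i, fun x => ?_,
    fun j hj => ?_⟩
  · refine (avg_fail hn (he k) hP.2.1 x).trans ?_
    push_cast
    gcongr
    · norm_num
    · omega
  · obtain ⟨r, rfl⟩ := Nat.exists_eq_add_of_le hj
    have e : 2 ^ (j + r + 1) = 2 ^ (j + 1) * 2 ^ r := by ring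
    have h1 := hst_le s (j + r)
    have h2 := hP.2.1
    rw [e] at h1 h2 hlt ⊢
    refine le_trans ?_ (avg_H1 h (by positivity) (he j) (by positivity) P h2)
    have e2 : (((2 ^ r : ℕ) : ℝ)) ^ 3 = 8 ^ r := by
      push_cast
      rw [← pow_mul, mul_comm, pow_mul]
      norm_num
    rw [e2, le_div_iff₀ (by positivity)]
    have e3 : ((8 : ℝ) ^ (j + 1) * hst s - 8 ^ j / 8 ^ (j + r)) * 8 ^ r =
        8 ^ (j + r + 1) * hst s - 1 := by
      field_simp
      ring
    rw [e3]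
    linarith

end Pool.Agent.Lib.MP_640444_pr
end
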