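import Pool.Agent.Lib.MP_640444_pr.MeanErg

-- part Pool.Agent.Lib.MP_640444_pr.Vel
section

/-!
Velocity of components; deterministic estimates on the current carried by unions of components
and rays.
-/

set_option autoImplicit false
open MeasureTheory Filter Finset
open scoped Classical Topology
open Pool.Agent.Shared.Ergodic

namespace Pool.Agent.Lib.MP_640444_pr

/-- difference of the two currents -/
noncomputable def dv (i : Fin 3) (p : Om) (x : V) : ℝ :=
  if Til p then ((p.1 x i - p.2 x i : ℤ) : ℝ) else 0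

noncomputable def vel (i : Fin 3) (p : Om) (x : V) : ℝ := upper (Tm p) (dv i p) x

noncomputable def err (i : Fin 3) (m : ℕ) (p : Om) (x : V) : ℝ :=
  |avg (Tm p) (dv i p) x m - vel i p x|

noncomputable def cnt (p : Om) (x : V) (R : ℕ) : ℕ := #{y ∈ box R | Ev y ∧ Cm p x (x + y)}

noncomputable def Nl (i : Fin 3) (p : Om) (x : V) (R : ℕ) : ℝ :=
  if vel i p x = 0 then 0 else cnt p x R

lemma abs_dv_le (i : Fin 3) (p : Om) (x : V) : |dv i p x| ≤ 2 := by
  unfold dv
  split_ifs with hp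
  · have h1 := abs_le.1 ((hp.1 x).1.coord i)
    have h2 := abs_le.1 ((hp.2 x).1.coord i)
    have : |p.1 x i - p.2 x i| ≤ 2 := abs_le.2 ⟨by omega, by omega⟩
    exact_mod_cast this
  · simp

lemma dv_shift (i : Fin 3) (v : V) (_hv : Ev v) (p : Om) (x : V) :
    dv i (shift2 v p) (x + v) = dv i p x := by
  simp [dv, shift2, shift_add_apply, ← til_shift2_iff p v]

lemma measurable_dv (i : Fin 3) (x : V) : Measurable fun p => dv i p x := by
  refine Measurable.ite mset_til ?_ measurable_const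
  have h : Measurable fun p : Om => (p.1 x, p.2 x) :=
    ((measurable_pi_apply x).comp measurable_fst).prodMk
      ((measurable_pi_apply x).comp measurable_snd)
  exact (measurable_of_countable (fun q : V × V => ((q.1 i - q.2 i : ℤ) : ℝ))).comp h

lemma dv_swap (i : Fin 3) (p : Om) (x : V) : dv i p.swap x = -dv i p x := by
  unfold dv
  rw [til_swap_iff]
  split_ifs
  · simp
  · simp

lemma abs_vel_le (i : Fin 3) (p : Om) (x : V) : |vel i p x| ≤ 2 :=
  abs_upper_le _ 2 (abs_dv_le i p) x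

lemma cm_even {p : Om} (hp : Til p) {x y : V} (hx : Ev x) (hy : Ev y) (h : Cm p x y) :
    ∃ j : ℕ, (Tm p)^[j] x = y ∨ (Tm p)^[j] y = x := by
  have key : ∀ {x y : V}, Ev x → Ev y → ∀ k : ℕ, (prm p)^[k] x = y → ∃ j, (Tm p)^[j] x = y := by
    intro x y hx hy k e
    obtain ⟨j, rfl | rfl⟩ := Nat.even_or_odd' k
    · exact ⟨j, by rw [tm_iter, e]⟩
    · exfalso
      rw [Function.iterate_succ_apply', ← tm_iter, prm_coe hp] at e
      rw [← e, (stp_adj hp _).ev, ev_iter tm_ev] at hy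
      exact hy hx
  obtain ⟨k, e | e⟩ := (cm_iff p x y).1 h
  · obtain ⟨j, hj⟩ := key hx hy k e; exact ⟨j, Or.inl hj⟩
  · obtain ⟨j, hj⟩ := key hy hx k e; exact ⟨j, Or.inr hj⟩

lemma cm_tm_iter (p : Om) (x : V) (k : ℕ) : Cm p x ((Tm p)^[k] x) :=
  (cm_iff p _ _).2 ⟨2 * k, Or.inl (tm_iter p k x).symm⟩

lemma vel_cm (i : Fin 3) {p : Om} (hp : Til p) {x y : V} (hx : Ev x) (hy : Ev y) (h : Cm p x y) :
    vel i p x = vel i p y := by
  obtain ⟨j, e | e⟩ := cm_even hp hx hy h
  · rw [← e, vel, vel, upper_iterate _ 2 (abs_dv_le i p)]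
  · rw [← e, vel, vel, upper_iterate _ 2 (abs_dv_le i p)]

lemma sum_dv (i : Fin 3) {p : Om} (hp : Til p) {x : V} (hx : Ev x) (n : ℕ) :
    |∑ k ∈ range n, dv i p ((Tm p)^[k] x) - (((Tm p)^[n] x i - x i : ℤ) : ℝ)| ≤ 2 := by
  have e : ∑ k ∈ range n, dv i p ((Tm p)^[k] x) = (((Tm p)^[n] x i - x i : ℤ) : ℝ) +
      ((p.2 ((Tm p)^[n] x) i - (Tm p)^[n] x i - (p.2 x i - x i) : ℤ) : ℝ) := by
    induction n with
    | zero => simp
    | succ n ih =>
      rw [sum_range_succ, ih, Function.iterate_succ_apply',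
        tm_of_ev hp ((ev_iter tm_ev p n x).2 hx), (hp.2 _).2, dv, if_pos hp]
      push_cast
      ring
  rw [e, add_sub_cancel_left]
  have h1 := abs_le.1 ((hp.2 x).1.coord i)
  have h2 := abs_le.1 ((hp.2 ((Tm p)^[n] x)).1.coord i)
  have : |p.2 ((Tm p)^[n] x) i - (Tm p)^[n] x i - (p.2 x i - x i)| ≤ 2 :=
    abs_le.2 ⟨by omega, by omega⟩
  exact_mod_cast this

lemma vel_eq_zero (i : Fin 3) {p : Om} (hp : Til p) {x : V} (hx : Ev x) (h : ¬ Inf p x) :
    vel i p x = 0 := by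
  rw [inf_iff_infinite, Set.not_infinite] at h
  obtain ⟨B, hB⟩ := (h.image fun y => |((y i - x i : ℤ) : ℝ)|).bddAbove
  have hb : ∀ n : ℕ, |∑ k ∈ range n, dv i p ((Tm p)^[k] x)| ≤ B + 2 := by
    intro n
    have h1 := sum_dv i hp hx n
    have h2 := hB ⟨_, cm_tm_iter p x n, rfl⟩
    have h3 := abs_sub_abs_le_abs_sub (∑ k ∈ range n, dv i p ((Tm p)^[k] x))
      (((Tm p)^[n] x i - x i : ℤ) : ℝ)
    simp only at h2
    linarith
  have : Tendsto (avg (Tm p) (dv i p) x) atTop (𝓝 0) := by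
    have h0 : Tendsto (fun n : ℕ => (n : ℝ)⁻¹ * (B + 2)) atTop (𝓝 0) := by
      simpa using tendsto_inv_atTop_nhds_zero_nat.mul_const (B + 2)
    refine squeeze_zero_norm (fun n => ?_) h0
    rw [Real.norm_eq_abs, avg, abs_mul, abs_of_nonneg (by positivity)]
    exact mul_le_mul_of_nonneg_left (hb n) (by positivity)
  exact this.limsup_eq

lemma ballistic (i : Fin 3) {p : Om} (hp : Til p) {x : V} (hx : Ev x) {v : ℝ} (hv : v ≠ 0)
    (h : Tendsto (avg (Tm p) (dv i p) x) atTop (𝓝 v)) :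
    ∃ C : ℕ, ∀ R n : ℕ, |(Tm p)^[n] x i - x i| ≤ R → n ≤ C * (R + 1) := by
  have hv' : 0 < |v| / 2 := by positivity
  obtain ⟨n0, hn0⟩ := eventually_atTop.1 ((Metric.tendsto_nhds.1 h) _ hv')
  obtain ⟨c, hc⟩ := exists_nat_ge (4 / |v|)
  refine ⟨n0 + c, fun R n hR => ?_⟩
  rcases lt_or_ge n n0 with h1 | h1
  · nlinarith
  rcases Nat.eq_zero_or_pos n with rfl | hn
  · omega
  have hn' : (0 : ℝ) < n := by exact_mod_cast hn
  have h2 := hn0 n h1
  rw [Real.dist_eq, avg] at h2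
  have h3 := sum_dv i hp hx n
  have hR' : |(((Tm p)^[n] x i - x i : ℤ) : ℝ)| ≤ R := by exact_mod_cast hR
  set S := ∑ k ∈ range n, dv i p ((Tm p)^[k] x)
  have h4 : |S| ≤ R + 2 := by
    have := abs_sub_abs_le_abs_sub S (((Tm p)^[n] x i - x i : ℤ) : ℝ)
    linarith
  have h5 : |v| / 2 ≤ (n : ℝ)⁻¹ * |S| := by
    have := abs_sub_abs_le_abs_sub v ((n : ℝ)⁻¹ * S)
    rw [abs_sub_comm, abs_mul, abs_of_pos (inv_pos.2 hn')] at this
    linarith
  rw [le_inv_mul_iff₀ hn'] at h5
  have hv0 : 0 < |v| := abs_pos.2 hv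
  rw [div_le_iff₀ hv0] at hc
  have h6 : (n : ℝ) ≤ c * (R + 1) := by
    have hR0 : (0 : ℝ) ≤ R := Nat.cast_nonneg R
    by_contra hcon
    push Not at hcon
    have := mul_lt_mul_of_pos_right hcon hv0
    nlinarith
  have h7 : n ≤ c * (R + 1) := by exact_mod_cast h6
  nlinarith

/-- two sided convergence of the averaged current at `x` -/
def Conv (p : Om) (x : V) : Prop := ∀ i,
  Tendsto (avg (Tm p) (dv i p) x) atTop (𝓝 (vel i p x)) ∧
    Tendsto (avg (Tm p.swap) (dv i p) x) atTop (𝓝 (vel i p x))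

lemma tm_swap_iter_eq {p : Om} {x y : V} {j : ℕ} (h : (Tm p)^[j] y = x) :
    (Tm p.swap)^[j] x = y := by
  rw [← h]
  exact (Function.LeftInverse.iterate (tm_swap_tm p) j) y

lemma Nl_le (i : Fin 3) {p : Om} (hp : Til p) {x : V} (hx : Ev x) (h : Conv p x) :
    ∃ C : ℕ, ∀ R : ℕ, Nl i p x R ≤ C * (R + 1) := by
  by_cases hv : vel i p x = 0
  · exact ⟨0, fun R => by simp [Nl, hv]⟩
  obtain ⟨C1, h1⟩ := ballistic i hp hx hv (h i).1
  obtain ⟨C2, h2⟩ := ballistic i hp.swap hx (neg_ne_zero.2 hv) (by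
    have : avg (Tm p.swap) (dv i p.swap) x = fun n => -avg (Tm p.swap) (dv i p) x n := by
      funext n; simp [avg, dv_swap]
    rw [this]; exact (h i).2.neg)
  refine ⟨C1 + C2 + 2, fun R => ?_⟩
  rw [Nl, if_neg hv]
  have : cnt p x R ≤ (C1 * (R + 1) + 1) + (C2 * (R + 1) + 1) := by
    have hs : ({y ∈ box R | Ev y ∧ Cm p x (x + y)} : Finset V) ⊆
        (range (C1 * (R + 1) + 1)).image (fun n => (Tm p)^[n] x - x) ∪
        (range (C2 * (R + 1) + 1)).image (fun n => (Tm p.swap)^[n] x - x) := by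
      intro y hy
      rw [mem_filter, mem_box] at hy
      have hxy : Ev (x + y) := (ev_add hy.2.1).2 hx
      obtain ⟨j, e | e⟩ := cm_even hp hx hxy hy.2.2
      · refine mem_union_left _ (mem_image.2 ⟨j, mem_range.2 (Nat.lt_succ_of_le (h1 R j ?_)), ?_⟩)
        · rw [e]; simpa using hy.1 i
        · rw [e]; simp
      · have e' := tm_swap_iter_eq e
        refine mem_union_right _ (mem_image.2 ⟨j, mem_range.2 (Nat.lt_succ_of_le (h2 R j ?_)), ?_⟩)
        · rw [e']; simpa using hy.1 i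
        · rw [e']; simp
    refine (card_le_card hs).trans ((card_union_le _ _).trans (add_le_add ?_ ?_))
    · exact card_image_le.trans (card_range _).le
    · exact card_image_le.trans (card_range _).le
  have h3 : cnt p x R ≤ (C1 + C2 + 2) * (R + 1) := by nlinarith
  exact_mod_cast h3

lemma Nl_nonneg (i : Fin 3) (p : Om) (x : V) (R : ℕ) : 0 ≤ Nl i p x R := by
  unfold Nl; split_ifs <;> positivity

lemma Nl_le_box (i : Fin 3) (p : Om) (x : V) (R : ℕ) : Nl i p x R ≤ (2 * R + 1) ^ 3 := by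
  unfold Nl
  split_ifs
  · positivity
  · have : cnt p x R ≤ (2 * R + 1) ^ 3 := (card_filter_le _ _).trans (card_box R).le
    exact_mod_cast this

lemma sum_shift_le {φ : V → V} (hφ : Function.Injective φ) (B : Finset V) {f : V → ℝ}
    (hf : ∀ x, |f x| ≤ 2) :
    |∑ x ∈ B, f (φ x) - ∑ x ∈ B, f x| ≤ 4 * #{x ∈ B | φ x ∉ B} := by
  rw [← sum_image (s := B) (g := φ) (f := f) fun x _ y _ h => hφ h]
  have c1 : #(B.image φ \ B) = #{x ∈ B | φ x ∉ B} := by
    rw [← card_image_of_injective ({x ∈ B | φ x ∉ B}) hφ]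
    congr 1
    ext y
    simp only [Finset.mem_sdiff, mem_image, mem_filter]
    constructor
    · rintro ⟨⟨x, hx, rfl⟩, h⟩; exact ⟨x, ⟨hx, h⟩, rfl⟩
    · rintro ⟨x, ⟨hx, h⟩, rfl⟩; exact ⟨⟨x, hx, rfl⟩, h⟩
  have c2 : #(B \ B.image φ) = #(B.image φ \ B) :=
    (card_sdiff_comm (card_image_of_injective B hφ)).symm
  rw [← sum_sdiff_sub_sum_sdiff]
  have b : ∀ S : Finset V, |∑ x ∈ S, f x| ≤ 2 * #S := fun S =>
    (abs_sum_le_sum_abs _ _).trans ((sum_le_card_nsmul _ _ 2 fun x _ => hf x).trans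
      (by simp [mul_comm]))
  refine (abs_sub _ _).trans ((add_le_add (b _) (b _)).trans (le_of_eq ?_))
  rw [c2, c1]; ring

lemma tm_iter_coord {p : Om} (hp : Til p) (x : V) (k : ℕ) (i : Fin 3) :
    |(Tm p)^[k] x i - x i| ≤ 2 * k := by
  have : ∀ n : ℕ, |(prm p)^[n] x i - x i| ≤ n := by
    intro n
    induction n with
    | zero => simp
    | succ n ih =>
      rw [Function.iterate_succ_apply', prm_coe hp] at *
      have h1 := abs_le.1 ((stp_adj hp ((stp p)^[n] x)).coord i)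
      have h2 := abs_le.1 ih
      exact abs_le.2 ⟨by push_cast; omega, by push_cast; omega⟩
  have := this (2 * k)
  rw [tm_iter]
  exact_mod_cast this

lemma card_slab (l : ℕ) (z : V) (i : Fin 3) (T : Finset ℤ) :
    #{x ∈ cell l z | x i ∈ T} ≤ #T * l ^ 2 := by
  let t : Fin 3 → Finset ℤ := fun j => Finset.Ico ((l : ℤ) * z j) ((l : ℤ) * z j + l)
  have hs : ({x ∈ cell l z | x i ∈ T} : Finset V) ⊆ Fintype.piFinset (Function.update t i T) := by
    intro x hx
    rw [mem_filter, mem_cell] at hx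
    rw [Fintype.mem_piFinset]
    intro j
    by_cases h : j = i
    · subst h; simpa using hx.2
    · rw [Function.update_of_ne h]; exact mem_Ico.2 (hx.1 j)
  refine (card_le_card hs).trans (le_of_eq ?_)
  rw [Fintype.card_piFinset, ← mul_prod_erase _ _ (mem_univ i), Function.update_self,
    prod_congr rfl (g := fun _ => l) fun j hj => by
      rw [Function.update_of_ne (ne_of_mem_erase hj)]; simp [t]]
  simp

lemma card_exit (l : ℕ) (z : V) (φ : V → V) (t : ℕ) (h : ∀ x i, |φ x i - x i| ≤ t) :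
    #{x ∈ cell l z | φ x ∉ cell l z} ≤ 6 * t * l ^ 2 := by
  let T : Fin 3 → Finset ℤ := fun i => Finset.Ico ((l : ℤ) * z i) ((l : ℤ) * z i + t) ∪
    Finset.Ico ((l : ℤ) * z i + l - t) ((l : ℤ) * z i + l)
  have hs : ({x ∈ cell l z | φ x ∉ cell l z} : Finset V) ⊆
      univ.biUnion fun i => {x ∈ cell l z | x i ∈ T i} := by
    intro x hx
    rw [mem_filter] at hx
    obtain ⟨h1, h2⟩ := hx
    rw [mem_cell, not_forall] at h2
    obtain ⟨i, hi⟩ := h2
    refine mem_biUnion.2 ⟨i, mem_univ _, mem_filter.2 ⟨h1, ?_⟩⟩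
    have a := mem_cell.1 h1 i
    have b := abs_le.1 (h x i)
    simp only [T, mem_union, mem_Ico]
    omega
  refine (card_le_card hs).trans (card_biUnion_le.trans ?_)
  have : ∀ i, #{x ∈ cell l z | x i ∈ T i} ≤ 2 * t * l ^ 2 := by
    intro i
    refine (card_slab l z i _).trans (Nat.mul_le_mul_right _ ((card_union_le _ _).trans ?_))
    simp only [Int.card_Ico]
    omega
  refine (sum_le_card_nsmul _ _ _ fun i _ => this i).trans (le_of_eq ?_)
  simp; ring

/-- the current on a nearly invariant set is the velocity, up to averaging errors -/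
lemma sumd (i : Fin 3) {p : Om} (hp : Til p) (A : Set V) (Ex : Finset V) {m : ℕ} (hm : 0 < m)
    (hA : ∀ k < m, ∀ x, Ev x → x ∉ Ex → x ∈ A → (Tm p)^[k] x ∈ A) (l : ℕ) (z : V) :
    |∑ x ∈ cell l z with (Ev x ∧ x ∈ A), dv i p x - ∑ x ∈ cell l z with (Ev x ∧ x ∈ A), vel i p x|
      ≤ ∑ x ∈ cell l z with Ev x, err i m p x + 4 * (#Ex + 12 * m * l ^ 2) := by
  set B := ({x ∈ cell l z | Ev x ∧ x ∈ A} : Finset V) with hB
  have hm' : (0 : ℝ) < m := by exact_mod_cast hm
  have h1 : ∀ k ∈ range m, |∑ x ∈ B, dv i p ((Tm p)^[k] x) - ∑ x ∈ B, dv i p x| ≤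
      4 * (#Ex + 12 * m * l ^ 2) := by
    intro k hk
    have hk' := mem_range.1 hk
    refine (sum_shift_le ((tm_bij p).1.iterate k) B (abs_dv_le i p)).trans ?_
    have hs : ({x ∈ B | (Tm p)^[k] x ∉ B} : Finset V) ⊆
        Ex ∪ {x ∈ cell l z | (Tm p)^[k] x ∉ cell l z} := by
      intro x hx
      simp only [hB, mem_filter, mem_union, not_and] at hx ⊢
      by_cases hE : x ∈ Ex
      · exact Or.inl hE
      · exact Or.inr ⟨hx.1.1, fun h => hx.2 h ((ev_iter tm_ev p k x).2 hx.1.2.1)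
          (hA k hk' x hx.1.2.1 hE hx.1.2.2)⟩
    have h2 := card_exit l z ((Tm p)^[k]) (2 * m) fun x j =>
      (tm_iter_coord hp x k j).trans (by push_cast; omega)
    have h3 := (card_le_card hs).trans ((card_union_le _ _).trans (Nat.add_le_add_left h2 _))
    have h4 : (#{x ∈ B | (Tm p)^[k] x ∉ B} : ℝ) ≤ #Ex + 6 * (2 * m) * l ^ 2 := by
      exact_mod_cast h3
    linarith
  have h2 : |∑ x ∈ B, avg (Tm p) (dv i p) x m - ∑ x ∈ B, dv i p x| ≤
      4 * (#Ex + 12 * m * l ^ 2) := by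
    have e : ∑ x ∈ B, avg (Tm p) (dv i p) x m - ∑ x ∈ B, dv i p x =
        (m : ℝ)⁻¹ * ∑ k ∈ range m, (∑ x ∈ B, dv i p ((Tm p)^[k] x) - ∑ x ∈ B, dv i p x) := by
      simp only [avg]
      rw [← mul_sum, sum_comm, sum_sub_distrib, mul_sub, sum_const, card_range, nsmul_eq_mul,
        inv_mul_cancel_left₀ hm'.ne']
    rw [e, abs_mul, abs_of_pos (inv_pos.2 hm'), inv_mul_le_iff₀ hm']
    refine (abs_sum_le_sum_abs _ _).trans ((sum_le_card_nsmul _ _ _ h1).trans (le_of_eq ?_))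
    simp
  have h3 : |∑ x ∈ B, avg (Tm p) (dv i p) x m - ∑ x ∈ B, vel i p x| ≤
      ∑ x ∈ cell l z with Ev x, err i m p x := by
    rw [← sum_sub_distrib]
    refine (abs_sum_le_sum_abs _ _).trans (sum_le_sum_of_subset_of_nonneg ?_ ?_)
    · intro x hx
      rw [hB, mem_filter] at hx
      exact mem_filter.2 ⟨hx.1, hx.2.1⟩
    · exact fun _ _ _ => abs_nonneg _
  have h4 := abs_sub_le (∑ x ∈ B, dv i p x) (∑ x ∈ B, avg (Tm p) (dv i p) x m)
    (∑ x ∈ B, vel i p x)
  rw [abs_sub_comm] at h2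
  linarith

lemma dev_flp (s : Fin 3 → ℝ) {p : Om} (hp : Til p) (F : Set V) (i : Fin 3) (Q : Finset V) :
    dev s (flp F p).1 i Q = dev s p.1 i Q - ∑ x ∈ Q with (Ev x ∧ x ∈ F), dv i p x ∧
    dev s (flp F p).2 i Q = dev s p.2 i Q + ∑ x ∈ Q with (Ev x ∧ x ∈ F), dv i p x := by
  unfold dev
  rw [← filter_filter, sum_filter (p := fun x => x ∈ F), ← sum_sub_distrib, ← sum_add_distrib]
  constructor <;>
  · refine sum_congr rfl fun x _ => ?_
    simp only [flp, dv, if_pos hp]
    split_ifs <;> push_cast <;> ring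

lemma dev_sub (s : Fin 3 → ℝ) {p : Om} (hp : Til p) (i : Fin 3) (Q : Finset V) :
    ∑ x ∈ Q with Ev x, dv i p x = dev s p.1 i Q - dev s p.2 i Q := by
  unfold dev
  rw [← sum_sub_distrib]
  refine sum_congr rfl fun x _ => ?_
  simp only [dv, if_pos hp]
  push_cast; ring

end Pool.Agent.Lib.MP_640444_pr
end

-- part Pool.Agent.Lib.MP_640444_pr.Prob
section

/-!
With high probability both currents are close to the mean current on all cells and the averaging
errors are small.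
-/

set_option autoImplicit false
open MeasureTheory Filter Finset
open scoped Classical Topology
open Pool.Agent.Shared.Ergodic

namespace Pool.Agent.Lib.MP_640444_pr

lemma markov {X : Type*} [MeasurableSpace X] {m : Measure X} [IsFiniteMeasure m] {g : X → ℝ}
    (h0 : ∀ x, 0 ≤ g x) (hi : Integrable g m) {t B : ℝ} (ht : 0 < t) (hB : ∫ x, g x ∂m ≤ B) :
    m {x | t < g x} ≤ ENNReal.ofReal (B / t) := by
  have h1 := mul_meas_ge_le_integral_of_nonneg (μ := m) (Eventually.of_forall h0) hi t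
  have h2 : m.real {x | t ≤ g x} ≤ B / t := by
    rw [le_div_iff₀ ht]; linarith
  exact (measure_mono (fun x (hx : t < g x) => hx.le)).trans
    ((ENNReal.ofReal_toReal (measure_ne_top m {x | t ≤ g x})).symm.le.trans
      (ENNReal.ofReal_le_ofReal h2))

lemma shift2_neg_apply {H : Om → V → ℝ} (hH : ∀ v, Ev v → ∀ p x, H (shift2 v p) (x + v) = H p x)
    (p : Om) {x : V} (hx : Ev x) : H (shift2 (-x) p) 0 = H p x := by
  have := hH _ (ev_neg.2 hx) p x
  rwa [add_neg_cancel] at this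

lemma avg_shift (i : Fin 3) (v : V) (hv : Ev v) (p : Om) (x : V) :
    avg (Tm (shift2 v p)) (dv i (shift2 v p)) (x + v) = avg (Tm p) (dv i p) x := by
  funext n
  simp only [avg, iter_equivariant tm_shift hv, dv_shift i v hv]

lemma vel_shift (i : Fin 3) (v : V) (hv : Ev v) (p : Om) (x : V) :
    vel i (shift2 v p) (x + v) = vel i p x := by
  simp only [vel, upper, avg_shift i v hv]

lemma avg_zero (i : Fin 3) (p : Om) :
    avg th (fun p => dv i p 0) p = avg (Tm p) (dv i p) 0 := by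
  have := avg_theta tm_shift tm_ev (dv_shift i) p ev_zero
  rwa [neg_zero, shift2_zero] at this

lemma vel_zero (i : Fin 3) (p : Om) : upper th (fun p => dv i p 0) p = vel i p 0 := by
  simp only [vel, upper, avg_zero]

lemma measurable_th : Measurable th :=
  measurable_shift2' ((measurable_of_countable (fun y : V => -y)).comp
    ((measurable_pi_apply 0).comp measurable_tm)) measurable_id

lemma measurable_vel (i : Fin 3) : Measurable fun p => vel i p 0 := by
  simp only [← vel_zero]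
  exact measurable_upper measurable_th (measurable_dv i 0)

lemma measurable_err (i : Fin 3) (m : ℕ) : Measurable fun p => err i m p 0 := by
  simp only [err, ← avg_zero]
  exact ((measurable_avg measurable_th (measurable_dv i 0) m).sub (measurable_vel i)).abs

lemma measurable_Nl (i : Fin 3) (R : ℕ) : Measurable fun p => Nl i p 0 R := by
  refine Measurable.ite (measurable_vel i (measurableSet_singleton 0)) measurable_const ?_
  simp only [cnt, card_filter]
  push_cast
  exact Finset.measurable_sum _ fun y _ =>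
    Measurable.ite ((MeasurableSet.const _).inter (mset_cm _ _)) measurable_const measurable_const

lemma err_le (i : Fin 3) (m : ℕ) (p : Om) (x : V) : err i m p x ≤ 4 :=
  (abs_sub _ _).trans (by linarith [abs_avg_le (Tm p) 2 (abs_dv_le i p) x m, abs_vel_le i p x])

/-- local badness density -/
noncomputable def hh (m l : ℕ) (p : Om) (x : V) : ℝ :=
  ∑ i, (err i m p x + Nl i p x l / (l : ℝ) ^ 3)

lemma hh_shift (m l : ℕ) (v : V) (hv : Ev v) (p : Om) (x : V) :
    hh m l (shift2 v p) (x + v) = hh m l p x := by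
  simp only [hh, err, Nl, cnt, avg_shift _ v hv, vel_shift _ v hv, add_right_comm x v,
    cm_shift hv]

lemma Nl_div_le (i : Fin 3) (p : Om) (x : V) (l : ℕ) : Nl i p x l / (l : ℝ) ^ 3 ≤ 27 := by
  rcases Nat.eq_zero_or_pos l with rfl | hl
  · simp
  have hl' : (1 : ℝ) ≤ l := by exact_mod_cast hl
  rw [div_le_iff₀ (by positivity)]
  refine (Nl_le_box i p x l).trans ?_
  calc (2 * (l : ℝ) + 1) ^ 3 ≤ (3 * l) ^ 3 := pow_le_pow_left₀ (by positivity) (by linarith) 3
    _ = 27 * (l : ℝ) ^ 3 := by ring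

lemma Nl_div_nonneg (i : Fin 3) (p : Om) (x : V) (l : ℕ) : 0 ≤ Nl i p x l / (l : ℝ) ^ 3 :=
  div_nonneg (Nl_nonneg i p x l) (by positivity)

lemma hh_nonneg (m l : ℕ) (p : Om) (x : V) : 0 ≤ hh m l p x :=
  sum_nonneg fun i _ => add_nonneg (abs_nonneg _) (Nl_div_nonneg i p x l)

lemma measurable_hh (m l : ℕ) : Measurable fun p => hh m l p 0 :=
  Finset.measurable_sum _ fun i _ => (measurable_err i m).add ((measurable_Nl i l).div_const _)

lemma ae_conv {ν : Measure Om} [IsProbabilityMeasure ν] (hm : EvInv ν) :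
    ∀ᵐ p ∂ν, ∀ x, Ev x → Conv p x := by
  have := ae_all_iff.2 fun i : Fin 3 =>
    ae_site hm (dv_shift i) (measurable_dv i 0) (abs_dv_le i)
  filter_upwards [this] with p hp x hx i using hp i x hx

lemma tendsto_lin_cube (C : ℝ) :
    Tendsto (fun l : ℕ => C * (l + 1) / (l : ℝ) ^ 3) atTop (𝓝 0) := by
  have h0 : Tendsto (fun n : ℕ => (n : ℝ)⁻¹) atTop (𝓝 0) := tendsto_inv_atTop_nhds_zero_nat
  have h1 := ((h0.pow 2).add (h0.pow 3)).const_mul C
  simp only [ne_eq, OfNat.ofNat_ne_zero, not_false_eq_true, zero_pow, add_zero, mul_zero] at h1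
  refine h1.congr' ((eventually_gt_atTop 0).mono fun n hn => ?_)
  have : (n : ℝ) ≠ 0 := by exact_mod_cast hn.ne'
  field_simp

lemma exists_hh {ν : Measure Om} [IsProbabilityMeasure ν] (hm : EvInv ν) (hT : ∀ᵐ p ∂ν, Til p)
    {ε : ℝ} (hε : 0 < ε) : ∃ m, 0 < m ∧ ∀ᶠ l in atTop, ∫ p, hh m l p 0 ∂ν ≤ ε := by
  have h1 : ∀ i, Tendsto (fun m => ∫ p, err i m p 0 ∂ν) atTop (𝓝 0) := fun i => by
    simpa only [err, ← avg_zero, ← vel_zero] using
      l1_upper (th_mp hm) (measurable_dv i 0) fun p => abs_dv_le i p 0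
  have h2 : ∀ i, Tendsto (fun l : ℕ => ∫ p, Nl i p 0 l / (l : ℝ) ^ 3 ∂ν) atTop (𝓝 0) := by
    intro i
    have := tendsto_integral_of_dominated_convergence (μ := ν)
      (F := fun (l : ℕ) p => Nl i p 0 l / (l : ℝ) ^ 3) (f := fun _ => (0 : ℝ)) (fun _ => 27)
      (fun l => ((measurable_Nl i l).div_const _).aestronglyMeasurable) (integrable_const _)
      (fun l => Eventually.of_forall fun p => by
        rw [Real.norm_eq_abs, abs_of_nonneg (Nl_div_nonneg i p 0 l)]; exact Nl_div_le i p 0 l)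
      (by
        filter_upwards [hT, ae_conv hm] with p hp hc
        obtain ⟨C, hC⟩ := Nl_le i hp ev_zero (hc 0 ev_zero)
        exact squeeze_zero (fun l => Nl_div_nonneg i p 0 l)
          (fun l => div_le_div_of_nonneg_right (hC l) (by positivity)) (tendsto_lin_cube C))
    simpa using this
  have h6 : 0 < ε / 6 := by positivity
  obtain ⟨m, hm1, hm2⟩ := ((eventually_gt_atTop 0).and
    (eventually_all.2 fun i => (h1 i).eventually (ge_mem_nhds h6))).exists
  refine ⟨m, hm1, ?_⟩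
  filter_upwards [eventually_all.2 fun i => (h2 i).eventually (ge_mem_nhds h6)] with l hl
  have i1 : ∀ i, Integrable (fun p => err i m p 0) ν := fun i =>
    integrable_of_bdd (measurable_err i m) 4 fun p => by
      rw [abs_of_nonneg (show 0 ≤ err i m p 0 from abs_nonneg _)]; exact err_le i m p 0
  have i2 : ∀ i, Integrable (fun p => Nl i p 0 l / (l : ℝ) ^ 3) ν := fun i =>
    integrable_of_bdd ((measurable_Nl i l).div_const _) 27 fun p => by
      rw [abs_of_nonneg (Nl_div_nonneg i p 0 l)]; exact Nl_div_le i p 0 l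
  simp only [hh]
  rw [integral_finsetSum (f := fun i p => err i m p 0 + Nl i p 0 l / (l : ℝ) ^ 3) _
    fun i _ => (i1 i).add (i2 i)]
  refine (sum_le_card_nsmul _ _ (ε / 3) fun i _ => ?_).trans (le_of_eq (by simp; ring))
  rw [integral_add (i1 i) (i2 i)]
  linarith [hm2 i, hl i]

lemma hh_prob {ν : Measure Om} [IsProbabilityMeasure ν] (hm : EvInv ν) (m l : ℕ) (Q : Finset V)
    {t ε : ℝ} (ht : 0 < t) (hε : 0 ≤ ε) (h : ∫ p, hh m l p 0 ∂ν ≤ ε) :
    ν {p | t < ∑ x ∈ Q with Ev x, hh m l p x} ≤ ENNReal.ofReal (#Q * ε / t) := by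
  have i0 : Integrable (fun p => hh m l p 0) ν :=
    integrable_of_bdd (measurable_hh m l) 93 fun p => by
      rw [abs_of_nonneg (hh_nonneg m l p 0)]
      refine (sum_le_card_nsmul _ _ 31 fun i _ => ?_).trans (by norm_num)
      linarith [err_le i m p 0, Nl_div_le i p 0 l]
  have e : ∀ x ∈ ({x ∈ Q | Ev x} : Finset V),
      (fun p => hh m l p x) = fun p => hh m l (shift2 (-x) p) 0 := fun x hx =>
    funext fun p => (shift2_neg_apply (hh_shift m l) p (mem_filter.1 hx).2).symm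
  have i1 : ∀ x ∈ ({x ∈ Q | Ev x} : Finset V), Integrable (fun p => hh m l p x) ν := by
    intro x hx
    rw [e x hx]
    exact (hm _ (ev_neg.2 (mem_filter.1 hx).2)).integrable_comp_of_integrable i0
  refine markov (fun p => sum_nonneg fun x _ => hh_nonneg m l p x) (integrable_finsetSum _ i1) ht ?_
  rw [integral_finsetSum _ i1]
  refine (sum_le_card_nsmul _ _ ε fun x hx => ?_).trans ?_
  · rw [e x hx, integral_comp_mp (hm _ (ev_neg.2 (mem_filter.1 hx).2)) (measurable_hh m l)]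
    exact h
  · rw [nsmul_eq_mul]
    exact mul_le_mul_of_nonneg_right (by exact_mod_cast card_filter_le _ _) hε

lemma unit_coord {d : V} (h : ∑ j, |d j| = 1) (i : Fin 3) :
    ((d i : ℤ) : ℝ) = (if d = Pi.single i 1 then 1 else 0) - (if d = -Pi.single i 1 then 1 else 0) := by
  have key : ∀ c : ℤ, |c| = 1 → (d = Pi.single i c ↔ d i = c) := by
    intro c hc
    refine ⟨fun e => by simp [e], fun e => funext fun j => ?_⟩
    by_cases hj : j = i
    · subst hj; simpa using e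
    · rw [Pi.single_eq_of_ne hj]
      rw [← add_sum_erase _ _ (mem_univ i), e, hc, add_eq_left,
        sum_eq_zero_iff_of_nonneg fun _ _ => abs_nonneg _] at h
      exact abs_eq_zero.1 (h j (mem_erase.2 ⟨hj, mem_univ _⟩))
  rw [← Pi.single_neg]
  simp only [key 1 (by simp), key (-1) (by simp)]
  have h1 : |d i| ≤ 1 := h ▸ single_le_sum (f := fun j => |d j|) (fun _ _ => abs_nonneg _) (mem_univ i)
  have h2 := abs_le.1 h1
  have : d i = 1 ∨ d i = 0 ∨ d i = -1 := by omega
  rcases this with e | e | e <;> simp [e]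

lemma dev_shift (s : Fin 3 → ℝ) (σ : Cfg) (i : Fin 3) {l : ℕ} (hl : Even l) (z : V) :
    dev s (shift (-((l : ℤ) • z)) σ) i (cell l 0) = dev s σ i (cell l z) := by
  have hv : Ev ((l : ℤ) • z) := by
    unfold Ev
    simp only [Pi.smul_apply, smul_eq_mul, ← mul_sum]
    exact (Int.even_coe_nat l |>.2 hl).mul_right _
  unfold dev
  refine sum_bij (fun x _ => x + (l : ℤ) • z) ?_ ?_ ?_ ?_
  · intro x hx
    rw [mem_filter, mem_cell] at hx ⊢
    refine ⟨fun j => ?_, (ev_add hv).2 hx.2⟩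
    have := hx.1 j
    simp only [Pi.zero_apply, mul_zero, Pi.add_apply, Pi.smul_apply, smul_eq_mul] at this ⊢
    omega
  · intro x _ y _ h
    exact add_right_cancel h
  · intro y hy
    refine ⟨y - (l : ℤ) • z, ?_, by simp⟩
    rw [mem_filter, mem_cell] at hy ⊢
    refine ⟨fun j => ?_, (ev_add hv).1 (by simpa using hy.2)⟩
    have := hy.1 j
    simp only [Pi.zero_apply, mul_zero, Pi.sub_apply, Pi.smul_apply, smul_eq_mul] at this ⊢
    omega
  · intro x _
    simp only [shift, sub_neg_eq_add, Pi.add_apply, Pi.neg_apply]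
    congr 2
    ring

lemma ev_smul {l : ℕ} (hl : Even l) (z : V) : Ev ((l : ℤ) • z) := by
  unfold Ev
  simp only [Pi.smul_apply, smul_eq_mul, ← mul_sum]
  exact (Int.even_coe_nat l |>.2 hl).mul_right _

lemma close_prob {s : Fin 3 → ℝ} {μ : Measure Cfg} (h : IsEGM s μ) {δ : ℝ} (hδ : 0 < δ) (K : ℕ) :
    Tendsto (fun j : ℕ => μ {σ | ¬ Close s δ K (2 * j) σ}) atTop (𝓝 0) := by
  have := h.prob
  let f : Fin 3 → Cfg → ℝ := fun i σ =>
    (if σ 0 = Pi.single i 1 then 1 else 0) - (if σ 0 = -Pi.single i 1 then 1 else 0)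
  have ms : ∀ y : V, MeasurableSet {σ : Cfg | σ 0 = y} := fun y =>
    mset_eq (measurable_pi_apply 0) measurable_const
  have hf : ∀ i, Measurable (f i) := fun i =>
    (Measurable.ite (ms _) measurable_const measurable_const).sub
      (Measurable.ite (ms _) measurable_const measurable_const)
  have hb : ∀ i σ, |f i σ| ≤ 1 := fun i σ => by
    simp only [f]; split_ifs <;> simp
  have hI : ∀ i, ∫ σ, f i σ ∂μ = s i := by
    intro i
    have e : ∀ y : V, (fun σ : Cfg => if σ 0 = y then (1 : ℝ) else 0) =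
        Set.indicator {σ : Cfg | σ 0 = y} 1 := fun y => by
      funext σ; simp [Set.indicator_apply]
    simp only [f]
    rw [integral_sub, e, e, integral_indicator_one (ms _), integral_indicator_one (ms _), h.cur i]
    · rfl
    · rw [e]; exact (integrable_const 1).indicator (ms _)
    · rw [e]; exact (integrable_const 1).indicator (ms _)
  let A : Fin 3 → ℕ → Set Cfg := fun i l => {σ | δ * (l : ℝ) ^ 3 <
    |∑ x ∈ cell l 0 with Ev x, (f i (shift (-x) σ) - ∫ τ, f i τ ∂μ)|}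
  have hA : ∀ i, Tendsto (fun j => μ (A i (2 * j))) atTop (𝓝 0) := fun i =>
    (mean_erg μ h.inv h.erg (f i) (hf i) 1 (hb i) δ hδ).comp
      (tendsto_id.const_mul_atTop' (by norm_num))
  have hs := tendsto_finsetSum (box (K + 1)) fun z _ => tendsto_finsetSum univ fun i _ => hA i
  simp only [sum_const_zero] at hs
  refine tendsto_of_tendsto_of_tendsto_of_le_of_le tendsto_const_nhds hs (fun _ => zero_le)
    fun j => ?_
  have hl : Even (2 * j) := even_two_mul j
  have h1 : {σ | ¬ Close s δ K (2 * j) σ} ≤ᵐ[μ]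
      (⋃ z ∈ box (K + 1), ⋃ i ∈ (univ : Finset (Fin 3)),
        shift (-(((2 * j : ℕ) : ℤ) • z)) ⁻¹' A i (2 * j) : Set Cfg) := by
    filter_upwards [h.tiling] with σ hσ hc
    have hc' : ¬ Close s δ K (2 * j) σ := hc
    unfold Close at hc'
    push Not at hc'
    obtain ⟨z, hz, i, hi⟩ := hc'
    refine Set.mem_iUnion₂.2 ⟨z, hz, Set.mem_iUnion₂.2 ⟨i, mem_univ _, ?_⟩⟩
    rw [← dev_shift s σ i hl z] at hi
    have ht := isTiling_shift hσ (-(((2 * j : ℕ) : ℤ) • z))
    rw [Set.mem_preimage]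
    generalize shift (-(((2 * j : ℕ) : ℤ) • z)) σ = τ at hi ht ⊢
    refine lt_of_lt_of_eq hi (congrArg _ (sum_congr rfl fun x _ => ?_))
    rw [hI i]
    congr 1
    have e : shift (-x) τ 0 = τ x - x := by simp [shift, sub_eq_add_neg]
    simp only [f, e]
    exact unit_coord (d := τ x - x) (ht x).1 i
  refine (measure_mono_ae h1).trans ((measure_biUnion_finset_le _ _).trans
    (sum_le_sum fun z _ => (measure_biUnion_finset_le _ _).trans (sum_le_sum fun i _ => ?_)))
  exact (h.mp (ev_neg.2 (ev_smul hl z))).measure_preimage_le _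

def Good (s : Fin 3 → ℝ) (δ : ℝ) (K m l : ℕ) (p : Om) : Prop :=
  Close s δ K l p.1 ∧ Close s δ K l p.2 ∧
    ∑ x ∈ box ((K + 2) * l) with Ev x, hh m l p x ≤ δ * (l : ℝ) ^ 3

lemma good_prob {s : Fin 3 → ℝ} {μ₁ μ₂ : Measure Cfg} (h₁ : IsEGM s μ₁) (h₂ : IsEGM s μ₂)
    {δ η : ℝ} (hδ : 0 < δ) (hη : 0 < η) (K l0 : ℕ) :
    ∃ m l : ℕ, 0 < m ∧ l0 ≤ l ∧ (m : ℝ) ≤ δ * l ∧
      (μ₁.prod μ₂) {p | ¬ Good s δ K m l p} ≤ ENNReal.ofReal η := by
  have := h₁.prob
  have := h₂.prob
  have hm : EvInv (μ₁.prod μ₂) := fun v hv => prod_mp h₁ h₂ hv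
  have h3 : 0 < η / 3 := by positivity
  have hK : (0 : ℝ) < (2 * K + 5) ^ 3 := by positivity
  obtain ⟨m, hm0, hm1⟩ := exists_hh hm (prod_til h₁ h₂)
    (ε := η / 3 * δ / (2 * K + 5) ^ 3) (by positivity)
  have t2 : Tendsto (fun j : ℕ => 2 * j) atTop atTop := tendsto_id.const_mul_atTop' (by norm_num)
  have e3 : (0 : ENNReal) < ENNReal.ofReal (η / 3) := ENNReal.ofReal_pos.2 h3
  have hml : ∀ᶠ l : ℕ in atTop, (m : ℝ) ≤ δ * l :=
    (tendsto_natCast_atTop_atTop.const_mul_atTop hδ).eventually_ge_atTop _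
  obtain ⟨j, a1, a2, a3, a4, a5, a6⟩ := ((t2.eventually hm1).and
    ((t2.eventually (eventually_ge_atTop l0)).and ((t2.eventually hml).and
    ((t2.eventually (eventually_ge_atTop 1)).and
    (((close_prob h₁ hδ K).eventually (ge_mem_nhds e3)).and
    ((close_prob h₂ hδ K).eventually (ge_mem_nhds e3))))))).exists
  refine ⟨m, 2 * j, hm0, a2, a3, ?_⟩
  set l := 2 * j
  have hl : (1 : ℝ) ≤ l := by exact_mod_cast a4
  have b3 := hh_prob hm m l (box ((K + 2) * l)) (t := δ * (l : ℝ) ^ 3) (by positivity)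
    (by positivity) a1
  have b4 : (#(box ((K + 2) * l)) : ℝ) * (η / 3 * δ / (2 * K + 5) ^ 3) / (δ * (l : ℝ) ^ 3) ≤
      η / 3 := by
    rw [card_box, div_le_iff₀ (by positivity)]
    have : ((((2 * ((K + 2) * l) + 1) ^ 3 : ℕ)) : ℝ) ≤ ((2 * K + 5) * l) ^ 3 := by
      push_cast
      exact pow_le_pow_left₀ (by positivity) (by nlinarith) 3
    refine (mul_le_mul_of_nonneg_right this (by positivity)).trans (le_of_eq ?_)
    field_simp
  have hs : {p : Om | ¬ Good s δ K m l p} ⊆ (Prod.fst ⁻¹' {σ | ¬ Close s δ K l σ} ∪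
      Prod.snd ⁻¹' {σ | ¬ Close s δ K l σ}) ∪
      {p | δ * (l : ℝ) ^ 3 < ∑ x ∈ box ((K + 2) * l) with Ev x, hh m l p x} := by
    intro p hp
    by_contra hn
    simp only [Set.mem_union, Set.mem_preimage, Set.mem_ofPred_eq, not_or, not_not, not_lt] at hn
    exact hp ⟨hn.1.1, hn.1.2, hn.2⟩
  refine (measure_mono hs).trans ((measure_union_le _ _).trans ?_)
  have c1 := ((measurePreserving_fst (μ := μ₁) (ν := μ₂)).measure_preimage_le _).trans a5
  have c2 := ((measurePreserving_snd (μ := μ₁) (ν := μ₂)).measure_preimage_le _).trans a6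
  refine (add_le_add ((measure_union_le _ _).trans (add_le_add c1 c2))
    (b3.trans (ENNReal.ofReal_le_ofReal b4))).trans (le_of_eq ?_)
  rw [← ENNReal.ofReal_add h3.le h3.le, ← ENNReal.ofReal_add (by positivity) h3.le]
  congr 1; ring

end Pool.Agent.Lib.MP_640444_pr
end

-- part Pool.Agent.Lib.MP_640444_pr.Color
section

/-!
Flipping invariant sets, and the two involution colouring.
-/

set_option autoImplicit false
open MeasureTheory Filter Topology Finset
open scoped Classical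

namespace Pool.Agent.Lib.MP_640444_pr

open Equiv Equiv.Perm

theorem two_inv {E : Type} (u v : E → E) (hu : Function.Involutive u) (hv : Function.Involutive v)
    (hu' : ∀ e, u e ≠ e) (hv' : ∀ e, v e ≠ e) :
    ∃ c : E → Prop, ∀ e, (c (u e) ↔ ¬ c e) ∧ (c (v e) ↔ ¬ c e) := by
  let U : Perm E := hu.toPerm
  let ρ : Perm E := hv.toPerm * U
  have h1 : SemiconjBy U ρ ρ⁻¹ := by
    rw [SemiconjBy, eq_inv_mul_iff_mul_eq]
    ext e
    simp [ρ, U, hu _, hv _]
  have h2 : ∀ (j : ℤ) e, u ((ρ ^ j) e) = (ρ ^ (-j)) (u e) := fun j e => by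
    have := congrArg (fun f : Perm E => f e) (h1.zpow_right j).eq
    simpa [U] using this
  have h3 : ∀ e, ¬ SameCycle ρ e (u e) := by
    rintro e ⟨k, hk⟩
    have h4 : ∀ j : ℤ, u ((ρ ^ j) e) = (ρ ^ (k - j)) e := fun j => by
      rw [h2, ← hk, ← Perm.mul_apply, ← zpow_add]
      congr 2
      ring
    obtain ⟨j, rfl | rfl⟩ := Int.even_or_odd' k
    · exact hu' _ ((h4 j).trans (by congr 2; ring))
    · refine hv' (u ((ρ ^ j) e)) ?_
      have : v (u ((ρ ^ j) e)) = (ρ ^ (1 + j)) e := by rw [zpow_add, zpow_one]; rfl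
      rw [this, h4]
      congr 2
      ring
  obtain ⟨_, -⟩ := exists_wellFoundedLT (Quotient (SameCycle.setoid ρ))
  let q : E → Quotient (SameCycle.setoid ρ) := Quotient.mk _
  have h5 : ∀ e, q (u e) < q e ↔ ¬ q e < q (u e) := fun e =>
    ⟨fun h => h.not_gt, fun h => (not_lt.1 h).lt_of_ne fun h' => h3 e (Quotient.exact h').symm⟩
  refine ⟨fun e => q e < q (u e), fun e => ⟨by simp only [hu e]; exact h5 e, ?_⟩⟩
  have h6 : q (u e) = q (v e) := Quotient.sound ⟨1, by simp [ρ, U, hu _]⟩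
  have h7 : q (u (v e)) = q e := Quotient.sound ⟨1, by simp [ρ, U, hu _, hv _]⟩
  simp only [h7, ← h6]
  exact h5 e

section darts

variable {D : Type} {ρ ρ' β : Perm D} {W : Set D}

/-- darts whose forward orbit avoids `W` -/
def Free (ρ : Perm D) (W : Set D) (d : D) : Prop := ∀ k : ℕ, (ρ ^ k) d ∉ W

theorem Free.pow {d : D} (h : Free ρ W d) (k : ℕ) : Free ρ W ((ρ ^ k) d) := fun j => by
  rw [← Perm.mul_apply, ← pow_add]
  exact h _

theorem Free.pow_eq (hW : ∀ d ∉ W, ρ' d = ρ d) {d : D} (h : Free ρ W d) (k : ℕ) :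
    (ρ' ^ k) d = (ρ ^ k) d := by
  induction k with
  | zero => rfl
  | succ k ih => rw [pow_succ', pow_succ', Perm.mul_apply, Perm.mul_apply, ih, hW _ (h k)]

theorem Free.tr (hW : ∀ d ∉ W, ρ' d = ρ d) {d : D} (h : Free ρ W d) : Free ρ' W d :=
  fun k => h.pow_eq hW k ▸ h k

theorem Free.same (hW : ∀ d ∉ W, ρ' d = ρ d) {d e : D} (h : Free ρ W d) (h' : Free ρ W e)
    (hs : SameCycle ρ d e) : SameCycle ρ' d e := by
  obtain ⟨k, hk⟩ := hs
  obtain ⟨n, rfl | rfl⟩ := Int.eq_nat_or_neg k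
  · exact ⟨n, by rw [zpow_natCast, h.pow_eq hW, ← zpow_natCast, hk]⟩
  · refine SameCycle.symm ⟨n, ?_⟩
    rw [zpow_natCast, h'.pow_eq hW, ← hk, ← zpow_natCast, ← Perm.mul_apply, ← zpow_add]
    simp

theorem periodic_or (hW : W.Finite) (d : D) :
    (∃ k : ℕ, Free ρ W ((ρ ^ k) d)) ∨ ∃ m : ℕ, 0 < m ∧ (ρ ^ m) d = d := by
  refine or_iff_not_imp_left.2 fun h => ?_
  have h1 : {k : ℕ | (ρ ^ k) d ∈ W}.Infinite := by
    refine Set.infinite_of_forall_exists_gt fun k => ?_
    obtain ⟨j, hj⟩ := not_forall.1 fun h' => h ⟨k + 1, h'⟩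
    refine ⟨j + (k + 1), ?_, by omega⟩
    rw [Set.mem_ofPred_eq, pow_add]
    exact not_not.1 hj
  obtain ⟨a, -, b, -, hab, he⟩ := h1.exists_lt_map_eq_of_mapsTo (f := fun k => (ρ ^ k) d)
    (fun _ hk => hk) hW
  refine ⟨b - a, by omega, (ρ ^ a).injective ?_⟩
  rw [← Perm.mul_apply, ← pow_add, Nat.add_sub_cancel' hab.le]
  exact he.symm

theorem pow_mul_fix {d : D} {m : ℕ} (h : (ρ ^ m) d = d) (k : ℕ) : (ρ ^ (m * k)) d = d := by
  induction k with
  | zero => rfl
  | succ k ih => rw [Nat.mul_succ, pow_add, Perm.mul_apply, h, ih]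

theorem conj_pow (hρ : ∀ d, ρ (β (ρ d)) = β d) (k : ℕ) (d : D) :
    (ρ ^ k) (β ((ρ ^ k) d)) = β d := by
  induction k generalizing d with
  | zero => rfl
  | succ k ih =>
    nth_rw 1 [pow_succ]
    rw [pow_succ', Perm.mul_apply, Perm.mul_apply, hρ, ih]

theorem same_conj (hρ : ∀ d, ρ (β (ρ d)) = β d) {d e : D} (h : SameCycle ρ d e) :
    SameCycle ρ (β d) (β e) := by
  have key : ∀ (n : ℕ) d, SameCycle ρ (β ((ρ ^ n) d)) (β d) := fun n d =>
    ⟨n, by rw [zpow_natCast, conj_pow hρ]⟩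
  obtain ⟨k, hk⟩ := h
  obtain ⟨n, rfl | rfl⟩ := Int.eq_nat_or_neg k
  · rw [← hk, zpow_natCast]
    exact (key n d).symm
  · have : d = (ρ ^ n) e := by
      rw [← hk, ← zpow_natCast, ← Perm.mul_apply, ← zpow_add]
      simp
    rw [this]
    exact key n e

theorem Free.tail (hW : W.Finite) (hρ : ∀ d, ρ (β (ρ d)) = β d) (hβ : ∀ d, β d ∈ W → d ∈ W)
    {d : D} (h : Free ρ W d) : ∃ e, Free ρ W e ∧ SameCycle ρ (β d) e := by
  rcases periodic_or (ρ := ρ) hW (β d) with ⟨k, hk⟩ | ⟨m, hm, h1⟩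
  · exact ⟨_, hk, k, by rw [zpow_natCast]⟩
  refine ⟨β d, fun k hk => h (m * k - k) (hβ _ ?_), .refl _ _⟩
  have h2 := conj_pow hρ (m * k - k) d
  have h3 : (ρ ^ (m * k - k)) ((ρ ^ k) (β d)) = β d := by
    rw [← Perm.mul_apply, ← pow_add, Nat.sub_add_cancel (Nat.le_mul_of_pos_left k hm),
      pow_mul_fix h1]
  rwa [(ρ ^ (m * k - k)).injective (h2.trans h3.symm)]

theorem finite_rest (hW : W.Finite) (hβ2 : ∀ d, β (β d) = d) (hρ : ∀ d, ρ (β (ρ d)) = β d)
    (hβ : ∀ d, β d ∈ W → d ∈ W) : {d | ¬ Free ρ W d ∧ ¬ Free ρ W (β d)}.Finite := by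
  have h1 : ∀ w, {d | ¬ Free ρ W d ∧ ∃ k : ℕ, (ρ ^ k) w = d}.Finite := fun w => by
    rcases periodic_or (ρ := ρ) hW w with ⟨m, hm⟩ | ⟨m, hm, h1⟩
    · refine ((Set.finite_lt_nat m).image fun k => (ρ ^ k) w).subset ?_
      rintro _ ⟨h, k, rfl⟩
      refine ⟨k, (not_le.1 fun hk => h ?_ : k < m), rfl⟩
      have := hm.pow (k - m)
      rwa [← Perm.mul_apply, ← pow_add, Nat.sub_add_cancel hk] at this
    · refine ((Set.finite_lt_nat m).image fun k => (ρ ^ k) w).subset ?_
      rintro _ ⟨-, k, rfl⟩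
      refine ⟨k % m, Nat.mod_lt _ hm, ?_⟩
      conv_rhs => rw [← Nat.mod_add_div k m, pow_add, Perm.mul_apply, pow_mul_fix h1]
  refine (hW.biUnion fun w _ => h1 w).subset fun d hd => ?_
  obtain ⟨k, hk⟩ := not_forall.1 hd.2
  refine Set.mem_biUnion (x := β ((ρ ^ k) (β d))) (hβ _ (by rw [hβ2]; exact not_not.1 hk))
    ⟨hd.1, k, by rw [conj_pow hρ, hβ2]⟩

theorem ext_colour (hW : W.Finite) (hρ : ∀ d, ρ (β (ρ d)) = β d)
    (hβ : ∀ d, β d ∈ W → d ∈ W) (c₀ : D → Prop)
    (h1 : ∀ d e, Free ρ W d → Free ρ W e → SameCycle ρ d e → (c₀ d ↔ c₀ e))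
    (h2 : ∀ d e, Free ρ W d → Free ρ W e → SameCycle ρ (β d) e → (c₀ e ↔ ¬ c₀ d)) :
    ∃ c : D → Prop, (∀ d, c (ρ d) ↔ c d) ∧
      ∀ d, Free ρ W d → (c d ↔ c₀ d) ∧ (c (β d) ↔ ¬ c₀ d) := by
  have key : ∀ d e, Free ρ W e → SameCycle ρ d e →
      ((∃ e, Free ρ W e ∧ SameCycle ρ d e ∧ c₀ e) ↔ c₀ e) := fun d e he hs =>
    ⟨fun ⟨e', h3, h4, h5⟩ => (h1 e' e h3 he (h4.symm.trans hs)).1 h5, fun h => ⟨e, he, hs, h⟩⟩
  refine ⟨fun d => ∃ e, Free ρ W e ∧ SameCycle ρ d e ∧ c₀ e, fun d => by simp,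
    fun d hd => ⟨key d d hd (.refl _ _), ?_⟩⟩
  obtain ⟨e, he, hs⟩ := hd.tail hW hρ hβ
  exact (key _ e he hs).trans (h2 d e hd he hs)

theorem dart_colour (hW : W.Finite) (hβ2 : ∀ d, β (β d) = d) (hρ : ∀ d, ρ (β (ρ d)) = β d)
    (hρ' : ∀ d, ρ' (β (ρ' d)) = β d) (hβ : ∀ d, β d ∈ W → d ∈ W) (he : ∀ d ∉ W, ρ' d = ρ d)
    (hn : ∀ d, ¬ SameCycle ρ (β d) d) (hn' : ∀ d, ¬ SameCycle ρ' (β d) d) :
    ∃ c c' : D → Prop, (∀ d, c (ρ d) ↔ c d) ∧ (∀ d, c' (ρ' d) ↔ c' d) ∧
      {d | ¬ ((c d ↔ c' d) ∧ (c d ↔ ¬ c' (β d)))}.Finite := by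
  have he' : ∀ d ∉ W, ρ d = ρ' d := fun d h => (he d h).symm
  let S : Setoid {d // Free ρ W d} := (SameCycle.setoid ρ).comap Subtype.val
  have mk : ∀ σ : Perm D, (∀ d, σ (β (σ d)) = β d) → (∀ d ∉ W, σ d = ρ d) →
      (∀ d, ¬ SameCycle σ (β d) d) → ∃ u : Quotient S → Quotient S, Function.Involutive u ∧
        (∀ e, u e ≠ e) ∧ ∀ d e : {d // Free ρ W d}, SameCycle σ (β d) e →
          u (Quotient.mk S d) = Quotient.mk S e := by
    intro σ h1 h2 h3
    have h2' : ∀ d ∉ W, ρ d = σ d := fun d h => (h2 d h).symm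
    choose t ht ht' using fun d : {d // Free ρ W d} => (d.2.tr h2).tail hW h1 hβ
    have h4 : ∀ d e e' : {d // Free ρ W d}, SameCycle σ (β d) e' → S d e →
        S ⟨t e, (ht e).tr h2'⟩ e' := fun d e e' h5 h6 =>
      (ht e).same h2' (e'.2.tr h2)
        (((ht' e).symm.trans (same_conj h1 (d.2.same h2 e.2 h6)).symm).trans h5)
    let u : Quotient S → Quotient S := Quotient.map (fun d => ⟨t d, (ht d).tr h2'⟩)
      fun d e h => S.symm (h4 d e _ (ht' d) h)
    have h5 : ∀ d e : {d // Free ρ W d}, SameCycle σ (β d) e →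
        u (Quotient.mk S d) = Quotient.mk S e := fun d e h => Quotient.sound (h4 d d e h (S.refl d))
    refine ⟨u, fun e => ?_, fun e => ?_, h5⟩
    · obtain ⟨d, rfl⟩ := e.exists_rep
      refine h5 ⟨t d, (ht d).tr h2'⟩ d ?_
      have := (same_conj h1 (ht' d)).symm
      rwa [hβ2] at this
    · obtain ⟨d, rfl⟩ := e.exists_rep
      exact fun h => h3 d ((ht' d).trans (((ht d).tr h2').same h2 d.2 (Quotient.exact h)))
  obtain ⟨u, u1, u2, u3⟩ := mk ρ hρ (fun _ _ => rfl) hn
  obtain ⟨v, v1, v2, v3⟩ := mk ρ' hρ' he hn'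
  obtain ⟨c, hc⟩ := two_inv u v u1 v1 u2 v2
  let c₀ : D → Prop := fun d => ∃ h : Free ρ W d, c (Quotient.mk S ⟨d, h⟩)
  have h0 : ∀ d (h : Free ρ W d), c₀ d ↔ c (Quotient.mk S ⟨d, h⟩) := fun d h =>
    ⟨fun ⟨_, h'⟩ => h', fun h' => ⟨h, h'⟩⟩
  have h1 : ∀ d e, Free ρ W d → Free ρ W e → SameCycle ρ d e → (c₀ d ↔ c₀ e) :=
    fun d e hd he hs => by rw [h0 d hd, h0 e he, Quotient.sound (s := S) (a := ⟨d, hd⟩) (b := ⟨e, he⟩) hs]
  obtain ⟨c₁, h2, h3⟩ := ext_colour hW hρ hβ c₀ h1 fun d e hd he hs => by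
    rw [h0 d hd, h0 e he, ← u3 ⟨d, hd⟩ ⟨e, he⟩ hs]
    exact (hc _).1
  obtain ⟨c₂, h4, h5⟩ := ext_colour hW hρ' hβ c₀
    (fun d e hd he hs => h1 d e (hd.tr he') (he.tr he') (hd.same he' he hs)) fun d e hd he hs => by
      rw [h0 d (hd.tr he'), h0 e (he.tr he'), ← v3 ⟨d, hd.tr he'⟩ ⟨e, he.tr he'⟩ hs]
      exact (hc _).2
  refine ⟨c₁, c₂, h2, h4, (finite_rest hW hβ2 hρ hβ).subset fun d hd => ⟨fun h => hd ?_,
    fun h => hd ?_⟩⟩
  · have := h3 d h
    have := h5 d (h.tr he)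
    tauto
  · have e1 := h3 _ h
    have e2 := h5 _ (h.tr he)
    rw [hβ2] at e1 e2
    tauto

end darts

theorem til_flp {p : Om} (hp : Til p) {F : Set V} (hF : Invar p F) : Til (flp F p) := by
  refine ⟨fun x => ?_, fun x => ?_⟩ <;> by_cases hx : x ∈ F <;>
    simp only [flp, hx, (hF x).1, (hF x).2, if_true, if_false]
  exacts [hp.2 x, hp.1 x, hp.1 x, hp.2 x]

theorem Invar.swap {p : Om} {F : Set V} (hF : Invar p F) : Invar p.swap F := fun x => (hF x).symm

theorem Invar.stp_mem {p : Om} {F : Set V} (hF : Invar p F) (x : V) : stp p x ∈ F ↔ x ∈ F := by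
  unfold stp
  split_ifs
  exacts [(hF x).1, (hF x).2]

theorem flp_swap (F : Set V) (p : Om) : (flp F p).swap = flp F p.swap := rfl

theorem flp_compl (F : Set V) (p : Om) : flp F p = flp Fᶜ p.swap := by
  refine Prod.ext (funext fun x => ?_) (funext fun x => ?_) <;> by_cases hx : x ∈ F <;>
    simp [flp, hx]

theorem outLab_flp (D : Finset (V × V)) (w : V) {p : Om} {F : Set V} (hF : Invar p F) {x : V}
    (hx : x ∉ F) (L : ℝ) : OutLab D w (flp F p) x L ↔ OutLab D w p x L := by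
  have h1 : ∀ k, (stp (flp F p))^[k] x = (stp p)^[k] x ∧ (stp p)^[k] x ∉ F := fun k => by
    induction k with
    | zero => exact ⟨rfl, hx⟩
    | succ k ih =>
      rw [Function.iterate_succ_apply', Function.iterate_succ_apply', ih.1, hF.stp_mem]
      exact ⟨by simp [stp, flp, ih.2], ih.2⟩
  have h2 : ∀ y, dbl D (flp F p) y ↔ dbl D p y := fun y => forall₂_congr fun uw _ => by
    by_cases h : y + uw.1 ∈ F <;> simp [flp, h, and_comm]
  have h3 : ∀ y ∉ F, gv D w (flp F p) y = gv D w p y := fun y hy => by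
    simp only [gv, h2]
    simp [flp, hy]
  simp only [OutLab, fun k => (h1 k).1, fun k => h3 _ (h1 k).2]

theorem pure_flp (D : Finset (V × V)) (w : V) {p : Om} (hp : Til p) {F : Set V}
    (hF : Invar p F) (h : Pure D w p) : Pure D w (flp F p) := by
  intro x
  obtain ⟨L, h1, h2⟩ := h x
  by_cases hx : x ∈ F
  · have hF' : Invar p Fᶜ := fun y => ⟨(hF y).1.not, (hF y).2.not⟩
    refine ⟨-L, ?_, ?_⟩
    · rwa [flp_compl, outLab_flp D w hF'.swap (not_not.2 hx)]
    · rwa [flp_swap, flp_compl, neg_neg, Prod.swap_swap, outLab_flp D w hF' (not_not.2 hx)]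
  · exact ⟨L, (outLab_flp D w hF hx L).2 h1, (outLab_flp D w hF.swap hx _).2 h2⟩

theorem Til.swap_c {p : Om} (hp : Til p) : Til p.swap := ⟨hp.2, hp.1⟩

theorem Til.stp_stp {p : Om} (hp : Til p) (x : V) : stp p.swap (stp p x) = x := by
  by_cases hx : Ev x
  · simp [stp, hx, (hp.1 x).1.ev, (hp.1 x).2]
  · simp [stp, hx, (hp.2 x).1.ev, (hp.2 x).2]

/-- the step map on darts -/
noncomputable def dstp {p : Om} (hp : Til p) : Perm (V × Bool) where
  toFun d := (stp (if d.2 then p else p.swap) d.1, d.2)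
  invFun d := (stp (if d.2 then p.swap else p) d.1, d.2)
  left_inv := by
    rintro ⟨x, _ | _⟩
    · simpa using hp.swap_c.stp_stp x
    · simpa using hp.stp_stp x
  right_inv := by
    rintro ⟨x, _ | _⟩
    · simpa using hp.stp_stp x
    · simpa using hp.swap_c.stp_stp x

theorem dstp_apply {p : Om} (hp : Til p) (x : V) (b : Bool) :
    dstp hp (x, b) = (stp (if b then p else p.swap) x, b) := rfl

theorem same_inv {D A : Type} {ρ : Perm D} {t : D → A} (h : ∀ d, t (ρ d) = t d) {d e : D}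
    (hs : SameCycle ρ d e) : t d = t e := by
  obtain ⟨k, rfl⟩ := hs
  induction k using Int.induction_on with
  | zero => rfl
  | succ k ih => rw [add_comm, zpow_add, zpow_one, Perm.mul_apply, h, ih]
  | pred k ih =>
    rw [ih, ← h ((ρ ^ (-(k : ℤ) - 1)) d), ← Perm.mul_apply, ← zpow_one_add]
    congr 3
    ring

theorem invar_of_stp {p : Om} (hp : Til p) {o : V → Prop} (h : ∀ x, o (stp p x) ↔ o x) :
    Invar p {x | ¬ o x} := fun x => by
  have h1 := h x
  have h2 := h (stp p.swap x)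
  rw [show stp p (stp p.swap x) = x from hp.swap_c.stp_stp x] at h2
  by_cases hx : Ev x <;> simp only [stp, hx, if_true, if_false, Prod.fst_swap, Prod.snd_swap]
    at h1 h2 <;> simp only [Set.mem_ofPred_eq] <;> tauto

theorem unor_flip {p p' : Om} (hp : Til p) (hp' : Til p') (h : Unor p p') :
    ∃ F F' : Set V, Invar p F ∧ Invar p' F' ∧ FinMod (flp F p) (flp F' p') := by
  let s : V → Prop := fun x => p'.1 x = p.1 x ∧ p'.2 x = p.2 x
  let W₀ : Set V := {x | ¬ (s x ∨ (p'.1 x = p.2 x ∧ p'.2 x = p.1 x))}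
  have hj : Function.Involutive fun d : V × Bool => (d.1, if s d.1 then d.2 else !d.2) := by
    rintro ⟨x, b⟩
    by_cases hx : s x <;> simp [hx]
  have hβ : Function.Involutive fun d : V × Bool => (d.1, !d.2) := by
    rintro ⟨x, b⟩
    simp
  let j : Perm (V × Bool) := hj.toPerm
  let β : Perm (V × Bool) := hβ.toPerm
  have ej : ∀ x b, j (x, b) = (x, if s x then b else !b) := fun _ _ => rfl
  have eβ : ∀ x b, β (x, b) = (x, !b) := fun _ _ => rfl
  have jj : ∀ d, j (j d) = d := hj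
  have jβ : ∀ d, j (β d) = β (j d) := by
    rintro ⟨x, b⟩
    by_cases hx : s x <;> simp [ej, eβ, hx]
  have h1 : ∀ {q : Om} (hq : Til q) d, dstp hq (β (dstp hq d)) = β d := by
    rintro q hq ⟨x, _ | _⟩
    · simpa [dstp_apply, eβ] using hq.swap_c.stp_stp x
    · simpa [dstp_apply, eβ] using hq.stp_stp x
  let W₁ : Set V := W₀ ∪ (p.1 '' W₀ ∪ p.2 '' W₀)
  have hW : W₁.Finite := h.union ((h.image _).union (h.image _))
  have h2 : ∀ x ∉ W₁, (s (p.1 x) ↔ s x) ∧ (s (p.2 x) ↔ s x) := by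
    intro x hx
    simp only [W₁, Set.mem_union, not_or] at hx
    have e0 : _ ∨ _ := not_not.1 hx.1
    have e1 : _ ∨ _ := not_not.1 fun h' : p.1 x ∈ W₀ => hx.2.1 ⟨_, h', (hp.1 x).2⟩
    have e2 : _ ∨ _ := not_not.1 fun h' : p.2 x ∈ W₀ => hx.2.2 ⟨_, h', (hp.2 x).2⟩
    have a1 := fun y => (hp.1 y).2
    have a2 := fun y => (hp.2 y).2
    have b1 := fun y => (hp'.1 y).2
    have b2 := fun y => (hp'.2 y).2
    simp only [s] at e0 e1 e2 ⊢
    grind
  obtain ⟨c, c', h3, h4, h5⟩ := dart_colour (ρ := dstp hp) (ρ' := j * dstp hp' * j) (β := β)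
    (W := W₁ ×ˢ Set.univ) (hW.prod Set.finite_univ) hβ (h1 hp)
    (fun d => by simp only [Perm.mul_apply]; rw [jβ, jj, h1, jβ, jj]) (fun d hd => ⟨hd.1, trivial⟩)
    (by
      rintro ⟨x, b⟩ hd
      have hx : x ∉ W₁ := fun h' => hd ⟨h', trivial⟩
      have e0 : _ ∨ _ := not_not.1 fun h' : x ∈ W₀ => hx (.inl h')
      have e1 := h2 x hx
      simp only [Perm.mul_apply, ej, dstp_apply]
      by_cases hs : s x
      · have e2 := hs
        cases b <;> by_cases he : Ev x <;> simp [stp, hs, he, e1, e2.1, e2.2]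
      · have e2 := e0.resolve_left hs
        cases b <;> by_cases he : Ev x <;> simp [stp, hs, he, e1, e2.1, e2.2])
    (fun d hs => by
      have := same_inv (t := Prod.snd) (fun _ => rfl) hs
      simp [β] at this)
    (fun d hs => by
      have := same_inv (t := fun d => (j d).2) (fun d => by
        simp only [Perm.mul_apply]
        rw [jj]
        rfl) hs
      rw [jβ] at this
      simp [β] at this)
  refine ⟨{x | ¬ c (x, true)}, {x | ¬ c' (j (x, true))}, invar_of_stp hp fun x => h3 (x, true),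
    invar_of_stp hp' fun x => ?_, (h.union (h5.image Prod.fst)).subset fun x hx => ?_⟩
  · have := h4 (j (x, true))
    simp only [Perm.mul_apply, jj] at this
    exact this
  · by_contra hn
    rw [Set.mem_union, not_or] at hn
    have e0 : _ ∨ _ := not_not.1 hn.1
    have e1 : _ ∧ _ := not_not.1 fun h' : (x, true) ∈ {d | ¬ ((c d ↔ c' d) ∧ (c d ↔ ¬ c' (β d)))} =>
      hn.2 ⟨_, h', rfl⟩
    refine absurd hx ?_
    simp only [flp, Set.mem_ofPred_eq, ej, not_or, not_not, ne_eq]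
    rw [eβ] at e1
    by_cases hs : s x
    · have e2 := hs
      simp only [hs, if_true, ← e1.1, e2.1, e2.2]
      split_ifs <;> simp
    · have e2 := e0.resolve_left hs
      simp only [hs, if_false, e1.2, e2.1, e2.2, not_not]
      split_ifs <;> simp

end Pool.Agent.Lib.MP_640444_pr
end

-- part Pool.Agent.Lib.MP_640444_pr.Coin
section

/-!
Independent fair coins on the infinite components and the flipped measure.
-/

set_option autoImplicit false
open MeasureTheory Filter Finset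
open scoped Classical Topology

namespace Pool.Agent.Lib.MP_640444_pr

noncomputable def coin : Measure Bool := ProbabilityTheory.uniformOn Set.univ

instance : IsProbabilityMeasure coin := by unfold coin; infer_instance

lemma coin_single (b : Bool) : coin {b} = 2⁻¹ := by
  rw [coin, ProbabilityTheory.uniformOn_univ]
  simp

noncomputable def coins : Measure (V → Bool) := Measure.infinitePi fun _ => coin

instance : IsProbabilityMeasure coins := by unfold coins; infer_instance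

lemma coins_law (r r' : V → V) (h : ∀ x y, r x = r y ↔ r' x = r' y) :
    coins.map (fun ξ x => ξ (r x)) = coins.map (fun ξ x => ξ (r' x)) := by
  let I := Set.range r
  let c : I → V := fun i => i.2.choose
  have hc : ∀ i : I, r (c i) = i.1 := fun i => i.2.choose_spec
  let e : V → I := fun x => ⟨r x, x, rfl⟩
  have j2 : Function.Injective fun i : I => r' (c i) := by
    intro i j hij
    exact Subtype.ext (by rw [← hc i, ← hc j]; exact (h _ _).2 hij)
  have a1 := Measure.map_infinitePi_infinitePi_of_inj (P := fun _ : V => coin)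
    (f := fun i : I => i.1) Subtype.val_injective
  have a2 := Measure.map_infinitePi_infinitePi_of_inj (P := fun _ : V => coin) j2
  have hm : Measurable fun (η : I → Bool) (x : V) => η (e x) :=
    measurable_pi_lambda _ fun x => measurable_pi_apply _
  have b1 : (fun (ξ : V → Bool) x => ξ (r x)) =
      (fun (η : I → Bool) (x : V) => η (e x)) ∘ fun ξ (i : I) => ξ i.1 := rfl
  have b2 : (fun (ξ : V → Bool) x => ξ (r' x)) =
      (fun (η : I → Bool) (x : V) => η (e x)) ∘ fun ξ (i : I) => ξ (r' (c i)) := by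
    funext ξ x
    simp only [Function.comp_apply]
    congr 1
    exact (h _ _).1 (hc (e x)).symm
  rw [b1, b2, ← Measure.map_map hm (measurable_pi_lambda _ fun _ => measurable_pi_apply _),
    ← Measure.map_map hm (measurable_pi_lambda _ fun _ => measurable_pi_apply _), coins, a1, a2]

lemma coins_cyl_ne (Q : Finset V) (η : V → Bool) : coins {ξ | ∀ q ∈ Q, ξ q = η q} ≠ 0 := by
  have : {ξ : V → Bool | ∀ q ∈ Q, ξ q = η q} = Set.pi Q fun q => {η q} := by
    ext ξ; simp [Set.mem_pi]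
  rw [this, coins, Measure.infinitePi_pi _ fun _ _ => measurableSet_singleton _]
  simp [coin_single]

/-- sign of a coin -/
def sg (b : Bool) : ℝ := if b then 1 else -1

lemma abs_sg (b : Bool) : |sg b| = 1 := by cases b <;> simp [sg]

lemma integral_sg_mul (u v : V) :
    ∫ ξ, sg (ξ u) * sg (ξ v) ∂coins = if u = v then 1 else 0 := by
  split_ifs with h
  · subst h
    have : ∀ ξ : V → Bool, sg (ξ u) * sg (ξ u) = 1 := fun ξ => by cases ξ u <;> simp [sg]
    simp [this]
  · have h1 := Measure.infinitePi_map_eval_prod (P := fun _ : V => coin) h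
    have hm : Measurable fun ξ : V → Bool => (ξ u, ξ v) :=
      (measurable_pi_apply u).prodMk (measurable_pi_apply v)
    have h2 := integral_map (μ := coins) hm.aemeasurable
      (f := fun q : Bool × Bool => sg q.1 * sg q.2) (measurable_of_finite _).aestronglyMeasurable
    rw [← h2, coins, h1, integral_prod_mul]
    have : ∫ b, sg b ∂coin = 0 := by
      rw [integral_fintype Integrable.of_finite]
      simp [Measure.real, coin_single, sg]
    rw [this, zero_mul]

lemma coins_cheb (Q : Finset V) (r : V → V) (c : V → ℝ) {t B : ℝ} (ht : 0 < t)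
    (hB : ∑ x ∈ Q, ∑ y ∈ Q, (if r x = r y then c x * c y else 0) ≤ B) :
    coins {ξ | t < |∑ x ∈ Q, sg (ξ (r x)) * c x|} ≤ ENNReal.ofReal (B / t ^ 2) := by
  let f : (V → Bool) → ℝ := fun ξ => (∑ x ∈ Q, sg (ξ (r x)) * c x) ^ 2
  have hs : ∀ u, Measurable fun ξ : V → Bool => sg (ξ u) := fun u =>
    (measurable_of_finite sg).comp (measurable_pi_apply u)
  have hi : ∀ u v, Integrable (fun ξ : V → Bool => sg (ξ u) * sg (ξ v)) coins := fun u v =>
    Integrable.of_bound ((hs u).mul (hs v)).aestronglyMeasurable 1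
      (Eventually.of_forall fun ξ => by rw [Real.norm_eq_abs, abs_mul, abs_sg, abs_sg, one_mul])
  have e : f = fun ξ => ∑ x ∈ Q, ∑ y ∈ Q, (c x * c y) * (sg (ξ (r x)) * sg (ξ (r y))) := by
    funext ξ
    simp only [f, sq, sum_mul_sum]
    exact sum_congr rfl fun x _ => sum_congr rfl fun y _ => by ring
  have hfi : Integrable f coins := by
    rw [e]
    exact integrable_finsetSum _ fun x _ => integrable_finsetSum _ fun y _ => (hi _ _).const_mul _
  have hI : ∫ ξ, f ξ ∂coins ≤ B := by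
    refine le_of_eq_of_le ?_ hB
    rw [e, integral_finsetSum _ fun x _ => integrable_finsetSum _ fun y _ => (hi _ _).const_mul _]
    refine sum_congr rfl fun x _ => ?_
    rw [integral_finsetSum _ fun y _ => (hi _ _).const_mul _]
    refine sum_congr rfl fun y _ => ?_
    rw [integral_const_mul, integral_sg_mul]
    split_ifs <;> simp
  have h1 := mul_meas_ge_le_integral_of_nonneg (μ := coins)
    (Eventually.of_forall fun ξ => sq_nonneg _ : 0 ≤ᵐ[coins] f) hfi (t ^ 2)
  have h2 : coins.real {ξ | t ^ 2 ≤ f ξ} ≤ B / t ^ 2 := by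
    rw [le_div_iff₀ (by positivity)]; linarith
  refine (measure_mono (fun ξ hξ => ?_)).trans
    ((ENNReal.ofReal_toReal (measure_ne_top coins {ξ | t ^ 2 ≤ f ξ})).symm.le.trans
      (ENNReal.ofReal_le_ofReal h2))
  simp only [Set.mem_ofPred_eq, f] at hξ ⊢
  rw [← sq_abs (∑ x ∈ Q, _)]
  exact pow_le_pow_left₀ ht.le hξ.le 2

def FS (p : Om) (η : V → Bool) : Set V := {x | Inf p x ∧ η x = true}

/-- the set of flipped vertices -/
def FF (ω : Om × (V → Bool)) : Set V := FS ω.1 fun x => ω.2 (rep ω.1 x)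

/-- the flipped configuration -/
noncomputable def fl (ω : Om × (V → Bool)) : Om := flp (FF ω) ω.1

lemma mset_FF (x : V) : MeasurableSet {ω | x ∈ FF ω} := by
  refine (measurable_fst (mset_inf x)).inter ?_
  exact (meas_app measurable_snd ((measurable_rep x).comp measurable_fst))
    (measurableSet_singleton true)

lemma measurable_fl : Measurable fl := measurable_flp measurable_fst mset_FF

lemma FF_cm (ω : Om × (V → Bool)) {x y : V} (h : Cm ω.1 x y) (hx : x ∈ FF ω) : y ∈ FF ω :=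
  ⟨hx.1.cm h, by
    have : ω.2 (rep ω.1 x) = true := hx.2
    rwa [(rep_eq_iff _ _ _).2 h] at this⟩

lemma invar_FF {ω : Om × (V → Bool)} (hp : Til ω.1) : Invar ω.1 (FF ω) :=
  invar_of_cm hp fun _ _ h hx => FF_cm ω h hx

lemma noFin_FF {ω : Om × (V → Bool)} (hp : Til ω.1) : NoFin ω.1 (FF ω) :=
  noFin_of_inf hp fun _ hx => hx.1

lemma flp_shift (v : V) (p : Om) (F : Set V) :
    shift2 v (flp ((· + v) ⁻¹' F) p) = flp F (shift2 v p) := by
  refine Prod.ext (funext fun x => ?_) (funext fun x => ?_) <;>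
  · obtain ⟨y, rfl⟩ : ∃ y, x = y + v := ⟨x - v, by simp⟩
    simp only [shift2, flp, shift_add_apply, Set.mem_preimage]
    split_ifs <;> rfl

lemma fl_evInv {m : Measure Om} [IsProbabilityMeasure m] (hm : EvInv m) :
    EvInv ((m.prod coins).map fl) := by
  intro v hv
  refine ⟨measurable_shift2 v, ?_⟩
  ext A hA
  have hA' := measurable_shift2 v hA
  rw [Measure.map_apply (measurable_shift2 v) hA, Measure.map_apply measurable_fl hA',
    Measure.map_apply measurable_fl hA, Measure.prod_apply (measurable_fl hA'),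
    Measure.prod_apply (measurable_fl hA),
    ← (hm v hv).lintegral_comp (measurable_measure_prodMk_left (measurable_fl hA))]
  refine lintegral_congr fun p => ?_
  have hΨ : Measurable fun η : V → Bool => shift2 v (flp (FS p η) p) := by
    refine (measurable_shift2 v).comp (measurable_flp measurable_const fun x => ?_)
    have : MeasurableSet {η : V → Bool | η x = true} :=
      (measurable_pi_apply x : Measurable fun η : V → Bool => η x) (measurableSet_singleton true)
    exact (MeasurableSet.const _).inter this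
  have hl := coins_law (rep p) (fun x => rep (shift2 v p) (x + v)) fun x y => by
    rw [rep_eq_iff, rep_eq_iff, cm_shift hv]
  have h1 := congrArg (fun μ : Measure (V → Bool) => μ ((fun η => shift2 v (flp (FS p η) p)) ⁻¹' A)) hl
  rw [Measure.map_apply (measurable_pi_lambda _ fun _ => measurable_pi_apply _) (hΨ hA),
    Measure.map_apply (measurable_pi_lambda _ fun _ => measurable_pi_apply _) (hΨ hA)] at h1
  refine h1.trans (congrArg coins ?_)
  ext ξ
  simp only [Set.mem_preimage, fl]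
  rw [← flp_shift v p]
  have : (FS p fun x => ξ (rep (shift2 v p) (x + v))) = (· + v) ⁻¹' FF (shift2 v p, ξ) := by
    ext x
    simp only [FS, FF, Set.mem_preimage, Set.mem_ofPred_eq, inf_shift hv]
  rw [this]

lemma flp_flp (F : Set V) (p : Om) : flp F (flp F p) = p := by
  refine Prod.ext (funext fun x => ?_) (funext fun x => ?_) <;>
  · simp only [flp]
    split_ifs <;> rfl

lemma invar_flp {p : Om} {F : Set V} (h : Invar p F) (G : Set V) : Invar (flp G p) F := by
  intro x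
  simp only [flp]
  split_ifs
  · exact (h x).symm
  · exact h x

lemma pure_of_flp {D : Finset (V × V)} {w : V} {p : Om} (hp : Til p) {F : Set V} (hF : Invar p F)
    (h : Pure D w (flp F p)) : Pure D w p := by
  have := pure_flp D w (til_flp hp hF) (invar_flp hF F) h
  rwa [flp_flp] at this

/-- purity of all finite modifications of all flips -/
lemma pure_of_conull {D : Finset (V × V)} {w : V} {p : Om} (hp : Til p)
    (h : ∀ᵐ ξ ∂coins, ∀ p', Til p' → FinMod (fl (p, ξ)) p' → Pure D w p')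
    {F : Set V} (hF : Invar p F) {p' : Om} (hp' : Til p') (hW : FinMod (flp F p) p') :
    Pure D w p' := by
  set W := {x | p'.1 x ≠ (flp F p).1 x ∨ p'.2 x ≠ (flp F p).2 x} with hWd
  have hWf : W.Finite := hW
  obtain ⟨ξ, hξ1, hξ2⟩ : ∃ ξ, (∀ q ∈ hWf.toFinset.image (rep p), ξ q = decide (q ∈ F)) ∧
      ∀ p', Til p' → FinMod (fl (p, ξ)) p' → Pure D w p' := by
    by_contra hcon
    push Not at hcon
    refine coins_cyl_ne (hWf.toFinset.image (rep p)) (fun q => decide (q ∈ F))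
      (measure_mono_null (fun ξ hξ => ?_) h)
    obtain ⟨p', a, b, c⟩ := hcon ξ hξ
    exact fun hh => c (hh p' a b)
  let CW : Set V := {x | ∃ z ∈ W, Cm p x z}
  let F' : Set V := {x | ¬ (x ∈ F ↔ x ∈ FF (p, ξ)) ∧ x ∉ CW}
  have hF'cm : ∀ x y, Cm p x y → x ∈ F' → y ∈ F' := by
    intro x y hxy hx
    refine ⟨fun hy => hx.1 ?_, fun ⟨z, hz, hyz⟩ => hx.2 ⟨z, hz, hxy.trans hyz⟩⟩
    exact ⟨fun a => FF_cm (p, ξ) hxy.symm (hy.1 (hF.cm hp hxy a)),
      fun a => hF.cm hp hxy.symm (hy.2 (FF_cm (p, ξ) hxy a))⟩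
  have hout : ∀ x, x ∉ W → p'.1 x = (flp F p).1 x ∧ p'.2 x = (flp F p).2 x := by
    intro x hx
    simpa [hWd, not_or] using hx
  have hcl : ∀ x ∈ F', p'.1 x ∈ F' ∧ p'.2 x ∈ F' := by
    intro x hx
    have hxW : x ∉ W := fun h => hx.2 ⟨x, h, Cm.refl p x⟩
    rw [(hout x hxW).1, (hout x hxW).2]
    simp only [flp]
    split_ifs
    · exact ⟨hF'cm _ _ (cm_snd hp x) hx, hF'cm _ _ (cm_fst hp x) hx⟩
    · exact ⟨hF'cm _ _ (cm_fst hp x) hx, hF'cm _ _ (cm_snd hp x) hx⟩
  have hinv : Invar p' F' := fun x =>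
    ⟨⟨fun a => by simpa [(hp'.1 x).2] using (hcl _ a).1, fun a => (hcl x a).1⟩,
      ⟨fun a => by simpa [(hp'.2 x).2] using (hcl _ a).2, fun a => (hcl x a).2⟩⟩
  refine pure_of_flp hp' hinv (hξ2 _ (til_flp hp' hinv) ?_)
  have hfin : (W ∪ ⋃ z ∈ W, {x | ¬ Inf p z ∧ Cm p z x}).Finite := by
    refine hWf.union (hWf.biUnion fun z _ => ?_)
    by_cases hz : Inf p z
    · simp [hz]
    · have := (inf_iff_infinite p z).not.1 hz
      simpa [hz] using this
  refine hfin.subset fun x hx => ?_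
  by_contra hn
  simp only [Set.mem_union, Set.mem_iUnion, Set.mem_ofPred_eq, not_or, not_exists, not_and] at hn
  have hxo := hout x hn.1
  have key : (x ∈ F' ↔ ¬ (x ∈ F ↔ x ∈ FF (p, ξ))) := by
    refine ⟨fun a => a.1, fun a => ⟨a, fun ⟨z, hz, hxz⟩ => a ?_⟩⟩
    have hiz : Inf p z := by
      by_contra hi
      exact hn.2 z hz hi hxz.symm
    have e1 := hξ1 (rep p z) (mem_image_of_mem _ (hWf.mem_toFinset.2 hz))
    have e2 : rep p x = rep p z := (rep_eq_iff p x z).2 hxz
    have e3 : Cm p x (rep p z) := hxz.trans (cm_rep p z)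
    constructor
    · intro a
      refine ⟨hiz.cm hxz.symm, ?_⟩
      simp only [e2, e1]
      exact decide_eq_true (hF.cm hp e3 a)
    · intro a
      have := a.2
      simp only [e2, e1] at this
      exact hF.cm hp e3.symm (of_decide_eq_true this)
  simp only [Set.mem_ofPred_eq, fl, flp] at hx hxo
  rw [hxo.1, hxo.2] at hx
  by_cases h1 : x ∈ F <;> by_cases h2 : x ∈ FF (p, ξ) <;> simp [key, h1, h2] at hx

lemma pure_of_unor {D : Finset (V × V)} {w : V} {p : Om} (hp : Til p)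
    (h : ∀ᵐ ξ ∂coins, ∀ p', Til p' → FinMod (fl (p, ξ)) p' → Pure D w p')
    (p' : Om) (hp' : Til p') (hU : Unor p p') : Pure D w p' := by
  obtain ⟨F, F', h1, h2, h3⟩ := unor_flip hp hp' hU
  exact pure_of_flp hp' h2 (pure_of_conull hp h h1 (til_flp hp' h2) h3)

end Pool.Agent.Lib.MP_640444_pr
end
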