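import Pool.Agent.Lib.MP_640444_pr.Stmts2

-- part Pool.Agent.Lib.MP_640444_pr.EntM
section

/-!
The finite volume entropy comparison with marks.
-/

set_option autoImplicit false
open MeasureTheory Filter Topology Finset
open scoped Classical

namespace Pool.Agent.Lib.MP_640444_pr

namespace EntM

open Ent

variable {X : Type} [MeasurableSpace X] (P : Measure X) [IsProbabilityMeasure P]
  {p : X → Om} {F : X → Set V}

lemma fin_gen (hp : Measurable p) (hF : ∀ x, MeasurableSet {ω | x ∈ F ω})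
    (hT : ∀ᵐ ω ∂P, Til (p ω) ∧ Invar (p ω) (F ω) ∧ NoFin (p ω) (F ω))
    (hG : ∀ (Λ : Finset V) (y y' : Om), Swp Λ y y' → P (p ⁻¹' cyl Λ y) = P (p ⁻¹' cyl Λ y'))
    {r L : ℕ} (hr : r + 1 < L) {ι : Type} (Z : Finset ι) (S : ι → Finset V) (y y' : ι → Om)
    (hW : ∀ z ∈ Z, Win (r + 1) (S z) (y z) (y' z))
    (hd : ∀ z ∈ Z, ∀ z' ∈ Z, z ≠ z' → Disjoint (S z) (S z')) {D ε : ℝ} (hD : 0 ≤ D)
    (hb : P.real {ω | ¬ (Patchable (r + 1) L (p ω).1 (flp (F ω) (p ω)).1 ∧
      Patchable (r + 1) L (p ω).2 (flp (F ω) (p ω)).2)} ≤ ε) :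
    ∑ z ∈ Z, (D * (P.real {ω | flp (F ω) (p ω) ∈ cyl (S z) (y z)} -
      P.real {ω | flp (F ω) (p ω) ∈ cyl (S z) (y' z)}) - D ^ 2 / 2) ≤
      1 + 729 * ((box L).card - (box r).card) + D * Z.card * ε := by
  set U : X → (Finset V × Om) × Om := fun ω => code r L (F ω) (p ω) with hU
  set T1 := (box (r + 1) \ box r).powerset ×ˢ Pat (box L \ box (r + 1)) with hT1
  set T := T1 ×ˢ Pat (box (r + 1)) with hTT
  have hm := measurableSet_code hp hF r L
  have hae : ∀ᵐ ω ∂P, U ω ∈ T := by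
    filter_upwards [hT] with ω hω
    refine mem_product.2 ⟨mem_product.2 ⟨mem_powerset.2 (filter_subset _ _),
      res_mem_Pat fun v _ => ⟨(hω.1.1 v).1, (hω.1.2 v).1⟩⟩, res_mem_Pat fun v _ => ?_⟩
    simp only [flp]
    split_ifs
    · exact ⟨(hω.1.2 v).1, (hω.1.1 v).1⟩
    · exact ⟨(hω.1.1 v).1, (hω.1.2 v).1⟩
  set π : (Finset V × Om) × Om → ℝ := fun u => P.real (U ⁻¹' {u}) with hπ
  have hπ0 : ∀ u, 0 ≤ π u := fun u => measureReal_nonneg
  have h1 : ∑ u ∈ T, π u = 1 := by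
    simpa using (real_eq_sum P U T hm hae fun _ => True).symm
  have h2 : ∀ z ∈ Z, ∑ u ∈ T, π u * phi (S z) (y z) (y' z) u.2 =
      P.real {ω | flp (F ω) (p ω) ∈ cyl (S z) (y z)} -
        P.real {ω | flp (F ω) (p ω) ∈ cyl (S z) (y' z)} := fun z hz => by
    have e := fun w => real_eq_sum P U T hm hae fun u => u.2 ∈ cyl (S z) w
    simp only [hU, code, res_mem_iff (hW z hz).sub] at e
    rw [e, e, ← sum_sub_distrib]
    refine sum_congr rfl fun u _ => ?_
    simp only [phi, mul_sub, mul_ite, mul_one, mul_zero, hπ, hU, code]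
  set Gd : (Finset V × Om) × Om → Prop := fun u => u.2 ∈ (Cl L u.1.2).image (res (box (r + 1)))
    with hGd
  have h3 : ∑ u ∈ T, (if ¬ Gd u then π u else 0) ≤ ε := by
    rw [← real_eq_sum P U T hm hae fun u => ¬ Gd u]
    refine le_trans (ENNReal.toReal_mono (measure_ne_top _ _) (measure_mono_ae ?_)) hb
    filter_upwards [hT] with ω hω h h'
    exact h (good_of_patch hr hω.1 h'.1 h'.2)
  set R : Om → ℝ := fun x => ∑ z ∈ Z, (D * phi (S z) (y z) (y' z) x - D ^ 2 / 2) with hR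
  set a : ℝ := 729 * ((box L).card - (box r).card) with ha
  have hcard : (T1.card : ℝ) ≤ Real.exp a := by
    have e1 : (box (r + 1) \ box r).card + (box L \ box (r + 1)).card + (box r).card =
        (box L).card := by
      rw [← card_sdiff_add_card_eq_card (box_mono hr.le),
        ← card_sdiff_add_card_eq_card (box_mono r.le_succ)]
      ring
    have e2 : T1.card ≤ 729 ^ ((box (r + 1) \ box r).card + (box L \ box (r + 1)).card) := by
      rw [hT1, card_product, card_powerset, pow_add]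
      exact Nat.mul_le_mul (Nat.pow_le_pow_left (by norm_num) _) (card_Pat _)
    have e3 : a = ((box (r + 1) \ box r).card + (box L \ box (r + 1)).card : ℕ) * 729 := by
      rw [ha, ← e1]
      push_cast
      ring
    rw [e3, Real.exp_nat_mul]
    refine le_trans (b := 729 ^ _) (by exact_mod_cast e2) (pow_le_pow_left₀ (by norm_num) ?_ _)
    linarith [Real.add_one_le_exp 729]
  have h4 : ∑ u ∈ T, (if Gd u then π u * Real.exp (R u.2) else 0) ≤ Real.exp a := by
    rw [hTT, sum_product]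
    refine le_trans (sum_le_card_nsmul _ _ 1 fun w _ => ?_) (by simpa using hcard)
    rw [← sum_filter]
    rcases (Cl L w.2).eq_empty_or_nonempty with h0 | h0
    · simp [hGd, h0]
    have hc : (0 : ℝ) < (Cl L w.2).card := by exact_mod_cast h0.card_pos
    calc ∑ x ∈ Pat (box (r + 1)) with Gd (w, x), π (w, x) * Real.exp (R x)
        ≤ ∑ x ∈ (Cl L w.2).image (res (box (r + 1))), π (w, x) * Real.exp (R x) :=
          sum_le_sum_of_subset_of_nonneg (fun x hx => (mem_filter.1 hx).2) fun x _ _ =>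
            mul_nonneg (hπ0 _) (Real.exp_pos _).le
      _ ≤ ∑ x ∈ (Cl L w.2).image (res (box (r + 1))),
            1 / (Cl L w.2).card * Real.exp (R x) := by
          refine sum_le_sum fun x _ => mul_le_mul_of_nonneg_right ?_ (Real.exp_pos _).le
          rw [le_div_iff₀ hc]
          exact mass_le P hp hT hG hr (w, x)
      _ ≤ 1 / (Cl L w.2).card * (Cl L w.2).card := by
          rw [← mul_sum]
          exact mul_le_mul_of_nonneg_left (sum_Cl_le hr Z S y y' hW hd D w.2) (by positivity)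
      _ = 1 := one_div_mul_cancel hc.ne'
  have h5 : ∑ u ∈ T, π u * R u.2 =
      ∑ z ∈ Z, (D * (P.real {ω | flp (F ω) (p ω) ∈ cyl (S z) (y z)} -
        P.real {ω | flp (F ω) (p ω) ∈ cyl (S z) (y' z)}) - D ^ 2 / 2) := by
    simp only [hR, mul_sum]
    rw [sum_comm]
    refine sum_congr rfl fun z hz => ?_
    have : ∀ u, π u * (D * phi (S z) (y z) (y' z) u.2 - D ^ 2 / 2) =
        D * (π u * phi (S z) (y z) (y' z) u.2) - D ^ 2 / 2 * π u := fun u => by ring
    simp only [this]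
    rw [sum_sub_distrib, ← mul_sum, ← mul_sum, h2 z hz, h1, mul_one]
  have hRle : ∀ x, R x ≤ D * Z.card := fun x => by
    refine (sum_le_card_nsmul _ _ D fun z _ => ?_).trans_eq (by rw [nsmul_eq_mul, mul_comm])
    have := mul_le_mul_of_nonneg_left (abs_le.1 (abs_phi_le (S z) (y z) (y' z) x)).2 hD
    nlinarith [sq_nonneg D]
  have ha0 : 0 ≤ a := by
    have : ((box r).card : ℝ) ≤ (box L).card := by
      exact_mod_cast card_le_card (box_mono (by omega))
    rw [ha]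
    linarith
  have h6 : ∀ u, π u * R u.2 ≤ π u * a + (Real.exp (-a) * (if Gd u then π u * Real.exp (R u.2)
      else 0) + D * Z.card * (if ¬ Gd u then π u else 0)) := fun u => by
    by_cases hg : Gd u
    · simp only [hg, if_true, not_true, if_false, mul_zero, add_zero]
      have e1 := Real.add_one_le_exp (R u.2 - a)
      rw [sub_eq_neg_add, Real.exp_add] at e1
      nlinarith [hπ0 u]
    · simp only [hg, if_false, not_false_iff, if_true, mul_zero, zero_add]
      nlinarith [hπ0 u, hRle u.2, mul_nonneg (hπ0 u) ha0]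
  have h7 := sum_le_sum fun u (_ : u ∈ T) => h6 u
  rw [h5, sum_add_distrib, sum_add_distrib, ← sum_mul, ← mul_sum, ← mul_sum, h1] at h7
  have h8 := mul_le_mul_of_nonneg_left h4 (Real.exp_pos (-a)).le
  rw [← Real.exp_add, neg_add_cancel, Real.exp_zero] at h8
  have h9 := mul_le_mul_of_nonneg_left h3 (show 0 ≤ D * Z.card by positivity)
  linarith

lemma cond_real {E : Set X} (hE : MeasurableSet E) (h0 : P E ≠ 0) (A : Set X) :
    P.real E * (ProbabilityTheory.cond P E).real A = P.real (A ∩ E) := by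
  have : (P E).toReal ≠ 0 := ENNReal.toReal_ne_zero.2 ⟨h0, measure_ne_top _ _⟩
  simp only [measureReal_def]
  rw [ProbabilityTheory.cond_apply hE, ENNReal.toReal_mul, ENNReal.toReal_inv, Set.inter_comm,
    mul_inv_cancel_left₀ this]

lemma fin_cell (hp : Measurable p) (hF : ∀ x, MeasurableSet {ω | x ∈ F ω})
    (hT : ∀ᵐ ω ∂P, Til (p ω) ∧ Invar (p ω) (F ω) ∧ NoFin (p ω) (F ω)) {E : Set X}
    (hE : MeasurableSet E) (hG : ∀ (Λ : Finset V) (y y' : Om), Swp Λ y y' →
      P (p ⁻¹' cyl Λ y ∩ E) = P (p ⁻¹' cyl Λ y' ∩ E))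
    {r L : ℕ} (hr : r + 1 < L) {ι : Type} (Z : Finset ι) (S : ι → Finset V) (y y' : ι → Om)
    (hW : ∀ z ∈ Z, Win (r + 1) (S z) (y z) (y' z))
    (hd : ∀ z ∈ Z, ∀ z' ∈ Z, z ≠ z' → Disjoint (S z) (S z')) {D : ℝ} (hD : 0 ≤ D) :
    ∑ z ∈ Z, (D * (P.real ({ω | flp (F ω) (p ω) ∈ cyl (S z) (y z)} ∩ E) -
      P.real ({ω | flp (F ω) (p ω) ∈ cyl (S z) (y' z)} ∩ E)) - D ^ 2 / 2 * P.real E) ≤
      (1 + 729 * ((box L).card - (box r).card)) * P.real E + D * Z.card *
        P.real ({ω | ¬ (Patchable (r + 1) L (p ω).1 (flp (F ω) (p ω)).1 ∧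
          Patchable (r + 1) L (p ω).2 (flp (F ω) (p ω)).2)} ∩ E) := by
  by_cases h0 : P E = 0
  · have z : ∀ A : Set X, P.real (A ∩ E) = 0 := fun A => by
      rw [measureReal_def, measure_mono_null Set.inter_subset_right h0, ENNReal.toReal_zero]
    have z' : P.real E = 0 := by rw [measureReal_def, h0, ENNReal.toReal_zero]
    simp only [z, z', sub_self, mul_zero, sum_const_zero, add_zero, le_refl]
  have := ProbabilityTheory.cond_isProbabilityMeasure (μ := P) h0
  have key := fin_gen (ProbabilityTheory.cond P E) hp hF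
    (ProbabilityTheory.cond_absolutelyContinuous.ae_le hT) (fun Λ a b h => by
      rw [ProbabilityTheory.cond_apply hE, ProbabilityTheory.cond_apply hE, Set.inter_comm,
        hG Λ a b h, Set.inter_comm]) hr Z S y y' hW hd hD le_rfl
  have k2 := mul_le_mul_of_nonneg_left key (measureReal_nonneg (μ := P) (s := E))
  rw [mul_sum] at k2
  simp only [← cond_real P hE h0]
  refine le_trans (le_of_eq (sum_congr rfl fun z _ => by ring)) (k2.trans_eq (by ring))

lemma fin_vol (hp : Measurable p) (hF : ∀ x, MeasurableSet {ω | x ∈ F ω}) {B : V → Set X}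
    (hB : ∀ v, MeasurableSet (B v))
    (hT : ∀ᵐ ω ∂P, Til (p ω) ∧ Invar (p ω) (F ω) ∧ NoFin (p ω) (F ω))
    (hG : ∀ (Z Z' Λ : Finset V) (y y' : Om), Swp Λ y y' →
      P (p ⁻¹' cyl Λ y ∩ {ω | ∀ z ∈ Z, ω ∈ B z ↔ z ∈ Z'}) =
        P (p ⁻¹' cyl Λ y' ∩ {ω | ∀ z ∈ Z, ω ∈ B z ↔ z ∈ Z'}))
    {r L : ℕ} (hr : r + 1 < L) (Z : Finset V) (S : V → Finset V) (y y' : V → Om)
    (hW : ∀ z ∈ Z, Win (r + 1) (S z) (y z) (y' z))
    (hd : ∀ z ∈ Z, ∀ z' ∈ Z, z ≠ z' → Disjoint (S z) (S z')) {D ε : ℝ} (hD : 0 ≤ D)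
    (hq : ∀ z ∈ Z, P.real ({ω | flp (F ω) (p ω) ∈ cyl (S z) (y z)} ∩ B z) -
      P.real ({ω | flp (F ω) (p ω) ∈ cyl (S z) (y' z)} ∩ B z) = D)
    (hb : P.real {ω | ¬ (Patchable (r + 1) L (p ω).1 (flp (F ω) (p ω)).1 ∧
      Patchable (r + 1) L (p ω).2 (flp (F ω) (p ω)).2)} ≤ ε) :
    Z.card * D ^ 2 / 2 ≤ 1 + 729 * ((box L).card - (box r).card) + D * Z.card * ε := by
  set U : X → Finset V := fun ω => Z.filter fun z => ω ∈ B z with hU
  have hmE : ∀ Z' : Finset V, MeasurableSet {ω | ∀ z ∈ Z, ω ∈ B z ↔ z ∈ Z'} := fun Z' => by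
    have : {ω | ∀ z ∈ Z, ω ∈ B z ↔ z ∈ Z'} = ⋂ z ∈ Z, {ω | ω ∈ B z ↔ z ∈ Z'} := by
      ext ω
      simp only [Set.mem_ofPred_eq, Set.mem_iInter]
    rw [this]
    exact MeasurableSet.biInter Z.countable_toSet fun z _ => measurableSet_setOfPred.2
      ((measurableSet_setOfPred.1 (hB z)).iff measurable_const)
  have hE : ∀ Z' ∈ Z.powerset, U ⁻¹' {Z'} = {ω | ∀ z ∈ Z, ω ∈ B z ↔ z ∈ Z'} := fun Z' h => by
    ext ω
    simp only [hU, Set.mem_preimage, Set.mem_singleton_iff, Set.mem_ofPred_eq, Finset.ext_iff,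
      mem_filter]
    exact ⟨fun e z hz => by rw [← e z, and_iff_right hz], fun e z =>
      ⟨fun a => (e z a.1).1 a.2, fun a => ⟨mem_powerset.1 h a, (e z (mem_powerset.1 h a)).2 a⟩⟩⟩
  have hm : ∀ u, MeasurableSet (U ⁻¹' {u}) := fun u => by
    by_cases h : u ∈ Z.powerset
    · rw [hE u h]
      exact hmE u
    · have : U ⁻¹' {u} = ∅ := Set.eq_empty_of_forall_notMem fun ω e =>
        h (e ▸ mem_powerset.2 (filter_subset _ _))
      rw [this]
      exact MeasurableSet.empty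
  have hs : ∀ (A : Set X) (Q : Finset V → Prop) [DecidablePred Q], MeasurableSet {ω | Q (U ω)} →
      P.real (A ∩ {ω | Q (U ω)}) = ∑ u ∈ Z.powerset, if Q u then P.real (A ∩ U ⁻¹' {u}) else 0 :=
    fun A Q _ hQ => by
      have := real_eq_sum (P.restrict A) U Z.powerset hm
        (Eventually.of_forall fun ω => mem_powerset.2 (filter_subset _ _)) Q
      rw [measureReal_restrict_apply hQ, Set.inter_comm] at this
      rw [this]
      exact sum_congr rfl fun u _ => by rw [measureReal_restrict_apply (hm u), Set.inter_comm]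
  have hs1 : ∀ A : Set X, P.real A = ∑ u ∈ Z.powerset, P.real (A ∩ U ⁻¹' {u}) := fun A => by
    simpa using hs A (fun _ => True) (by simp)
  have hs2 : ∀ (A : Set X), ∀ z ∈ Z, P.real (A ∩ B z) =
      ∑ u ∈ Z.powerset, if z ∈ u then P.real (A ∩ U ⁻¹' {u}) else 0 := fun A z hz => by
    have e : {ω | z ∈ U ω} = B z := by
      ext ω
      simp only [hU, Set.mem_ofPred_eq, mem_filter, hz, true_and]
    rw [← hs A (fun u => z ∈ u) (by rw [e]; exact hB z), e]
  set a : ℝ := 1 + 729 * ((box L).card - (box r).card) with ha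
  set Bad := {ω | ¬ (Patchable (r + 1) L (p ω).1 (flp (F ω) (p ω)).1 ∧
      Patchable (r + 1) L (p ω).2 (flp (F ω) (p ω)).2)} with hBad
  have key : ∀ u ∈ Z.powerset, ∑ z ∈ Z,
      (D * ((if z ∈ u then P.real ({ω | flp (F ω) (p ω) ∈ cyl (S z) (y z)} ∩ U ⁻¹' {u}) else 0) -
        if z ∈ u then P.real ({ω | flp (F ω) (p ω) ∈ cyl (S z) (y' z)} ∩ U ⁻¹' {u}) else 0) -
          D ^ 2 / 2 * P.real (U ⁻¹' {u})) ≤
      a * P.real (U ⁻¹' {u}) + D * Z.card * P.real (Bad ∩ U ⁻¹' {u}) := fun u hu => by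
    have hu' := mem_powerset.1 hu
    have k := fin_cell P hp hF hT (hm u) (fun Λ b b' h => by rw [hE u hu]; exact hG Z u Λ b b' h)
      hr u S y y' (fun z hz => hW z (hu' hz)) (fun z hz z' hz' => hd z (hu' hz) z' (hu' hz')) hD
    have c : D * u.card * P.real (Bad ∩ U ⁻¹' {u}) ≤ D * Z.card * P.real (Bad ∩ U ⁻¹' {u}) :=
      mul_le_mul_of_nonneg_right (mul_le_mul_of_nonneg_left
        (by exact_mod_cast card_le_card hu') hD) measureReal_nonneg
    refine le_trans ?_ (k.trans (by linarith))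
    rw [← sum_sdiff hu']
    refine add_le_of_nonpos_of_le (sum_nonpos fun z hz => ?_)
      (le_of_eq (sum_congr rfl fun z hz => by rw [if_pos hz, if_pos hz]))
    rw [if_neg (mem_sdiff.1 hz).2, if_neg (mem_sdiff.1 hz).2]
    have : 0 ≤ D ^ 2 / 2 * P.real (U ⁻¹' {u}) := mul_nonneg (by positivity) measureReal_nonneg
    linarith
  have h1 : ∑ u ∈ Z.powerset, P.real (U ⁻¹' {u}) = 1 := by
    have := hs1 Set.univ
    simp only [Set.univ_inter, probReal_univ] at this
    exact this.symm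
  have h7 := sum_le_sum key
  rw [sum_comm, sum_add_distrib, ← mul_sum, ← mul_sum, h1, ← hs1,
    sum_congr rfl (g := fun _ => D ^ 2 / 2) fun z hz => by
      rw [sum_sub_distrib, ← mul_sum, ← mul_sum, sum_sub_distrib, ← hs2 _ z hz, ← hs2 _ z hz,
        hq z hz, h1]
      ring, sum_const, nsmul_eq_mul] at h7
  have h9 := mul_le_mul_of_nonneg_left hb (mul_nonneg hD (Nat.cast_nonneg Z.card))
  linarith

lemma not_lt_swap (hp : Measurable p) (hF : ∀ x, MeasurableSet {ω | x ∈ F ω}) {B : V → Set X}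
    (hB : ∀ v, MeasurableSet (B v))
    (hT : ∀ᵐ ω ∂P, Til (p ω) ∧ Invar (p ω) (F ω) ∧ NoFin (p ω) (F ω))
    (hG : ∀ (Z Z' Λ : Finset V) (y y' : Om), Swp Λ y y' →
      P (p ⁻¹' cyl Λ y ∩ {ω | ∀ z ∈ Z, ω ∈ B z ↔ z ∈ Z'}) =
        P (p ⁻¹' cyl Λ y' ∩ {ω | ∀ z ∈ Z, ω ∈ B z ↔ z ∈ Z'}))
    (hI : ∀ v, Ev v → ∀ (S : Finset V) (y : Om),
      P ({ω | flp (F ω) (p ω) ∈ cyl S y} ∩ B 0) =
        P ({ω | flp (F ω) (p ω) ∈ cyl (S.image (· + v)) (shift2 v y)} ∩ B v))
    (hP : ∀ ε : ℝ, 0 < ε → ∀ L0 : ℕ, ∃ r L : ℕ, L0 ≤ L ∧ r < L ∧ (L : ℝ) - r ≤ ε * L ∧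
      P {ω | ¬ (Patchable r L (p ω).1 (flp (F ω) (p ω)).1 ∧
        Patchable r L (p ω).2 (flp (F ω) (p ω)).2)} ≤ ENNReal.ofReal ε)
    (Λ S : Finset V) (hΛ : Λ ⊆ S) (y y' : Om) (hy : Swp Λ y y')
    (hS : ∀ x ∈ S, x ∉ Λ → y.1 x = y'.1 x ∧ y.2 x = y'.2 x) :
    P.real ({ω | flp (F ω) (p ω) ∈ cyl S y} ∩ B 0) ≤
      P.real ({ω | flp (F ω) (p ω) ∈ cyl S y'} ∩ B 0) := by
  by_contra hlt
  rw [not_le, ← sub_pos] at hlt
  set D := P.real ({ω | flp (F ω) (p ω) ∈ cyl S y} ∩ B 0) -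
    P.real ({ω | flp (F ω) (p ω) ∈ cyl S y'} ∩ B 0) with hD
  have hD1 : D ≤ 1 := by
    have := measureReal_le_one (μ := P) (s := {ω | flp (F ω) (p ω) ∈ cyl S y} ∩ B 0)
    have := measureReal_nonneg (μ := P) (s := {ω | flp (F ω) (p ω) ∈ cyl S y'} ∩ B 0)
    linarith
  have hne : y ∉ cyl S y' := fun h => by
    have : cyl S y = cyl S y' := by
      ext x
      rw [← res_eq_iff, ← res_eq_iff, res_eq_iff.2 h]
    simp [hD, this] at hlt
  obtain ⟨w, hw⟩ := Ent.exists_box S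
  obtain ⟨k, hk⟩ : ∃ k : ℕ, k = 2 * (w + 1) := ⟨_, rfl⟩
  have hk0 : 0 < k := by omega
  have hk1 : (1 : ℝ) ≤ k := by exact_mod_cast hk0
  have hk3 : (1 : ℝ) ≤ k ^ 3 := one_le_pow₀ hk1
  set ε : ℝ := D ^ 2 / (10 ^ 7 * k ^ 3) with hε
  have hε0 : 0 < ε := by positivity
  have hεk : ε * (10 ^ 7 * k ^ 3) = D ^ 2 := div_mul_cancel₀ _ (by positivity)
  have hε1 : 4 * ε ≤ D ^ 2 := by nlinarith
  have hD2 : D ^ 2 ≤ 1 := by nlinarith
  obtain ⟨N, hN⟩ := exists_nat_gt (100 * k ^ 3 / D ^ 2)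
  obtain ⟨r, L, hL0, hr, hrL, hb⟩ := hP ε hε0 (N + 4 * w + 4)
  have hLr : 3 * L ≤ 4 * r := by
    have : (3 * L : ℝ) ≤ 4 * r := by
      have : (0 : ℝ) ≤ L := by positivity
      nlinarith
    exact_mod_cast this
  obtain ⟨r, rfl⟩ : ∃ r', r = r' + 1 := ⟨r - 1, by omega⟩
  obtain ⟨m, hm⟩ : ∃ m, m = (r + 1 - w) / k := ⟨_, rfl⟩
  have hm1 : k * m + w ≤ r + 1 := by
    have := Nat.mul_div_le (r + 1 - w) k
    rw [← hm] at this
    omega
  have hm2 : L ≤ 2 * (k * (2 * m + 1)) := by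
    have := Nat.lt_mul_div_succ (r + 1 - w) hk0
    rw [← hm] at this
    have h2 : k * (m + 1) ≤ k * (2 * m + 1) := Nat.mul_le_mul_left _ (by omega)
    omega
  have hev : ∀ z : V, Ev ((k : ℤ) • z) := fun z => by
    unfold Ev
    simp only [Pi.smul_apply, smul_eq_mul, ← mul_sum, hk]
    push_cast
    exact ((even_two_mul _).mul_right _)
  have hkp : (0 : ℤ) < k := by exact_mod_cast hk0
  have key := fin_vol P hp hF hB hT hG hr ((box m).image fun z => (k : ℤ) • z)
    (fun c => S.image (· + c)) (fun c => shift2 c y) (fun c => shift2 c y')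
    (fun c hc => win_shift hΛ hy hS hne _ fun v hv => by
      obtain ⟨z, hz, rfl⟩ := mem_image.1 hc
      rw [mem_image_add] at hv
      rw [mem_box] at hz ⊢
      intro i
      have h1 := abs_le.1 (mem_box.1 (hw hv) i)
      have h2 : |(k : ℤ) * z i| ≤ k * m := by
        rw [abs_mul, Nat.abs_cast]
        exact mul_le_mul_of_nonneg_left (hz i) (by positivity)
      have h3 : (k : ℤ) * m + w ≤ (r + 1 : ℕ) := by exact_mod_cast hm1
      simp only [Pi.sub_apply, Pi.smul_apply, smul_eq_mul] at h1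
      rw [abs_le] at h2 ⊢
      constructor <;> linarith [h1.1, h1.2, h2.1, h2.2])
    (fun c hc c' hc' hzz => disjoint_left.2 fun v h1 h2 => hzz (by
      obtain ⟨z, -, rfl⟩ := mem_image.1 hc
      obtain ⟨z', -, rfl⟩ := mem_image.1 hc'
      refine congrArg _ (funext fun i => ?_)
      rw [mem_image_add] at h1 h2
      have a1 := abs_le.1 (mem_box.1 (hw h1) i)
      have a2 := abs_le.1 (mem_box.1 (hw h2) i)
      simp only [Pi.sub_apply, Pi.smul_apply, smul_eq_mul] at a1 a2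
      have hkz : (k : ℤ) = 2 * (w + 1) := by exact_mod_cast hk
      by_contra hc
      rcases lt_or_gt_of_ne hc with h | h
      · have := mul_le_mul_of_nonneg_left (Int.add_one_le_of_lt h) hkp.le
        linarith [a1.1, a1.2, a2.1, a2.2]
      · have := mul_le_mul_of_nonneg_left (Int.add_one_le_of_lt h) hkp.le
        linarith [a1.1, a1.2, a2.1, a2.2]))
    hlt.le (ε := ε) (fun c hc => by
      obtain ⟨z, -, rfl⟩ := mem_image.1 hc
      simp only [measureReal_def] at hD ⊢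
      rw [← hI _ (hev z), ← hI _ (hev z), hD])
    (ENNReal.toReal_le_of_le_ofReal hε0.le hb)
  rw [card_image_of_injective _ (smul_right_injective V hkp.ne')] at key
  simp only [card_box] at key
  push_cast at key hrL
  set M : ℝ := (2 * m + 1) ^ 3 with hM
  have hM0 : 0 ≤ M := by positivity
  have hL1 : (r : ℝ) + 2 ≤ L := by exact_mod_cast hr
  have hr0 : (0 : ℝ) ≤ r := by positivity
  have hML : (L : ℝ) ^ 3 ≤ 8 * k ^ 3 * M := by
    have : (L : ℝ) ≤ 2 * (k * (2 * m + 1)) := by exact_mod_cast hm2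
    refine (pow_le_pow_left₀ (by positivity) this 3).trans_eq ?_
    rw [hM]
    ring
  have hsh : (2 * (L : ℝ) + 1) ^ 3 - (2 * r + 1) ^ 3 ≤ 108 * (ε * L ^ 3) := by
    have e1 : (2 * (L : ℝ) + 1) ^ 3 - (2 * r + 1) ^ 3 = 2 * (L - r) *
        ((2 * L + 1) ^ 2 + (2 * L + 1) * (2 * r + 1) + (2 * r + 1) ^ 2) := by ring
    have e2 : (2 * (L : ℝ) + 1) ^ 2 + (2 * L + 1) * (2 * r + 1) + (2 * r + 1) ^ 2 ≤ 27 * L ^ 2 := by
      nlinarith
    have e3 : 2 * ((L : ℝ) - r) ≤ 4 * (ε * L) := by linarith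
    rw [e1]
    refine (mul_le_mul e3 e2 (by positivity) (by positivity)).trans_eq (by ring)
  have h1 : D * M * ε ≤ M * D ^ 2 / 4 := by
    have := mul_le_mul hD1 (show ε ≤ D ^ 2 / 4 by linarith) hε0.le zero_le_one
    nlinarith
  have h2 : M * D ^ 2 / 4 ≤ 1 + 78732 * (ε * L ^ 3) := by linarith
  have h3 : (L : ℝ) ^ 3 * D ^ 2 ≤ 32 * k ^ 3 + 32 * 78732 * (ε * k ^ 3) * L ^ 3 := by
    have a1 := mul_le_mul_of_nonneg_right hML (sq_nonneg D)
    have a2 := mul_le_mul_of_nonneg_left h2 (show (0 : ℝ) ≤ 32 * k ^ 3 by positivity)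
    nlinarith
  have h4 : ε * k ^ 3 = D ^ 2 / 10 ^ 7 := by linarith
  rw [h4] at h3
  have h5 : (N : ℝ) ≤ L ^ 3 := by
    have a1 : (N : ℝ) ≤ L := by exact_mod_cast (by omega : N ≤ L)
    exact a1.trans (le_self_pow₀ (by linarith) (by norm_num))
  rw [div_lt_iff₀ (by positivity)] at hN
  have h6 := mul_le_mul_of_nonneg_right h5 (sq_nonneg D)
  have h7 : 0 ≤ (L : ℝ) ^ 3 * D ^ 2 := by positivity
  nlinarith

end EntM

theorem entM : EntMStmt := by
  intro X _ P _ p F B hp hF hB hT hG hI hP Λ S hΛ y y' hy hS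
  have h1 := EntM.not_lt_swap P hp hF hB hT hG hI hP Λ S hΛ y y' hy hS
  have h2 := EntM.not_lt_swap P hp hF hB hT hG hI hP Λ S hΛ y' y (Ent.swp_symm hy)
    fun x h h' => ⟨(hS x h h').1.symm, (hS x h h').2.symm⟩
  exact (ENNReal.toReal_eq_toReal_iff' (measure_ne_top _ _) (measure_ne_top _ _)).1
    (le_antisymm h1 h2)

end Pool.Agent.Lib.MP_640444_pr
end

-- part Pool.Agent.Lib.MP_640444_pr.Dlr
section

/-!
The DLR equations: averaging over the finite classes of tilings that agree outside a finite set.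
-/

set_option autoImplicit false
open MeasureTheory Filter Finset
open scoped Classical Topology ENNReal

namespace Pool.Agent.Lib.MP_640444_pr

namespace Dlr

section abstract

lemma av_congr {α : Type} {T : Finset α} {f g : α → ℝ≥0∞} (h : ∀ a ∈ T, f a = g a) :
    av T f = av T g := by
  unfold av
  rw [sum_congr rfl h]

lemma av_empty {α : Type} (f : α → ℝ≥0∞) : av (∅ : Finset α) f = 0 := by
  simp [av]

lemma av_const {α : Type} {T : Finset α} (h : T.Nonempty) (k : ℝ≥0∞) :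
    av T (fun _ => k) = k := by
  have h0 : (T.card : ℝ≥0∞) ≠ 0 := by exact_mod_cast h.card_pos.ne'
  unfold av
  rw [sum_const, nsmul_eq_mul, mul_comm, mul_div_assoc,
    ENNReal.div_self h0 (ENNReal.natCast_ne_top _), mul_one]

lemma av_const_le {α : Type} (T : Finset α) (k : ℝ≥0∞) : av T (fun _ => k) ≤ k := by
  rcases T.eq_empty_or_nonempty with rfl | h
  · rw [av_empty]; exact zero_le
  · exact (av_const h k).le

lemma av_zero {α : Type} (T : Finset α) : av T (fun _ => 0) = 0 := by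
  simp [av]

lemma av_single {α : Type} (a : α) (f : α → ℝ≥0∞) : av {a} f = f a := by
  simp [av]

lemma av_prod {α β : Type} (T : Finset α) (T' : Finset β) (h : α × β → ℝ≥0∞) :
    av (T ×ˢ T') h = av T fun a => av T' fun b => h (a, b) := by
  unfold av
  rw [sum_product, card_product, Nat.cast_mul]
  simp only [ENNReal.div_eq_inv_mul]
  rw [← mul_sum, ENNReal.mul_inv (Or.inr (ENNReal.natCast_ne_top _))
    (Or.inl (ENNReal.natCast_ne_top _)), mul_assoc]

lemma av_ind {α : Type} (T : Finset α) (D : Set α) :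
    av T (D.indicator 1) = (#{a ∈ T | a ∈ D} : ℝ≥0∞) / T.card := by
  unfold av
  congr 1
  rw [card_filter]
  push_cast
  refine sum_congr rfl fun a _ => ?_
  by_cases h : a ∈ D <;> simp [h]

lemma ofReal_avg {α : Type} (T : Finset α) {g : α → ℝ} (hg : ∀ a, 0 ≤ g a) :
    ENNReal.ofReal ((∑ a ∈ T, g a) / T.card) = av T fun a => ENNReal.ofReal (g a) := by
  rcases T.eq_empty_or_nonempty with rfl | h
  · simp [av]
  · have h0 : (0 : ℝ) < T.card := by exact_mod_cast h.card_pos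
    unfold av
    rw [ENNReal.ofReal_div_of_pos h0, ENNReal.ofReal_sum_of_nonneg fun a _ => hg a,
      ENNReal.ofReal_natCast]

/-- averages over the classes are measurable -/
def Mav {X : Type} [MeasurableSpace X] (c : X → Finset X) : Prop :=
  ∀ (Y : Type) [MeasurableSpace Y] (t : Y → X) (f : Y × X → ℝ≥0∞),
    Measurable t → Measurable f → Measurable fun y => av (c (t y)) fun σ => f (y, σ)

/-- invariance under averaging over the classes -/
def Gib {X : Type} [MeasurableSpace X] (c : X → Finset X) (Q : Measure X) : Prop :=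
  ∀ f : X → ℝ≥0∞, Measurable f → ∫⁻ x, av (c x) f ∂Q = ∫⁻ x, f x ∂Q

variable {X X' : Type} [MeasurableSpace X] [MeasurableSpace X']

lemma Mav.prod {c : X → Finset X} {c' : X' → Finset X'} (h : Mav c) (h' : Mav c') :
    Mav fun p : X × X' => c p.1 ×ˢ c' p.2 := by
  intro Y _ t f ht hf
  simp only [av_prod]
  refine h Y (fun y => (t y).1) (fun q => av (c' (t q.1).2) fun b => f (q.1, (q.2, b)))
    (measurable_fst.comp ht) ?_
  exact h' (Y × X) (fun q => (t q.1).2) (fun r => f (r.1.1, (r.1.2, r.2)))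
    (measurable_snd.comp (ht.comp measurable_fst)) (hf.comp (by fun_prop))

lemma Mav.self {c : X → Finset X} (h : Mav c) {f : X → ℝ≥0∞} (hf : Measurable f) :
    Measurable fun x => av (c x) f :=
  h X id (fun q => f q.2) measurable_id (hf.comp measurable_snd)

lemma mav_single : Mav fun x : X => ({x} : Finset X) := by
  intro Y _ t f ht hf
  simp only [av_single]
  exact hf.comp (measurable_id.prodMk ht)

lemma gib_single (Q : Measure X) : Gib (fun x : X => ({x} : Finset X)) Q := by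
  intro f _
  simp only [av_single]

lemma Gib.prod {c : X → Finset X} {c' : X' → Finset X'} (h : Mav c) (h' : Mav c')
    {Q : Measure X} {Q' : Measure X'} [SFinite Q] [SFinite Q'] (g : Gib c Q) (g' : Gib c' Q') :
    Gib (fun p : X × X' => c p.1 ×ˢ c' p.2) (Q.prod Q') := by
  intro f hf
  have hG : Measurable fun p : X × X' => av (c' p.2) fun b => f (p.1, b) :=
    h' (X × X') Prod.snd (fun r => f (r.1.1, r.2)) measurable_snd (hf.comp (by fun_prop))
  rw [lintegral_prod_symm _ ((h.prod h').self hf).aemeasurable, lintegral_prod _ hf.aemeasurable]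
  have e1 : ∀ x' : X', ∫⁻ x, av (c x ×ˢ c' x') f ∂Q = ∫⁻ x, av (c' x') (fun b => f (x, b)) ∂Q := by
    intro x'
    simp only [av_prod]
    exact g (fun a => av (c' x') fun b => f (a, b)) (hG.comp (measurable_id.prodMk measurable_const))
  simp only [e1]
  rw [← lintegral_lintegral_swap (f := fun x x' => av (c' x') fun b => f (x, b)) hG.aemeasurable]
  refine lintegral_congr fun x => ?_
  exact g' (fun b => f (x, b)) (hf.comp (measurable_const.prodMk measurable_id))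

end abstract

/-- `y` on `Λ`, `τ` elsewhere -/
noncomputable def ov (Λ : Finset V) (y τ : Cfg) : Cfg := fun x => if x ∈ Λ then y x else τ x

lemma measurable_ov (Λ : Finset V) (y : Cfg) : Measurable (ov Λ y) := by
  refine measurable_pi_lambda _ fun x => ?_
  by_cases hx : x ∈ Λ
  · simp [ov, hx]
  · simpa [ov, hx] using measurable_pi_apply x

lemma ov_out {Λ : Finset V} (y τ : Cfg) {x : V} (hx : x ∉ Λ) : ov Λ y τ x = τ x := by
  simp [ov, hx]

lemma ov_in {Λ : Finset V} (y τ : Cfg) {x : V} (hx : x ∈ Λ) : ov Λ y τ x = y x := by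
  simp [ov, hx]

lemma ov_congr {Λ : Finset V} (y : Cfg) {τ τ' : Cfg} (h : ∀ x, x ∉ Λ → τ x = τ' x) :
    ov Λ y τ = ov Λ y τ' := by
  funext x
  by_cases hx : x ∈ Λ
  · rw [ov_in _ _ hx, ov_in _ _ hx]
  · rw [ov_out _ _ hx, ov_out _ _ hx, h x hx]

lemma ov_ov (Λ : Finset V) (y y' τ : Cfg) : ov Λ y (ov Λ y' τ) = ov Λ y τ :=
  ov_congr y fun _ hx => ov_out _ _ hx

lemma ov_self {Λ : Finset V} {y τ : Cfg} (h : τ ∈ cylG Λ y) : ov Λ y τ = τ := by
  funext x
  by_cases hx : x ∈ Λ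
  · rw [ov_in _ _ hx, h x hx]
  · rw [ov_out _ _ hx]

lemma cls_ov (Λ : Finset V) (y τ : Cfg) : cls Λ (ov Λ y τ) = cls Λ τ :=
  cls_congr fun _ hx => ov_out _ _ hx

lemma sum_cls {M : Type} [AddCommMonoid M] (Λ : Finset V) (τ : Cfg) (g : Cfg → M) :
    ∑ σ ∈ cls Λ τ, g σ =
      ∑ y ∈ Ent.Pat1 Λ, if IsTiling (ov Λ y τ) then g (ov Λ y τ) else 0 := by
  rw [cls, sum_filter, sum_image]
  · rfl
  · intro y hy y' hy' e
    funext x
    by_cases hx : x ∈ Λ
    · simpa [hx] using congrFun e x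
    · rw [(Ent.mem_Pat1.1 hy).2 x hx, (Ent.mem_Pat1.1 hy').2 x hx]

lemma meas_sum {M : Type} [AddCommMonoid M] [MeasurableSpace M] [MeasurableAdd₂ M]
    {Y : Type} [MeasurableSpace Y] (Λ : Finset V) {t : Y → Cfg} {f : Y × Cfg → M}
    (ht : Measurable t) (hf : Measurable f) :
    Measurable fun y => ∑ σ ∈ cls Λ (t y), f (y, σ) := by
  simp only [sum_cls]
  refine Finset.measurable_sum _ fun z _ => Measurable.ite ?_ ?_ measurable_const
  · exact ((measurable_ov Λ z).comp ht) mset_isTiling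
  · exact hf.comp (measurable_id.prodMk ((measurable_ov Λ z).comp ht))

lemma meas_card {Y : Type} [MeasurableSpace Y] (Λ : Finset V) {t : Y → Cfg} (ht : Measurable t) :
    Measurable fun y => (cls Λ (t y)).card := by
  simp only [card_eq_sum_ones]
  exact meas_sum Λ (f := fun _ => (1 : ℕ)) ht measurable_const

lemma mav (Λ : Finset V) : Mav (cls Λ) := by
  intro Y _ t f ht hf
  exact (meas_sum Λ ht hf).div
    ((measurable_of_countable fun n : ℕ => (n : ℝ≥0∞)).comp (meas_card Λ ht))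

lemma mgam {Y : Type} [MeasurableSpace Y] (Λ : Finset V) {t : Y → Cfg} {f : Y × Cfg → ℝ}
    (ht : Measurable t) (hf : Measurable f) :
    Measurable fun y => gam Λ (fun σ => f (y, σ)) (t y) :=
  (meas_sum Λ ht hf).div ((measurable_of_countable fun n : ℕ => (n : ℝ)).comp (meas_card Λ ht))

lemma mav2 (Λ : Finset V) : Mav (cl2 Λ) := (mav Λ).prod (mav Λ)

lemma gam_abs_le {Λ : Finset V} {f : Cfg → ℝ} {C : ℝ} (hC : 0 ≤ C) (h : ∀ σ, |f σ| ≤ C) (τ : Cfg) :
    |gam Λ f τ| ≤ C := by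
  unfold gam
  rw [abs_div, Nat.abs_cast]
  refine div_le_of_le_mul₀ (Nat.cast_nonneg _) hC ?_
  refine (abs_sum_le_sum_abs _ _).trans ((sum_le_card_nsmul _ _ C fun σ _ => h σ).trans ?_)
  rw [nsmul_eq_mul, mul_comm]

/-- from the `lintegral` identity to the identity for bounded real functions -/
lemma real_of {Z : Type} [MeasurableSpace Z] (Λ : Finset V) (κ : Measure Cfg) [IsFiniteMeasure κ]
    (ν : Measure Z) (φ : Cfg × Cfg → Z) (hφ : Measurable φ)
    (h : ∀ F : Z → ℝ≥0∞, Measurable F →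
      ∫⁻ z, F z ∂ν = ∫⁻ τ, av (cls Λ τ) (fun σ => F (φ (τ, σ))) ∂κ)
    (f : Z → ℝ) (C : ℝ) (hf : Measurable f) (hC : ∀ z, |f z| ≤ C) :
    ∫ z, f z ∂ν = ∫ τ, gam Λ (fun σ => f (φ (τ, σ))) τ ∂κ := by
  have hC0 : 0 ≤ C := (abs_nonneg _).trans (hC (φ (id, id)))
  have : IsFiniteMeasure ν := by
    refine ⟨?_⟩
    rw [← lintegral_one, h _ measurable_const]
    refine lt_of_le_of_lt (lintegral_mono fun τ => av_const_le _ _) ?_
    rw [lintegral_one]
    exact measure_lt_top _ _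
  have key : ∀ g : Z → ℝ, Measurable g → (∀ z, 0 ≤ g z) → (∀ z, |g z| ≤ C) →
      Integrable g ν ∧ Integrable (fun τ => gam Λ (fun σ => g (φ (τ, σ))) τ) κ ∧
      ∫ z, g z ∂ν = ∫ τ, gam Λ (fun σ => g (φ (τ, σ))) τ ∂κ := by
    intro g hg h0 hb
    have hm : Measurable fun τ => gam Λ (fun σ => g (φ (τ, σ))) τ :=
      mgam Λ (t := id) (f := fun q => g (φ q)) measurable_id (hg.comp hφ)
    refine ⟨Integrable.of_bound hg.aestronglyMeasurable C (ae_of_all _ hb),
      Integrable.of_bound hm.aestronglyMeasurable C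
        (ae_of_all _ fun τ => gam_abs_le hC0 (fun σ => hb _) τ), ?_⟩
    rw [integral_eq_lintegral_of_nonneg_ae (ae_of_all _ h0) hg.aestronglyMeasurable,
      integral_eq_lintegral_of_nonneg_ae (f := fun τ => gam Λ (fun σ => g (φ (τ, σ))) τ)
        (ae_of_all _ fun τ => div_nonneg (sum_nonneg fun σ _ => h0 _) (Nat.cast_nonneg _))
        hm.aestronglyMeasurable,
      h _ hg.ennreal_ofReal]
    congr 1
    refine lintegral_congr fun τ => ?_
    exact (ofReal_avg _ fun σ => h0 _).symm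
  obtain ⟨a1, a2, a3⟩ := key (fun z => max (f z) 0) (hf.max measurable_const)
    (fun z => le_max_right _ _) fun z => by
      rw [abs_of_nonneg (le_max_right _ _)]
      exact max_le ((le_abs_self _).trans (hC z)) hC0
  obtain ⟨b1, b2, b3⟩ := key (fun z => max (-f z) 0) (hf.neg.max measurable_const)
    (fun z => le_max_right _ _) fun z => by
      rw [abs_of_nonneg (le_max_right _ _)]
      exact max_le ((neg_le_abs _).trans (hC z)) hC0
  have e1 : ∀ z, f z = max (f z) 0 - max (-f z) 0 := fun z =>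
    (max_zero_sub_max_neg_zero_eq_self _).symm
  have e2 : ∀ τ, gam Λ (fun σ => f (φ (τ, σ))) τ = gam Λ (fun σ => max (f (φ (τ, σ))) 0) τ -
      gam Λ (fun σ => max (-f (φ (τ, σ))) 0) τ := by
    intro τ
    unfold gam
    rw [← sub_div, ← sum_sub_distrib]
    congr 1
    exact sum_congr rfl fun σ _ => e1 _
  rw [integral_congr_ae (ae_of_all _ e1), integral_congr_ae (ae_of_all _ e2), integral_sub a1 b1,
    integral_sub a2 b2, a3, b3]

lemma lint_ker (Λ : Finset V) (τ : Cfg) {f : Om → ℝ≥0∞} (hf : Measurable f) :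
    ∫⁻ p, f p ∂(((cls Λ τ).card : ℝ≥0∞)⁻¹ • ∑ σ ∈ cls Λ τ, Measure.dirac (τ, σ)) =
      av (cls Λ τ) fun σ => f (τ, σ) := by
  rw [lintegral_smul_measure, lintegral_finsetSum_measure, av, ENNReal.div_eq_inv_mul, smul_eq_mul]
  congr 1
  exact sum_congr rfl fun σ _ => lintegral_dirac' _ hf

lemma rs (Λ : Finset V) (κ : Measure Cfg) (f : Om → ℝ≥0∞) (hf : Measurable f) :
    ∫⁻ p, f p ∂(Rs Λ κ) = ∫⁻ τ, av (cls Λ τ) (fun σ => f (τ, σ)) ∂κ := by
  have hK : Measurable fun τ : Cfg =>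
      ((cls Λ τ).card : ℝ≥0∞)⁻¹ • ∑ σ ∈ cls Λ τ, Measure.dirac (τ, σ) := by
    refine Measure.measurable_of_measurable_coe _ fun A hA => ?_
    have hi : Measurable (A.indicator (1 : Om → ℝ≥0∞)) := measurable_one.indicator hA
    simp only [← lintegral_indicator_one hA, lint_ker Λ _ hi]
    exact mav Λ Cfg id _ measurable_id hi
  rw [Rs, Measure.lintegral_bind hK.aemeasurable hf.aemeasurable]
  exact lintegral_congr fun τ => lint_ker Λ τ hf

lemma ae_tiling {Λ : Finset V} {κ : Measure Cfg} (h : Gib1 Λ κ) : ∀ᵐ τ ∂κ, IsTiling τ := by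
  have hA : MeasurableSet {a : Cfg | IsTiling a}ᶜ := mset_isTiling.compl
  have := h _ (measurable_one.indicator hA)
  rw [lintegral_indicator_one hA] at this
  rw [ae_iff]
  refine this.symm.trans ?_
  refine (lintegral_congr fun τ => ?_).trans lintegral_zero
  refine (av_congr fun σ hσ => ?_).trans (av_zero _)
  exact Set.indicator_of_notMem (Set.notMem_compl_iff.2 (mem_cls.1 hσ).1) _

lemma rsg (Λ : Finset V) (κ : Measure Cfg) (h : Gib1 Λ κ) : Gib2 Λ (Rs Λ κ) ∧
    (∀ᵐ p ∂(Rs Λ κ), Til p ∧ ∀ x, x ∉ Λ → p.2 x = p.1 x) ∧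
    ∀ T : Set Cfg, MeasurableSet T → Rs Λ κ (Prod.fst ⁻¹' T) = κ T := by
  refine ⟨fun f hf => ?_, ?_, fun T hT => ?_⟩
  · have hm : Measurable fun τ => av (cls Λ τ) fun σ => f (τ, σ) :=
      mav Λ Cfg id f measurable_id hf
    rw [rs Λ κ _ ((mav2 Λ).self hf), rs Λ κ _ hf, ← h _ hm]
    refine lintegral_congr fun τ => ?_
    have e1 : (av (cls Λ τ) fun σ => av (cl2 Λ (τ, σ)) f) =
        av (cls Λ τ) fun _ => av (cls Λ τ ×ˢ cls Λ τ) f :=
      av_congr fun σ hσ => by rw [cl2, cls_of_mem hσ]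
    have e2 : (av (cls Λ τ) fun a => av (cls Λ a) fun σ => f (a, σ)) =
        av (cls Λ τ ×ˢ cls Λ τ) f := by
      rw [av_prod]
      exact av_congr fun a ha => by rw [cls_of_mem ha]
    rw [e1, e2]
    rcases (cls Λ τ).eq_empty_or_nonempty with e | e
    · rw [e, av_empty, empty_product, av_empty]
    · exact av_const e _
  · have hA : MeasurableSet {p : Om | Til p ∧ ∀ x, x ∉ Λ → p.2 x = p.1 x} := by
      have : {p : Om | Til p ∧ ∀ x, x ∉ Λ → p.2 x = p.1 x} =
          {p | Til p} ∩ ⋂ x, ⋂ _ : x ∉ Λ, {p : Om | p.2 x = p.1 x} := by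
        ext p; simp
      rw [this]
      exact mset_til.inter (MeasurableSet.iInter fun x => MeasurableSet.iInter fun _ =>
        mset_eq ((measurable_pi_apply x).comp measurable_snd)
          ((measurable_pi_apply x).comp measurable_fst))
    rw [ae_iff]
    change Rs Λ κ {p : Om | Til p ∧ ∀ x, x ∉ Λ → p.2 x = p.1 x}ᶜ = 0
    rw [← lintegral_indicator_one hA.compl, rs Λ κ _ (measurable_one.indicator hA.compl)]
    refine (lintegral_congr_ae ?_).trans lintegral_zero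
    filter_upwards [ae_tiling h] with τ hτ
    refine (av_congr fun σ hσ => ?_).trans (av_zero _)
    refine Set.indicator_of_notMem (Set.notMem_compl_iff.2 ?_) _
    exact ⟨⟨hτ, (mem_cls.1 hσ).1⟩, (mem_cls.1 hσ).2⟩
  · rw [← lintegral_indicator_one (measurable_fst hT),
      rs Λ κ _ (measurable_one.indicator (measurable_fst hT)), ← lintegral_indicator_one hT]
    refine lintegral_congr_ae ?_
    filter_upwards [ae_tiling h] with τ hτ
    exact av_const ⟨τ, self_mem_cls hτ⟩ (T.indicator 1 τ)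

lemma count (Λ : Finset V) (Q₁ Q₂ : Measure Om) [IsFiniteMeasure Q₁] [IsFiniteMeasure Q₂]
    (h₁ : Gib2 Λ Q₁) (h₂ : Gib2 Λ Q₂) (D I : Set (Om × Om)) (C : ℕ) (hD : MeasurableSet D)
    (hI : MeasurableSet I)
    (h : ∀ ω₀, #{ω ∈ cl4 Λ ω₀ | ω ∈ D} ≤ C * #{ω ∈ cl4 Λ ω₀ | ω ∈ I}) :
    (Q₁.prod Q₂).real D ≤ C * (Q₁.prod Q₂).real I := by
  have g : Gib (cl4 Λ) (Q₁.prod Q₂) := Gib.prod (mav2 Λ) (mav2 Λ) h₁ h₂
  have key : (Q₁.prod Q₂) D ≤ C * (Q₁.prod Q₂) I := by
    rw [← lintegral_indicator_one hD, ← lintegral_indicator_one hI,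
      ← g _ (measurable_one.indicator hD), ← g _ (measurable_one.indicator hI),
      ← lintegral_const_mul' _ _ (ENNReal.natCast_ne_top C)]
    refine lintegral_mono fun ω => ?_
    rw [av_ind, av_ind, ← mul_div_assoc]
    refine ENNReal.div_le_div_right ?_ _
    exact_mod_cast h ω
  have := ENNReal.toReal_mono
    (ENNReal.mul_ne_top (ENNReal.natCast_ne_top C) (measure_ne_top _ I)) key
  rwa [ENNReal.toReal_mul, ENNReal.toReal_natCast] at this

lemma res1_mem {Λ : Finset V} {τ : Cfg} (h : IsTiling τ) : res1 Λ τ ∈ Ent.Pat1 Λ :=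
  Ent.mem_Pat1.2 ⟨fun v hv => by simpa [res1, hv] using Ent.Adj.sub_mem (h v).1,
    fun v hv => by simp [res1, hv]⟩

lemma mem_cyl_res1 (Λ : Finset V) (τ : Cfg) : τ ∈ cylG Λ (res1 Λ τ) := fun x hx => by
  simp [res1, hx]

lemma sum_ind {Λ : Finset V} {τ : Cfg} (h : IsTiling τ) (G : Cfg → Cfg → ℝ≥0∞) :
    ∑ y ∈ Ent.Pat1 Λ, (cylG Λ y).indicator (G y) τ = G (res1 Λ τ) τ := by
  rw [sum_eq_single_of_mem _ (res1_mem h), Set.indicator_of_mem (mem_cyl_res1 Λ τ)]
  intro y hy hne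
  refine Set.indicator_of_notMem (fun h' => hne (funext fun x => ?_)) _
  by_cases hx : x ∈ Λ
  · simp [res1, hx, h' x hx]
  · simp [res1, hx, (Ent.mem_Pat1.1 hy).2 x hx]

lemma swap_lint {s : Fin 3 → ℝ} {μ : Measure Cfg} (hμ : IsEGM s μ) {Λ : Finset V} {y y' : Cfg}
    (a : Adm Λ y) (a' : Adm Λ y') (b : SameBd Λ y y') {H : Cfg → ℝ≥0∞} (hH : Measurable H)
    (e : ∀ τ, H (ov Λ y τ) = H τ) :
    ∫⁻ τ, (cylG Λ y).indicator H τ ∂μ = ∫⁻ τ, (cylG Λ y').indicator H τ ∂μ := by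
  have key : (μ.restrict (cylG Λ y)).map (ov Λ y) = (μ.restrict (cylG Λ y')).map (ov Λ y) := by
    ext A hA
    have hA' := measurable_ov Λ y hA
    rw [Measure.map_apply (measurable_ov Λ y) hA, Measure.map_apply (measurable_ov Λ y) hA,
      Measure.restrict_apply hA', Measure.restrict_apply hA', Set.inter_comm,
      Set.inter_comm _ (cylG Λ y')]
    refine hμ.gibbs Λ y y' a a' b _ hA' fun σ σ' hσ h => ?_
    rwa [Set.mem_preimage, ← ov_congr y hσ]
  rw [lintegral_indicator (mset_cylG Λ y), lintegral_indicator (mset_cylG Λ y')]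
  have e1 : ∀ m : Measure Cfg, ∫⁻ τ, H τ ∂m = ∫⁻ τ, H τ ∂(m.map (ov Λ y)) := by
    intro m
    rw [lintegral_map hH (measurable_ov Λ y)]
    simp only [e]
  rw [e1, key, ← e1]

lemma gib1 {s : Fin 3 → ℝ} {μ : Measure Cfg} (hμ : IsEGM s μ) (Λ : Finset V) : Gib1 Λ μ := by
  intro f hf
  let H : Cfg → Cfg → Cfg → ℝ≥0∞ := fun y y' τ =>
    if IsTiling (ov Λ y τ) ∧ IsTiling (ov Λ y' τ) then f (ov Λ y' τ) / (cls Λ τ).card else 0
  have hH : ∀ y y', Measurable (H y y') := fun y y' => by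
    refine Measurable.ite ((measurable_ov Λ y mset_isTiling).inter
      (measurable_ov Λ y' mset_isTiling)) ?_ measurable_const
    exact (hf.comp (measurable_ov Λ y')).div
      ((measurable_of_countable fun n : ℕ => (n : ℝ≥0∞)).comp (meas_card Λ measurable_id))
  have c1 : ∀ τ, IsTiling τ → av (cls Λ τ) f =
      ∑ y' ∈ Ent.Pat1 Λ, ∑ y ∈ Ent.Pat1 Λ, (cylG Λ y).indicator (H y y') τ := by
    intro τ hτ
    rw [av, sum_cls, ENNReal.div_eq_inv_mul, mul_sum]
    refine sum_congr rfl fun y' _ => ?_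
    rw [sum_ind hτ fun y => H y y']
    simp only [H, ov_self (mem_cyl_res1 Λ τ), hτ, true_and]
    split_ifs
    · rw [ENNReal.div_eq_inv_mul]
    · rw [mul_zero]
  have c2 : ∀ τ, IsTiling τ → f τ =
      ∑ y' ∈ Ent.Pat1 Λ, ∑ y ∈ Ent.Pat1 Λ, (cylG Λ y').indicator (H y y') τ := by
    intro τ hτ
    rw [sum_comm]
    have e : ∀ y ∈ Ent.Pat1 Λ, ∑ y' ∈ Ent.Pat1 Λ, (cylG Λ y').indicator (H y y') τ =
        if IsTiling (ov Λ y τ) then f τ / (cls Λ τ).card else 0 := by
      intro y _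
      rw [sum_ind hτ fun y' => H y y']
      simp only [H, ov_self (mem_cyl_res1 Λ τ), hτ, and_true]
    rw [sum_congr rfl e, ← sum_cls Λ τ fun _ => f τ / (cls Λ τ).card]
    have := av_const (T := cls Λ τ) ⟨τ, self_mem_cls hτ⟩ (f τ)
    simp only [av, ENNReal.div_eq_inv_mul, mul_sum] at this ⊢
    exact this.symm
  have ht : ∀ᵐ τ ∂μ, IsTiling τ := hμ.tiling
  rw [lintegral_congr_ae (ht.mono c1), lintegral_congr_ae (ht.mono c2),
    lintegral_finsetSum _ fun y' _ => Finset.measurable_sum _ fun y _ =>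
      (hH y y').indicator (mset_cylG Λ y),
    lintegral_finsetSum _ fun y' _ => Finset.measurable_sum _ fun y _ =>
      (hH y y').indicator (mset_cylG Λ y')]
  refine sum_congr rfl fun y' _ => ?_
  rw [lintegral_finsetSum _ fun y _ => (hH y y').indicator (mset_cylG Λ y),
    lintegral_finsetSum _ fun y _ => (hH y y').indicator (mset_cylG Λ y')]
  refine sum_congr rfl fun y _ => ?_
  by_cases hex : ∃ τ, IsTiling (ov Λ y τ) ∧ IsTiling (ov Λ y' τ)
  · obtain ⟨τ, h1, h2⟩ := hex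
    refine swap_lint hμ ((h1.adm Λ).congr fun x hx => (ov_in _ _ hx).symm)
      ((h2.adm Λ).congr fun x hx => (ov_in _ _ hx).symm)
      ((sameBd_of_eq h1 h2 fun x hx => by rw [ov_out _ _ hx, ov_out _ _ hx]).congr
        (fun x hx => (ov_in _ _ hx).symm) fun x hx => (ov_in _ _ hx).symm) (hH y y') fun σ => ?_
    simp only [H, ov_ov, cls_ov]
  · have : H y y' = fun _ => 0 := funext fun τ => if_neg fun h => hex ⟨τ, h⟩
    simp [this]

lemma gib1_kap {s : Fin 3 → ℝ} {μ : Measure Cfg} (hμ : IsEGM s μ) (Λ : Finset V) :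
    Gib1 Λ (kap μ) := by
  have := hμ.prob
  intro f hf
  have hN : MeasurableSet {p : Om | ¬ One p} := mset_one.compl
  have g : Gib (fun p : Om => cls Λ p.1 ×ˢ ({p.2} : Finset Cfg)) (μ.prod μ) :=
    Gib.prod (mav Λ) mav_single (gib1 hμ Λ) (gib_single μ)
  have hf' : Measurable fun p : Om => f p.1 := hf.comp measurable_fst
  rw [kap, lintegral_map ((mav Λ).self hf) measurable_fst, lintegral_map hf measurable_fst,
    ← lintegral_indicator hN, ← lintegral_indicator hN, ← g _ (hf'.indicator hN)]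
  refine lintegral_congr_ae ?_
  filter_upwards [prod_til hμ hμ] with p hp
  rw [av_prod]
  simp only [av_single]
  have hfm : ∀ a ∈ cls Λ p.1, Til (a, p.2) ∧ FinMod p (a, p.2) := fun a ha =>
    ⟨⟨(mem_cls.1 ha).1, hp.2⟩, Λ.finite_toSet.subset fun x hx => by
      by_contra hx'
      rcases hx with hx | hx
      · exact hx ((mem_cls.1 ha).2 x hx')
      · exact hx rfl⟩
  by_cases h : One p
  · rw [Set.indicator_of_notMem (s := {p : Om | ¬ One p}) (fun h' => h' h)]
    refine ((av_congr fun a ha => ?_).trans (av_zero _)).symm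
    exact Set.indicator_of_notMem (s := {p : Om | ¬ One p})
      (fun h' => h' (tail_one _ _ hp (hfm a ha).1 (hfm a ha).2 h)) _
  · rw [Set.indicator_of_mem (s := {p : Om | ¬ One p}) h]
    refine av_congr fun a ha => ?_
    rw [Set.indicator_of_mem (s := {p : Om | ¬ One p})
      (tail_one.compl _ _ hp (hfm a ha).1 (hfm a ha).2 h)]

end Dlr

theorem dlr : DlrStmt where
  egm := fun _ μ hμ Λ => by
    have := hμ.prob
    exact ⟨Dlr.gib1 hμ Λ, Dlr.gib1_kap hμ Λ,
      Dlr.Gib.prod (Dlr.mav Λ) (Dlr.mav Λ) (Dlr.gib1 hμ Λ) (Dlr.gib1 hμ Λ)⟩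
  mav := fun Y _ Λ t f ht hf => Dlr.mav Λ Y t f ht hf
  mgam := fun _ _ Λ _ _ ht hf => Dlr.mgam Λ ht hf
  real := fun Λ κ _ h f C hf hC =>
    (Dlr.real_of Λ κ κ Prod.snd measurable_snd (fun F hF => (h F hF).symm) f C hf hC).symm
  rs := Dlr.rs
  rsr := fun Λ κ _ f C hf hC =>
    Dlr.real_of Λ κ (Rs Λ κ) id measurable_id (fun F hF => Dlr.rs Λ κ F hF) f C hf hC
  rsg := Dlr.rsg
  count := fun Λ Q₁ Q₂ _ _ => Dlr.count Λ Q₁ Q₂

end Pool.Agent.Lib.MP_640444_pr
end
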