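import Pool.Agent.Lib.MP_640444_pr.MeanErg

-- part Pool.Agent.Lib.MP_640444_pr.End1
section

/-!
Dynamics of pairs of near tilings: labels, sources, completions and the index argument.
-/

set_option autoImplicit false
open Filter Topology Finset Function
open scoped Classical

namespace Pool.Agent.Lib.MP_640444_pr

namespace EG

/-- averages -/
def Av (u : ℕ → ℝ) (L : ℝ) : Prop :=
  Tendsto (fun n : ℕ => (n : ℝ)⁻¹ * ∑ k ∈ range (2 * n), u k) atTop (𝓝 L)

lemma av_of_bdd {u v : ℕ → ℝ} {L C : ℝ}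
    (h : ∀ m, |∑ k ∈ range m, v k - ∑ k ∈ range m, u k| ≤ C) (hu : Av u L) : Av v L := by
  have h1 : Tendsto (fun n : ℕ => (n : ℝ)⁻¹ *
      (∑ k ∈ range (2 * n), v k - ∑ k ∈ range (2 * n), u k)) atTop (𝓝 0) := by
    refine squeeze_zero_norm (a := fun n : ℕ => (n : ℝ)⁻¹ * C) (fun n => ?_) ?_
    · rw [Real.norm_eq_abs, abs_mul, abs_of_nonneg (by positivity)]
      exact mul_le_mul_of_nonneg_left (h _) (by positivity)
    · simpa using (tendsto_inv_atTop_nhds_zero_nat (𝕜 := ℝ)).mul_const C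
  have h2 := Tendsto.add hu h1
  rw [add_zero] at h2
  exact h2.congr fun n => by ring

lemma av_congr {u v : ℕ → ℝ} {L : ℝ} (h : {k | v k ≠ u k}.Finite) (hu : Av u L) : Av v L := by
  refine av_of_bdd (C := ∑ k ∈ h.toFinset, |v k - u k|) (fun m => ?_) hu
  rw [← sum_sub_distrib]
  refine (abs_sum_le_sum_abs _ _).trans ?_
  rw [← sum_filter_ne_zero]
  refine sum_le_sum_of_subset_of_nonneg (fun k hk => ?_) fun _ _ _ => abs_nonneg _
  have := (mem_filter.1 hk).2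
  rw [abs_ne_zero, sub_ne_zero] at this
  simpa using this

lemma av_succ {u : ℕ → ℝ} {L : ℝ} (hb : ∀ k, |u k| ≤ 1) :
    Av (fun k => u (k + 1)) L ↔ Av u L := by
  have h : ∀ m, |∑ k ∈ range m, u (k + 1) - ∑ k ∈ range m, u k| ≤ 2 := fun m => by
    rw [← sum_sub_distrib, sum_range_sub]
    have h1 := abs_le.1 (hb m)
    have h2 := abs_le.1 (hb 0)
    rw [abs_le]
    constructor <;> linarith
  exact ⟨av_of_bdd fun m => by rw [abs_sub_comm]; exact h m, av_of_bdd h⟩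

variable {D : Finset (V × V)} {w : V}

lemma gv_le (p : Om) (x : V) : |gv D w p x| ≤ 1 := by
  unfold gv
  split_ifs <;> norm_num

lemma lab_succ {p : Om} {x : V} {L : ℝ} : OutLab D w p (stp p x) L ↔ OutLab D w p x L :=
  av_succ (u := fun k => gv D w p ((stp p)^[k] x)) fun _ => gv_le _ _

lemma lab_iter {p : Om} {x : V} {L : ℝ} (n : ℕ) :
    OutLab D w p ((stp p)^[n] x) L ↔ OutLab D w p x L := by
  induction n with
  | zero => rfl
  | succ n ih => rw [iterate_succ_apply', lab_succ, ih]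

lemma lab_unique {p : Om} {x : V} {L L' : ℝ} (h : OutLab D w p x L) (h' : OutLab D w p x L') :
    L = L' := tendsto_nhds_unique h h'

/-- the forward orbit is injective -/
def Inj (q : Om) (z : V) : Prop := Injective fun k : ℕ => (stp q)^[k] z

lemma Inj.succ {q : Om} {z : V} (h : Inj q z) : Inj q (stp q z) := fun a b e =>
  Nat.succ_injective (h (a₁ := a + 1) (a₂ := b + 1) e)

lemma Inj.iter {q : Om} {z : V} (h : Inj q z) (n : ℕ) : Inj q ((stp q)^[n] z) := by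
  induction n with
  | zero => exact h
  | succ n ih => rw [iterate_succ_apply']; exact ih.succ

lemma Inj.ne {q : Om} {z : V} (h : Inj q z) : stp q z ≠ z := fun e =>
  one_ne_zero (h (a₁ := 1) (a₂ := 0) e)

lemma unor_refl (p : Om) : Unor p p := by simp [Unor]

lemma Unor_trans {p q r : Om} (h : Unor p q) (h' : Unor q r) : Unor p r :=
  (Set.Finite.union h h').subset fun x hx => by
    by_contra hc
    rw [Set.mem_union, not_or] at hc
    rcases not_not.1 hc.1 with ⟨a, b⟩ | ⟨a, b⟩ <;> rcases not_not.1 hc.2 with ⟨c, d⟩ | ⟨c, d⟩ <;>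
      simp [a, b, c, d] at hx

lemma unor_flp (F : Set V) (p : Om) : Unor p (flp F p) :=
  Set.finite_empty.subset fun x hx => hx (by by_cases h : x ∈ F <;> simp [flp, h])

lemma unor_fin {p q : Om} (h : FinMod p q) : Unor p q :=
  Set.Finite.subset h fun x hx => by
    by_contra hc
    simp only [Set.mem_ofPred_eq, not_or, not_not] at hc
    exact hx (Or.inl hc)

lemma dbl_fin {p q : Om} (h : Unor p q) : {x | ¬ (dbl D q x ↔ dbl D p x)}.Finite := by
  refine (D.finite_toSet.biUnion fun uw _ =>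
    Set.Finite.preimage (add_left_injective uw.1).injOn h).subset fun x hx => ?_
  by_contra hc
  simp only [Set.mem_iUnion, Set.mem_preimage, Set.mem_ofPred_eq, not_exists, not_not] at hc
  refine hx (forall₂_congr fun uw hu => ?_)
  rcases hc uw hu with ⟨a, b⟩ | ⟨a, b⟩ <;> simp [a, b, and_comm]

lemma orbit_eq {f f' : V → V} {z : V} (h : ∀ k, f' (f^[k] z) = f (f^[k] z)) (k : ℕ) :
    f'^[k] z = f^[k] z := by
  induction k with
  | zero => rfl
  | succ k ih => rw [iterate_succ_apply', iterate_succ_apply', ih, h]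

lemma transfer {q q' : Om} {z : V} (hU : Unor q q') (hz : Inj q z) {E : Set V} (hE : E.Finite)
    (h1 : ∀ k, stp q' ((stp q)^[k] z) = stp q ((stp q)^[k] z))
    (h2 : ∀ k, (stp q)^[k] z ∉ E → q'.1 ((stp q)^[k] z) = q.1 ((stp q)^[k] z) ∧
      q'.2 ((stp q)^[k] z) = q.2 ((stp q)^[k] z)) {L : ℝ} :
    OutLab D w q' z L ↔ OutLab D w q z L := by
  have h3 : {k | gv D w q' ((stp q')^[k] z) ≠ gv D w q ((stp q)^[k] z)}.Finite := by
    refine (Set.Finite.preimage hz.injOn (hE.union (dbl_fin (D := D) hU))).subset fun k hk => ?_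
    by_contra hc
    simp only [Set.mem_preimage, Set.mem_union, Set.mem_ofPred_eq, not_or, not_not] at hc
    refine hk ?_
    rw [orbit_eq h1, gv, gv, (h2 k hc.1).1, (h2 k hc.1).2, hc.2]
  exact ⟨av_congr (h3.subset fun k hk => Ne.symm hk), av_congr h3⟩

/-- a pair of near tilings -/
def NP (q : Om) : Prop := NT q.1 ∧ NT q.2

lemma NP.swap {q : Om} (h : NP q) : NP q.swap := ⟨h.2, h.1⟩

lemma NP.undo {q : Om} (h : NP q) {x : V} (hx : stp q x ≠ x) : stp q.swap (stp q x) = x := by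
  unfold stp at *
  by_cases e : Ev x
  · rw [if_pos e] at hx ⊢
    rw [if_neg fun c => ((h.1 x).2.resolve_left hx).ev.1 c e]
    exact (h.1 x).1
  · rw [if_neg e] at hx ⊢
    rw [if_pos (((h.2 x).2.resolve_left hx).ev.2 e)]
    exact (h.2 x).1

lemma NP.back {q : Om} (h : NP q) {z : V} (hz : Inj q z) (k : ℕ) :
    (stp q.swap)^[k] ((stp q)^[k] z) = z := by
  induction k with
  | zero => rfl
  | succ k ih => rw [iterate_succ_apply, iterate_succ_apply', h.undo (hz.iter k).ne, ih]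

/-- no sinks -/
def NS (q : Om) : Prop := NP q ∧ ∀ x, stp q x = x → stp q.swap x = x

lemma NS.inj {q : Om} (h : NS q) : Injective (stp q) := fun x y e => by
  have key : ∀ x y, stp q x = stp q y → stp q y = y → x = y := fun x y e hy => by
    by_cases hx : stp q x = x
    · rw [← hx, e, hy]
    · rw [← h.1.undo hx, e, hy, h.2 y hy]
  by_cases hy : stp q y = y
  · exact key x y e hy
  by_cases hx : stp q x = x
  · exact (key y x e.symm hx).symm
  rw [← h.1.undo hx, e, h.1.undo hy]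

lemma NS.inj_of {q : Om} (h : NS q) {z : V} (hz : ∀ k, (stp q)^[k + 1] z ≠ z) : Inj q z := by
  refine Injective.of_lt_imp_ne fun a b hab e => ?_
  obtain ⟨c, rfl⟩ := Nat.exists_eq_add_of_lt hab
  rw [add_assoc, iterate_add_apply] at e
  exact hz c (h.inj.iterate a e).symm

lemma NS.pred {q : Om} (h : NS q) {z : V} (hz : Inj q (stp q z)) : Inj q z :=
  h.inj_of fun k e => Nat.succ_ne_zero k (hz (a₁ := k + 1) (a₂ := 0) (by
    simp only [iterate_zero, id]
    rw [← iterate_succ_apply, iterate_succ_apply', e]))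

lemma NS.of_back {q : Om} (h : NS q) {z : V} (hz : Inj q.swap z) : Inj q z := by
  refine h.inj_of fun k e => Nat.succ_ne_zero k (hz (a₁ := k + 1) (a₂ := 0) ?_)
  have h1 := h.1.swap.back hz (k + 1)
  exact h.inj.iterate (k + 1) (h1.trans e.symm)

/-- sources -/
def Src (q : Om) (t : V) : Prop := stp q.swap t = t ∧ stp q t ≠ t

lemma Src.ne {q : Om} (h : NP q) {t : V} (ht : Src q t) (x : V) : stp q x ≠ t := fun e => by
  have h1 : stp q x ≠ x := fun c => ht.2 (by rw [← e, c, c])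
  have h2 := h.undo h1
  rw [e, ht.1] at h2
  exact h1 (e.trans h2)

lemma Src.inj {q : Om} (h : NS q) {t : V} (ht : Src q t) : Inj q t :=
  h.inj_of fun k => by rw [iterate_succ_apply']; exact ht.ne h.1 _

/-- forward ray -/
def fray (q : Om) (t : V) : Set V := Set.range fun k : ℕ => (stp q)^[k] t

lemma mem_fray (q : Om) (t : V) : t ∈ fray q t := ⟨0, rfl⟩

lemma Src.not_mem {q : Om} (h : NP q) {t t' : V} (ht : Src q t) (e : t' ≠ t) : t ∉ fray q t' := by
  rintro ⟨_ | k, hk⟩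
  · exact e hk
  · exact ht.ne h _ ((iterate_succ_apply' _ _ _).symm.trans hk)

lemma invar_of {q : Om} (h : NP q) {F : Set V} (h1 : ∀ x ∈ F, stp q x ∈ F)
    (h2 : ∀ x ∈ F, stp q.swap x ∈ F) : Invar q F := by
  have h3 : ∀ x ∈ F, q.1 x ∈ F ∧ q.2 x ∈ F := fun x hx => by
    have a := h1 x hx
    have b := h2 x hx
    unfold stp at a b
    split_ifs at a b
    exacts [⟨a, b⟩, ⟨b, a⟩]
  exact fun x => ⟨⟨fun c => (h.1 x).1 ▸ (h3 _ c).1, fun c => (h3 _ c).1⟩,
    ⟨fun c => (h.2 x).1 ▸ (h3 _ c).2, fun c => (h3 _ c).2⟩⟩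

lemma Src.invar {q : Om} (h : NS q) {t : V} (ht : Src q t) : Invar q (fray q t) := by
  refine invar_of h.1 ?_ ?_
  · rintro _ ⟨k, rfl⟩
    exact ⟨k + 1, iterate_succ_apply' _ _ _⟩
  · rintro _ ⟨_ | k, rfl⟩
    · exact ⟨0, ht.1.symm⟩
    · exact ⟨k, by simp only [iterate_succ_apply']; rw [h.1.undo ((ht.inj h).iter k).ne]⟩

lemma Src.not_inj {q : Om} (h : NS q) {t : V} (ht : Src q t) {z : V} (hz : z ∈ fray q t) :
    ¬ Inj q.swap z := fun c => by
  obtain ⟨k, rfl⟩ := hz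
  have := (c.iter k).ne
  rw [h.1.back (ht.inj h)] at this
  exact this ht.1

lemma Invar_union {q : Om} {F G : Set V} (h : Invar q F) (h' : Invar q G) : Invar q (F ∪ G) :=
  fun x => ⟨or_congr (h x).1 (h' x).1, or_congr (h x).2 (h' x).2⟩

lemma np_flp {q : Om} (h : NP q) {F : Set V} (hF : Invar q F) : NP (flp F q) := by
  refine ⟨fun x => ?_, fun x => ?_⟩ <;> by_cases e : x ∈ F <;>
    simp [flp, e, (hF x).1, (hF x).2, h.1 x, h.2 x]

/-- completion of a pair of near tilings after flipping on `F` -/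
structure Cp (q p : Om) (F : Set V) : Prop where
  invar : Invar q F
  fin : {x | q.1 x = x ∨ q.2 x = x}.Finite
  fst : ∀ x, (flp F q).1 x ≠ x → p.1 x = (flp F q).1 x
  snd : ∀ x, (flp F q).2 x ≠ x → p.2 x = (flp F q).2 x

lemma Cp.swap {q p : Om} {F : Set V} (h : Cp q p F) : Cp q.swap p.swap F :=
  ⟨fun x => (h.invar x).symm, h.fin.subset fun _ hx => hx.symm, h.snd, h.fst⟩

lemma Cp.compl {q p : Om} {F : Set V} (h : Cp q p F) : Cp q p.swap Fᶜ := by
  refine ⟨fun x => ⟨not_congr (h.invar x).1, not_congr (h.invar x).2⟩, h.fin, fun x => ?_,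
    fun x => ?_⟩
  · have := h.snd x
    by_cases e : x ∈ F <;> simpa [flp, e] using this
  · have := h.fst x
    by_cases e : x ∈ F <;> simpa [flp, e] using this

lemma Cp.unor {q p : Om} {F : Set V} (h : Cp q p F) : Unor q p := by
  refine Unor_trans (unor_flp F q) (unor_fin (h.fin.subset fun x hx => ?_))
  by_contra hc
  simp only [Set.mem_ofPred_eq, not_or] at hc
  refine hx.elim (fun c => c (h.fst x ?_)) fun c => c (h.snd x ?_) <;>
    by_cases e : x ∈ F <;> simp [flp, e, hc]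

lemma Cp.lab {q p : Om} {F : Set V} (h : Cp q p F) {z : V} (hz : Inj q z) (hF : z ∉ F) {L : ℝ} :
    OutLab D w p z L ↔ OutLab D w q z L := by
  have h1 : ∀ k, (stp q)^[k] z ∉ F := fun k => by
    induction k with
    | zero => exact hF
    | succ k ih =>
      rw [iterate_succ_apply', stp]
      split_ifs
      exacts [mt (h.invar _).1.1 ih, mt (h.invar _).2.1 ih]
  refine transfer h.unor hz h.fin (fun k => ?_) fun k hk => ?_
  · have a := h.fst ((stp q)^[k] z)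
    have b := h.snd ((stp q)^[k] z)
    have c := (hz.iter k).ne
    simp only [flp, h1 k, if_false] at a b
    unfold stp at c ⊢
    split_ifs at c ⊢
    exacts [a c, b c]
  · have a := h.fst ((stp q)^[k] z)
    have b := h.snd ((stp q)^[k] z)
    simp only [flp, h1 k, if_false] at a b
    simp only [Set.mem_ofPred_eq, not_or] at hk
    exact ⟨a hk.1, b hk.2⟩

/-- purity along complete orbits -/
def SP (D : Finset (V × V)) (w : V) (q : Om) : Prop :=
  ∀ z, Inj q.swap z → ∃ L, OutLab D w q z L ∧ OutLab D w q.swap z (-L)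

lemma Cp.sp {q p : Om} (hq : NS q) {t t' : V} (ht : Src q t) (ht' : Src q t')
    (h : Cp q p (fray q t ∪ fray q t')) (hp : Pure D w p) : SP D w q := fun z hz => by
  have h1 : z ∉ fray q t ∪ fray q t' := fun c =>
    c.elim (fun c => ht.not_inj hq c hz) fun c => ht'.not_inj hq c hz
  obtain ⟨L, a, b⟩ := hp z
  exact ⟨L, (h.lab (hq.of_back hz) h1).1 a, (h.swap.lab hz h1).1 b⟩

lemma Cp.link {q p : Om} {F : Set V} (h : Cp q p F) (hp : Pure D w p) {t t' : V} (ht : Inj q t)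
    (ht' : Inj q t') (h1 : t ∈ F) (h2 : t' ∉ F) {n : ℕ} (e : (stp p)^[n] t = t') :
    ∃ L, OutLab D w q t' L ∧ OutLab D w q t (-L) := by
  obtain ⟨L, a, b⟩ := hp t
  exact ⟨L, (h.lab ht' h2).1 (e ▸ (lab_iter n).2 a), (h.compl.lab ht (not_not.2 h1)).1 b⟩

lemma count {X : Type} {f f' : X → X} {Z Z' W : Set X} (hW : W.Finite) (h1 : (Z \ Z').Finite)
    (h2 : (Z' \ Z).Finite) (he : ∀ x ∉ W, f' x = f x) (hf : Injective f) (hZ : Set.MapsTo f Z Z)
    (hZ' : Set.MapsTo f' Z' Z') (hs : Set.SurjOn f' Z' Z') {y : X} (hy : y ∈ Z)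
    (hy' : ∀ x, f x ≠ y) : False := by
  set A := (Z ∩ Z') \ W
  have key : ∀ B ⊆ Z ∩ Z', (Z \ B).encard = (Z \ Z').encard + ((Z ∩ Z') \ B).encard ∧
      (Z' \ B).encard = (Z' \ Z).encard + ((Z ∩ Z') \ B).encard := fun B hB => by
    constructor
    · rw [← Set.encard_union_eq (Set.disjoint_left.2 fun x a b => a.2 b.1.2)]
      exact congrArg _ (Set.ext fun x => ⟨fun a => (em (x ∈ Z')).symm.imp (⟨a.1, ·⟩) (⟨⟨a.1, ·⟩, a.2⟩),
        fun a => a.elim (fun a => ⟨a.1, fun b => a.2 (hB b).2⟩) fun a => ⟨a.1.1, a.2⟩⟩)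
    · rw [← Set.encard_union_eq (Set.disjoint_left.2 fun x a b => a.2 b.1.1)]
      exact congrArg _ (Set.ext fun x => ⟨fun a => (em (x ∈ Z)).symm.imp (⟨a.1, ·⟩) (⟨⟨·, a.1⟩, a.2⟩),
        fun a => a.elim (fun a => ⟨a.1, fun b => a.2 (hB b).1⟩) fun a => ⟨a.1.2, a.2⟩⟩)
  have a1 : f '' A ⊆ Z ∩ Z' := by
    rintro _ ⟨x, hx, rfl⟩
    exact ⟨hZ hx.1.1, he x hx.2 ▸ hZ' hx.1.2⟩
  have a2 : (Z \ A).encard + 1 ≤ (Z \ f '' A).encard := by
    have a5 : y ∉ f '' (Z \ A) := fun ⟨x, _, e⟩ => hy' x e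
    rw [← hf.encard_image, ← Set.encard_insert_of_notMem a5]
    refine Set.encard_le_encard (Set.insert_subset ⟨hy, fun ⟨x, _, e⟩ => hy' x e⟩ ?_)
    rintro _ ⟨x, hx, rfl⟩
    exact ⟨hZ hx.1, fun ⟨u, a, b⟩ => hx.2 (hf b ▸ a)⟩
  have a3 : (Z' \ f '' A).encard ≤ (Z' \ A).encard := by
    refine le_trans (Set.encard_le_encard fun z hz => ?_) (Set.encard_image_le f' _)
    obtain ⟨x, a, rfl⟩ := hs hz.1
    exact ⟨x, ⟨a, fun c => hz.2 ⟨x, c, (he x c.2).symm⟩⟩, rfl⟩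
  rw [(key _ a1).1, (key A Set.sdiff_subset).1, add_assoc,
    ENat.add_le_add_iff_left h1.encard_lt_top.ne] at a2
  rw [(key _ a1).2, (key A Set.sdiff_subset).2, ENat.add_le_add_iff_left h2.encard_lt_top.ne] at a3
  have a4 : ((Z ∩ Z') \ A).Finite := hW.subset fun x hx => by_contra fun c => hx.2 ⟨hx.1, c⟩
  exact (ENat.lt_add_one_iff a4.encard_lt_top.ne).2 le_rfl |>.not_ge (a2.trans a3)

lemma diff_fin {q q' : Om} (hq : NS q) (hq' : NS q') (h : FinMod q q') (hs : SP D w q)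
    (hs' : SP D w q') (β : ℝ) :
    ({z | Inj q z ∧ OutLab D w q z β} \ {z | Inj q' z ∧ OutLab D w q' z β}).Finite := by
  set W := {x | q'.1 x ≠ q.1 x ∨ q'.2 x ≠ q.2 x}
  have key : ∀ {q q' : Om} {z : V}, FinMod q q' → Inj q z → (∀ k, ¬ (q'.1 ((stp q)^[k] z) ≠
      q.1 ((stp q)^[k] z) ∨ q'.2 ((stp q)^[k] z) ≠ q.2 ((stp q)^[k] z))) →
      Inj q' z ∧ ∀ L, OutLab D w q' z L ↔ OutLab D w q z L := fun {q q' z} h hz hk => by
    simp only [not_or, not_not] at hk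
    have h1 : ∀ k, stp q' ((stp q)^[k] z) = stp q ((stp q)^[k] z) := fun k => by
      rw [stp, stp, (hk k).1, (hk k).2]
    exact ⟨by rw [Inj, funext (orbit_eq h1)]; exact hz,
      fun L => transfer (unor_fin h) hz h h1 fun k _ => hk k⟩
  let T : V → Set V := fun x => {z | z ∈ fray q.swap x ∧
    ¬ (Inj q.swap z ∧ ∀ k, (stp q.swap)^[k] z ∉ W)}
  have hT : ∀ x, (T x).Finite := fun x => by
    by_cases hx : Inj q.swap x
    · obtain ⟨N, hN⟩ := (Set.Finite.preimage hx.injOn h).bddAbove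
      refine ((Set.finite_Iic N).image fun k => (stp q.swap)^[k] x).subset ?_
      rintro _ ⟨⟨k, rfl⟩, hz⟩
      refine ⟨k, by_contra fun c => hz ⟨hx.iter k, fun j hj => c ?_⟩, rfl⟩
      rw [← iterate_add_apply] at hj
      exact le_trans (Nat.le_add_left k j) (hN hj)
    · obtain ⟨a, b, hab, e⟩ : ∃ a b, a < b ∧ (stp q.swap)^[a] x = (stp q.swap)^[b] x := by
        by_contra c
        push Not at c
        exact hx (Injective.of_lt_imp_ne c)
      refine ((Set.finite_Iio b).image fun k => (stp q.swap)^[k] x).subset ?_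
      rintro _ ⟨⟨k, rfl⟩, -⟩
      induction k with
      | zero => exact ⟨0, lt_of_le_of_lt (Nat.zero_le _) hab, rfl⟩
      | succ k ih =>
        obtain ⟨j, h1, h2⟩ := ih
        simp only at h2 ⊢
        rw [iterate_succ_apply', ← h2, ← iterate_succ_apply' (stp q.swap)]
        rcases (Nat.succ_le_of_lt h1).eq_or_lt with c | c
        · exact ⟨a, hab, by rw [c]; exact e⟩
        · exact ⟨_, c, rfl⟩
  refine (Set.Finite.biUnion h fun x _ => hT x).subset fun z ⟨⟨a, b⟩, c⟩ => ?_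
  by_cases d : ∀ k, (stp q)^[k] z ∉ W
  · exact (c ⟨(key h a d).1, ((key h a d).2 _).2 b⟩).elim
  push Not at d
  obtain ⟨k, hk⟩ := d
  refine Set.mem_biUnion hk ⟨⟨k, hq.1.back a k⟩, fun ⟨e1, e2⟩ => c ?_⟩
  obtain ⟨e3, e4⟩ := key (q := q.swap) (q' := q'.swap) (h.subset fun _ hx => hx.symm) e1
    fun k hk => e2 k hk.symm
  obtain ⟨L, e5, e6⟩ := hs z e1
  obtain ⟨L', e7, e8⟩ := hs' z e3
  rw [← neg_inj.1 (lab_unique e6 ((e4 _).1 e8)), lab_unique e5 b] at e7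
  exact ⟨hq'.of_back e3, e7⟩

lemma index {q q' : Om} (hq : NS q) (hq' : NS q') (h : FinMod q q') (hs : SP D w q)
    (hs' : SP D w q') {β : ℝ} {y : V} (hy : Src q y) (hl : OutLab D w q y β)
    (ht : ∀ t, Src q' t → ¬ OutLab D w q' t β) : False := by
  refine count (f := stp q) (f' := stp q') h (diff_fin hq hq' h hs hs' β)
    (diff_fin hq' hq (h.subset fun _ hx => hx.imp Ne.symm Ne.symm) hs' hs β) (fun x hx => ?_) hq.inj
    (fun z hz => ⟨hz.1.succ, lab_succ.2 hz.2⟩) (fun z hz => ⟨hz.1.succ, lab_succ.2 hz.2⟩)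
    (fun z hz => ?_) ⟨hy.inj hq, hl⟩ (hy.ne hq.1)
  · simp only [Set.mem_ofPred_eq, not_or, not_not] at hx
    rw [stp, stp, hx.1, hx.2]
  · have h1 : stp q' (stp q'.swap z) = z := hq'.1.swap.undo fun c => ht z ⟨c, hz.1.ne⟩ hz.2
    exact ⟨_, ⟨hq'.pred (h1.symm ▸ hz.1), lab_succ.1 (h1.symm ▸ hz.2)⟩, h1⟩

end EG

end Pool.Agent.Lib.MP_640444_pr
end

-- part Pool.Agent.Lib.MP_640444_pr.End2
section

/-!
The gadget with four sources.
-/

set_option autoImplicit false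
open Filter Topology Finset Function

namespace Pool.Agent.Lib.MP_640444_pr

namespace EG

/-- pairing of the integers outside an interval -/
def lm (al be t : ℤ) : ℤ :=
  if be < t then (if (t - be) % 2 = 0 then t - 1 else t + 1)
  else if t < al then (if (al - t) % 2 = 0 then t + 1 else t - 1) else t

lemma lm_lm {al be : ℤ} (h : al ≤ be + 1) (t : ℤ) : lm al be (lm al be t) = t := by
  unfold lm
  split_ifs <;> omega

lemma lm_adj (al be t : ℤ) : lm al be t = t ∨ |lm al be t - t| = 1 := by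
  unfold lm
  split_ifs <;> simp

lemma lm_fix (al be t : ℤ) : lm al be t = t ↔ al ≤ t ∧ t ≤ be := by
  unfold lm
  split_ifs <;> omega

lemma vec_eq {x : V} {a b c : ℤ} : x = ![a, b, c] ↔ x 0 = a ∧ x 1 = b ∧ x 2 = c :=
  ⟨fun h => by simp [h], fun h => funext fun i => by fin_cases i <;> simp [h]⟩

lemma exists_ref (al be : ℤ → ℤ → ℤ) (h : ∀ u v, al u v ≤ be u v + 1) :
    ∃ a : Cfg, NT a ∧ ∀ x, a x = x ↔ al (x 1) (x 2) ≤ x 0 ∧ x 0 ≤ be (x 1) (x 2) := by
  have h1 : ∀ x : V, ![lm (al (x 1) (x 2)) (be (x 1) (x 2)) (x 0), x 1, x 2] = x ↔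
      lm (al (x 1) (x 2)) (be (x 1) (x 2)) (x 0) = x 0 := fun x => by
    rw [eq_comm, vec_eq, eq_comm]
    simp
  refine ⟨fun x => ![lm (al (x 1) (x 2)) (be (x 1) (x 2)) (x 0), x 1, x 2], fun x => ⟨?_, ?_⟩,
    fun x => (h1 x).trans (lm_fix _ _ _)⟩
  · exact (vec_eq.2 (by simp [lm_lm (h _ _)])).symm
  · refine (lm_adj _ _ _).imp (h1 x).2 fun e => ?_
    simpa [Adj, Fin.sum_univ_three] using e

/-- fixed points of the first near tiling -/
def S1 : List V := [![0, 0, 0], ![0, 0, 1], ![0, 1, 0], ![0, 1, 1], ![1, 0, 0], ![1, 1, 1]]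
/-- fixed points of the second near tiling -/
def S2 : List V := [![0, 0, 0], ![0, 0, 1], ![0, 1, 0], ![0, 1, 1], ![0, 2, 0], ![1, 1, 0]]

lemma ref1 : ∃ a : Cfg, NT a ∧ ∀ x, a x = x ↔ x ∈ S1 := by
  obtain ⟨a, h1, h2⟩ := exists_ref (fun u v => if 0 ≤ u ∧ u ≤ 1 ∧ 0 ≤ v ∧ v ≤ 1 then 0 else 1)
    (fun u v => if 0 ≤ u ∧ u ≤ 1 ∧ u = v then 1 else 0) fun u v => by split_ifs <;> omega
  refine ⟨a, h1, fun x => (h2 x).trans ?_⟩
  simp only [S1, List.mem_cons, vec_eq, List.not_mem_nil, or_false]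
  split_ifs <;> omega

lemma ref2 : ∃ a : Cfg, NT a ∧ ∀ x, a x = x ↔ x ∈ S2 := by
  obtain ⟨a, h1, h2⟩ := exists_ref
    (fun u v => if (0 ≤ u ∧ u ≤ 1 ∧ 0 ≤ v ∧ v ≤ 1) ∨ (u = 2 ∧ v = 0) then 0 else 1)
    (fun u v => if u = 1 ∧ v = 0 then 1 else 0) fun u v => by split_ifs <;> omega
  refine ⟨a, h1, fun x => (h2 x).trans ?_⟩
  simp only [S2, List.mem_cons, vec_eq, List.not_mem_nil, or_false]
  split_ifs <;> omega

lemma ev_iff {x : V} : Ev x ↔ (x 0 + x 1 + x 2) % 2 = 0 := by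
  rw [Ev, Fin.sum_univ_three, Int.even_iff]

lemma adj_iff {x y : V} : Adj x y ↔ |y 0 - x 0| + |y 1 - x 1| + |y 2 - x 2| = 1 := by
  rw [Adj, Fin.sum_univ_three]

/-- filling the fixed points -/
def fill (a g : Cfg) : Cfg := fun x => if a x = x then g x else a x

/-- `g` is a perfect matching of the list -/
def Mt (S : List V) (g : Cfg) : Prop :=
  ∀ x ∈ S, g x ∈ S ∧ g (g x) = x ∧ |g x 0 - x 0| + |g x 1 - x 1| + |g x 2 - x 2| = 1

lemma fill_til {a g : Cfg} (h : NT a) {S : List V} (hS : ∀ x, a x = x ↔ x ∈ S) (hg : Mt S g) :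
    IsTiling (fill a g) := fun x => by
  by_cases e : a x = x
  · obtain ⟨b, c, d⟩ := hg x ((hS x).1 e)
    simp only [fill, e, if_true, (hS _).2 b]
    exact ⟨adj_iff.2 d, c⟩
  · simp only [fill, e, if_false, (h x).1, Ne.symm e]
    exact ⟨(h x).2.resolve_left e, trivial⟩

/-- the matching given by a list of pairs -/
def mt : List (V × V) → Cfg
  | [], x => x
  | u :: l, x => if x = u.1 then u.2 else if x = u.2 then u.1 else mt l x

/-- fixed points after flipping two rays -/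
def fx (t t' : V) (S S' : List V) : List V :=
  (S ++ S').filter fun x => if x = t ∨ x = t' then x ∈ S' else x ∈ S

lemma Src.eq {q : Om} (h : NS q) {t : V} (ht : Src q t) {x : V} (hx : x ∈ fray q t)
    (e : q.1 x = x ∨ q.2 x = x) : x = t := by
  obtain ⟨_ | k, rfl⟩ := hx
  · rfl
  have a := ((ht.inj h).iter (k + 1)).ne
  have b := ((ht.inj h).iter k).ne
  rw [← iterate_succ_apply' (stp q)] at b
  have c := h.1.undo ((ht.inj h).iter k).ne
  rw [← iterate_succ_apply' (stp q)] at c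
  rw [← c, ne_comm] at b
  unfold stp at a b
  split_ifs at a b
  exacts [(e.elim a b).elim, (e.elim b a).elim]

lemma comp {q : Om} (hq : NS q) {S S' : List V} (h1 : ∀ x, q.1 x = x ↔ x ∈ S)
    (h2 : ∀ x, q.2 x = x ↔ x ∈ S') {t t' : V} (ht : Src q t) (ht' : Src q t') {ga gb : Cfg}
    (ha : Mt (fx t t' S S') ga) (hb : Mt (fx t t' S' S) gb) :
    ∃ p, Til p ∧ Cp q p (fray q t ∪ fray q t') ∧ ∀ x y,
      ((x 0 + x 1 + x 2) % 2 = 0 ∧ x ∈ fx t t' S S' ∧ ga x = y ∨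
        (x 0 + x 1 + x 2) % 2 ≠ 0 ∧ x ∈ fx t t' S' S ∧ gb x = y) → stp p x = y := by
  set F := fray q t ∪ fray q t'
  have hF : Invar q F := Invar_union (ht.invar hq) (ht'.invar hq)
  have h3 : ∀ x, q.1 x = x ∨ q.2 x = x → (x ∈ F ↔ x = t ∨ x = t') := fun x e =>
    ⟨Or.imp (ht.eq hq · e) (ht'.eq hq · e), Or.imp (· ▸ mem_fray q _) (· ▸ mem_fray q _)⟩
  have h4 : ∀ x, (flp F q).1 x = x ↔ x ∈ fx t t' S S' := fun x => by
    have := h3 x
    by_cases e : x ∈ F <;> by_cases e' : x = t ∨ x = t' <;>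
      simp only [flp, fx, List.mem_filter, List.mem_append, e, e', if_true, if_false, h1, h2,
        decide_eq_true_eq] at this ⊢ <;> tauto
  have h5 : ∀ x, (flp F q).2 x = x ↔ x ∈ fx t t' S' S := fun x => by
    have := h3 x
    by_cases e : x ∈ F <;> by_cases e' : x = t ∨ x = t' <;>
      simp only [flp, fx, List.mem_filter, List.mem_append, e, e', if_true, if_false, h1, h2,
        decide_eq_true_eq] at this ⊢ <;> tauto
  refine ⟨(fill (flp F q).1 ga, fill (flp F q).2 gb), ⟨fill_til (np_flp hq.1 hF).1 h4 ha,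
    fill_til (np_flp hq.1 hF).2 h5 hb⟩, ⟨hF, ((List.finite_toSet S).union
    (List.finite_toSet S')).subset fun x hx => hx.imp (h1 x).1 (h2 x).1, fun x hx => if_neg hx,
    fun x hx => if_neg hx⟩, ?_⟩
  rintro x y (⟨a, b, c⟩ | ⟨a, b, c⟩)
  · exact (if_pos (ev_iff.2 a)).trans ((if_pos ((h4 x).2 b)).trans c)
  · exact (if_neg fun e => a (ev_iff.1 e)).trans ((if_pos ((h5 x).2 b)).trans c)

variable {D : Finset (V × V)} {w : V}

lemma gadget {q : Om} (hq : NP q) (h1 : ∀ x, q.1 x = x ↔ x ∈ S1) (h2 : ∀ x, q.2 x = x ↔ x ∈ S2)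
    (hU : ∀ p, Til p → Unor q p → Pure D w p) :
    NS q ∧ SP D w q ∧ ∀ t, Src q t → OutLab D w q t 0 := by
  have a1 : NS q := ⟨hq, fun x => by
    have b1 : ∀ x ∈ S1, (x 0 + x 1 + x 2) % 2 = 0 → x ∈ S2 := by decide
    have b2 : ∀ x ∈ S2, ¬ (x 0 + x 1 + x 2) % 2 = 0 → x ∈ S1 := by decide
    unfold stp
    split_ifs with e <;> rw [ev_iff] at e
    exacts [fun c => (h2 x).2 (b1 x ((h1 x).1 c) e), fun c => (h1 x).2 (b2 x ((h2 x).1 c) e)]⟩
  have a2 : ∀ t, Src q t ↔ ((t 0 + t 1 + t 2) % 2 = 0 ∧ t ∈ S2 ∧ t ∉ S1) ∨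
      (¬ (t 0 + t 1 + t 2) % 2 = 0 ∧ t ∈ S1 ∧ t ∉ S2) := fun t => by
    unfold Src stp
    rw [← ev_iff]
    by_cases e : Ev t <;> simp [e, h1, h2]
  have x1 := (a2 ![0, 2, 0]).2 (by decide)
  have x2 := (a2 ![1, 1, 0]).2 (by decide)
  have y1 := (a2 ![1, 0, 0]).2 (by decide)
  have y2 := (a2 ![1, 1, 1]).2 (by decide)
  have nm : ∀ {t u v}, Src q t → u ≠ t → v ≠ t → t ∉ fray q u ∪ fray q v := fun h a b c =>
    c.elim (h.not_mem hq a) (h.not_mem hq b)
  obtain ⟨p1, b1, b2, b3⟩ := comp a1 h1 h2 x1 x2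
    (ga := mt [(![1, 1, 0], ![1, 1, 1]), (![0, 1, 0], ![0, 2, 0]), (![0, 0, 1], ![0, 1, 1]),
      (![0, 0, 0], ![1, 0, 0])])
    (gb := mt [(![0, 0, 1], ![0, 1, 1]), (![0, 0, 0], ![0, 1, 0])])
    (by unfold Mt; decide) (by unfold Mt; decide)
  obtain ⟨p2, c1, c2, c3⟩ := comp a1 h1 h2 x1 x2
    (ga := mt [(![1, 0, 0], ![1, 1, 0]), (![0, 1, 1], ![1, 1, 1]), (![0, 1, 0], ![0, 2, 0]),
      (![0, 0, 0], ![0, 0, 1])])
    (gb := mt [(![0, 0, 1], ![0, 1, 1]), (![0, 0, 0], ![0, 1, 0])])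
    (by unfold Mt; decide) (by unfold Mt; decide)
  obtain ⟨p3, d1, d2, d3⟩ := comp a1 h1 h2 x1 y1
    (ga := mt [(![0, 1, 1], ![1, 1, 1]), (![0, 1, 0], ![0, 2, 0]), (![0, 0, 0], ![0, 0, 1])])
    (gb := mt [(![0, 1, 0], ![1, 1, 0]), (![0, 0, 1], ![0, 1, 1]), (![0, 0, 0], ![1, 0, 0])])
    (by unfold Mt; decide) (by unfold Mt; decide)
  have u1 := hU p1 b1 b2.unor
  obtain ⟨L1, e1, e2⟩ := b2.link u1 (x1.inj a1) (y1.inj a1) (Or.inl (mem_fray _ _))
    (nm y1 (by decide) (by decide)) (n := 3) (by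
      simp only [iterate_succ_apply, iterate_zero_apply]
      rw [b3 ![0, 2, 0] ![0, 1, 0] (by decide), b3 ![0, 1, 0] ![0, 0, 0] (by decide),
        b3 ![0, 0, 0] ![1, 0, 0] (by decide)])
  obtain ⟨L2, e3, e4⟩ := b2.link u1 (x2.inj a1) (y2.inj a1) (Or.inr (mem_fray _ _))
    (nm y2 (by decide) (by decide)) (n := 1) (b3 _ _ (by decide))
  obtain ⟨L3, e5, e6⟩ := c2.link (hU p2 c1 c2.unor) (x2.inj a1) (y1.inj a1) (Or.inr (mem_fray _ _))
    (nm y1 (by decide) (by decide)) (n := 1) (c3 _ _ (by decide))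
  obtain ⟨L4, e7, e8⟩ := d2.link (hU p3 d1 d2.unor) (x1.inj a1) (x2.inj a1) (Or.inl (mem_fray _ _))
    (nm x2 (by decide) (by decide)) (n := 2) (by
      simp only [iterate_succ_apply, iterate_zero_apply]
      rw [d3 ![0, 2, 0] ![0, 1, 0] (by decide), d3 ![0, 1, 0] ![1, 1, 0] (by decide)])
  have f1 := lab_unique e1 e5
  have f2 := lab_unique e2 e8
  have f3 := lab_unique e4 e6
  have f4 := lab_unique e4 e7
  rw [show L1 = 0 by linarith] at e1 e2
  rw [show L2 = 0 by linarith] at e3 e4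
  rw [neg_zero] at e2 e4
  refine ⟨a1, b2.sp a1 x1 x2 u1, fun t ht => ?_⟩
  have g1 : ∀ t ∈ S2, t ∉ S1 → t = ![0, 2, 0] ∨ t = ![1, 1, 0] := by decide
  have g2 : ∀ t ∈ S1, t ∉ S2 → t = ![1, 0, 0] ∨ t = ![1, 1, 1] := by decide
  rcases (a2 t).1 ht with ⟨-, a, b⟩ | ⟨-, a, b⟩
  · rcases g1 t a b with rfl | rfl
    exacts [e2, e4]
  · rcases g2 t a b with rfl | rfl
    exacts [e1, e3]

end EG

end Pool.Agent.Lib.MP_640444_pr
end

-- part Pool.Agent.Lib.MP_640444_pr.End3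
section

/-!
The endgame, given the patching statement.
-/

set_option autoImplicit false
open Filter Topology Finset Function
open scoped Classical

namespace Pool.Agent.Lib.MP_640444_pr

namespace EG

lemma Unor_symm {p q : Om} (h : Unor p q) : Unor q p :=
  Set.Finite.subset h fun _ hx hc => hx
    (hc.imp (fun c => ⟨c.1.symm, c.2.symm⟩) fun c => ⟨c.2.symm, c.1.symm⟩)

lemma flp_flp (F : Set V) (p : Om) : flp F (flp F p) = p :=
  Prod.ext (funext fun x => by by_cases h : x ∈ F <;> simp [flp, h])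
    (funext fun x => by by_cases h : x ∈ F <;> simp [flp, h])

lemma invar_flp {F : Set V} {p : Om} (h : Invar p F) : Invar (flp F p) F := fun x => by
  by_cases e : x ∈ F <;> simp [flp, e, (h x).1, (h x).2]

lemma exists_box (S : List V) : ∃ r, ∀ x ∈ S, x ∈ box r :=
  ((eventually_all_finite (List.finite_toSet S)).2 fun x _ => (eventually_all.2 fun i =>
    (eventually_ge_atTop (|x i|).toNat).mono fun r hr => by omega).mono fun _ h => mem_box.2 h).exists

lemma sum_fix {a : Cfg} {S : List V} (h : ∀ x, a x = x ↔ x ∈ S) (hS : S.Nodup) {r : ℕ}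
    (hr : ∀ x ∈ S, x ∈ box r) : (∑ x ∈ box r with a x = x, sgn x) = (S.map sgn).sum := by
  rw [← List.sum_toFinset _ hS]
  refine sum_congr (Finset.ext fun x => ?_) fun _ _ => rfl
  rw [mem_filter, List.mem_toFinset, h]
  exact ⟨fun c => c.2, fun c => ⟨hr x c, c⟩⟩

lemma close_of {s : Fin 3 → ℝ} {δ : ℝ} {K l : ℕ} {a a' : Cfg} (ha : ∀ x, Adj x (a x)) {S : List V}
    (h : ∀ x, a' x = a x ∨ (x ∈ S ∧ a' x = x)) (hc : Close s (δ / 2) K l a)
    (hl : (S.length : ℝ) ≤ δ / 2 * (l : ℝ) ^ 3) : Close s δ K l a' := fun z hz i => by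
  have h1 := hc z hz i
  have h2 : |dev s a' i (cell l z) - dev s a i (cell l z)| ≤ S.length := by
    rw [dev, dev, ← sum_sub_distrib]
    refine (abs_sum_le_sum_abs _ _).trans ((sum_le_sum (g := fun x => if x ∈ S.toFinset then 1 else 0)
      fun x _ => ?_).trans ?_)
    · rcases h x with e | ⟨e, e'⟩
      · rw [e, sub_self, abs_zero]
        split_ifs <;> norm_num
      · rw [if_pos (List.mem_toFinset.2 e), e', sub_sub_sub_cancel_right, ← Int.cast_sub, ← Int.cast_abs,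
          sub_self, zero_sub, abs_neg]
        exact_mod_cast (ha x).coord i
    · rw [sum_ite_mem, sum_const, nsmul_eq_mul, mul_one]
      exact_mod_cast (card_le_card inter_subset_right).trans (List.toFinset_card_le S)
  have h3 := abs_sub_abs_le_abs_sub (dev s a' i (cell l z)) (dev s a i (cell l z))
  linarith

lemma cut {p : Om} (hp : Til p) {x1 x2 : V} (e1 : Ev x1) (e2 : Ev x2) (i1 : Inj p x1)
    (i2 : Inj p x2) (h12 : ∀ k : ℕ, (stp p)^[k] x1 ≠ x2 ∧ (stp p)^[k] x2 ≠ x1) :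
    ∃ q, NS q ∧ (∀ x, q.1 x = x ↔ x ∈ [p.1 x1, p.1 x2]) ∧ (∀ x, q.2 x = x ↔ x ∈ [x1, x2]) ∧
      Cp q p (bray p x1 ∪ bray p x2) ∧ fray q x1 = bray p x1 ∧ fray q x2 = bray p x2 ∧
      p.1 x1 ∉ bray p x1 ∪ bray p x2 ∧
      (∀ x, q.1 x = (flp (bray p x1 ∪ bray p x2) p).1 x ∨ q.1 x = x) ∧
      ∀ x, q.2 x = (flp (bray p x1 ∪ bray p x2) p).2 x ∨ q.2 x = x := by
  set F := bray p x1 ∪ bray p x2
  have hn : NP p := ⟨hp.1.nt, hp.2.nt⟩
  have h0 : ∀ x, stp p (stp p.swap x) = x := fun x => hn.swap.undo (by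
    unfold stp
    split_ifs
    exacts [(hp.2 x).1.ne, (hp.1 x).1.ne])
  have h1 : ∀ k x, (stp p)^[k] ((stp p.swap)^[k] x) = x := fun k => LeftInverse.iterate h0 k
  have o1 : ¬ Ev (p.1 x1) := fun c => (hp.1 x1).1.ev.1 c e1
  have o2 : ¬ Ev (p.1 x2) := fun c => (hp.1 x2).1.ev.1 c e2
  have h2 : ∀ {x y}, Ev x → p.1 x ∈ bray p y → ∃ k, (stp p)^[k + 1] x = y := fun {x y} e ⟨k, hk⟩ =>
    ⟨k, by rw [iterate_succ_apply, stp, if_pos e, ← hk]; exact h1 k y⟩
  have n1 : p.1 x1 ∉ F := by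
    rintro (c | c) <;> obtain ⟨k, hk⟩ := h2 e1 c
    exacts [Nat.succ_ne_zero k (i1 (a₂ := 0) hk), (h12 _).1 hk]
  have n2 : p.1 x2 ∉ F := by
    rintro (c | c) <;> obtain ⟨k, hk⟩ := h2 e2 c
    exacts [(h12 _).2 hk, Nat.succ_ne_zero k (i2 (a₂ := 0) hk)]
  have m1 : x1 ∈ F := Or.inl ⟨0, rfl⟩
  have m2 : x2 ∈ F := Or.inr ⟨0, rfl⟩
  let E : V → Prop := fun x => (x = x1 ∨ x = x2) ∨ x = p.1 x1 ∨ x = p.1 x2
  have hE : ∀ x, E x → E (p.1 x) := by
    rintro x ((rfl | rfl) | rfl | rfl) <;> simp [E, (hp.1 _).2]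
  let a : Cfg := fun x => if E x then x else p.1 x
  have ha : NT a := fun x => by
    by_cases e : E x
    · simp [a, e]
    · have : ¬ E (p.1 x) := fun c => e ((hp.1 x).2 ▸ hE _ c)
      simp [a, e, this, hp.1 x]
  have ha' : ∀ x, a x = x ↔ E x := fun x => by
    by_cases e : E x <;> simp [a, e, (hp.1 x).1.ne]
  have hq : NP (a, p.2) := ⟨ha, hp.2.nt⟩
  have f1 : ∀ x ∈ F, stp p.swap x ∈ F := by
    rintro _ (⟨k, rfl⟩ | ⟨k, rfl⟩)
    exacts [Or.inl ⟨k + 1, iterate_succ_apply' _ _ _⟩, Or.inr ⟨k + 1, iterate_succ_apply' _ _ _⟩]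
  have f2 : ∀ x ∈ F, ¬ (x = x1 ∨ x = x2) → stp p x ∈ F := by
    rintro _ (⟨_ | k, rfl⟩ | ⟨_ | k, rfl⟩) c
    exacts [(c (Or.inl rfl)).elim, Or.inl ⟨k, by simp only [iterate_succ_apply', h0]⟩,
      (c (Or.inr rfl)).elim, Or.inr ⟨k, by simp only [iterate_succ_apply', h0]⟩]
  have f3 : ∀ x, ¬ Ev x → ¬ (x = x1 ∨ x = x2) := by
    rintro x e (rfl | rfl)
    exacts [e e1, e e2]
  have hF : Invar (a, p.2) F := invar_of hq (fun x hx => by
      have := f2 x hx
      unfold stp at this ⊢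
      by_cases e : Ev x
      · by_cases c : E x
        · simpa [a, e, c] using hx
        · simpa [a, e, c] using this fun d => c (Or.inl d)
      · simpa [e] using this (f3 x e)) fun x hx => by
    have := f1 x hx
    unfold stp at this ⊢
    by_cases e : Ev x
    · simpa [e] using this
    · by_cases c : E x
      · simpa [a, e, c] using hx
      · simpa [a, e, c] using this
  have g1 : ∀ x, (flp F (a, p.2)).1 x = x ↔ x ∈ [p.1 x1, p.1 x2] := fun x => by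
    by_cases e : x ∈ F
    · have : ¬ (x = p.1 x1 ∨ x = p.1 x2) := by rintro (rfl | rfl); exacts [n1 e, n2 e]
      simpa [flp, e, (hp.2 x).1.ne] using this
    · have : ¬ (x = x1 ∨ x = x2) := by rintro (rfl | rfl); exacts [e m1, e m2]
      simp [flp, e, ha', E, this]
  have g2 : ∀ x, (flp F (a, p.2)).2 x = x ↔ x ∈ [x1, x2] := fun x => by
    by_cases e : x ∈ F
    · have : ¬ (x = p.1 x1 ∨ x = p.1 x2) := by rintro (rfl | rfl); exacts [n1 e, n2 e]
      simp [flp, e, ha', E, this]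
    · have : ¬ (x = x1 ∨ x = x2) := by rintro (rfl | rfl); exacts [e m1, e m2]
      simpa [flp, e, (hp.2 x).1.ne] using this
  have g3 : ∀ x ∈ F, stp (flp F (a, p.2)) x = stp p.swap x := fun x hx => by
    unfold stp
    by_cases e : Ev x
    · simp [flp, e, hx]
    · have : ¬ E x := by
        rintro (c | rfl | rfl)
        exacts [f3 x e c, n1 hx, n2 hx]
      simp [flp, e, hx, a, this]
  have g4 : ∀ x, a x = p.1 x ∨ a x = x := fun x => by by_cases e : E x <;> simp [a, e]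
  refine ⟨flp F (a, p.2), ⟨np_flp hq hF, fun x c => ?_⟩, g1, g2, ⟨invar_flp hF,
    ((List.finite_toSet _).union (List.finite_toSet _)).subset fun x hx =>
      hx.imp (g1 x).1 (g2 x).1, fun x => ?_, fun x => ?_⟩,
    congrArg _ (funext (orbit_eq fun k => g3 _ (Or.inl ⟨k, rfl⟩))),
    congrArg _ (funext (orbit_eq fun k => g3 _ (Or.inr ⟨k, rfl⟩))), n1, fun x => ?_, fun x => ?_⟩
  · unfold stp at c
    split_ifs at c with e
    · rcases List.mem_pair.1 ((g1 x).1 c) with rfl | rfl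
      exacts [(o1 e).elim, (o2 e).elim]
    · exact (f3 x e (List.mem_pair.1 ((g2 x).1 c))).elim
  · rw [flp_flp]
    exact fun c => ((g4 x).resolve_right c).symm
  · rw [flp_flp]
    exact fun _ => rfl
  · by_cases e : x ∈ F <;> simp [flp, e, g4 x]
  · by_cases e : x ∈ F <;> simp [flp, e, g4 x]

theorem endgame_of (s : Fin 3 → ℝ)
    (hP : ∃ δ : ℝ, 0 < δ ∧ ∃ K l0 : ℕ, 0 < K ∧ ∀ l : ℕ, l0 ≤ l → ∀ (r : ℕ) (a a' : Cfg), NT a → NT a' →
      2 * r ≤ (2 - 1) * (K * l) →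
      (∀ x, a x = x → x ∈ box r) → (∀ x, a' x = x → x ∈ box r) →
      (∑ x ∈ box r with a x = x, sgn x) = (∑ x ∈ box r with a' x = x, sgn x) →
      Close s δ K l a → (Close s δ K l a' ∨ (r : ℝ) ≤ δ * l) →
      ∃ σ, NT σ ∧ (∀ x ∈ box r, σ x = a' x) ∧ (∀ x, x ∉ box (K * l) → σ x = a x) ∧
        ∀ x, x ∉ box r → σ x ≠ x)
    (D : Finset (V × V)) (w : V) (p : Om)
    (hp : Til p) (hU : ∀ p', Til p' → Unor p p' → Pure D w p') (x1 x2 : V) (e1 : Ev x1)
    (e2 : Ev x2) (i1 : Function.Injective fun k : ℕ => (stp p)^[k] x1)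
    (i2 : Function.Injective fun k : ℕ => (stp p)^[k] x2)
    (h12 : ∀ k : ℕ, (stp p)^[k] x1 ≠ x2 ∧ (stp p)^[k] x2 ≠ x1)
    (hC : ∀ δ : ℝ, 0 < δ → ∀ K l0 : ℕ, ∃ l, l0 ≤ l ∧
      Close s δ K l (flp (bray p x1 ∪ bray p x2) p).1 ∧
      Close s δ K l (flp (bray p x1 ∪ bray p x2) p).2) :
    OutLab D w p x1 0 := by
  obtain ⟨q, q1, q2, q3, q4, q5, q6, q7, q8, q9⟩ := cut hp e1 e2 i1 i2 h12
  have o1 : ¬ Ev (p.1 x1) := fun c => (hp.1 x1).1.ev.1 c e1
  have o2 : ¬ Ev (p.1 x2) := fun c => (hp.1 x2).1.ev.1 c e2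
  have n1 : x1 ≠ x2 := (h12 0).1
  have n2 : p.1 x1 ≠ p.1 x2 := fun c => n1 (by rw [← (hp.1 x1).2, c, (hp.1 x2).2])
  have s1 : ∀ x ∈ [x1, x2], Ev x → Src q x := fun x hx e => ⟨(if_pos e).trans ((q3 x).2 hx),
    fun c => by
      rcases List.mem_pair.1 ((q2 x).1 ((if_pos e).symm.trans c)) with rfl | rfl
      exacts [o1 e, o2 e]⟩
  have s2 : Src q (p.1 x1) := ⟨(if_neg o1).trans ((q2 _).2 (by simp)), fun c => by
    rcases List.mem_pair.1 ((q3 _).1 ((if_neg o1).symm.trans c)) with d | d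
    exacts [o1 (by rwa [d]), o1 (by rwa [d])]⟩
  have u := hU p hp (unor_refl p)
  have sp : SP D w q := Cp.sp q1 (s1 x1 (by simp) e1) (s1 x2 (by simp) e2) (by rwa [q5, q6]) u
  obtain ⟨β, b1, -⟩ := u x1
  by_contra b2
  have b3 : OutLab D w q (p.1 x1) β := (q4.lab (s2.inj q1) q7).1 (by
    have := lab_succ.2 b1
    rwa [stp, if_pos e1] at this)
  obtain ⟨δ, hδ, K, l0, hK, H⟩ := hP
  obtain ⟨r, hr⟩ := exists_box ([p.1 x1, p.1 x2] ++ [x1, x2] ++ S1 ++ S2)
  simp only [List.mem_append, or_imp, forall_and] at hr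
  obtain ⟨⟨⟨r1, r2⟩, r3⟩, r4⟩ := hr
  obtain ⟨m, hm⟩ := exists_nat_ge ((r + 4) / δ)
  obtain ⟨l, c1, c2, c3⟩ := hC (δ / 2) (half_pos hδ) K (l0 + 2 * r + m + 1)
  have c4 : (r : ℝ) + 4 ≤ δ * l := by
    rw [div_le_iff₀ hδ] at hm
    have : (m : ℝ) ≤ l := by exact_mod_cast (by omega : m ≤ l)
    nlinarith
  have c5 : ((2 : ℕ) : ℝ) ≤ δ / 2 * (l : ℝ) ^ 3 := by
    have h1 : (1 : ℝ) ≤ l := by exact_mod_cast (by omega : 1 ≤ l)
    have h2 : (l : ℝ) ≤ (l : ℝ) ^ 3 := le_self_pow₀ h1 (by norm_num)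
    have h3 : (0 : ℝ) ≤ r := Nat.cast_nonneg r
    push_cast
    nlinarith
  have c6 : 2 * r ≤ (2 - 1) * (K * l) := by
    have := Nat.mul_le_mul_right l hK
    omega
  have tl : ∀ F, (∀ x, Adj x ((flp F p).1 x)) ∧ ∀ x, Adj x ((flp F p).2 x) := fun F => by
    refine ⟨fun x => ?_, fun x => ?_⟩ <;> by_cases e : x ∈ F <;> simp [flp, e, hp.1 x, hp.2 x]
  obtain ⟨a1, d1, d2⟩ := ref1
  obtain ⟨a2, d3, d4⟩ := ref2
  obtain ⟨σ1, t1, t2, t3, t4⟩ := H l (by omega) r q.1 a1 q1.1.1 d1 c6 (fun x c => r1 x ((q2 x).1 c))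
    (fun x c => r3 x ((d2 x).1 c)) (by
      rw [sum_fix q2 (by simpa using n2) r1, sum_fix d2 (by decide) r3]
      simp [S1, sgn, o1, o2, ev_iff])
    (close_of (tl _).1 (fun x => (q8 x).imp_right fun c => ⟨(q2 x).1 c, c⟩) c2 c5) (Or.inr (by linarith))
  obtain ⟨σ2, t5, t6, t7, t8⟩ := H l (by omega) r q.2 a2 q1.1.2 d3 c6 (fun x c => r2 x ((q3 x).1 c))
    (fun x c => r4 x ((d4 x).1 c)) (by
      rw [sum_fix q3 (by simpa using n1) r2, sum_fix d4 (by decide) r4]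
      simp [S2, sgn, e1, e2, ev_iff])
    (close_of (tl _).2 (fun x => (q9 x).imp_right fun c => ⟨(q3 x).1 c, c⟩) c3 c5) (Or.inr (by linarith))
  have fm : FinMod q (σ1, σ2) := (box (K * l)).finite_toSet.subset fun x hx => by_contra fun c =>
    hx.elim (fun d => d (t3 x c)) fun d => d (t7 x c)
  obtain ⟨g1, g2, g3⟩ := gadget (D := D) (w := w) (q := (σ1, σ2)) ⟨t1, t5⟩
    (fun x => ⟨fun c => (d2 x).1 ((t2 x (by_contra fun d => t4 x d c)).symm.trans c),
      fun c => (t2 x (r3 x c)).trans ((d2 x).2 c)⟩)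
    (fun x => ⟨fun c => (d4 x).1 ((t6 x (by_contra fun d => t8 x d c)).symm.trans c),
      fun c => (t6 x (r4 x c)).trans ((d4 x).2 c)⟩)
    fun p' a b => hU p' a (Unor_trans (Unor_symm q4.unor) (Unor_trans (unor_fin fm) b))
  exact index q1 g1 fm sp g2 s2 b3 fun t ht c => b2 (lab_unique c (g3 t ht) ▸ b1)

end EG

end Pool.Agent.Lib.MP_640444_pr
end
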