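import Pool.Agent.Lib.MP_640444_pr.MeanErg

-- part Pool.Agent.Lib.MP_640444_pr.Swap
section

/-!
Consequences of the invariance of a measure under local exchanges of patterns:
quasi invariance under finite modifications and symmetry of finite components.
-/

set_option autoImplicit false
open MeasureTheory Filter Finset
open scoped Classical Topology

namespace Pool.Agent.Lib.MP_640444_pr

def SwpInv (ν : Measure Om) : Prop :=
  ∀ Λ S : Finset V, Λ ⊆ S → ∀ y y' : Om, Swp Λ y y' →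
    (∀ x ∈ S, x ∉ Λ → y.1 x = y'.1 x ∧ y.2 x = y'.2 x) → ν (cyl S y) = ν (cyl S y')

/-- override on `Λ` -/
noncomputable def ovr (Λ : Finset V) (y p : Om) : Om :=
  (fun x => if x ∈ Λ then y.1 x else p.1 x, fun x => if x ∈ Λ then y.2 x else p.2 x)

lemma measurable_ovr (Λ : Finset V) (y : Om) : Measurable (ovr Λ y) := by
  refine Measurable.prodMk (measurable_pi_lambda _ fun x => ?_)
    (measurable_pi_lambda _ fun x => ?_)
  · by_cases hx : x ∈ Λ
    · simp [hx]
    · simp only [hx, if_false]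
      exact (measurable_pi_apply x).comp measurable_fst
  · by_cases hx : x ∈ Λ
    · simp [hx]
    · simp only [hx, if_false]
      exact (measurable_pi_apply x).comp measurable_snd

lemma Adm.congr {Λ : Finset V} {τ τ' : Cfg} (h : Adm Λ τ) (e : ∀ x ∈ Λ, τ' x = τ x) :
    Adm Λ τ' := by
  intro x hx
  rw [e x hx]
  exact ⟨(h x hx).1, fun h' => by rw [e _ h']; exact (h x hx).2 h'⟩

lemma SameBd.congr {Λ : Finset V} {τ₁ τ₂ τ₁' τ₂' : Cfg} (h : SameBd Λ τ₁ τ₂)
    (e₁ : ∀ x ∈ Λ, τ₁' x = τ₁ x) (e₂ : ∀ x ∈ Λ, τ₂' x = τ₂ x) : SameBd Λ τ₁' τ₂' := by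
  intro x hx
  rw [e₁ x hx, e₂ x hx]
  exact h x hx

lemma Swp.congr {Λ : Finset V} {y y' z z' : Om} (h : Swp Λ y y') (e : z ∈ cyl Λ y)
    (e' : z' ∈ cyl Λ y') : Swp Λ z z' := by
  obtain ⟨a1, a2, a3, a4, a5, a6⟩ := h
  exact ⟨a1.congr fun x hx => (e x hx).1, a2.congr fun x hx => (e x hx).2,
    a3.congr fun x hx => (e' x hx).1, a4.congr fun x hx => (e' x hx).2,
    a5.congr (fun x hx => (e x hx).1) fun x hx => (e' x hx).1,
    a6.congr (fun x hx => (e x hx).2) fun x hx => (e' x hx).2⟩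

lemma ovr_mem_cyl (Λ : Finset V) (y p : Om) : ovr Λ y p ∈ cyl Λ y := by
  intro x hx; simp [ovr, hx]

lemma swap_meas {ν : Measure Om} [IsFiniteMeasure ν] (hν : SwpInv ν) {Λ : Finset V} {y y' : Om}
    (h : Swp Λ y y') {A : Set Om} (hA : MeasurableSet A) :
    ν (ovr Λ y' ⁻¹' A ∩ cyl Λ y) = ν (A ∩ cyl Λ y') := by
  have key : (ν.restrict (cyl Λ y)).map (ovr Λ y') = ν.restrict (cyl Λ y') := by
    refine ext_cyl _ _ fun S z => ?_
    rw [Measure.map_apply (measurable_ovr _ _) (mset_cyl _ _),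
      Measure.restrict_apply (measurable_ovr _ _ (mset_cyl _ _)),
      Measure.restrict_apply (mset_cyl _ _)]
    by_cases hz : ∀ x ∈ S, x ∈ Λ → y'.1 x = z.1 x ∧ y'.2 x = z.2 x
    · have e1 : ovr Λ y' ⁻¹' cyl S z ∩ cyl Λ y = cyl (S ∪ Λ) (ovr Λ y z) := by
        ext p
        simp only [cyl, ovr, Set.mem_inter_iff, Set.mem_preimage, Set.mem_ofPred_eq, mem_union]
        constructor
        · rintro ⟨h1, h2⟩ x hx
          by_cases hxΛ : x ∈ Λ
          · simpa [hxΛ] using h2 x hxΛ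
          · simpa [hxΛ] using h1 x (hx.resolve_right hxΛ)
        · intro h1
          refine ⟨fun x hx => ?_, fun x hx => by simpa [hx] using h1 x (Or.inr hx)⟩
          by_cases hxΛ : x ∈ Λ
          · simpa [hxΛ] using hz x hx hxΛ
          · simpa [hxΛ] using h1 x (Or.inl hx)
      have e2 : cyl S z ∩ cyl Λ y' = cyl (S ∪ Λ) (ovr Λ y' z) := by
        ext p
        simp only [cyl, ovr, Set.mem_inter_iff, Set.mem_ofPred_eq, mem_union]
        constructor
        · rintro ⟨h1, h2⟩ x hx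
          by_cases hxΛ : x ∈ Λ
          · simpa [hxΛ] using h2 x hxΛ
          · simpa [hxΛ] using h1 x (hx.resolve_right hxΛ)
        · intro h1
          refine ⟨fun x hx => ?_, fun x hx => by simpa [hx] using h1 x (Or.inr hx)⟩
          by_cases hxΛ : x ∈ Λ
          · have := h1 x (Or.inl hx)
            simp only [hxΛ, if_true] at this
            rw [this.1, this.2]; exact hz x hx hxΛ
          · simpa [hxΛ] using h1 x (Or.inl hx)
      rw [e1, e2]
      refine hν Λ _ subset_union_right _ _ (h.congr (ovr_mem_cyl _ _ _) (ovr_mem_cyl _ _ _)) ?_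
      intro x _ hx
      simp [ovr, hx]
    · have e1 : ovr Λ y' ⁻¹' cyl S z ∩ cyl Λ y = ∅ := by
        refine Set.eq_empty_of_forall_notMem fun p hp => hz fun x hx hxΛ => ?_
        simpa [ovr, hxΛ] using hp.1 x hx
      have e2 : cyl S z ∩ cyl Λ y' = ∅ := by
        refine Set.eq_empty_of_forall_notMem fun p hp => hz fun x hx hxΛ => ?_
        rw [← (hp.2 x hxΛ).1, ← (hp.2 x hxΛ).2]; exact hp.1 x hx
      rw [e1, e2]
  have := congrArg (fun μ : Measure Om => μ A) key
  rwa [Measure.map_apply (measurable_ovr _ _) hA, Measure.restrict_apply (measurable_ovr _ _ hA),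
    Measure.restrict_apply hA] at this

/-- extension of a finite pattern -/
noncomputable def extp (Λ : Finset V) (y : Λ → V × V) : Om :=
  (fun x => if h : x ∈ Λ then (y ⟨x, h⟩).1 else x, fun x => if h : x ∈ Λ then (y ⟨x, h⟩).2 else x)

lemma mem_cyl_extp (Λ : Finset V) (p : Om) : p ∈ cyl Λ (extp Λ fun x => (p.1 x, p.2 x)) := by
  intro x hx; simp [extp, hx]

lemma cyl_symm {Λ : Finset V} {p q : Om} (h : p ∈ cyl Λ q) : q ∈ cyl Λ p :=
  fun x hx => ⟨(h x hx).1.symm, (h x hx).2.symm⟩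

lemma IsTiling.adm {a : Cfg} (h : IsTiling a) (Λ : Finset V) : Adm Λ a :=
  fun x _ => ⟨(h x).1, fun _ => (h x).2⟩

lemma sameBd_of_eq {a a' : Cfg} (h : IsTiling a) (h' : IsTiling a') {Λ : Finset V}
    (e : ∀ x, x ∉ Λ → a' x = a x) : SameBd Λ a a' := by
  rintro x _ (hx | hx)
  · have := e _ hx
    rw [(h x).2] at this
    conv_rhs => rw [← this, (h' _).2]
  · have := e _ hx
    rw [(h' x).2] at this
    conv_lhs => rw [this, (h _).2]

lemma ae_finMod {ν : Measure Om} [IsFiniteMeasure ν] (hν : SwpInv ν) {N : Set Om}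
    (hN : MeasurableSet N) (h0 : ν N = 0) :
    ∀ᵐ p ∂ν, Til p → ∀ p', Til p' → FinMod p p' → p' ∉ N := by
  have : ∀ᵐ p ∂ν, ∀ (Λ : Finset V) (y y' : Λ → V × V), Swp Λ (extp Λ y) (extp Λ y') →
      p ∉ ovr Λ (extp Λ y') ⁻¹' N ∩ cyl Λ (extp Λ y) := by
    simp only [ae_all_iff]
    intro Λ y y' h
    refine measure_eq_zero_iff_ae_notMem.1 ?_
    rw [swap_meas hν h hN]
    exact measure_mono_null Set.inter_subset_left h0
  filter_upwards [this] with p hp ht p' ht' hf hmem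
  let Λ := hf.toFinset
  have hout : ∀ x, x ∉ Λ → p'.1 x = p.1 x ∧ p'.2 x = p.2 x := by
    intro x hx
    simpa [Λ, not_or] using hx
  have hs : Swp Λ p p' := ⟨ht.1.adm Λ, ht.2.adm Λ, ht'.1.adm Λ, ht'.2.adm Λ,
    sameBd_of_eq ht.1 ht'.1 fun x hx => (hout x hx).1,
    sameBd_of_eq ht.2 ht'.2 fun x hx => (hout x hx).2⟩
  refine hp Λ _ _ (hs.congr (cyl_symm (mem_cyl_extp Λ p)) (cyl_symm (mem_cyl_extp Λ p')))
    ⟨?_, mem_cyl_extp Λ p⟩
  have : ovr Λ (extp Λ fun x => (p'.1 x, p'.2 x)) p = p' := by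
    refine Prod.ext (funext fun x => ?_) (funext fun x => ?_)
    · by_cases hx : x ∈ Λ
      · simp [ovr, extp, hx]
      · simp [ovr, hx, (hout x hx).1]
    · by_cases hx : x ∈ Λ
      · simp [ovr, extp, hx]
      · simp [ovr, hx, (hout x hx).2]
  rw [Set.mem_preimage, this]
  exact hmem

section loops

/-- `G` is closed under both maps -/
def Cls (p : Om) (G : Finset V) : Prop := ∀ x ∈ G, p.1 x ∈ G ∧ p.2 x ∈ G

/-- `Λ` is the least closed set containing the origin -/
def Loop (Λ : Finset V) : Set Om :=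
  {p | (0 : V) ∈ Λ ∧ Cls p Λ ∧ ∀ G ∈ Λ.powerset, (0 : V) ∈ G → Cls p G → Λ ⊆ G}

lemma cls_flp (F : Set V) (p : Om) (G : Finset V) : Cls (flp F p) G ↔ Cls p G := by
  refine forall₂_congr fun x _ => ?_
  simp only [flp]
  split_ifs
  · exact and_comm
  · rfl

lemma loop_flp (F : Set V) (p : Om) (Λ : Finset V) : flp F p ∈ Loop Λ ↔ p ∈ Loop Λ := by
  simp only [Loop, Set.mem_ofPred_eq, cls_flp]

lemma mset_cls (G : Finset V) : MeasurableSet {p : Om | Cls p G} := by
  have : {p : Om | Cls p G} = ⋂ x ∈ G, ({p : Om | p.1 x ∈ G} ∩ {p : Om | p.2 x ∈ G}) := by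
    ext p; simp [Cls]
  rw [this]
  refine MeasurableSet.biInter G.countable_toSet fun x _ => MeasurableSet.inter ?_ ?_
  · exact mset_prop ((measurable_pi_apply x).comp measurable_fst) (· ∈ G)
  · exact mset_prop ((measurable_pi_apply x).comp measurable_snd) (· ∈ G)

lemma mset_loop (Λ : Finset V) : MeasurableSet (Loop Λ) := by
  have : Loop Λ = {_p : Om | (0 : V) ∈ Λ} ∩ ({p : Om | Cls p Λ} ∩
      ⋂ G ∈ Λ.powerset, ⋂ _ : (0 : V) ∈ G, ⋂ _ : ¬ Λ ⊆ G, {p : Om | Cls p G}ᶜ) := by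
    ext p
    simp only [Loop, Set.mem_ofPred_eq, Set.mem_inter_iff, Set.mem_iInter, Set.mem_compl_iff]
    refine and_congr_right fun _ => and_congr_right fun _ => forall₃_congr fun G _ _ => ?_
    exact not_imp_not.symm
  rw [this]
  refine (MeasurableSet.const _).inter ((mset_cls Λ).inter ?_)
  exact MeasurableSet.biInter Λ.powerset.countable_toSet fun G _ =>
    MeasurableSet.iInter fun _ => MeasurableSet.iInter fun _ => (mset_cls G).compl

lemma loop_disjoint : Pairwise (Function.onFun Disjoint Loop) := by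
  intro Λ Λ' hne
  refine Set.disjoint_left.2 fun p h h' => hne ?_
  have hc : Cls p (Λ ∩ Λ') := fun x hx =>
    ⟨mem_inter.2 ⟨(h.2.1 x (mem_inter.1 hx).1).1, (h'.2.1 x (mem_inter.1 hx).2).1⟩,
      mem_inter.2 ⟨(h.2.1 x (mem_inter.1 hx).1).2, (h'.2.1 x (mem_inter.1 hx).2).2⟩⟩
  have h0 : (0 : V) ∈ Λ ∩ Λ' := mem_inter.2 ⟨h.1, h'.1⟩
  exact Subset.antisymm
    ((h.2.2 _ (mem_powerset.2 inter_subset_left) h0 hc).trans inter_subset_right)
    ((h'.2.2 _ (mem_powerset.2 inter_subset_right) h0 hc).trans inter_subset_left)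

lemma mem_loop_iff {p : Om} (hp : Til p) : (∃ Λ, p ∈ Loop Λ) ↔ ¬ Inf p 0 := by
  rw [inf_iff_infinite, Set.not_infinite]
  constructor
  · rintro ⟨Λ, h⟩
    exact Λ.finite_toSet.subset fun y hy => closed_cm hp (G := (Λ : Set V)) h.2.1 hy h.1
  · intro h
    refine ⟨h.toFinset, by simpa using Cm.refl p 0, fun x hx => ?_, fun G _ h0 hG y hy => ?_⟩
    · simp only [Set.Finite.mem_toFinset, Set.mem_ofPred_eq] at hx ⊢
      exact ⟨hx.trans (cm_fst hp x), hx.trans (cm_snd hp x)⟩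
    · simp only [Set.Finite.mem_toFinset, Set.mem_ofPred_eq] at hy
      exact closed_cm hp (G := (G : Set V)) hG hy h0

lemma loop_le {ν : Measure Om} [IsFiniteMeasure ν] (hν : SwpInv ν) (hT : ∀ᵐ p ∂ν, Til p)
    (Λ : Finset V) {A B : Set Om} (hB : MeasurableSet B)
    (hAB : ∀ p ∈ A, p ∈ Loop Λ → flp Λ p ∈ B) : ν (A ∩ Loop Λ) ≤ ν (B ∩ Loop Λ) := by
  let I := {y : Λ → V × V // Swp Λ (extp Λ y) (extp Λ y).swap}
  have hBL := hB.inter (mset_loop Λ)
  have h1 : (A ∩ Loop Λ : Set Om) ≤ᵐ[ν]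
      (⋃ y : I, ovr Λ (extp Λ y.1).swap ⁻¹' (B ∩ Loop Λ) ∩ cyl Λ (extp Λ y.1) : Set Om) := by
    filter_upwards [hT] with p hp hm
    have hc := mem_cyl_extp Λ p
    have hs : Swp Λ p p.swap := ⟨hp.1.adm Λ, hp.2.adm Λ, hp.2.adm Λ, hp.1.adm Λ,
      fun x hx h => absurd h (by simpa [not_or] using hm.2.2.1 x hx),
      fun x hx h => absurd h (by simpa [not_or] using (hm.2.2.1 x hx).symm)⟩
    refine Set.mem_iUnion.2 ⟨⟨_, hs.congr (cyl_symm hc) fun x hx => ?_⟩, ?_, hc⟩
    · exact ⟨(hc x hx).2.symm, (hc x hx).1.symm⟩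
    · have : ovr Λ (extp Λ fun x => (p.1 x, p.2 x)).swap p = flp Λ p := by
        refine Prod.ext (funext fun x => ?_) (funext fun x => ?_) <;>
        · by_cases hx : x ∈ Λ
          · simp [ovr, extp, flp, hx]
          · simp [ovr, flp, hx]
      rw [Set.mem_preimage, this]
      exact ⟨hAB p hm.1 hm.2, (loop_flp _ _ _).2 hm.2⟩
  refine (measure_mono_ae h1).trans ((measure_iUnion_le _).trans ?_)
  rw [tsum_congr fun y : I => swap_meas hν y.2 hBL, ← measure_iUnion]
  · exact measure_mono (Set.iUnion_subset fun y => Set.inter_subset_left)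
  · intro y y' hne
    refine Set.disjoint_left.2 fun p h h' => hne (Subtype.ext (funext fun x => ?_))
    have a := h.2 x x.2
    have b := h'.2 x x.2
    simp only [extp, Prod.fst_swap, Prod.snd_swap, x.2, dif_pos] at a b
    exact Prod.ext (a.2.symm.trans b.2) (a.1.symm.trans b.1)
  · exact fun y => hBL.inter (mset_cyl _ _)

lemma gv_flp (D : Finset (V × V)) (w : V) (F : Set V) (p : Om) (x : V) :
    gv D w (flp F p) x = if x ∈ F then -gv D w p x else gv D w p x := by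
  have : dbl D (flp F p) x ↔ dbl D p x := by
    refine forall₂_congr fun uw _ => ?_
    simp only [flp]
    split_ifs
    · exact and_comm
    · rfl
  unfold gv
  rw [this]
  simp only [flp]
  split_ifs <;> simp_all

/-- finite components are symmetric -/
lemma loops_symm {ν : Measure Om} [IsFiniteMeasure ν] (hν : SwpInv ν) (hT : ∀ᵐ p ∂ν, Til p)
    (D : Finset (V × V)) (w : V) :
    ν ({p | gv D w p 0 = 1} ∩ ⋃ Λ, Loop Λ) = ν ({p | gv D w p 0 = -1} ∩ ⋃ Λ, Loop Λ) := by
  have hm : ∀ c : ℝ, MeasurableSet {p | gv D w p 0 = c} := fun c =>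
    measurable_gv D w 0 (measurableSet_singleton c)
  have e : ∀ c : ℝ, ν ({p | gv D w p 0 = c} ∩ ⋃ Λ, Loop Λ) =
      ∑' Λ, ν ({p | gv D w p 0 = c} ∩ Loop Λ) := by
    intro c
    rw [Set.inter_iUnion, measure_iUnion]
    · intro Λ Λ' hne
      exact (loop_disjoint hne).mono Set.inter_subset_right Set.inter_subset_right
    · exact fun Λ => (hm c).inter (mset_loop Λ)
  rw [e, e]
  refine tsum_congr fun Λ => le_antisymm ?_ ?_
  · refine loop_le hν hT Λ (hm _) fun p hp hl => ?_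
    have : (0 : V) ∈ (Λ : Set V) := hl.1
    simp only [Set.mem_ofPred_eq, gv_flp, this, if_true] at hp ⊢
    rw [hp]
  · refine loop_le hν hT Λ (hm _) fun p hp hl => ?_
    have : (0 : V) ∈ (Λ : Set V) := hl.1
    simp only [Set.mem_ofPred_eq, gv_flp, this, if_true] at hp ⊢
    rw [hp, neg_neg]

end loops

end Pool.Agent.Lib.MP_640444_pr
end

-- part Pool.Agent.Lib.MP_640444_pr.Ent1
section

/-!
Finite patterns, window exchanges and the deterministic part of the entropy comparison.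
-/

set_option autoImplicit false
open MeasureTheory Filter Topology Finset
open scoped Classical

namespace Pool.Agent.Lib.MP_640444_pr.Ent

/-- averaging over commuting exchanges -/
lemma sum_prod_le {α ι : Type*} (G : Finset α) (Z : Finset ι) (io : ι → α → α) (g : ι → α → ℝ)
    (hG : ∀ z ∈ Z, ∀ x ∈ G, io z x ∈ G) (hi : ∀ z ∈ Z, ∀ x, io z (io z x) = x)
    (h0 : ∀ z x, 0 ≤ g z x) (h2 : ∀ z ∈ Z, ∀ x, g z x + g z (io z x) ≤ 2)
    (hc : ∀ z ∈ Z, ∀ z' ∈ Z, z ≠ z' → ∀ x, g z' (io z x) = g z' x) :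
    ∑ x ∈ G, ∏ z ∈ Z, g z x ≤ G.card := by
  induction Z using Finset.induction_on with
  | empty => simp
  | insert z Z hz ih =>
    have hm := mem_insert_self z Z
    have ih' := ih (fun a ha => hG a (mem_insert_of_mem ha)) (fun a ha => hi a (mem_insert_of_mem ha))
      (fun a ha => h2 a (mem_insert_of_mem ha))
      (fun a ha b hb => hc a (mem_insert_of_mem ha) b (mem_insert_of_mem hb))
    simp only [prod_insert hz]
    have hH : ∀ x, ∏ z' ∈ Z, g z' (io z x) = ∏ z' ∈ Z, g z' x := fun x =>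
      prod_congr rfl fun z' hz' => hc z hm z' (mem_insert_of_mem hz') (fun e => hz (e ▸ hz')) x
    have e1 : ∑ x ∈ G, g z x * ∏ z' ∈ Z, g z' x =
        ∑ x ∈ G, g z (io z x) * ∏ z' ∈ Z, g z' x := by
      refine sum_nbij' (io z) (io z) (hG z hm) (hG z hm) (fun x _ => hi z hm x)
        (fun x _ => hi z hm x) fun x _ => ?_
      rw [hi z hm, hH]
    have e2 : ∑ x ∈ G, g z x * ∏ z' ∈ Z, g z' x + ∑ x ∈ G, g z (io z x) * ∏ z' ∈ Z, g z' x ≤
        2 * ∑ x ∈ G, ∏ z' ∈ Z, g z' x := by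
      rw [← sum_add_distrib, mul_sum]
      refine sum_le_sum fun x _ => ?_
      rw [← add_mul]
      exact mul_le_mul_of_nonneg_right (h2 z hm x) (prod_nonneg fun _ _ => h0 _ _)
    linarith

/-- `y` on `T`, `x` elsewhere -/
noncomputable def pch (T : Finset V) (y x : Om) : Om :=
  (fun v => if v ∈ T then y.1 v else x.1 v, fun v => if v ∈ T then y.2 v else x.2 v)

/-- restriction to `T`, normalised by the identity -/
noncomputable def res (T : Finset V) (y : Om) : Om := pch T y (id, id)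

lemma pch_mem (T : Finset V) (y x : Om) : pch T y x ∈ cyl T y := fun v hv => by simp [pch, hv]

lemma pch_self {T : Finset V} {y x : Om} (h : x ∈ cyl T y) : pch T y x = x := by
  refine Prod.ext (funext fun v => ?_) (funext fun v => ?_)
  · by_cases hv : v ∈ T <;> simp [pch, hv, fun hv => (h v hv).1]
  · by_cases hv : v ∈ T <;> simp [pch, hv, fun hv => (h v hv).2]

lemma pch_pch (T : Finset V) (y y' x : Om) : pch T y (pch T y' x) = pch T y x := by
  refine Prod.ext (funext fun v => ?_) (funext fun v => ?_) <;>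
    by_cases hv : v ∈ T <;> simp [pch, hv]

lemma pch_mem_iff {T T' : Finset V} (h : Disjoint T T') (y y' x : Om) :
    pch T y x ∈ cyl T' y' ↔ x ∈ cyl T' y' := by
  refine forall_congr' fun v => forall_congr' fun hv => ?_
  simp [pch, disjoint_right.1 h hv]

lemma res_mem_iff {T T' : Finset V} (h : T' ⊆ T) (y x : Om) :
    res T x ∈ cyl T' y ↔ x ∈ cyl T' y := by
  refine forall_congr' fun v => forall_congr' fun hv => ?_
  simp [res, pch, h hv]

lemma res_eq_iff {T : Finset V} {x y : Om} : res T x = res T y ↔ x ∈ cyl T y := by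
  constructor
  · intro h
    rw [← res_mem_iff Subset.rfl, h]
    exact pch_mem _ _ _
  · intro h
    refine Prod.ext (funext fun v => ?_) (funext fun v => ?_)
    · by_cases hv : v ∈ T <;> simp [res, pch, hv, fun hv => (h v hv).1]
    · by_cases hv : v ∈ T <;> simp [res, pch, hv, fun hv => (h v hv).2]

/-- normalised neighbour patterns -/
noncomputable def Pat1 (T : Finset V) : Finset Cfg :=
  (Fintype.piFinset fun _ : T => box 1).image
    fun f v => if h : v ∈ T then v + f ⟨v, h⟩ else v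

lemma mem_Pat1 {T : Finset V} {τ : Cfg} :
    τ ∈ Pat1 T ↔ (∀ v ∈ T, τ v - v ∈ box 1) ∧ ∀ v, v ∉ T → τ v = v := by
  constructor
  · intro h
    obtain ⟨f, hf, rfl⟩ := mem_image.1 h
    refine ⟨fun v hv => ?_, fun v hv => by simp [hv]⟩
    simpa [hv] using Fintype.mem_piFinset.1 hf ⟨v, hv⟩
  · rintro ⟨h1, h2⟩
    refine mem_image.2 ⟨fun v => τ v - v, Fintype.mem_piFinset.2 fun v => h1 v v.2, ?_⟩
    funext v
    by_cases hv : v ∈ T
    · simp [hv]
    · simp [hv, h2 v hv]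

lemma card_Pat1 (T : Finset V) : (Pat1 T).card ≤ 27 ^ T.card := by
  refine card_image_le.trans (le_of_eq ?_)
  simp [Fintype.card_piFinset, card_box]

/-- normalised double patterns -/
noncomputable def Pat (T : Finset V) : Finset Om := Pat1 T ×ˢ Pat1 T

lemma card_Pat (T : Finset V) : (Pat T).card ≤ 729 ^ T.card := by
  rw [Pat, card_product, show 729 = 27 * 27 from rfl, mul_pow]
  exact Nat.mul_le_mul (card_Pat1 T) (card_Pat1 T)

lemma Adj.sub_mem {x y : V} (h : Adj x y) : y - x ∈ box 1 :=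
  mem_box.2 fun i => by simpa using h.coord i

lemma res_mem_Pat {T : Finset V} {y : Om} (h : ∀ v ∈ T, Adj v (y.1 v) ∧ Adj v (y.2 v)) :
    res T y ∈ Pat T := by
  refine mem_product.2 ⟨mem_Pat1.2 ⟨fun v hv => ?_, fun v hv => ?_⟩,
    mem_Pat1.2 ⟨fun v hv => ?_, fun v hv => ?_⟩⟩
  · simpa [res, pch, hv] using Adj.sub_mem (h v hv).1
  · simp [res, pch, hv]
  · simpa [res, pch, hv] using Adj.sub_mem (h v hv).2
  · simp [res, pch, hv]

lemma res_of_mem_Pat {T : Finset V} {y : Om} (h : y ∈ Pat T) : res T y = y := by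
  obtain ⟨h1, h2⟩ := mem_product.1 h
  refine Prod.ext (funext fun v => ?_) (funext fun v => ?_)
  · by_cases hv : v ∈ T <;> simp [res, pch, hv, (mem_Pat1.1 h1).2 v]
  · by_cases hv : v ∈ T <;> simp [res, pch, hv, (mem_Pat1.1 h2).2 v]

lemma adj_mem_box {r L : ℕ} (hr : r < L) {x y : V} (hx : x ∈ box r) (h : Adj x y) :
    y ∈ box L := by
  rw [mem_box] at hx ⊢
  intro i
  have h1 := abs_le.1 (h.coord i)
  have h2 := abs_le.1 (hx i)
  rw [abs_le]
  constructor <;> omega

lemma box_mono {r L : ℕ} (h : r ≤ L) : box r ⊆ box L := fun x hx => by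
  rw [mem_box] at hx ⊢
  exact fun i => (hx i).trans (by exact_mod_cast h)

/-- admissible patterns in the box with the boundary dimers of `sh` -/
noncomputable def Cl (L : ℕ) (sh : Om) : Finset Om :=
  (Pat (box L)).filter fun y => Adm (box L) y.1 ∧ Adm (box L) y.2 ∧ SameBd (box L) sh.1 y.1 ∧
    SameBd (box L) sh.2 y.2

lemma adm_patch {B Λ S : Finset V} (hΛ : Λ ⊆ S) {x y y' : Cfg} (hx : Adm B x) (hy' : Adm Λ y')
    (hb : SameBd Λ y y') (hS : ∀ v ∈ S, v ∉ Λ → y v = y' v) (hxy : ∀ v ∈ S, x v = y v) :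
    Adm B fun v => if v ∈ S then y' v else x v := by
  have h1 : ∀ v, v ∉ Λ → (if v ∈ S then y' v else x v) = x v := fun v hv => by
    split_ifs with h
    · rw [hxy v h, hS v h hv]
    · rfl
  have h2 : ∀ v ∈ Λ, (if v ∈ S then y' v else x v) = y' v := fun v hv => if_pos (hΛ hv)
  intro v hv
  dsimp only
  by_cases hvΛ : v ∈ Λ
  · rw [h2 v hvΛ]
    refine ⟨(hy' v hvΛ).1, fun hB => ?_⟩
    by_cases h : y' v ∈ Λ
    · rw [h2 _ h, (hy' v hvΛ).2 h]
    · have e : y' v = x v := by rw [hxy v (hΛ hvΛ), hb v hvΛ (Or.inr h)]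
      rw [h1 _ h, e]
      exact (hx v hv).2 (e ▸ hB)
  · rw [h1 v hvΛ]
    refine ⟨(hx v hv).1, fun hB => ?_⟩
    have e := (hx v hv).2 hB
    by_cases h : x v ∈ Λ
    · have e' : y (x v) = v := by rw [← hxy _ (hΛ h), e]
      rw [h2 _ h, ← hb _ h (Or.inl (e'.symm ▸ hvΛ)), e']
    · rw [h1 _ h, e]

lemma sameBd_patch {r L : ℕ} (hr : r < L) {S : Finset V} (hS : S ⊆ box r) {sh x y' : Cfg}
    (hx : Adm (box L) x) (hτ : Adm (box L) fun v => if v ∈ S then y' v else x v)
    (hb : SameBd (box L) sh x) : SameBd (box L) sh fun v => if v ∈ S then y' v else x v := by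
  intro v hv h
  by_cases hvS : v ∈ S
  · have h1 := adj_mem_box hr (hS hvS) (hx v hv).1
    have h2 := adj_mem_box hr (hS hvS) (hτ v hv).1
    rcases h with h | h
    · exact absurd (hb v hv (Or.inl h) ▸ h1) h
    · exact absurd h2 h
  · simp only [hvS, if_false] at h ⊢
    exact hb v hv h

lemma pch_mem_Cl {r L : ℕ} (hr : r < L) {Λ S : Finset V} (hΛ : Λ ⊆ S) (hS : S ⊆ box r)
    {y y' sh x : Om} (hy : Swp Λ y y') (hyS : ∀ v ∈ S, v ∉ Λ → y.1 v = y'.1 v ∧ y.2 v = y'.2 v)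
    (hx : x ∈ Cl L sh) (hxy : x ∈ cyl S y) : pch S y' x ∈ Cl L sh := by
  obtain ⟨hp, a1, a2, b1, b2⟩ := mem_filter.1 hx
  have c1 := adm_patch hΛ a1 hy.2.2.1 hy.2.2.2.2.1 (fun v h h' => (hyS v h h').1)
    fun v h => (hxy v h).1
  have c2 := adm_patch hΛ a2 hy.2.2.2.1 hy.2.2.2.2.2 (fun v h h' => (hyS v h h').2)
    fun v h => (hxy v h).2
  refine mem_filter.2 ⟨?_, c1, c2, sameBd_patch hr hS a1 c1 b1, sameBd_patch hr hS a2 c2 b2⟩
  have hsub : S ⊆ box L := hS.trans (box_mono hr.le)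
  obtain ⟨p1, p2⟩ := mem_product.1 hp
  refine mem_product.2 ⟨mem_Pat1.2 ⟨fun v hv => Adj.sub_mem (c1 v hv).1, fun v hv => ?_⟩,
    mem_Pat1.2 ⟨fun v hv => Adj.sub_mem (c2 v hv).1, fun v hv => ?_⟩⟩
  · simp [pch, (show v ∉ S from fun h => hv (hsub h)), (mem_Pat1.1 p1).2 v hv]
  · simp [pch, (show v ∉ S from fun h => hv (hsub h)), (mem_Pat1.1 p2).2 v hv]

lemma swp_symm {Λ : Finset V} {y y' : Om} (h : Swp Λ y y') : Swp Λ y' y :=
  ⟨h.2.2.1, h.2.2.2.1, h.1, h.2.1, fun v hv h' => (h.2.2.2.2.1 v hv h'.symm).symm,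
    fun v hv h' => (h.2.2.2.2.2 v hv h'.symm).symm⟩

/-- a window with two exchangeable patterns -/
structure Win (r : ℕ) (S : Finset V) (y y' : Om) : Prop where
  sub : S ⊆ box r
  ex : ∃ Λ ⊆ S, Swp Λ y y' ∧ ∀ v ∈ S, v ∉ Λ → y.1 v = y'.1 v ∧ y.2 v = y'.2 v
  dis : ∀ x, x ∈ cyl S y → x ∉ cyl S y'

/-- the signed indicator of the two patterns -/
noncomputable def phi (S : Finset V) (y y' x : Om) : ℝ :=
  (if x ∈ cyl S y then 1 else 0) - (if x ∈ cyl S y' then 1 else 0)

lemma abs_phi_le (S : Finset V) (y y' x : Om) : |phi S y y' x| ≤ 1 := by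
  unfold phi
  split_ifs <;> norm_num

/-- the exchange of the two patterns -/
noncomputable def exch (S : Finset V) (y y' x : Om) : Om :=
  if x ∈ cyl S y then pch S y' x else if x ∈ cyl S y' then pch S y x else x

lemma sum_Cl_le {ι : Type*} {r L : ℕ} (hr : r < L) (Z : Finset ι) (S : ι → Finset V)
    (y y' : ι → Om) (hW : ∀ z ∈ Z, Win r (S z) (y z) (y' z))
    (hd : ∀ z ∈ Z, ∀ z' ∈ Z, z ≠ z' → Disjoint (S z) (S z')) (t : ℝ) (sh : Om) :
    ∑ x ∈ (Cl L sh).image (res (box r)),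
      Real.exp (∑ z ∈ Z, (t * phi (S z) (y z) (y' z) x - t ^ 2 / 2)) ≤ (Cl L sh).card := by
  refine (sum_image_le_of_nonneg fun _ _ => (Real.exp_pos _).le).trans ?_
  have e0 : ∀ x, Real.exp (∑ z ∈ Z, (t * phi (S z) (y z) (y' z) (res (box r) x) - t ^ 2 / 2)) =
      ∏ z ∈ Z, Real.exp (t * phi (S z) (y z) (y' z) x - t ^ 2 / 2) := fun x => by
    rw [Real.exp_sum]
    refine prod_congr rfl fun z hz => ?_
    simp only [phi, res_mem_iff (hW z hz).sub]
  simp only [e0]
  refine sum_prod_le _ Z (fun z => exch (S z) (y z) (y' z)) _ (fun z hz x hx => ?_)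
    (fun z hz x => ?_) (fun _ _ => (Real.exp_pos _).le) (fun z hz x => ?_) fun z hz z' hz' h x => ?_
  · obtain ⟨Λ, h1, h2, h3⟩ := (hW z hz).ex
    unfold exch
    split_ifs with a b
    · exact pch_mem_Cl hr h1 (hW z hz).sub h2 h3 hx a
    · exact pch_mem_Cl hr h1 (hW z hz).sub (swp_symm h2)
        (fun v h h' => ⟨(h3 v h h').1.symm, (h3 v h h').2.symm⟩) hx b
    · exact hx
  · by_cases a : x ∈ cyl (S z) (y z)
    · have := fun h => (hW z hz).dis _ h (pch_mem (S z) (y' z) x)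
      simp only [exch, if_pos a, if_neg this, if_pos (pch_mem _ _ _), pch_pch, pch_self a]
    · by_cases b : x ∈ cyl (S z) (y' z)
      · simp only [exch, if_neg a, if_pos b, if_pos (pch_mem _ _ _), pch_pch, pch_self b]
      · simp only [exch, if_neg a, if_neg b]
  · have e1 : phi (S z) (y z) (y' z) (exch (S z) (y z) (y' z) x) = -phi (S z) (y z) (y' z) x := by
      by_cases a : x ∈ cyl (S z) (y z)
      · have : pch (S z) (y' z) x ∉ cyl (S z) (y z) :=
          fun h => (hW z hz).dis _ h (pch_mem (S z) (y' z) x)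
        simp [phi, exch, a, this, pch_mem, (hW z hz).dis _ a]
      · by_cases b : x ∈ cyl (S z) (y' z)
        · simp [phi, exch, a, b, pch_mem, (hW z hz).dis _ (pch_mem (S z) (y z) x)]
        · simp [phi, exch, a, b]
    rw [e1]
    set s := phi (S z) (y z) (y' z) x
    have e2 := Real.cosh_le_exp_half_sq (t * s)
    have e3 : (t * s) ^ 2 / 2 ≤ t ^ 2 / 2 := by
      have := sq_le_one_iff_abs_le_one s |>.2 (abs_phi_le _ _ _ _)
      nlinarith [sq_nonneg t]
    have e4 := e2.trans (Real.exp_le_exp.2 e3)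
    rw [Real.cosh_eq] at e4
    rw [Real.exp_sub, Real.exp_sub, ← add_div, div_le_iff₀ (Real.exp_pos _), mul_neg]
    linarith
  · have : ∀ w, exch (S z) (y z) (y' z) x ∈ cyl (S z') w ↔ x ∈ cyl (S z') w := fun w => by
      unfold exch
      split_ifs
      · exact pch_mem_iff (hd z hz z' hz' h) _ _ _
      · exact pch_mem_iff (hd z hz z' hz' h) _ _ _
      · rfl
    simp only [phi, this]

lemma adm_res {B : Finset V} {σ : Cfg} (h : IsTiling σ) :
    Adm B fun v => if v ∈ B then σ v else id v := fun v hv => by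
  simp only [hv, if_true]
  exact ⟨(h v).1, fun h' => by rw [if_pos h', (h v).2]⟩

lemma sameBd_of_patch {r L : ℕ} (hr : r < L) {a σ : Cfg} (ha : IsTiling a) (hσ : IsTiling σ)
    (h : ∀ x, x ∉ box L → σ x = a x) :
    SameBd (box L) (fun v => if v ∈ box L \ box r then a v else id v)
      fun v => if v ∈ box L then σ v else id v := by
  intro v hv h'
  by_cases hvr : v ∈ box r
  · have := adj_mem_box hr hvr (hσ v).1
    simp [hv, hvr, this] at h'
  · simp only [if_pos (mem_sdiff.2 ⟨hv, hvr⟩), if_pos hv] at h' ⊢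
    rcases h' with h' | h'
    · have e := h _ h'
      rw [(ha v).2] at e
      rw [← (hσ (a v)).2, e]
    · have e := h _ h'
      rw [(hσ v).2] at e
      rw [← (ha (σ v)).2, ← e]

lemma good_of_patch {r L : ℕ} (hr : r < L) {p p' : Om} (hp : Til p)
    (h1 : Patchable r L p.1 p'.1) (h2 : Patchable r L p.2 p'.2) :
    res (box r) p' ∈ (Cl L (res (box L \ box r) p)).image (res (box r)) := by
  obtain ⟨σ, a1, a2, a3⟩ := h1
  obtain ⟨σ', b1, b2, b3⟩ := h2
  refine mem_image.2 ⟨res (box L) (σ, σ'), mem_filter.2 ⟨res_mem_Pat fun v _ => ⟨(a1 v).1, (b1 v).1⟩,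
    adm_res a1, adm_res b1, sameBd_of_patch hr hp.1 a1 a3, sameBd_of_patch hr hp.2 b1 b3⟩, ?_⟩
  rw [res_eq_iff, res_mem_iff (box_mono hr.le)]
  exact fun v hv => ⟨a2 v hv, b2 v hv⟩

lemma sameBd_of_res {r L : ℕ} (hr : r < L) {a y : Cfg} (ha : IsTiling a) (hy : Adm (box L) y)
    (h : SameBd (box L) (fun v => if v ∈ box L \ box r then a v else id v) y) :
    SameBd (box L) a y := by
  intro v hv h'
  by_cases hvr : v ∈ box r
  · rcases h' with h' | h'
    · exact absurd (adj_mem_box hr hvr (ha v).1) h'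
    · exact absurd (adj_mem_box hr hvr (hy v hv).1) h'
  · have := h v hv
    simp only [if_pos (mem_sdiff.2 ⟨hv, hvr⟩)] at this
    exact this h'

lemma swp_of_mem_Cl {r L : ℕ} (hr : r < L) {p y : Om} (hp : Til p)
    (hy : y ∈ Cl L (res (box L \ box r) p)) : Swp (box L) p y := by
  obtain ⟨-, a1, a2, b1, b2⟩ := mem_filter.1 hy
  exact ⟨fun v _ => ⟨(hp.1 v).1, fun _ => (hp.1 v).2⟩, fun v _ => ⟨(hp.2 v).1, fun _ => (hp.2 v).2⟩,
    a1, a2, sameBd_of_res hr hp.1 a1 b1, sameBd_of_res hr hp.2 a2 b2⟩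

lemma sub_of_flp {r : ℕ} {p q : Om} {F G : Set V} (hp : Til p) (hF : Invar p F)
    (hN : NoFin p F) (hG : Invar q G) (h : flp F p ∈ cyl (box (r + 1)) (flp G q))
    (hb : ∀ v ∈ box (r + 1) \ box r, v ∈ F ↔ v ∈ G) : ∀ v ∈ box (r + 1), v ∈ F → v ∈ G := by
  have := hN {v | v ∈ box (r + 1) ∧ v ∈ F ∧ v ∉ G} (fun v hv => hv.2.1)
    ((box (r + 1)).finite_toSet.subset fun v hv => hv.1) (by
      rintro v ⟨h1, h2, h3⟩
      have hv : v ∈ box r := by
        by_contra hc
        exact h3 ((hb v (mem_sdiff.2 ⟨h1, hc⟩)).1 h2)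
      have e := h v h1
      simp only [flp, h2, h3, if_true, if_false] at e
      refine ⟨⟨adj_mem_box r.lt_succ_self hv (hp.1 v).1, (hF v).1.2 h2, ?_⟩,
        ⟨adj_mem_box r.lt_succ_self hv (hp.2 v).1, (hF v).2.2 h2, ?_⟩⟩
      · rw [e.2]
        exact fun h' => h3 ((hG v).2.1 h')
      · rw [e.1]
        exact fun h' => h3 ((hG v).1.1 h'))
  intro v hv hvF
  by_contra hc
  exact (Set.eq_empty_iff_forall_notMem.1 this v) ⟨hv, hvF, hc⟩

/-- the sample in the big box is determined by the flipped sample inside, the flipped set on the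
outer layer and the sample on the shell -/
lemma determined {r L : ℕ} {p q : Om} {F G : Set V} (hp : Til p) (hF : Invar p F)
    (hN : NoFin p F) (hq : Til q) (hG : Invar q G) (hN' : NoFin q G)
    (h : flp F p ∈ cyl (box (r + 1)) (flp G q))
    (hb : ∀ v ∈ box (r + 1) \ box r, v ∈ F ↔ v ∈ G) (hs : p ∈ cyl (box L \ box (r + 1)) q) :
    p ∈ cyl (box L) q := by
  have h1 := sub_of_flp hp hF hN hG h hb
  have h2 := sub_of_flp hq hG hN' hF (fun v hv => ⟨(h v hv).1.symm, (h v hv).2.symm⟩)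
    fun v hv => (hb v hv).symm
  intro v hv
  by_cases hvr : v ∈ box (r + 1)
  · have e := h v hvr
    by_cases hvF : v ∈ F
    · simp only [flp, hvF, h1 v hvr hvF, if_true] at e
      exact e.symm
    · simp only [flp, hvF, (show v ∉ G from fun h' => hvF (h2 v hvr h')), if_false] at e
      exact e
  · exact hs v (mem_sdiff.2 ⟨hv, hvr⟩)

/-! ### Shifted windows -/

lemma mem_image_add {S : Finset V} {z v : V} : v ∈ S.image (· + z) ↔ v - z ∈ S := by
  simp only [mem_image]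
  exact ⟨fun ⟨a, h, e⟩ => by simpa [← e] using h, fun h => ⟨v - z, h, by simp⟩⟩

lemma adm_shift {Λ : Finset V} {τ : Cfg} (h : Adm Λ τ) (z : V) :
    Adm (Λ.image (· + z)) (shift z τ) := by
  intro v hv
  rw [mem_image_add] at hv
  refine ⟨?_, fun h' => ?_⟩
  · have := (h _ hv).1
    unfold Adj at this ⊢
    rw [← this]
    refine sum_congr rfl fun i _ => ?_
    simp only [shift, Pi.add_apply, Pi.sub_apply]
    congr 1
    ring
  · rw [mem_image_add] at h'
    simp only [shift, add_sub_cancel_right] at h' ⊢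
    rw [(h _ hv).2 h', sub_add_cancel]

lemma sameBd_shift {Λ : Finset V} {τ τ' : Cfg} (h : SameBd Λ τ τ') (z : V) :
    SameBd (Λ.image (· + z)) (shift z τ) (shift z τ') := by
  intro v hv h'
  simp only [mem_image_add, shift, add_sub_cancel_right] at hv h' ⊢
  rw [h _ hv h']

lemma win_shift {r : ℕ} {Λ S : Finset V} (hΛ : Λ ⊆ S) {y y' : Om} (hy : Swp Λ y y')
    (hS : ∀ x ∈ S, x ∉ Λ → y.1 x = y'.1 x ∧ y.2 x = y'.2 x) (hne : y ∉ cyl S y') (z : V)
    (hz : S.image (· + z) ⊆ box r) : Win r (S.image (· + z)) (shift2 z y) (shift2 z y') := by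
  refine ⟨hz, ⟨Λ.image (· + z), image_subset_image hΛ, ⟨adm_shift hy.1 z, adm_shift hy.2.1 z,
    adm_shift hy.2.2.1 z, adm_shift hy.2.2.2.1 z, sameBd_shift hy.2.2.2.2.1 z,
    sameBd_shift hy.2.2.2.2.2 z⟩, fun v h h' => ?_⟩, fun x h h' => hne fun v hv => ?_⟩
  · rw [mem_image_add] at h h'
    simp only [shift2, shift, hS _ h h', and_self]
  · have e := h (v + z) (mem_image_of_mem _ hv)
    have e' := h' (v + z) (mem_image_of_mem _ hv)
    simp only [shift2, shift, add_sub_cancel_right] at e e'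
    exact ⟨add_right_cancel (e.1.symm.trans e'.1), add_right_cancel (e.2.symm.trans e'.2)⟩

lemma exists_box (S : Finset V) : ∃ w, S ⊆ box w := by
  refine ⟨S.sup fun v => univ.sup fun i => (v i).natAbs, fun v hv => mem_box.2 fun i => ?_⟩
  rw [← Int.natCast_natAbs]
  exact_mod_cast le_trans (le_sup (f := fun i => (v i).natAbs) (mem_univ i))
    (le_sup (f := fun v : V => univ.sup fun i => (v i).natAbs) hv)

end Pool.Agent.Lib.MP_640444_pr.Ent
end

-- part Pool.Agent.Lib.MP_640444_pr.Ent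
section

/-!
The finite volume entropy comparison: the flipped sample inherits the exchange symmetry.
-/

set_option autoImplicit false
open MeasureTheory Filter Topology Finset
open scoped Classical

namespace Pool.Agent.Lib.MP_640444_pr

namespace Ent

lemma real_eq_sum {X α : Type*} [MeasurableSpace X] (P : Measure X) [IsFiniteMeasure P]
    (U : X → α) (T : Finset α) (hm : ∀ u, MeasurableSet (U ⁻¹' {u})) (hae : ∀ᵐ ω ∂P, U ω ∈ T)
    (A : α → Prop) [DecidablePred A] :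
    P.real {ω | A (U ω)} = ∑ u ∈ T, if A u then P.real (U ⁻¹' {u}) else 0 := by
  rw [← sum_filter, sum_measureReal_preimage_singleton _ fun u _ => hm u]
  refine measureReal_congr ?_
  filter_upwards [hae] with ω hω
  change A (U ω) = (U ω ∈ ((T.filter A : Finset α) : Set α))
  simp [hω]

lemma measurable_pch {X : Type*} [MeasurableSpace X] (T : Finset V) {p q : X → Om}
    (hp : Measurable p) (hq : Measurable q) : Measurable fun ω => pch T (p ω) (q ω) := by
  refine Measurable.prodMk (measurable_pi_lambda _ fun v => ?_) (measurable_pi_lambda _ fun v => ?_)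
  · by_cases hv : v ∈ T
    · simp only [hv, if_true]
      exact (measurable_pi_apply v).comp hp.fst
    · simp only [hv, if_false]
      exact (measurable_pi_apply v).comp hq.fst
  · by_cases hv : v ∈ T
    · simp only [hv, if_true]
      exact (measurable_pi_apply v).comp hp.snd
    · simp only [hv, if_false]
      exact (measurable_pi_apply v).comp hq.snd

lemma measurable_flp {X : Type*} [MeasurableSpace X] {p : X → Om} {F : X → Set V}
    (hp : Measurable p) (hF : ∀ x, MeasurableSet {ω | x ∈ F ω}) :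
    Measurable fun ω => flp (F ω) (p ω) :=
  Measurable.prodMk
    (measurable_pi_lambda _ fun v => Measurable.ite (hF v) ((measurable_pi_apply v).comp hp.snd)
      ((measurable_pi_apply v).comp hp.fst))
    (measurable_pi_lambda _ fun v => Measurable.ite (hF v) ((measurable_pi_apply v).comp hp.fst)
      ((measurable_pi_apply v).comp hp.snd))

lemma measurableSet_cyl (S : Finset V) (y : Om) : MeasurableSet (cyl S y) := by
  have : cyl S y = (fun x => res S x) ⁻¹' {res S y} := by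
    ext x
    simp [res_eq_iff]
  rw [this]
  exact measurable_pch S measurable_id measurable_const (measurableSet_singleton _)

/-- the coding of a sample -/
noncomputable def code (r L : ℕ) (F : Set V) (p : Om) : (Finset V × Om) × Om :=
  (((box (r + 1) \ box r).filter (· ∈ F), res (box L \ box (r + 1)) p), res (box (r + 1)) (flp F p))

lemma code_eq {r L : ℕ} {p q : Om} {F G : Set V} (hp : Til p ∧ Invar p F ∧ NoFin p F)
    (hq : Til q ∧ Invar q G ∧ NoFin q G) (h : code r L F p = code r L G q) :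
    p ∈ cyl (box L) q := by
  simp only [code, Prod.mk.injEq, res_eq_iff] at h
  refine determined hp.1 hp.2.1 hp.2.2 hq.1 hq.2.1 hq.2.2 h.2 (fun v hv => ?_) h.1.2
  have := Finset.ext_iff.1 h.1.1 v
  simpa only [mem_filter, hv, true_and] using this

variable {X : Type} [MeasurableSpace X] (P : Measure X) [IsProbabilityMeasure P]
  {p : X → Om} {F : X → Set V}

lemma measurableSet_code (hp : Measurable p) (hF : ∀ x, MeasurableSet {ω | x ∈ F ω}) (r L : ℕ)
    (u : (Finset V × Om) × Om) :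
    MeasurableSet ((fun ω => code r L (F ω) (p ω)) ⁻¹' {u}) := by
  have e : (fun ω => code r L (F ω) (p ω)) ⁻¹' {u} =
      ((⋂ v, {ω | (v ∈ box (r + 1) \ box r ∧ v ∈ F ω) ↔ v ∈ u.1.1}) ∩
        (fun ω => res (box L \ box (r + 1)) (p ω)) ⁻¹' {u.1.2}) ∩
        (fun ω => res (box (r + 1)) (flp (F ω) (p ω))) ⁻¹' {u.2} := by
    ext ω
    simp only [code, Set.mem_preimage, Set.mem_singleton_iff, Set.mem_inter_iff, Set.mem_iInter,
      Set.mem_ofPred_eq, Prod.ext_iff (y := u), Prod.ext_iff (y := u.1),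
      Finset.ext_iff, mem_filter]
  rw [e]
  refine ((MeasurableSet.iInter fun v => ?_).inter
    (measurable_pch _ hp measurable_const (measurableSet_singleton _))).inter
    (measurable_pch _ (measurable_flp hp hF) measurable_const (measurableSet_singleton _))
  exact measurableSet_setOfPred.2
    ((measurable_const.and (measurableSet_setOfPred.1 (hF v))).iff measurable_const)

lemma mass_le (hp : Measurable p)
    (hT : ∀ᵐ ω ∂P, Til (p ω) ∧ Invar (p ω) (F ω) ∧ NoFin (p ω) (F ω))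
    (hG : ∀ (Λ : Finset V) (y y' : Om), Swp Λ y y' → P (p ⁻¹' cyl Λ y) = P (p ⁻¹' cyl Λ y'))
    {r L : ℕ} (hr : r + 1 < L) (u : (Finset V × Om) × Om) :
    P.real ((fun ω => code r L (F ω) (p ω)) ⁻¹' {u}) * (Cl L u.1.2).card ≤ 1 := by
  by_cases h0 : P ((fun ω => code r L (F ω) (p ω)) ⁻¹' {u}) = 0
  · simp [measureReal_def, h0]
  obtain ⟨ω₀, h1, h2⟩ := Measure.exists_mem_of_measure_ne_zero_of_ae h0 (ae_restrict_of_ae hT)
  have h1' : code r L (F ω₀) (p ω₀) = u := h1
  have hle : P.real ((fun ω => code r L (F ω) (p ω)) ⁻¹' {u}) ≤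
      P.real (p ⁻¹' cyl (box L) (p ω₀)) := by
    refine ENNReal.toReal_mono (measure_ne_top _ _) (measure_mono_ae ?_)
    filter_upwards [hT] with ω hω h
    exact code_eq hω h2 ((show code r L (F ω) (p ω) = u from h).trans h1'.symm)
  have hsh : u.1.2 = res (box L \ box (r + 1)) (p ω₀) := by rw [← h1']; rfl
  have hsum := sum_measureReal_le_measureReal_univ (μ := P) (s := Cl L u.1.2)
    (t := fun y => p ⁻¹' cyl (box L) y) (fun y _ => hp (measurableSet_cyl _ _)) (by
      intro y hy y' hy' hne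
      refine Set.disjoint_left.2 fun ω a b => hne ?_
      rw [← res_of_mem_Pat (mem_filter.1 hy).1, ← res_of_mem_Pat (mem_filter.1 hy').1,
        ← res_eq_iff.2 a, res_eq_iff.2 b])
  rw [sum_congr rfl (g := fun _ => P.real (p ⁻¹' cyl (box L) (p ω₀))) fun y hy => by
    simp only [measureReal_def]
    rw [hG _ _ _ (swp_of_mem_Cl hr h2.1 (hsh ▸ hy))], sum_const, nsmul_eq_mul,
    probReal_univ] at hsum
  calc _ ≤ P.real (p ⁻¹' cyl (box L) (p ω₀)) * (Cl L u.1.2).card :=
        mul_le_mul_of_nonneg_right hle (by positivity)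
    _ ≤ 1 := by linarith

lemma fin_vol (hp : Measurable p) (hF : ∀ x, MeasurableSet {ω | x ∈ F ω})
    (hT : ∀ᵐ ω ∂P, Til (p ω) ∧ Invar (p ω) (F ω) ∧ NoFin (p ω) (F ω))
    (hG : ∀ (Λ : Finset V) (y y' : Om), Swp Λ y y' → P (p ⁻¹' cyl Λ y) = P (p ⁻¹' cyl Λ y'))
    {r L : ℕ} (hr : r + 1 < L) {ι : Type} (Z : Finset ι) (S : ι → Finset V) (y y' : ι → Om)
    (hW : ∀ z ∈ Z, Win (r + 1) (S z) (y z) (y' z))
    (hd : ∀ z ∈ Z, ∀ z' ∈ Z, z ≠ z' → Disjoint (S z) (S z')) {D ε : ℝ} (hD : 0 ≤ D)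
    (hq : ∀ z ∈ Z, P.real {ω | flp (F ω) (p ω) ∈ cyl (S z) (y z)} -
      P.real {ω | flp (F ω) (p ω) ∈ cyl (S z) (y' z)} = D)
    (hb : P.real {ω | ¬ (Patchable (r + 1) L (p ω).1 (flp (F ω) (p ω)).1 ∧
      Patchable (r + 1) L (p ω).2 (flp (F ω) (p ω)).2)} ≤ ε) :
    Z.card * D ^ 2 / 2 ≤ 1 + 729 * ((box L).card - (box r).card) + D * Z.card * ε := by
  set U : X → (Finset V × Om) × Om := fun ω => code r L (F ω) (p ω) with hU
  set T1 := (box (r + 1) \ box r).powerset ×ˢ Pat (box L \ box (r + 1)) with hT1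
  set T := T1 ×ˢ Pat (box (r + 1)) with hTT
  have hm := measurableSet_code hp hF r L
  have hae : ∀ᵐ ω ∂P, U ω ∈ T := by
    filter_upwards [hT] with ω hω
    refine mem_product.2 ⟨mem_product.2 ⟨mem_powerset.2 (filter_subset _ _),
      res_mem_Pat fun v _ => ⟨(hω.1.1 v).1, (hω.1.2 v).1⟩⟩, res_mem_Pat fun v _ => ?_⟩
    simp only [flp]
    split_ifs
    · exact ⟨(hω.1.2 v).1, (hω.1.1 v).1⟩
    · exact ⟨(hω.1.1 v).1, (hω.1.2 v).1⟩
  set π : (Finset V × Om) × Om → ℝ := fun u => P.real (U ⁻¹' {u}) with hπ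
  have hπ0 : ∀ u, 0 ≤ π u := fun u => measureReal_nonneg
  have h1 : ∑ u ∈ T, π u = 1 := by
    simpa using (real_eq_sum P U T hm hae fun _ => True).symm
  have h2 : ∀ z ∈ Z, ∑ u ∈ T, π u * phi (S z) (y z) (y' z) u.2 = D := fun z hz => by
    have e := fun w => real_eq_sum P U T hm hae fun u => u.2 ∈ cyl (S z) w
    simp only [hU, code, res_mem_iff (hW z hz).sub] at e
    rw [← hq z hz, e, e, ← sum_sub_distrib]
    refine sum_congr rfl fun u _ => ?_
    simp only [phi, mul_sub, mul_ite, mul_one, mul_zero, hπ, hU, code]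
  set Gd : (Finset V × Om) × Om → Prop := fun u => u.2 ∈ (Cl L u.1.2).image (res (box (r + 1)))
    with hGd
  have h3 : ∑ u ∈ T, (if ¬ Gd u then π u else 0) ≤ ε := by
    rw [← real_eq_sum P U T hm hae fun u => ¬ Gd u]
    refine le_trans (ENNReal.toReal_mono (measure_ne_top _ _) (measure_mono_ae ?_)) hb
    filter_upwards [hT] with ω hω h h'
    exact h (good_of_patch hr hω.1 h'.1 h'.2)
  set R : Om → ℝ := fun x => ∑ z ∈ Z, (D * phi (S z) (y z) (y' z) x - D ^ 2 / 2) with hR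
  set a : ℝ := 729 * ((box L).card - (box r).card) with ha
  have hcard : (T1.card : ℝ) ≤ Real.exp a := by
    have e1 : (box (r + 1) \ box r).card + (box L \ box (r + 1)).card + (box r).card =
        (box L).card := by
      rw [← card_sdiff_add_card_eq_card (box_mono hr.le),
        ← card_sdiff_add_card_eq_card (box_mono r.le_succ)]
      ring
    have e2 : T1.card ≤ 729 ^ ((box (r + 1) \ box r).card + (box L \ box (r + 1)).card) := by
      rw [hT1, card_product, card_powerset, pow_add]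
      exact Nat.mul_le_mul (Nat.pow_le_pow_left (by norm_num) _) (card_Pat _)
    have e3 : a = ((box (r + 1) \ box r).card + (box L \ box (r + 1)).card : ℕ) * 729 := by
      rw [ha, ← e1]
      push_cast
      ring
    rw [e3, Real.exp_nat_mul]
    refine le_trans (b := 729 ^ _) (by exact_mod_cast e2) (pow_le_pow_left₀ (by norm_num) ?_ _)
    linarith [Real.add_one_le_exp 729]
  have h4 : ∑ u ∈ T, (if Gd u then π u * Real.exp (R u.2) else 0) ≤ Real.exp a := by
    rw [hTT, sum_product]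
    refine le_trans (sum_le_card_nsmul _ _ 1 fun w _ => ?_) (by simpa using hcard)
    rw [← sum_filter]
    rcases (Cl L w.2).eq_empty_or_nonempty with h0 | h0
    · simp [hGd, h0]
    have hc : (0 : ℝ) < (Cl L w.2).card := by exact_mod_cast h0.card_pos
    calc ∑ x ∈ Pat (box (r + 1)) with Gd (w, x), π (w, x) * Real.exp (R x)
        ≤ ∑ x ∈ (Cl L w.2).image (res (box (r + 1))), π (w, x) * Real.exp (R x) :=
          sum_le_sum_of_subset_of_nonneg (fun x hx => (mem_filter.1 hx).2) fun x _ _ =>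
            mul_nonneg (hπ0 _) (Real.exp_pos _).le
      _ ≤ ∑ x ∈ (Cl L w.2).image (res (box (r + 1))),
            1 / (Cl L w.2).card * Real.exp (R x) := by
          refine sum_le_sum fun x _ => mul_le_mul_of_nonneg_right ?_ (Real.exp_pos _).le
          rw [le_div_iff₀ hc]
          exact mass_le P hp hT hG hr (w, x)
      _ ≤ 1 / (Cl L w.2).card * (Cl L w.2).card := by
          rw [← mul_sum]
          exact mul_le_mul_of_nonneg_left (sum_Cl_le hr Z S y y' hW hd D w.2) (by positivity)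
      _ = 1 := one_div_mul_cancel hc.ne'
  have h5 : ∑ u ∈ T, π u * R u.2 = Z.card * D ^ 2 / 2 := by
    simp only [hR, mul_sum]
    rw [sum_comm, sum_congr rfl (g := fun _ => D ^ 2 / 2) fun z hz => ?_]
    · simp only [sum_const, nsmul_eq_mul]
      ring
    · have : ∀ u, π u * (D * phi (S z) (y z) (y' z) u.2 - D ^ 2 / 2) =
          D * (π u * phi (S z) (y z) (y' z) u.2) - D ^ 2 / 2 * π u := fun u => by ring
      simp only [this]
      rw [sum_sub_distrib, ← mul_sum, ← mul_sum, h2 z hz, h1]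
      ring
  have hRle : ∀ x, R x ≤ D * Z.card := fun x => by
    refine (sum_le_card_nsmul _ _ D fun z _ => ?_).trans_eq (by rw [nsmul_eq_mul, mul_comm])
    have := mul_le_mul_of_nonneg_left (abs_le.1 (abs_phi_le (S z) (y z) (y' z) x)).2 hD
    nlinarith [sq_nonneg D]
  have ha0 : 0 ≤ a := by
    have : ((box r).card : ℝ) ≤ (box L).card := by
      exact_mod_cast card_le_card (box_mono (by omega))
    rw [ha]
    linarith
  have h6 : ∀ u, π u * R u.2 ≤ π u * a + (Real.exp (-a) * (if Gd u then π u * Real.exp (R u.2)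
      else 0) + D * Z.card * (if ¬ Gd u then π u else 0)) := fun u => by
    by_cases hg : Gd u
    · simp only [hg, if_true, not_true, if_false, mul_zero, add_zero]
      have e1 := Real.add_one_le_exp (R u.2 - a)
      rw [sub_eq_neg_add, Real.exp_add] at e1
      nlinarith [hπ0 u]
    · simp only [hg, if_false, not_false_iff, if_true, mul_zero, zero_add]
      nlinarith [hπ0 u, hRle u.2, mul_nonneg (hπ0 u) ha0]
  have h7 := sum_le_sum fun u (_ : u ∈ T) => h6 u
  rw [h5, sum_add_distrib, sum_add_distrib, ← sum_mul, ← mul_sum, ← mul_sum, h1] at h7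
  have h8 := mul_le_mul_of_nonneg_left h4 (Real.exp_pos (-a)).le
  rw [← Real.exp_add, neg_add_cancel, Real.exp_zero] at h8
  have h9 := mul_le_mul_of_nonneg_left h3 (show 0 ≤ D * Z.card by positivity)
  linarith

lemma not_lt_swap (hp : Measurable p) (hF : ∀ x, MeasurableSet {ω | x ∈ F ω})
    (hT : ∀ᵐ ω ∂P, Til (p ω) ∧ Invar (p ω) (F ω) ∧ NoFin (p ω) (F ω))
    (hG : ∀ (Λ : Finset V) (y y' : Om), Swp Λ y y' → P (p ⁻¹' cyl Λ y) = P (p ⁻¹' cyl Λ y'))
    (hI : ∀ v, Ev v → ∀ (S : Finset V) (y : Om),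
      P {ω | flp (F ω) (p ω) ∈ cyl S y} =
        P {ω | flp (F ω) (p ω) ∈ cyl (S.image (· + v)) (shift2 v y)})
    (hP : ∀ ε : ℝ, 0 < ε → ∀ L0 : ℕ, ∃ r L : ℕ, L0 ≤ L ∧ r < L ∧ (L : ℝ) - r ≤ ε * L ∧
      P {ω | ¬ (Patchable r L (p ω).1 (flp (F ω) (p ω)).1 ∧
        Patchable r L (p ω).2 (flp (F ω) (p ω)).2)} ≤ ENNReal.ofReal ε)
    (Λ S : Finset V) (hΛ : Λ ⊆ S) (y y' : Om) (hy : Swp Λ y y')
    (hS : ∀ x ∈ S, x ∉ Λ → y.1 x = y'.1 x ∧ y.2 x = y'.2 x) :
    P.real {ω | flp (F ω) (p ω) ∈ cyl S y} ≤ P.real {ω | flp (F ω) (p ω) ∈ cyl S y'} := by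
  by_contra hlt
  rw [not_le, ← sub_pos] at hlt
  set D := P.real {ω | flp (F ω) (p ω) ∈ cyl S y} - P.real {ω | flp (F ω) (p ω) ∈ cyl S y'}
    with hD
  have hD1 : D ≤ 1 := by
    have := measureReal_le_one (μ := P) (s := {ω | flp (F ω) (p ω) ∈ cyl S y})
    have := measureReal_nonneg (μ := P) (s := {ω | flp (F ω) (p ω) ∈ cyl S y'})
    linarith
  have hne : y ∉ cyl S y' := fun h => by
    have : cyl S y = cyl S y' := by
      ext x
      rw [← res_eq_iff, ← res_eq_iff, res_eq_iff.2 h]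
    simp [hD, this] at hlt
  obtain ⟨w, hw⟩ := exists_box S
  obtain ⟨k, hk⟩ : ∃ k : ℕ, k = 2 * (w + 1) := ⟨_, rfl⟩
  have hk0 : 0 < k := by omega
  have hk1 : (1 : ℝ) ≤ k := by exact_mod_cast hk0
  have hk3 : (1 : ℝ) ≤ k ^ 3 := one_le_pow₀ hk1
  set ε : ℝ := D ^ 2 / (10 ^ 7 * k ^ 3) with hε
  have hε0 : 0 < ε := by positivity
  have hεk : ε * (10 ^ 7 * k ^ 3) = D ^ 2 := div_mul_cancel₀ _ (by positivity)
  have hε1 : 4 * ε ≤ D ^ 2 := by nlinarith
  have hD2 : D ^ 2 ≤ 1 := by nlinarith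
  obtain ⟨N, hN⟩ := exists_nat_gt (100 * k ^ 3 / D ^ 2)
  obtain ⟨r, L, hL0, hr, hrL, hb⟩ := hP ε hε0 (N + 4 * w + 4)
  have hLr : 3 * L ≤ 4 * r := by
    have : (3 * L : ℝ) ≤ 4 * r := by
      have : (0 : ℝ) ≤ L := by positivity
      nlinarith
    exact_mod_cast this
  obtain ⟨r, rfl⟩ : ∃ r', r = r' + 1 := ⟨r - 1, by omega⟩
  obtain ⟨m, hm⟩ : ∃ m, m = (r + 1 - w) / k := ⟨_, rfl⟩
  have hm1 : k * m + w ≤ r + 1 := by
    have := Nat.mul_div_le (r + 1 - w) k
    rw [← hm] at this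
    omega
  have hm2 : L ≤ 2 * (k * (2 * m + 1)) := by
    have := Nat.lt_mul_div_succ (r + 1 - w) hk0
    rw [← hm] at this
    have h2 : k * (m + 1) ≤ k * (2 * m + 1) := Nat.mul_le_mul_left _ (by omega)
    omega
  have hev : ∀ z : V, Ev ((k : ℤ) • z) := fun z => by
    unfold Ev
    simp only [Pi.smul_apply, smul_eq_mul, ← mul_sum, hk]
    push_cast
    exact ((even_two_mul _).mul_right _)
  have key := fin_vol P hp hF hT hG hr (box m) (fun z => S.image (· + (k : ℤ) • z))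
    (fun z => shift2 ((k : ℤ) • z) y) (fun z => shift2 ((k : ℤ) • z) y')
    (fun z hz => win_shift hΛ hy hS hne _ fun v hv => by
      rw [mem_image_add] at hv
      rw [mem_box] at hz ⊢
      intro i
      have h1 := abs_le.1 (mem_box.1 (hw hv) i)
      have h2 : |(k : ℤ) * z i| ≤ k * m := by
        rw [abs_mul, Nat.abs_cast]
        exact mul_le_mul_of_nonneg_left (hz i) (by positivity)
      have h3 : (k : ℤ) * m + w ≤ (r + 1 : ℕ) := by exact_mod_cast hm1
      simp only [Pi.sub_apply, Pi.smul_apply, smul_eq_mul] at h1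
      rw [abs_le] at h2 ⊢
      constructor <;> linarith [h1.1, h1.2, h2.1, h2.2])
    (fun z _ z' _ hzz => disjoint_left.2 fun v h1 h2 => hzz (funext fun i => by
      rw [mem_image_add] at h1 h2
      have a1 := abs_le.1 (mem_box.1 (hw h1) i)
      have a2 := abs_le.1 (mem_box.1 (hw h2) i)
      simp only [Pi.sub_apply, Pi.smul_apply, smul_eq_mul] at a1 a2
      have hkz : (k : ℤ) = 2 * (w + 1) := by exact_mod_cast hk
      have hkp : (0 : ℤ) < k := by exact_mod_cast hk0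
      by_contra hc
      rcases lt_or_gt_of_ne hc with h | h
      · have := mul_le_mul_of_nonneg_left (Int.add_one_le_of_lt h) hkp.le
        linarith [a1.1, a1.2, a2.1, a2.2]
      · have := mul_le_mul_of_nonneg_left (Int.add_one_le_of_lt h) hkp.le
        linarith [a1.1, a1.2, a2.1, a2.2]))
    hlt.le (ε := ε) (fun z _ => by
      simp only [measureReal_def] at hD ⊢
      rw [← hI _ (hev z), ← hI _ (hev z), hD])
    (ENNReal.toReal_le_of_le_ofReal hε0.le hb)
  simp only [card_box] at key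
  push_cast at key hrL
  set M : ℝ := (2 * m + 1) ^ 3 with hM
  have hM0 : 0 ≤ M := by positivity
  have hL1 : (r : ℝ) + 2 ≤ L := by exact_mod_cast hr
  have hr0 : (0 : ℝ) ≤ r := by positivity
  have hML : (L : ℝ) ^ 3 ≤ 8 * k ^ 3 * M := by
    have : (L : ℝ) ≤ 2 * (k * (2 * m + 1)) := by exact_mod_cast hm2
    refine (pow_le_pow_left₀ (by positivity) this 3).trans_eq ?_
    rw [hM]
    ring
  have hsh : (2 * (L : ℝ) + 1) ^ 3 - (2 * r + 1) ^ 3 ≤ 108 * (ε * L ^ 3) := by
    have e1 : (2 * (L : ℝ) + 1) ^ 3 - (2 * r + 1) ^ 3 = 2 * (L - r) *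
        ((2 * L + 1) ^ 2 + (2 * L + 1) * (2 * r + 1) + (2 * r + 1) ^ 2) := by ring
    have e2 : (2 * (L : ℝ) + 1) ^ 2 + (2 * L + 1) * (2 * r + 1) + (2 * r + 1) ^ 2 ≤ 27 * L ^ 2 := by
      nlinarith
    have e3 : 2 * ((L : ℝ) - r) ≤ 4 * (ε * L) := by linarith
    rw [e1]
    refine (mul_le_mul e3 e2 (by positivity) (by positivity)).trans_eq (by ring)
  have h1 : D * M * ε ≤ M * D ^ 2 / 4 := by
    have := mul_le_mul hD1 (show ε ≤ D ^ 2 / 4 by linarith) hε0.le zero_le_one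
    nlinarith
  have h2 : M * D ^ 2 / 4 ≤ 1 + 78732 * (ε * L ^ 3) := by linarith
  have h3 : (L : ℝ) ^ 3 * D ^ 2 ≤ 32 * k ^ 3 + 32 * 78732 * (ε * k ^ 3) * L ^ 3 := by
    have a1 := mul_le_mul_of_nonneg_right hML (sq_nonneg D)
    have a2 := mul_le_mul_of_nonneg_left h2 (show (0 : ℝ) ≤ 32 * k ^ 3 by positivity)
    nlinarith
  have h4 : ε * k ^ 3 = D ^ 2 / 10 ^ 7 := by linarith
  rw [h4] at h3
  have h5 : (N : ℝ) ≤ L ^ 3 := by
    have a1 : (N : ℝ) ≤ L := by exact_mod_cast (by omega : N ≤ L)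
    exact a1.trans (le_self_pow₀ (by linarith) (by norm_num))
  rw [div_lt_iff₀ (by positivity)] at hN
  have h6 := mul_le_mul_of_nonneg_right h5 (sq_nonneg D)
  have h7 : 0 ≤ (L : ℝ) ^ 3 * D ^ 2 := by positivity
  nlinarith

end Ent

theorem swap_of_entropy {X : Type} [MeasurableSpace X] (P : Measure X) [IsProbabilityMeasure P]
    (p : X → Om) (F : X → Set V) (hp : Measurable p) (hF : ∀ x, MeasurableSet {ω | x ∈ F ω})
    (hT : ∀ᵐ ω ∂P, Til (p ω) ∧ Invar (p ω) (F ω) ∧ NoFin (p ω) (F ω))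
    (hG : ∀ (Λ : Finset V) (y y' : Om), Swp Λ y y' → P (p ⁻¹' cyl Λ y) = P (p ⁻¹' cyl Λ y'))
    (hI : ∀ v, Ev v → ∀ (S : Finset V) (y : Om),
      P {ω | flp (F ω) (p ω) ∈ cyl S y} =
        P {ω | flp (F ω) (p ω) ∈ cyl (S.image (· + v)) (shift2 v y)})
    (hP : ∀ ε : ℝ, 0 < ε → ∀ L0 : ℕ, ∃ r L : ℕ, L0 ≤ L ∧ r < L ∧ (L : ℝ) - r ≤ ε * L ∧
      P {ω | ¬ (Patchable r L (p ω).1 (flp (F ω) (p ω)).1 ∧
        Patchable r L (p ω).2 (flp (F ω) (p ω)).2)} ≤ ENNReal.ofReal ε)
    (Λ S : Finset V) (hΛ : Λ ⊆ S) (y y' : Om) (hy : Swp Λ y y')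
    (hS : ∀ x ∈ S, x ∉ Λ → y.1 x = y'.1 x ∧ y.2 x = y'.2 x) :
    P {ω | flp (F ω) (p ω) ∈ cyl S y} = P {ω | flp (F ω) (p ω) ∈ cyl S y'} := by
  have h1 := Ent.not_lt_swap P hp hF hT hG hI hP Λ S hΛ y y' hy hS
  have h2 := Ent.not_lt_swap P hp hF hT hG hI hP Λ S hΛ y' y (Ent.swp_symm hy)
    fun x h h' => ⟨(hS x h h').1.symm, (hS x h h').2.symm⟩
  exact (ENNReal.toReal_eq_toReal_iff' (measure_ne_top _ _) (measure_ne_top _ _)).1
    (le_antisymm h1 h2)

end Pool.Agent.Lib.MP_640444_pr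
end
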