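import Pool.Agent.Lib.MP_640444_pr.Stmts2

-- part Pool.Agent.Lib.MP_640444_pr.Core
section

/-!
The counting inequality.
-/

set_option autoImplicit false
open MeasureTheory Filter Finset
open scoped Classical Topology ENNReal

namespace Pool.Agent.Lib.MP_640444_pr

namespace Core

/-- a surgery can be undone -/
lemma rel_unique {Λ B B0 : Finset V} {b : Bool} {p p' q : Om} (h1 : NT p.1) (h2 : NT p.2)
    (h1' : NT p'.1) (h2' : NT p'.2) (h : Rel Λ B B0 b p q) (h' : Rel Λ B B0 b p' q)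
    (hB : p' ∈ cyl B p) : p = p' := by
  obtain ⟨a1, a2, a3, a4⟩ := h
  obtain ⟨b1, b2, b3, b4⟩ := h'
  set G : Finset V := Λ.filter fun x => ¬ (p.1 x = p'.1 x ∧ p.2 x = p'.2 x) with hG
  have hout : ∀ x, x ∉ G → p.1 x = p'.1 x ∧ p.2 x = p'.2 x := by
    intro x hx
    by_cases hΛ : x ∈ Λ
    · by_contra hn
      exact hx (mem_filter.2 ⟨hΛ, hn⟩)
    · exact ⟨(a1 x hΛ).1.symm.trans (b1 x hΛ).1, (a1 x hΛ).2.symm.trans (b1 x hΛ).2⟩
  have hGB : Disjoint G B := disjoint_left.2 fun x hx hxB =>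
    (mem_filter.1 hx).2 ⟨(hB x hxB).1.symm, (hB x hxB).2.symm⟩
  have hGB0 : Disjoint G B0 := disjoint_left.2 fun x hx hxB => by
    have c1 := a3 x hxB
    have c2 := b3 x hxB
    refine (mem_filter.1 hx).2 ?_
    cases b
    · exact ⟨c1.1.symm.trans c2.1, c1.2.symm.trans c2.2⟩
    · exact ⟨c1.2.symm.trans c2.2, c1.1.symm.trans c2.1⟩
  have hsw : ∀ x ∈ G, p'.1 x = p.2 x ∧ p'.2 x = p.1 x ∧ p.1 x ≠ p.2 x := by
    intro x hx
    have hn := (mem_filter.1 hx).2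
    have hxB := disjoint_left.1 hGB hx
    have key : p'.1 x = p.2 x ∧ p'.2 x = p.1 x := by
      rcases a2 x hxB with c | c <;> rcases b2 x hxB with d | d
      · exact absurd ⟨c.1.symm.trans d.1, c.2.symm.trans d.2⟩ hn
      · exact ⟨d.2.symm.trans c.2, d.1.symm.trans c.1⟩
      · exact ⟨d.1.symm.trans c.1, d.2.symm.trans c.2⟩
      · exact absurd ⟨c.2.symm.trans d.2, c.1.symm.trans d.1⟩ hn
    exact ⟨key.1, key.2, fun e => hn ⟨e.trans key.1.symm, e.symm.trans key.2.symm⟩⟩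
  have hcl : Cls p G := by
    intro x hx
    obtain ⟨c1, c2, c3⟩ := hsw x hx
    constructor
    · by_contra hn
      have e := (hout _ hn).1
      rw [(h1 x).1] at e
      have e' := (h1' (p.1 x)).1
      rw [← e, c1] at e'
      exact c3 e'.symm
    · by_contra hn
      have e := (hout _ hn).2
      rw [(h2 x).1] at e
      have e' := (h2' (p.2 x)).1
      rw [← e, c2] at e'
      exact c3 e'
  have hcl' : Cls p' G := fun x hx => by
    rw [(hsw x hx).1, (hsw x hx).2.1]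
    exact (hcl x hx).symm
  have c1 := a4 G (filter_subset _ _) hGB hGB0 hcl
  have c2 := b4 G (filter_subset _ _) hGB hGB0 hcl'
  have hall : ∀ x, p.1 x = p'.1 x ∧ p.2 x = p'.2 x := by
    intro x
    by_cases hx : x ∈ G
    · exact ⟨(c1 x hx).1.symm.trans (c2 x hx).1, (c1 x hx).2.symm.trans (c2 x hx).2⟩
    · exact hout x hx
  exact Prod.ext (funext fun x => (hall x).1) (funext fun x => (hall x).2)

lemma res_mem {T : Finset V} {y : Om} (h1 : NT y.1) (h2 : NT y.2) : Ent.res T y ∈ Ent.Pat T := by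
  have key : ∀ a : Cfg, NT a → ∀ v, a v - v ∈ box 1 := by
    intro a ha v
    rcases (ha v).2 with e | e
    · rw [e, sub_self]
      exact mem_box.2 fun i => by simp
    · exact Ent.Adj.sub_mem e
  refine mem_product.2 ⟨Ent.mem_Pat1.2 ⟨fun v hv => ?_, fun v hv => ?_⟩,
    Ent.mem_Pat1.2 ⟨fun v hv => ?_, fun v hv => ?_⟩⟩
  · simpa [Ent.res, Ent.pch, hv] using key _ h1 v
  · simp [Ent.res, Ent.pch, hv]
  · simpa [Ent.res, Ent.pch, hv] using key _ h2 v
  · simp [Ent.res, Ent.pch, hv]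

lemma box_le {r R : ℕ} (h : r ≤ R) : box r ⊆ box R := fun _ hx =>
  mem_box.2 fun i => (mem_box.1 hx i).trans (by exact_mod_cast h)

/-- the repaired pair looks like `R` near the origin -/
lemma out_of {ρ ρ' : ℕ} {Λ : Finset V} {z1 z2 : V} {t : Prop} {b : Bool} {q q' R : Om}
    (hρ : ρ ≤ ρ') (h1 : Hol q.1 z1 (z2 + e0)) (h2 : Hol q.2 z2 (z1 + e0)) (hR : Til R)
    (hq : q ∈ cyl (box ρ') R)
    (h : Rel Λ {z1, z2, z1 + e0, z2 + e0} (if t then box ρ else ∅) b q q') : Out t ρ R q' := by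
  obtain ⟨-, a2, a3, -⟩ := h
  constructor
  · intro x hx
    have e := hq x (box_le hρ hx)
    rw [← e.1, ← e.2]
    refine a2 x fun hB => ?_
    have n1 : q.1 x ≠ x := by
      rw [e.1]
      exact (hR.1 x).1.ne
    have n2 : q.2 x ≠ x := by
      rw [e.2]
      exact (hR.2 x).1.ne
    simp only [mem_insert, mem_singleton] at hB
    rcases hB with c | c | c | c
    · exact n1 ((h1.2 x).2 (Or.inl c))
    · exact n2 ((h2.2 x).2 (Or.inl c))
    · exact n2 ((h2.2 x).2 (Or.inr c))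
    · exact n1 ((h1.2 x).2 (Or.inr c))
  · intro ht
    rw [if_pos ht] at a3
    cases b
    · exact Or.inl fun x hx => ⟨(a3 x hx).1.trans (hq x (box_le hρ hx)).1,
        (a3 x hx).2.trans (hq x (box_le hρ hx)).2⟩
    · exact Or.inr fun x hx => ⟨(a3 x hx).1.trans (hq x (box_le hρ hx)).2,
        (a3 x hx).2.trans (hq x (box_le hρ hx)).1⟩

lemma mem_cl2 {Λ : Finset V} {p q p₀ : Om} (hp : p ∈ cl2 Λ p₀) (hq : Til q)
    (h : ∀ x, x ∉ Λ → q.1 x = p.1 x ∧ q.2 x = p.2 x) : q ∈ cl2 Λ p₀ := by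
  obtain ⟨a1, a2⟩ := mem_product.1 hp
  exact mem_product.2 ⟨mem_cls.2 ⟨hq.1, fun x hx => (h x hx).1.trans ((mem_cls.1 a1).2 x hx)⟩,
    mem_cls.2 ⟨hq.2, fun x hx => (h x hx).2.trans ((mem_cls.1 a2).2 x hx)⟩⟩

lemma card_four (a b c d : V) : (Ent.Pat {a, b, c, d}).card ≤ 729 ^ 4 :=
  (Ent.card_Pat _).trans (Nat.pow_le_pow_right (by norm_num) card_le_four)

lemma card_two (L : ℕ) (a b : V) :
    (Ent.Pat (tb a L ∪ tb b L)).card ≤ 729 ^ (2 * (2 * L + 1) ^ 3) := by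
  refine (Ent.card_Pat _).trans (Nat.pow_le_pow_right (by norm_num) ?_)
  refine (card_union_le _ _).trans ?_
  rw [card_tb, card_tb, two_mul ((2 * L + 1) ^ 3)]

end Core

open _root_.Pool.Agent.Lib.MP_640444_pr.Core in
theorem core_of (hK : KrsStmt) : CoreStmt := by
  intro L
  refine ⟨(2 * 729 ^ 4 * 729 ^ (2 * (2 * L + 1) ^ 3)) ^ 2, ?_⟩
  intro ρ ρ' M M' z1 z2 t1 t2 D I hz1 hz2 hz hρ hρ' hM hD ω₀
  have hex : ∀ ω ∈ D, ∃ (H H' q1 q2 : Om) (b1 b2 : Bool),
      NT H.1 ∧ NT H.2 ∧ NT H'.1 ∧ NT H'.2 ∧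
      Rel (box M) (tb z1 L ∪ tb z2 L) (box ρ') true (ω.1.1, ω.2.1) H ∧
      Rel (box M) (tb z2 L ∪ tb z1 L) (box ρ') true (ω.1.2, ω.2.2) H' ∧
      Rel (box M') {z1, z2, z1 + e0, z2 + e0} (if t1 then box ρ else ∅) b1 (H.1, H'.1) q1 ∧
      Rel (box M') {z2, z1, z2 + e0, z1 + e0} (if t2 then box ρ else ∅) b2 (H.2, H'.2) q2 ∧
      (q1, q2) ∈ I ∧ (ω ∈ cl4 (box M') ω₀ → (q1, q2) ∈ cl4 (box M') ω₀) := by
    intro ω hω
    obtain ⟨g1, g2, ⟨H, a1, a2, a3⟩, ⟨H', b1, b2, b3⟩, e1, e2, hI⟩ := hD ω hω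
    have o1 : ∀ x, x ∉ box M → (H.1, H'.1).1 x = ω.1.1 x ∧ (H.1, H'.1).2 x = ω.1.2 x :=
      fun x hx => ⟨(a3.1 x hx).1, (b3.1 x hx).1⟩
    have o2 : ∀ x, x ∉ box M → (H.2, H'.2).1 x = ω.2.1 x ∧ (H.2, H'.2).2 x = ω.2.2 x :=
      fun x hx => ⟨(a3.1 x hx).2, (b3.1 x hx).2⟩
    have i1 : (H.1, H'.1) ∈ cyl (box ρ') ω.2 := fun x hx => ⟨(a3.2.2.1 x hx).1, (b3.2.2.1 x hx).1⟩
    have i2 : (H.2, H'.2) ∈ cyl (box ρ') ω.1 := fun x hx => ⟨(a3.2.2.1 x hx).2, (b3.2.2.1 x hx).2⟩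
    obtain ⟨q1, c1, c2, c3⟩ := hK ρ ρ' M M' z1 z2 ω.1 (H.1, H'.1) ω.2 t1 hz1 hz2 hz hρ hρ' hM g1
      a1 b1 o1 g2.1 g2.2.1 i1 e1
    obtain ⟨q2, d1, d2, d3⟩ := hK ρ ρ' M M' z2 z1 ω.2 (H.2, H'.2) ω.1 t2 hz2 hz1 hz.symm hρ hρ' hM
      g2 a2 b2 o2 g1.1 g1.2.1 i2 e2
    refine ⟨H, H', q1, q2, c1, d1, a1.1, a2.1, b1.1, b2.1, a3, b3, c3, d3,
      hI q1 q2 (out_of (q := (H.1, H'.1)) hρ a1 b1 g2.1 i1 c3)
        (out_of (q := (H.2, H'.2)) hρ a2 b2 g1.1 i2 d3), fun hc => ?_⟩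
    obtain ⟨m1, m2⟩ := mem_product.1 hc
    refine mem_product.2 ⟨mem_cl2 m1 c2 fun x hx => ?_, mem_cl2 m2 d2 fun x hx => ?_⟩
    · have hx' : x ∉ box M := fun h => hx (box_le hM h)
      exact ⟨(c3.1 x hx).1.trans (o1 x hx').1, (c3.1 x hx).2.trans (o1 x hx').2⟩
    · have hx' : x ∉ box M := fun h => hx (box_le hM h)
      exact ⟨(d3.1 x hx).1.trans (o2 x hx').1, (d3.1 x hx).2.trans (o2 x hx').2⟩
  choose! H H' q1 q2 b1 b2 n1 n2 n3 n4 r1 r2 r3 r4 hI hc using hex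
  have hT : ∀ ω ∈ D, NT ω.1.1 ∧ NT ω.1.2 ∧ NT ω.2.1 ∧ NT ω.2.2 := fun ω hω =>
    ⟨(hD ω hω).1.1.1.nt, (hD ω hω).1.1.2.nt, (hD ω hω).2.1.1.1.nt, (hD ω hω).2.1.1.2.nt⟩
  set S1 : Finset ((Bool × Om) × Om) := (univ ×ˢ Ent.Pat {z1, z2, z1 + e0, z2 + e0}) ×ˢ
    Ent.Pat (tb z1 L ∪ tb z2 L) with hS1
  set S2 : Finset ((Bool × Om) × Om) := (univ ×ˢ Ent.Pat {z2, z1, z2 + e0, z1 + e0}) ×ˢ
    Ent.Pat (tb z2 L ∪ tb z1 L) with hS2
  have k1 : S1.card ≤ 2 * 729 ^ 4 * 729 ^ (2 * (2 * L + 1) ^ 3) := by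
    rw [hS1, card_product, card_product, card_univ, Fintype.card_bool]
    exact Nat.mul_le_mul (Nat.mul_le_mul_left 2 (card_four _ _ _ _)) (card_two _ _ _)
  have k2 : S2.card ≤ 2 * 729 ^ 4 * 729 ^ (2 * (2 * L + 1) ^ 3) := by
    rw [hS2, card_product, card_product, card_univ, Fintype.card_bool]
    exact Nat.mul_le_mul (Nat.mul_le_mul_left 2 (card_four _ _ _ _)) (card_two _ _ _)
  have main : #{ω ∈ cl4 (box M') ω₀ | ω ∈ D} ≤
      ((S1 ×ˢ S2) ×ˢ {ω ∈ cl4 (box M') ω₀ | ω ∈ I}).card := by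
    refine card_le_card_of_injOn (fun ω =>
      ((((b1 ω, Ent.res {z1, z2, z1 + e0, z2 + e0} ((H ω).1, (H' ω).1)),
          Ent.res (tb z1 L ∪ tb z2 L) (ω.1.1, ω.2.1)),
        ((b2 ω, Ent.res {z2, z1, z2 + e0, z1 + e0} ((H ω).2, (H' ω).2)),
          Ent.res (tb z2 L ∪ tb z1 L) (ω.1.2, ω.2.2))), (q1 ω, q2 ω))) ?_ ?_
    · intro ω hω
      obtain ⟨m1, m2⟩ := mem_filter.1 (mem_coe.1 hω)
      obtain ⟨t1, t2, t3, t4⟩ := hT ω m2
      exact mem_coe.2 (mem_product.2 ⟨mem_product.2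
        ⟨mem_product.2 ⟨mem_product.2 ⟨mem_univ _, res_mem (n1 ω m2) (n3 ω m2)⟩, res_mem t1 t3⟩,
          mem_product.2 ⟨mem_product.2 ⟨mem_univ _, res_mem (n2 ω m2) (n4 ω m2)⟩, res_mem t2 t4⟩⟩,
        mem_filter.2 ⟨hc ω m2 m1, hI ω m2⟩⟩)
    · intro ω hω ω' hω' e
      have m := (mem_filter.1 (mem_coe.1 hω)).2
      have m' := (mem_filter.1 (mem_coe.1 hω')).2
      simp only [Prod.mk.injEq] at e
      obtain ⟨⟨⟨⟨e1, e2⟩, e3⟩, ⟨e4, e5⟩, e6⟩, e7, e8⟩ := e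
      obtain ⟨t1, t2, t3, t4⟩ := hT ω m
      obtain ⟨t1', t2', t3', t4'⟩ := hT ω' m'
      have u1 : ((H ω).1, (H' ω).1) = ((H ω').1, (H' ω').1) :=
        rel_unique (n1 ω m) (n3 ω m) (n1 ω' m') (n3 ω' m') (r3 ω m)
          (by rw [e1, e7]; exact r3 ω' m') (Ent.res_eq_iff.1 e2.symm)
      have u2 : ((H ω).2, (H' ω).2) = ((H ω').2, (H' ω').2) :=
        rel_unique (n2 ω m) (n4 ω m) (n2 ω' m') (n4 ω' m') (r4 ω m)
          (by rw [e4, e8]; exact r4 ω' m') (Ent.res_eq_iff.1 e5.symm)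
      simp only [Prod.mk.injEq] at u1 u2
      have v1 : H ω = H ω' := Prod.ext u1.1 u2.1
      have v2 : H' ω = H' ω' := Prod.ext u1.2 u2.2
      have w1 : (ω.1.1, ω.2.1) = (ω'.1.1, ω'.2.1) :=
        rel_unique t1 t3 t1' t3' (r1 ω m) (by rw [v1]; exact r1 ω' m') (Ent.res_eq_iff.1 e3.symm)
      have w2 : (ω.1.2, ω.2.2) = (ω'.1.2, ω'.2.2) :=
        rel_unique t2 t4 t2' t4' (r2 ω m) (by rw [v2]; exact r2 ω' m') (Ent.res_eq_iff.1 e6.symm)
      simp only [Prod.mk.injEq] at w1 w2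
      exact Prod.ext (Prod.ext w1.1 w2.1) (Prod.ext w1.2 w2.2)
  refine main.trans ?_
  rw [card_product, card_product, sq]
  exact Nat.mul_le_mul_right _ (Nat.mul_le_mul k1 k2)

end Pool.Agent.Lib.MP_640444_pr
end

-- part Pool.Agent.Lib.MP_640444_pr.Uniq
section

/-!
Uniqueness of the ergodic Gibbs measure: assembly.
-/

set_option autoImplicit false
open MeasureTheory Filter Finset
open scoped Classical Topology ENNReal

namespace Pool.Agent.Lib.MP_640444_pr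

namespace Uniq

/-- both pairs have a hybrid -/
def EE (E₁ E₂ : Set Om) : Set (Om × Om) := {ω | (ω.1.1, ω.2.1) ∈ E₁ ∧ (ω.1.2, ω.2.2) ∈ E₂}

lemma mset_EE {E₁ E₂ : Set Om} (h₁ : MeasurableSet E₁) (h₂ : MeasurableSet E₂) :
    MeasurableSet (EE E₁ E₂) :=
  ((measurable_fst.fst.prodMk measurable_snd.fst) h₁).inter
    ((measurable_fst.snd.prodMk measurable_snd.snd) h₂)

lemma rearr (μ₁ μ₂ : Measure Cfg) [IsProbabilityMeasure μ₁] [IsProbabilityMeasure μ₂]
    {E₁ E₂ : Set Om} (h₁ : MeasurableSet E₁) (h₂ : MeasurableSet E₂) :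
    ((μ₁.prod μ₁).prod (μ₂.prod μ₂)).real (EE E₁ E₂) =
      (μ₁.prod μ₂).real E₁ * (μ₁.prod μ₂).real E₂ := by
  simp only [measureReal_def, ← ENNReal.toReal_mul]
  congr 1
  rw [Measure.prod_apply (mset_EE h₁ h₂), Measure.prod_apply h₁, Measure.prod_apply h₂,
    ← lintegral_prod_mul (measurable_measure_prodMk_left h₁).aemeasurable
      (measurable_measure_prodMk_left h₂).aemeasurable]
  refine lintegral_congr fun P => ?_
  rw [← Measure.prod_prod]
  rfl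

lemma trL {π R κ : Measure Om} [IsFiniteMeasure π] [IsFiniteMeasure R] [IsFiniteMeasure κ]
    (hκ : κ Set.univ ≤ 1) {Λ : Finset V} {N : Set Om} (hN : MeasurableSet N) {ε : ℝ} (hε : 0 < ε)
    (h : ∀ A : Set Om, MeasurableSet A → (∀ τ, Loc1 Λ {σ | (τ, σ) ∈ A}) →
      π (A ∩ N) ≤ R A + ENNReal.ofReal ε) {F : Set (Om × Om)} (hF : MeasurableSet F)
    (hl : ∀ y τ, Loc1 Λ {σ | ((τ, σ), y) ∈ F}) :
    (π.prod κ).real (F ∩ N ×ˢ Set.univ) ≤ (R.prod κ).real F + ε := by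
  have h1 : (π.prod κ) (F ∩ N ×ˢ Set.univ) ≤ (R.prod κ) F + ENNReal.ofReal ε := by
    rw [Measure.prod_apply_symm (hF.inter (hN.prod MeasurableSet.univ)), Measure.prod_apply_symm hF]
    calc _ ≤ ∫⁻ y, (R ((fun x => (x, y)) ⁻¹' F) + ENNReal.ofReal ε) ∂κ := by
          refine lintegral_mono fun y => le_trans (le_of_eq (congrArg π ?_))
            (h _ (measurable_prodMk_right hF) (hl y))
          ext x; simp
      _ ≤ _ := by
          rw [lintegral_add_right _ measurable_const, lintegral_const]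
          exact add_le_add_right (mul_le_of_le_one_right zero_le hκ) _
  have h2 := ENNReal.toReal_mono (by finiteness) h1
  rwa [ENNReal.toReal_add (measure_ne_top _ _) ENNReal.ofReal_ne_top,
    ENNReal.toReal_ofReal hε.le] at h2

lemma trR {π R κ : Measure Om} [IsFiniteMeasure π] [IsFiniteMeasure R] [IsFiniteMeasure κ]
    (hκ : κ Set.univ ≤ 1) {Λ : Finset V} {N : Set Om} (hN : MeasurableSet N) {ε : ℝ} (hε : 0 < ε)
    (h : ∀ A : Set Om, MeasurableSet A → (∀ τ, Loc1 Λ {σ | (τ, σ) ∈ A}) →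
      π (A ∩ N) ≤ R A + ENNReal.ofReal ε) {F : Set (Om × Om)} (hF : MeasurableSet F)
    (hl : ∀ y τ, Loc1 Λ {σ | (y, (τ, σ)) ∈ F}) :
    (κ.prod π).real (F ∩ Set.univ ×ˢ N) ≤ (κ.prod R).real F + ε := by
  have h1 : (κ.prod π) (F ∩ Set.univ ×ˢ N) ≤ (κ.prod R) F + ENNReal.ofReal ε := by
    rw [Measure.prod_apply (hF.inter (MeasurableSet.univ.prod hN)), Measure.prod_apply hF]
    calc _ ≤ ∫⁻ y, (R (Prod.mk y ⁻¹' F) + ENNReal.ofReal ε) ∂κ := by
          refine lintegral_mono fun y => le_trans (le_of_eq (congrArg π ?_))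
            (h _ (measurable_prodMk_left hF) (hl y))
          ext x; simp
      _ ≤ _ := by
          rw [lintegral_add_right _ measurable_const, lintegral_const]
          exact add_le_add_right (mul_le_of_le_one_right zero_le hκ) _
  have h2 := ENNReal.toReal_mono (by finiteness) h1
  rwa [ENNReal.toReal_add (measure_ne_top _ _) ENNReal.ofReal_ne_top,
    ENNReal.toReal_ofReal hε.le] at h2

lemma real_le_one {X : Type} [MeasurableSpace X] {Q : Measure X} (h : Q Set.univ ≤ 1) :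
    Q.real Set.univ ≤ 1 := by
  simpa [measureReal_def] using ENNReal.toReal_mono ENNReal.one_ne_top h

lemma prod_left {Q₁ Q₂ : Measure Om} [IsFiniteMeasure Q₁] [IsFiniteMeasure Q₂]
    (h : Q₂ Set.univ ≤ 1) (A : Set Om) : (Q₁.prod Q₂).real (A ×ˢ Set.univ) ≤ Q₁.real A := by
  rw [measureReal_prod_prod]
  exact mul_le_of_le_one_right measureReal_nonneg (real_le_one h)

lemma prod_right {Q₁ Q₂ : Measure Om} [IsFiniteMeasure Q₁] [IsFiniteMeasure Q₂]
    (h : Q₁ Set.univ ≤ 1) (A : Set Om) : (Q₁.prod Q₂).real (Set.univ ×ˢ A) ≤ Q₂.real A := by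
  rw [measureReal_prod_prod]
  exact mul_le_of_le_one_left measureReal_nonneg (real_le_one h)

lemma bound {Q₁ Q₂ : Measure Om} [IsFiniteMeasure Q₁] [IsFiniteMeasure Q₂]
    (h₁ : Q₁ Set.univ ≤ 1) (h₂ : Q₂ Set.univ ≤ 1) (E : Set (Om × Om)) (O₁ O₂ W₁ W₂ : Set Om) :
    (Q₁.prod Q₂).real (E ∩ O₁ ×ˢ O₂) ≤
      (Q₁.prod Q₂).real (E ∩ W₁ ×ˢ W₂) + Q₁.real (O₁ \ W₁) + Q₂.real (O₂ \ W₂) := by
  have hs : E ∩ O₁ ×ˢ O₂ ⊆ (E ∩ W₁ ×ˢ W₂ ∪ (O₁ \ W₁) ×ˢ Set.univ) ∪ Set.univ ×ˢ (O₂ \ W₂) := by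
    intro ω hω
    simp only [Set.mem_union, Set.mem_inter_iff, Set.mem_prod, Set.mem_sdiff, Set.mem_univ] at hω ⊢
    tauto
  refine (measureReal_mono hs).trans ((measureReal_union_le _ _).trans
    (add_le_add ((measureReal_union_le _ _).trans (add_le_add le_rfl (prod_left h₂ _)))
      (prod_right h₁ _)))

lemma kap_le (μ : Measure Cfg) [IsProbabilityMeasure μ] {T : Set Cfg} (hT : MeasurableSet T) :
    kap μ T ≤ μ T := by
  rw [kap, Measure.map_apply measurable_fst hT]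
  exact (Measure.restrict_le_self _).trans
    ((measurePreserving_fst (μ := μ) (ν := μ)).measure_preimage hT.nullMeasurableSet).le

lemma mset_gp (M M' : ℕ) : MeasurableSet {P | GP M M' P} :=
  mset_til.inter (mset_one.inter (mset_exc M M'))

lemma one_sdiff {s : Fin 3 → ℝ} {μ : Measure Cfg} (h : IsEGM s μ) (M M' : ℕ) (X : Set Om) :
    (μ.prod μ).real ({p | One p} \ ({P | GP M M' P} ∩ X)) ≤
      (μ.prod μ).real {p | ¬ Exc M M' p} + (μ.prod μ).real Xᶜ := by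
  have := h.prob
  refine le_trans (ENNReal.toReal_mono (measure_ne_top _ _) (measure_mono_ae ?_))
    (measureReal_union_le _ _)
  filter_upwards [prod_til h h] with p hp h1
  by_contra hc
  have hc' : ¬ (¬ Exc M M' p ∨ p ∉ X) := hc
  rw [not_or, not_not, not_not] at hc'
  exact h1.2 ⟨⟨hp, h1.1, hc'.1⟩, hc'.2⟩

lemma both_le (μ : Measure Cfg) [IsProbabilityMeasure μ] (Y : Set Om) (T : Set Cfg) :
    (μ.prod μ).real (Y ∩ T ×ˢ T)ᶜ ≤ (μ.prod μ).real Yᶜ + 2 * μ.real Tᶜ := by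
  have hs : (Y ∩ T ×ˢ T)ᶜ ⊆ (Yᶜ ∪ Tᶜ ×ˢ Set.univ) ∪ Set.univ ×ˢ Tᶜ := by
    intro p hp
    simp only [Set.mem_union, Set.mem_inter_iff, Set.mem_prod, Set.mem_compl_iff, Set.mem_univ]
      at hp ⊢
    tauto
  refine (measureReal_mono hs).trans ((measureReal_union_le _ _).trans ?_)
  have := measureReal_union_le (μ := μ.prod μ) Yᶜ (Tᶜ ×ˢ Set.univ)
  rw [measureReal_prod_prod] at this ⊢
  simp only [probReal_univ] at this ⊢
  linarith

lemma out_mem {ρ ρ₁ : ℕ} (h : ρ₁ ≤ ρ) {T : Set Cfg} (hT : Loc1 (box ρ₁) T) {R q : Om}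
    (hq : Out True ρ R q) (h1 : R.1 ∈ T) (h2 : R.2 ∈ T) : q.1 ∈ T := by
  rcases hq.2 trivial with e | e
  · exact hT _ _ (fun x hx => (e x (Ent.box_mono h hx)).1) h1
  · exact hT _ _ (fun x hx => (e x (Ent.box_mono h hx)).1) h2

end Uniq

open Uniq in
theorem uniq_of (hD : DlrStmt) (hA : AlphaStmt) (hR : TransStmt) (hT : TypStmt) (hH : HybStmt)
    (hC : CoreStmt) : UniqStmt := by
  intro s μ₁ μ₂ hs h₁ h₂
  by_contra hne
  have := h₁.prob
  have := h₂.prob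
  obtain ⟨c, hc, L, hH⟩ := hH s μ₁ μ₂ hs h₁ h₂ hne
  obtain ⟨C, hC⟩ := hC L
  have hC0 : (0 : ℝ) ≤ C := Nat.cast_nonneg C
  set η : ℝ := c ^ 2 / (100 * (C + 1)) with hη
  have hη0 : 0 < η := by positivity
  set K : ℝ := 8 * (C + 1) / c ^ 2 + 1 with hK
  have hK1 : 1 ≤ K := by rw [hK]; exact le_add_of_nonneg_left (by positivity)
  obtain ⟨S, y, hSy⟩ := hT.cyl s μ₁ μ₂ h₁ h₂ hne K (by linarith)
  have e0 : 0 ≤ μ₁.real (cylG S y) := measureReal_nonneg
  have e2 : 0 < μ₂.real (cylG S y) := lt_of_le_of_lt (by positivity) hSy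
  obtain ⟨ρ₁, T, hTl, hT1, hT2⟩ := hT.typ s μ₁ μ₂ h₁ h₂ hne η hη0
  have hTc : Loc1 (box ρ₁) Tᶜ := fun σ σ' h h1 h2 => h1 (hTl σ' σ (fun x hx => (h x hx).symm) h2)
  obtain ⟨l, hl, hlow⟩ := hA.low s μ₂ h₂ S y η hη0 e2
  obtain ⟨mSt, ρ₀, hSt⟩ := hT.st S y l
  set ρ := max ρ₀ ρ₁ with hρ
  obtain ⟨ρ', a1, a2, a3⟩ := ((eventually_ge_atTop ρ).and
    (((hT.exc (μ₁.prod μ₁) ρ).eventually (ge_mem_nhds hη0)).and
      ((hT.exc (μ₂.prod μ₂) ρ).eventually (ge_mem_nhds hη0)))).exists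
  obtain ⟨z1, z2, M, E₁, E₂, ez1, ez2, hz, hρM, l1, l2, y1, y2, c1, c2⟩ := hH ρ'
  set t : ℝ := μ₂.real (cylG S y) ^ 2 / 2 with ht
  have ht0 : 0 < t := by positivity
  obtain ⟨M', b1, b2, b3, b4, b5, b6, b7⟩ := ((eventually_gt_atTop M).and
    (((hT.exc (μ₁.prod μ₁) M).eventually (ge_mem_nhds hη0)).and
    (((hT.exc (μ₂.prod μ₂) M).eventually (ge_mem_nhds hη0)).and
    ((hR.tr s μ₁ hs h₁ (box M) η hη0).and ((hR.tr s μ₂ hs h₂ (box M) η hη0).and
    ((hR.up s μ₁ hs h₁ S y l t η hl ht0 hη0).and hlow)))))).exists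
  obtain ⟨-, g1, g2⟩ := hD.egm s μ₁ h₁ (box M')
  obtain ⟨-, g3, g4⟩ := hD.egm s μ₂ h₂ (box M')
  obtain ⟨r1, r2, r3⟩ := hD.rsg _ _ g1
  obtain ⟨r4, r5, r6⟩ := hD.rsg _ _ g3
  set R₁ := Rs (box M') (kap μ₁) with hR₁
  set R₂ := Rs (box M') (kap μ₂) with hR₂
  have u1 : R₁ Set.univ ≤ 1 := by
    have := r3 _ MeasurableSet.univ
    rw [Set.preimage_univ] at this
    exact this.le.trans ((kap_le μ₁ MeasurableSet.univ).trans measure_univ.le)
  have u2 : R₂ Set.univ ≤ 1 := by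
    have := r6 _ MeasurableSet.univ
    rw [Set.preimage_univ] at this
    exact this.le.trans ((kap_le μ₂ MeasurableSet.univ).trans measure_univ.le)
  have : IsFiniteMeasure R₁ := ⟨u1.trans_lt ENNReal.one_lt_top⟩
  have : IsFiniteMeasure R₂ := ⟨u2.trans_lt ENNReal.one_lt_top⟩
  have v1 : (μ₁.prod μ₁) Set.univ ≤ 1 := measure_univ.le
  have v2 : (μ₂.prod μ₂) Set.univ ≤ 1 := measure_univ.le
  set E := EE E₁ E₂ with hE
  have mE : MeasurableSet E := mset_EE l1.mset l2.mset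
  set G : Set Om := {P | GP M M' P} with hG
  have mG : MeasurableSet G := mset_gp M M'
  set O : Set Om := {p | One p} with hO
  have mO : MeasurableSet O := mset_one
  -- the counting inequality
  have core : ∀ (Q₁ Q₂ : Measure Om) [IsFiniteMeasure Q₁] [IsFiniteMeasure Q₂],
      Gib2 (box M') Q₁ → Gib2 (box M') Q₂ → ∀ (t1 t2 : Prop) (X₁ X₂ : Set Om) (I : Set (Om × Om)),
      MeasurableSet X₁ → MeasurableSet X₂ → MeasurableSet I →
      (∀ P ∈ X₂, t1 → Exc ρ ρ' P) → (∀ P ∈ X₁, t2 → Exc ρ ρ' P) →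
      (∀ P₁ ∈ X₁, ∀ P₂ ∈ X₂, ∀ q1 q2, Out t1 ρ P₂ q1 → Out t2 ρ P₁ q2 → (q1, q2) ∈ I) →
      (Q₁.prod Q₂).real (E ∩ (G ∩ X₁) ×ˢ (G ∩ X₂)) ≤ C * (Q₁.prod Q₂).real I := by
    intro Q₁ Q₂ _ _ k1 k2 t1 t2 X₁ X₂ I m1 m2 m3 k3 k4 k5
    refine hD.count _ Q₁ Q₂ k1 k2 _ I C (mE.inter ((mG.inter m1).prod (mG.inter m2))) m3
      (hC ρ ρ' M M' z1 z2 t1 t2 _ I ez1 ez2 hz a1 hρM b1.le fun ω hω => ?_)
    obtain ⟨⟨d1, d2⟩, ⟨d3, d4⟩, d5, d6⟩ := hω
    exact ⟨d3, d5, y1 _ d1 ⟨d3.1.1, d5.1.1⟩, y2 _ d2 ⟨d3.1.2, d5.1.2⟩, k3 _ d6, k4 _ d4,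
      k5 _ d4 _ d6⟩
  have z1' : ∀ X : Set Om, R₁.real (Set.univ \ (G ∩ X)) ≤ R₁.real Xᶜ := fun X =>
    ENNReal.toReal_mono (measure_ne_top _ _) (measure_mono_ae (by
      filter_upwards [r2] with p hp h1 h2 using h1.2 ⟨hT.gp M M' p b1 hp.1 hp.2, h2⟩))
  have z2' : ∀ X : Set Om, R₂.real (Set.univ \ (G ∩ X)) ≤ R₂.real Xᶜ := fun X =>
    ENNReal.toReal_mono (measure_ne_top _ _) (measure_mono_ae (by
      filter_upwards [r5] with p hp h1 h2 using h1.2 ⟨hT.gp M M' p b1 hp.1 hp.2, h2⟩))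
  set Y : Set Om := {p | Exc ρ ρ' p} with hY
  have mY : MeasurableSet Y := mset_exc ρ ρ'
  have mT := hTl.mset
  -- the second pair is tight
  have caseA : ∀ (Q₁ : Measure Om) [IsFiniteMeasure Q₁], Gib2 (box M') Q₁ → Q₁ Set.univ ≤ 1 →
      Q₁.real (Prod.fst ⁻¹' T) ≤ η → ∀ O₁ : Set Om, Q₁.real (O₁ \ (G ∩ Set.univ)) ≤ η →
      (Q₁.prod (μ₂.prod μ₂)).real (E ∩ O₁ ×ˢ O) ≤ C * η + 5 * η := by
    intro Q₁ _ k1 k2 k3 O₁ k4
    have f1 := bound k2 v2 E O₁ O (G ∩ Set.univ) (G ∩ (Y ∩ T ×ˢ T))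
    have f2 := core Q₁ _ k1 g4 True False Set.univ (Y ∩ T ×ˢ T) ((Prod.fst ⁻¹' T) ×ˢ Set.univ)
      MeasurableSet.univ (mY.inter (mT.prod mT)) ((measurable_fst mT).prod MeasurableSet.univ)
      (fun P h _ => h.1) (fun _ _ h => h.elim) fun _ _ P h q1 q2 h1 _ =>
        ⟨out_mem (le_max_right _ _) hTl h1 h.2.1 h.2.2, trivial⟩
    have f3 := mul_le_mul_of_nonneg_left ((prod_left (Q₁ := Q₁) v2 _).trans k3) hC0
    have f4 := one_sdiff h₂ M M' (Y ∩ T ×ˢ T)
    have f5 := both_le μ₂ Y T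
    have f6 : (μ₂.prod μ₂).real Yᶜ ≤ η := a3
    linarith
  have p1 := caseA (μ₁.prod μ₁) g2 v1 (by
    rw [← Set.prod_univ, measureReal_prod_prod, probReal_univ, mul_one]; exact hT1) O (by
    have := one_sdiff h₁ M M' Set.univ
    rw [Set.compl_univ, measureReal_empty] at this
    linarith)
  have p2 := caseA R₁ r1 u1 (le_trans (ENNReal.toReal_mono (measure_ne_top _ _)
    ((r3 T mT).le.trans (kap_le μ₁ mT))) hT1) Set.univ (by
    have := z1' Set.univ
    rw [Set.compl_univ, measureReal_empty] at this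
    linarith)
  have p3 : ((μ₁.prod μ₁).prod R₂).real (E ∩ O ×ˢ Set.univ) ≤ C * η + 4 * η := by
    have f1 := bound v1 u2 E O Set.univ (G ∩ (Y ∩ Tᶜ ×ˢ Tᶜ)) (G ∩ Set.univ)
    have f2 := core _ R₂ g2 r4 False True (Y ∩ Tᶜ ×ˢ Tᶜ) Set.univ (Set.univ ×ˢ (Prod.fst ⁻¹' Tᶜ))
      (mY.inter (mT.compl.prod mT.compl)) MeasurableSet.univ
      (MeasurableSet.univ.prod (measurable_fst mT.compl))
      (fun _ _ h => h.elim) (fun P h _ => h.1) fun P h _ _ q1 q2 _ h1 =>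
        ⟨trivial, out_mem (le_max_right _ _) hTc h1 h.2.1 h.2.2⟩
    have k3 : R₂.real (Prod.fst ⁻¹' Tᶜ) ≤ η := le_trans (ENNReal.toReal_mono (measure_ne_top _ _)
      ((r6 _ mT.compl).le.trans (kap_le μ₂ mT.compl))) hT2
    have f3 := mul_le_mul_of_nonneg_left ((prod_right (Q₂ := R₂) v1 _).trans k3) hC0
    have f4 := one_sdiff h₁ M M' (Y ∩ Tᶜ ×ˢ Tᶜ)
    have f5 := both_le μ₁ Y Tᶜ
    have f6 : (μ₁.prod μ₁).real Yᶜ ≤ η := a2
    have f7 := z2' Set.univ
    rw [Set.compl_univ, measureReal_empty] at f7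
    rw [compl_compl] at f5
    linarith
  have p4 : (R₁.prod R₂).real E ≤ C * (μ₁.real (cylG S y) ^ 2 / t + η) + η := by
    set Z : Set Om := {p | t * Ne l ≤ St S y l p} with hZ
    have mZ : MeasurableSet Z :=
      measurableSet_le measurable_const ((measurable_of_countable (Nat.cast : ℕ → ℝ)).comp mSt)
    have f1 := bound u1 u2 E Set.univ Set.univ (G ∩ Set.univ) (G ∩ Z)
    have f2 := core R₁ R₂ r1 r4 False False Set.univ Z (Z ×ˢ Set.univ) MeasurableSet.univ mZ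
      (mZ.prod MeasurableSet.univ) (fun _ _ h => h.elim) (fun _ _ h => h.elim)
      fun _ _ P h q1 q2 h1 _ => ⟨by
        change t * Ne l ≤ St S y l q1
        rw [hSt ρ (le_max_left _ _) _ _ _ h1]
        exact h, trivial⟩
    have f3 := mul_le_mul_of_nonneg_left ((prod_left (Q₁ := R₁) u2 Z).trans b6) hC0
    have f4 := z1' Set.univ
    have f5 := z2' Z
    have f6 : R₂.real Zᶜ ≤ η := le_trans (le_of_eq (congrArg _ (by ext p; simp [hZ]))) b7
    rw [Set.compl_univ, measureReal_empty] at f4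
    rw [Set.univ_prod_univ, Set.inter_univ] at f1
    linarith
  have locL : ∀ (W : Set Om) (x : Om) (τ : Cfg),
      Loc1 (box M) {σ | ((τ, σ), x) ∈ E ∩ Set.univ ×ˢ W} := fun W x τ σ σ' h h1 =>
    ⟨⟨h1.1.1, l2 (σ, x.2) (σ', x.2) (fun v hv => ⟨h v hv, rfl⟩) h1.1.2⟩, trivial, h1.2.2⟩
  have locR : ∀ (W : Set Om) (x : Om) (τ : Cfg),
      Loc1 (box M) {σ | (x, (τ, σ)) ∈ E ∩ W ×ˢ Set.univ} := fun W x τ σ σ' h h1 =>
    ⟨⟨h1.1.1, l2 (x.2, σ) (x.2, σ') (fun v hv => ⟨rfl, h v hv⟩) h1.1.2⟩, h1.2.1, trivial⟩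
  have q2 := trL v2 mO.compl hη0 b4 (mE.inter (MeasurableSet.univ.prod mO)) (locL O)
  have q3 := trR v1 mO.compl hη0 b5 (mE.inter (mO.prod MeasurableSet.univ)) (locR O)
  have q4 := trL v2 mO.compl hη0 b4 (mE.inter (MeasurableSet.univ.prod mO.compl)) (locL Oᶜ)
  have q5 := trR u1 mO.compl hη0 b5 (mE.inter (MeasurableSet.univ.prod MeasurableSet.univ))
    (locR Set.univ)
  rw [Set.univ_prod_univ, Set.inter_univ] at q5
  have hs : E ⊆ ((E ∩ O ×ˢ O ∪ E ∩ Set.univ ×ˢ O ∩ Oᶜ ×ˢ Set.univ) ∪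
      E ∩ O ×ˢ Set.univ ∩ Set.univ ×ˢ Oᶜ) ∪ E ∩ Set.univ ×ˢ Oᶜ ∩ Oᶜ ×ˢ Set.univ := by
    intro ω hω
    simp only [Set.mem_union, Set.mem_inter_iff, Set.mem_prod, Set.mem_compl_iff, Set.mem_univ]
    tauto
  have tot := (measureReal_mono (μ := (μ₁.prod μ₁).prod (μ₂.prod μ₂)) hs).trans
    ((measureReal_union_le _ _).trans (add_le_add ((measureReal_union_le _ _).trans
      (add_le_add (measureReal_union_le _ _) le_rfl)) le_rfl))
  rw [hE, rearr μ₁ μ₂ l1.mset l2.mset, ← hE] at tot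
  have low : c ^ 2 ≤ (μ₁.prod μ₂).real E₁ * (μ₁.prod μ₂).real E₂ := by
    rw [sq]; exact mul_le_mul c1 c2 hc.le (hc.le.trans c1)
  have w1 : C * (μ₁.real (cylG S y) ^ 2 / t) ≤ c ^ 2 / 4 := by
    have k1 : K * μ₁.real (cylG S y) ^ 2 ≤ 2 * t := by
      have : (K * μ₁.real (cylG S y)) ^ 2 ≤ μ₂.real (cylG S y) ^ 2 :=
        pow_le_pow_left₀ (by positivity) hSy.le 2
      have k2 : K * μ₁.real (cylG S y) ^ 2 ≤ (K * μ₁.real (cylG S y)) ^ 2 := by
        rw [mul_pow]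
        exact mul_le_mul_of_nonneg_right (le_self_pow₀ hK1 two_ne_zero) (by positivity)
      rw [ht]; linarith
    have k3 : 8 * (C + 1) ≤ K * c ^ 2 := by
      rw [hK, add_mul, div_mul_cancel₀ _ (by positivity)]
      linarith [sq_nonneg c]
    rw [← mul_div_assoc, div_le_iff₀ ht0]
    have k4 := mul_le_mul_of_nonneg_left k1 (sq_nonneg c)
    have k5 := mul_le_mul_of_nonneg_right k3 (sq_nonneg (μ₁.real (cylG S y)))
    have k6 := sq_nonneg (μ₁.real (cylG S y))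
    linarith
  have w2 : η * (100 * (C + 1)) = c ^ 2 := div_mul_cancel₀ _ (by positivity)
  have w3 : 0 ≤ C * η := by positivity
  have w4 : 100 * (C * η) + 100 * η = c ^ 2 := by rw [← w2]; ring
  rw [mul_add] at p4
  linarith

end Pool.Agent.Lib.MP_640444_pr
end

-- part Pool.Agent.Lib.MP_640444_pr.SCur
section

/-!
The almost sure current of an invariant measure that is not assumed ergodic.
-/

set_option autoImplicit false
open MeasureTheory Filter Finset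
open scoped Classical Topology ENNReal

namespace Pool.Agent.Lib.MP_640444_pr

namespace SCur

/-- the invariant sigma algebra -/
abbrev inv : MeasurableSpace Cfg where
  MeasurableSet' A := MeasurableSet A ∧ ∀ v, Ev v → shift v ⁻¹' A = A
  measurableSet_empty := ⟨MeasurableSet.empty, fun _ _ => rfl⟩
  measurableSet_compl A hA := ⟨hA.1.compl, fun v hv => by rw [Set.preimage_compl, hA.2 v hv]⟩
  measurableSet_iUnion A hA := ⟨MeasurableSet.iUnion fun i => (hA i).1, fun v hv => by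
    rw [Set.preimage_iUnion]
    exact Set.iUnion_congr fun i => (hA i).2 v hv⟩

lemma inv_le : inv ≤ (inferInstance : MeasurableSpace Cfg) := fun _ hA => hA.1

lemma meas_inv {g : Cfg → ℝ} (hg : Measurable g) (h : ∀ v, Ev v → ∀ σ, g (shift v σ) = g σ) :
    Measurable[inv] g := fun U hU => ⟨hg hU, fun v hv => by
  ext σ
  simp only [Set.mem_preimage, h v hv σ]⟩

lemma inv_of_meas {g : Cfg → ℝ} (hg : Measurable[inv] g) (v : V) (hv : Ev v) (σ : Cfg) :
    g (shift v σ) = g σ := by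
  have h := (hg (measurableSet_singleton (g σ))).2 v hv
  have : σ ∈ shift v ⁻¹' (g ⁻¹' {g σ}) := by
    rw [h]
    exact rfl
  exact this

/-- an almost invariant function has an invariant version -/
lemma exists_version (μ : Measure Cfg) {h : Cfg → ℝ} (hm : Measurable h)
    (hh : ∀ v, Ev v → h ∘ shift v =ᵐ[μ] h) : ∃ h' : Cfg → ℝ, Measurable[inv] h' ∧ h =ᵐ[μ] h' := by
  have : Nonempty {v : V // Ev v} := ⟨⟨0, ev_zero⟩⟩
  refine ⟨fun σ => ⨆ v : {v : V // Ev v}, h (shift v σ), meas_inv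
    (Measurable.iSup fun v => hm.comp (measurable_shift_m _)) fun w hw σ => ?_, ?_⟩
  · simp only [shift_shift_m]
    unfold iSup
    congr 1
    ext t
    simp only [Set.mem_range]
    constructor
    · rintro ⟨v, rfl⟩
      exact ⟨⟨v + w, (ev_add hw).2 v.2⟩, rfl⟩
    · rintro ⟨v, rfl⟩
      exact ⟨⟨v + -w, (ev_add (ev_neg.2 hw)).2 v.2⟩, by simp⟩
  · filter_upwards [ae_all_iff.2 fun v : {v // Ev v} => hh v v.2] with a ha
    have : ∀ v : {v : V // Ev v}, h (shift v a) = h a := ha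
    simp only [this, ciSup_const]

/-- the mean ergodic theorem without ergodicity -/
theorem mean_erg' (μ : Measure Cfg) [IsProbabilityMeasure μ]
    (hinv : ∀ v, Ev v → Measure.map (shift v) μ = μ)
    (f : Cfg → ℝ) (hf : Measurable f) (hC : ∀ σ, |f σ| ≤ 1) (S : Cfg → ℝ)
    (hS : Measurable[inv] S) (hS1 : ∀ σ, |S σ| ≤ 1) (hSf : S =ᵐ[μ] μ[f | inv]) (δ : ℝ)
    (hδ : 0 < δ) :
    Tendsto (fun l : ℕ => μ {σ | δ * (l : ℝ) ^ 3 <
      |∑ x ∈ cell l 0 with Ev x, (f (shift (-x) σ) - S σ)|}) atTop (𝓝 0) := by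
  have hP : ∀ v, Ev v → MeasurePreserving (shift (-v)) μ μ := fun v hv =>
    ⟨measurable_shift_m _, hinv _ (ev_neg.2 hv)⟩
  have hU0 : ∀ v, ∃ u : Lp ℝ 2 μ →ₗ[ℝ] Lp ℝ 2 μ, (∀ g, ‖u g‖ ≤ ‖g‖) ∧
      ∀ g, Ev v → u g =ᵐ[μ] g ∘ shift (-v) := fun v => by
    by_cases hv : Ev v
    · exact ⟨Lp.compMeasurePreservingₗ ℝ _ (hP v hv),
        fun g => (Lp.norm_compMeasurePreserving g (hP v hv)).le,
        fun g _ => Lp.coeFn_compMeasurePreserving g (hP v hv)⟩
    · exact ⟨LinearMap.id, fun _ => le_rfl, fun _ h => absurd h hv⟩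
  choose U hU1 hU using hU0
  have hSm : Measurable S := hS.mono inv_le le_rfl
  have hf2 : MemLp f 2 μ := MemLp.of_bound hf.aestronglyMeasurable 1 (ae_of_all _ hC)
  have hS2 : MemLp S 2 μ := MemLp.of_bound hSm.aestronglyMeasurable 1 (ae_of_all _ hS1)
  have hg2 : MemLp (fun σ => f σ - S σ) 2 μ := hf2.sub hS2
  obtain ⟨g, hg⟩ : ∃ g : Lp ℝ 2 μ, g =ᵐ[μ] fun σ => f σ - S σ := ⟨_, hg2.coeFn_toLp⟩
  have h1 := hilbert_erg U hU1 (fun x y g hx hy => ?_) g fun h hh => ?_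
  rotate_left
  · refine Lp.ext ((hU x _ hx).trans (EventuallyEq.trans ?_ (hU _ g ((ev_add hy).2 hx)).symm))
    refine ((hP x hx).quasiMeasurePreserving.ae_eq_comp (hU y g hy)).trans (.of_eq ?_)
    funext a
    simp only [Function.comp, shift_shift_m, neg_add_rev]
  · obtain ⟨h', hm', hc⟩ := exists_version μ (Lp.stronglyMeasurable h).measurable fun v hv => by
      have := hU (-v) h (ev_neg.2 hv)
      rw [hh _ (ev_neg.2 hv), neg_neg] at this
      exact this.symm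
    have hh2 : MemLp h' 2 μ := (Lp.memLp h).ae_eq hc
    have hi : Integrable h' μ := hh2.integrable one_le_two
    have i1 : Integrable (h' * f) μ := hi.mul_bdd (c := 1) hf.aestronglyMeasurable (ae_of_all _ hC)
    have i2 : Integrable (h' * S) μ :=
      hi.mul_bdd (c := 1) hSm.aestronglyMeasurable (ae_of_all _ hS1)
    have e1 := condExp_mul_of_aestronglyMeasurable_left (m := inv) (μ := μ)
      hm'.stronglyMeasurable.aestronglyMeasurable i1 (hf2.integrable one_le_two)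
    have e2 : ∫ σ, (h' * f) σ ∂μ = ∫ σ, (h' * S) σ ∂μ := by
      rw [← integral_condExp inv_le (f := h' * f)]
      refine integral_congr_ae (e1.trans ?_)
      filter_upwards [hSf] with a ha
      simp [ha]
    rw [L2.inner_def, integral_congr_ae (g := fun σ => (h' * f) σ - (h' * S) σ),
      integral_sub i1 i2, e2, sub_self]
    filter_upwards [hc, hg] with a ha ha'
    simp only [ha, ha', Pi.mul_apply, RCLike.inner_apply, conj_trivial]
    ring
  obtain ⟨G, hG⟩ : ∃ G : ℕ → Lp ℝ 2 μ,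
      ∀ l, G l = ((l : ℝ) ^ 3)⁻¹ • ∑ x ∈ cell l 0 with Ev x, U x g := ⟨_, fun _ => rfl⟩
  have h1' : Tendsto G atTop (𝓝 0) := h1.congr fun l => (hG l).symm
  have h2' := tendstoInMeasure_of_tendsto_Lp h1'
  rw [tendstoInMeasure_iff_norm] at h2'
  have h2 := h2' δ hδ
  refine tendsto_of_tendsto_of_tendsto_of_le_of_le' tendsto_const_nhds h2
    (.of_forall fun _ => zero_le) ?_
  filter_upwards [eventually_gt_atTop 0] with l hl
  rw [hG]
  generalize hQ : (cell l 0).filter Ev = Q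
  have hQ' : ∀ x ∈ Q, Ev x := fun x hx => (mem_filter.1 (hQ ▸ hx)).2
  have h3 : ∀ᵐ a ∂μ, ∀ x ∈ Q, U x g a = f (shift (-x) a) - S a :=
    (Finset.eventually_all _).2 fun x hx => by
      filter_upwards [(hU x _ (hQ' x hx)).trans
        ((hP x (hQ' x hx)).quasiMeasurePreserving.ae_eq_comp hg)] with a ha
      rw [ha, ← inv_of_meas hS (-x) (ev_neg.2 (hQ' x hx)) a]
      rfl
  have h4 := Lp.coeFn_smul (((l : ℝ) ^ 3)⁻¹) (∑ x ∈ Q, U x g)
  have h5 := Lp.coeFn_fun_finsetSum Q fun x => U x g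
  refine measure_mono_ae ?_
  filter_upwards [h3, Lp.coeFn_zero ℝ 2 μ, h4, h5] with a e1 e2 e3 e4 ha
  change δ * _ < |_| at ha
  change δ ≤ ‖_‖
  rw [e2, e3, Pi.zero_apply, sub_zero, Pi.smul_apply, e4, sum_congr rfl e1, norm_smul, norm_inv,
    norm_pow, Real.norm_natCast, Real.norm_eq_abs, le_inv_mul_iff₀ (by positivity), mul_comm]
  exact ha.le

/-- a bounded invariant version of the conditional expectation -/
lemma exists_S (μ : Measure Cfg) (f : Cfg → ℝ) (hC : ∀ σ, |f σ| ≤ 1) :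
    ∃ S : Cfg → ℝ, Measurable[inv] S ∧ (∀ σ, |S σ| ≤ 1) ∧ S =ᵐ[μ] μ[f | inv] := by
  have hm : Measurable[inv] (μ[f | inv]) := stronglyMeasurable_condExp.measurable
  refine ⟨fun σ => max (-1) (min 1 ((μ[f | inv]) σ)),
    (continuous_const.max (continuous_const.min continuous_id)).measurable.comp hm,
    fun σ => abs_le.2 ⟨le_max_left _ _, max_le (by norm_num) (min_le_left _ _)⟩, ?_⟩
  filter_upwards [ae_bdd_abs_condExp_of_ae_bdd_abs (m := inv) (μ := μ) (ae_of_all _ hC)] with a ha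
  rw [min_eq_right (abs_le.1 ha).2, max_eq_right (abs_le.1 ha).1]

end SCur

theorem sstmt : SStmt := by
  intro s μ h
  have := h.prob
  let f : Fin 3 → Cfg → ℝ := fun i σ =>
    (if σ 0 = Pi.single i 1 then 1 else 0) - (if σ 0 = -Pi.single i 1 then 1 else 0)
  have ms : ∀ y : V, MeasurableSet {σ : Cfg | σ 0 = y} := fun y =>
    mset_eq (measurable_pi_apply 0) measurable_const
  have hf : ∀ i, Measurable (f i) := fun i =>
    (Measurable.ite (ms _) measurable_const measurable_const).sub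
      (Measurable.ite (ms _) measurable_const measurable_const)
  have hb : ∀ i σ, |f i σ| ≤ 1 := fun i σ => by
    simp only [f]; split_ifs <;> simp
  choose S hS hS1 hSf using fun i => SCur.exists_S μ (f i) (hb i)
  have hSi : ∀ v, Ev v → ∀ σ, (fun i => S i (shift v σ)) = fun i => S i σ := fun v hv σ =>
    funext fun i => SCur.inv_of_meas (hS i) v hv σ
  refine ⟨fun σ i => S i σ, measurable_pi_lambda _ fun i => (hS i).mono SCur.inv_le le_rfl,
    fun σ i => hS1 i σ, hSi, fun δ hδ K => ?_, fun A hA hA' i => ?_⟩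
  · let A : Fin 3 → ℕ → Set Cfg := fun i l => {σ | δ * (l : ℝ) ^ 3 <
      |∑ x ∈ cell l 0 with Ev x, (f i (shift (-x) σ) - S i σ)|}
    have hA : ∀ i, Tendsto (fun j => μ (A i (2 * j))) atTop (𝓝 0) := fun i =>
      (SCur.mean_erg' μ h.inv (f i) (hf i) (hb i) (S i) (hS i) (hS1 i) (hSf i) δ hδ).comp
        (tendsto_id.const_mul_atTop' (by norm_num))
    have hs := tendsto_finsetSum (box (K + 1)) fun z _ => tendsto_finsetSum univ fun i _ => hA i
    simp only [sum_const_zero] at hs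
    refine tendsto_of_tendsto_of_tendsto_of_le_of_le tendsto_const_nhds hs (fun _ => zero_le)
      fun j => ?_
    have hl : Even (2 * j) := even_two_mul j
    have h1 : {σ | ¬ Close (fun i => S i σ) δ K (2 * j) σ} ≤ᵐ[μ]
        (⋃ z ∈ box (K + 1), ⋃ i ∈ (univ : Finset (Fin 3)),
          shift (-(((2 * j : ℕ) : ℤ) • z)) ⁻¹' A i (2 * j) : Set Cfg) := by
      filter_upwards [h.tiling] with σ hσ hc
      have hc' : ¬ Close (fun i => S i σ) δ K (2 * j) σ := hc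
      unfold Close at hc'
      push Not at hc'
      obtain ⟨z, hz, i, hi⟩ := hc'
      refine Set.mem_iUnion₂.2 ⟨z, hz, Set.mem_iUnion₂.2 ⟨i, mem_univ _, ?_⟩⟩
      rw [← dev_shift _ σ i hl z, ← hSi _ (ev_neg.2 (ev_smul hl z)) σ] at hi
      have ht := isTiling_shift hσ (-(((2 * j : ℕ) : ℤ) • z))
      rw [Set.mem_preimage]
      generalize shift (-(((2 * j : ℕ) : ℤ) • z)) σ = τ at hi ht ⊢
      refine lt_of_lt_of_eq hi (congrArg _ (sum_congr rfl fun x _ => ?_))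
      congr 1
      have e : shift (-x) τ 0 = τ x - x := by simp [shift, sub_eq_add_neg]
      simp only [f, e]
      exact unit_coord (d := τ x - x) (ht x).1 i
    refine (measure_mono_ae h1).trans ((measure_biUnion_finset_le _ _).trans
      (sum_le_sum fun z _ => (measure_biUnion_finset_le _ _).trans (sum_le_sum fun i _ => ?_)))
    have hv := ev_neg.2 (ev_smul hl z)
    exact (MeasurePreserving.mk (measurable_shift_m _) (h.inv _ hv)).measure_preimage_le _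
  · have hi : Integrable (f i) μ :=
      (MemLp.of_bound (p := 1) (hf i).aestronglyMeasurable 1 (ae_of_all _ (hb i))).integrable le_rfl
    have e0 : ∫ σ in A, S i σ ∂μ = ∫ σ in A, f i σ ∂μ := by
      rw [← setIntegral_condExp SCur.inv_le hi (s := A) ⟨hA, hA'⟩]
      exact integral_congr_ae (ae_restrict_of_ae (hSf i))
    have e : ∀ y : V, (fun σ : Cfg => if σ 0 = y then (1 : ℝ) else 0) =
        Set.indicator {σ : Cfg | σ 0 = y} 1 := fun y => by
      funext σ; simp [Set.indicator_apply]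
    have e' : ∀ y : V, ∫ σ in A, (if σ 0 = y then (1 : ℝ) else 0) ∂μ =
        μ.real (A ∩ {σ : Cfg | σ 0 = y}) := fun y => by
      rw [e, integral_indicator_one (ms _), Measure.real, Measure.restrict_apply (ms _),
        Set.inter_comm]
      rfl
    rw [e0]
    simp only [f]
    rw [integral_sub, e', e']
    · rw [e]; exact (integrable_const 1).indicator (ms _)
    · rw [e]; exact (integrable_const 1).indicator (ms _)

end Pool.Agent.Lib.MP_640444_pr
end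

-- part Pool.Agent.Lib.MP_640444_pr.Ext
section

/-!
Existence of an extreme entropy maximiser, by compactness and the Krein-Milman lemma.
-/

set_option autoImplicit false
open MeasureTheory Filter Finset
open scoped Classical Topology ENNReal

namespace Pool.Agent.Lib.MP_640444_pr

namespace Ext

lemma cont_real {A : Set Cfg} (hA : IsClopen A) :
    Continuous fun μ : ProbabilityMeasure Cfg => (μ : Measure Cfg).real A := by
  refine continuous_iff_continuousAt.2 fun μ => ?_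
  have h := ProbabilityMeasure.tendsto_measure_of_isClopen_of_tendsto
    (μs := fun ν : ProbabilityMeasure Cfg => ν) (μ := μ) tendsto_id hA
  exact NNReal.tendsto_coe.2 h

lemma clopen_pre {f : Cfg → V} (hf : Continuous f) (Q : V → Prop) : IsClopen {σ | Q (f σ)} :=
  (isClopen_discrete {y | Q y}).preimage hf

lemma clopen_cylG (S : Finset V) (y : Cfg) : IsClopen (cylG S y) := by
  have : cylG S y = ⋂ x ∈ S, {σ : Cfg | σ x = y x} := by ext σ; simp [cylG]
  rw [this]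
  exact isClopen_biInter_finset fun x _ => clopen_pre (continuous_apply x) (· = y x)

lemma cont_shift (v : V) : Continuous (shift v) :=
  continuous_pi fun x => (continuous_apply (x - v)).add continuous_const

lemma cont_two (x : V) : Continuous fun σ : Cfg => σ (σ x) := by
  have h : Continuous fun p : Cfg × V => p.1 p.2 :=
    continuous_prod_of_discrete_right.2 fun y => continuous_apply y
  exact h.comp (continuous_id.prodMk (continuous_apply x))

lemma pre_res1 {T : Finset V} {a : Cfg} (ha : a ∈ Ent.Pat1 T) : res1 T ⁻¹' {a} = cylG T a := by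
  have e : res1 T a = a := by
    funext v
    by_cases hv : v ∈ T
    · simp [res1, hv]
    · simp [res1, hv, (Ent.mem_Pat1.1 ha).2 v hv]
  ext σ
  rw [← res1_eq_iff, e]
  rfl

lemma cont_H1 (T : Finset V) :
    Continuous fun μ : ProbabilityMeasure Cfg => H1 (μ : Measure Cfg) T := by
  unfold H1 Hv ent
  refine continuous_finsetSum _ fun a ha => Real.continuous_negMulLog.comp ?_
  simp only [pre_res1 ha]
  exact cont_real (clopen_cylG T a)

/-- configurations moving each vertex to a neighbour -/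
def C : Set Cfg := {σ | ∀ x, Adj x (σ x)}

lemma compact_C : IsCompact C := by
  have : C = Set.univ.pi fun x => {y | Adj x y} := by ext σ; simp [C]
  rw [this]
  refine isCompact_univ_pi fun x => Set.Finite.isCompact ?_
  refine (tb x 1).finite_toSet.subset fun y hy => ?_
  exact mem_coe.2 (mem_tb.2 (Ent.Adj.sub_mem hy))

lemma compact_A : IsCompact {μ : ProbabilityMeasure Cfg | ∀ᵐ σ ∂(μ : Measure Cfg), σ ∈ C} := by
  have h := isCompact_setOfPred_probabilityMeasure_mass_eq_compl_isCompact_le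
    (u := fun _ => 0) (K := fun _ => C) tendsto_const_nhds (fun _ => compact_C)
    (Or.inr monotone_const)
  convert h using 2
  ext μ
  rw [ae_iff, forall_const, nonpos_iff_eq_zero, ProbabilityMeasure.null_iff_toMeasure_null]
  rfl

lemma closed_inv (v : V) :
    IsClosed {μ : ProbabilityMeasure Cfg | Measure.map (shift v) (μ : Measure Cfg) = μ} := by
  have : {μ : ProbabilityMeasure Cfg | Measure.map (shift v) (μ : Measure Cfg) = μ} =
      ⋂ S, ⋂ y, {μ : ProbabilityMeasure Cfg |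
        (μ : Measure Cfg).real (shift v ⁻¹' cylG S y) = (μ : Measure Cfg).real (cylG S y)} := by
    ext μ
    simp only [Set.mem_ofPred_eq, Set.mem_iInter]
    constructor
    · intro h S y
      rw [← map_measureReal_apply (measurable_shift v) (mset_cylG S y), h]
    · intro h
      refine ext_cylG _ _ fun S y => ?_
      rw [Measure.map_apply (measurable_shift v) (mset_cylG S y)]
      exact (measureReal_eq_measureReal_iff (measure_ne_top _ _) (measure_ne_top _ _)).1 (h S y)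
  rw [this]
  exact isClosed_iInter fun S => isClosed_iInter fun y =>
    isClosed_eq (cont_real ((clopen_cylG S y).preimage (cont_shift v))) (cont_real (clopen_cylG S y))

/-- the approximate maximisers -/
def P (s : Fin 3 → ℝ) (k : ℕ) : Set (ProbabilityMeasure Cfg) :=
  {μ | (∀ᵐ σ ∂(μ : Measure Cfg), σ ∈ C) ∧
    (∀ v, Ev v → Measure.map (shift v) (μ : Measure Cfg) = μ) ∧
    (∀ i, s i = (μ : Measure Cfg).real {σ | σ 0 = Pi.single i 1} -
      (μ : Measure Cfg).real {σ | σ 0 = -Pi.single i 1}) ∧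
    (∀ x, (μ : Measure Cfg).real {σ | σ (σ x) ≠ x} ≤ 12 / 2 ^ k) ∧
    ∀ j ≤ k, 8 ^ (j + 1) * hst s - 8 ^ j / 8 ^ k ≤ H1 (μ : Measure Cfg) (cell (2 ^ (j + 1)) 0)}

lemma compact_P (s : Fin 3 → ℝ) (k : ℕ) : IsCompact (P s k) := by
  refine compact_A.inter_right (IsClosed.and ?_ (IsClosed.and ?_ (IsClosed.and ?_ ?_)))
  · simp only [Set.ofPred_forall]
    exact isClosed_iInter fun v => isClosed_iInter fun _ => closed_inv v
  · simp only [Set.ofPred_forall]
    exact isClosed_iInter fun i => isClosed_eq continuous_const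
      ((cont_real (clopen_pre (continuous_apply 0) (· = Pi.single i 1))).sub
        (cont_real (clopen_pre (continuous_apply 0) (· = -Pi.single i 1))))
  · simp only [Set.ofPred_forall]
    exact isClosed_iInter fun x =>
      isClosed_le (cont_real (clopen_pre (cont_two x) (· ≠ x))) continuous_const
  · simp only [Set.ofPred_forall]
    exact isClosed_iInter fun j => isClosed_iInter fun _ =>
      isClosed_le continuous_const (cont_H1 _)

lemma P_succ (s : Fin 3 → ℝ) (k : ℕ) : P s (k + 1) ⊆ P s k := by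
  rintro μ ⟨h1, h2, h3, h4, h5⟩
  refine ⟨h1, h2, h3, fun x => (h4 x).trans ?_, fun j hj => le_trans ?_ (h5 j (by omega))⟩
  · gcongr
    · norm_num
    · omega
  · gcongr
    · norm_num
    · omega

lemma mem_iff (s : Fin 3 → ℝ) (μ : ProbabilityMeasure Cfg) :
    μ ∈ ⋂ k, P s k ↔ Mst s (μ : Measure Cfg) := by
  rw [Set.mem_iInter]
  constructor
  · intro h
    obtain ⟨h1, h2, h3, -, -⟩ := h 0
    have t : ∀ c b : ℝ, 1 < b → Tendsto (fun k : ℕ => c / b ^ k) atTop (𝓝 0) := fun c b hb =>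
      tendsto_const_nhds.div_atTop (tendsto_pow_atTop_atTop_of_one_lt hb)
    refine ⟨⟨inferInstance, ?_, h2, h3⟩, fun j => ?_⟩
    · have : ∀ x, ∀ᵐ σ ∂(μ : Measure Cfg), σ (σ x) = x := by
        intro x
        have h0 : (μ : Measure Cfg).real {σ | σ (σ x) ≠ x} ≤ 0 :=
          ge_of_tendsto' (t 12 2 (by norm_num)) fun k => (h k).2.2.2.1 x
        exact (measureReal_eq_zero_iff (measure_ne_top _ _)).1
          (le_antisymm h0 measureReal_nonneg)
      filter_upwards [h1, ae_all_iff.2 this] with σ a b x using ⟨a x, b x⟩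
    · have := (tendsto_const_nhds (x := 8 ^ (j + 1) * hst s)).sub (t (8 ^ j) 8 (by norm_num))
      rw [sub_zero] at this
      refine le_of_tendsto this ?_
      filter_upwards [eventually_ge_atTop j] with k hk using (h k).2.2.2.2 j hk
  · rintro ⟨h, h'⟩ k
    refine ⟨h.tiling.mono fun σ a x => (a x).1, h.inv, h.cur, fun x => ?_, fun j _ => ?_⟩
    · have : (μ : Measure Cfg) {σ | σ (σ x) ≠ x} = 0 := h.tiling.mono fun σ a => (a x).2
      rw [Measure.real, this]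
      positivity
    · exact le_trans (sub_le_self _ (by positivity)) (h' j)

end Ext

theorem ext_of (h : ApproxStmt) : ExtStmt := by
  intro s hs
  have : T2Space (ProbabilityMeasure Cfg) := ProbabilityMeasure.t2Space Cfg
  have hne : ∀ k, (Ext.P s k).Nonempty := by
    intro k
    obtain ⟨μ, hμ, h1, h2, h3, h4, h5⟩ := h s hs k
    exact ⟨⟨μ, hμ⟩, h1, h2, h3, h4, h5⟩
  have hK : (⋂ k, Ext.P s k).Nonempty :=
    IsCompact.nonempty_iInter_of_sequence_nonempty_isCompact_isClosed _ (Ext.P_succ s) hne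
      (Ext.compact_P s 0) fun k => (Ext.compact_P s k).isClosed
  have hc : IsCompact (⋂ k, Ext.P s k) :=
    (Ext.compact_P s 0).of_isClosed_subset (isClosed_iInter fun k => (Ext.compact_P s k).isClosed)
      (Set.iInter_subset _ 0)
  let Φ : ProbabilityMeasure Cfg → Finset V × Cfg → ℝ := fun μ p =>
    (μ : Measure Cfg).real (cylG p.1 p.2)
  have hΦ : Continuous Φ := continuous_pi fun p => Ext.cont_real (Ext.clopen_cylG p.1 p.2)
  obtain ⟨e, he⟩ := (hc.image hΦ).extremePoints_nonempty (hK.image Φ)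
  obtain ⟨⟨μ, hμ, rfl⟩, he⟩ := mem_extremePoints_iff_left.1 he
  refine ⟨μ, (Ext.mem_iff s μ).1 hμ, fun μ' μ'' a h' h'' a0 a1 e => ?_⟩
  have i' := h'.1.prob
  have i'' := h''.1.prob
  have b1 : a ≠ ⊤ := (a1.trans ENNReal.one_lt_top).ne
  have b2 : 1 - a ≠ ⊤ := ENNReal.sub_ne_top ENNReal.one_ne_top
  have key := he (Φ ⟨μ', i'⟩) ⟨_, (Ext.mem_iff s ⟨μ', i'⟩).2 h', rfl⟩ (Φ ⟨μ'', i''⟩)
    ⟨_, (Ext.mem_iff s ⟨μ'', i''⟩).2 h'', rfl⟩ ⟨a.toReal, (1 - a).toReal, ENNReal.toReal_pos a0.ne' b1,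
      ENNReal.toReal_pos (tsub_pos_of_lt a1).ne' b2, ?_, ?_⟩
  · refine ext_cylG _ _ fun S y => ?_
    exact (measureReal_eq_measureReal_iff (measure_ne_top _ _) (measure_ne_top _ _)).1
      (congrFun key (S, y))
  · rw [← ENNReal.toReal_add b1 b2, add_tsub_cancel_of_le a1.le, ENNReal.toReal_one]
  · funext p
    simp only [Φ, Pi.add_apply, Pi.smul_apply, smul_eq_mul, ProbabilityMeasure.coe_mk, e,
      Measure.real, Measure.add_apply, Measure.smul_apply]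
    rw [ENNReal.toReal_add (ENNReal.mul_ne_top b1 (measure_ne_top _ _))
      (ENNReal.mul_ne_top b2 (measure_ne_top _ _)), ENNReal.toReal_mul, ENNReal.toReal_mul]

end Pool.Agent.Lib.MP_640444_pr
end
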