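import Pool.Agent.Lib.MP_640444_pr.Stmts2

-- part Pool.Agent.Lib.MP_640444_pr.Ray
section

/-!
Flips of rays keep the currents close to the mean current; existence of hybrids with positive
probability.
-/

set_option autoImplicit false
open MeasureTheory Filter Finset
open scoped Classical Topology ENNReal

namespace Pool.Agent.Lib.MP_640444_pr

namespace Ray

lemma vel_sum {s : Fin 3 → ℝ} {t : ℝ} {K m l : ℕ} {p : Om} (hp : Til p)
    (h : Good s (t ^ 2) K m l p) (ht : 0 ≤ t) (hl : 0 < l) {A : Set V}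
    (hA : ∀ x ∈ A, ∀ y ∈ A, Cm p x y) {z : V} (hz : z ∈ box (K + 1)) (i : Fin 3) :
    ∑ x ∈ cell l z with (Ev x ∧ x ∈ A), |vel i p x| ≤ 2 * t * (l : ℝ) ^ 3 := by
  have hl' : (0 : ℝ) < l := by exact_mod_cast hl
  set S := ∑ x ∈ cell l z with (Ev x ∧ x ∈ A), |vel i p x| with hS
  have h2 := (h.err hz i).2
  rw [← sum_div, div_le_iff₀ (by positivity)] at h2
  have h1 : ∀ x ∈ ({x ∈ cell l z | Ev x ∧ x ∈ A} : Finset V), |vel i p x| * S ≤ 4 * Nl i p x l := by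
    intro x hx
    rw [mem_filter] at hx
    have h3 := sum_vel_cm i hp hx.2.1 (cell l z) l fun y hy => by
      rw [mem_box]
      intro j
      have a := mem_cell.1 hx.1 j
      have b := mem_cell.1 hy j
      simp only [Pi.sub_apply]
      exact abs_le.2 ⟨by omega, by omega⟩
    have h4 : S ≤ 2 * Nl i p x l := by
      refine le_trans (sum_le_sum_of_subset_of_nonneg (fun y hy => ?_) fun _ _ _ => abs_nonneg _) h3
      rw [mem_filter] at hy ⊢
      exact ⟨hy.1, hy.2.1, hA x hx.2.2 y hy.2.2⟩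
    have h5 : 0 ≤ S := sum_nonneg fun _ _ => abs_nonneg _
    have := mul_le_mul (abs_vel_le i p x) h4 h5 (by norm_num)
    linarith
  have h6 := sum_le_sum h1
  rw [← sum_mul, ← hS, ← mul_sum] at h6
  have h7 : ∑ x ∈ cell l z with (Ev x ∧ x ∈ A), Nl i p x l ≤ ∑ x ∈ cell l z with Ev x, Nl i p x l := by
    refine sum_le_sum_of_subset_of_nonneg (fun y hy => ?_) fun x _ _ => Nl_nonneg i p x l
    rw [mem_filter] at hy ⊢
    exact ⟨hy.1, hy.2.1⟩
  refine abs_le_of_sq_le_sq' (by nlinarith) (by positivity) |>.2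

lemma fwd {s : Fin 3 → ℝ} {t : ℝ} {K m l : ℕ} {p : Om} (hp : Til p)
    (h : Good s (t ^ 2) K m l p) (ht : 0 ≤ t) (ht1 : t ≤ 1) (hl : 0 < l) (hm : 0 < m)
    (hml : (m : ℝ) ≤ t ^ 2 * l) {A : Set V} (hA : ∀ x ∈ A, ∀ y ∈ A, Cm p x y)
    (hf : ∀ x ∈ A, prm p x ∈ A) {z : V} (hz : z ∈ box (K + 1)) (i : Fin 3) :
    |∑ x ∈ cell l z with (Ev x ∧ x ∈ A), dv i p x| ≤ 51 * t * (l : ℝ) ^ 3 := by
  have hk : ∀ (k : ℕ) x, x ∈ A → (prm p)^[k] x ∈ A := by
    intro k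
    induction k with
    | zero => exact fun _ hx => hx
    | succ k ih => exact fun x hx => by rw [Function.iterate_succ_apply']; exact hf _ (ih x hx)
  have a1 := sumd i hp A ∅ hm (fun k _ x _ _ hx => by rw [tm_iter]; exact hk _ x hx) l z
  simp only [card_empty, Nat.cast_zero, zero_add] at a1
  have e1 := (h.err hz i).1
  have e2 : (m : ℝ) * (l : ℝ) ^ 2 ≤ t ^ 2 * (l : ℝ) ^ 3 :=
    (mul_le_mul_of_nonneg_right hml (by positivity)).trans (le_of_eq (by ring))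
  have e3 := (abs_sum_le_sum_abs _ _).trans (vel_sum hp h ht hl hA hz i)
  have e4 : t ^ 2 * (l : ℝ) ^ 3 ≤ t * (l : ℝ) ^ 3 :=
    mul_le_mul_of_nonneg_right (by nlinarith) (by positivity)
  rw [abs_le] at a1 e3 ⊢
  constructor <;> linarith [a1.1, a1.2, e3.1, e3.2]

lemma rayC {s : Fin 3 → ℝ} {t : ℝ} {K m l : ℕ} {p : Om} (hp : Til p)
    (h : Good s (t ^ 2) K m l p) (ht : 0 ≤ t) (ht1 : t ≤ 1) (hl : 0 < l) (hm : 0 < m)
    (hml : (m : ℝ) ≤ t ^ 2 * l) : RayC s (103 * t) K l p := by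
  intro A hA hc
  have key : ∀ z ∈ box (K + 1), ∀ i,
      |∑ x ∈ cell l z with (Ev x ∧ x ∈ A), dv i p x| ≤ 102 * t * (l : ℝ) ^ 3 := by
    intro z hz i
    have h0 : 0 ≤ t * (l : ℝ) ^ 3 := by positivity
    rcases hc with hf | hb
    · linarith [fwd hp h ht ht1 hl hm hml hA hf hz i]
    · let C : Set V := {y | ∃ x ∈ A, Cm p x y}
      have hC : ∀ x ∈ C, ∀ y ∈ C, Cm p x y := by
        rintro x ⟨a, ha, hx⟩ y ⟨b, hb, hy⟩
        exact hx.symm.trans ((hA a ha b hb).trans hy)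
      have hC' : ∀ x ∈ C, prm p x ∈ C := by
        rintro x ⟨a, ha, hx⟩
        exact ⟨a, ha, hx.trans (cm_prm p x)⟩
      have b1 := fwd hp h ht ht1 hl hm hml hC hC' hz i
      obtain ⟨D, hD⟩ : ∃ D : Set V, ∀ x, x ∈ D ↔ x ∈ C ∧ x ∉ A := ⟨C \ A, fun _ => Iff.rfl⟩
      have b2 := fwd hp h ht ht1 hl hm hml (A := D)
        (fun x hx y hy => hC x ((hD x).1 hx).1 y ((hD y).1 hy).1)
        (fun x hx => (hD _).2 ⟨hC' x ((hD x).1 hx).1,
          fun h' => ((hD x).1 hx).2 (by simpa using hb _ h')⟩) hz i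
      have e : ∑ x ∈ cell l z with (Ev x ∧ x ∈ A), dv i p x =
          ∑ x ∈ cell l z with (Ev x ∧ x ∈ C), dv i p x -
            ∑ x ∈ cell l z with (Ev x ∧ x ∈ D), dv i p x := by
        simp only [sum_filter, ← sum_sub_distrib]
        refine sum_congr rfl fun x _ => ?_
        by_cases hx : x ∈ A
        · have : x ∈ C := ⟨x, hx, Cm.refl p x⟩
          simp [hx, this, hD]
        · simp [hx, hD]
      rw [e]
      refine (abs_sub _ _).trans ?_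
      linarith
  have e4 : t ^ 2 * (l : ℝ) ^ 3 ≤ t * (l : ℝ) ^ 3 :=
    mul_le_mul_of_nonneg_right (by nlinarith) (by positivity)
  constructor
  · intro z hz i
    rw [(dev_flp s hp _ i _).1]
    refine (abs_sub _ _).trans ?_
    linarith [h.1 z hz i, key z hz i]
  · intro z hz i
    rw [(dev_flp s hp _ i _).2]
    refine (abs_add_le _ _).trans ?_
    linarith [h.2.1 z hz i, key z hz i]

lemma hol_ovr {Λ : Finset V} {a a' g : Cfg} {x y : V} (ha : IsTiling a) (ha' : IsTiling a')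
    (e : ∀ v ∈ Λ, a v = a' v) (hg : Hol g x y) (o : ∀ v, v ∉ Λ → g v = a' v) :
    Hol (fun v => if v ∈ Λ then g v else a v) x y := by
  refine ⟨fun v => ⟨?_, ?_⟩, fun v => ?_⟩
  · by_cases hv : v ∈ Λ
    · by_cases hw : g v ∈ Λ
      · simp only [hv, hw, if_true, (hg.1 v).1]
      · have h1 : a' (g v) = v := by rw [← o _ hw, (hg.1 v).1]
        have h2 : a v = g v := by rw [e v hv, ← h1, (ha' _).2, h1]
        simp only [hv, hw, if_true, if_false]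
        rw [← h2, (ha v).2]
    · by_cases hw : a v ∈ Λ
      · have h1 : a' (a v) = v := by rw [← e _ hw, (ha v).2]
        have h2 : g v = a v := by rw [o v hv, ← h1, (ha' _).2, h1]
        simp only [hv, hw, if_true, if_false]
        rw [← h2, (hg.1 v).1]
      · simp only [hv, hw, if_false, (ha v).2]
  · by_cases hv : v ∈ Λ
    · simpa only [hv, if_true] using (hg.1 v).2
    · simpa only [hv, if_false] using Or.inr (ha v).1
  · by_cases hv : v ∈ Λ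
    · simpa only [hv, if_true] using hg.2 v
    · simp only [hv, if_false, ← hg.2 v, o v hv]
      exact iff_of_false (ha v).1.ne (ha' v).1.ne

lemma hyb_loc {L ρ M : ℕ} {z1 z2 : V} {p p' : Om} (hp : Til p) (hp' : Til p')
    (e : p ∈ cyl (box M) p') (hρ : ρ ≤ M) (h : Hyb L ρ M z1 z2 p') : Hyb L ρ M z1 z2 p := by
  obtain ⟨H, h1, h2, r1, r2, r3, r4⟩ := h
  refine ⟨ovr (box M) H p, hol_ovr hp.1 hp'.1 (fun v hv => (e v hv).1) h1 fun v hv => (r1 v hv).1,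
    hol_ovr hp.2 hp'.2 (fun v hv => (e v hv).2) h2 fun v hv => (r1 v hv).2, ?_, ?_, ?_, ?_⟩
  · intro x hx
    simp [ovr, hx]
  · intro x hx
    by_cases hv : x ∈ box M
    · simpa only [ovr, hv, if_true, (e x hv).1, (e x hv).2] using r2 x hx
    · simp [ovr, hv]
  · intro x hx
    have hv := Ent.box_mono hρ hx
    simpa [ovr, hv, (e x hv).1, (e x hv).2] using r3 x hx
  · intro G hG d1 d2 hc x hx
    have hv := hG hx
    have := r4 G hG d1 d2 (fun y hy => by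
      rw [← (e y (hG hy)).1, ← (e y (hG hy)).2]; exact hc y hy) x hx
    simpa only [ovr, hv, if_true, (e x hv).1, (e x hv).2] using this

/-- the local event carrying a hybrid -/
def HE (L ρ M : ℕ) (z1 z2 : V) : Set Om :=
  {p | ∃ p', Til p' ∧ p ∈ cyl (box M) p' ∧ Hyb L ρ M z1 z2 p'}

lemma loc_HE (L ρ M : ℕ) (z1 z2 : V) : Loc2 (box M) (HE L ρ M z1 z2) := by
  rintro p q hq ⟨p', h1, h2, h3⟩
  exact ⟨p', h1, fun x hx => ⟨(hq x hx).1.trans (h2 x hx).1, (hq x hx).2.trans (h2 x hx).2⟩, h3⟩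

lemma near_pt {r : ℕ} {z : V} {p : Om} (hz : Ev z) (hp : N1 p)
    (h : ¬ (N1 (shift2 (-z) p) ∧ ∀ u ∈ box r, Ev u → ¬ Inf (shift2 (-z) p) u)) :
    ∃ u ∈ tb z r, Ev u ∧ Inf p u := by
  have hz' := ev_neg.2 hz
  have h1 : N1 (shift2 (-z) p) := by
    obtain ⟨a, b, x, c⟩ := hp
    exact ⟨(til_shift2_iff p _).2 a, (one_shift hz' p).2 b, _, (inf_shift hz' p x).2 c⟩
  push Not at h
  obtain ⟨u, a, b, c⟩ := h h1
  refine ⟨u + z, mem_tb.2 (by simpa using a), (ev_add hz).2 b, (inf_shift hz' p _).1 ?_⟩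
  simpa using c

lemma real_pre {m : Measure Om} [IsFiniteMeasure m] {f : Om → Om} (h : MeasurePreserving f m m)
    (A : Set Om) : m.real (f ⁻¹' A) ≤ m.real A :=
  ENNReal.toReal_mono (measure_ne_top _ _) (h.measure_preimage_le A)

end Ray

theorem ray : RayStmt := by
  intro s μ₁ μ₂ h₁ h₂ δ η hδ hη K l₀
  have := h₁.prob
  have := h₂.prob
  set t := min 1 (δ / 103) with ht
  have ht0 : 0 < t := lt_min one_pos (by positivity)
  obtain ⟨m, l, hm, hl, hml, hP⟩ := good_prob h₁ h₂ (pow_pos ht0 2) hη K (max l₀ 1)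
  refine ⟨l, (le_max_left _ _).trans hl, ?_⟩
  refine ENNReal.toReal_le_of_le_ofReal hη.le (le_trans (measure_mono_ae ?_) hP)
  filter_upwards [prod_til h₁ h₂] with p hp h1 h2
  refine h1 fun A hA hc => ?_
  have h3 := Ray.rayC hp h2 ht0.le (min_le_left _ _) ((le_max_right _ _).trans hl) hm hml A hA hc
  have h4 : 103 * t ≤ δ := by linarith [min_le_right 1 (δ / 103)]
  exact ⟨h3.1.mono h4, h3.2.mono h4⟩

theorem hyb_of (hT : TypStmt) (hO : OrderStmt) (hD : HybDetStmt) : HybStmt := by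
  intro s μ₁ μ₂ hs h₁ h₂ hne
  have := h₁.prob
  have := h₂.prob
  have hm : EvInv (μ₁.prod μ₂) := fun v hv => prod_mp h₁ h₂ hv
  have hn := hT.pos s μ₁ μ₂ hs h₁ h₂ hne
  set π := μ₁.prod μ₂ with hπ
  set η := π.real {p | N1 p} / 56 with hη
  have hη0 : 0 < η := by positivity
  obtain ⟨δ, hδ, K, hD⟩ := hD s hs
  obtain ⟨r, hr⟩ := ((hT.near π).eventually (ge_mem_nhds hη0)).exists
  obtain ⟨l₀, hD⟩ := hD r
  obtain ⟨l, hl, hray⟩ := ray s μ₁ μ₂ h₁ h₂ δ η hδ hη0 K l₀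
  refine ⟨7 * η, by positivity, K * l, fun ρ => ?_⟩
  obtain ⟨ρ', e1, e2⟩ := (((hT.exc π ρ).eventually (ge_mem_nhds hη0)).and
    (eventually_ge_atTop ρ)).exists
  obtain ⟨z1, z2, ev1, ev2, n1, n2, n3, b1, b2⟩ :=
    hO π hm η hη0 (max ρ (K * l)) (ρ' + 2 * (K * l))
  obtain ⟨M₀, hM₀⟩ := Ent.exists_box (tb z1 (K * l) ∪ tb z2 (K * l))
  obtain ⟨M, e3, e4, e5⟩ := (((hT.exc π M₀).eventually (ge_mem_nhds hη0)).and
    ((eventually_ge_atTop ρ').and (eventually_ge_atTop M₀))).exists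
  set Nr := {p | N1 p ∧ ∀ u ∈ box r, Ev u → ¬ Inf p u} with hNr
  set Ry := {p | ¬ RayC s δ K l p} with hRy
  set B := ({p | ¬ Exc ρ ρ' p} ∪ {p | ¬ Exc M₀ M p}) ∪
    ((shift2 (-z1) ⁻¹' Nr ∪ shift2 (-z2) ⁻¹' Nr) ∪
      (shift2 (-z1) ⁻¹' Ry ∪ shift2 (-z2) ⁻¹' Ry)) with hB
  have hBm : π.real B ≤ 6 * η := by
    have c1 := Ray.real_pre (hm _ (ev_neg.2 ev1))
    have c2 := Ray.real_pre (hm _ (ev_neg.2 ev2))
    have u1 := measureReal_union_le (μ := π) {p | ¬ Exc ρ ρ' p} {p | ¬ Exc M₀ M p}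
    have u2 := measureReal_union_le (μ := π) (shift2 (-z1) ⁻¹' Nr) (shift2 (-z2) ⁻¹' Nr)
    have u3 := measureReal_union_le (μ := π) (shift2 (-z1) ⁻¹' Ry) (shift2 (-z2) ⁻¹' Ry)
    refine (measureReal_union_le _ _).trans ((add_le_add u1
      ((measureReal_union_le _ _).trans (add_le_add u2 u3))).trans ?_)
    linarith [c1 Nr, c2 Nr, c1 Ry, c2 Ry]
  have key : ∀ y1 y2 : V, Ev y1 → Ev y2 → y1 ∉ box (ρ' + 2 * (K * l)) →
      y2 ∉ box (ρ' + 2 * (K * l)) → y1 - y2 ∉ box (ρ' + 2 * (K * l)) →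
      tb y1 (K * l) ⊆ box M₀ → tb y2 (K * l) ⊆ box M₀ →
      (∀ p, p ∉ B → p ∉ shift2 (-y1) ⁻¹' Nr ∧ p ∉ shift2 (-y2) ⁻¹' Nr ∧
        p ∉ shift2 (-y1) ⁻¹' Ry ∧ p ∉ shift2 (-y2) ⁻¹' Ry) →
      π.real {p | N1 p} / 4 - η ≤ π.real {p | Btw (max ρ (K * l)) y1 y2 p} →
      7 * η ≤ π.real (Ray.HE (K * l) ρ M y1 y2) := by
    intro y1 y2 v1 v2 m1 m2 m3 t1 t2 hy hb
    have hs : {p | Btw (max ρ (K * l)) y1 y2 p} ⊆ Ray.HE (K * l) ρ M y1 y2 ∪ B := by
      intro p hp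
      by_cases hpB : p ∈ B
      · exact Or.inr hpB
      obtain ⟨a1, a2, a3, a4⟩ := hy p hpB
      obtain ⟨u1, c1, c2, c3⟩ := Ray.near_pt v1 hp.1 a1
      obtain ⟨u2, d1, d2, d3⟩ := Ray.near_pt v2 hp.1 a2
      refine Or.inl ⟨p, hp.1.1, fun _ _ => ⟨rfl, rfl⟩, hD l hl ρ ρ' M₀ M _ y1 y2 u1 u2 p v1 v2
        (le_max_right _ _) (le_max_left _ _) e2 (fun h => m1 (Ent.box_mono (by omega) h))
        (fun h => m2 (Ent.box_mono (by omega) h)) (fun h => m3 (Ent.box_mono (by omega) h))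
        t1 t2 e4 e5 hp (not_not.1 fun h => hpB (Or.inl (Or.inl h)))
        (not_not.1 fun h => hpB (Or.inl (Or.inr h))) c1 d1 c2 d2 c3 d3 (not_not.1 a3)
        (not_not.1 a4)⟩
    have := (measureReal_mono hs).trans (measureReal_union_le (μ := π) _ _)
    linarith
  have t1 := subset_union_left.trans hM₀
  have t2 := subset_union_right.trans hM₀
  have hy : ∀ p, p ∉ B → p ∉ shift2 (-z1) ⁻¹' Nr ∧ p ∉ shift2 (-z2) ⁻¹' Nr ∧
      p ∉ shift2 (-z1) ⁻¹' Ry ∧ p ∉ shift2 (-z2) ⁻¹' Ry := fun p hp =>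
    ⟨fun h => hp (Or.inr (Or.inl (Or.inl h))), fun h => hp (Or.inr (Or.inl (Or.inr h))),
      fun h => hp (Or.inr (Or.inr (Or.inl h))), fun h => hp (Or.inr (Or.inr (Or.inr h)))⟩
  have n4 : z2 - z1 ∉ box (ρ' + 2 * (K * l)) := fun h => n3 (mem_box.2 fun i => by
    rw [Pi.sub_apply, abs_sub_comm]; exact mem_box.1 h i)
  have hρ : ρ ≤ M := e2.trans e4
  refine ⟨z1, z2, M, _, _, ev1, ev2, ?_, hρ, Ray.loc_HE _ ρ M z1 z2, Ray.loc_HE _ ρ M z2 z1, ?_, ?_,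
    key z1 z2 ev1 ev2 n1 n2 n3 t1 t2 hy b1, key z2 z1 ev2 ev1 n2 n1 n4 t2 t1
      (fun p hp => ⟨(hy p hp).2.1, (hy p hp).1, (hy p hp).2.2.2, (hy p hp).2.2.1⟩) b2⟩
  · rintro rfl
    exact n3 (mem_box.2 fun i => by simp; positivity)
  · rintro p ⟨p', a, b, c⟩ hp
    exact Ray.hyb_loc hp a b hρ c
  · rintro p ⟨p', a, b, c⟩ hp
    exact Ray.hyb_loc hp a b hρ c

end Pool.Agent.Lib.MP_640444_pr
end

-- part Pool.Agent.Lib.MP_640444_pr.HybDet
section

/-!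
Construction of the hybrid.
-/

set_option autoImplicit false
open MeasureTheory Filter Finset
open scoped Classical Topology ENNReal

namespace Pool.Agent.Lib.MP_640444_pr

namespace HybDet

lemma nt_shift {a : Cfg} (h : NT a) (v : V) : NT (shift v a) := by
  intro x
  obtain ⟨y, rfl⟩ : ∃ y, x = y + v := ⟨x - v, by simp⟩
  rw [shift_add_apply, shift_add_apply, adj_add, (h y).1]
  exact ⟨rfl, (h y).2.imp (fun e => by rw [e]) id⟩

lemma shift_fix (v : V) (a : Cfg) (x : V) : shift v a x = x ↔ a (x - v) = x - v := by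
  rw [shift, eq_sub_iff_add_eq]

lemma refHole (h : V) : ∃ a : Cfg, NT a ∧ ∀ x, a x = x ↔ x = h := by
  obtain ⟨a, h1, h2⟩ := EG.exists_ref (fun u v => if u = h 1 ∧ v = h 2 then h 0 else 1)
    (fun u v => if u = h 1 ∧ v = h 2 then h 0 else 0) fun u v => by split_ifs <;> omega
  refine ⟨a, h1, fun x => (h2 x).trans ⟨fun c => ?_, ?_⟩⟩
  · by_cases e : x 1 = h 1 ∧ x 2 = h 2
    · simp only [e, and_self, if_true] at c
      funext i
      fin_cases i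
      exacts [le_antisymm c.2 c.1, e.1, e.2]
    · simp only [e, if_false] at c
      omega
  · rintro rfl
    simp

/-- the patching property -/
def PP (s : Fin 3 → ℝ) (δ : ℝ) (K l r : ℕ) : Prop :=
  ∀ a a' : Cfg, NT a → NT a' → (∀ x, a x = x → x ∈ box r) → (∀ x, a' x = x → x ∈ box r) →
    (∑ x ∈ box r with a x = x, sgn x) = (∑ x ∈ box r with a' x = x, sgn x) → Close s δ K l a →
    ∃ σ, NT σ ∧ (∀ x ∈ box r, σ x = a' x) ∧ (∀ x, x ∉ box (K * l) → σ x = a x) ∧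
      ∀ x, x ∉ box r → σ x ≠ x

lemma sum_one {a : Cfg} {h : V} (ha : ∀ x, a x = x ↔ x = h) {r : ℕ} (hr : h ∈ box r) :
    (∑ x ∈ box r with a x = x, sgn x) = sgn h := by
  have : ({x ∈ box r | a x = x} : Finset V) = {h} := by
    ext x
    rw [mem_filter, mem_singleton, ha]
    exact ⟨fun c => c.2, fun c => ⟨c ▸ hr, c⟩⟩
  rw [this, sum_singleton]

/-- moving a hole -/
lemma move {s : Fin 3 → ℝ} {δ : ℝ} {K l r : ℕ} (hP : PP s δ K l r) {z h h' : V} (hz : Ev z)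
    {c : Cfg} (hc : NT c) (hf : ∀ x, c x = x ↔ x = h) (hh : h ∈ tb z r) (hh' : h' ∈ tb z r)
    (he : Ev h ↔ Ev h') (hcl : Close s δ K l (shift (-z) c)) :
    ∃ σ, NT σ ∧ (∀ x, x ∉ tb z (K * l) → σ x = c x) ∧ ∀ x, σ x = x ↔ x = h' := by
  obtain ⟨a', h1, h2⟩ := refHole (h' - z)
  have h3 : ∀ x, shift (-z) c x = x ↔ x = h - z := fun x => by
    rw [shift_fix, hf, sub_neg_eq_add, eq_sub_iff_add_eq]
  rw [mem_tb] at hh hh'
  obtain ⟨σ, g1, g2, g3, g4⟩ := hP _ a' (nt_shift hc _) h1 (fun x hx => (h3 x).1 hx ▸ hh)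
    (fun x hx => (h2 x).1 hx ▸ hh') (by
      rw [sum_one h3 hh, sum_one h2 hh', sgn, sgn, sub_eq_add_neg, sub_eq_add_neg,
        ev_add (ev_neg.2 hz), ev_add (ev_neg.2 hz), he]) hcl
  refine ⟨shift z σ, nt_shift g1 _, fun x hx => ?_, fun x => ?_⟩
  · rw [mem_tb] at hx
    rw [shift, g3 _ hx, shift]
    simp
  · rw [shift_fix]
    by_cases e : x - z ∈ box r
    · rw [g2 _ e, h2, sub_left_inj]
    · refine ⟨fun c => (g4 _ e c).elim, ?_⟩
      rintro rfl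
      exact (e hh').elim

lemma glue {c0 c σ : Cfg} {B : Finset V} (h0 : NT c0) (hc : NT c) (hσ : NT σ)
    (e1 : ∀ x ∈ B, c x = c0 x) (e2 : ∀ x, x ∉ B → σ x = c x) :
    NT fun x => if x ∈ B then σ x else c0 x := by
  intro x
  by_cases hx : x ∈ B
  · simp only [hx, if_true]
    refine ⟨?_, (hσ x).2⟩
    split_ifs with hy
    · exact (hσ x).1
    · have a1 : c (σ x) = x := by rw [← e2 _ hy, (hσ x).1]
      have a2 : c0 x = σ x := by rw [← e1 x hx, ← (hc (σ x)).1, a1]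
      rw [← a2, (h0 x).1]
  · simp only [hx, if_false]
    refine ⟨?_, (h0 x).2⟩
    split_ifs with hy
    · have a1 : c (c0 x) = x := by rw [e1 _ hy, (h0 x).1]
      have a2 : σ x = c0 x := by rw [e2 x hx, ← (hc (c0 x)).1, a1]
      rw [← a2, (hσ x).1]
    · exact (h0 x).1

lemma glue2 {c0 c1 c2 σ1 σ2 : Cfg} {B1 B2 : Finset V} {k1 k2 : V} (hd : Disjoint B1 B2)
    (h0 : NT c0) (hc1 : NT c1) (hc2 : NT c2) (hf : ∀ x, c0 x = x → x ∈ B1 ∪ B2)
    (e1 : ∀ x ∈ B1, c1 x = c0 x) (e2 : ∀ x ∈ B2, c2 x = c0 x) (hk1 : k1 ∈ B1) (hk2 : k2 ∈ B2)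
    (s1 : NT σ1 ∧ (∀ x, x ∉ B1 → σ1 x = c1 x) ∧ ∀ x, σ1 x = x ↔ x = k1)
    (s2 : NT σ2 ∧ (∀ x, x ∉ B2 → σ2 x = c2 x) ∧ ∀ x, σ2 x = x ↔ x = k2) :
    ∃ H, Hol H k1 k2 ∧ ∀ x, x ∉ B1 ∪ B2 → H x = c0 x := by
  have d1 : ∀ x ∈ B1, x ∉ B2 := fun x hx => disjoint_left.1 hd hx
  refine ⟨fun x => if x ∈ B1 then σ1 x else if x ∈ B2 then σ2 x else c0 x,
    ⟨glue (glue h0 hc2 s2.1 e2 s2.2.1) hc1 s1.1 (fun x hx => by
      simp only [d1 x hx, if_false, e1 x hx]) s1.2.1, fun v => ?_⟩, fun x hx => ?_⟩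
  · by_cases a : v ∈ B1
    · simp only [a, if_true, s1.2.2]
      exact ⟨Or.inl, fun c => c.elim id fun c => (d1 v a (c ▸ hk2)).elim⟩
    · by_cases b : v ∈ B2
      · simp only [a, b, if_true, if_false, s2.2.2]
        exact ⟨Or.inr, fun c => c.elim (fun c => (a (c ▸ hk1)).elim) id⟩
      · simp only [a, b, if_false]
        exact ⟨fun c => ((mem_union.1 (hf v c)).elim a b).elim,
          fun c => (c.elim (fun c => a (c ▸ hk1)) fun c => b (c ▸ hk2)).elim⟩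
  · rw [mem_union, not_or] at hx
    simp only [hx.1, hx.2, if_false]

/-- cutting the first tiling on `E` and flipping on `F` -/
noncomputable def cf (E F : Set V) (p : Om) : Om :=
  flp F (fun x => if x ∈ E then x else p.1 x, p.2)

/-- invariance up to the cut -/
def Iv (p : Om) (E F : Set V) : Prop :=
  (∀ x, p.2 x ∈ F ↔ x ∈ F) ∧ ∀ x, x ∉ E → (p.1 x ∈ F ↔ x ∈ F)

lemma cf_nt {p : Om} (hp : Til p) {E F : Set V} (hE : ∀ x ∈ E, p.1 x ∈ E) (hF : Iv p E F) :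
    NT (cf E F p).1 ∧ NT (cf E F p).2 := by
  refine EG.np_flp (q := (fun x => if x ∈ E then x else p.1 x, p.2)) ⟨fun x => ?_, hp.2.nt⟩
    fun x => ⟨?_, hF.1 x⟩
  · by_cases e : x ∈ E
    · simp [e]
    · have : p.1 x ∉ E := fun c => e ((hp.1 x).2 ▸ hE _ c)
      simp [e, this, hp.1 x]
  · by_cases e : x ∈ E
    · simp [e]
    · simpa [e] using hF.2 x e

lemma cf_fix1 {p : Om} (hp : Til p) (E F : Set V) (x : V) :
    (cf E F p).1 x = x ↔ x ∈ E ∧ x ∉ F := by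
  by_cases a : x ∈ E <;> by_cases b : x ∈ F <;>
    simp [cf, flp, a, b, (hp.1 x).1.ne, (hp.2 x).1.ne]

lemma cf_fix2 {p : Om} (hp : Til p) (E F : Set V) (x : V) :
    (cf E F p).2 x = x ↔ x ∈ E ∧ x ∈ F := by
  by_cases a : x ∈ E <;> by_cases b : x ∈ F <;>
    simp [cf, flp, a, b, (hp.1 x).1.ne, (hp.2 x).1.ne]

lemma cf_congr {p : Om} {E F E' F' : Set V} {x : V} (h1 : x ∈ E ↔ x ∈ E') (h2 : x ∈ F ↔ x ∈ F') :
    (cf E F p).1 x = (cf E' F' p).1 x ∧ (cf E F p).2 x = (cf E' F' p).2 x := by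
  simp only [cf, flp, h1, h2, and_self]

lemma cf_in {p : Om} {E F : Set V} {x : V} (h1 : x ∉ E) (h2 : x ∈ F) :
    (cf E F p).1 x = p.2 x ∧ (cf E F p).2 x = p.1 x := by
  simp only [cf, flp, h1, h2, if_true, if_false, and_self]

lemma cf_out {p : Om} {E F : Set V} {x : V} (h1 : x ∉ E) (h2 : x ∉ F) :
    (cf E F p).1 x = p.1 x ∧ (cf E F p).2 x = p.2 x := by
  simp only [cf, flp, h1, h2, if_false, and_self]

lemma ray_shift {s : Fin 3 → ℝ} {δ : ℝ} {K l : ℕ} {p : Om} {z : V} (hz : Ev z)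
    (h : RayC s δ K l (shift2 (-z) p)) {A : Set V} (h1 : ∀ x ∈ A, ∀ y ∈ A, Cm p x y)
    (h2 : (∀ x ∈ A, prm p x ∈ A) ∨ ∀ x ∈ A, (prm p)⁻¹ x ∈ A) :
    Close s δ K l (shift (-z) (flp A p).1) ∧ Close s δ K l (shift (-z) (flp A p).2) := by
  have hz' := ev_neg.2 hz
  have e : flp {x | x - -z ∈ A} (shift2 (-z) p) = shift2 (-z) (flp A p) := by
    refine Prod.ext (funext fun x => ?_) (funext fun x => ?_) <;>
      by_cases c : x - -z ∈ A <;> simp only [flp, shift2, shift, Set.mem_ofPred_eq, c, if_true,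
        if_false]
  have k := h {x | x - -z ∈ A} (fun x hx y hy => by
    have := (cm_shift hz' p _ _).2 (h1 _ hx _ hy)
    rwa [sub_add_cancel, sub_add_cancel] at this) (h2.imp (fun c x hx => by
      have := prm_shift hz' p (x - -z)
      rw [sub_add_cancel] at this
      simpa only [Set.mem_ofPred_eq, this, add_sub_cancel_right] using c _ hx) fun c x hx => by
    have := prm_shift hz' p.swap (x - -z)
    rw [sub_add_cancel, ← shift2_swap, prm_swap, prm_swap] at this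
    simpa only [Set.mem_ofPred_eq, this, add_sub_cancel_right] using c _ hx)
  rw [e] at k
  exact k

lemma cf_close {s : Fin 3 → ℝ} {δ : ℝ} {K l : ℕ} {p : Om} (hp : Til p) {z u : V} (hz : Ev z)
    (h : RayC s (δ / 2) K l (shift2 (-z) p)) {A : Set V} (h1 : ∀ x ∈ A, ∀ y ∈ A, Cm p x y)
    (h2 : (∀ x ∈ A, prm p x ∈ A) ∨ ∀ x ∈ A, (prm p)⁻¹ x ∈ A) (hl : 2 ≤ δ / 2 * (l : ℝ) ^ 3) :
    Close s δ K l (shift (-z) (cf {u, p.1 u} A p).1) ∧
      Close s δ K l (shift (-z) (cf {u, p.1 u} A p).2) := by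
  obtain ⟨a, b⟩ := ray_shift hz h h1 h2
  have key : ∀ {c c' : Cfg}, (∀ x, Adj x (c x)) →
      (∀ x, c' x = c x ∨ (x ∈ ({u, p.1 u} : Set V) ∧ c' x = x)) →
      Close s (δ / 2) K l (shift (-z) c) → Close s δ K l (shift (-z) c') := by
    intro c c' k1 k2 k3
    refine EG.close_of (S := [u + -z, p.1 u + -z]) (fun x => ?_) (fun x => ?_) k3 (by simpa using hl)
    · obtain ⟨y, rfl⟩ : ∃ y, x = y + -z := ⟨x - -z, by simp⟩
      rw [shift_add_apply, adj_add]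
      exact k1 y
    · obtain ⟨y, rfl⟩ : ∃ y, x = y + -z := ⟨x - -z, by simp⟩
      rw [shift_add_apply, shift_add_apply]
      refine (k2 y).imp (fun e => by rw [e]) fun e => ⟨?_, by rw [e.2]⟩
      simpa using e.1
  refine ⟨key (fun x => ?_) (fun x => ?_) a, key (fun x => ?_) (fun x => ?_) b⟩
  · by_cases c : x ∈ A <;> simp [flp, c, hp.1 x, hp.2 x]
  · by_cases c : x ∈ A <;> by_cases d : x ∈ ({u, p.1 u} : Set V) <;>
      simp only [cf, flp, c, d, if_true, if_false, true_or, and_self, or_true]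
  · by_cases c : x ∈ A <;> simp [flp, c, hp.1 x, hp.2 x]
  · by_cases c : x ∈ A <;> by_cases d : x ∈ ({u, p.1 u} : Set V) <;>
      simp only [cf, flp, c, d, if_true, if_false, true_or, and_self, or_true]

section order

variable {p : Om} {u x y : V}

lemma lt_prm : Lt p u (prm p x) ↔ Lt p u x ∨ x = u := by
  constructor
  · rintro ⟨_ | k, hk, e⟩
    · omega
    rw [Function.iterate_succ_apply'] at e
    have e' := (prm p).injective e
    rcases k.eq_zero_or_pos with rfl | h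
    · exact Or.inr e'.symm
    · exact Or.inl ⟨k, h, e'⟩
  · rintro (⟨k, -, e⟩ | rfl)
    · exact ⟨k + 1, k.succ_pos, by rw [Function.iterate_succ_apply', e]⟩
    · exact ⟨1, one_pos, rfl⟩

lemma lt_trans' (h : Lt p u x) (h' : Lt p x y) : Lt p u y := by
  obtain ⟨k, hk, rfl⟩ := h
  obtain ⟨j, -, rfl⟩ := h'
  exact ⟨j + k, by omega, Function.iterate_add_apply _ _ _ _⟩

lemma lt_irrefl' (h : Inf p u) : ¬ Lt p u u := fun ⟨k, hk, e⟩ => (inf_iff p u).1 h k hk e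

lemma lt_cm (h : Lt p u x) : Cm p u x := by
  obtain ⟨k, -, e⟩ := h
  exact (cm_iff _ _ _).2 ⟨k, Or.inl e⟩

lemma prm_ev (hp : Til p) (hx : Ev x) : prm p x = p.1 x := by rw [prm_coe hp, stp_of_ev hx]

lemma prm_odd (hp : Til p) (hx : ¬ Ev x) : prm p x = p.2 x := by rw [prm_coe hp, stp_of_odd hx]

lemma iv_lt (hp : Til p) (hu : Ev u) : Iv p {u, p.1 u} {x | Lt p u x} := by
  have k2 : ∀ x, ¬ Ev x → (Lt p u (p.2 x) ↔ Lt p u x) := fun x hx => by
    rw [← prm_odd hp hx, lt_prm, or_iff_left fun c : x = u => hx (c ▸ hu)]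
  have k1 : ∀ x, Ev x → x ≠ u → (Lt p u (p.1 x) ↔ Lt p u x) := fun x hx e => by
    rw [← prm_ev hp hx, lt_prm, or_iff_left e]
  refine ⟨fun x => ?_, fun x hx => ?_⟩
  · by_cases e : Ev x
    · have := k2 (p.2 x) (by rw [hp.2.ev]; exact not_not.2 e)
      rw [(hp.2 x).2] at this
      exact this.symm
    · exact k2 x e
  · simp only [Set.mem_insert_iff, Set.mem_singleton_iff, not_or] at hx
    by_cases e : Ev x
    · exact k1 x e hx.1
    · have := k1 (p.1 x) ((hp.1.ev x).2 e) fun c => hx.2 (by rw [← c, (hp.1 x).2])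
      rw [(hp.1 x).2] at this
      exact this.symm

lemma iv_of_cm (hp : Til p) (E : Set V) {F : Set V} (h : ∀ x y, Cm p x y → x ∈ F → y ∈ F) :
    Iv p E F := ⟨fun x => (invar_of_cm hp h x).2, fun x _ => (invar_of_cm hp h x).1⟩

lemma Iv.mono {E E' F : Set V} (h : Iv p E F) (hE : E ⊆ E') : Iv p E' F :=
  ⟨h.1, fun x hx => h.2 x fun c => hx (hE c)⟩

lemma Iv.union {E F G : Set V} (h : Iv p E F) (h' : Iv p E G) : Iv p E (F ∪ G) :=
  ⟨fun x => or_congr (h.1 x) (h'.1 x), fun x hx => or_congr (h.2 x hx) (h'.2 x hx)⟩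

lemma Iv.diff {E F G : Set V} (h : Iv p E F) (h' : Iv p E G) : Iv p E (F \ G) :=
  ⟨fun x => and_congr (h.1 x) (h'.1 x).not, fun x hx => and_congr (h.2 x hx) (h'.2 x hx).not⟩

lemma fin_box {ρ ρ' : ℕ} (h : Exc ρ ρ' p) (hx : ¬ Inf p x) (hy : y ∈ box ρ) (c : Cm p y x) :
    x ∈ box ρ' := by
  have per : ∀ {w}, ¬ Inf p w → ∀ j : ℕ, ∃ k, j ≤ k ∧ (prm p)^[k] w = w := fun {w} hw j => by
    rw [inf_iff] at hw
    push Not at hw
    obtain ⟨k, hk, e⟩ := hw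
    exact ⟨k * j, Nat.le_mul_of_pos_left j hk, by
      rw [Function.iterate_mul]; exact Function.iterate_fixed e j⟩
  obtain ⟨j, e⟩ : ∃ j, (prm p)^[j] y = x := by
    obtain ⟨j, e | e⟩ := (cm_iff _ _ _).1 c
    · exact ⟨j, e⟩
    · obtain ⟨k, hk, e'⟩ := per hx j
      exact ⟨k - j, by rw [← e, ← Function.iterate_add_apply, Nat.sub_add_cancel hk, e']⟩
  obtain ⟨k, hk, e'⟩ := per (fun d : Inf p y => hx (d.cm c)) j
  exact e ▸ h y hy k (e'.symm ▸ hy) j hk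

end order

lemma tb_mono (z : V) {r t : ℕ} (h : r ≤ t) : tb z r ⊆ tb z t := fun _ hx =>
  mem_tb.2 (box_mono h (mem_tb.1 hx))

lemma tb_adj {z x y : V} {r : ℕ} (hx : x ∈ tb z r) (h : Adj x y) : y ∈ tb z (r + 1) := by
  rw [mem_tb, mem_box] at *
  intro i
  have h1 := abs_le.1 (hx i)
  have h2 := abs_le.1 (h.coord i)
  simp only [Pi.sub_apply] at h1 ⊢
  push_cast
  rw [abs_le]
  omega

lemma self_tb (z : V) (r : ℕ) : z ∈ tb z r := by
  simp [mem_tb, mem_box]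

lemma tb_box {z x : V} {L ρ : ℕ} (hz : z ∉ box (ρ + L)) (hx : x ∈ tb z L) : x ∉ box ρ := by
  intro c
  rw [mem_tb, mem_box] at hx
  rw [mem_box] at c
  refine hz (mem_box.2 fun i => ?_)
  have h1 := abs_le.1 (hx i)
  have h2 := abs_le.1 (c i)
  simp only [Pi.sub_apply] at h1
  push_cast
  rw [abs_le]
  omega

lemma tb_disj {z1 z2 : V} {L : ℕ} (h : z1 - z2 ∉ box (2 * L)) : Disjoint (tb z1 L) (tb z2 L) := by
  refine disjoint_left.2 fun x h1 h2 => h (mem_box.2 fun i => ?_)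
  rw [mem_tb, mem_box] at h1 h2
  have h3 := abs_le.1 (h1 i)
  have h4 := abs_le.1 (h2 i)
  simp only [Pi.sub_apply] at h3 h4 ⊢
  push_cast
  rw [abs_le]
  omega

lemma main {s : Fin 3 → ℝ} {δ : ℝ} {K l r : ℕ} (hP : PP s δ K l (r + 1)) (hr : r + 1 ≤ K * l)
    (hl : 2 ≤ δ / 2 * (l : ℝ) ^ 3) {ρ ρ' M₀ M R : ℕ} {z1 z2 u1 u2 : V} {p : Om} (e1 : Ev z1)
    (e2 : Ev z2) (hR : K * l ≤ R) (hρ : ρ ≤ R) (hρ' : ρ ≤ ρ') (n1 : z1 ∉ box (ρ' + K * l))
    (n2 : z2 ∉ box (ρ' + K * l)) (n12 : z1 - z2 ∉ box (2 * (K * l)))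
    (t1 : tb z1 (K * l) ⊆ box M₀) (t2 : tb z2 (K * l) ⊆ box M₀) (hM' : ρ' ≤ M) (hM : M₀ ≤ M)
    (hB : Btw R z1 z2 p) (x1 : Exc ρ ρ' p) (x2 : Exc M₀ M p) (m1 : u1 ∈ tb z1 r)
    (m2 : u2 ∈ tb z2 r) (v1 : Ev u1) (v2 : Ev u2) (i1 : Inf p u1) (i2 : Inf p u2)
    (c1 : RayC s (δ / 2) K l (shift2 (-z1) p)) (c2 : RayC s (δ / 2) K l (shift2 (-z2) p)) :
    Hyb (K * l) ρ M z1 z2 p := by
  obtain ⟨⟨hp, ho, -⟩, b1, b2, b12⟩ := hB
  rw [Bef, tb_zero] at b1 b2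
  set B1 := tb z1 (K * l)
  set B2 := tb z2 (K * l)
  have hd : Disjoint B1 B2 := tb_disj n12
  have s1 : tb z1 (r + 1) ⊆ B1 := tb_mono _ hr
  have s2 : tb z2 (r + 1) ⊆ B2 := tb_mono _ hr
  have w1 : B1 ⊆ tb z1 R := tb_mono _ hR
  have w2 : B2 ⊆ tb z2 R := tb_mono _ hR
  have m1' : u1 ∈ tb z1 (r + 1) := tb_mono _ r.le_succ m1
  have m2' : u2 ∈ tb z2 (r + 1) := tb_mono _ r.le_succ m2
  have a1 : p.1 u1 ∈ tb z1 (r + 1) := tb_adj m1 (hp.1 u1).1
  have a2 : p.1 u2 ∈ tb z2 (r + 1) := tb_adj m2 (hp.1 u2).1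
  have l1 : Lt p u1 (p.1 u1) := by rw [← prm_ev hp v1, lt_prm]; exact Or.inr rfl
  have l2 : Lt p u2 (p.1 u2) := by rw [← prm_ev hp v2, lt_prm]; exact Or.inr rfl
  have l12 : Lt p u1 u2 := b12 _ (w1 (s1 m1')) _ (w2 (s2 m2')) i1 i2
  let E1 : Set V := {u1, p.1 u1}
  let E2 : Set V := {u2, p.1 u2}
  let A1 : Set V := {x | Lt p u1 x}
  let A2 : Set V := {x | Inf p x} \ {x | Lt p u2 x}
  let Lp : Set V := {x | ¬ Inf p x ∧ ∃ y ∈ box ρ, Cm p y x}
  let F : Set V := ({x | Lt p u1 x} \ {x | Lt p u2 x}) ∪ Lp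
  have hE : ∀ u, ∀ x ∈ ({u, p.1 u} : Set V), p.1 x ∈ ({u, p.1 u} : Set V) := by
    rintro u x (rfl | rfl) <;> simp [(hp.1 _).2]
  have E1B : ∀ x ∈ E1, x ∈ B1 := by
    rintro x (rfl | rfl)
    exacts [s1 m1', s1 a1]
  have E2B : ∀ x ∈ E2, x ∈ B2 := by
    rintro x (rfl | rfl)
    exacts [s2 m2', s2 a2]
  have EB : ∀ x ∈ E1 ∪ E2, x ∈ B1 ∪ B2 := fun x hx =>
    mem_union.2 (hx.imp (E1B x) (E2B x))
  have hLp : ∀ x ∈ Lp, x ∈ box ρ' := fun x ⟨h, y, hy, c⟩ => fin_box x1 h hy c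
  have N0 := cf_nt hp (E := E1 ∪ E2) (F := F) (fun x hx => hx.imp (hE _ x) (hE _ x))
    ((((iv_lt hp v1).mono Set.subset_union_left).diff
      ((iv_lt hp v2).mono Set.subset_union_right)).union (iv_of_cm hp _
        fun x y c ⟨h, w, hw, d⟩ => ⟨fun g => h (g.cm c.symm), w, hw, d.trans c⟩))
  have N1 := cf_nt hp (E := E1) (F := A1) (hE _) (iv_lt hp v1)
  have N2 := cf_nt hp (E := E2) (F := A2) (hE _)
    ((iv_of_cm hp _ fun x y c (h : Inf p x) => h.cm c).diff (iv_lt hp v2))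
  have C1 := cf_close (u := u1) (A := A1) hp e1 c1
    (fun x hx y hy => (lt_cm hx).symm.trans (lt_cm hy))
    (Or.inl fun x hx => lt_prm.2 (Or.inl hx)) hl
  have C2 := cf_close (u := u2) (A := A2) hp e2 c2 (fun x hx y hy => ho x y hx.1 hy.1)
    (Or.inr fun x hx => ⟨Inf.cm hx.1 (cm_prm_inv p x), fun c => hx.2 (by
      have := (lt_prm (x := (prm p)⁻¹ x)).2 (Or.inl c)
      simpa using this)⟩) hl
  have G1 : ∀ x ∈ B1, (cf E1 A1 p).1 x = (cf (E1 ∪ E2) F p).1 x ∧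
      (cf E1 A1 p).2 x = (cf (E1 ∪ E2) F p).2 x := fun x hx =>
    cf_congr ⟨Or.inl, fun c => c.elim id fun c => (disjoint_left.1 hd hx (E2B x c)).elim⟩
      ⟨fun c => Or.inl ⟨c, fun d => lt_irrefl' i2 (lt_trans' d
        (b12 _ (w1 hx) _ (w2 (s2 m2')) (i1.cm (lt_cm c)) i2))⟩,
        fun c => c.elim (fun c => c.1) fun c => (tb_box n1 hx (hLp x c)).elim⟩
  have G2 : ∀ x ∈ B2, (cf E2 A2 p).1 x = (cf (E1 ∪ E2) F p).1 x ∧
      (cf E2 A2 p).2 x = (cf (E1 ∪ E2) F p).2 x := fun x hx =>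
    cf_congr ⟨Or.inr, fun c => c.elim (fun c => (disjoint_left.1 hd (E1B x c) hx).elim) id⟩
      ⟨fun c => Or.inl ⟨b12 _ (w1 (s1 m1')) _ (w2 hx) i1 c.1, c.2⟩,
        fun c => c.elim (fun c => ⟨i1.cm (lt_cm c.1), c.2⟩)
          fun c => (tb_box n2 hx (hLp x c)).elim⟩
  have o1 : ¬ Ev (p.1 u1) := by rw [hp.1.ev]; exact not_not.2 v1
  have o2 : ¬ Ev (p.1 u2) := by rw [hp.1.ev]; exact not_not.2 v2
  have q1 : ¬ Ev (z1 + e0) := by rw [(adj_e0 z1).ev]; exact not_not.2 e1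
  have q2 : ¬ Ev (z2 + e0) := by rw [(adj_e0 z2).ev]; exact not_not.2 e2
  have y1 : z1 + e0 ∈ tb z1 (r + 1) :=
    tb_adj (self_tb z1 r) (adj_e0 z1)
  have y2 : z2 + e0 ∈ tb z2 (r + 1) :=
    tb_adj (self_tb z2 r) (adj_e0 z2)
  obtain ⟨σ11, h11⟩ := move hP (h := u1) (h' := z1) e1 N1.1 (fun x => by
    rw [cf_fix1 hp]
    refine ⟨?_, ?_⟩
    · rintro ⟨rfl | rfl, c⟩
      exacts [rfl, (c l1).elim]
    · rintro rfl
      exact ⟨Or.inl rfl, lt_irrefl' i1⟩) m1' (self_tb _ _) (iff_of_true v1 e1) C1.1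
  obtain ⟨σ12, h12⟩ := move hP (h := p.1 u1) (h' := z1 + e0) e1 N1.2 (fun x => by
    rw [cf_fix2 hp]
    refine ⟨?_, ?_⟩
    · rintro ⟨rfl | rfl, c⟩
      exacts [(lt_irrefl' i1 c).elim, rfl]
    · rintro rfl
      exact ⟨Or.inr rfl, l1⟩) a1 y1 (iff_of_false o1 q1) C1.2
  obtain ⟨σ21, h21⟩ := move hP (h := p.1 u2) (h' := z2 + e0) e2 N2.1 (fun x => by
    rw [cf_fix1 hp]
    refine ⟨?_, ?_⟩
    · rintro ⟨rfl | rfl, c⟩
      exacts [(c ⟨i2, lt_irrefl' i2⟩).elim, rfl]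
    · rintro rfl
      exact ⟨Or.inr rfl, fun c => c.2 l2⟩) a2 y2 (iff_of_false o2 q2) C2.1
  obtain ⟨σ22, h22⟩ := move hP (h := u2) (h' := z2) e2 N2.2 (fun x => by
    rw [cf_fix2 hp]
    refine ⟨?_, ?_⟩
    · rintro ⟨rfl | rfl, c⟩
      exacts [rfl, (c.2 l2).elim]
    · rintro rfl
      exact ⟨Or.inl rfl, i2, lt_irrefl' i2⟩) m2' (self_tb _ _) (iff_of_true v2 e2) C2.2
  obtain ⟨H1, k1, k1'⟩ := glue2 hd N0.1 N1.1 N2.1 (fun x c => EB x ((cf_fix1 hp _ _ x).1 c).1)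
    (fun x hx => (G1 x hx).1) (fun x hx => (G2 x hx).1) (self_tb _ _) (s2 y2) h11 h21
  obtain ⟨H2, k2, k2'⟩ := glue2 hd N0.2 N1.2 N2.2 (fun x c => EB x ((cf_fix2 hp _ _ x).1 c).1)
    (fun x hx => (G1 x hx).2) (fun x hx => (G2 x hx).2) (s1 y1) (self_tb _ _) h12 h22
  have hin : ∀ x, x ∉ B1 ∪ B2 → x ∈ F → H1 x = p.2 x ∧ H2 x = p.1 x := fun x hx c => by
    rw [k1' x hx, k2' x hx]
    exact cf_in (fun d => hx (EB x d)) c
  have hout : ∀ x, x ∉ B1 ∪ B2 → x ∉ F → H1 x = p.1 x ∧ H2 x = p.2 x := fun x hx c => by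
    rw [k1' x hx, k2' x hx]
    exact cf_out (fun d => hx (EB x d)) c
  refine ⟨(H1, H2), k1, ⟨k2.1, fun v => (k2.2 v).trans or_comm⟩, fun x hx => ?_, fun x hx => ?_,
    fun x hx => ?_, fun G _ g1 g2 g3 x hx => ?_⟩
  · refine hout x (fun c => hx (box_mono hM ((mem_union.1 c).elim (t1 ·) (t2 ·)))) ?_
    rintro (⟨⟨k, -, e⟩, d⟩ | c)
    · obtain ⟨n, -, e'⟩ := l12
      refine hx (e ▸ x2 u1 (t1 (s1 m1')) n (e' ▸ t2 (s2 m2')) k (not_lt.1 fun c => d ?_))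
      exact ⟨k - n, by omega, by
        rw [← e', ← Function.iterate_add_apply, Nat.sub_add_cancel c.le, e]⟩
    · exact hx (box_mono hM' (hLp x c))
  · by_cases c : x ∈ F
    exacts [Or.inr (hin x hx c), Or.inl (hout x hx c)]
  · have hx' := box_mono hρ' hx
    refine hin x (fun c => (mem_union.1 c).elim (tb_box n1 · hx') (tb_box n2 · hx')) ?_
    by_cases c : Inf p x
    · exact Or.inl ⟨b1 _ (w1 (s1 m1')) _ (box_mono hρ hx) i1 c, fun d => lt_irrefl' i2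
        (lt_trans' d (b2 _ (box_mono hρ hx) _ (w2 (s2 m2')) c i2))⟩
    · exact Or.inr ⟨c, x, hx, Cm.refl p x⟩
  · have cl : ∀ y, Cm p x y → y ∈ G := fun y c =>
      closed_cm hp (G := (G : Set V)) (fun w hw => g3 w hw) c hx
    refine hout x (disjoint_left.1 g1 hx) ?_
    rintro (⟨c, -⟩ | ⟨-, y, hy, c⟩)
    · exact (inf_iff_infinite p x).1 (i1.cm (lt_cm c)) (G.finite_toSet.subset cl)
    · exact disjoint_left.1 g2 (cl y c.symm) hy

end HybDet

theorem hybDet : HybDetStmt := by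
  intro s hs
  obtain ⟨δ, hδ, K, l0, hK, hP⟩ := patch s hs 2 le_rfl
  refine ⟨δ / 2, by positivity, K, fun r => ?_⟩
  obtain ⟨n, hn⟩ := exists_nat_ge ((r + 4) / δ)
  refine ⟨l0 + n + 2 * (r + 1), fun l hl => ?_⟩
  have h1 : 2 * (r + 1) ≤ K * l := le_trans (by omega) (Nat.le_mul_of_pos_left l hK)
  have h2 : (r : ℝ) + 4 ≤ δ * l := by
    rw [div_le_iff₀ hδ] at hn
    have : (n : ℝ) ≤ l := by exact_mod_cast (by omega : n ≤ l)
    nlinarith
  have h3 : 2 ≤ δ / 2 * (l : ℝ) ^ 3 := by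
    have h4 : (1 : ℝ) ≤ l := by exact_mod_cast (by omega : 1 ≤ l)
    have h5 : (l : ℝ) ≤ (l : ℝ) ^ 3 := le_self_pow₀ h4 (by norm_num)
    have h6 : (0 : ℝ) ≤ r := r.cast_nonneg
    nlinarith
  intro ρ ρ' M₀ M R z1 z2 u1 u2 p
  refine HybDet.main (fun a a' ha ha' f f' e c => hP l (by omega) (r + 1) a a' ha ha'
    (by omega) f f' e c (Or.inr ?_)) (by omega) h3
  push_cast
  linarith

end Pool.Agent.Lib.MP_640444_pr
end

-- part Pool.Agent.Lib.MP_640444_pr.Krs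
section

/-!
Repair of two near tilings with opposite holes along an alternating path.
-/

set_option autoImplicit false
open Filter Finset Function
open scoped Classical

namespace Pool.Agent.Lib.MP_640444_pr

namespace Krs

open EG

/-- the standard tiling -/
noncomputable def std (x : V) : V := if Ev x then x + e0 else x - e0

lemma odd_e0 {z : V} (hz : Ev z) : ¬ Ev (z + e0) := fun h => (adj_e0 z).ev.1 h hz

lemma std_ev {z : V} (hz : Ev z) : std z = z + e0 := if_pos hz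

lemma std_odd {z : V} (hz : Ev z) : std (z + e0) = z := by
  rw [std, if_neg (odd_e0 hz), add_sub_cancel_right]

lemma fill_std {a : Cfg} (h : NT a) (hf : ∀ x, a x = x →
    ∃ z, Ev z ∧ (x = z ∨ x = z + e0) ∧ a z = z ∧ a (z + e0) = z + e0) :
    IsTiling (fill a std) := fun x => by
  by_cases e : a x = x
  · obtain ⟨z, hz, rfl | rfl, b, c⟩ := hf x e
    · simp only [fill, b, c, if_true, std_ev hz, std_odd hz]
      exact ⟨adj_e0 _, trivial⟩
    · simp only [fill, b, c, if_true, std_ev hz, std_odd hz]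
      exact ⟨adj_symm (adj_e0 _), trivial⟩
  · simp only [fill, e, if_false, (h x).1, Ne.symm e]
    exact ⟨(h x).2.resolve_left e, trivial⟩

/-- flipping an invariant set that separates the holes, then filling the holes -/
lemma finish {z1 z2 : V} {q : Om} (e1 : Ev z1) (e2 : Ev z2) (h1 : Hol q.1 z1 (z2 + e0))
    (h2 : Hol q.2 z2 (z1 + e0)) {F : Set V} (hF : Invar q F) (a1 : z1 ∈ F ↔ z1 + e0 ∉ F)
    (a2 : z2 ∈ F ↔ z2 + e0 ∉ F) : ∃ q' : Om, Til q' ∧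
      ∀ x, x ∉ ({z1, z2, z1 + e0, z2 + e0} : Finset V) →
        q'.1 x = (flp F q).1 x ∧ q'.2 x = (flp F q).2 x := by
  have hn : NP (flp F q) := np_flp ⟨h1.1, h2.1⟩ hF
  have b1 : q.1 z1 = z1 := (h1.2 _).2 (Or.inl rfl)
  have b2 : q.1 (z2 + e0) = z2 + e0 := (h1.2 _).2 (Or.inr rfl)
  have b3 : q.2 z2 = z2 := (h2.2 _).2 (Or.inl rfl)
  have b4 : q.2 (z1 + e0) = z1 + e0 := (h2.2 _).2 (Or.inr rfl)
  refine ⟨(fill (flp F q).1 std, fill (flp F q).2 std), ⟨fill_std hn.1 fun x hx => ?_,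
    fill_std hn.2 fun x hx => ?_⟩, fun x hx => ?_⟩
  · by_cases c : x ∈ F
    · simp only [flp, c, if_true] at hx
      rcases (h2.2 x).1 hx with rfl | rfl
      · exact ⟨_, e2, Or.inl rfl, by simp [flp, c, b3], by simp [flp, a2.1 c, b2]⟩
      · have c' : z1 ∉ F := fun d => a1.1 d c
        exact ⟨_, e1, Or.inr rfl, by simp [flp, c', b1], by simp [flp, c, b4]⟩
    · simp only [flp, c, if_false] at hx
      rcases (h1.2 x).1 hx with rfl | rfl
      · have c' : x + e0 ∈ F := by_contra fun d => c (a1.2 d)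
        exact ⟨_, e1, Or.inl rfl, by simp [flp, c, b1], by simp [flp, c', b4]⟩
      · exact ⟨_, e2, Or.inr rfl, by simp [flp, a2.2 c, b3], by simp [flp, c, b2]⟩
  · by_cases c : x ∈ F
    · simp only [flp, c, if_true] at hx
      rcases (h1.2 x).1 hx with rfl | rfl
      · exact ⟨_, e1, Or.inl rfl, by simp [flp, c, b1], by simp [flp, a1.1 c, b4]⟩
      · have c' : z2 ∉ F := fun d => a2.1 d c
        exact ⟨_, e2, Or.inr rfl, by simp [flp, c', b3], by simp [flp, c, b2]⟩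
    · simp only [flp, c, if_false] at hx
      rcases (h2.2 x).1 hx with rfl | rfl
      · have c' : x + e0 ∈ F := by_contra fun d => c (a2.2 d)
        exact ⟨_, e2, Or.inl rfl, by simp [flp, c, b3], by simp [flp, c', b2]⟩
      · exact ⟨_, e1, Or.inr rfl, by simp [flp, a1.2 c, b1], by simp [flp, c, b4]⟩
  · simp only [mem_insert, mem_singleton, not_or] at hx
    have c1 : q.1 x ≠ x := fun d => ((h1.2 x).1 d).elim hx.1 hx.2.2.2
    have c2 : q.2 x ≠ x := fun d => ((h2.2 x).1 d).elim hx.2.1 hx.2.2.1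
    by_cases c : x ∈ F <;> simp [fill, flp, c, c1, c2]

lemma invar_of_cls {q : Om} (h : NP q) {G : Set V} (hG : ∀ x ∈ G, q.1 x ∈ G ∧ q.2 x ∈ G) :
    Invar q G := fun x =>
  ⟨⟨fun c => (h.1 x).1 ▸ (hG _ c).1, fun c => (hG _ c).1⟩,
    ⟨fun c => (h.2 x).1 ▸ (hG _ c).2, fun c => (hG _ c).2⟩⟩

lemma invar_stp {q : Om} {G : Set V} (hG : Invar q G) (x : V) : stp q x ∈ G ↔ x ∈ G := by
  unfold stp
  split_ifs
  exacts [(hG x).1, (hG x).2]

lemma invar_iter {q : Om} {G : Set V} (hG : Invar q G) (k : ℕ) (x : V) :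
    (stp q)^[k] x ∈ G ↔ x ∈ G := by
  induction k with
  | zero => rfl
  | succ k ih => rw [iterate_succ_apply', invar_stp hG, ih]

lemma src_mem {q : Om} {G : Set V} (hG : Invar q G) {t x : V} (hx : x ∈ fray q t) (h : x ∈ G) :
    t ∈ G := by
  obtain ⟨k, rfl⟩ := hx
  exact (invar_iter hG k t).1 h

lemma src_invar {q : Om} (h : NP q) {t : V} (ht : Src q t) : Invar q (fray q t) := by
  refine invar_of h ?_ ?_
  · rintro _ ⟨k, rfl⟩
    exact ⟨k + 1, iterate_succ_apply' _ _ _⟩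
  · rintro _ ⟨k, rfl⟩
    induction k with
    | zero => exact ⟨0, ht.1.symm⟩
    | succ k ih =>
      simp only [iterate_succ_apply'] at ih ⊢
      by_cases c : stp q ((stp q)^[k] t) = (stp q)^[k] t
      · rw [c]; exact ih
      · rw [h.undo c]; exact ⟨k, rfl⟩

lemma src_inj {q : Om} (h : NP q) {t : V} (ht : Src q t)
    (hn : ∀ k, stp q ((stp q)^[k] t) ≠ (stp q)^[k] t) : Inj q t := by
  have key : ∀ a c, (stp q)^[a] t ≠ (stp q)^[a + c + 1] t := by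
    intro a c
    induction a with
    | zero =>
      rw [iterate_succ_apply']
      exact fun e => ht.ne h _ e.symm
    | succ a ih =>
      intro e
      rw [show a + 1 + c + 1 = a + c + 1 + 1 by omega, iterate_succ_apply',
        iterate_succ_apply' _ (a + c + 1)] at e
      exact ih (by rw [← h.undo (hn a), e, h.undo (hn _)])
  refine Injective.of_lt_imp_ne fun a b hab => ?_
  obtain ⟨c, rfl⟩ := Nat.exists_eq_add_of_lt hab
  exact key a c

lemma sink_unique {q : Om} {t x y : V} (hx : x ∈ fray q t) (hy : y ∈ fray q t)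
    (ex : stp q x = x) (ey : stp q y = y) : x = y := by
  obtain ⟨a, rfl⟩ := hx
  obtain ⟨b, rfl⟩ := hy
  simp only at ex ey ⊢
  rw [← iterate_fixed ex b, ← iterate_fixed ey a, ← iterate_add_apply, ← iterate_add_apply,
    add_comm]

section out

variable {P q : Om} {B : Finset V}

lemma stp_out (hP : Til P) (ho : ∀ x, x ∉ B → q.1 x = P.1 x ∧ q.2 x = P.2 x) {x : V}
    (hx : x ∉ B) : stp q x = prm P x := by
  rw [prm_coe hP, stp, stp, (ho x hx).1, (ho x hx).2]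

lemma stp_exit (hq : NP q) (hP : Til P) (ho : ∀ x, x ∉ B → q.1 x = P.1 x ∧ q.2 x = P.2 x)
    {x : V} (hx : stp q x ∉ B) : stp q x = prm P x := by
  by_cases c : x ∈ B
  · have h1 := hq.undo (x := x) fun e => hx (by rw [e]; exact c)
    rw [stp_out (q := q.swap) hP.swap (fun y hy => (ho y hy).symm) hx, prm_swap] at h1
    rw [← Equiv.Perm.inv_eq_iff_eq.1 h1]
  · exact stp_out hP ho c

lemma inf_tail (hP : Til P) (ho : ∀ x, x ∉ B → q.1 x = P.1 x ∧ q.2 x = P.2 x) {t : V}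
    (ht : Inj q t) : ∃ n, Inf P ((stp q)^[n] t) ∧
      ∀ k, (prm P)^[k] ((stp q)^[n] t) = (stp q)^[k] ((stp q)^[n] t) := by
  obtain ⟨n, hn⟩ := exists_avoid ht B.finite_toSet
  have e : ∀ k, (prm P)^[k] ((stp q)^[n] t) = (stp q)^[k] ((stp q)^[n] t) := fun k =>
    orbit_eq (fun k => (stp_out hP ho (hn k)).symm) k
  refine ⟨n, fun a b hab => ?_, e⟩
  simp only [e] at hab
  exact ht.iter n hab

lemma not_both (hq : NP q) (hP : Til P) (h1 : One P)
    (ho : ∀ x, x ∉ B → q.1 x = P.1 x ∧ q.2 x = P.2 x) {t t' : V} (ht : Src q t) (ht' : Src q t')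
    (hne : t ≠ t') (i1 : Inj q t) (i2 : Inj q t') : False := by
  obtain ⟨n, a1, a2⟩ := inf_tail hP ho i1
  obtain ⟨m, b1, b2⟩ := inf_tail hP ho i2
  obtain ⟨k, e | e⟩ := (cm_iff _ _ _).1 (h1 _ _ a1 b1)
  · rw [a2, ← iterate_add_apply] at e
    exact ht'.not_mem hq hne (src_mem (src_invar hq ht) ⟨m, rfl⟩ ⟨k + n, e⟩)
  · rw [b2, ← iterate_add_apply] at e
    exact ht.not_mem hq hne.symm (src_mem (src_invar hq ht') ⟨n, rfl⟩ ⟨k + m, e⟩)

lemma enter (hP : Til P) (ho : ∀ x, x ∉ B → q.1 x = P.1 x ∧ q.2 x = P.2 x) (r : ℕ) :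
    ∀ y, (stp q)^[r] y ∈ B → ∃ l, (prm P)^[l] y ∈ B := by
  induction r with
  | zero => exact fun y hy => ⟨0, hy⟩
  | succ r ih =>
    intro y hy
    by_cases c : y ∈ B
    · exact ⟨0, c⟩
    · rw [iterate_succ_apply, stp_out hP ho c] at hy
      obtain ⟨l, hl⟩ := ih _ hy
      exact ⟨l + 1, hl⟩

lemma leave (hq : NP q) (hP : Til P) (ho : ∀ x, x ∉ B → q.1 x = P.1 x ∧ q.2 x = P.2 x) {t : V}
    (ht : t ∈ B) (j : ℕ) : ∃ x ∈ B, ∃ m, (prm P)^[m] x = (stp q)^[j] t := by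
  induction j with
  | zero => exact ⟨t, ht, 0, rfl⟩
  | succ j ih =>
    rw [iterate_succ_apply']
    by_cases c : stp q ((stp q)^[j] t) ∈ B
    · exact ⟨_, c, 0, rfl⟩
    · obtain ⟨x, hx, m, e⟩ := ih
      exact ⟨x, hx, m + 1, by rw [iterate_succ_apply', e, stp_exit hq hP ho c]⟩

end out

lemma fray_sub {P q : Om} {M M' : ℕ} (hq : NP q) (hP : Til P) (hE : Exc M M' P)
    (ho : ∀ x, x ∉ box M → q.1 x = P.1 x ∧ q.2 x = P.2 x) {t s : V} (ht : t ∈ box M)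
    (hs : s ∈ box M) (hst : s ∈ fray q t) (es : stp q s = s) {y : V} (hy : y ∈ fray q t) :
    y ∈ box M' := by
  obtain ⟨k, rfl⟩ := hst
  obtain ⟨j, rfl⟩ := hy
  simp only at hs es ⊢
  obtain ⟨x, hx, m, e⟩ := leave hq hP ho ht j
  obtain ⟨l, hl⟩ := enter hP ho k ((stp q)^[j] t) (by
    rw [← iterate_add_apply, add_comm, iterate_add_apply, iterate_fixed es]; exact hs)
  rw [← e] at hl ⊢
  rw [← iterate_add_apply] at hl
  exact hE x hx _ hl m (by omega)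

section inn

variable {ρ ρ' : ℕ} {R q : Om}

lemma fin_sub (hE : Exc ρ ρ' R) {x y : V} (hx : x ∈ box ρ) (hn : ¬ Inf R x) (hxy : Cm R x y) :
    y ∈ box ρ' := by
  rw [inf_iff] at hn
  push Not at hn
  obtain ⟨k, hk, e⟩ := hn
  have h1 : ∀ j, (prm R)^[j] x ∈ box ρ' := fun j =>
    hE x hx (k * j) (by rw [iterate_mul, iterate_fixed e]; exact hx) j (Nat.le_mul_of_pos_left j hk)
  obtain ⟨j, c | c⟩ := (cm_iff _ _ _).1 hxy
  · exact c ▸ h1 j
  · have h2 : (prm R)^[k * j - j] x = y := by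
      apply (prm R).injective.iterate j
      rw [← iterate_add_apply, c, Nat.add_sub_cancel' (Nat.le_mul_of_pos_left j hk), iterate_mul,
        iterate_fixed e]
    exact h2 ▸ h1 _

lemma path_in (hR : Til R) (hc : q ∈ cyl (box ρ') R) (hE : Exc ρ ρ' R) {x : V} (hx : x ∈ box ρ)
    {k : ℕ} (hk : (prm R)^[k] x ∈ box ρ) : (stp q)^[k] x = (prm R)^[k] x := by
  have key : ∀ j ≤ k, (stp q)^[j] x = (prm R)^[j] x := by
    intro j hj
    induction j with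
    | zero => rfl
    | succ j ih =>
      have h1 := hc _ (hE x hx k hk j (by omega))
      rw [iterate_succ_apply', iterate_succ_apply', ih (by omega), stp, h1.1, h1.2]
      exact (congrFun (prm_coe hR) _).symm
  exact key k le_rfl

/-- the finite components meeting the small box -/
def Lp (ρ : ℕ) (R : Om) : Set V := {y | ∃ x ∈ box ρ, ¬ Inf R x ∧ Cm R x y}

lemma lp_sub (hE : Exc ρ ρ' R) {y : V} (hy : y ∈ Lp ρ R) : y ∈ box ρ' := by
  obtain ⟨x, a, b, c⟩ := hy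
  exact fin_sub hE a b c

lemma lp_invar (hq : NP q) (hR : Til R) (hc : q ∈ cyl (box ρ') R) (hE : Exc ρ ρ' R) :
    Invar q (Lp ρ R) := by
  refine invar_of_cls hq fun y hy => ?_
  have h1 := hc y (lp_sub hE hy)
  obtain ⟨x, a, b, c⟩ := hy
  rw [h1.1, h1.2]
  exact ⟨⟨x, a, b, c.trans (cm_fst hR y)⟩, ⟨x, a, b, c.trans (cm_snd hR y)⟩⟩

lemma lp_meet (hR : Til R) (hc : q ∈ cyl (box ρ') R) (hE : Exc ρ ρ' R) {G : Set V}
    (hG : Invar q G) {y : V} (hy : y ∈ Lp ρ R) (hyG : y ∈ G) : ∃ x ∈ box ρ, x ∈ G := by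
  obtain ⟨x, a, b, c⟩ := hy
  refine ⟨x, a, (closed_cm hR (G := {z | z ∈ G ∧ Cm R x z}) (fun z hz => ?_) c.symm ⟨hyG, c⟩).1⟩
  have h1 := hc z (fin_sub hE a b hz.2)
  exact ⟨⟨h1.1 ▸ (hG z).1.2 hz.1, hz.2.trans (cm_fst hR z)⟩,
    ⟨h1.2 ▸ (hG z).2.2 hz.1, hz.2.trans (cm_snd hR z)⟩⟩

lemma inf_mem (hR : Til R) (h1 : One R) (hc : q ∈ cyl (box ρ') R) (hE : Exc ρ ρ' R) {G : Set V}
    (hG : Invar q G) {x y : V} (hx : x ∈ box ρ) (hy : y ∈ box ρ) (ix : Inf R x) (iy : Inf R y)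
    (hxG : x ∈ G) : y ∈ G := by
  obtain ⟨k, e | e⟩ := (cm_iff _ _ _).1 (h1 _ _ ix iy)
  · rw [← e, ← path_in hR hc hE hx (e ▸ hy)]
    exact (invar_iter hG k x).2 hxG
  · rw [← e, ← path_in hR hc hE hy (e ▸ hx)] at hxG
    exact (invar_iter hG k y).1 hxG

end inn

/-- the set to be flipped -/
lemma exists_flip {ρ ρ' : ℕ} {q R : Om} {t : Prop} (hq : NP q) (hR : Til R) (h1 : One R)
    (hc : q ∈ cyl (box ρ') R) (hE : t → Exc ρ ρ' R) {u : V} (hu : Src q u) (hu' : u ∉ box ρ') :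
    ∃ (F : Set V) (b : Bool), Invar q F ∧ (∀ x, x ∉ box ρ' → (x ∈ F ↔ x ∈ fray q u)) ∧
      (∀ x ∈ (if t then box ρ else ∅ : Finset V), x ∈ F ↔ b = true) ∧
      ∀ G : Set V, Invar q G → u ∉ G → (∀ x ∈ (if t then box ρ else ∅ : Finset V), x ∉ G) →
        ∀ x ∈ G, x ∉ F := by
  have hF := src_invar hq hu
  by_cases c : t ∧ ∃ x ∈ box ρ, x ∈ fray q u
  · obtain ⟨ht, x0, a0, b0⟩ := c
    have hE := hE ht
    have hL := lp_invar hq hR hc hE
    have i0 : Inf R x0 := by_contra fun d =>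
      hu' (lp_sub hE (src_mem hL b0 ⟨x0, a0, d, Cm.refl _ _⟩))
    rw [if_pos ht]
    refine ⟨fray q u ∪ Lp ρ R, true, Invar_union hF hL,
      fun x hx => ⟨fun d => d.resolve_right fun d => hx (lp_sub hE d), Or.inl⟩,
      fun x hx => ⟨fun _ => rfl, fun _ => ?_⟩, fun G hG a b x hx d => ?_⟩
    · by_cases d : Inf R x
      · exact Or.inl (inf_mem hR h1 hc hE hF a0 hx i0 d b0)
      · exact Or.inr ⟨x, hx, d, Cm.refl _ _⟩
    · rcases d with d | d
      · exact a (src_mem hG d hx)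
      · obtain ⟨y, e, f⟩ := lp_meet hR hc hE hG d hx
        exact b y e f
  · refine ⟨fray q u, false, hF, fun _ _ => Iff.rfl, fun x hx => ⟨fun d => (c ?_).elim, by simp⟩,
      fun G hG a _ x hx d => a (src_mem hG d hx)⟩
    by_cases ht : t
    · rw [if_pos ht] at hx
      exact ⟨ht, x, hx, d⟩
    · simp [ht] at hx

end Krs

open EG Krs in
theorem krs : KrsStmt := by
  intro ρ ρ' M M' z1 z2 P q R t e1 e2 hne r1 r2 r3 hP h1 h2 ho hR hO hc hE
  have hq : NP q := ⟨h1.1, h2.1⟩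
  have o1 := odd_e0 e1
  have o2 := odd_e0 e2
  have b1 : q.1 z1 = z1 := (h1.2 _).2 (Or.inl rfl)
  have b2 : q.1 (z2 + e0) = z2 + e0 := (h1.2 _).2 (Or.inr rfl)
  have b3 : q.2 z2 = z2 := (h2.2 _).2 (Or.inl rfl)
  have b4 : q.2 (z1 + e0) = z1 + e0 := (h2.2 _).2 (Or.inr rfl)
  have hole : ∀ x, q.1 x = x ∨ q.2 x = x → x ∈ box M ∧ x ∉ box ρ' := fun x hx =>
    ⟨by_contra fun d => hx.elim (fun e => (hP.1.1 x).1.ne ((ho x d).1.symm.trans e))
        fun e => (hP.1.2 x).1.ne ((ho x d).2.symm.trans e),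
      fun d => hx.elim (fun e => (hR.1 x).1.ne ((hc x d).1.symm.trans e))
        fun e => (hR.2 x).1.ne ((hc x d).2.symm.trans e)⟩
  have hB : ∀ x ∈ ({z1, z2, z1 + e0, z2 + e0} : Finset V), x ∈ box M ∧ x ∉ box ρ' := by
    intro x hx
    simp only [mem_insert, mem_singleton] at hx
    rcases hx with rfl | rfl | rfl | rfl
    exacts [hole _ (Or.inl b1), hole _ (Or.inr b3), hole _ (Or.inr b4), hole _ (Or.inl b2)]
  have fix : ∀ x, stp q x = x ↔ x = z1 ∨ x = z1 + e0 := fun x => by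
    constructor
    · intro hx
      by_cases c : Ev x
      · rw [stp_of_ev c] at hx
        exact Or.inl (((h1.2 x).1 hx).resolve_right fun d => o2 (d ▸ c))
      · rw [stp_of_odd c] at hx
        exact Or.inr (((h2.2 x).1 hx).resolve_left fun d => c (d ▸ e2))
    · rintro (rfl | rfl)
      · rw [stp_of_ev e1, b1]
      · rw [stp_of_odd o1, b4]
  have n1 : z1 ≠ z1 + e0 := fun d => o1 (d ▸ e1)
  have n2 : z2 ≠ z2 + e0 := fun d => o2 (d ▸ e2)
  have s1 : Src q z2 := ⟨(stp_of_ev e2).trans b3, fun d =>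
    ((fix _).1 d).elim hne.symm fun d => o1 (d ▸ e2)⟩
  have s2 : Src q (z2 + e0) := ⟨(stp_of_odd o2).trans b2, fun d =>
    ((fix _).1 d).elim (fun d => o2 (d ▸ e1)) fun d => hne (add_right_cancel d).symm⟩
  obtain ⟨u, hu, hB', a2, k, hk⟩ : ∃ u, Src q u ∧ u ∈ ({z1, z2, z1 + e0, z2 + e0} : Finset V) ∧
      (z2 ∈ fray q u ↔ z2 + e0 ∉ fray q u) ∧ ∃ k, stp q ((stp q)^[k] u) = (stp q)^[k] u := by
    by_contra c
    push Not at c
    refine not_both hq hP.1 hP.2.1 ho s1 s2 n2 (src_inj hq s1 (c _ s1 (by simp) ?_))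
      (src_inj hq s2 (c _ s2 (by simp) ?_))
    · exact iff_of_true (mem_fray _ _) (s2.not_mem hq n2)
    · exact iff_of_false (s1.not_mem hq n2.symm) (not_not.2 (mem_fray _ _))
  have hs : (stp q)^[k] u ∈ fray q u := ⟨k, rfl⟩
  have f1 := (fix _).2 (Or.inl rfl)
  have f2 := (fix _).2 (Or.inr rfl)
  have a1 : z1 ∈ fray q u ↔ z1 + e0 ∉ fray q u := by
    refine ⟨fun a b => n1 (sink_unique a b f1 f2), fun a => ?_⟩
    rcases (fix _).1 hk with d | d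
    · exact d ▸ hs
    · exact (a (d ▸ hs)).elim
  have hsM : (stp q)^[k] u ∈ box M := by
    rcases (fix _).1 hk with d | d <;> rw [d]
    exacts [(hB _ (by simp)).1, (hB _ (by simp)).1]
  obtain ⟨F, b, hF, c1, c2, c3⟩ := exists_flip (ρ := ρ) hq hR hO hc hE hu (hB u hB').2
  obtain ⟨q', t1, t2⟩ := finish e1 e2 h1 h2 hF
    (by rw [c1 _ (hB _ (by simp)).2, c1 _ (hB _ (by simp)).2]; exact a1)
    (by rw [c1 _ (hB _ (by simp)).2, c1 _ (hB _ (by simp)).2]; exact a2)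
  refine ⟨q', b, t1, fun x hx => ?_, fun x hx => ?_, fun x hx => ?_, fun G _ g2 g3 g4 x hx => ?_⟩
  · have d1 : x ∉ F := fun d => hx (fray_sub hq hP.1 hP.2.2 ho (hB u hB').1 hsM hs hk
      ((c1 x fun d => hx (Ent.box_mono (r2.trans r3) d)).1 d))
    simpa [flp, d1] using t2 x fun d => hx (Ent.box_mono r3 (hB x d).1)
  · have := t2 x hx
    by_cases d : x ∈ F
    · exact Or.inr (by simpa [flp, d] using this)
    · exact Or.inl (by simpa [flp, d] using this)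
  · have d1 : x ∈ box ρ' := by
      by_cases ht : t
      · rw [if_pos ht] at hx
        exact Ent.box_mono r1 hx
      · simp [ht] at hx
    have := t2 x fun d => (hB x d).2 d1
    have d2 := c2 x hx
    cases b
    · have d : x ∉ F := by simpa using d2
      simpa [flp, d] using this
    · have d : x ∈ F := by simpa using d2
      simpa [flp, d] using this
  · have d : x ∉ F := c3 G (invar_of_cls hq g4) (fun d => disjoint_left.1 g2 d hB')
      (fun y hy d => disjoint_left.1 g3 d hy) x hx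
    simpa [flp, d] using t2 x (disjoint_left.1 g2 hx)

end Pool.Agent.Lib.MP_640444_pr
end
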