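import Pool.Agent.Lib.MP_640444_pr.Stmts2

-- part Pool.Agent.Lib.MP_640444_pr.EndG
section

/-!
The endgame and the purity lemmas for an abstract label.
-/

set_option autoImplicit false
open MeasureTheory Filter Topology Finset Function
open scoped Classical

namespace Pool.Agent.Lib.MP_640444_pr

/-- an abstract bounded label -/
structure Lab where
  g : Om → V → ℝ
  bd : ∀ p x, |g p x| ≤ 1
  fin : ∀ q q', Unor q q' → {x | q'.1 x = q.1 x ∧ q'.2 x = q.2 x ∧ g q' x ≠ g q x}.Finite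
  flip : ∀ (F : Set V) p y, y ∉ F → g (flp F p) y = g p y

def OutG (g : Lab) (p : Om) (x : V) (L : ℝ) : Prop :=
  Tendsto (fun n : ℕ => (n : ℝ)⁻¹ * ∑ k ∈ range (2 * n), g.g p ((stp p)^[k] x)) atTop (𝓝 L)

def PureG (g : Lab) (p : Om) : Prop := ∀ x, ∃ L, OutG g p x L ∧ OutG g p.swap x (-L)

namespace EG

variable {g : Lab}

lemma lab_succG {p : Om} {x : V} {L : ℝ} : OutG g p (stp p x) L ↔ OutG g p x L :=
  av_succ (u := fun k => g.g p ((stp p)^[k] x)) fun _ => g.bd _ _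

lemma lab_iterG {p : Om} {x : V} {L : ℝ} (n : ℕ) :
    OutG g p ((stp p)^[n] x) L ↔ OutG g p x L := by
  induction n with
  | zero => rfl
  | succ n ih => rw [iterate_succ_apply', lab_succG, ih]

lemma lab_uniqueG {p : Om} {x : V} {L L' : ℝ} (h : OutG g p x L) (h' : OutG g p x L') :
    L = L' := tendsto_nhds_unique h h'

lemma transferG {q q' : Om} {z : V} (hU : Unor q q') (hz : Inj q z) {E : Set V} (hE : E.Finite)
    (h1 : ∀ k, stp q' ((stp q)^[k] z) = stp q ((stp q)^[k] z))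
    (h2 : ∀ k, (stp q)^[k] z ∉ E → q'.1 ((stp q)^[k] z) = q.1 ((stp q)^[k] z) ∧
      q'.2 ((stp q)^[k] z) = q.2 ((stp q)^[k] z)) {L : ℝ} :
    OutG g q' z L ↔ OutG g q z L := by
  have h3 : {k | g.g q' ((stp q')^[k] z) ≠ g.g q ((stp q)^[k] z)}.Finite := by
    refine (Set.Finite.preimage hz.injOn (hE.union (g.fin q q' hU))).subset fun k hk => ?_
    by_contra hc
    simp only [Set.mem_preimage, Set.mem_union, Set.mem_ofPred_eq, not_or, not_and, not_not] at hc
    refine hk ?_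
    rw [orbit_eq h1, hc.2 (h2 k hc.1).1 (h2 k hc.1).2]
  exact ⟨av_congr (h3.subset fun k hk => Ne.symm hk), av_congr h3⟩

lemma Cp.labG {q p : Om} {F : Set V} (h : Cp q p F) {z : V} (hz : Inj q z) (hF : z ∉ F) {L : ℝ} :
    OutG g p z L ↔ OutG g q z L := by
  have h1 : ∀ k, (stp q)^[k] z ∉ F := fun k => by
    induction k with
    | zero => exact hF
    | succ k ih =>
      rw [iterate_succ_apply', stp]
      split_ifs
      exacts [fun c => ih ((h.invar _).1.1 c), fun c => ih ((h.invar _).2.1 c)]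
  refine transferG h.unor hz h.fin (fun k => ?_) fun k hk => ?_
  · have a := h.fst ((stp q)^[k] z)
    have b := h.snd ((stp q)^[k] z)
    have c := (hz.iter k).ne
    simp only [flp, h1 k, if_false] at a b
    unfold stp at c ⊢
    split_ifs at c ⊢
    exacts [a c, b c]
  · have a := h.fst ((stp q)^[k] z)
    have b := h.snd ((stp q)^[k] z)
    simp only [flp, h1 k, if_false] at a b
    simp only [Set.mem_ofPred_eq, not_or] at hk
    exact ⟨a hk.1, b hk.2⟩

/-- purity along complete orbits -/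
def SPG (g : Lab) (q : Om) : Prop :=
  ∀ z, Inj q.swap z → ∃ L, OutG g q z L ∧ OutG g q.swap z (-L)

lemma Cp.spG {q p : Om} (hq : NS q) {t t' : V} (ht : Src q t) (ht' : Src q t')
    (h : Cp q p (fray q t ∪ fray q t')) (hp : PureG g p) : SPG g q := fun z hz => by
  have h1 : z ∉ fray q t ∪ fray q t' := fun c =>
    c.elim (fun c => ht.not_inj hq c hz) fun c => ht'.not_inj hq c hz
  obtain ⟨L, a, b⟩ := hp z
  exact ⟨L, (h.labG (hq.of_back hz) h1).1 a, (h.swap.labG hz h1).1 b⟩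

lemma Cp.linkG {q p : Om} {F : Set V} (h : Cp q p F) (hp : PureG g p) {t t' : V} (ht : Inj q t)
    (ht' : Inj q t') (h1 : t ∈ F) (h2 : t' ∉ F) {n : ℕ} (e : (stp p)^[n] t = t') :
    ∃ L, OutG g q t' L ∧ OutG g q t (-L) := by
  obtain ⟨L, a, b⟩ := hp t
  exact ⟨L, (h.labG ht' h2).1 (e ▸ (lab_iterG n).2 a), (h.compl.labG ht (not_not.2 h1)).1 b⟩

lemma diff_finG {q q' : Om} (hq : NS q) (hq' : NS q') (h : FinMod q q') (hs : SPG g q)
    (hs' : SPG g q') (β : ℝ) :
    ({z | Inj q z ∧ OutG g q z β} \ {z | Inj q' z ∧ OutG g q' z β}).Finite := by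
  set W := {x | q'.1 x ≠ q.1 x ∨ q'.2 x ≠ q.2 x}
  have key : ∀ {q q' : Om} {z : V}, FinMod q q' → Inj q z → (∀ k, ¬ (q'.1 ((stp q)^[k] z) ≠
      q.1 ((stp q)^[k] z) ∨ q'.2 ((stp q)^[k] z) ≠ q.2 ((stp q)^[k] z))) →
      Inj q' z ∧ ∀ L, OutG g q' z L ↔ OutG g q z L := fun {q q' z} h hz hk => by
    simp only [not_or, not_not] at hk
    have h1 : ∀ k, stp q' ((stp q)^[k] z) = stp q ((stp q)^[k] z) := fun k => by
      rw [stp, stp, (hk k).1, (hk k).2]
    exact ⟨by rw [Inj, funext (orbit_eq h1)]; exact hz,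
      fun L => transferG (unor_fin h) hz h h1 fun k _ => hk k⟩
  let T : V → Set V := fun x => {z | z ∈ fray q.swap x ∧
    ¬ (Inj q.swap z ∧ ∀ k, (stp q.swap)^[k] z ∉ W)}
  have hT : ∀ x, (T x).Finite := fun x => by
    by_cases hx : Inj q.swap x
    · obtain ⟨N, hN⟩ := (Set.Finite.preimage hx.injOn h).bddAbove
      refine ((Set.finite_Iic N).image fun k => (stp q.swap)^[k] x).subset ?_
      rintro _ ⟨⟨k, rfl⟩, hz⟩
      refine ⟨k, by_contra fun c => hz ⟨hx.iter k, fun j hj => c ?_⟩, rfl⟩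
      rw [← iterate_add_apply] at hj
      exact le_trans (Nat.le_add_left k j) (hN hj)
    · obtain ⟨a, b, hab, e⟩ : ∃ a b, a < b ∧ (stp q.swap)^[a] x = (stp q.swap)^[b] x := by
        by_contra c
        push Not at c
        exact hx (Injective.of_lt_imp_ne c)
      refine ((Set.finite_Iio b).image fun k => (stp q.swap)^[k] x).subset ?_
      rintro _ ⟨⟨k, rfl⟩, -⟩
      induction k with
      | zero => exact ⟨0, lt_of_le_of_lt (Nat.zero_le _) hab, rfl⟩
      | succ k ih =>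
        obtain ⟨j, h1, h2⟩ := ih
        simp only at h2 ⊢
        rw [iterate_succ_apply', ← h2, ← iterate_succ_apply' (stp q.swap)]
        rcases (Nat.succ_le_of_lt h1).eq_or_lt with c | c
        · exact ⟨a, hab, by rw [c]; exact e⟩
        · exact ⟨_, c, rfl⟩
  refine (Set.Finite.biUnion h fun x _ => hT x).subset fun z ⟨⟨a, b⟩, c⟩ => ?_
  by_cases d : ∀ k, (stp q)^[k] z ∉ W
  · exact (c ⟨(key h a d).1, ((key h a d).2 _).2 b⟩).elim
  push Not at d
  obtain ⟨k, hk⟩ := d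
  refine Set.mem_biUnion hk ⟨⟨k, hq.1.back a k⟩, fun ⟨e1, e2⟩ => c ?_⟩
  obtain ⟨e3, e4⟩ := key (q := q.swap) (q' := q'.swap) (h.subset fun _ hx => hx.symm) e1
    fun k hk => e2 k hk.symm
  obtain ⟨L, e5, e6⟩ := hs z e1
  obtain ⟨L', e7, e8⟩ := hs' z e3
  rw [← neg_inj.1 (lab_uniqueG e6 ((e4 _).1 e8)), lab_uniqueG e5 b] at e7
  exact ⟨hq'.of_back e3, e7⟩

lemma indexG {q q' : Om} (hq : NS q) (hq' : NS q') (h : FinMod q q') (hs : SPG g q)
    (hs' : SPG g q') {β : ℝ} {y : V} (hy : Src q y) (hl : OutG g q y β)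
    (ht : ∀ t, Src q' t → ¬ OutG g q' t β) : False := by
  refine count (f := stp q) (f' := stp q') h (diff_finG hq hq' h hs hs' β)
    (diff_finG hq' hq (h.subset fun _ hx => hx.imp Ne.symm Ne.symm) hs' hs β) (fun x hx => ?_) hq.inj
    (fun z hz => ⟨hz.1.succ, lab_succG.2 hz.2⟩) (fun z hz => ⟨hz.1.succ, lab_succG.2 hz.2⟩)
    (fun z hz => ?_) ⟨hy.inj hq, hl⟩ (hy.ne hq.1)
  · simp only [Set.mem_ofPred_eq, not_or, not_not] at hx
    rw [stp, stp, hx.1, hx.2]
  · have h1 : stp q' (stp q'.swap z) = z := hq'.1.swap.undo fun c => ht z ⟨c, hz.1.ne⟩ hz.2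
    exact ⟨_, ⟨hq'.pred (h1.symm ▸ hz.1), lab_succG.1 (h1.symm ▸ hz.2)⟩, h1⟩

lemma gadgetG {q : Om} (hq : NP q) (h1 : ∀ x, q.1 x = x ↔ x ∈ S1) (h2 : ∀ x, q.2 x = x ↔ x ∈ S2)
    (hU : ∀ p, Til p → Unor q p → PureG g p) :
    NS q ∧ SPG g q ∧ ∀ t, Src q t → OutG g q t 0 := by
  have a1 : NS q := ⟨hq, fun x => by
    have b1 : ∀ x ∈ S1, (x 0 + x 1 + x 2) % 2 = 0 → x ∈ S2 := by decide
    have b2 : ∀ x ∈ S2, ¬ (x 0 + x 1 + x 2) % 2 = 0 → x ∈ S1 := by decide
    unfold stp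
    split_ifs with e <;> rw [ev_iff] at e
    exacts [fun c => (h2 x).2 (b1 x ((h1 x).1 c) e), fun c => (h1 x).2 (b2 x ((h2 x).1 c) e)]⟩
  have a2 : ∀ t, Src q t ↔ ((t 0 + t 1 + t 2) % 2 = 0 ∧ t ∈ S2 ∧ t ∉ S1) ∨
      (¬ (t 0 + t 1 + t 2) % 2 = 0 ∧ t ∈ S1 ∧ t ∉ S2) := fun t => by
    unfold Src stp
    rw [← ev_iff]
    by_cases e : Ev t <;> simp [e, h1, h2]
  have x1 := (a2 ![0, 2, 0]).2 (by decide)
  have x2 := (a2 ![1, 1, 0]).2 (by decide)
  have y1 := (a2 ![1, 0, 0]).2 (by decide)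
  have y2 := (a2 ![1, 1, 1]).2 (by decide)
  have nm : ∀ {t u v}, Src q t → u ≠ t → v ≠ t → t ∉ fray q u ∪ fray q v := fun h a b c =>
    c.elim (h.not_mem hq a) (h.not_mem hq b)
  obtain ⟨p1, b1, b2, b3⟩ := comp a1 h1 h2 x1 x2
    (ga := mt [(![1, 1, 0], ![1, 1, 1]), (![0, 1, 0], ![0, 2, 0]), (![0, 0, 1], ![0, 1, 1]),
      (![0, 0, 0], ![1, 0, 0])])
    (gb := mt [(![0, 0, 1], ![0, 1, 1]), (![0, 0, 0], ![0, 1, 0])])
    (by unfold Mt; decide) (by unfold Mt; decide)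
  obtain ⟨p2, c1, c2, c3⟩ := comp a1 h1 h2 x1 x2
    (ga := mt [(![1, 0, 0], ![1, 1, 0]), (![0, 1, 1], ![1, 1, 1]), (![0, 1, 0], ![0, 2, 0]),
      (![0, 0, 0], ![0, 0, 1])])
    (gb := mt [(![0, 0, 1], ![0, 1, 1]), (![0, 0, 0], ![0, 1, 0])])
    (by unfold Mt; decide) (by unfold Mt; decide)
  obtain ⟨p3, d1, d2, d3⟩ := comp a1 h1 h2 x1 y1
    (ga := mt [(![0, 1, 1], ![1, 1, 1]), (![0, 1, 0], ![0, 2, 0]), (![0, 0, 0], ![0, 0, 1])])
    (gb := mt [(![0, 1, 0], ![1, 1, 0]), (![0, 0, 1], ![0, 1, 1]), (![0, 0, 0], ![1, 0, 0])])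
    (by unfold Mt; decide) (by unfold Mt; decide)
  have u1 := hU p1 b1 b2.unor
  obtain ⟨L1, e1, e2⟩ := b2.linkG u1 (x1.inj a1) (y1.inj a1) (Or.inl (mem_fray _ _))
    (nm y1 (by decide) (by decide)) (n := 3) (by
      simp only [iterate_succ_apply, iterate_zero_apply]
      rw [b3 ![0, 2, 0] ![0, 1, 0] (by decide), b3 ![0, 1, 0] ![0, 0, 0] (by decide),
        b3 ![0, 0, 0] ![1, 0, 0] (by decide)])
  obtain ⟨L2, e3, e4⟩ := b2.linkG u1 (x2.inj a1) (y2.inj a1) (Or.inr (mem_fray _ _))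
    (nm y2 (by decide) (by decide)) (n := 1) (b3 _ _ (by decide))
  obtain ⟨L3, e5, e6⟩ := c2.linkG (hU p2 c1 c2.unor) (x2.inj a1) (y1.inj a1) (Or.inr (mem_fray _ _))
    (nm y1 (by decide) (by decide)) (n := 1) (c3 _ _ (by decide))
  obtain ⟨L4, e7, e8⟩ := d2.linkG (hU p3 d1 d2.unor) (x1.inj a1) (x2.inj a1) (Or.inl (mem_fray _ _))
    (nm x2 (by decide) (by decide)) (n := 2) (by
      simp only [iterate_succ_apply, iterate_zero_apply]
      rw [d3 ![0, 2, 0] ![0, 1, 0] (by decide), d3 ![0, 1, 0] ![1, 1, 0] (by decide)])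
  have f1 := lab_uniqueG e1 e5
  have f2 := lab_uniqueG e2 e8
  have f3 := lab_uniqueG e4 e6
  have f4 := lab_uniqueG e4 e7
  rw [show L1 = 0 by linarith] at e1 e2
  rw [show L2 = 0 by linarith] at e3 e4
  rw [neg_zero] at e2 e4
  refine ⟨a1, b2.spG a1 x1 x2 u1, fun t ht => ?_⟩
  have g1 : ∀ t ∈ S2, t ∉ S1 → t = ![0, 2, 0] ∨ t = ![1, 1, 0] := by decide
  have g2 : ∀ t ∈ S1, t ∉ S2 → t = ![1, 0, 0] ∨ t = ![1, 1, 1] := by decide
  rcases (a2 t).1 ht with ⟨-, a, b⟩ | ⟨-, a, b⟩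
  · rcases g1 t a b with rfl | rfl
    exacts [e2, e4]
  · rcases g2 t a b with rfl | rfl
    exacts [e1, e3]

theorem endgame_ofG (s : Fin 3 → ℝ)
    (hP : ∃ δ : ℝ, 0 < δ ∧ ∃ K l0 : ℕ, 0 < K ∧ ∀ l : ℕ, l0 ≤ l → ∀ (r : ℕ) (a a' : Cfg), NT a → NT a' →
      2 * r ≤ (2 - 1) * (K * l) →
      (∀ x, a x = x → x ∈ box r) → (∀ x, a' x = x → x ∈ box r) →
      (∑ x ∈ box r with a x = x, sgn x) = (∑ x ∈ box r with a' x = x, sgn x) →
      Close s δ K l a → (Close s δ K l a' ∨ (r : ℝ) ≤ δ * l) →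
      ∃ σ, NT σ ∧ (∀ x ∈ box r, σ x = a' x) ∧ (∀ x, x ∉ box (K * l) → σ x = a x) ∧
        ∀ x, x ∉ box r → σ x ≠ x)
    (g : Lab) (p : Om)
    (hp : Til p) (hU : ∀ p', Til p' → Unor p p' → PureG g p') (x1 x2 : V) (e1 : Ev x1)
    (e2 : Ev x2) (i1 : Function.Injective fun k : ℕ => (stp p)^[k] x1)
    (i2 : Function.Injective fun k : ℕ => (stp p)^[k] x2)
    (h12 : ∀ k : ℕ, (stp p)^[k] x1 ≠ x2 ∧ (stp p)^[k] x2 ≠ x1)
    (hC : ∀ δ : ℝ, 0 < δ → ∀ K l0 : ℕ, ∃ l, l0 ≤ l ∧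
      Close s δ K l (flp (bray p x1 ∪ bray p x2) p).1 ∧
      Close s δ K l (flp (bray p x1 ∪ bray p x2) p).2) :
    OutG g p x1 0 := by
  obtain ⟨q, q1, q2, q3, q4, q5, q6, q7, q8, q9⟩ := cut hp e1 e2 i1 i2 h12
  have o1 : ¬ Ev (p.1 x1) := fun c => (hp.1 x1).1.ev.1 c e1
  have o2 : ¬ Ev (p.1 x2) := fun c => (hp.1 x2).1.ev.1 c e2
  have n1 : x1 ≠ x2 := (h12 0).1
  have n2 : p.1 x1 ≠ p.1 x2 := fun c => n1 (by rw [← (hp.1 x1).2, c, (hp.1 x2).2])
  have s1 : ∀ x ∈ [x1, x2], Ev x → Src q x := fun x hx e => ⟨(if_pos e).trans ((q3 x).2 hx),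
    fun c => by
      rcases List.mem_pair.1 ((q2 x).1 ((if_pos e).symm.trans c)) with rfl | rfl
      exacts [o1 e, o2 e]⟩
  have s2 : Src q (p.1 x1) := ⟨(if_neg o1).trans ((q2 _).2 (by simp)), fun c => by
    rcases List.mem_pair.1 ((q3 _).1 ((if_neg o1).symm.trans c)) with d | d
    exacts [o1 (by rwa [d]), o1 (by rwa [d])]⟩
  have u := hU p hp (unor_refl p)
  have sp : SPG g q := Cp.spG q1 (s1 x1 (by simp) e1) (s1 x2 (by simp) e2) (by rwa [q5, q6]) u
  obtain ⟨β, b1, -⟩ := u x1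
  by_contra b2
  have b3 : OutG g q (p.1 x1) β := (q4.labG (s2.inj q1) q7).1 (by
    have := lab_succG.2 b1
    rwa [stp, if_pos e1] at this)
  obtain ⟨δ, hδ, K, l0, hK, H⟩ := hP
  obtain ⟨r, hr⟩ := exists_box ([p.1 x1, p.1 x2] ++ [x1, x2] ++ S1 ++ S2)
  simp only [List.mem_append, or_imp, forall_and] at hr
  obtain ⟨⟨⟨r1, r2⟩, r3⟩, r4⟩ := hr
  obtain ⟨m, hm⟩ := exists_nat_ge ((r + 4) / δ)
  obtain ⟨l, c1, c2, c3⟩ := hC (δ / 2) (half_pos hδ) K (l0 + 2 * r + m + 1)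
  have c4 : (r : ℝ) + 4 ≤ δ * l := by
    rw [div_le_iff₀ hδ] at hm
    have : (m : ℝ) ≤ l := by exact_mod_cast (by omega : m ≤ l)
    nlinarith
  have c5 : ((2 : ℕ) : ℝ) ≤ δ / 2 * (l : ℝ) ^ 3 := by
    have h1 : (1 : ℝ) ≤ l := by exact_mod_cast (by omega : 1 ≤ l)
    have h2 : (l : ℝ) ≤ (l : ℝ) ^ 3 := le_self_pow₀ h1 (by norm_num)
    have h3 : (0 : ℝ) ≤ r := Nat.cast_nonneg r
    push_cast
    nlinarith
  have c6 : 2 * r ≤ (2 - 1) * (K * l) := by
    have := Nat.mul_le_mul_right l hK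
    omega
  have tl : ∀ F, (∀ x, Adj x ((flp F p).1 x)) ∧ ∀ x, Adj x ((flp F p).2 x) := fun F => by
    refine ⟨fun x => ?_, fun x => ?_⟩ <;> by_cases e : x ∈ F <;> simp [flp, e, hp.1 x, hp.2 x]
  obtain ⟨a1, d1, d2⟩ := ref1
  obtain ⟨a2, d3, d4⟩ := ref2
  obtain ⟨σ1, t1, t2, t3, t4⟩ := H l (by omega) r q.1 a1 q1.1.1 d1 c6 (fun x c => r1 x ((q2 x).1 c))
    (fun x c => r3 x ((d2 x).1 c)) (by
      rw [sum_fix q2 (by simpa using n2) r1, sum_fix d2 (by decide) r3]
      simp [S1, sgn, o1, o2, ev_iff])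
    (close_of (tl _).1 (fun x => (q8 x).imp_right fun c => ⟨(q2 x).1 c, c⟩) c2 c5) (Or.inr (by linarith))
  obtain ⟨σ2, t5, t6, t7, t8⟩ := H l (by omega) r q.2 a2 q1.1.2 d3 c6 (fun x c => r2 x ((q3 x).1 c))
    (fun x c => r4 x ((d4 x).1 c)) (by
      rw [sum_fix q3 (by simpa using n1) r2, sum_fix d4 (by decide) r4]
      simp [S2, sgn, e1, e2, ev_iff])
    (close_of (tl _).2 (fun x => (q9 x).imp_right fun c => ⟨(q3 x).1 c, c⟩) c3 c5) (Or.inr (by linarith))
  have fm : FinMod q (σ1, σ2) := (box (K * l)).finite_toSet.subset fun x hx => by_contra fun c =>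
    hx.elim (fun d => d (t3 x c)) fun d => d (t7 x c)
  obtain ⟨g1, g2, g3⟩ := gadgetG (g := g) (q := (σ1, σ2)) ⟨t1, t5⟩
    (fun x => ⟨fun c => (d2 x).1 ((t2 x (by_contra fun d => t4 x d c)).symm.trans c),
      fun c => (t2 x (r3 x c)).trans ((d2 x).2 c)⟩)
    (fun x => ⟨fun c => (d4 x).1 ((t6 x (by_contra fun d => t8 x d c)).symm.trans c),
      fun c => (t6 x (r4 x c)).trans ((d4 x).2 c)⟩)
    fun p' a b => hU p' a (Unor_trans (Unor_symm q4.unor) (Unor_trans (unor_fin fm) b))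
  exact indexG q1 g1 fm sp g2 s2 b3 fun t ht c => b2 (lab_uniqueG c (g3 t ht) ▸ b1)

end EG

theorem outLab_flpG (g : Lab) {p : Om} {F : Set V} (hF : Invar p F) {x : V}
    (hx : x ∉ F) (L : ℝ) : OutG g (flp F p) x L ↔ OutG g p x L := by
  have h1 : ∀ k, (stp (flp F p))^[k] x = (stp p)^[k] x ∧ (stp p)^[k] x ∉ F := fun k => by
    induction k with
    | zero => exact ⟨rfl, hx⟩
    | succ k ih =>
      rw [Function.iterate_succ_apply', Function.iterate_succ_apply', ih.1, hF.stp_mem]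
      exact ⟨by simp [stp, flp, ih.2], ih.2⟩
  simp only [OutG, fun k => (h1 k).1, fun k => g.flip F p _ (h1 k).2]

theorem pure_flpG (g : Lab) {p : Om} (hp : Til p) {F : Set V}
    (hF : Invar p F) (h : PureG g p) : PureG g (flp F p) := by
  intro x
  obtain ⟨L, h1, h2⟩ := h x
  by_cases hx : x ∈ F
  · have hF' : Invar p Fᶜ := fun y => ⟨(hF y).1.not, (hF y).2.not⟩
    refine ⟨-L, ?_, ?_⟩
    · rwa [flp_compl, outLab_flpG g hF'.swap (not_not.2 hx)]
    · rwa [flp_swap, flp_compl, neg_neg, Prod.swap_swap, outLab_flpG g hF' (not_not.2 hx)]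
  · exact ⟨L, (outLab_flpG g hF hx L).2 h1, (outLab_flpG g hF.swap hx _).2 h2⟩

lemma pure_of_flpG {g : Lab} {p : Om} (hp : Til p) {F : Set V} (hF : Invar p F)
    (h : PureG g (flp F p)) : PureG g p := by
  have := pure_flpG g (til_flp hp hF) (invar_flp hF F) h
  rwa [flp_flp] at this

/-- purity of all finite modifications of all flips -/
lemma pure_of_conullG {g : Lab} {p : Om} (hp : Til p)
    (h : ∀ᵐ ξ ∂coins, ∀ p', Til p' → FinMod (fl (p, ξ)) p' → PureG g p')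
    {F : Set V} (hF : Invar p F) {p' : Om} (hp' : Til p') (hW : FinMod (flp F p) p') :
    PureG g p' := by
  set W := {x | p'.1 x ≠ (flp F p).1 x ∨ p'.2 x ≠ (flp F p).2 x} with hWd
  have hWf : W.Finite := hW
  obtain ⟨ξ, hξ1, hξ2⟩ : ∃ ξ, (∀ q ∈ hWf.toFinset.image (rep p), ξ q = decide (q ∈ F)) ∧
      ∀ p', Til p' → FinMod (fl (p, ξ)) p' → PureG g p' := by
    by_contra hcon
    push Not at hcon
    refine coins_cyl_ne (hWf.toFinset.image (rep p)) (fun q => decide (q ∈ F))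
      (measure_mono_null (fun ξ hξ => ?_) h)
    obtain ⟨p', a, b, c⟩ := hcon ξ hξ
    exact fun hh => c (hh p' a b)
  let CW : Set V := {x | ∃ z ∈ W, Cm p x z}
  let F' : Set V := {x | ¬ (x ∈ F ↔ x ∈ FF (p, ξ)) ∧ x ∉ CW}
  have hF'cm : ∀ x y, Cm p x y → x ∈ F' → y ∈ F' := by
    intro x y hxy hx
    refine ⟨fun hy => hx.1 ?_, fun ⟨z, hz, hyz⟩ => hx.2 ⟨z, hz, hxy.trans hyz⟩⟩
    exact ⟨fun a => FF_cm (p, ξ) hxy.symm (hy.1 (hF.cm hp hxy a)),
      fun a => hF.cm hp hxy.symm (hy.2 (FF_cm (p, ξ) hxy a))⟩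
  have hout : ∀ x, x ∉ W → p'.1 x = (flp F p).1 x ∧ p'.2 x = (flp F p).2 x := by
    intro x hx
    simpa [hWd, not_or] using hx
  have hcl : ∀ x ∈ F', p'.1 x ∈ F' ∧ p'.2 x ∈ F' := by
    intro x hx
    have hxW : x ∉ W := fun h => hx.2 ⟨x, h, Cm.refl p x⟩
    rw [(hout x hxW).1, (hout x hxW).2]
    simp only [flp]
    split_ifs
    · exact ⟨hF'cm _ _ (cm_snd hp x) hx, hF'cm _ _ (cm_fst hp x) hx⟩
    · exact ⟨hF'cm _ _ (cm_fst hp x) hx, hF'cm _ _ (cm_snd hp x) hx⟩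
  have hinv : Invar p' F' := fun x =>
    ⟨⟨fun a => by simpa [(hp'.1 x).2] using (hcl _ a).1, fun a => (hcl x a).1⟩,
      ⟨fun a => by simpa [(hp'.2 x).2] using (hcl _ a).2, fun a => (hcl x a).2⟩⟩
  refine pure_of_flpG hp' hinv (hξ2 _ (til_flp hp' hinv) ?_)
  have hfin : (W ∪ ⋃ z ∈ W, {x | ¬ Inf p z ∧ Cm p z x}).Finite := by
    refine hWf.union (hWf.biUnion fun z _ => ?_)
    by_cases hz : Inf p z
    · simp [hz]
    · have := (inf_iff_infinite p z).not.1 hz
      simpa [hz] using this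
  refine hfin.subset fun x hx => ?_
  by_contra hn
  simp only [Set.mem_union, Set.mem_iUnion, Set.mem_ofPred_eq, not_or, not_exists, not_and] at hn
  have hxo := hout x hn.1
  have key : (x ∈ F' ↔ ¬ (x ∈ F ↔ x ∈ FF (p, ξ))) := by
    refine ⟨fun a => a.1, fun a => ⟨a, fun ⟨z, hz, hxz⟩ => a ?_⟩⟩
    have hiz : Inf p z := by
      by_contra hi
      exact hn.2 z hz hi hxz.symm
    have e1 := hξ1 (rep p z) (mem_image_of_mem _ (hWf.mem_toFinset.2 hz))
    have e2 : rep p x = rep p z := (rep_eq_iff p x z).2 hxz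
    have e3 : Cm p x (rep p z) := hxz.trans (cm_rep p z)
    constructor
    · intro a
      refine ⟨hiz.cm hxz.symm, ?_⟩
      simp only [e2, e1]
      exact decide_eq_true (hF.cm hp e3 a)
    · intro a
      have := a.2
      simp only [e2, e1] at this
      exact hF.cm hp e3.symm (of_decide_eq_true this)
  simp only [Set.mem_ofPred_eq, fl, flp] at hx hxo
  rw [hxo.1, hxo.2] at hx
  by_cases h1 : x ∈ F <;> by_cases h2 : x ∈ FF (p, ξ) <;> simp [key, h1, h2] at hx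

lemma pure_of_unorG {g : Lab} {p : Om} (hp : Til p)
    (h : ∀ᵐ ξ ∂coins, ∀ p', Til p' → FinMod (fl (p, ξ)) p' → PureG g p')
    (p' : Om) (hp' : Til p') (hU : Unor p p') : PureG g p' := by
  obtain ⟨F, F', h1, h2, h3⟩ := unor_flip hp hp' hU
  exact pure_of_flpG hp' h2 (pure_of_conullG hp h h1 (til_flp hp' h2) h3)

end Pool.Agent.Lib.MP_640444_pr
end

-- part Pool.Agent.Lib.MP_640444_pr.Mark
section

/-!
Symmetry of the double dimer model on tail events with at least two infinite components.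
-/

set_option autoImplicit false
open MeasureTheory Filter Finset
open scoped Classical Topology
open Pool.Agent.Shared.Ergodic

namespace Pool.Agent.Lib.MP_640444_pr

namespace Mark

variable {s : Fin 3 → ℝ} {μ₁ μ₂ : Measure Cfg}

/-- the marked label -/
noncomputable def gm (η : V → Bool) (D : Finset (V × V)) (w : V) : Lab where
  g p x := if η x then gv D w p x else 0
  bd p x := by
    split_ifs
    · exact abs_gv_le D w p x
    · simp
  fin q q' h := (EG.dbl_fin (D := D) h).subset fun x hx hc => hx.2.2 (by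
    simp only [gv, hx.1, hx.2.1, hc])
  flip F p y hy := by rw [gv_flp, if_neg hy]

/-- the mark field of a tail event -/
noncomputable def mk (A : Set Om) (p : Om) (x : V) : Bool := decide (shift2 (-x) p ∈ A)

lemma mk_shift (A : Set Om) (v : V) (p : Om) (x : V) : mk A (shift2 v p) (x + v) = mk A p x := by
  simp only [mk, shift2_shift2]
  congr 3
  abel

lemma measurable_mk {A : Set Om} (hA : MeasurableSet A) : Measurable (mk A) :=
  measurable_pi_lambda _ fun x => by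
    refine measurable_to_bool ?_
    have : (fun p => mk A p x) ⁻¹' {true} = shift2 (-x) ⁻¹' A := by
      ext p; simp [mk]
    rw [this]
    exact measurable_shift2 _ hA

lemma tail_mk {A : Set Om} (hA : Tail A) (W : Finset V) (b : V → Bool) :
    Tail (mk A ⁻¹' cylG W b) := by
  intro p q hp hq hf h x hx
  rw [← h x hx]
  simp only [mk, decide_eq_decide]
  exact ⟨hA.shift _ q p hq hp hf.symm, hA.shift _ p q hp hq hf⟩

lemma isTiling_ovr {Λ : Finset V} {a y y' : Cfg} (ha : IsTiling a) (e : ∀ x ∈ Λ, a x = y x)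
    (h1 : Adm Λ y') (h2 : SameBd Λ y y') : IsTiling fun x => if x ∈ Λ then y' x else a x := by
  intro x
  by_cases hx : x ∈ Λ
  · simp only [hx, if_true]
    refine ⟨(h1 x hx).1, ?_⟩
    split_ifs with h
    · exact (h1 x hx).2 h
    · rw [← h2 x hx (Or.inr h), ← e x hx, (ha x).2]
  · simp only [hx, if_false]
    refine ⟨(ha x).1, ?_⟩
    split_ifs with h
    · rw [← h2 _ h (Or.inl (by rwa [← e _ h, (ha x).2])), ← e _ h, (ha x).2]
    · exact (ha x).2

lemma swpInv_restrict {m : Measure Om} [IsFiniteMeasure m] (hm : SwpInv m) (hT : ∀ᵐ p ∂m, Til p)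
    {A : Set Om} (hA : MeasurableSet A) (ht : Tail A) : SwpInv (m.restrict A) := by
  intro Λ S hΛ y y' hy hS
  rw [Measure.restrict_apply (mset_cyl _ _), Measure.restrict_apply (mset_cyl _ _)]
  have h1 := swap_meas hm hy ((mset_cyl S y').inter hA)
  have e1 : cyl S y' ∩ A ∩ cyl Λ y' = cyl S y' ∩ A :=
    Set.inter_eq_left.2 fun p hp x hx => hp.1 x (hΛ hx)
  rw [e1] at h1
  rw [← h1]
  refine measure_congr ?_
  filter_upwards [hT] with p hp
  have key : p ∈ cyl Λ y → Til (ovr Λ y' p) ∧ FinMod p (ovr Λ y' p) := fun h =>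
    ⟨⟨isTiling_ovr hp.1 (fun x hx => (h x hx).1) hy.2.2.1 hy.2.2.2.2.1,
      isTiling_ovr hp.2 (fun x hx => (h x hx).2) hy.2.2.2.1 hy.2.2.2.2.2⟩,
      Λ.finite_toSet.subset fun x hx => by
        by_contra hc
        have hc' : x ∉ Λ := hc
        simp [ovr, hc'] at hx⟩
  refine propext ⟨fun h => ?_, fun h => ?_⟩
  · have h0 : p ∈ cyl Λ y := fun x hx => h.1 x (hΛ hx)
    refine ⟨⟨fun x hx => ?_, ht _ _ hp (key h0).1 (key h0).2 h.2⟩, h0⟩
    by_cases hxΛ : x ∈ Λ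
    · simp [ovr, hxΛ]
    · simpa [ovr, hxΛ, ← (hS x hx hxΛ).1, ← (hS x hx hxΛ).2] using h.1 x hx
  · refine ⟨fun x hx => ?_, ht _ _ (key h.2).1 hp (key h.2).2.symm h.1.2⟩
    by_cases hxΛ : x ∈ Λ
    · exact h.2 x hxΛ
    · simpa [ovr, hxΛ, (hS x hx hxΛ).1, (hS x hx hxΛ).2] using h.1.1 x hx

lemma gibbs_cyl {μ : Measure Cfg} (h : IsEGM s μ) {Λ S : Finset V} (hΛ : Λ ⊆ S) {y y' : Cfg}
    (a1 : Adm Λ y) (a2 : Adm Λ y') (a3 : SameBd Λ y y') (hS : ∀ x ∈ S, x ∉ Λ → y x = y' x) :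
    μ (cylG S y) = μ (cylG S y') := by
  have e : ∀ z : Cfg, (∀ x ∈ S, x ∉ Λ → y x = z x) →
      cylG S z = {σ : Cfg | ∀ x ∈ Λ, σ x = z x} ∩ cylG (S \ Λ) y := by
    intro z hz
    ext σ
    simp only [cylG, Set.mem_ofPred_eq, Set.mem_inter_iff, Finset.mem_sdiff]
    refine ⟨fun h => ⟨fun x hx => h x (hΛ hx), fun x hx => (h x hx.1).trans (hz x hx.1 hx.2).symm⟩,
      fun h x hx => ?_⟩
    by_cases hx' : x ∈ Λ
    · exact h.1 x hx'
    · exact (h.2 x ⟨hx, hx'⟩).trans (hz x hx hx')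
  rw [e y fun _ _ _ => rfl, e y' hS]
  exact h.gibbs Λ y y' a1 a2 a3 _ (mset_cylG _ _) fun σ σ' h1 h2 x hx =>
    (h1 x (Finset.mem_sdiff.1 hx).2).symm.trans (h2 x hx)

lemma swpInv_prod (h₁ : IsEGM s μ₁) (h₂ : IsEGM s μ₂) : SwpInv (μ₁.prod μ₂) := by
  have := h₁.prob
  have := h₂.prob
  intro Λ S hΛ y y' hy hS
  rw [cyl_eq_prod, cyl_eq_prod, Measure.prod_prod, Measure.prod_prod,
    gibbs_cyl h₁ hΛ hy.1 hy.2.2.1 hy.2.2.2.2.1 fun x a b => (hS x a b).1,
    gibbs_cyl h₂ hΛ hy.2.1 hy.2.2.2.1 hy.2.2.2.2.2 fun x a b => (hS x a b).2]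

lemma coins_shift {v : V} (hv : Ev v) (p : Om) {A : Set Om} (hA : MeasurableSet A) :
    coins {ξ | shift2 v (fl (p, ξ)) ∈ A} = coins {ξ | fl (shift2 v p, ξ) ∈ A} := by
  have hΨ : Measurable fun η : V → Bool => shift2 v (flp (FS p η) p) := by
    refine (measurable_shift2 v).comp (measurable_flp measurable_const fun x => ?_)
    have : MeasurableSet {η : V → Bool | η x = true} :=
      (measurable_pi_apply x : Measurable fun η : V → Bool => η x) (measurableSet_singleton true)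
    exact (MeasurableSet.const _).inter this
  have hl := coins_law (rep p) (fun x => rep (shift2 v p) (x + v)) fun x y => by
    rw [rep_eq_iff, rep_eq_iff, cm_shift hv]
  have h1 := congrArg
    (fun μ : Measure (V → Bool) => μ ((fun η => shift2 v (flp (FS p η) p)) ⁻¹' A)) hl
  rw [Measure.map_apply (measurable_pi_lambda _ fun _ => measurable_pi_apply _) (hΨ hA),
    Measure.map_apply (measurable_pi_lambda _ fun _ => measurable_pi_apply _) (hΨ hA)] at h1
  refine h1.trans (congrArg coins ?_)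
  ext ξ
  simp only [Set.mem_preimage, fl, Set.mem_ofPred_eq]
  rw [← flp_shift v p]
  have : (FS p fun x => ξ (rep (shift2 v p) (x + v))) = (· + v) ⁻¹' FF (shift2 v p, ξ) := by
    ext x
    simp only [FS, FF, Set.mem_preimage, Set.mem_ofPred_eq, inf_shift hv]
  rw [this]

lemma fl_joint {m : Measure Om} [IsProbabilityMeasure m] (hm : EvInv m) {v : V} (hv : Ev v)
    {A B : Set Om} (hA : MeasurableSet A) (hB : MeasurableSet B) :
    (m.prod coins) (fl ⁻¹' (shift2 v ⁻¹' A) ∩ Prod.fst ⁻¹' (shift2 v ⁻¹' B)) =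
      (m.prod coins) (fl ⁻¹' A ∩ Prod.fst ⁻¹' B) := by
  have m1 := (measurable_fl (measurable_shift2 v hA)).inter
    (measurable_fst (measurable_shift2 v hB))
  have m2 := (measurable_fl hA).inter (measurable_fst hB)
  rw [Measure.prod_apply m1, Measure.prod_apply m2,
    ← (hm v hv).lintegral_comp (measurable_measure_prodMk_left m2)]
  refine lintegral_congr fun p => ?_
  by_cases h : shift2 v p ∈ B
  · refine Eq.trans (congrArg coins ?_) ((coins_shift hv p hA).trans (congrArg coins ?_)) <;>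
    · ext ξ; simp [h]
  · refine Eq.trans (congrArg coins (a₂ := ∅) ?_) (congrArg coins ?_) <;>
    · ext ξ; simp [h]

lemma patch_prob (hs : (∑ i, |s i|) < 1) (h₁ : IsEGM s μ₁) (h₂ : IsEGM s μ₂) (ε : ℝ) (hε : 0 < ε)
    (L0 : ℕ) : ∃ r L : ℕ, L0 ≤ L ∧ r < L ∧ (L : ℝ) - r ≤ ε * L ∧
      ((μ₁.prod μ₂).prod coins) {ω | ¬ (Patchable r L ω.1.1 (flp (FF ω) ω.1).1 ∧
        Patchable r L ω.1.2 (flp (FF ω) ω.1).2)} ≤ ENNReal.ofReal ε := by
  obtain ⟨N0, hN0⟩ := exists_nat_ge (2 / ε)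
  set N := N0 + 2 with hN
  obtain ⟨δ, hδ, K, l0, hK, hpatch⟩ := patch s hs N (by omega)
  obtain ⟨l, hl, hP⟩ := flip_prob h₁ h₂ hδ hε K (l0 + L0 + N)
  have hL : l ≤ K * l := Nat.le_mul_of_pos_left l hK
  have hr : N * ((N - 1) * (K * l) / N) ≤ (N - 1) * (K * l) := Nat.mul_div_le _ _
  have hr2 : (N - 1) * (K * l) < N * ((N - 1) * (K * l) / N + 1) :=
    Nat.lt_mul_div_succ _ (by omega)
  set r := (N - 1) * (K * l) / N
  have e1 : N - 1 = N0 + 1 := by omega
  refine ⟨r, K * l, by omega, ?_, ?_, le_trans (measure_mono ?_) hP⟩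
  · rw [e1, hN] at hr
    have : 0 < K * l := by omega
    nlinarith
  · rw [e1, hN] at hr2
    have h1 : ((N0 : ℝ) + 1) * (K * l : ℕ) < ((N0 : ℝ) + 2) * (r + 1) := by exact_mod_cast hr2
    have h2 : (N0 : ℝ) + 2 ≤ (K * l : ℕ) := by exact_mod_cast (by omega : N0 + 2 ≤ K * l)
    rw [div_le_iff₀ hε] at hN0
    generalize ((K * l : ℕ) : ℝ) = L at h1 h2
    have h3 : (0 : ℝ) ≤ N0 := Nat.cast_nonneg N0
    have h4 : ((N0 : ℝ) + 2) * (L - r) ≤ ((N0 : ℝ) + 2) * (ε * L) := by nlinarith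
    exact le_of_mul_le_mul_left h4 (by linarith)
  · intro ω hω hc
    apply hω
    obtain ⟨ht, c1, c2, c3, c4⟩ := hc
    have ht' : Til (fl ω) := til_flp ht (invar_FF ht)
    have z : ∀ {a : Cfg}, IsTiling a → ∑ x ∈ box r with a x = x, sgn x = 0 := fun ha =>
      sum_eq_zero fun x hx => absurd (mem_filter.1 hx).2 (ha x).1.ne
    exact ⟨patchable_of ht'.1 (hpatch l (by omega) r _ _ ht.1.nt ht'.1.nt hr
        (fun x h => absurd h (ht.1 x).1.ne) (fun x h => absurd h (ht'.1 x).1.ne)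
        ((z ht.1).trans (z ht'.1).symm) c1 (Or.inl c3)),
      patchable_of ht'.2 (hpatch l (by omega) r _ _ ht.2.nt ht'.2.nt hr
        (fun x h => absurd h (ht.2 x).1.ne) (fun x h => absurd h (ht'.2 x).1.ne)
        ((z ht.2).trans (z ht'.2).symm) c2 (Or.inl c4))⟩

lemma swpInv_mark (hE : EntMStmt) (hs : (∑ i, |s i|) < 1) (h₁ : IsEGM s μ₁) (h₂ : IsEGM s μ₂)
    {A : Set Om} (hA : MeasurableSet A) (ht : Tail A) :
    SwpInv ((((μ₁.prod μ₂).prod coins).restrict (Prod.fst ⁻¹' A)).map fl) := by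
  have := h₁.prob
  have := h₂.prob
  have hm : EvInv (μ₁.prod μ₂) := fun v hv => prod_mp h₁ h₂ hv
  have hf := measurePreserving_fst (μ := μ₁.prod μ₂) (ν := coins)
  intro Λ S hΛ y y' hy hS
  rw [Measure.map_apply measurable_fl (mset_cyl _ _), Measure.map_apply measurable_fl (mset_cyl _ _),
    Measure.restrict_apply (measurable_fl (mset_cyl _ _)),
    Measure.restrict_apply (measurable_fl (mset_cyl _ _))]
  have h := hE _ ((μ₁.prod μ₂).prod coins) Prod.fst FF
    (fun v => Prod.fst ⁻¹' (shift2 (-v) ⁻¹' A)) measurable_fst mset_FF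
    (fun v => measurable_fst (measurable_shift2 _ hA)) ?_ ?_ ?_ (patch_prob hs h₁ h₂)
    Λ S hΛ y y' hy hS
  · have e : shift2 (-0) ⁻¹' A = A := by ext p; simp [shift2_zero]
    rw [e] at h
    exact h
  · filter_upwards [hf.quasiMeasurePreserving.ae (prod_til h₁ h₂)] with ω hω
    exact ⟨hω, invar_FF hω, noFin_FF hω⟩
  · intro Z Z' Λ y y' h
    let E := mk A ⁻¹' cylG Z fun z => decide (z ∈ Z')
    have mE : MeasurableSet E := by
      have : E = ⋂ z ∈ Z, (fun p => mk A p z) ⁻¹' {decide (z ∈ Z')} := by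
        ext p; simp [E, cylG]
      rw [this]
      exact MeasurableSet.biInter Z.countable_toSet fun z _ =>
        ((measurable_pi_apply z).comp (measurable_mk hA)) (measurableSet_singleton _)
    have e : {ω : Om × (V → Bool) | ∀ z ∈ Z, ω ∈ Prod.fst ⁻¹' (shift2 (-z) ⁻¹' A) ↔ z ∈ Z'} =
        Prod.fst ⁻¹' E := by
      ext ω; simp [E, cylG, mk]
    have h2 := swpInv_restrict (swpInv_prod h₁ h₂) (prod_til h₁ h₂) mE (tail_mk ht _ _) Λ Λ
      Subset.rfl y y' h fun x a b => absurd a b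
    rw [Measure.restrict_apply (mset_cyl _ _), Measure.restrict_apply (mset_cyl _ _)] at h2
    rw [e, ← Set.preimage_inter, ← Set.preimage_inter,
      hf.measure_preimage ((mset_cyl _ _).inter mE).nullMeasurableSet,
      hf.measure_preimage ((mset_cyl _ _).inter mE).nullMeasurableSet, h2]
  · intro v hv S y
    have := fl_joint hm hv (mset_cyl (S.image (· + v)) (shift2 v y)) (measurable_shift2 (-v) hA)
    rw [cyl_shift] at this
    refine Eq.trans (congrArg _ ?_) this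
    congr 1
    ext ω
    simp [shift2_shift2, shift2_zero]

lemma mset_cylB (W : Finset V) (b : V → Bool) : MeasurableSet (cylG W b) := by
  have : cylG W b = ⋂ z ∈ W, (fun η : V → Bool => η z) ⁻¹' {b z} := by
    ext p; simp [cylG]
  rw [this]
  exact MeasurableSet.biInter W.countable_toSet fun z _ =>
    (measurable_pi_apply z) (measurableSet_singleton _)

lemma swap_mark {X : Type} [MeasurableSpace X] (P : Measure X) [IsFiniteMeasure P] {q : X → Om}
    {η : X → V → Bool} (hq : Measurable q) (hη : Measurable η)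
    (h : ∀ W b, SwpInv ((P.restrict (η ⁻¹' cylG W b)).map q)) {Λ : Finset V} {y y' : Om}
    (hy : Swp Λ y y') {N : Set (Om × (V → Bool))} (hN : MeasurableSet N) :
    P ((fun ω => (ovr Λ y' (q ω), η ω)) ⁻¹' N ∩ q ⁻¹' cyl Λ y) =
      P ((fun ω => (q ω, η ω)) ⁻¹' N ∩ q ⁻¹' cyl Λ y') := by
  have m1 : Measurable fun ω => (ovr Λ y' (q ω), η ω) := ((measurable_ovr _ _).comp hq).prodMk hη
  have m2 : Measurable fun ω => (q ω, η ω) := hq.prodMk hη
  have key : (P.restrict (q ⁻¹' cyl Λ y)).map (fun ω => (ovr Λ y' (q ω), η ω)) =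
      (P.restrict (q ⁻¹' cyl Λ y')).map fun ω => (q ω, η ω) := by
    refine Measure.ext_prod fun {A B} hA hB => ?_
    have a1 := hq ((measurable_ovr Λ y' hA).inter (mset_cyl Λ y))
    have a2 := hq (hA.inter (mset_cyl Λ y'))
    have k2 : (P.restrict (q ⁻¹' (ovr Λ y' ⁻¹' A ∩ cyl Λ y))).map η =
        (P.restrict (q ⁻¹' (A ∩ cyl Λ y'))).map η := by
      refine ext_cylG _ _ fun W b => ?_
      have := swap_meas (h W b) hy hA
      rw [Measure.map_apply hq ((measurable_ovr Λ y' hA).inter (mset_cyl Λ y)),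
        Measure.map_apply hq (hA.inter (mset_cyl Λ y')), Measure.restrict_apply a1,
        Measure.restrict_apply a2] at this
      rw [Measure.map_apply hη (mset_cylB W b), Measure.map_apply hη (mset_cylB W b),
        Measure.restrict_apply (hη (mset_cylB W b)), Measure.restrict_apply (hη (mset_cylB W b)),
        Set.inter_comm, this, Set.inter_comm]
    have k3 := congrArg (fun m : Measure (V → Bool) => m B) k2
    simp only [Measure.map_apply hη hB, Measure.restrict_apply (hη hB)] at k3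
    rw [Measure.map_apply m1 (hA.prod hB), Measure.map_apply m2 (hA.prod hB),
      Measure.restrict_apply (m1 (hA.prod hB)), Measure.restrict_apply (m2 (hA.prod hB))]
    refine Eq.trans (congrArg P ?_) (k3.trans (congrArg P ?_)) <;>
    · ext ω
      simp only [Set.mem_inter_iff, Set.mem_preimage, Set.mem_prod]
      tauto
  have := congrArg (fun m : Measure (Om × (V → Bool)) => m N) key
  simpa only [Measure.map_apply m1 hN, Measure.map_apply m2 hN, Measure.restrict_apply (m1 hN),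
    Measure.restrict_apply (m2 hN)] using this

lemma ae_finMod_mark {X : Type} [MeasurableSpace X] (P : Measure X) [IsFiniteMeasure P]
    {q : X → Om} {η : X → V → Bool} (hq : Measurable q) (hη : Measurable η)
    (h : ∀ W b, SwpInv ((P.restrict (η ⁻¹' cylG W b)).map q)) {N : Set (Om × (V → Bool))}
    (hN : MeasurableSet N) (h0 : ∀ᵐ ω ∂P, (q ω, η ω) ∉ N) :
    ∀ᵐ ω ∂P, Til (q ω) → ∀ p', Til p' → FinMod (q ω) p' → (p', η ω) ∉ N := by
  have : ∀ᵐ ω ∂P, ∀ (Λ : Finset V) (y y' : Λ → V × V), Swp Λ (extp Λ y) (extp Λ y') →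
      ω ∉ (fun ω => (ovr Λ (extp Λ y') (q ω), η ω)) ⁻¹' N ∩ q ⁻¹' cyl Λ (extp Λ y) := by
    simp only [ae_all_iff]
    intro Λ y y' hy
    refine measure_eq_zero_iff_ae_notMem.1 ?_
    rw [swap_mark P hq hη h hy hN]
    exact measure_mono_null Set.inter_subset_left (measure_eq_zero_iff_ae_notMem.2 h0)
  filter_upwards [this] with ω hp ht p' ht' hf hmem
  let Λ := hf.toFinset
  have hout : ∀ x, x ∉ Λ → p'.1 x = (q ω).1 x ∧ p'.2 x = (q ω).2 x := by
    intro x hx
    simpa [Λ, not_or] using hx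
  have hs : Swp Λ (q ω) p' := ⟨ht.1.adm Λ, ht.2.adm Λ, ht'.1.adm Λ, ht'.2.adm Λ,
    sameBd_of_eq ht.1 ht'.1 fun x hx => (hout x hx).1,
    sameBd_of_eq ht.2 ht'.2 fun x hx => (hout x hx).2⟩
  refine hp Λ _ _ (hs.congr (cyl_symm (mem_cyl_extp Λ _)) (cyl_symm (mem_cyl_extp Λ p')))
    ⟨?_, mem_cyl_extp Λ _⟩
  have : ovr Λ (extp Λ fun x => (p'.1 x, p'.2 x)) (q ω) = p' := by
    refine Prod.ext (funext fun x => ?_) (funext fun x => ?_)
    · by_cases hx : x ∈ Λ
      · simp [ovr, extp, hx]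
      · simp [ovr, hx, (hout x hx).1]
    · by_cases hx : x ∈ Λ
      · simp [ovr, extp, hx]
      · simp [ovr, hx, (hout x hx).2]
  rw [Set.mem_preimage, this]
  exact hmem

variable (D : Finset (V × V)) (w : V)

lemma mset_pure_mark :
    MeasurableSet {z : Om × (V → Bool) | Til z.1 ∧ PureG (gm z.2 D w) z.1} := by
  let u : V → ℕ → Om × (V → Bool) → ℝ := fun x n z =>
    (n : ℝ)⁻¹ * ∑ k ∈ range (2 * n), (gm z.2 D w).g z.1 ((prm z.1)^[k] x)
  have hg : Measurable fun z : Om × (V → Bool) => (gm z.2 D w).g z.1 :=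
    measurable_pi_lambda _ fun x => by
      have h : Measurable fun z : Om × (V → Bool) => z.2 x :=
        (measurable_pi_apply x).comp measurable_snd
      exact Measurable.ite (h (measurableSet_singleton true))
        ((measurable_gv D w x).comp measurable_fst) measurable_const
  have hu : ∀ x n, Measurable (u x n) := fun x n =>
    measurable_const.mul (Finset.measurable_sum _ fun k _ =>
      meas_app hg ((measurable_prm_iter k x).comp measurable_fst))
  have : {z : Om × (V → Bool) | Til z.1 ∧ PureG (gm z.2 D w) z.1} = Prod.fst ⁻¹' {p | Til p} ∩ ⋂ x,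
      ({z | ∃ c, Tendsto (fun n => u x n z) atTop (𝓝 c)} ∩
        {z | Tendsto (fun n => u x n z + u x n (z.1.swap, z.2)) atTop (𝓝 0)}) := by
    ext z
    simp only [Set.mem_ofPred_eq, Set.mem_inter_iff, Set.mem_iInter, Set.mem_preimage]
    refine and_congr_right fun hp => forall_congr' fun x => ?_
    simp only [u, prm_coe hp, prm_coe hp.swap]
    constructor
    · rintro ⟨L, h1, h2⟩
      exact ⟨⟨L, h1⟩, by simpa using h1.add h2⟩
    · rintro ⟨⟨L, h1⟩, h2⟩
      exact ⟨L, h1, by simpa [OutG] using h2.sub h1⟩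
  rw [this]
  refine (measurable_fst mset_til).inter (MeasurableSet.iInter fun x => MeasurableSet.inter ?_ ?_)
  · exact measurableSet_exists_tendsto (hu x)
  · exact measurableSet_tendsto (𝓝 0) fun n => (hu x n).add
      ((hu x n).comp ((measurable_swap.comp measurable_fst).prodMk measurable_snd))

variable {D w}

lemma gm_odd (η : V → Bool) (p : Om) {x : V} (hx : ¬ Ev x) : (gm η D w).g p x = 0 := by
  simp [gm, gv_odd D w p hx]

lemma out_even {η : V → Bool} {p : Om} (hp : Til p) {x : V} (hx : Ev x) (L : ℝ) :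
    OutG (gm η D w) p x L ↔ Tendsto (avg (Tm p) ((gm η D w).g p) x) atTop (𝓝 L) := by
  unfold OutG
  refine tendsto_congr fun n => ?_
  rw [avg, sum_two_mul]
  congr 1
  refine sum_congr rfl fun k _ => ?_
  rw [Function.iterate_succ_apply', ← prm_coe hp, ← tm_iter, gm_odd η p (x := prm p _), add_zero]
  rw [prm_coe hp, (stp_adj hp _).ev, not_not, ev_iter tm_ev]
  exact hx

lemma out_odd {η : V → Bool} {p : Om} (hp : Til p) {x : V} (hx : ¬ Ev x) (L : ℝ) :
    OutG (gm η D w) p x L ↔ Tendsto (avg (Tm p) ((gm η D w).g p) (p.2 x)) atTop (𝓝 L) := by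
  unfold OutG
  refine tendsto_congr fun n => ?_
  rw [avg, sum_two_mul]
  congr 1
  refine sum_congr rfl fun k _ => ?_
  rw [Function.iterate_succ_apply, stp_of_odd hx, ← prm_coe hp, ← tm_iter, ← tm_iter,
    gm_odd η p (x := (Tm p)^[k] x), zero_add]
  rw [ev_iter tm_ev]
  exact hx

lemma avg_swap (η : V → Bool) (p : Om) (T : V → V) (x : V) (L : ℝ) :
    Tendsto (avg T ((gm η D w).g p.swap) x) atTop (𝓝 (-L)) ↔
      Tendsto (avg T ((gm η D w).g p) x) atTop (𝓝 L) := by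
  have : avg T ((gm η D w).g p.swap) x = fun n => -avg T ((gm η D w).g p) x n := by
    funext n
    simp only [avg, gm, gv_swap, ← mul_neg, ← sum_neg_distrib]
    congr 1
    exact sum_congr rfl fun k _ => by split_ifs <;> simp
  rw [this]
  exact ⟨fun h => by simpa using h.neg, fun h => h.neg⟩

lemma gm_shift (A : Set Om) (v : V) (hv : Ev v) (p : Om) (x : V) :
    (gm (mk A (shift2 v p)) D w).g (shift2 v p) (x + v) = (gm (mk A p) D w).g p x := by
  simp only [gm, mk_shift, gv_shift D w v hv]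

lemma measurable_gm {A : Set Om} (hA : MeasurableSet A) :
    Measurable fun p => (gm (mk A p) D w).g p 0 :=
  Measurable.ite (((measurable_pi_apply 0).comp (measurable_mk hA)) (measurableSet_singleton true))
    (measurable_gv D w 0) measurable_const

lemma ae_pure_mark {m : Measure Om} [IsProbabilityMeasure m] (hm : EvInv m) (hT : ∀ᵐ p ∂m, Til p)
    {A : Set Om} (hA : MeasurableSet A) : ∀ᵐ p ∂m, PureG (gm (mk A p) D w) p := by
  filter_upwards [hT, ae_site (H := fun p => (gm (mk A p) D w).g p) hm (gm_shift A)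
    (measurable_gm hA) fun p x => (gm (mk A p) D w).bd p x] with p hp h x
  by_cases hx : Ev x
  · refine ⟨_, (out_even hp hx _).2 (h x hx).1, (out_even hp.swap hx _).2 ?_⟩
    exact (avg_swap _ p _ x _).2 (h x hx).2
  · have he : Ev (p.1 x) := (hp.1.ev x).2 hx
    refine ⟨_, (out_odd hp hx _).2 ?_, (out_odd hp.swap hx _).2
      ((avg_swap _ p _ _ _).2 (h _ he).2)⟩
    have e : p.2 x = Tm p (p.1 x) := by rw [tm_of_ev hp he, (hp.1 x).2]
    rw [e]
    have := (tendsto_avg_shift (Tm p) 1 ((gm (mk A p) D w).bd p) (p.1 x)).add (h _ he).1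
    simpa using this

lemma ae_unor_mark (hE : EntMStmt) (hs : (∑ i, |s i|) < 1) (h₁ : IsEGM s μ₁) (h₂ : IsEGM s μ₂)
    {A : Set Om} (hA : MeasurableSet A) (ht : Tail A) :
    ∀ᵐ p ∂(μ₁.prod μ₂), ∀ p', Til p' → Unor p p' → PureG (gm (mk A p) D w) p' := by
  have := h₁.prob
  have := h₂.prob
  have hm : EvInv (μ₁.prod μ₂) := fun v hv => prod_mp h₁ h₂ hv
  have hf := measurePreserving_fst (μ := μ₁.prod μ₂) (ν := coins)
  have hT := prod_til h₁ h₂
  have h1 := ae_finMod_mark ((μ₁.prod μ₂).prod coins) (η := fun ω => mk A ω.1) measurable_fl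
    ((measurable_mk hA).comp measurable_fst) (fun W b =>
      swpInv_mark hE hs h₁ h₂ (measurable_mk hA (mset_cylB W b)) (tail_mk ht W b))
    (mset_pure_mark D w).compl (by
      filter_upwards [hf.quasiMeasurePreserving.ae hT,
        hf.quasiMeasurePreserving.ae (ae_pure_mark (D := D) (w := w) hm hT hA)] with ω hω hp
      exact not_not.2 ⟨til_flp hω (invar_FF hω), pure_flpG _ hω (invar_FF hω) hp⟩)
  filter_upwards [hT, Measure.ae_ae_of_ae_prod h1] with p hp h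
  refine pure_of_unorG hp ?_
  filter_upwards [h] with ξ hξ p' hp' hfm
  exact (not_not.1 (hξ (til_flp hp (invar_FF (ω := (p, ξ)) hp)) p' hp' hfm)).2

lemma other {p : Om} (hp : Til p) (h : ¬ One p) (x : V) : ∃ y, Ev y ∧ Inf p y ∧ ¬ Cm p x y := by
  by_contra hc
  push Not at hc
  have key : ∀ y, Inf p y → Cm p x y := fun y hy => by
    by_cases he : Ev y
    · exact hc y he hy
    · exact (hc (p.1 y) ((hp.1.ev y).2 he) (hy.cm (cm_fst hp y))).trans (cm_fst hp y).symm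
  exact h fun a b ha hb => (key a ha).symm.trans (key b hb)

lemma ae_label_mark (hE : EntMStmt) (hs : (∑ i, |s i|) < 1) (h₁ : IsEGM s μ₁) (h₂ : IsEGM s μ₂)
    {A : Set Om} (hA : MeasurableSet A) (ht : Tail A) :
    ∀ᵐ p ∂(μ₁.prod μ₂), ¬ One p → Inf p 0 → OutG (gm (mk A p) D w) p 0 0 := by
  have := h₁.prob
  have := h₂.prob
  have hm : EvInv (μ₁.prod μ₂) := fun v hv => prod_mp h₁ h₂ hv
  filter_upwards [prod_til h₁ h₂, ae_unor_mark (D := D) (w := w) hE hs h₁ h₂ hA ht, ae_conv hm,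
    ae_good h₁ h₂] with p hp hU hc hg hn hi
  obtain ⟨y, e2, i2, hy⟩ := other hp hn 0
  refine EG.endgame_ofG s (patch s hs 2 le_rfl) _ p hp hU 0 y ev_zero e2
    (by rw [← prm_coe hp]; exact hi) (by rw [← prm_coe hp]; exact i2) (fun k => ?_)
    (ray_close hp ev_zero e2 (hc 0 ev_zero) (hc y e2) hg)
  rw [← prm_coe hp]
  exact ⟨fun e => hy ((cm_iff p _ _).2 ⟨k, Or.inl e⟩), fun e => hy ((cm_iff p _ _).2 ⟨k, Or.inr e⟩)⟩

lemma inf_mark {m : Measure Om} [IsProbabilityMeasure m] (hm : EvInv m) (hT : ∀ᵐ p ∂m, Til p)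
    {A : Set Om} (hA : MeasurableSet A) (hO : ∀ p ∈ A, ¬ One p)
    (h : ∀ᵐ p ∂m, ¬ One p → Inf p 0 → OutG (gm (mk A p) D w) p 0 0) :
    m (A ∩ {p | gv D w p 0 = 1} ∩ {p | Inf p 0}) =
      m (A ∩ {p | gv D w p 0 = -1} ∩ {p | Inf p 0}) := by
  let H : Om → V → ℝ := fun p x => if Inf p x ∧ ¬ One p then (gm (mk A p) D w).g p x else 0
  have hH : ∀ v, Ev v → ∀ p x, H (shift2 v p) (x + v) = H p x := fun v hv p x => by
    simp only [H, inf_shift hv, gm_shift A v hv, one_shift hv]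
  have hM : Measurable fun p => H p 0 :=
    Measurable.ite ((mset_inf 0).inter mset_one.compl) (measurable_gm hA) measurable_const
  have hC : ∀ p, |H p 0| ≤ 1 := fun p => by
    simp only [H]; split_ifs
    · exact (gm _ D w).bd p 0
    · simp
  have h0 := integral_eq_zero_of_upper (th_mp hm) hM hC (by
    filter_upwards [hT, h] with p hp hl
    have e := upper_site hH p ev_zero
    rw [neg_zero, shift2_zero] at e
    rw [e]
    by_cases hi : Inf p 0 ∧ ¬ One p
    · have := (out_even hp ev_zero 0).1 (hl hi.2 hi.1)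
      refine Tendsto.limsup_eq (this.congr fun n => ?_)
      simp only [avg, H, fun k => hi.1.cm (cm_tm_iter p 0 k), hi.2, not_false_iff, and_self, if_true]
    · have e2 : ∀ k, ¬ (Inf p ((Tm p)^[k] 0) ∧ ¬ One p) := fun k h =>
        hi ⟨h.1.cm (cm_tm_iter p 0 k).symm, h.2⟩
      refine Tendsto.limsup_eq (tendsto_const_nhds.congr fun n => ?_)
      simp only [avg, H, e2, if_false, sum_const_zero, mul_zero])
  have ms : ∀ c : ℝ, MeasurableSet (A ∩ {p | gv D w p 0 = c} ∩ {p | Inf p 0}) := fun c =>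
    (hA.inter (measurable_gv D w 0 (measurableSet_singleton c))).inter (mset_inf 0)
  have e : (fun p => H p 0) = fun p =>
      Set.indicator (A ∩ {p | gv D w p 0 = 1} ∩ {p | Inf p 0}) (1 : Om → ℝ) p -
        Set.indicator (A ∩ {p | gv D w p 0 = -1} ∩ {p | Inf p 0}) (1 : Om → ℝ) p := by
    funext p
    have : gv D w p 0 = 1 ∨ gv D w p 0 = 0 ∨ gv D w p 0 = -1 := by
      unfold gv; split_ifs <;> simp
    by_cases ha : p ∈ A
    · by_cases hi : Inf p 0
      · rcases this with a | a | a <;>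
          simp [H, gm, mk, shift2_zero, ha, hO p ha, hi, a, Set.indicator_apply] <;> norm_num
      · simp [H, hi]
    · simp [H, gm, mk, shift2_zero, ha]
  rw [e, integral_sub ((integrable_const 1).indicator (ms _)) ((integrable_const 1).indicator (ms _)),
    integral_indicator_one (ms _), integral_indicator_one (ms _), sub_eq_zero] at h0
  exact (ENNReal.toReal_eq_toReal_iff' (measure_ne_top _ _) (measure_ne_top _ _)).1 h0

end Mark

open Mark in
theorem mark_of (hE : EntMStmt) : MarkStmt := by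
  intro s μ₁ μ₂ hs h₁ h₂ A hA ht hO D w
  have := h₁.prob
  have := h₂.prob
  have hm : EvInv (μ₁.prod μ₂) := fun v hv => prod_mp h₁ h₂ hv
  have hT := prod_til h₁ h₂
  have a1 := inf_mark hm hT hA hO (ae_label_mark (D := D) (w := w) hE hs h₁ h₂ hA ht)
  have a2 := loops_symm (swpInv_restrict (swpInv_prod h₁ h₂) hT hA ht) (ae_restrict_of_ae hT) D w
  have e : ∀ c : ℝ, (μ₁.prod μ₂).restrict A ({p | gv D w p 0 = c} ∩ ⋃ Λ, Loop Λ) =
      (μ₁.prod μ₂) ((A ∩ {p | gv D w p 0 = c}) \ {p | Inf p 0}) := by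
    intro c
    have ms : MeasurableSet {p | gv D w p 0 = c} := measurable_gv D w 0 (measurableSet_singleton c)
    rw [Measure.restrict_apply (ms.inter (MeasurableSet.iUnion mset_loop))]
    refine measure_congr ?_
    filter_upwards [hT] with p hp
    refine propext ?_
    change ((gv D w p 0 = c ∧ p ∈ ⋃ Λ, Loop Λ) ∧ p ∈ A) ↔ ((p ∈ A ∧ gv D w p 0 = c) ∧ ¬ Inf p 0)
    rw [Set.mem_iUnion, mem_loop_iff hp]
    tauto
  rw [e, e] at a2
  rw [← measure_inter_add_sdiff _ (mset_inf 0), a1, a2, measure_inter_add_sdiff _ (mset_inf 0)]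

end Pool.Agent.Lib.MP_640444_pr
end
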