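import Pool.Agent.Lib.MP_640444_pr.Stmts2

-- part Pool.Agent.Lib.MP_640444_pr.Trans
section

/-!
Replacing the independent sample by a resample.
-/

set_option autoImplicit false
open MeasureTheory Filter Finset
open scoped Classical Topology ENNReal

namespace Pool.Agent.Lib.MP_640444_pr

namespace Trans

lemma ind_nonneg (A : Set Cfg) (σ : Cfg) : 0 ≤ ind A σ := by
  unfold ind; split_ifs <;> norm_num

lemma ind_le_one (A : Set Cfg) (σ : Cfg) : ind A σ ≤ 1 := by
  unfold ind; split_ifs <;> norm_num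

lemma abs_ind (A : Set Cfg) (σ : Cfg) : |ind A σ| ≤ 1 := by
  rw [abs_of_nonneg (ind_nonneg A σ)]; exact ind_le_one A σ

lemma measurable_ind {A : Set Cfg} (hA : MeasurableSet A) : Measurable (ind A) :=
  Measurable.ite hA measurable_const measurable_const

lemma integral_ind (μ : Measure Cfg) {A : Set Cfg} (hA : MeasurableSet A) :
    ∫ σ, ind A σ ∂μ = μ.real A := by
  rw [← integral_indicator_one hA]
  refine integral_congr_ae (Eventually.of_forall fun σ => ?_)
  simp [ind, Set.indicator]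

lemma gam_congr {Λ : Finset V} {f g : Cfg → ℝ} {τ : Cfg} (h : ∀ σ ∈ cls Λ τ, f σ = g σ) :
    gam Λ f τ = gam Λ g τ := by
  unfold gam; rw [sum_congr rfl h]

lemma gam_mul (Λ : Finset V) (c : ℝ) (f : Cfg → ℝ) (τ : Cfg) :
    gam Λ (fun σ => c * f σ) τ = c * gam Λ f τ := by
  unfold gam; rw [← mul_sum, mul_div_assoc]

lemma gam_sum {ι : Type} (Λ : Finset V) (T : Finset ι) (f : ι → Cfg → ℝ) (τ : Cfg) :
    gam Λ (fun σ => ∑ y ∈ T, f y σ) τ = ∑ y ∈ T, gam Λ (f y) τ := by
  unfold gam; rw [sum_comm, sum_div]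

lemma gam_cls {Λ : Finset V} (f : Cfg → ℝ) {τ σ : Cfg} (h : σ ∈ cls Λ τ) :
    gam Λ f σ = gam Λ f τ := by
  unfold gam; rw [cls_of_mem h]

lemma gam_nonneg {Λ : Finset V} {f : Cfg → ℝ} (h : ∀ σ, 0 ≤ f σ) (τ : Cfg) : 0 ≤ gam Λ f τ :=
  div_nonneg (sum_nonneg fun σ _ => h σ) (Nat.cast_nonneg _)

lemma abs_gam {Λ : Finset V} {f : Cfg → ℝ} (h : ∀ σ, |f σ| ≤ 1) (τ : Cfg) : |gam Λ f τ| ≤ 1 := by
  unfold gam
  rw [abs_div, Nat.abs_cast]
  refine div_le_one_of_le₀ ((abs_sum_le_sum_abs _ _).trans ?_) (Nat.cast_nonneg _)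
  simpa using sum_le_card_nsmul (cls Λ τ) (fun σ => |f σ|) 1 fun σ _ => h σ

lemma integrable_of_bd {X : Type} [MeasurableSpace X] (m : Measure X) [IsFiniteMeasure m]
    {f : X → ℝ} (hf : Measurable f) {C : ℝ} (h : ∀ x, |f x| ≤ C) : Integrable f m :=
  Integrable.of_bound hf.aestronglyMeasurable C (Eventually.of_forall h)

lemma measurable_gam (hD : DlrStmt) (Λ : Finset V) {f : Cfg → ℝ} (hf : Measurable f) :
    Measurable (gam Λ f) :=
  hD.mgam Cfg Λ id (fun q => f q.2) measurable_id (hf.comp measurable_snd)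

lemma mset_no : MeasurableSet {p : Om | ¬ One p} := mset_one.compl

instance kap_finite (μ : Measure Cfg) [IsFiniteMeasure μ] : IsFiniteMeasure (kap μ) := by
  unfold kap; infer_instance

lemma integral_kap (μ : Measure Cfg) {g : Cfg → ℝ} (hg : Measurable g) :
    ∫ τ, g τ ∂(kap μ) = ∫ p in {p | ¬ One p}, g p.1 ∂(μ.prod μ) :=
  integral_map measurable_fst.aemeasurable hg.aestronglyMeasurable

lemma rs_finite (hD : DlrStmt) {Λ : Finset V} {κ : Measure Cfg} [IsFiniteMeasure κ]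
    (h : Gib1 Λ κ) : IsFiniteMeasure (Rs Λ κ) := by
  refine ⟨?_⟩
  have := (hD.rsg Λ κ h).2.2 Set.univ MeasurableSet.univ
  rw [Set.preimage_univ] at this
  rw [this]
  exact measure_lt_top _ _

lemma no_iff {Λ : Finset V} {τ σ σ' : Cfg} (hτ : IsTiling τ) (hσ : IsTiling σ)
    (h : σ' ∈ cls Λ σ) : One (τ, σ') ↔ One (τ, σ) := by
  obtain ⟨h1, h2⟩ := mem_cls.1 h
  have hf : FinMod (τ, σ) (τ, σ') := by
    refine Λ.finite_toSet.subset fun x hx => ?_
    by_contra hx'
    rcases hx with hx | hx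
    · exact hx rfl
    · exact hx (h2 x hx')
  exact ⟨fun a => tail_one _ _ ⟨hτ, h1⟩ ⟨hτ, hσ⟩ hf.symm a,
    fun a => tail_one _ _ ⟨hτ, hσ⟩ ⟨hτ, h1⟩ hf a⟩

/-- resampling the second coordinate on the event of two infinite components -/
lemma resample (hD : DlrStmt) {s : Fin 3 → ℝ} {μ : Measure Cfg} (hμ : IsEGM s μ) (Λ : Finset V)
    {h : Om → ℝ} (hm : Measurable h) (hb : ∀ p, |h p| ≤ 1) :
    ∫ p in {p | ¬ One p}, h p ∂(μ.prod μ) =
      ∫ p in {p | ¬ One p}, gam Λ (fun σ => h (p.1, σ)) p.2 ∂(μ.prod μ) := by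
  have := hμ.prob
  have hm2 : Measurable fun p : Om => gam Λ (fun σ => h (p.1, σ)) p.2 :=
    hD.mgam Om Λ Prod.snd (fun q => h (q.1.1, q.2)) measurable_snd
      (hm.comp ((measurable_fst.comp measurable_fst).prodMk measurable_snd))
  have i1 : Integrable h (μ.prod μ) := integrable_of_bd _ hm hb
  have i2 : Integrable (fun p : Om => gam Λ (fun σ => h (p.1, σ)) p.2) (μ.prod μ) :=
    integrable_of_bd _ hm2 fun p => abs_gam (fun σ => hb _) _
  rw [← integral_indicator mset_no, ← integral_indicator mset_no,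
    integral_prod _ (i1.indicator mset_no), integral_prod _ (i2.indicator mset_no)]
  refine integral_congr_ae ?_
  filter_upwards [hμ.tiling] with τ hτ
  have m3 : Measurable fun σ => Set.indicator {p : Om | ¬ One p} h (τ, σ) :=
    (hm.indicator mset_no).comp measurable_prodMk_left
  have b3 : ∀ σ, |Set.indicator {p : Om | ¬ One p} h (τ, σ)| ≤ 1 := fun σ => by
    by_cases e : (τ, σ) ∈ {p : Om | ¬ One p}
    · rw [Set.indicator_of_mem e]; exact hb _
    · rw [Set.indicator_of_notMem e]; simp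
  rw [← hD.real Λ μ (hD.egm s μ hμ Λ).1 _ 1 m3 b3]
  refine integral_congr_ae ?_
  filter_upwards [hμ.tiling] with σ hσ
  by_cases e : (τ, σ) ∈ {p : Om | ¬ One p}
  · rw [Set.indicator_of_mem e]
    refine gam_congr fun σ' h' => Set.indicator_of_mem ?_ _
    exact fun a => e ((no_iff hτ hσ h').1 a)
  · rw [Set.indicator_of_notMem e]
    rw [gam_congr (g := fun _ => 0) fun σ' h' => Set.indicator_of_notMem ?_ _]
    · simp [gam]
    · exact fun a => e fun b => a ((no_iff hτ hσ h').2 b)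

lemma res1_mem {Λ : Finset V} {σ : Cfg} (h : IsTiling σ) : res1 Λ σ ∈ Ent.Pat1 Λ :=
  Ent.mem_Pat1.2 ⟨fun v hv => by simpa [res1, hv] using Ent.Adj.sub_mem (h v).1,
    fun v hv => by simp [res1, hv]⟩

lemma ind_loc {Λ : Finset V} {T : Set Cfg} (hT : Loc1 Λ T) {σ : Cfg} (h : IsTiling σ) :
    ind T σ = ∑ y ∈ Ent.Pat1 Λ, ind T y * ind (cylG Λ y) σ := by
  have a1 : σ ∈ cylG Λ (res1 Λ σ) := fun x hx => by simp [res1, hx]
  have a2 : res1 Λ σ ∈ cylG Λ σ := fun x hx => by simp [res1, hx]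
  rw [sum_eq_single_of_mem (res1 Λ σ) (res1_mem h)]
  · have : res1 Λ σ ∈ T ↔ σ ∈ T := ⟨hT _ _ a1, hT _ _ a2⟩
    simp [ind, a1, this]
  · intro y hy hne
    have : σ ∉ cylG Λ y := fun hc => hne (funext fun x => by
      by_cases hx : x ∈ Λ
      · simp [res1, hx, hc x hx]
      · simp [res1, hx, (Ent.mem_Pat1.1 hy).2 x hx])
    simp [ind, this]

lemma gam_loc {Λ : Finset V} {T : Set Cfg} (hT : Loc1 Λ T) (W : Finset V) (u v : Cfg) :
    gam W (ind T) v - gam W (ind T) u ≤
      ∑ y ∈ Ent.Pat1 Λ, |gam W (ind (cylG Λ y)) u - gam W (ind (cylG Λ y)) v| := by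
  have e : ∀ w, gam W (ind T) w = ∑ y ∈ Ent.Pat1 Λ, ind T y * gam W (ind (cylG Λ y)) w :=
    fun w => by
      rw [gam_congr fun σ hσ => ind_loc hT (mem_cls.1 hσ).1, gam_sum]
      exact sum_congr rfl fun y _ => gam_mul _ _ _ _
  rw [e, e, ← sum_sub_distrib]
  refine sum_le_sum fun y _ => ?_
  rw [← mul_sub, abs_sub_comm]
  refine (le_abs_self _).trans ?_
  rw [abs_mul]
  exact mul_le_of_le_one_left (abs_nonneg _) (abs_ind _ _)

lemma tr (hD : DlrStmt) (hT : TailStmt) (s : Fin 3 → ℝ) (μ : Measure Cfg) (hs : Int0 s)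
    (hμ : IsEGM s μ) (Λ : Finset V) (ε : ℝ) (hε : 0 < ε) :
    ∀ᶠ M : ℕ in atTop, ∀ A : Set Om, MeasurableSet A → (∀ τ, Loc1 Λ {σ | (τ, σ) ∈ A}) →
      (μ.prod μ) (A ∩ {p | ¬ One p}) ≤ Rs (box M) (kap μ) A + ENNReal.ofReal ε := by
  have := hμ.prob
  have lim := tendsto_finsetSum (Ent.Pat1 Λ) fun y _ => hT s μ hs hμ Λ y
  rw [sum_const_zero] at lim
  filter_upwards [lim.eventually (ge_mem_nhds hε)] with M hM A hA hL
  have hG := (hD.egm s μ hμ (box M)).2.1
  have := rs_finite hD hG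
  let h : Om → ℝ := A.indicator 1
  have hm : Measurable h := measurable_one.indicator hA
  have he : ∀ τ, (fun σ => h (τ, σ)) = ind {σ | (τ, σ) ∈ A} := fun τ => by
    funext σ; simp [h, ind, Set.indicator]
  have hb : ∀ p, |h p| ≤ 1 := fun p => by
    have := congrFun (he p.1) p.2
    rw [show h p = h (p.1, p.2) from rfl, this]; exact abs_ind _ _
  have m1 : Measurable fun τ : Cfg => gam (box M) (fun σ => h (τ, σ)) τ :=
    hD.mgam Cfg (box M) id h measurable_id hm
  have m2 : Measurable fun p : Om => gam (box M) (fun σ => h (p.1, σ)) p.2 :=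
    hD.mgam Om (box M) Prod.snd (fun q => h (q.1.1, q.2)) measurable_snd
      (hm.comp ((measurable_fst.comp measurable_fst).prodMk measurable_snd))
  have e1 : (μ.prod μ).real (A ∩ {p | ¬ One p}) =
      ∫ p in {p | ¬ One p}, gam (box M) (fun σ => h (p.1, σ)) p.2 ∂(μ.prod μ) := by
    rw [← resample hD hμ (box M) hm hb, integral_indicator_one hA, measureReal_restrict_apply hA]
  have e2 : (Rs (box M) (kap μ)).real A =
      ∫ p in {p | ¬ One p}, gam (box M) (fun σ => h (p.1, σ)) p.1 ∂(μ.prod μ) := by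
    rw [← integral_indicator_one hA, hD.rsr (box M) (kap μ) h 1 hm hb, integral_kap μ m1]
  have mg : ∀ y, Measurable fun p : Om =>
      |gam (box M) (ind (cylG Λ y)) p.1 - gam (box M) (ind (cylG Λ y)) p.2| := fun y =>
    (((measurable_gam hD _ (measurable_ind (mset_cylG Λ y))).comp measurable_fst).sub
      ((measurable_gam hD _ (measurable_ind (mset_cylG Λ y))).comp measurable_snd)).abs
  have ig : ∀ y ∈ Ent.Pat1 Λ, Integrable (fun p : Om =>
      |gam (box M) (ind (cylG Λ y)) p.1 - gam (box M) (ind (cylG Λ y)) p.2|)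
      ((μ.prod μ).restrict {p | ¬ One p}) := fun y _ =>
    integrable_of_bd _ (mg y) (C := 2) fun p => by
      rw [abs_abs]
      have a := abs_gam (Λ := box M) (abs_ind (cylG Λ y)) p.1
      have b := abs_gam (Λ := box M) (abs_ind (cylG Λ y)) p.2
      exact (abs_sub _ _).trans (by linarith)
  have i1 : Integrable (fun p : Om => gam (box M) (fun σ => h (p.1, σ)) p.1)
      ((μ.prod μ).restrict {p | ¬ One p}) :=
    integrable_of_bd _ (m1.comp measurable_fst) fun p => abs_gam (fun σ => hb _) _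
  have i2 : Integrable (fun p : Om => gam (box M) (fun σ => h (p.1, σ)) p.2)
      ((μ.prod μ).restrict {p | ¬ One p}) :=
    integrable_of_bd _ m2 fun p => abs_gam (fun σ => hb _) _
  have key : (μ.prod μ).real (A ∩ {p | ¬ One p}) - (Rs (box M) (kap μ)).real A ≤ ε := by
    rw [e1, e2, ← integral_sub i2 i1]
    refine le_trans ?_ hM
    rw [← integral_finsetSum _ ig]
    refine integral_mono (i2.sub i1) (integrable_finsetSum _ ig) fun p => ?_
    simp only [he]
    exact gam_loc (hL p.1) _ _ _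
  rw [← ofReal_measureReal (μ := μ.prod μ), ← ofReal_measureReal (μ := Rs (box M) (kap μ)),
    ← ENNReal.ofReal_add measureReal_nonneg hε.le]
  exact ENNReal.ofReal_le_ofReal (by linarith)

/-- the chance that sample and resample both lie in an event -/
lemma both (hD : DlrStmt) {s : Fin 3 → ℝ} {μ : Measure Cfg} (hμ : IsEGM s μ) (W : Finset V)
    {e : Set Cfg} (he : MeasurableSet e) :
    ∫ p, ind e p.1 * ind e p.2 ∂(Rs W (kap μ)) ≤ μ.real e ^ 2 +
      ∫ p in {p | ¬ One p}, |gam W (ind e) p.1 - gam W (ind e) p.2| ∂(μ.prod μ) := by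
  have := hμ.prob
  obtain ⟨g1, g2, -⟩ := hD.egm s μ hμ W
  have mi := measurable_ind he
  have mg := measurable_gam hD W mi
  have b1 : ∀ a b : ℝ, |a| ≤ 1 → |b| ≤ 1 → |a * b| ≤ 1 := fun a b ha hb => by
    rw [abs_mul]; exact mul_le_one₀ ha (abs_nonneg _) hb
  have bg := abs_gam (Λ := W) (abs_ind e)
  have pg := gam_nonneg (Λ := W) (ind_nonneg e)
  have e1 : ∫ p, ind e p.1 * ind e p.2 ∂(Rs W (kap μ)) =
      ∫ p in {p | ¬ One p}, gam W (ind e) p.1 * gam W (ind e) p.1 ∂(μ.prod μ) := by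
    rw [hD.rsr W (kap μ) (fun p => ind e p.1 * ind e p.2) 1
      ((mi.comp measurable_fst).mul (mi.comp measurable_snd))
      fun p => b1 _ _ (abs_ind _ _) (abs_ind _ _)]
    simp only [gam_mul]
    rw [← hD.real W (kap μ) g2 (fun τ => ind e τ * gam W (ind e) τ) 1 (mi.mul mg)
      fun τ => b1 _ _ (abs_ind _ _) (bg _),
      ← integral_kap μ (g := fun τ => gam W (ind e) τ * gam W (ind e) τ) (mg.mul mg)]
    refine integral_congr_ae (Eventually.of_forall fun τ => ?_)
    show gam W _ τ = _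
    rw [gam_congr (g := fun σ => gam W (ind e) τ * ind e σ) fun σ hσ => by
      rw [gam_cls _ hσ, mul_comm], gam_mul]
  have e2 : μ.real e ^ 2 = ∫ p, gam W (ind e) p.1 * gam W (ind e) p.2 ∂(μ.prod μ) := by
    rw [integral_prod_mul, hD.real W μ g1 _ 1 mi (abs_ind e), integral_ind μ he, sq]
  have m12 : Measurable fun p : Om => gam W (ind e) p.1 * gam W (ind e) p.2 :=
    (mg.comp measurable_fst).mul (mg.comp measurable_snd)
  have i12 : Integrable (fun p : Om => gam W (ind e) p.1 * gam W (ind e) p.2) (μ.prod μ) :=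
    integrable_of_bd _ m12 fun p => b1 _ _ (bg _) (bg _)
  have i3 : Integrable (fun p : Om => |gam W (ind e) p.1 - gam W (ind e) p.2|)
      ((μ.prod μ).restrict {p | ¬ One p}) :=
    integrable_of_bd _ ((mg.comp measurable_fst).sub (mg.comp measurable_snd)).abs (C := 2)
      fun p => by
        rw [abs_abs]
        exact (abs_sub _ _).trans (by linarith [bg p.1, bg p.2])
  have i4 : Integrable (fun p : Om => gam W (ind e) p.1 * gam W (ind e) p.1)
      ((μ.prod μ).restrict {p | ¬ One p}) :=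
    integrable_of_bd _ ((mg.comp measurable_fst).mul (mg.comp measurable_fst))
      fun p => b1 _ _ (bg _) (bg _)
  have e3 : ∫ p in {p | ¬ One p}, gam W (ind e) p.1 * gam W (ind e) p.2 ∂(μ.prod μ) ≤
      ∫ p, gam W (ind e) p.1 * gam W (ind e) p.2 ∂(μ.prod μ) :=
    setIntegral_le_integral i12 (Eventually.of_forall fun p => mul_nonneg (pg _) (pg _))
  rw [e1, e2]
  refine le_trans ?_ (add_le_add_left e3 _)
  rw [← integral_add i12.restrict i3]
  refine integral_mono i4 (i12.restrict.add i3) fun p => ?_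
  have a := pg p.1
  have b := (le_abs_self _).trans (bg p.1)
  have c := le_abs_self (gam W (ind e) p.1 - gam W (ind e) p.2)
  have d := abs_nonneg (gam W (ind e) p.1 - gam W (ind e) p.2)
  show _ * _ ≤ _ * _ + _
  nlinarith [mul_le_mul_of_nonneg_left c a, mul_le_mul_of_nonneg_right b d]

lemma cylG_shift (S : Finset V) (y : Cfg) (x : V) :
    shift (-x) ⁻¹' cylG S y = cylG (S.image (· + x)) (shift x y) := by
  ext σ
  simp only [Set.mem_preimage, cylG, Set.mem_ofPred_eq, forall_mem_image, shift_add_apply]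
  refine forall₂_congr fun v _ => ?_
  simp only [shift, sub_neg_eq_add]
  exact add_neg_eq_iff_eq_add

lemma up (hD : DlrStmt) (hT : TailStmt) (s : Fin 3 → ℝ) (μ : Measure Cfg) (hs : Int0 s)
    (hμ : IsEGM s μ) (S : Finset V) (y : Cfg) (l : ℕ) (t ε : ℝ) (hl : 0 < Ne l) (ht : 0 < t)
    (hε : 0 < ε) : ∀ᶠ M : ℕ in atTop,
      (Rs (box M) (kap μ)).real {p | t * Ne l ≤ St S y l p} ≤ μ.real (cylG S y) ^ 2 / t + ε := by
  have := hμ.prob
  let e : V → Set Cfg := fun x => cylG (S.image (· + x)) (shift x y)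
  let E : Finset V := {x ∈ cell l 0 | Ev x}
  have lim := (eventually_all_finset E).2 fun x _ =>
    (hT s μ hs hμ (S.image (· + x)) (shift x y)).eventually (ge_mem_nhds (mul_pos hε ht))
  filter_upwards [lim] with M hM
  have := rs_finite hD (hD.egm s μ hμ (box M)).2.1
  have hSt : ∀ p : Om, (St S y l p : ℝ) = ∑ x ∈ E, ind (e x) p.1 * ind (e x) p.2 := fun p => by
    rw [St, ← filter_filter, card_filter, Nat.cast_sum]
    refine sum_congr rfl fun x _ => ?_
    simp only [e, ← cylG_shift, ind, Set.mem_preimage]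
    by_cases h1 : shift (-x) p.1 ∈ cylG S y <;> by_cases h2 : shift (-x) p.2 ∈ cylG S y <;>
      simp [h1, h2]
  have ie : ∀ x ∈ E, Integrable (fun p : Om => ind (e x) p.1 * ind (e x) p.2)
      (Rs (box M) (kap μ)) := fun x _ =>
    integrable_of_bd _ (((measurable_ind (mset_cylG _ _)).comp measurable_fst).mul
      ((measurable_ind (mset_cylG _ _)).comp measurable_snd)) (C := 1) fun p => by
        rw [abs_mul]; exact mul_le_one₀ (abs_ind _ _) (abs_nonneg _) (abs_ind _ _)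
  have hb : ∫ p, ∑ x ∈ E, ind (e x) p.1 * ind (e x) p.2 ∂(Rs (box M) (kap μ)) ≤
      Ne l * (μ.real (cylG S y) ^ 2 + ε * t) := by
    rw [integral_finsetSum _ ie, ← nsmul_eq_mul]
    refine sum_le_card_nsmul _ _ _ fun x hx => ?_
    have a : μ.real (e x) = μ.real (cylG S y) := by
      simp only [e, ← cylG_shift]
      exact (hμ.mp (ev_neg.2 (mem_filter.1 hx).2)).measureReal_preimage
        (mset_cylG S y).nullMeasurableSet
    have b := both hD hμ (box M) (mset_cylG (S.image (· + x)) (shift x y))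
    rw [← a]
    exact b.trans (add_le_add_right (hM x hx) _)
  have hmk := mul_meas_ge_le_integral_of_nonneg (μ := Rs (box M) (kap μ))
    (Eventually.of_forall fun p => sum_nonneg fun x _ =>
      mul_nonneg (ind_nonneg (e x) p.1) (ind_nonneg (e x) p.2)) (integrable_finsetSum _ ie)
    (t * Ne l)
  simp only [hSt]
  have hN : (0 : ℝ) < Ne l := by exact_mod_cast hl
  have h2 := hmk.trans hb
  rw [mul_comm t, mul_assoc] at h2
  have h3 := le_of_mul_le_mul_left h2 hN
  rw [mul_comm (Ne l : ℝ) t] at h3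
  rw [div_add' _ _ _ ht.ne', le_div_iff₀' ht]
  exact h3

end Trans

theorem trans_of (hD : DlrStmt) (hT : TailStmt) : TransStmt :=
  ⟨Trans.tr hD hT, Trans.up hD hT⟩

end Pool.Agent.Lib.MP_640444_pr
end

-- part Pool.Agent.Lib.MP_640444_pr.Typ
section

/-!
Seven small facts: typical events, excursions, resampled pairs.
-/

set_option autoImplicit false
open MeasureTheory Filter Finset
open scoped Classical Topology ENNReal

namespace Pool.Agent.Lib.MP_640444_pr

namespace Typ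

lemma ne_ge {l : ℕ} (hl : Even l) : l ^ 3 ≤ 2 * Ne l := by
  let φ : V → V := fun x => Function.update x 0 (if Even (x 0) then x 0 + 1 else x 0 - 1)
  have h0 : ∀ x, φ x 0 = if Even (x 0) then x 0 + 1 else x 0 - 1 := fun x => by simp [φ]
  have h1 : ∀ x, φ x 1 = x 1 := fun x => by simp [φ]
  have h2 : ∀ x, φ x 2 = x 2 := fun x => by simp [φ]
  have h : #{x ∈ cell l 0 | ¬ Ev x} ≤ #{x ∈ cell l 0 | Ev x} := by
    refine card_le_card_of_injOn φ (fun x hx => ?_) fun x _ y _ e => ?_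
    · obtain ⟨r, hr⟩ := hl
      simp only [coe_filter, Set.mem_ofPred_eq, mem_cell, Pi.zero_apply, mul_zero, zero_add, Ev,
        Fin.sum_univ_three, Fin.forall_fin_succ, Fin.succ_zero_eq_one, Fin.succ_one_eq_two,
        IsEmpty.forall_iff, and_true, h0, h1, h2, Int.even_iff] at hx ⊢
      split_ifs <;> omega
    · have a0 := congrFun e 0
      have a1 := congrFun e 1
      have a2 := congrFun e 2
      simp only [h0, h1, h2, Int.even_iff] at a0 a1 a2
      funext i
      fin_cases i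
      · show x 0 = y 0
        split_ifs at a0 <;> omega
      · exact a1
      · exact a2
  have := card_filter_add_card_filter_not (s := cell l 0) fun x => Ev x
  rw [card_cell] at this
  unfold Ne
  omega

lemma loc (S : Finset V) (l : ℕ) : ∃ ρ, ∀ x ∈ cell l 0, ∀ v ∈ S, v + x ∈ box ρ := by
  obtain ⟨ρ, h⟩ := Ent.exists_box ((cell l 0 ×ˢ S).image fun p => p.2 + p.1)
  exact ⟨ρ, fun x hx v hv => h (mem_image.2 ⟨(x, v), mem_product.2 ⟨hx, hv⟩, rfl⟩)⟩

lemma mem_sh (S : Finset V) (y σ : Cfg) (x : V) :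
    shift (-x) σ ∈ cylG S y ↔ ∀ v ∈ S, σ (v + x) = y v + x := by
  simp only [cylG, shift, Set.mem_ofPred_eq, sub_neg_eq_add, ← sub_eq_add_neg, sub_eq_iff_eq_add]

lemma typ1 (s : Fin 3 → ℝ) (μ₁ μ₂ : Measure Cfg) (h₁ : IsEGM s μ₁) (h₂ : IsEGM s μ₂)
    (hne : μ₁ ≠ μ₂) (η : ℝ) (hη : 0 < η) :
    ∃ (ρ : ℕ) (T : Set Cfg), Loc1 (box ρ) T ∧ μ₁.real T ≤ η ∧ μ₂.real Tᶜ ≤ η := by
  have := h₁.prob
  have := h₂.prob
  obtain ⟨S, y, hc⟩ : ∃ S y, μ₁ (cylG S y) ≠ μ₂ (cylG S y) := by
    by_contra! h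
    exact hne (ext_cylG _ _ h)
  have e : ind (cylG S y) = Set.indicator (cylG S y) 1 := by
    funext σ; simp [ind, Set.indicator_apply]
  have hf : Measurable (ind (cylG S y)) := by
    rw [e]; exact measurable_const.indicator (mset_cylG S y)
  have hb : ∀ σ, |ind (cylG S y) σ| ≤ 1 := fun σ => by unfold ind; split_ifs <;> simp
  have hI : ∀ μ : Measure Cfg, ∫ σ, ind (cylG S y) σ ∂μ = μ.real (cylG S y) := fun μ => by
    rw [e, integral_indicator_one (mset_cylG S y)]
  have hd : 0 < |μ₂.real (cylG S y) - μ₁.real (cylG S y)| / 8 := by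
    refine div_pos (abs_pos.2 (sub_ne_zero.2 fun h => hc ?_)) (by norm_num)
    exact ((measureReal_eq_measureReal_iff (measure_ne_top _ _) (measure_ne_top _ _)).1 h).symm
  have t1 := mean_erg μ₁ h₁.inv h₁.erg _ hf 1 hb _ hd
  have t2 := mean_erg μ₂ h₂.inv h₂.erg _ hf 1 hb _ hd
  rw [hI] at t1 t2
  generalize μ₁.real (cylG S y) = a1 at hd t1 t2
  generalize μ₂.real (cylG S y) = a2 at hd t1 t2
  have t3 : Tendsto (fun j : ℕ => 2 * j) atTop atTop := tendsto_id.const_mul_atTop' (by norm_num)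
  have e3 : (0 : ENNReal) < ENNReal.ofReal η := ENNReal.ofReal_pos.2 hη
  obtain ⟨j, b1, b2, b3⟩ := (t3.eventually ((eventually_ge_atTop 1).and
    ((t1.eventually (ge_mem_nhds e3)).and (t2.eventually (ge_mem_nhds e3))))).exists
  have hN := ne_ge (even_two_mul j)
  generalize 2 * j = l at b1 b2 b3 hN
  obtain ⟨ρ, hρ⟩ := loc S l
  refine ⟨ρ, {σ | |a2 - a1| / 8 * (l : ℝ) ^ 3 <
    |∑ x ∈ cell l 0 with Ev x, (ind (cylG S y) (shift (-x) σ) - a2)|}ᶜ, ?_, ?_, ?_⟩
  · intro σ σ' h hσ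
    have : ∑ x ∈ cell l 0 with Ev x, (ind (cylG S y) (shift (-x) σ') - a2) =
        ∑ x ∈ cell l 0 with Ev x, (ind (cylG S y) (shift (-x) σ) - a2) := by
      refine sum_congr rfl fun x hx => ?_
      have : shift (-x) σ' ∈ cylG S y ↔ shift (-x) σ ∈ cylG S y := by
        rw [mem_sh, mem_sh]
        exact forall₂_congr fun v hv => by rw [h _ (hρ x (mem_filter.1 hx).1 v hv)]
      simp only [ind, this]
    simpa only [Set.mem_compl_iff, Set.mem_ofPred_eq, this] using hσ
  · refine ENNReal.toReal_le_of_le_ofReal hη.le ((measure_mono fun σ hσ => ?_).trans b2)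
    simp only [Set.mem_compl_iff, Set.mem_ofPred_eq, not_lt] at hσ ⊢
    have c1 : ∑ x ∈ cell l 0 with Ev x, (ind (cylG S y) (shift (-x) σ) - a1) -
        ∑ x ∈ cell l 0 with Ev x, (ind (cylG S y) (shift (-x) σ) - a2) = Ne l * (a2 - a1) := by
      rw [← sum_sub_distrib]
      simp [Ne, mul_sub]
    have c2 := abs_sub (∑ x ∈ cell l 0 with Ev x, (ind (cylG S y) (shift (-x) σ) - a1))
      (∑ x ∈ cell l 0 with Ev x, (ind (cylG S y) (shift (-x) σ) - a2))
    rw [c1, abs_mul, Nat.abs_cast] at c2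
    have c3 : (l : ℝ) ^ 3 ≤ 2 * Ne l := by exact_mod_cast hN
    have c4 : (0 : ℝ) < (l : ℝ) ^ 3 := by positivity
    have c5 := mul_le_mul_of_nonneg_left c3 hd.le
    have c6 := mul_pos hd c4
    linarith
  · rw [compl_compl]
    exact ENNReal.toReal_le_of_le_ofReal hη.le b3

lemma cyl1 (s : Fin 3 → ℝ) (μ₁ μ₂ : Measure Cfg) (h₁ : IsEGM s μ₁) (h₂ : IsEGM s μ₂)
    (hne : μ₁ ≠ μ₂) (K : ℝ) (hK : 0 < K) :
    ∃ (S : Finset V) (y : Cfg), K * μ₁.real (cylG S y) < μ₂.real (cylG S y) := by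
  have := h₁.prob
  have := h₂.prob
  by_contra! h
  obtain ⟨ρ, T, hT, a1, a2⟩ := typ1 s μ₁ μ₂ h₁ h₂ hne (1 / (2 * (K + 1))) (by positivity)
  have hd : ((Ent.Pat1 (box ρ)).filter (· ∈ T) : Set Cfg).PairwiseDisjoint (cylG (box ρ)) := by
    intro y hy y' hy' e
    refine Set.disjoint_left.2 fun σ b1 b2 => e (funext fun v => ?_)
    by_cases hv : v ∈ box ρ
    · rw [← b1 v hv, ← b2 v hv]
    · rw [(Ent.mem_Pat1.1 (mem_filter.1 hy).1).2 v hv, (Ent.mem_Pat1.1 (mem_filter.1 hy').1).2 v hv]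
  have b1 : μ₁.real (⋃ y ∈ (Ent.Pat1 (box ρ)).filter (· ∈ T), cylG (box ρ) y) ≤ μ₁.real T :=
    measureReal_mono (Set.iUnion₂_subset fun y hy σ hσ => hT y σ hσ (mem_filter.1 hy).2)
  have b2 : μ₂.real T ≤ μ₂.real (⋃ y ∈ (Ent.Pat1 (box ρ)).filter (· ∈ T), cylG (box ρ) y) := by
    refine ENNReal.toReal_mono (measure_ne_top _ _) (measure_mono_ae ?_)
    filter_upwards [h₂.tiling] with σ hσ hσT
    refine Set.mem_iUnion₂.2 ⟨res1 (box ρ) σ, mem_filter.2 ⟨Ent.mem_Pat1.2 ⟨fun v hv => ?_,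
      fun v hv => ?_⟩, hT σ _ (fun v hv => ?_) hσT⟩, fun v hv => ?_⟩
    · simpa [res1, hv] using Ent.Adj.sub_mem (hσ v).1
    · simp [res1, hv]
    · simp [res1, hv]
    · simp [res1, hv]
  rw [measureReal_biUnion_finset hd (fun y _ => mset_cylG _ y)] at b1 b2
  have b3 := sum_le_sum fun y (_ : y ∈ (Ent.Pat1 (box ρ)).filter (· ∈ T)) => h (box ρ) y
  rw [← mul_sum] at b3
  have b4 := measureReal_add_measureReal_compl (μ := μ₂) hT.mset
  rw [probReal_univ] at b4
  have b5 := mul_le_mul_of_nonneg_left (b1.trans a1) hK.le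
  have b6 : K * (1 / (2 * (K + 1))) + 1 / (2 * (K + 1)) = 1 / 2 := by field_simp
  linarith

lemma tend0 {X : Type} [MeasurableSpace X] (m : Measure X) [IsFiniteMeasure m] {A : ℕ → Set X}
    (hm : ∀ n, MeasurableSet (A n)) (ha : Antitone A) (h : ∀ x, ∃ n, x ∉ A n) :
    Tendsto (fun n => m.real (A n)) atTop (𝓝 0) := by
  have t := tendsto_measure_iInter_atTop (μ := m) (fun n => (hm n).nullMeasurableSet) ha
    ⟨0, measure_ne_top _ _⟩
  have e : ⋂ n, A n = ∅ := Set.eq_empty_of_forall_notMem fun x hx => by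
    obtain ⟨n, hn⟩ := h x
    exact hn (Set.mem_iInter.1 hx n)
  rw [e, measure_empty] at t
  exact (ENNReal.tendsto_toReal ENNReal.zero_ne_top).comp t

lemma exists_exc (r : ℕ) (p : Om) : ∃ R, Exc r R p := by
  have : ∀ x, ∃ W : Finset V, ∀ k : ℕ, (prm p)^[k] x ∈ box r → ∀ j ≤ k, (prm p)^[j] x ∈ W := by
    intro x
    by_cases hx : Inf p x
    · obtain ⟨n, hn⟩ := exists_avoid hx (box r).finite_toSet
      refine ⟨(range n).image fun j => (prm p)^[j] x, fun k hk j hj =>
        mem_image.2 ⟨j, mem_range.2 ?_, rfl⟩⟩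
      by_contra! h
      refine hn (k - n) ?_
      rwa [← Function.iterate_add_apply, Nat.sub_add_cancel (h.trans hj)]
    · rw [inf_iff_infinite, Set.not_infinite] at hx
      exact ⟨hx.toFinset, fun k _ j _ => hx.mem_toFinset.2 ((cm_iff _ _ _).2 ⟨j, Or.inl rfl⟩)⟩
  choose W hW using this
  obtain ⟨R, hR⟩ := Ent.exists_box ((box r).biUnion W)
  exact ⟨R, fun x hx k hk j hj => hR (mem_biUnion.2 ⟨x, hx, hW x k hk j hj⟩)⟩

lemma n1_of {p : Om} (hp : Til p)
    (h : ∃! C : (diffGraph p.1 p.2).ConnectedComponent, C.supp.Infinite) : N1 p := by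
  obtain ⟨C, hC, hu⟩ := h
  have key : ∀ x, Inf p x → (diffGraph p.1 p.2).connectedComponentMk x = C := fun x hx => by
    refine hu _ (((inf_iff_infinite p x).1 hx).mono fun y hy => ?_)
    rw [SimpleGraph.ConnectedComponent.mem_supp_iff, SimpleGraph.ConnectedComponent.eq]
    exact (reachable_of_cm hp hx hy).symm
  refine ⟨hp, fun x y hx hy => cm_of_reachable hp
    (SimpleGraph.ConnectedComponent.eq.1 ((key x hx).trans (key y hy).symm)), ?_⟩
  obtain ⟨y, hy⟩ := hC.nonempty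
  rw [SimpleGraph.ConnectedComponent.mem_supp_iff] at hy
  refine ⟨y, (inf_iff_infinite p y).2 (hC.mono fun z hz => ?_)⟩
  rw [SimpleGraph.ConnectedComponent.mem_supp_iff, ← hy, SimpleGraph.ConnectedComponent.eq] at hz
  exact cm_of_reachable hp hz.symm

lemma gp1 (M M' : ℕ) (P : Om) (hM : M < M') (hP : Til P) (h : ∀ x, x ∉ box M' → P.2 x = P.1 x) :
    GP M M' P := by
  have two : ∀ w, w ∉ box M' → prm P (prm P w) = w := fun w hw => by
    have e : prm P w = P.1 w := by
      rw [prm_coe hP, stp, h w hw, ite_self]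
    rw [e, prm_coe hP, stp]
    split_ifs
    · exact (hP.1 w).2
    · rw [← h w hw]; exact (hP.2 w).2
  refine ⟨hP, fun x y hx _ => ?_, fun x hx k _ j _ => ?_⟩
  · obtain ⟨n, hn⟩ := exists_avoid hx (box M').finite_toSet
    have e := two _ (hn 0)
    have : n + 2 = n := hx (by
      simpa only [Function.iterate_succ_apply', Function.iterate_zero, id_eq] using e)
    omega
  · by_contra hw
    have key : ∀ (j : ℕ) (x w : V), w ∉ box M' → (prm P)^[j] x = w → x = w ∨ x = prm P w := by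
      intro j
      induction j with
      | zero => exact fun x w _ e => Or.inl e
      | succ j ih =>
        intro x w hw e
        rcases ih _ w hw e with e' | e'
        · exact Or.inr ((prm P).injective (e'.trans (two w hw).symm))
        · exact Or.inl ((prm P).injective e')
    rcases key j x _ hw rfl with e | e
    · exact hw (e ▸ Ent.box_mono hM.le hx)
    · refine hw (Ent.adj_mem_box hM hx (adj_symm ?_))
      conv_rhs => rw [e, prm_coe hP]
      rw [prm_coe hP]
      exact stp_adj hP _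

lemma st_eq (S : Finset V) (y : Cfg) (l : ℕ) : ∃ ρ₀ : ℕ, ∀ ρ, ρ₀ ≤ ρ →
    ∀ (t : Prop) (R q : Om), Out t ρ R q → St S y l q = St S y l R := by
  obtain ⟨ρ₀, h⟩ := loc S l
  refine ⟨ρ₀, fun ρ hρ t R q ho => congrArg card (filter_congr fun x hx => and_congr_right fun _ => ?_)⟩
  simp only [mem_sh, ← forall_and]
  refine forall₂_congr fun v hv => ?_
  rcases ho.1 _ (Ent.box_mono hρ (h x hx v hv)) with e | e
  · rw [e.1, e.2]
  · rw [e.1, e.2, and_comm]

end Typ

theorem typ : TypStmt where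
  typ := Typ.typ1
  cyl := Typ.cyl1
  exc m _ r := Typ.tend0 m (fun R => (mset_exc r R).compl)
    (fun _ _ hR _ hp h => hp fun x hx k hk j hj => Ent.box_mono hR (h x hx k hk j hj))
    fun p => (Typ.exists_exc r p).imp fun _ h h' => h' h
  pos s μ₁ μ₂ hs h₁ h₂ hne := by
    have := h₁.prob
    have := h₂.prob
    refine ENNReal.toReal_pos (fun h => hne (egm_eq hs h₁ h₂ ?_)) (measure_ne_top _ _)
    filter_upwards [prod_til h₁ h₂, measure_eq_zero_iff_ae_notMem.1 h] with p hp hn h'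
    exact hn (Typ.n1_of hp h')
  gp := Typ.gp1
  near m _ := by
    refine Typ.tend0 m (fun r => mset_n1.inter ?_)
      (fun _ _ hR p hp => ⟨hp.1, fun u hu => hp.2 u (Ent.box_mono hR hu)⟩) fun p => ?_
    · have : {p : Om | ∀ u ∈ box r, Ev u → ¬ Inf p u} =
          ⋂ u ∈ box r, ⋂ _ : Ev u, {p : Om | Inf p u}ᶜ := by
        ext p; simp
      show MeasurableSet {p : Om | ∀ u ∈ box r, Ev u → ¬ Inf p u}
      rw [this]
      exact MeasurableSet.biInter (box r).countable_toSet fun u _ =>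
        MeasurableSet.iInter fun _ => (mset_inf u).compl
    · by_contra! h
      obtain ⟨hp, -, x, hx⟩ := (h 0).1
      obtain ⟨u, hu, hi⟩ : ∃ u, Ev u ∧ Inf p u := by
        by_cases e : Ev x
        · exact ⟨x, e, hx⟩
        · exact ⟨p.1 x, (hp.1.ev x).2 e, hx.cm (cm_fst hp x)⟩
      obtain ⟨r, hr⟩ := Ent.exists_box {u}
      exact (h r).2 u (hr (mem_singleton_self u)) hu hi
  st S y l := by
    refine ⟨measurable_to_countable' fun n => ?_, Typ.st_eq S y l⟩
    obtain ⟨ρ, h⟩ := Typ.st_eq S y l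
    refine Loc2.mset (Λ := box ρ) fun p p' hp hn => ?_
    exact (h ρ le_rfl False p p' ⟨fun x hx => Or.inl (hp x hx), False.elim⟩).trans hn

end Pool.Agent.Lib.MP_640444_pr
end

-- part Pool.Agent.Lib.MP_640444_pr.Order
section

/-!
The order lemma: two far even points that lie on opposite sides of the origin along the unique
infinite component, in both orders, with probability close to a quarter.
-/

set_option autoImplicit false
open MeasureTheory Filter Finset
open scoped Classical Topology ENNReal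

namespace Pool.Agent.Lib.MP_640444_pr

namespace OrdL

lemma zpow_shift {v : V} (hv : Ev v) (p : Om) (i : ℤ) (x : V) :
    (prm (shift2 v p) ^ i) (x + v) = (prm p ^ i) x + v := by
  have e : prm (shift2 v p) = Equiv.addRight v * prm p * (Equiv.addRight v)⁻¹ := by
    ext1 y
    obtain ⟨y, rfl⟩ : ∃ y', y = y' + v := ⟨y - v, by simp⟩
    rw [prm_shift hv]
    simp
  rw [e, conj_zpow]
  simp

lemma zpow_inj {p : Om} {a : V} (h : Inf p a) {i j : ℤ} (e : (prm p ^ i) a = (prm p ^ j) a) :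
    i = j := by
  have key : ∀ i j : ℤ, i < j → (prm p ^ i) a ≠ (prm p ^ j) a := by
    intro i j hij e
    obtain ⟨k, hk⟩ : ∃ k : ℕ, j = i + k := ⟨(j - i).toNat, by omega⟩
    rw [hk, zpow_add, Equiv.Perm.mul_apply] at e
    have e' := (prm p ^ i).injective e
    rw [zpow_natCast, Equiv.Perm.coe_pow] at e'
    exact (inf_iff p a).1 h k (by omega) e'.symm
  rcases lt_trichotomy i j with h1 | h1 | h1
  · exact absurd e (key i j h1)
  · exact h1
  · exact absurd e.symm (key j i h1)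

lemma iter_dist {p : Om} (hp : Til p) (a : V) (k : ℕ) (c : Fin 3) :
    |((prm p)^[k] a) c - a c| ≤ k := by
  induction k with
  | zero => simp
  | succ k ih =>
    rw [Function.iterate_succ_apply', prm_coe hp]
    have := (stp_adj hp ((stp p)^[k] a)).coord c
    rw [prm_coe hp] at ih
    rw [abs_le] at *
    push_cast
    omega

lemma zpow_nat_iff (p : Om) (k : ℕ) (a b : V) :
    (prm p ^ (k : ℤ)) a = b ↔ (prm p)^[k] a = b := by
  rw [zpow_natCast, Equiv.Perm.coe_pow]

lemma zpow_neg_iff (p : Om) (k : ℕ) (a b : V) :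
    (prm p ^ (-(k : ℤ))) a = b ↔ (prm p)^[k] b = a := by
  rw [zpow_neg, Equiv.Perm.inv_eq_iff_eq, zpow_natCast, Equiv.Perm.coe_pow, eq_comm]

lemma zpow_dist {p : Om} (hp : Til p) {a b : V} {i : ℤ} (e : (prm p ^ i) a = b) (c : Fin 3) :
    |b c - a c| ≤ |i| := by
  obtain ⟨k, rfl | rfl⟩ := Int.eq_nat_or_neg i
  · rw [← (zpow_nat_iff p k a b).1 e, Nat.abs_cast]
    exact iter_dist hp a k c
  · rw [← (zpow_neg_iff p k a b).1 e, abs_neg, Nat.abs_cast, abs_sub_comm]
    exact iter_dist hp b k c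

lemma mset_zpow (i : ℤ) (a b : V) : MeasurableSet {p : Om | (prm p ^ i) a = b} := by
  obtain ⟨k, rfl | rfl⟩ := Int.eq_nat_or_neg i
  · simp only [zpow_nat_iff]
    exact mset_eq (measurable_prm_iter k a) measurable_const
  · simp only [zpow_neg_iff]
    exact mset_eq (measurable_prm_iter k b) measurable_const

/-- signed distance along an infinite component -/
noncomputable def dd (p : Om) (a b : V) : ℤ :=
  if h : Inf p a ∧ ∃ i : ℤ, (prm p ^ i) a = b then h.2.choose else 0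

lemma dd_eq {p : Om} {a b : V} (h : Inf p a) {i : ℤ} (e : (prm p ^ i) a = b) : dd p a b = i := by
  have h' : Inf p a ∧ ∃ i : ℤ, (prm p ^ i) a = b := ⟨h, i, e⟩
  rw [dd, dif_pos h']
  exact zpow_inj h (h'.2.choose_spec.trans e.symm)

lemma dd_spec {p : Om} (h : One p) {a b : V} (ha : Inf p a) (hb : Inf p b) :
    (prm p ^ dd p a b) a = b := by
  obtain ⟨i, e⟩ := h a b ha hb
  rw [dd_eq ha e, e]

lemma dd_add {p : Om} (h : One p) {a b c : V} (ha : Inf p a) (hb : Inf p b) (hc : Inf p c) :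
    dd p a c = dd p a b + dd p b c := by
  refine dd_eq ha ?_
  rw [add_comm, zpow_add, Equiv.Perm.mul_apply, dd_spec h ha hb, dd_spec h hb hc]

lemma dd_self {p : Om} {a : V} (ha : Inf p a) : dd p a a = 0 := dd_eq ha (by simp)

lemma lt_of_dd {p : Om} (h : One p) {a b : V} (ha : Inf p a) (hb : Inf p b)
    (h0 : 0 < dd p a b) : Lt p a b := by
  refine ⟨(dd p a b).toNat, by omega, ?_⟩
  rw [← zpow_nat_iff, Int.toNat_of_nonneg h0.le, dd_spec h ha hb]

lemma dd_shift {v : V} (hv : Ev v) (p : Om) (a b : V) :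
    dd (shift2 v p) (a + v) (b + v) = dd p a b := by
  by_cases h : Inf p a ∧ ∃ i : ℤ, (prm p ^ i) a = b
  · obtain ⟨h1, i, e⟩ := h
    rw [dd_eq h1 e]
    exact dd_eq ((inf_shift hv p a).2 h1) (by rw [zpow_shift hv, e])
  · rw [dd, dd, dif_neg h, dif_neg]
    rintro ⟨h1, i, e⟩
    rw [zpow_shift hv, add_left_inj] at e
    exact h ⟨(inf_shift hv p a).1 h1, i, e⟩

lemma measurable_dd0 (a b : V) : Measurable fun p => dd p a b := by
  refine measurable_to_countable' fun i => ?_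
  have hE : MeasurableSet {p : Om | Inf p a ∧ ∃ i : ℤ, (prm p ^ i) a = b} := by
    have : {p : Om | Inf p a ∧ ∃ i : ℤ, (prm p ^ i) a = b} =
        {p | Inf p a} ∩ ⋃ i : ℤ, {p | (prm p ^ i) a = b} := by
      ext p; simp
    rw [this]
    exact (mset_inf a).inter (MeasurableSet.iUnion fun i => mset_zpow i a b)
  have : (fun p => dd p a b) ⁻¹' {i} = ({p | Inf p a} ∩ {p | (prm p ^ i) a = b}) ∪
      ({p : Om | Inf p a ∧ ∃ i : ℤ, (prm p ^ i) a = b}ᶜ ∩ {_p | i = 0}) := by
    ext p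
    simp only [Set.mem_preimage, Set.mem_singleton_iff, Set.mem_union, Set.mem_inter_iff,
      Set.mem_ofPred_eq, Set.mem_compl_iff]
    constructor
    · intro e
      by_cases h : Inf p a ∧ ∃ i : ℤ, (prm p ^ i) a = b
      · obtain ⟨h1, j, ej⟩ := h
        rw [dd_eq h1 ej] at e
        exact Or.inl ⟨h1, e ▸ ej⟩
      · rw [dd, dif_neg h] at e
        exact Or.inr ⟨h, e.symm⟩
    · rintro (⟨h1, e⟩ | ⟨h, e⟩)
      · exact dd_eq h1 e
      · rw [dd, dif_neg h, e]
  rw [this]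
  exact ((mset_inf a).inter (mset_zpow i a b)).union (hE.compl.inter (MeasurableSet.const _))

lemma measurable_dd {f g : Om → V} (hf : Measurable f) (hg : Measurable g) :
    Measurable fun p => dd p (f p) (g p) := by
  have : Measurable fun p : Om => (dd p : V → V → ℤ) :=
    measurable_pi_lambda _ fun a => measurable_pi_lambda _ fun b => measurable_dd0 a b
  exact meas_app (meas_app this hf) hg

lemma exists_off (p : Om) (x : V) : ∃ n, Inf p (x + enu n) ∨ ¬ ∃ y, Inf p y := by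
  by_cases h : ∃ y, Inf p y
  · obtain ⟨y, hy⟩ := h
    obtain ⟨n, hn⟩ := enu_surj (y - x)
    exact ⟨n, Or.inl (by rw [hn]; simpa using hy)⟩
  · exact ⟨0, Or.inr h⟩

/-- offset of the marked point of an infinite component attached to `x` -/
noncomputable def off (p : Om) (x : V) : V := enu (Nat.find (exists_off p x))

lemma off_inf {p : Om} (h : N1 p) (x : V) : Inf p (x + off p x) :=
  (Nat.find_spec (exists_off p x)).resolve_right (not_not.2 h.2.2)

lemma ex_shift {v : V} (hv : Ev v) (p : Om) : (∃ y, Inf (shift2 v p) y) ↔ ∃ y, Inf p y := by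
  constructor
  · rintro ⟨y, hy⟩
    obtain ⟨y, rfl⟩ : ∃ y', y = y' + v := ⟨y - v, by simp⟩
    exact ⟨y, (inf_shift hv p y).1 hy⟩
  · rintro ⟨y, hy⟩
    exact ⟨y + v, (inf_shift hv p y).2 hy⟩

lemma n1_shift {v : V} (hv : Ev v) (p : Om) : N1 (shift2 v p) ↔ N1 p := by
  rw [N1, N1, til_shift2_iff, one_shift hv, ex_shift hv]

lemma off_shift {v : V} (hv : Ev v) (p : Om) (x : V) : off (shift2 v p) (x + v) = off p x := by
  unfold off
  congr 1
  refine Nat.find_congr' fun {n} => ?_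
  rw [ex_shift hv, add_right_comm, inf_shift hv]

lemma measurable_off (x : V) : Measurable fun p : Om => off p x := by
  refine (measurable_of_countable enu).comp (measurable_find _ fun n => ?_)
  have : {p : Om | Inf p (x + enu n) ∨ ¬ ∃ y, Inf p y} =
      {p | Inf p (x + enu n)} ∪ (⋃ y, {p | Inf p y})ᶜ := by
    ext p; simp
  rw [this]
  exact (mset_inf _).union (MeasurableSet.iUnion mset_inf).compl

lemma measurable_pt (x : V) : Measurable fun p : Om => x + off p x :=
  (measurable_of_countable fun y : V => x + y).comp (measurable_off x)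

/-- signed distance of the marked points -/
noncomputable def DD (p : Om) (x y : V) : ℤ := dd p (x + off p x) (y + off p y)

/-- spread of the infinite component near `x` -/
noncomputable def sp (R : ℕ) (p : Om) (x : V) : ℕ :=
  ∑ u ∈ box R, (dd p (x + off p x) (x + u)).natAbs

/-- size of the offset -/
noncomputable def sz (p : Om) (x : V) : ℕ := ∑ c, (off p x c).natAbs

lemma DD_shift {v : V} (hv : Ev v) (p : Om) (x y : V) :
    DD (shift2 v p) (x + v) (y + v) = DD p x y := by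
  rw [DD, DD, off_shift hv, off_shift hv, add_right_comm x, add_right_comm y, dd_shift hv]

lemma sp_shift (R : ℕ) {v : V} (hv : Ev v) (p : Om) (x : V) :
    sp R (shift2 v p) (x + v) = sp R p x := by
  refine sum_congr rfl fun u _ => ?_
  rw [off_shift hv, add_right_comm x, add_right_comm x v u, dd_shift hv]

lemma sz_shift {v : V} (hv : Ev v) (p : Om) (x : V) : sz (shift2 v p) (x + v) = sz p x := by
  rw [sz, sz, off_shift hv]

lemma measurable_DD (x y : V) : Measurable fun p => DD p x y :=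
  measurable_dd (measurable_pt x) (measurable_pt y)

lemma measurable_sp (R : ℕ) (x : V) : Measurable fun p => sp R p x :=
  Finset.measurable_sum _ fun _ _ => (measurable_of_countable Int.natAbs).comp
    (measurable_dd (measurable_pt x) measurable_const)

lemma measurable_sz (x : V) : Measurable fun p => sz p x :=
  (measurable_of_countable fun y : V => ∑ c, (y c).natAbs).comp (measurable_off x)

lemma DD_add {p : Om} (h : N1 p) (x y z : V) : DD p x z = DD p x y + DD p y z :=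
  dd_add h.2.1 (off_inf h x) (off_inf h y) (off_inf h z)

lemma DD_self {p : Om} (h : N1 p) (x : V) : DD p x x = 0 := dd_self (off_inf h x)

lemma DD_swap {p : Om} (h : N1 p) (x y : V) : DD p y x = -DD p x y := by
  have := DD_add h x y x
  rw [DD_self h] at this
  omega

lemma bef_of {p : Om} (h : N1 p) {R k : ℕ} {x y : V} (hx : sp R p x ≤ k) (hy : sp R p y ≤ k)
    (hd : 2 * (k : ℤ) < DD p x y) : Bef R x y p := by
  have key : ∀ {z a : V}, sp R p z ≤ k → a ∈ tb z R → (dd p (z + off p z) a).natAbs ≤ k := by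
    intro z a hz ha
    have := single_le_sum (f := fun u => (dd p (z + off p z) (z + u)).natAbs)
      (fun _ _ => Nat.zero_le _) (mem_tb.1 ha)
    simp only [add_sub_cancel] at this
    exact this.trans hz
  intro a ha b hb ia ib
  refine lt_of_dd h.2.1 ia ib ?_
  have h1 := key hx ha
  have h2 := key hy hb
  have e1 := dd_add h.2.1 (off_inf h x) ia ib
  have e2 := dd_add h.2.1 (off_inf h x) (off_inf h y) ib
  rw [DD] at hd
  omega

lemma near_of {p : Om} (h : N1 p) {k r : ℕ} {z : V} (h0 : sz p 0 ≤ r) (hz : sz p z ≤ r)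
    (hd : (DD p 0 z).natAbs ≤ k) : z ∈ box (k + 2 * r) := by
  refine mem_box.2 fun c => ?_
  have h1 := zpow_dist h.1 (dd_spec h.2.1 (off_inf h 0) (off_inf h z)) c
  have h2 := (single_le_sum (f := fun c => (off p 0 c).natAbs) (fun _ _ => Nat.zero_le _)
    (mem_univ c)).trans h0
  have h3 := (single_le_sum (f := fun c => (off p z c).natAbs) (fun _ _ => Nat.zero_le _)
    (mem_univ c)).trans hz
  rw [DD] at hd
  simp only [Pi.add_apply, Pi.zero_apply] at h1
  rw [Int.abs_eq_natAbs, Int.abs_eq_natAbs] at h1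
  rw [Int.abs_eq_natAbs]
  omega

section prob

variable {m : Measure Om} [IsProbabilityMeasure m]

lemma tight {f : Om → ℕ} (hf : Measurable f) {δ : ℝ} (hδ : 0 < δ) :
    ∃ k, m.real {p | k < f p} ≤ δ := by
  have h1 : Tendsto (fun k : ℕ => m {p | k < f p}) atTop (𝓝 (m (⋂ k : ℕ, {p | k < f p}))) :=
    tendsto_measure_iInter_atTop
      (fun k => (hf (Set.to_countable {n | k < n}).measurableSet).nullMeasurableSet)
      (fun a b hab p hp => lt_of_le_of_lt hab hp) ⟨0, measure_ne_top _ _⟩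
  have h2 : (⋂ k : ℕ, {p | k < f p}) = ∅ := by
    refine Set.eq_empty_of_forall_notMem fun p hp => ?_
    exact lt_irrefl (f p) (Set.mem_iInter.1 hp (f p))
  rw [h2, measure_empty] at h1
  obtain ⟨k, hk⟩ := (h1.eventually (Iic_mem_nhds (ENNReal.ofReal_pos.2 hδ))).exists
  exact ⟨k, ENNReal.toReal_le_of_le_ofReal hδ.le hk⟩

omit [IsProbabilityMeasure m] in
lemma real_shift (hm : EvInv m) {v : V} (hv : Ev v) {A B : Set Om} (hA : MeasurableSet A)
    (h : ∀ p, shift2 v p ∈ A ↔ p ∈ B) : m.real A = m.real B := by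
  rw [← (hm v hv).measureReal_preimage hA.nullMeasurableSet]
  congr 1
  ext p
  exact h p

lemma mset_int {f : Om → ℤ} (hf : Measurable f) (Q : ℤ → Prop) : MeasurableSet {p | Q (f p)} :=
  hf (Set.to_countable {n | Q n}).measurableSet

lemma mset_nat {f : Om → ℕ} (hf : Measurable f) (Q : ℕ → Prop) : MeasurableSet {p | Q (f p)} :=
  hf (Set.to_countable {n | Q n}).measurableSet

/-- events described by one signed distance -/
def Ev1 (Q : ℤ → Prop) (x y : V) : Set Om := {p | N1 p} ∩ {p | Q (DD p x y)}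

lemma mset_Ev1 (Q : ℤ → Prop) (x y : V) : MeasurableSet (Ev1 Q x y) :=
  mset_n1.inter (mset_int (measurable_DD x y) Q)

omit [IsProbabilityMeasure m] in
lemma Ev1_shift (hm : EvInv m) {v : V} (hv : Ev v) (Q : ℤ → Prop) (x y : V) :
    m.real (Ev1 Q (x + v) (y + v)) = m.real (Ev1 Q x y) :=
  real_shift hm hv (mset_Ev1 _ _ _) fun p => by
    simp only [Ev1, Set.mem_inter_iff, Set.mem_ofPred_eq, n1_shift hv, DD_shift hv]

lemma far_small (hm : EvInv m) (k : ℕ) {δ : ℝ} (hδ : 0 < δ) : ∃ L : ℕ, ∀ z, Ev z → z ∉ box L →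
    m.real (Ev1 (fun i => i.natAbs ≤ k) 0 z) ≤ δ := by
  obtain ⟨r, hr⟩ := tight (m := m) (measurable_sz 0) (half_pos hδ)
  refine ⟨k + 2 * r, fun z hz hb => ?_⟩
  have e : m.real {p | r < sz p z} = m.real {p | r < sz p 0} :=
    real_shift hm hz (mset_nat (measurable_sz z) (r < ·)) fun p => by
      have := sz_shift hz p 0
      rw [zero_add] at this
      simp only [Set.mem_ofPred_eq, this]
  have hs : Ev1 (fun i => i.natAbs ≤ k) 0 z ⊆ {p | r < sz p 0} ∪ {p | r < sz p z} := by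
    rintro p ⟨h1, h2⟩
    by_contra hc
    simp only [Set.mem_union, Set.mem_ofPred_eq, not_or, not_lt] at hc
    exact hb (near_of h1 hc.1 hc.2 h2)
  have := (measureReal_mono hs).trans (measureReal_union_le (μ := m) _ _)
  linarith

lemma long_small (z : V) {δ : ℝ} (hδ : 0 < δ) :
    ∃ k : ℕ, m.real (Ev1 (fun i => k < i.natAbs) 0 z) ≤ δ := by
  obtain ⟨k, hk⟩ := tight (m := m)
    ((measurable_of_countable Int.natAbs).comp (measurable_DD 0 z)) hδ
  exact ⟨k, (measureReal_mono Set.inter_subset_right).trans hk⟩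

/-- probability that `z` comes after the origin -/
noncomputable def aft (m : Measure Om) (z : V) : ℝ := m.real (Ev1 (0 < ·) 0 z)

lemma aft_step (hm : EvInv m) {z v : V} (hz : Ev z) (k : ℕ) :
    |aft m (z + v) - aft m z| ≤ m.real (Ev1 (fun i => k < i.natAbs) 0 v) +
      m.real (Ev1 (fun i => i.natAbs ≤ k) 0 z) := by
  have e := Ev1_shift hm hz (fun i => k < i.natAbs) 0 v
  rw [zero_add, add_comm v z] at e
  rw [← e]
  have key : ∀ y y' : V, (y = z ∧ y' = z + v ∨ y = z + v ∧ y' = z) →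
      aft m y ≤ aft m y' + (m.real (Ev1 (fun i => k < i.natAbs) z (z + v)) +
        m.real (Ev1 (fun i => i.natAbs ≤ k) 0 z)) := by
    intro y y' hy
    have hs : Ev1 (0 < ·) 0 y ⊆ Ev1 (0 < ·) 0 y' ∪
        (Ev1 (fun i => k < i.natAbs) z (z + v) ∪ Ev1 (fun i => i.natAbs ≤ k) 0 z) := by
      rintro p ⟨h1, h2⟩
      have := DD_add h1 0 z (z + v)
      simp only [Ev1, Set.mem_union, Set.mem_inter_iff, Set.mem_ofPred_eq] at h1 h2 ⊢
      simp only [h1, true_and]
      rcases hy with ⟨rfl, rfl⟩ | ⟨rfl, rfl⟩ <;> omega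
    exact (measureReal_mono hs).trans ((measureReal_union_le _ _).trans
      (add_le_add le_rfl (measureReal_union_le _ _)))
  have h1 := key z (z + v) (Or.inl ⟨rfl, rfl⟩)
  have h2 := key (z + v) z (Or.inr ⟨rfl, rfl⟩)
  rw [abs_le]
  constructor <;> linarith

lemma aft_neg (hm : EvInv m) {z : V} (hz : Ev z) (k : ℕ) :
    aft m z + aft m (-z) ≤ m.real {p | N1 p} ∧ m.real {p | N1 p} ≤
      aft m z + aft m (-z) + m.real (Ev1 (fun i => i.natAbs ≤ k) 0 z) := by
  have e := Ev1_shift hm hz (0 < ·) 0 (-z)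
  rw [zero_add, neg_add_cancel] at e
  rw [aft, aft, ← e]
  constructor
  · rw [← measureReal_union ?_ (mset_Ev1 _ _ _)]
    · exact measureReal_mono (Set.union_subset Set.inter_subset_left Set.inter_subset_left)
    · rw [Set.disjoint_left]
      rintro p ⟨h1, h2⟩ ⟨-, h3⟩
      have := DD_swap h1 0 z
      simp only [Set.mem_ofPred_eq] at h2 h3
      omega
  · have hs : {p | N1 p} ⊆ (Ev1 (0 < ·) 0 z ∪ Ev1 (0 < ·) z 0) ∪
        Ev1 (fun i => i.natAbs ≤ k) 0 z := by
      intro p h1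
      have := DD_swap h1 0 z
      simp only [Ev1, Set.mem_union, Set.mem_inter_iff, Set.mem_ofPred_eq] at h1 ⊢
      simp only [h1, true_and]
      omega
    exact (measureReal_mono hs).trans ((measureReal_union_le _ _).trans
      (add_le_add (measureReal_union_le _ _) le_rfl))

lemma iff_all {Q : ℤ → Prop} (h : ∀ i, Q i ↔ Q (i + 1)) (i j : ℤ) : Q i ↔ Q j := by
  have key : ∀ i, Q i ↔ Q 0 := by
    intro i
    induction i using Int.induction_on with
    | zero => rfl
    | succ i ih => rw [← h, ih]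
    | pred i ih => rw [h, sub_add_cancel, ih]
  rw [key i, key j]

/-- the even points of a coordinate plane -/
def pl (i j : ℤ) : V := ![2 * i, 2 * j, 0]

lemma ev_pl (i j : ℤ) : Ev (pl i j) := by
  simp only [Ev, pl, Fin.sum_univ_three, Matrix.cons_val_zero, Matrix.cons_val_one,
    Matrix.cons_val]
  exact ⟨i + j, by ring⟩

lemma pl_add (i j a b : ℤ) : pl (i + a) (j + b) = pl i j + pl a b := by
  funext c
  fin_cases c <;> simp [pl, mul_add]

lemma pl_neg (i : ℤ) : pl (-i) 0 = -pl i 0 := by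
  funext c
  fin_cases c <;> simp [pl]

lemma pl_far {L : ℕ} {i j : ℤ} (h : (L : ℤ) < |i| ∨ (L : ℤ) < |j|) : pl i j ∉ box L := by
  intro hb
  have h0 := mem_box.1 hb 0
  have h1 := mem_box.1 hb 1
  simp only [pl, Matrix.cons_val_zero, Matrix.cons_val_one] at h0 h1
  rw [abs_le] at h0 h1
  rcases h with h | h <;> rw [lt_abs] at h <;> omega

lemma notMem_box_mono {L L' : ℕ} (h : L ≤ L') {z : V} (hz : z ∉ box L') : z ∉ box L :=
  fun hb => hz (mem_box.2 fun c => (mem_box.1 hb c).trans (by exact_mod_cast h))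

lemma equator (hm : EvInv m) {ε : ℝ} (hε : 0 < ε) (L₀ : ℕ) :
    ∃ z, Ev z ∧ z ∉ box L₀ ∧ |aft m z - m.real {p | N1 p} / 2| ≤ ε := by
  obtain ⟨k1, hk1⟩ := long_small (m := m) (pl 1 0) (half_pos hε)
  obtain ⟨k2, hk2⟩ := long_small (m := m) (pl 0 1) (half_pos hε)
  obtain ⟨L1, hL1⟩ := far_small hm k1 (half_pos hε)
  obtain ⟨L2, hL2⟩ := far_small hm k2 (half_pos hε)
  set L := L₀ + L1 + L2 with hL
  by_contra hc
  push Not at hc
  have hc' : ∀ i j : ℤ, (L : ℤ) < |i| ∨ (L : ℤ) < |j| →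
      ε < |aft m (pl i j) - m.real {p | N1 p} / 2| := fun i j h =>
    hc _ (ev_pl i j) (notMem_box_mono (by omega) (pl_far h))
  have jump : ∀ a b : ℝ, |a - b| ≤ ε → ε < |a - m.real {p | N1 p} / 2| →
      ε < |b - m.real {p | N1 p} / 2| →
      (m.real {p | N1 p} / 2 < b ↔ m.real {p | N1 p} / 2 < a) := by
    intro a b h1 h2 h3
    rw [abs_le] at h1
    rw [lt_abs] at h2 h3
    constructor <;> intro h <;> rcases h2 with h2 | h2 <;> rcases h3 with h3 | h3 <;> linarith
  have hor : ∀ j : ℤ, (L : ℤ) < |j| → ∀ i i', m.real {p | N1 p} / 2 < aft m (pl i j) ↔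
      m.real {p | N1 p} / 2 < aft m (pl i' j) := by
    intro j hj
    refine iff_all fun i => jump _ _ ?_ (hc' _ _ (Or.inr hj)) (hc' _ _ (Or.inr hj))
    have h1 := aft_step hm (v := pl 1 0) (ev_pl i j) k1
    have h2 := hL1 _ (ev_pl i j) (notMem_box_mono (by omega) (pl_far (L := L) (Or.inr hj)))
    rw [← pl_add, add_zero] at h1
    linarith
  have ver : ∀ i : ℤ, (L : ℤ) < |i| → ∀ j j', m.real {p | N1 p} / 2 < aft m (pl i j) ↔
      m.real {p | N1 p} / 2 < aft m (pl i j') := by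
    intro i hi
    refine iff_all fun j => jump _ _ ?_ (hc' _ _ (Or.inl hi)) (hc' _ _ (Or.inl hi))
    have h1 := aft_step hm (v := pl 0 1) (ev_pl i j) k2
    have h2 := hL2 _ (ev_pl i j) (notMem_box_mono (by omega) (pl_far (L := L) (Or.inl hi)))
    rw [← pl_add, add_zero] at h1
    linarith
  have a1 : (L : ℤ) < |(L : ℤ) + 1| := by rw [lt_abs]; omega
  have a2 : (L : ℤ) < |-((L : ℤ) + 1)| := by rw [abs_neg]; exact a1
  have e := (ver _ a1 0 (L + 1)).trans ((hor _ a1 (L + 1) (-(L + 1))).trans (ver _ a2 (L + 1) 0))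
  have b1 := hc' (L + 1) 0 (Or.inl a1)
  have b2 := hc' (-(L + 1)) 0 (Or.inl a2)
  have b3 := aft_neg hm (ev_pl (L + 1) 0) k1
  have b4 := hL1 _ (ev_pl (L + 1) 0)
    (notMem_box_mono (by omega) (pl_far (L := L) (Or.inl a1)))
  rw [pl_neg] at e b2
  rw [lt_abs] at b1 b2
  rcases b1 with b1 | b1
  · have := e.1 (by linarith)
    linarith [b3.1]
  · rcases b2 with b2 | b2
    · have := e.2 (by linarith)
      linarith
    · linarith [b3.2]

/-- three marked points in increasing order, well separated -/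
def Tri (R k : ℕ) (x y w : V) : Set Om :=
  {p | N1 p} ∩ ({p | 2 * (k : ℤ) < DD p x y} ∩ {p | 2 * (k : ℤ) < DD p y w}) ∩
    ({p | sp R p x ≤ k} ∩ {p | sp R p y ≤ k} ∩ {p | sp R p w ≤ k})

lemma mset_Tri (R k : ℕ) (x y w : V) : MeasurableSet (Tri R k x y w) :=
  (mset_n1.inter ((mset_int (measurable_DD x y) (2 * (k : ℤ) < ·)).inter
    (mset_int (measurable_DD y w) (2 * (k : ℤ) < ·)))).inter
    (((mset_nat (measurable_sp R x) (· ≤ k)).inter (mset_nat (measurable_sp R y) (· ≤ k))).inter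
      (mset_nat (measurable_sp R w) (· ≤ k)))

lemma Tri_le (hm : EvInv m) (R k : ℕ) (x w : V) {y : V} (hy : Ev y) :
    m.real (Tri R k x y w) ≤ m.real {p | Btw R (x - y) (w - y) p} := by
  have e : m.real (Tri R k x y w) = m.real (Tri R k (x - y) 0 (w - y)) :=
    real_shift hm hy (mset_Tri R k x y w) fun p => by
      have a1 := DD_shift hy p (x - y) 0
      have a2 := DD_shift hy p 0 (w - y)
      have a3 := sp_shift R hy p (x - y)
      have a4 := sp_shift R hy p 0
      have a5 := sp_shift R hy p (w - y)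
      simp only [sub_add_cancel, zero_add] at a1 a2 a3 a4 a5
      simp only [Tri, Set.mem_inter_iff, Set.mem_ofPred_eq, n1_shift hy, a1, a2, a3, a4, a5]
  rw [e]
  refine measureReal_mono ?_
  rintro p ⟨⟨h, d1, d2⟩, ⟨s1, s2⟩, s3⟩
  simp only [Set.mem_ofPred_eq] at h d1 d2 s1 s2 s3
  refine ⟨h, bef_of h s1 s2 d1, bef_of h s2 s3 d2, bef_of h s1 s3 ?_⟩
  rw [DD_add h _ 0]
  omega

lemma split (A B : Set Om) (hB : MeasurableSet B) :
    m.real A = m.real (A ∩ B) + m.real (A \ B) := (measureReal_inter_add_sdiff hB).symm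

end prob

end OrdL

open OrdL in
theorem order : OrderStmt := by
  intro m _ hm η hη R L₀
  set δ := η / 10 with hδ
  have hδ0 : 0 < δ := by positivity
  obtain ⟨k, hk⟩ := tight (m := m) (measurable_sp R 0) hδ0
  have hk' : ∀ z, Ev z → m.real {p | k < sp R p z} ≤ δ := fun z hz => by
    refine le_trans (le_of_eq ?_) hk
    exact real_shift hm hz (mset_nat (measurable_sp R z) (k < ·)) fun p => by
      have := sp_shift R hz p 0
      rw [zero_add] at this
      simp only [Set.mem_ofPred_eq, this]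
  obtain ⟨L1, hL1⟩ := far_small hm (2 * k) hδ0
  obtain ⟨z, hz, hzb, hza⟩ := equator hm hδ0 (L₀ + L1)
  obtain ⟨k1, hk1⟩ := long_small (m := m) z hδ0
  obtain ⟨L2, hL2⟩ := far_small hm (k1 + 2 * k) hδ0
  obtain ⟨z', hz', hzb', hza'⟩ := equator hm hδ0 (L₀ + L2 + ∑ c, (z c).natAbs)
  have b1 := hL1 z hz (notMem_box_mono (by omega) hzb)
  have b2 := hL2 z' hz' (notMem_box_mono (by omega) hzb')
  have c1 : z ∉ box L₀ := notMem_box_mono (by omega) hzb
  have c2 : z' ∉ box L₀ := notMem_box_mono (by omega) hzb'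
  have cneg : ∀ {u : V}, u ∉ box L₀ → -u ∉ box L₀ := fun hu hb =>
    hu (mem_box.2 fun c => by simpa using mem_box.1 hb c)
  have c3 : z' - z ∉ box L₀ := fun hb => hzb' (mem_box.2 fun c => by
    have h1 := mem_box.1 hb c
    have h2 := single_le_sum (f := fun c => (z c).natAbs) (fun _ _ => Nat.zero_le _) (mem_univ c)
    simp only [Pi.sub_apply] at h1 h2
    rw [Int.abs_eq_natAbs] at h1 ⊢
    generalize ∑ c, (z c).natAbs = S at h2 ⊢
    omega)
  let Bad : Set Om := (Ev1 (fun i => i.natAbs ≤ 2 * k) 0 z ∪ Ev1 (fun i => k1 < i.natAbs) 0 z ∪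
    Ev1 (fun i => i.natAbs ≤ k1 + 2 * k) 0 z') ∪
    ({p | k < sp R p 0} ∪ {p | k < sp R p z} ∪ {p | k < sp R p z'})
  have hBad : m.real Bad ≤ 6 * δ := by
    have u3 : ∀ A B C : Set Om, m.real (A ∪ B ∪ C) ≤ m.real A + m.real B + m.real C :=
      fun A B C => (measureReal_union_le _ _).trans (add_le_add (measureReal_union_le _ _) le_rfl)
    have := (measureReal_union_le (μ := m) _ _).trans (add_le_add
      (u3 (Ev1 (fun i => i.natAbs ≤ 2 * k) 0 z) (Ev1 (fun i => k1 < i.natAbs) 0 z)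
        (Ev1 (fun i => i.natAbs ≤ k1 + 2 * k) 0 z'))
      (u3 {p | k < sp R p 0} {p | k < sp R p z} {p | k < sp R p z'}))
    linarith [hk' z hz, hk' z' hz']
  have use : ∀ (A : Set Om) (x y w : V), Ev y → (∀ p ∈ A, p ∉ Bad → p ∈ Tri R k x y w) →
      m.real A - 6 * δ ≤ m.real {p | Btw R (x - y) (w - y) p} := by
    intro A x y w hy h
    have hs : A ⊆ Tri R k x y w ∪ Bad := fun p hp => by
      by_cases hb : p ∈ Bad
      · exact Or.inr hb
      · exact Or.inl (h p hp hb)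
    have := (measureReal_mono hs).trans (measureReal_union_le (μ := m) _ _)
    linarith [Tri_le hm R k x w hy]
  have good : ∀ p, N1 p → p ∉ Bad → (2 * k < (DD p 0 z).natAbs ∧ (DD p 0 z).natAbs ≤ k1 ∧
      k1 + 2 * k < (DD p 0 z').natAbs) ∧ (sp R p 0 ≤ k ∧ sp R p z ≤ k ∧ sp R p z' ≤ k) ∧
      DD p z 0 = -DD p 0 z ∧ DD p z' 0 = -DD p 0 z' ∧ DD p z z' = DD p 0 z' - DD p 0 z ∧
      DD p z' z = DD p 0 z - DD p 0 z' := by
    intro p h hb
    simp only [Bad, Ev1, Set.mem_union, Set.mem_inter_iff, Set.mem_ofPred_eq, h, true_and,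
      not_or, not_le, not_lt] at hb
    have e1 := DD_add h 0 z z'
    have e2 := DD_add h 0 z' z
    exact ⟨⟨hb.1.1.1, hb.1.1.2, hb.1.2⟩, ⟨hb.2.1.1, hb.2.1.2, hb.2.2⟩, DD_swap h 0 z,
      DD_swap h 0 z', by omega, by omega⟩
  let U : Set Om := Ev1 (0 < ·) 0 z
  let U' : Set Om := Ev1 (0 < ·) 0 z'
  have hU : MeasurableSet U := mset_Ev1 _ _ _
  have hU' : MeasurableSet U' := mset_Ev1 _ _ _
  have s1 : aft m z = m.real (U ∩ U') + m.real (U \ U') := split U U' hU'
  have s2 : aft m z' = m.real (U ∩ U') + m.real (U' \ U) := by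
    rw [Set.inter_comm]
    exact split U' U hU
  have s3 : m.real {p | N1 p} = aft m z + m.real ({p | N1 p} \ U) := by
    rw [split {p | N1 p} U hU,
      Set.inter_eq_right.2 (show U ⊆ {p | N1 p} from Set.inter_subset_left)]
    rfl
  have s4 : m.real ({p | N1 p} \ U) = m.real (U' \ U) + m.real (({p | N1 p} \ U) \ U') := by
    rw [split ({p | N1 p} \ U) U' hU']
    congr 2
    ext p
    exact ⟨fun h => ⟨h.2, h.1.2⟩, fun h => ⟨⟨h.1.1, h.2⟩, h.1⟩⟩
  rw [abs_le] at hza hza'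
  have u1 := use (U ∩ U') 0 z z' hz fun p hp hb => by
    have h : N1 p := hp.1.1
    have h1 : 0 < DD p 0 z := hp.1.2
    have h2 : 0 < DD p 0 z' := hp.2.2
    obtain ⟨g1, g2, g3⟩ := good p h hb
    refine ⟨⟨h, ?_, ?_⟩, ⟨g2.1, g2.2.1⟩, g2.2.2⟩ <;> simp only [Set.mem_ofPred_eq] <;> omega
  have u2 := use (U \ U') z' 0 z ev_zero fun p hp hb => by
    have h : N1 p := hp.1.1
    have h1 : 0 < DD p 0 z := hp.1.2
    have h2 : ¬ 0 < DD p 0 z' := fun h2 => hp.2 ⟨h, h2⟩
    obtain ⟨g1, g2, g3⟩ := good p h hb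
    refine ⟨⟨h, ?_, ?_⟩, ⟨g2.2.2, g2.1⟩, g2.2.1⟩ <;> simp only [Set.mem_ofPred_eq] <;> omega
  have u3 := use (U' \ U) z 0 z' ev_zero fun p hp hb => by
    have h : N1 p := hp.1.1
    have h1 : ¬ 0 < DD p 0 z := fun h1 => hp.2 ⟨h, h1⟩
    have h2 : 0 < DD p 0 z' := hp.1.2
    obtain ⟨g1, g2, g3⟩ := good p h hb
    refine ⟨⟨h, ?_, ?_⟩, ⟨g2.2.1, g2.1⟩, g2.2.2⟩ <;> simp only [Set.mem_ofPred_eq] <;> omega
  have u4 := use (({p | N1 p} \ U) \ U') z' z 0 hz fun p hp hb => by
    have h : N1 p := hp.1.1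
    have h1 : ¬ 0 < DD p 0 z := fun h1 => hp.1.2 ⟨h, h1⟩
    have h2 : ¬ 0 < DD p 0 z' := fun h2 => hp.2 ⟨h, h2⟩
    obtain ⟨g1, g2, g3⟩ := good p h hb
    refine ⟨⟨h, ?_, ?_⟩, ⟨g2.2.2, g2.2.1⟩, g2.1⟩ <;> simp only [Set.mem_ofPred_eq] <;> omega
  simp only [sub_zero, zero_sub] at u1 u2 u3 u4
  rcases le_total (m.real (U ∩ U')) (m.real (U \ U')) with hc | hc
  · refine ⟨z, z', hz, hz', c1, c2, ?_, by linarith, by linarith⟩
    rw [← neg_sub]
    exact cneg c3
  · refine ⟨-z, z' - z, ev_neg.2 hz, ?_, cneg c1, c3, ?_, by linarith, by linarith⟩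
    · rw [sub_eq_add_neg, ev_add (ev_neg.2 hz)]
      exact hz'
    · have : -z - (z' - z) = -z' := by abel
      rw [this]
      exact cneg c2

end Pool.Agent.Lib.MP_640444_pr
end
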