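import Pool.Agent.Lib.MP_640444_pr.Stmts2

-- part Pool.Agent.Lib.MP_640444_pr.Shan
section

/-!
Subadditivity of entropy and the entropy of the randomly flipped pair.
-/

set_option autoImplicit false
open MeasureTheory Filter Finset
open scoped Classical Topology ENNReal

namespace Pool.Agent.Lib.MP_640444_pr

namespace ShanAux

section general

variable {X : Type} [MeasurableSpace X] (P : Measure X) [IsProbabilityMeasure P]

omit [IsProbabilityMeasure P] in
lemma comp_ae {α : Type} {f : X → α} {T : Finset α} (hae : ∀ᵐ x ∂P, f x ∈ T) (φ : α → ℝ) :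
    (fun x => φ (f x)) =ᵐ[P] fun x => ∑ a ∈ T, (f ⁻¹' {a}).indicator (fun _ => φ a) x := by
  filter_upwards [hae] with x hx
  rw [sum_eq_single_of_mem (f x) hx fun a _ ha => Set.indicator_of_notMem (fun h => ha h.symm) _,
    Set.indicator_of_mem (show x ∈ f ⁻¹' {f x} from rfl)]

lemma integrable_comp {α : Type} {f : X → α} {T : Finset α}
    (hm : ∀ a, MeasurableSet (f ⁻¹' {a})) (hae : ∀ᵐ x ∂P, f x ∈ T) (φ : α → ℝ) :
    Integrable (fun x => φ (f x)) P :=
  (integrable_finsetSum _ fun a _ => (integrable_const (φ a)).indicator (hm a)).congr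
    (comp_ae P hae φ).symm

lemma integral_comp {α : Type} {f : X → α} {T : Finset α}
    (hm : ∀ a, MeasurableSet (f ⁻¹' {a})) (hae : ∀ᵐ x ∂P, f x ∈ T) (φ : α → ℝ) :
    ∫ x, φ (f x) ∂P = ∑ a ∈ T, P.real (f ⁻¹' {a}) * φ a := by
  rw [integral_congr_ae (comp_ae P hae φ),
    integral_finsetSum _ fun a _ => (integrable_const (φ a)).indicator (hm a)]
  exact sum_congr rfl fun a _ => by rw [integral_indicator_const _ (hm a), smul_eq_mul]

lemma sum_real {α : Type} {f : X → α} {T : Finset α}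
    (hm : ∀ a, MeasurableSet (f ⁻¹' {a})) (hae : ∀ᵐ x ∂P, f x ∈ T) :
    ∑ a ∈ T, P.real (f ⁻¹' {a}) = 1 := by
  simpa using (integral_comp P hm hae fun _ => 1).symm

lemma ae_pos {α : Type} {f : X → α} {T : Finset α} (hae : ∀ᵐ x ∂P, f x ∈ T) :
    ∀ᵐ x ∂P, 0 < P.real (f ⁻¹' {f x}) := by
  have h : ∀ a ∈ T, ∀ᵐ x ∂P, f x = a → 0 < P.real (f ⁻¹' {a}) := fun a _ => by
    rcases (measureReal_nonneg (μ := P) (s := f ⁻¹' {a})).eq_or_lt with h | h
    · have h0 : P (f ⁻¹' {a}) = 0 := (measureReal_eq_zero_iff (measure_ne_top _ _)).1 h.symm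
      filter_upwards [measure_eq_zero_iff_ae_notMem.1 h0] with x hx e using absurd e hx
    · exact Eventually.of_forall fun _ _ => h
  filter_upwards [hae, (eventually_all_finset T).2 h] with x hx h using h _ hx rfl

lemma hv_eq {α : Type} {f : X → α} {T : Finset α}
    (hm : ∀ a, MeasurableSet (f ⁻¹' {a})) (hae : ∀ᵐ x ∂P, f x ∈ T) :
    Hv P f T = ∫ x, -Real.log (P.real (f ⁻¹' {f x})) ∂P := by
  rw [integral_comp P hm hae fun a => -Real.log (P.real (f ⁻¹' {a}))]
  exact sum_congr rfl fun a _ => by rw [Real.negMulLog]; ring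

/-- the entropy is at most the logarithm of the number of values -/
lemma hv_le_log {α : Type} {f : X → α} {T : Finset α}
    (hm : ∀ a, MeasurableSet (f ⁻¹' {a})) (hae : ∀ᵐ x ∂P, f x ∈ T) :
    Hv P f T ≤ Real.log T.card := by
  obtain ⟨x, hx⟩ := hae.exists
  have hc : (0 : ℝ) < T.card := by exact_mod_cast card_pos.2 ⟨_, hx⟩
  have := gibbs_ineq T (w := fun a => P.real (f ⁻¹' {a})) (q := fun _ => (T.card : ℝ)⁻¹)
    (fun _ _ => measureReal_nonneg) (fun _ _ => by positivity)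
    (by rw [sum_real P hm hae, sum_const, nsmul_eq_mul, mul_inv_cancel₀ hc.ne'])
    (fun _ _ _ => by positivity)
  rwa [← sum_mul, sum_real P hm hae, one_mul, Real.log_inv, neg_neg] at this

end general

end ShanAux

open ShanAux

theorem shan : ShanStmt := by
  intro X α J _ P _ β I f T g U G hf hg hG hT hdet
  have hfT : ∀ᵐ x ∂P, f x ∈ T := hG.mono fun x hx => (hT x hx).1
  have hgU : ∀ j ∈ I, ∀ᵐ x ∂P, g j x ∈ U j := fun j hj => hG.mono fun x hx => (hT x hx).2 j hj
  let pr : (∀ j ∈ I, β j) → ℝ := fun b => ∏ j ∈ I.attach, P.real (g j.1 ⁻¹' {b j.1 j.2})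
  have pr0 : ∀ b, 0 ≤ pr b := fun b => prod_nonneg fun _ _ => measureReal_nonneg
  have hpr : ∑ b ∈ I.pi U, pr b = 1 := by
    rw [← prod_sum I U fun j b => P.real (g j ⁻¹' {b})]
    exact prod_eq_one fun j hj => sum_real P (hg j) (hgU j hj)
  let R : α → Finset (∀ j ∈ I, β j) := fun a =>
    (I.pi U).filter fun b => ∃ x ∈ G, f x = a ∧ (fun j _ => g j x) = b
  let q : α → ℝ := fun a => ∑ b ∈ R a, pr b
  have q0 : ∀ a, 0 ≤ q a := fun a => sum_nonneg fun b _ => pr0 b
  have hq : ∑ a ∈ T, q a ≤ 1 := by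
    rw [← hpr, ← sum_biUnion]
    · exact sum_le_sum_of_subset_of_nonneg (biUnion_subset.2 fun a _ => filter_subset _ _)
        fun b _ _ => pr0 b
    · intro a _ a' _ hne
      refine disjoint_left.2 fun b hb hb' => hne ?_
      obtain ⟨x, hx, rfl, e⟩ := (mem_filter.1 hb).2
      obtain ⟨x', hx', rfl, e'⟩ := (mem_filter.1 hb').2
      exact hdet x hx x' hx' fun j hj => congrFun (congrFun (e.trans e'.symm) j) hj
  have hle : ∀ x ∈ G, ∏ j ∈ I, P.real (g j ⁻¹' {g j x}) ≤ q (f x) := fun x hx => by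
    rw [← prod_attach]
    exact single_le_sum (f := pr) (a := fun j _ => g j x) (fun b _ => pr0 b)
      (mem_filter.2 ⟨mem_pi.2 (hT x hx).2, x, hx, rfl, rfl⟩)
  have hpos : ∀ᵐ x ∂P, ∀ j ∈ I, 0 < P.real (g j ⁻¹' {g j x}) :=
    (eventually_all_finset I).2 fun j hj => ae_pos P (hgU j hj)
  have h1 := gibbs_ineq T (w := fun a => P.real (f ⁻¹' {a})) (q := q)
    (fun _ _ => measureReal_nonneg) (fun a _ => q0 a) (by rw [sum_real P hf hfT]; exact hq)
    (fun a _ ha => by
      have h0 : P (f ⁻¹' {a}) ≠ 0 := fun h => ha (by simp [measureReal_def, h])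
      obtain ⟨x, hx, h1, h2⟩ := Measure.exists_mem_of_measure_ne_zero_of_ae h0
        (ae_restrict_of_ae (hG.and hpos))
      have e : f x = a := hx
      exact e ▸ ((prod_pos h2).trans_le (hle x h1)).ne')
  refine h1.trans ?_
  have hi : ∀ j ∈ I, Integrable (fun x => -Real.log (P.real (g j ⁻¹' {g j x}))) P := fun j hj =>
    integrable_comp P (hg j) (hgU j hj) fun b => -Real.log (P.real (g j ⁻¹' {b}))
  rw [← integral_comp P hf hfT fun a => Real.log (q a), ← integral_neg,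
    sum_congr rfl fun j hj => hv_eq P (hg j) (hgU j hj), ← integral_finsetSum _ hi]
  refine integral_mono_ae (integrable_comp P hf hfT fun a => -Real.log (q a))
    (integrable_finsetSum _ hi) ?_
  filter_upwards [hG, hpos] with x hx hp
  rw [sum_neg_distrib, ← Real.log_prod fun j hj => (hp j hj).ne', neg_le_neg_iff]
  exact Real.log_le_log (prod_pos hp) (hle x hx)

namespace ShanAux

/-- the case of two variables -/
lemma shan2 (h : ShanStmt) {X α β γ : Type} [MeasurableSpace X] (P : Measure X)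
    [IsProbabilityMeasure P] (f : X → α) (T : Finset α) (g : X → β) (U : Finset β) (k : X → γ)
    (W : Finset γ) (G : Set X) (hf : ∀ a, MeasurableSet (f ⁻¹' {a}))
    (hg : ∀ a, MeasurableSet (g ⁻¹' {a})) (hk : ∀ a, MeasurableSet (k ⁻¹' {a}))
    (hG : ∀ᵐ x ∂P, x ∈ G) (hT : ∀ x ∈ G, f x ∈ T ∧ g x ∈ U ∧ k x ∈ W)
    (hd : ∀ x ∈ G, ∀ x' ∈ G, g x = g x' → k x = k x' → f x = f x') :
    Hv P f T ≤ Hv P g U + Hv P k W := by
  have := h X α Bool P (fun j => Bool.rec γ β j) univ f T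
    (fun j => Bool.rec (motive := fun j => X → (Bool.rec γ β j : Type)) k g j)
    (fun j => Bool.rec (motive := fun j => Finset (Bool.rec γ β j : Type)) W U j) G hf
    (fun j => by cases j; exacts [hk, hg]) hG
    (fun x hx => ⟨(hT x hx).1, fun j _ => by cases j; exacts [(hT x hx).2.2, (hT x hx).2.1]⟩)
    (fun x hx x' hx' e => hd x hx x' hx' (e true (mem_univ _)) (e false (mem_univ _)))
  rwa [Fintype.sum_bool] at this

lemma res_eq (T : Finset V) (p : Om) : Ent.res T p = (res1 T p.1, res1 T p.2) := by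
  refine Prod.ext (funext fun v => ?_) (funext fun v => ?_) <;>
    by_cases hv : v ∈ T <;> simp [Ent.res, Ent.pch, res1, hv]

lemma measurable_res (T : Finset V) : Measurable (Ent.res T) :=
  Ent.measurable_pch T measurable_id measurable_const

lemma res1_mem {T : Finset V} {σ : Cfg} (h : IsTiling σ) : res1 T σ ∈ Ent.Pat1 T :=
  Ent.mem_Pat1.2 ⟨fun v hv => by simpa [res1, hv] using Ent.Adj.sub_mem (h v).1,
    fun v hv => by simp [res1, hv]⟩

lemma res_mem {T : Finset V} {p : Om} (h : Til p) : Ent.res T p ∈ Ent.Pat T :=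
  Ent.res_mem_Pat fun v _ => ⟨(h.1 v).1, (h.2 v).1⟩

lemma h2_prod {μ : Measure Cfg} [IsProbabilityMeasure μ] (ht : ∀ᵐ σ ∂μ, IsTiling σ)
    (T : Finset V) : H2 (μ.prod μ) T = 2 * H1 μ T := by
  have h1 := sum_real μ (fun a => measurable_res1 T (measurableSet_singleton a))
    (ht.mono fun σ h => res1_mem (T := T) h)
  have e : ∀ a b : Cfg, (μ.prod μ).real (Ent.res T ⁻¹' {(a, b)}) =
      μ.real (res1 T ⁻¹' {a}) * μ.real (res1 T ⁻¹' {b}) := fun a b => by
    rw [← measureReal_prod_prod]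
    congr 1
    ext p
    simp [res_eq]
  simp only [H2, H1, Hv, ent, Ent.Pat, sum_product, e, Real.negMulLog_mul, sum_add_distrib,
    ← sum_mul, ← mul_sum, h1]
  ring

/-- the boundary layer of the cell -/
noncomputable def bd (n : ℕ) : Finset V :=
  univ.biUnion fun i : Fin 3 => {x ∈ cell n 0 | x i ∈ ({0, (n : ℤ) - 1} : Finset ℤ)}

lemma card_bd (n : ℕ) : (bd n).card ≤ 6 * n ^ 2 := by
  refine card_biUnion_le.trans ((sum_le_card_nsmul _ _ (2 * n ^ 2) fun i _ => ?_).trans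
    (le_of_eq ?_))
  · exact (card_slab n 0 i _).trans (Nat.mul_le_mul_right _ card_le_two)
  · simp; ring

lemma adj_mem_cell {n : ℕ} {x y : V} (hx : x ∈ cell n 0) (hb : x ∉ bd n) (h : Adj x y) :
    y ∈ cell n 0 := by
  rw [mem_cell]
  intro i
  have h1 := abs_le.1 (h.coord i)
  have h2 := mem_cell.1 hx i
  have h3 : ¬ (x i = 0 ∨ x i = n - 1) := fun e =>
    hb (mem_biUnion.2 ⟨i, mem_univ _, mem_filter.2 ⟨hx, by simpa using e⟩⟩)
  simp only [Pi.zero_apply, mul_zero, zero_add] at h2 ⊢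
  omega

lemma sub_of_flp {n : ℕ} {p q : Om} {F G : Set V} (hp : Til p) (hF : Invar p F)
    (hN : NoFin p F) (hG : Invar q G) (h : flp F p ∈ cyl (cell n 0) (flp G q))
    (hb : ∀ v ∈ bd n, v ∈ F ↔ v ∈ G) : ∀ v ∈ cell n 0, v ∈ F → v ∈ G := by
  have := hN {v | v ∈ cell n 0 ∧ v ∈ F ∧ v ∉ G} (fun v hv => hv.2.1)
    ((cell n 0).finite_toSet.subset fun v hv => hv.1) (by
      rintro v ⟨h1, h2, h3⟩
      have hv : v ∉ bd n := fun hc => h3 ((hb v hc).1 h2)
      have e := h v h1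
      simp only [flp, h2, h3, if_true, if_false] at e
      refine ⟨⟨adj_mem_cell h1 hv (hp.1 v).1, (hF v).1.2 h2, ?_⟩,
        ⟨adj_mem_cell h1 hv (hp.2 v).1, (hF v).2.2 h2, ?_⟩⟩
      · rw [e.2]
        exact fun h' => h3 ((hG v).2.1 h')
      · rw [e.1]
        exact fun h' => h3 ((hG v).1.1 h'))
  intro v hv hvF
  by_contra hc
  exact (Set.eq_empty_iff_forall_notMem.1 this v) ⟨hv, hvF, hc⟩

lemma determined {n : ℕ} {p q : Om} {F G : Set V} (hp : Til p) (hF : Invar p F)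
    (hN : NoFin p F) (hq : Til q) (hG : Invar q G) (hN' : NoFin q G)
    (h : flp F p ∈ cyl (cell n 0) (flp G q)) (hb : ∀ v ∈ bd n, v ∈ F ↔ v ∈ G) :
    p ∈ cyl (cell n 0) q := by
  have h1 := sub_of_flp hp hF hN hG h hb
  have h2 := sub_of_flp hq hG hN' hF (fun v hv => ⟨(h v hv).1.symm, (h v hv).2.symm⟩)
    fun v hv => (hb v hv).symm
  intro v hv
  have e := h v hv
  by_cases hvF : v ∈ F
  · simp only [flp, hvF, h1 v hv hvF, if_true] at e
    exact e.symm
  · simp only [flp, hvF, (show v ∉ G from fun h' => hvF (h2 v hv h')), if_false] at e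
    exact e

lemma mset_filter (B u : Finset V) :
    MeasurableSet ((fun ω => B.filter (· ∈ FF ω)) ⁻¹' {u}) := by
  have e : (fun ω => B.filter (· ∈ FF ω)) ⁻¹' {u} = ⋂ v, {ω | (v ∈ B ∧ v ∈ FF ω) ↔ v ∈ u} := by
    ext ω
    simp only [Set.mem_preimage, Set.mem_singleton_iff, Set.mem_iInter, Set.mem_ofPred_eq,
      Finset.ext_iff, mem_filter]
  rw [e]
  exact MeasurableSet.iInter fun v => measurableSet_setOfPred.2
    ((measurable_const.and (measurableSet_setOfPred.1 (mset_FF v))).iff measurable_const)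

lemma hv_map {X Y α : Type} [MeasurableSpace X] [MeasurableSpace Y] {P : Measure X} {φ : X → Y}
    (hφ : Measurable φ) {f : Y → α} (hf : ∀ a, MeasurableSet (f ⁻¹' {a})) (T : Finset α) :
    Hv (P.map φ) f T = Hv P (fun x => f (φ x)) T :=
  sum_congr rfl fun a _ => congrArg Real.negMulLog (map_measureReal_apply hφ (hf a))

lemma h2_flip (h : ShanStmt) {m : Measure Om} [IsProbabilityMeasure m] (ht : ∀ᵐ p ∂m, Til p)
    (n : ℕ) :
    H2 m (cell n 0) ≤ H2 ((m.prod coins).map fl) (cell n 0) + 6 * (n : ℝ) ^ 2 := by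
  have hr : ∀ a, MeasurableSet (Ent.res (cell n 0) ⁻¹' {a}) := fun a =>
    measurable_res _ (measurableSet_singleton a)
  have hm : (m.prod coins).map Prod.fst = m := measurePreserving_fst.map_eq
  have h1 := shan2 h (m.prod coins) (fun ω => Ent.res (cell n 0) ω.1) (Ent.Pat (cell n 0))
    (fun ω => Ent.res (cell n 0) (fl ω)) (Ent.Pat (cell n 0))
    (fun ω => (bd n).filter (· ∈ FF ω)) (bd n).powerset {ω | Til ω.1}
    (fun a => measurable_fst (hr a)) (fun a => measurable_fl (hr a)) (mset_filter _)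
    ((measurePreserving_fst (μ := m) (ν := coins)).quasiMeasurePreserving.ae ht)
    (fun ω hω => ⟨res_mem hω, res_mem (til_flp hω (invar_FF hω)),
      mem_powerset.2 (filter_subset _ _)⟩)
    (fun ω hω ω' hω' e1 e2 => Ent.res_eq_iff.2 (determined hω (invar_FF hω) (noFin_FF hω) hω'
      (invar_FF hω') (noFin_FF hω') (Ent.res_eq_iff.1 e1) fun v hv => by
        simpa only [mem_filter, hv, true_and] using Finset.ext_iff.1 e2 v))
  have h2 := hv_le_log (m.prod coins) (mset_filter (bd n))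
    (Eventually.of_forall fun ω => mem_powerset.2 (filter_subset (· ∈ FF ω) (bd n)))
  rw [card_powerset, Nat.cast_pow, Real.log_pow] at h2
  have h3 : ((bd n).card : ℝ) ≤ 6 * (n : ℝ) ^ 2 := by exact_mod_cast card_bd n
  have h4 : Real.log (2 : ℕ) ≤ 1 := by
    have := Real.log_two_lt_d9
    push_cast
    linarith
  have h5 : ((bd n).card : ℝ) * Real.log (2 : ℕ) ≤ (bd n).card :=
    mul_le_of_le_one_right (by positivity) h4
  rw [← hv_map measurable_fst hr, hm, ← hv_map measurable_fl hr] at h1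
  unfold H2
  linarith

lemma coins_true (u : V) : coins {ξ | ξ u = true} = 2⁻¹ := by
  have : {ξ : V → Bool | ξ u = true} = Set.pi ({u} : Finset V) fun _ => {true} := by
    ext ξ; simp
  rw [this, coins, Measure.infinitePi_pi _ fun _ _ => measurableSet_singleton _]
  simp [coin_single]

lemma flip_half (m : Measure Om) [IsProbabilityMeasure m] {A : Set Om} (hA : MeasurableSet A) :
    (m.prod coins) (Prod.fst ⁻¹' A ∩ {ω | 0 ∈ FF ω}) = 2⁻¹ * m (A ∩ {p | Inf p 0}) := by
  rw [Measure.prod_apply ((measurable_fst hA).inter (mset_FF 0)),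
    ← lintegral_indicator_const (hA.inter (mset_inf 0))]
  refine lintegral_congr fun p => ?_
  by_cases hp : p ∈ A ∩ {p | Inf p 0}
  · rw [Set.indicator_of_mem hp, ← coins_true (rep p 0)]
    congr 1
    ext ξ
    exact ⟨fun h => h.2.2, fun h => ⟨hp.1, hp.2, h⟩⟩
  · rw [Set.indicator_of_notMem hp]
    convert measure_empty (μ := coins)
    exact Set.eq_empty_of_forall_notMem fun ξ h => hp ⟨h.1, h.2.1⟩

lemma flip_swap (μ : Measure Cfg) [IsProbabilityMeasure μ] {A : Set Cfg} (hA : MeasurableSet A) :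
    ((μ.prod μ).prod coins) (Prod.fst ⁻¹' (Prod.fst ⁻¹' A) ∩ {ω | 0 ∈ FF ω}) =
      ((μ.prod μ).prod coins) (Prod.fst ⁻¹' (Prod.snd ⁻¹' A) ∩ {ω | 0 ∈ FF ω}) := by
  rw [flip_half _ (measurable_fst hA), flip_half _ (measurable_snd hA),
    ← (Measure.measurePreserving_swap (μ := μ) (ν := μ)).measure_preimage
      ((measurable_snd hA).inter (mset_inf 0)).nullMeasurableSet]
  congr 2
  ext p
  simp [inf_swap]

lemma mset_at (w : V) : MeasurableSet {σ : Cfg | σ 0 = w} :=
  mset_eq (measurable_pi_apply 0) measurable_const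

lemma nu_fst (μ : Measure Cfg) [IsProbabilityMeasure μ] (w : V) :
    ((nu μ).map Prod.fst) {σ | σ 0 = w} = μ {σ | σ 0 = w} := by
  have hA := mset_at w
  rw [Measure.map_apply measurable_fst hA, nu, Measure.map_apply measurable_fl (measurable_fst hA),
    ← measure_inter_add_sdiff _ (mset_FF 0),
    ← ((measurePreserving_fst (μ := μ) (ν := μ)).comp
      (measurePreserving_fst (μ := μ.prod μ) (ν := coins))).measure_preimage hA.nullMeasurableSet,
    ← measure_inter_add_sdiff (_ ⁻¹' {σ : Cfg | σ 0 = w}) (mset_FF 0), Set.preimage_comp,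
    flip_swap μ hA]
  congr 2
  · ext ω
    refine and_congr_left fun h => ?_
    have h' : 0 ∈ FF ω := h
    simp [fl, flp, h']
  · ext ω
    refine and_congr_left fun h => ?_
    have h' : 0 ∉ FF ω := h
    simp [fl, flp, h']

lemma nu_snd (μ : Measure Cfg) [IsProbabilityMeasure μ] (w : V) :
    ((nu μ).map Prod.snd) {σ | σ 0 = w} = μ {σ | σ 0 = w} := by
  have hA := mset_at w
  rw [Measure.map_apply measurable_snd hA, nu, Measure.map_apply measurable_fl (measurable_snd hA),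
    ← measure_inter_add_sdiff _ (mset_FF 0),
    ← ((measurePreserving_snd (μ := μ) (ν := μ)).comp
      (measurePreserving_fst (μ := μ.prod μ) (ν := coins))).measure_preimage hA.nullMeasurableSet,
    ← measure_inter_add_sdiff (_ ⁻¹' {σ : Cfg | σ 0 = w}) (mset_FF 0), Set.preimage_comp,
    ← flip_swap μ hA]
  congr 2
  · ext ω
    refine and_congr_left fun h => ?_
    have h' : 0 ∈ FF ω := h
    simp [fl, flp, h']
  · ext ω
    refine and_congr_left fun h => ?_
    have h' : 0 ∉ FF ω := h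
    simp [fl, flp, h']

lemma inv1_til {s : Fin 3 → ℝ} {μ : Measure Cfg} (h : Inv1 s μ) : ∀ᵐ p ∂(μ.prod μ), Til p := by
  have := h.prob
  have a1 : ∀ᵐ p ∂(μ.prod μ), IsTiling p.1 :=
    (measurePreserving_fst (μ := μ) (ν := μ)).quasiMeasurePreserving.ae h.tiling
  have a2 : ∀ᵐ p ∂(μ.prod μ), IsTiling p.2 :=
    (measurePreserving_snd (μ := μ) (ν := μ)).quasiMeasurePreserving.ae h.tiling
  filter_upwards [a1, a2] with p h1 h2 using ⟨h1, h2⟩

lemma inv1_evInv {s : Fin 3 → ℝ} {μ : Measure Cfg} (h : Inv1 s μ) : EvInv (μ.prod μ) := by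
  have := h.prob
  intro v hv
  have hm : MeasurePreserving (shift v) μ μ := ⟨measurable_shift v, h.inv v hv⟩
  exact hm.prod hm

lemma nu_prob (μ : Measure Cfg) [IsProbabilityMeasure μ] : IsProbabilityMeasure (nu μ) :=
  Measure.isProbabilityMeasure_map measurable_fl.aemeasurable

lemma nu_til {s : Fin 3 → ℝ} {μ : Measure Cfg} (h : Inv1 s μ) : ∀ᵐ p ∂(nu μ), Til p := by
  have := h.prob
  refine (ae_map_iff measurable_fl.aemeasurable mset_til).2 ?_
  filter_upwards [(measurePreserving_fst (μ := μ.prod μ) (ν := coins)).quasiMeasurePreserving.ae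
    (inv1_til h)] with ω hω using til_flp hω (invar_FF hω)

lemma nu_evInv {s : Fin 3 → ℝ} {μ : Measure Cfg} (h : Inv1 s μ) : EvInv (nu μ) := by
  have := h.prob
  exact fl_evInv (inv1_evInv h)

end ShanAux

theorem flip_of (h : ShanStmt) : FlipStmt := by
  intro s μ hμ
  have := hμ.prob
  have := nu_prob μ
  refine ⟨fun n => (h2_prod hμ.tiling _).ge, h2_flip h (inv1_til hμ), ⟨?_, ?_, fun v hv => ?_, ?_⟩,
    ⟨?_, ?_, fun v hv => ?_, ?_⟩⟩
  · exact Measure.isProbabilityMeasure_map measurable_fst.aemeasurable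
  · exact (ae_map_iff measurable_fst.aemeasurable mset_isTiling).2
      ((nu_til hμ).mono fun p hp => hp.1)
  · conv_rhs => rw [← (nu_evInv hμ v hv).map_eq]
    rw [Measure.map_map (measurable_shift v) measurable_fst,
      Measure.map_map measurable_fst (measurable_shift2 v)]
    rfl
  · intro i
    rw [nu_fst, nu_fst, hμ.cur i]
  · exact Measure.isProbabilityMeasure_map measurable_snd.aemeasurable
  · exact (ae_map_iff measurable_snd.aemeasurable mset_isTiling).2
      ((nu_til hμ).mono fun p hp => hp.2)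
  · conv_rhs => rw [← (nu_evInv hμ v hv).map_eq]
    rw [Measure.map_map (measurable_shift v) measurable_snd,
      Measure.map_map measurable_snd (measurable_shift2 v)]
    rfl
  · intro i
    rw [nu_snd, nu_snd, hμ.cur i]

end Pool.Agent.Lib.MP_640444_pr
end

-- part Pool.Agent.Lib.MP_640444_pr.Mst
section

/-!
Entropy maximisers: conditioning on invariant events and existence of ergodic Gibbs measures.
-/

set_option autoImplicit false
open MeasureTheory Filter Finset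
open scoped Classical Topology ENNReal

namespace Pool.Agent.Lib.MP_640444_pr

namespace Mst

lemma mset_res1 (T : Finset V) (a : Cfg) : MeasurableSet (res1 T ⁻¹' {a}) :=
  measurable_res1 T (measurableSet_singleton a)

lemma H1_nonneg (P : Measure Cfg) [IsProbabilityMeasure P] (T : Finset V) : 0 ≤ H1 P T :=
  sum_nonneg fun _ _ => Real.negMulLog_nonneg measureReal_nonneg measureReal_le_one

lemma H1_le (P : Measure Cfg) (T : Finset V) : H1 P T ≤ (Ent.Pat1 T).card := by
  have : H1 P T ≤ (Ent.Pat1 T).card • (1 : ℝ) :=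
    sum_le_card_nsmul _ _ _ fun a _ => by
      have := Real.negMulLog_le_one_sub_self (measureReal_nonneg (μ := P) (s := res1 T ⁻¹' {a}))
      have h2 := measureReal_nonneg (μ := P) (s := res1 T ⁻¹' {a})
      linarith
  simpa using this

lemma res1_shift (T : Finset V) (v : V) (σ : Cfg) :
    res1 (T.image (· + v)) (shift v σ) = shift v (res1 T σ) := by
  funext x
  by_cases hx : x - v ∈ T
  · simp only [res1, shift, hx, Ent.mem_image_add, if_true]
  · simp only [res1, shift, hx, Ent.mem_image_add, if_false, sub_add_cancel]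

lemma shift_inj (v : V) : Function.Injective (shift v) := fun a b h => by
  have := congrArg (shift (-v)) h
  rwa [shift_shift, shift_shift, add_neg_cancel, shift_zero, shift_zero] at this

lemma shift_mem_Pat1 {T : Finset V} {a : Cfg} (h : a ∈ Ent.Pat1 T) (v : V) :
    shift v a ∈ Ent.Pat1 (T.image (· + v)) := by
  rw [Ent.mem_Pat1] at h ⊢
  refine ⟨fun x hx => ?_, fun x hx => ?_⟩
  · rw [Ent.mem_image_add] at hx
    have := h.1 _ hx
    have e : shift v a x - x = a (x - v) - (x - v) := by simp only [shift]; abel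
    rwa [e]
  · rw [Ent.mem_image_add] at hx
    simp only [shift]
    rw [h.2 _ hx, sub_add_cancel]

lemma image_image_neg (T : Finset V) (v : V) : (T.image (· + v)).image (· + -v) = T := by
  ext x
  simp

lemma H1_shift (P : Measure Cfg) (T : Finset V) (v : V) :
    H1 (P.map (shift v)) (T.image (· + v)) = H1 P T := by
  unfold H1 Hv ent
  symm
  refine sum_bij (fun a _ => shift v a) (fun a ha => shift_mem_Pat1 ha v)
    (fun a _ b _ h => shift_inj v h) (fun b hb => ⟨shift (-v) b, ?_, ?_⟩) (fun a _ => ?_)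
  · have := shift_mem_Pat1 hb (-v)
    rwa [image_image_neg] at this
  · rw [shift_shift, neg_add_cancel, shift_zero]
  · beta_reduce
    congr 1
    rw [map_measureReal_apply (measurable_shift v) (mset_res1 _ _)]
    congr 1
    ext σ
    simp only [Set.mem_preimage, Set.mem_singleton_iff, res1_shift, (shift_inj v).eq_iff]

lemma cell_image (l : ℕ) (z : V) : (cell l z).image (· + -((l : ℤ) • z)) = cell l 0 := by
  ext x
  rw [Ent.mem_image_add, mem_cell, mem_cell]
  refine forall_congr' fun i => ?_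
  simp only [Pi.zero_apply, mul_zero, Pi.sub_apply, Pi.neg_apply, Pi.smul_apply, smul_eq_mul]
  omega

lemma H1_cell (P : Measure Cfg) (l : ℕ) (z : V) :
    H1 (P.map (shift (-((l : ℤ) • z)))) (cell l 0) = H1 P (cell l z) := by
  rw [← cell_image l z, H1_shift]

lemma cell_sub {n : ℕ} {z : V} (hz : z ∈ cell 2 0) : cell n z ⊆ cell (2 * n) 0 := by
  intro x hx
  rw [mem_cell] at hx hz ⊢
  intro i
  have h1 := hx i
  have h2 := hz i
  simp only [Pi.zero_apply, mul_zero, zero_add, Nat.cast_ofNat] at h2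
  have : z i = 0 ∨ z i = 1 := by omega
  simp only [Pi.zero_apply, mul_zero, zero_add]
  push_cast
  rcases this with e | e <;> rw [e] at h1 <;> omega

noncomputable def qt (n : ℕ) (x : V) : V := fun i => if x i < n then 0 else 1

lemma qt_mem (n : ℕ) (x : V) : qt n x ∈ cell 2 0 := by
  rw [mem_cell]
  intro i
  simp only [qt, Pi.zero_apply, mul_zero, zero_add, Nat.cast_ofNat]
  split_ifs <;> omega

lemma mem_cell_qt {n : ℕ} {x z : V} (hx : x ∈ cell (2 * n) 0) (hz : z ∈ cell 2 0) :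
    x ∈ cell n z ↔ qt n x = z := by
  rw [mem_cell] at hx hz ⊢
  rw [funext_iff]
  refine forall_congr' fun i => ?_
  have h1 := hx i
  have h2 := hz i
  simp only [Pi.zero_apply, mul_zero, zero_add, Nat.cast_ofNat] at h1 h2
  push_cast at h1
  have : z i = 0 ∨ z i = 1 := by omega
  simp only [qt]
  rcases this with e | e <;> rw [e] <;> split_ifs <;> omega

lemma sum_cells (n : ℕ) (f : V → ℝ) :
    ∑ x ∈ cell (2 * n) 0, f x = ∑ z ∈ cell 2 0, ∑ x ∈ cell n z, f x := by
  rw [← sum_fiberwise_of_maps_to (s := cell (2 * n) 0) (t := cell 2 0) (g := qt n)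
    fun x _ => qt_mem n x]
  refine sum_congr rfl fun z hz => sum_congr ?_ fun _ _ => rfl
  ext x
  rw [mem_filter]
  exact ⟨fun h => (mem_cell_qt h.1 hz).2 h.2,
    fun h => ⟨cell_sub hz h, (mem_cell_qt (cell_sub hz h) hz).1 h⟩⟩

lemma dev_cells (s : Fin 3 → ℝ) (σ : Cfg) (i : Fin 3) (n : ℕ) :
    dev s σ i (cell (2 * n) 0) = ∑ z ∈ cell 2 0, dev s σ i (cell n z) := by
  simp only [dev, sum_filter]
  exact sum_cells n _

lemma res1_mem {T : Finset V} {σ : Cfg} (h : ∀ x ∈ T, Adj x (σ x)) : res1 T σ ∈ Ent.Pat1 T :=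
  Ent.mem_Pat1.2 ⟨fun v hv => by simpa [res1, hv] using Ent.Adj.sub_mem (h v hv),
    fun v hv => by simp [res1, hv]⟩

lemma mset_adj (T : Finset V) : MeasurableSet {σ : Cfg | ∀ x ∈ T, Adj x (σ x)} := by
  have : {σ : Cfg | ∀ x ∈ T, Adj x (σ x)} = ⋂ x ∈ T, {σ : Cfg | Adj x (σ x)} := by
    ext σ; simp
  rw [this]
  exact MeasurableSet.biInter T.countable_toSet fun x _ =>
    mset_prop (measurable_pi_apply x) (Adj x)

lemma H1_sub (h : ShanStmt) (P : Measure Cfg) [IsProbabilityMeasure P] (n : ℕ)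
    (hP : ∀ᵐ σ ∂P, ∀ x ∈ cell (2 * n) 0, Adj x (σ x)) :
    H1 P (cell (2 * n) 0) ≤ ∑ z ∈ cell 2 0, H1 P (cell n z) := by
  refine h Cfg Cfg V P (fun _ => Cfg) (cell 2 0) (res1 (cell (2 * n) 0)) _
    (fun z => res1 (cell n z)) (fun z => Ent.Pat1 (cell n z))
    {σ | ∀ x ∈ cell (2 * n) 0, Adj x (σ x)} (mset_res1 _) (fun z => mset_res1 _) hP
    (fun σ hσ => ⟨res1_mem hσ, fun z hz => res1_mem fun x hx => hσ x (cell_sub hz hx)⟩)
    (fun σ _ σ' _ e => res1_eq_iff.2 fun x hx => ?_)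
  exact res1_eq_iff.1 (e _ (qt_mem n x)) x ((mem_cell_qt hx (qt_mem n x)).2 rfl)

lemma card_cell2 : (cell 2 0).card = 8 := by rw [card_cell]; norm_num

lemma H1_inv (h : ShanStmt) {s : Fin 3 → ℝ} {ν : Measure Cfg} (hν : Inv1 s ν) {n : ℕ}
    (hn : Even n) : H1 ν (cell (2 * n) 0) ≤ 8 * H1 ν (cell n 0) := by
  have := hν.prob
  refine (H1_sub h ν n (hν.tiling.mono fun σ hσ x _ => (hσ x).1)).trans (le_of_eq ?_)
  rw [sum_congr rfl fun z _ => (H1_cell ν n z).symm]
  rw [sum_congr rfl fun z _ => by rw [hν.inv _ (ev_neg.2 (ev_smul hn z))]]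
  simp [card_cell2]

lemma measurable_dev (s : Fin 3 → ℝ) (i : Fin 3) (Q : Finset V) :
    Measurable fun σ : Cfg => dev s σ i Q := by
  unfold dev
  refine Finset.measurable_sum _ fun x _ => ?_
  exact (measurable_of_countable (fun y : V => ((y i - x i : ℤ) : ℝ) - s i)).comp
    (measurable_pi_apply x)

lemma integrable_coord (P : Measure Cfg) [IsFiniteMeasure P] (x : V) (i : Fin 3)
    (h : ∀ᵐ σ ∂P, Adj x (σ x)) : Integrable (fun σ : Cfg => ((σ x i - x i : ℤ) : ℝ)) P := by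
  refine Integrable.of_bound
    ((measurable_of_countable (fun y : V => ((y i - x i : ℤ) : ℝ))).comp
      (measurable_pi_apply x)).aestronglyMeasurable 1 (h.mono fun σ hσ => ?_)
  rw [Real.norm_eq_abs]
  exact_mod_cast hσ.coord i

lemma integrable_dev (s : Fin 3 → ℝ) (P : Measure Cfg) [IsFiniteMeasure P] (i : Fin 3)
    (Q : Finset V) (h : ∀ᵐ σ ∂P, ∀ x ∈ Q, Adj x (σ x)) :
    Integrable (fun σ => dev s σ i Q) P := by
  unfold dev
  refine integrable_finsetSum _ fun x hx => ?_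
  exact (integrable_coord P x i (h.mono fun σ hσ => hσ x (mem_filter.1 hx).1)).sub
    (integrable_const _)

lemma integral_zero_coord {s : Fin 3 → ℝ} {μ : Measure Cfg} (h : Inv1 s μ) (i : Fin 3) :
    ∫ σ, ((σ 0 i : ℤ) : ℝ) ∂μ = s i := by
  have := h.prob
  have ms : ∀ y : V, MeasurableSet {σ : Cfg | σ 0 = y} := fun y =>
    mset_eq (measurable_pi_apply 0) measurable_const
  have e : ∀ y : V, (fun σ : Cfg => if σ 0 = y then (1 : ℝ) else 0) =
      Set.indicator {σ : Cfg | σ 0 = y} 1 := fun y => by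
    funext σ; simp [Set.indicator_apply]
  have e1 : ∫ σ, ((σ 0 i : ℤ) : ℝ) ∂μ = ∫ σ, ((if σ 0 = Pi.single i 1 then (1 : ℝ) else 0) -
      (if σ 0 = -Pi.single i 1 then 1 else 0)) ∂μ := by
    refine integral_congr_ae (h.tiling.mono fun σ hσ => ?_)
    refine unit_coord (d := σ 0) ?_ i
    simpa [Adj] using (hσ 0).1
  rw [e1, integral_sub, e, e, integral_indicator_one (ms _), integral_indicator_one (ms _), h.cur i]
  · rfl
  · rw [e]; exact (integrable_const 1).indicator (ms _)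
  · rw [e]; exact (integrable_const 1).indicator (ms _)

lemma feas_of {s : Fin 3 → ℝ} {μ : Measure Cfg} (h : Inv1 s μ) (n : ℕ) : Feas s n μ := by
  have := h.prob
  refine ⟨h.prob, h.tiling.mono fun σ hσ => hσ.adm _, fun i => ?_⟩
  unfold dev
  rw [integral_finsetSum (f := fun x (σ : Cfg) => ((σ x i - x i : ℤ) : ℝ) - s i) _ fun x _ =>
    (integrable_coord μ x i (h.tiling.mono fun σ hσ => (hσ x).1)).sub (integrable_const _)]
  refine sum_eq_zero fun x hx => ?_
  rw [integral_sub (integrable_coord μ x i (h.tiling.mono fun σ hσ => (hσ x).1))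
    (integrable_const _)]
  have hv : Ev (-x) := ev_neg.2 (mem_filter.1 hx).2
  have hm : MeasurePreserving (shift (-x)) μ μ := ⟨measurable_shift _, h.inv _ hv⟩
  have e := integral_comp_mp hm (g := fun σ : Cfg => ((σ 0 i : ℤ) : ℝ))
    ((measurable_of_countable (fun y : V => ((y i : ℤ) : ℝ))).comp (measurable_pi_apply 0))
  rw [integral_zero_coord h i] at e
  have e2 : (fun σ : Cfg => ((σ x i - x i : ℤ) : ℝ)) =
      fun σ : Cfg => ((shift (-x) σ 0 i : ℤ) : ℝ) := by
    funext σ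
    simp [shift, sub_eq_add_neg]
  rw [e2, e]
  simp

lemma bdd (s : Fin 3 → ℝ) (n : ℕ) : BddAbove {h | ∃ P, Feas s n P ∧ h = H1 P (cell n 0)} :=
  ⟨_, by rintro _ ⟨P, -, rfl⟩; exact H1_le P _⟩

lemma le_hsup {s : Fin 3 → ℝ} {n : ℕ} {P : Measure Cfg} (h : Feas s n P) :
    H1 P (cell n 0) ≤ hsup s n := le_csSup (bdd s n) ⟨P, h, rfl⟩

lemma hsup_nonneg (s : Fin 3 → ℝ) (n : ℕ) : 0 ≤ hsup s n :=
  Real.sSup_nonneg (by
    rintro _ ⟨P, hP, rfl⟩
    have := hP.1
    exact H1_nonneg P _)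

lemma mset_adm (T : Finset V) : MeasurableSet {σ : Cfg | Adm T σ} :=
  Loc1.mset (Λ := T) fun _ _ h h' => Adm.congr h' h

lemma adm_mono {T T' : Finset V} (hT : T' ⊆ T) {σ : Cfg} (h : Adm T σ) : Adm T' σ :=
  fun x hx => ⟨(h x (hT hx)).1, fun h' => (h x (hT hx)).2 (hT h')⟩

lemma hsup_two (h : ShanStmt) (s : Fin 3 → ℝ) {n : ℕ} (hn : Even n) :
    hsup s (2 * n) ≤ 8 * hsup s n := by
  refine Real.sSup_le ?_ (mul_nonneg (by norm_num) (hsup_nonneg s n))
  rintro _ ⟨P, ⟨hP, hA, hd⟩, rfl⟩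
  let Q : V → Measure Cfg := fun z => P.map (shift (-((n : ℤ) • z)))
  have hQ : ∀ z, IsProbabilityMeasure (Q z) := fun z =>
    Measure.isProbabilityMeasure_map (measurable_shift _).aemeasurable
  have hQA : ∀ z ∈ cell 2 0, ∀ᵐ σ ∂(Q z), Adm (cell n 0) σ := by
    intro z hz
    refine (ae_map_iff (measurable_shift _).aemeasurable (mset_adm _)).2 (hA.mono fun σ hσ => ?_)
    have := Ent.adm_shift (adm_mono (cell_sub hz) hσ) (-((n : ℤ) • z))
    rwa [cell_image] at this
  let R : Measure Cfg := (8 : ℝ≥0∞)⁻¹ • ∑ z ∈ cell 2 0, Q z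
  have hRr : ∀ B : Set Cfg, R.real B = ∑ z ∈ cell 2 0, (8 : ℝ)⁻¹ • (Q z).real B := by
    intro B
    simp only [R, measureReal_def, Measure.smul_apply, Measure.finsetSum_apply, smul_eq_mul,
      ENNReal.toReal_mul, ENNReal.toReal_inv, ENNReal.toReal_ofNat]
    rw [ENNReal.toReal_sum fun z _ => measure_ne_top _ _, mul_sum]
  have hR : IsProbabilityMeasure R := by
    constructor
    simp only [R, Measure.smul_apply, Measure.finsetSum_apply, measure_univ, sum_const,
      card_cell2, smul_eq_mul, nsmul_eq_mul, mul_one]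
    exact ENNReal.inv_mul_cancel (by norm_num) (by norm_num)
  have hF : Feas s n R := by
    refine ⟨hR, ?_, fun i => ?_⟩
    · refine Measure.ae_smul_measure ?_ _
      rw [ae_iff, Measure.finsetSum_apply]
      exact sum_eq_zero fun z hz => ae_iff.1 (hQA z hz)
    · simp only [R]
      rw [integral_smul_measure, integral_finsetSum_measure fun z hz =>
        integrable_dev s (Q z) i _ ((hQA z hz).mono fun σ hσ x hx => (hσ x hx).1)]
      have e : ∀ z ∈ cell 2 0, ∫ σ, dev s σ i (cell n 0) ∂(Q z) =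
          ∫ σ, dev s σ i (cell n z) ∂P := by
        intro z _
        simp only [Q]
        rw [integral_map (measurable_shift _).aemeasurable
          (measurable_dev s i _).aestronglyMeasurable]
        simp only [dev_shift s _ i hn z]
      rw [sum_congr rfl e, ← integral_finsetSum _ fun z hz =>
        integrable_dev s P i _ (hA.mono fun σ hσ x hx => (hσ x (cell_sub hz hx)).1)]
      have := hd i
      simp only [dev_cells] at this
      rw [this, smul_zero]
  have h1 := H1_sub h P n (hA.mono fun σ hσ x hx => (hσ x hx).1)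
  rw [sum_congr rfl fun z _ => (H1_cell P n z).symm] at h1
  have h2 : ∑ z ∈ cell 2 0, (8 : ℝ)⁻¹ • H1 (Q z) (cell n 0) ≤ H1 R (cell n 0) := by
    simp only [H1, Hv, ent, smul_sum]
    rw [sum_comm]
    refine sum_le_sum fun a _ => ?_
    rw [hRr]
    exact Real.concaveOn_negMulLog.le_map_sum (fun _ _ => by norm_num)
      (by simp [card_cell2]) fun z _ => measureReal_nonneg
  simp only [smul_eq_mul, ← mul_sum] at h2
  have h3 := le_hsup hF
  simp only [Q] at h2
  linarith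

lemma even_pow (k : ℕ) : Even (2 ^ (k + 1)) := by
  rw [pow_succ']; exact even_two_mul _

lemma anti_of {u : ℕ → ℝ} (h : ∀ k, u (2 * 2 ^ (k + 1)) ≤ 8 * u (2 ^ (k + 1))) :
    Antitone fun k : ℕ => u (2 ^ (k + 1)) / 8 ^ (k + 1) := by
  refine antitone_nat_of_succ_le fun k => ?_
  have := h k
  rw [← pow_succ'] at this
  rw [div_le_div_iff₀ (by positivity) (by positivity), pow_succ (8 : ℝ) (k + 1)]
  have h8 : (0 : ℝ) < 8 ^ (k + 1) := by positivity
  nlinarith

lemma hsup_anti (h : ShanStmt) (s : Fin 3 → ℝ) :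
    Antitone fun k : ℕ => hsup s (2 ^ (k + 1)) / 8 ^ (k + 1) :=
  anti_of (u := hsup s) fun k => hsup_two h s (even_pow k)

lemma hsup_tendsto (h : ShanStmt) (s : Fin 3 → ℝ) :
    Tendsto (fun k : ℕ => hsup s (2 ^ (k + 1)) / 8 ^ (k + 1)) atTop (𝓝 (hst s)) :=
  tendsto_atTop_ciInf (hsup_anti h s)
    ⟨0, by rintro _ ⟨k, rfl⟩; exact div_nonneg (hsup_nonneg _ _) (by positivity)⟩

lemma mx_of (h : ShanStmt) {s : Fin 3 → ℝ} {μ : Measure Cfg} (hμ : Mst s μ) : Mx s μ := by
  refine ⟨hμ.1, fun ε hε n0 => ?_⟩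
  obtain ⟨k, hk1, hk2⟩ := (((hsup_tendsto h s).eventually
    (ge_mem_nhds (lt_add_of_pos_right _ hε))).and (eventually_ge_atTop n0)).exists
  refine ⟨2 ^ (k + 1), ?_, even_pow k, fun P hP => ?_⟩
  · have := Nat.lt_two_pow_self (n := k + 1)
    omega
  · have h1 := le_hsup hP
    have h2 := hμ.2 k
    rw [div_le_iff₀ (by positivity)] at hk1
    have e : (((2 ^ (k + 1) : ℕ) : ℝ)) ^ 3 = 8 ^ (k + 1) := by
      push_cast
      rw [← pow_mul, mul_comm, pow_mul]
      norm_num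
    rw [e]
    linarith

lemma negMulLog_add {x y : ℝ} (hx : 0 ≤ x) (hy : 0 ≤ y) :
    Real.negMulLog (x + y) ≤ Real.negMulLog x + Real.negMulLog y := by
  have key : ∀ a b : ℝ, 0 ≤ a → 0 ≤ b → a * Real.log a ≤ a * Real.log (a + b) := by
    intro a b ha hb
    rcases ha.eq_or_lt with rfl | ha'
    · simp
    · exact mul_le_mul_of_nonneg_left (Real.log_le_log ha' (by linarith)) ha
  have h1 := key x y hx hy
  have h2 := key y x hy hx
  rw [add_comm y x] at h2
  simp only [Real.negMulLog]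
  linarith

lemma sum_real_le (P : Measure Cfg) [IsProbabilityMeasure P] (T : Finset V) :
    ∑ a ∈ Ent.Pat1 T, P.real (res1 T ⁻¹' {a}) ≤ 1 := by
  rw [sum_measureReal_preimage_singleton _ fun a _ => mset_res1 T a]
  exact measureReal_le_one

lemma H1_mix {μ ν ν' : Measure Cfg} [IsProbabilityMeasure ν] [IsProbabilityMeasure ν'] {a b : ℝ}
    (ha : 0 ≤ a) (hb : 0 ≤ b) (ha1 : a ≤ 1) (hb1 : b ≤ 1)
    (h : ∀ B, MeasurableSet B → μ.real B = a * ν.real B + b * ν'.real B) (T : Finset V) :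
    H1 μ T ≤ a * H1 ν T + b * H1 ν' T + 2 := by
  have h1 : H1 μ T ≤ ∑ y ∈ Ent.Pat1 T, (ν.real (res1 T ⁻¹' {y}) * Real.negMulLog a +
      a * Real.negMulLog (ν.real (res1 T ⁻¹' {y})) +
      (ν'.real (res1 T ⁻¹' {y}) * Real.negMulLog b +
        b * Real.negMulLog (ν'.real (res1 T ⁻¹' {y})))) := by
    refine sum_le_sum fun y _ => ?_
    rw [← Real.negMulLog_mul, ← Real.negMulLog_mul]
    beta_reduce
    rw [h _ (mset_res1 T y)]
    exact negMulLog_add (mul_nonneg ha measureReal_nonneg) (mul_nonneg hb measureReal_nonneg)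
  simp only [sum_add_distrib, ← mul_sum, ← sum_mul] at h1
  have a1 := Real.negMulLog_nonneg ha ha1
  have a2 := Real.negMulLog_le_one_sub_self ha
  have b1 := Real.negMulLog_nonneg hb hb1
  have b2 := Real.negMulLog_le_one_sub_self hb
  have c1 := mul_le_mul_of_nonneg_right (sum_real_le ν T) a1
  have c2 := mul_le_mul_of_nonneg_right (sum_real_le ν' T) b1
  have e1 : H1 ν T = ∑ y ∈ Ent.Pat1 T, Real.negMulLog (ν.real (res1 T ⁻¹' {y})) := rfl
  have e2 : H1 ν' T = ∑ y ∈ Ent.Pat1 T, Real.negMulLog (ν'.real (res1 T ⁻¹' {y})) := rfl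
  rw [e1, e2]
  linarith

lemma cond_real (μ : Measure Cfg) (A : Set Cfg) {B : Set Cfg} (hB : MeasurableSet B) :
    ((μ A)⁻¹ • μ.restrict A).real B = (μ.real A)⁻¹ * μ.real (A ∩ B) := by
  simp only [measureReal_def, Measure.smul_apply, smul_eq_mul, ENNReal.toReal_mul,
    ENNReal.toReal_inv, Measure.restrict_apply hB, Set.inter_comm]

lemma inv1_cond {s : Fin 3 → ℝ} {μ : Measure Cfg} (h : Inv1 s μ) (hc : CurA s μ) {A : Set Cfg}
    (hA : MeasurableSet A) (hi : ∀ v, Ev v → shift v ⁻¹' A = A) (h0 : μ A ≠ 0) :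
    Inv1 s ((μ A)⁻¹ • μ.restrict A) := by
  have := h.prob
  have ms : ∀ y : V, MeasurableSet {σ : Cfg | σ 0 = y} := fun y =>
    mset_eq (measurable_pi_apply 0) measurable_const
  refine ⟨ProbabilityTheory.cond_isProbabilityMeasure h0,
    Measure.ae_smul_measure (ae_restrict_of_ae h.tiling) _, fun v hv => ?_, fun i => ?_⟩
  · have e := Measure.restrict_map (μ := μ) (measurable_shift v) hA
    rw [h.inv v hv, hi v hv] at e
    rw [Measure.map_smul, ← e]
  · have e1 := cond_real μ A (ms (Pi.single i 1))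
    have e2 := cond_real μ A (ms (-Pi.single i 1))
    have e3 := hc A hA hi i
    have hp : μ.real A ≠ 0 := by
      rw [measureReal_def, ENNReal.toReal_ne_zero]
      exact ⟨h0, measure_ne_top _ _⟩
    simp only [measureReal_def] at e1 e2 e3 hp
    rw [e1, e2, ← mul_sub, e3]
    field_simp

lemma cond_of (h : ShanStmt) {s : Fin 3 → ℝ} {μ : Measure Cfg} (hμ : Mst s μ) (hc : CurA s μ)
    {A : Set Cfg} (hA : MeasurableSet A) (hi : ∀ v, Ev v → shift v ⁻¹' A = A) (h0 : μ A ≠ 0) :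
    Mst s ((μ A)⁻¹ • μ.restrict A) := by
  have := hμ.1.prob
  by_cases h1 : μ Aᶜ = 0
  · have e1 : μ A = 1 := (prob_compl_eq_zero_iff hA).1 h1
    have e2 : μ.restrict A = μ := Measure.restrict_eq_self_of_ae_mem h1
    rw [e1, e2, inv_one, one_smul]
    exact hμ
  have hi' : ∀ v, Ev v → shift v ⁻¹' Aᶜ = Aᶜ := fun v hv => by rw [Set.preimage_compl, hi v hv]
  have i1 := inv1_cond hμ.1 hc hA hi h0
  have i2 := inv1_cond hμ.1 hc hA.compl hi' h1
  refine ⟨i1, fun j => ?_⟩
  have p1 := i1.prob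
  have p2 := i2.prob
  have hp : 0 < μ.real A := ENNReal.toReal_pos h0 (measure_ne_top _ _)
  have hp' : 0 < μ.real Aᶜ := ENNReal.toReal_pos h1 (measure_ne_top _ _)
  have hs : μ.real A + μ.real Aᶜ = 1 := by
    rw [measureReal_add_measureReal_compl hA, probReal_univ]
  have hmix := H1_mix (μ := μ) (ν := (μ A)⁻¹ • μ.restrict A) (ν' := (μ Aᶜ)⁻¹ • μ.restrict Aᶜ)
    hp.le hp'.le (by linarith) (by linarith) (fun B hB => by
      rw [cond_real μ A hB, cond_real μ Aᶜ hB, mul_inv_cancel_left₀ hp.ne',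
        mul_inv_cancel_left₀ hp'.ne', Set.inter_comm A, Set.inter_comm Aᶜ, ← Set.sdiff_eq,
        measureReal_inter_add_sdiff hA])
  generalize (μ A)⁻¹ • μ.restrict A = ν at i1 p1 hmix ⊢
  generalize (μ Aᶜ)⁻¹ • μ.restrict Aᶜ = ν' at i2 p2 hmix
  have hb := anti_of (u := fun n => H1 ν (cell n 0)) fun k => H1_inv h i1 (even_pow k)
  have t1 : Tendsto (fun k : ℕ => (2 : ℝ) / 8 ^ (k + 1)) atTop (𝓝 0) :=
    tendsto_const_nhds.div_atTop ((tendsto_pow_atTop_atTop_of_one_lt (by norm_num)).comp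
      (tendsto_add_atTop_nat 1))
  have t2 := ((tendsto_const_nhds (x := μ.real A * (H1 ν (cell (2 ^ (j + 1)) 0) / 8 ^ (j + 1)))).add
    ((hsup_tendsto h s).const_mul (μ.real Aᶜ))).add t1
  have t3 : hst s ≤ μ.real A * (H1 ν (cell (2 ^ (j + 1)) 0) / 8 ^ (j + 1)) + μ.real Aᶜ * hst s + 0 := by
    refine ge_of_tendsto t2 ((eventually_ge_atTop j).mono fun k hk => ?_)
    have h8 : (0 : ℝ) < 8 ^ (k + 1) := by positivity
    have a1 := hμ.2 k
    have a2 := hmix (cell (2 ^ (k + 1)) 0)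
    have a3 := mul_le_mul_of_nonneg_left (le_hsup (feas_of i2 (2 ^ (k + 1)))) hp'.le
    have a4 := mul_le_mul_of_nonneg_left (hb hk) hp.le
    have a5 : hst s ≤ μ.real A * (H1 ν (cell (2 ^ (k + 1)) 0) / 8 ^ (k + 1)) +
        μ.real Aᶜ * (hsup s (2 ^ (k + 1)) / 8 ^ (k + 1)) + 2 / 8 ^ (k + 1) := by
      rw [← mul_div_assoc, ← mul_div_assoc, ← add_div, ← add_div, le_div_iff₀ h8]
      linarith
    linarith
  have t4 : μ.real A * hst s ≤ μ.real A * (H1 ν (cell (2 ^ (j + 1)) 0) / 8 ^ (j + 1)) := by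
    have : μ.real Aᶜ * hst s = hst s - μ.real A * hst s := by
      rw [show μ.real Aᶜ = 1 - μ.real A by linarith]; ring
    linarith
  have t5 := le_of_mul_le_mul_left t4 hp
  rw [le_div_iff₀ (by positivity)] at t5
  linarith

lemma exists_adm {μ : Measure Cfg} [IsProbabilityMeasure μ] (h : ∀ᵐ σ ∂μ, IsTiling σ)
    (Λ : Finset V) : ∃ τ, Adm Λ τ ∧ μ (cylG Λ τ) ≠ 0 := by
  by_contra hn
  push Not at hn
  have h1 : ∀ᵐ σ ∂μ, ∀ τ ∈ Ent.Pat1 Λ, Adm Λ τ → σ ∉ cylG Λ τ := by
    refine (eventually_all_finset _).2 fun τ _ => ?_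
    by_cases hτ : Adm Λ τ
    · exact (measure_eq_zero_iff_ae_notMem.1 (hn τ hτ)).mono fun σ hσ _ => hσ
    · exact Eventually.of_forall fun σ h' => absurd h' hτ
  obtain ⟨σ, a1, a2⟩ := (h.and h1).exists
  refine a2 (res1 Λ σ) (res1_mem fun x _ => (a1 x).1)
    ((a1.adm Λ).congr fun x hx => by simp [res1, hx]) fun x hx => by simp [res1, hx]

lemma gibbs_of {μ : Measure Cfg} [IsProbabilityMeasure μ] (h : ∀ᵐ σ ∂μ, IsTiling σ)
    (hs : SwpInv (μ.prod μ)) (Λ : Finset V) {τ₁ τ₂ : Cfg} (h1 : Adm Λ τ₁) (h2 : Adm Λ τ₂)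
    (h3 : SameBd Λ τ₁ τ₂) {A : Set Cfg} (hA : MeasurableSet A)
    (hl : ∀ σ σ' : Cfg, (∀ y, y ∉ Λ → σ y = σ' y) → σ ∈ A → σ' ∈ A) :
    μ (cylG Λ τ₁ ∩ A) = μ (cylG Λ τ₂ ∩ A) := by
  obtain ⟨τ, a1, a2⟩ := exists_adm h Λ
  have hw : Swp Λ (τ₁, τ) (τ₂, τ) := ⟨h1, a1, h2, a1, h3, fun _ _ _ => rfl⟩
  have e := swap_meas hs hw (hA.prod MeasurableSet.univ)
  have e1 : ovr Λ (τ₂, τ) ⁻¹' (A ×ˢ Set.univ) ∩ cyl Λ (τ₁, τ) = (cylG Λ τ₁ ∩ A) ×ˢ cylG Λ τ := by
    ext p
    rw [cyl_eq_prod]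
    simp only [Set.mem_inter_iff, Set.mem_preimage, Set.mem_prod, Set.mem_univ, and_true]
    have : (ovr Λ (τ₂, τ) p).1 ∈ A ↔ p.1 ∈ A :=
      ⟨hl _ _ fun y hy => by simp [ovr, hy], hl _ _ fun y hy => by simp [ovr, hy]⟩
    rw [this]
    tauto
  have e2 : (A ×ˢ Set.univ) ∩ cyl Λ (τ₂, τ) = (cylG Λ τ₂ ∩ A) ×ˢ cylG Λ τ := by
    ext p
    rw [cyl_eq_prod]
    simp only [Set.mem_inter_iff, Set.mem_prod, Set.mem_univ, and_true]
    tauto
  rw [e1, e2, Measure.prod_prod, Measure.prod_prod] at e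
  exact (ENNReal.mul_left_inj a2 (measure_ne_top _ _)).1 e

end Mst

theorem mst_of (h : ShanStmt) : MstStmt :=
  ⟨fun _ _ hμ => Mst.mx_of h hμ, fun _ _ hμ hc _ hA hi h0 => Mst.cond_of h hμ hc hA hi h0⟩

theorem exist_of (hE : ExtStmt) (hM : MstStmt) (hP : PairStmt) (hF : FlipStmt) (hC : CurStmt) :
    ExistStmt := by
  intro s hs
  obtain ⟨μ, hμ, hext⟩ := hE s hs
  have := hμ.1.prob
  have hx := hM.mx s μ hμ
  obtain ⟨f1, f2, f3, f4⟩ := hF s μ hμ.1
  have hmp : ∀ v, Ev v → MeasurePreserving (shift v) μ μ := fun v hv =>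
    ⟨measurable_shift v, hμ.1.inv v hv⟩
  have hev : EvInv (μ.prod μ) := fun v hv => (hmp v hv).prod (hmp v hv)
  have s1 : SwpInv (μ.prod μ) := hP s μ (μ.prod μ) 0 hx hev
    (by rw [(measurePreserving_fst (μ := μ) (ν := μ)).map_eq]; exact hμ.1)
    (by rw [(measurePreserving_snd (μ := μ) (ν := μ)).map_eq]; exact hμ.1)
    fun n => by simpa using f1 n
  have : IsProbabilityMeasure (nu μ) := Measure.isProbabilityMeasure_map measurable_fl.aemeasurable
  have s2 : SwpInv (nu μ) := hP s μ (nu μ) 6 hx (fl_evInv hev) f3 f4 fun n => (f1 n).trans (f2 n)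
  have hc := hC s μ hs hμ.1 s2
  refine ⟨μ, hμ.1.prob, hμ.1.tiling, fun Λ τ₁ τ₂ h1 h2 h3 A hA hl =>
    Mst.gibbs_of hμ.1.tiling s1 Λ h1 h2 h3 hA hl, hμ.1.inv, fun A hA hi => ?_, hμ.1.cur⟩
  by_contra hn
  obtain ⟨h0, h1⟩ := not_or.1 hn
  have h0' : μ Aᶜ ≠ 0 := fun e => h1 ((prob_compl_eq_zero_iff hA).1 e)
  have hi' : ∀ v, Ev v → shift v ⁻¹' Aᶜ = Aᶜ := fun v hv => by
    rw [Set.preimage_compl]; exact congrArg _ (hi v hv)
  have e := hext _ _ (μ A) (hM.cond s μ hμ hc A hA hi h0) (hM.cond s μ hμ hc Aᶜ hA.compl hi' h0')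
    (pos_iff_ne_zero.2 h0) (lt_of_le_of_ne prob_le_one h1) (by
      rw [← prob_compl_eq_one_sub hA, smul_smul, smul_smul,
        ENNReal.mul_inv_cancel h0 (measure_ne_top _ _),
        ENNReal.mul_inv_cancel h0' (measure_ne_top _ _), one_smul, one_smul,
        Measure.restrict_add_restrict_compl hA])
  have e2 := congrArg (fun m : Measure Cfg => m A) e
  simp only [Measure.smul_apply, Measure.restrict_apply_self, smul_eq_mul] at e2
  rw [ENNReal.inv_mul_cancel h0 (measure_ne_top _ _)] at e2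
  exact h1 e2.symm

end Pool.Agent.Lib.MP_640444_pr
end

-- part Pool.Agent.Lib.MP_640444_pr.PairB
section

/-!
Maximal entropy implies the Gibbs property for pairs.
-/

set_option autoImplicit false
open MeasureTheory Filter Finset
open scoped Classical Topology ENNReal

namespace Pool.Agent.Lib.MP_640444_pr

namespace PairB

open Ent

lemma sym {α : Type} (G : Finset α) (r : α → α → Prop) (P : α → ℝ) (hP : ∀ x, 0 ≤ P x) :
    ∃ w : α → ℝ, (∀ x, 0 ≤ w x) ∧ (∀ x y, r x y → w x = w y) ∧ (∀ x ∈ G, P x ≠ 0 → w x ≠ 0) ∧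
      ∀ φ : α → ℝ, (∀ x y, r x y → φ x = φ y) → ∑ x ∈ G, w x * φ x = ∑ x ∈ G, P x * φ x := by
  let cl : α → Finset α := fun x => G.filter (Relation.EqvGen r x)
  have hcl : ∀ x y, Relation.EqvGen r x y → cl x = cl y := fun x y h =>
    filter_congr fun z _ => ⟨fun a => (h.symm _ _).trans _ _ _ a, fun a => h.trans _ _ _ a⟩
  have hm : ∀ x ∈ G, x ∈ cl x := fun x hx => mem_filter.2 ⟨hx, Relation.EqvGen.refl x⟩
  refine ⟨fun x => (∑ y ∈ cl x, P y) / (cl x).card,
    fun x => div_nonneg (sum_nonneg fun y _ => hP y) (by positivity),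
    fun x y h => by simp only [hcl x y (Relation.EqvGen.rel _ _ h)], fun x hx h => ?_,
    fun φ hφ => ?_⟩
  · exact (div_pos (((hP x).lt_of_ne' h).trans_le (single_le_sum (fun y _ => hP y) (hm x hx)))
      (by exact_mod_cast card_pos.2 ⟨x, hm x hx⟩)).ne'
  · have hφ' : ∀ x y, Relation.EqvGen r x y → φ x = φ y := fun x y h => by
      induction h with
      | rel a b h => exact hφ a b h
      | refl => rfl
      | symm _ _ _ ih => exact ih.symm
      | trans _ _ _ _ _ ih ih' => exact ih.trans ih'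
    have e1 : ∀ x ∈ G, (∑ y ∈ cl x, P y) / (cl x).card * φ x =
        ∑ y ∈ G, if Relation.EqvGen r y x then P y * φ y / (cl y).card else 0 := fun x _ => by
      rw [sum_div, sum_mul, sum_filter]
      refine sum_congr rfl fun y _ => ?_
      by_cases h : Relation.EqvGen r x y
      · rw [if_pos h, if_pos (h.symm _ _), hcl x y h, hφ' x y h]; ring
      · rw [if_neg h, if_neg fun c => h (c.symm _ _)]
    rw [sum_congr rfl e1, sum_comm]
    refine sum_congr rfl fun y hy => ?_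
    rw [← sum_filter, sum_const, nsmul_eq_mul]
    exact mul_div_cancel₀ _ (by exact_mod_cast (card_pos.2 ⟨y, hm y hy⟩).ne')

lemma sum_prod_w {α ι : Type} (G : Finset α) (Z : Finset ι) (io : ι → α → α) (g : ι → α → ℝ)
    (w : α → ℝ) (w0 : ∀ x, 0 ≤ w x) (hw : ∀ z ∈ Z, ∀ x ∈ G, w (io z x) = w x)
    (hG : ∀ z ∈ Z, ∀ x ∈ G, io z x ∈ G) (hi : ∀ z ∈ Z, ∀ x, io z (io z x) = x)
    (h0 : ∀ z x, 0 ≤ g z x) (h2 : ∀ z ∈ Z, ∀ x, g z x + g z (io z x) ≤ 2)
    (hc : ∀ z ∈ Z, ∀ z' ∈ Z, z ≠ z' → ∀ x, g z' (io z x) = g z' x) :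
    ∑ x ∈ G, w x * ∏ z ∈ Z, g z x ≤ ∑ x ∈ G, w x := by
  induction Z using Finset.induction_on with
  | empty => simp
  | insert z Z hz ih =>
    have hm := mem_insert_self z Z
    have ih' := ih (fun a ha => hw a (mem_insert_of_mem ha))
      (fun a ha => hG a (mem_insert_of_mem ha)) (fun a ha => hi a (mem_insert_of_mem ha))
      (fun a ha => h2 a (mem_insert_of_mem ha))
      (fun a ha b hb => hc a (mem_insert_of_mem ha) b (mem_insert_of_mem hb))
    simp only [prod_insert hz]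
    have hH : ∀ x, ∏ z' ∈ Z, g z' (io z x) = ∏ z' ∈ Z, g z' x := fun x =>
      prod_congr rfl fun z' hz' => hc z hm z' (mem_insert_of_mem hz') (fun e => hz (e ▸ hz')) x
    have e1 : ∑ x ∈ G, w x * (g z x * ∏ z' ∈ Z, g z' x) =
        ∑ x ∈ G, w x * (g z (io z x) * ∏ z' ∈ Z, g z' x) := by
      refine sum_nbij' (io z) (io z) (hG z hm) (hG z hm) (fun x _ => hi z hm x)
        (fun x _ => hi z hm x) fun x hx => ?_
      rw [hi z hm, hH, hw z hm x hx]
    have e2 : ∑ x ∈ G, w x * (g z x * ∏ z' ∈ Z, g z' x) +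
        ∑ x ∈ G, w x * (g z (io z x) * ∏ z' ∈ Z, g z' x) ≤
        2 * ∑ x ∈ G, w x * ∏ z' ∈ Z, g z' x := by
      rw [← sum_add_distrib, mul_sum]
      refine sum_le_sum fun x _ => ?_
      have := mul_le_mul_of_nonneg_left (mul_le_mul_of_nonneg_right (h2 z hm x)
        (prod_nonneg (s := Z) fun z' _ => h0 z' x)) (w0 x)
      linarith
    linarith

lemma sum_in {Λ : Finset V} {y : Cfg} (h : Adm Λ y) (i : Fin 3) :
    ∑ x ∈ Λ with (Ev x ∧ y x ∈ Λ), y x i = ∑ x ∈ Λ with (¬ Ev x ∧ y x ∈ Λ), x i := by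
  refine sum_nbij' y y (fun x hx => ?_) (fun x hx => ?_) (fun x hx => ?_) (fun x hx => ?_)
    fun _ _ => rfl <;> rw [mem_filter] at hx
  · exact mem_filter.2 ⟨hx.2.2, fun c => (h x hx.1).1.ev.1 c hx.2.1,
      by rw [(h x hx.1).2 hx.2.2]; exact hx.1⟩
  · exact mem_filter.2 ⟨hx.2.2, (h x hx.1).1.ev.2 hx.2.1, by rw [(h x hx.1).2 hx.2.2]; exact hx.1⟩
  · exact (h x hx.1).2 hx.2.2
  · exact (h x hx.1).2 hx.2.2

lemma sum_swap {Λ : Finset V} {y y' : Cfg} (h : Adm Λ y) (h' : Adm Λ y') (hb : SameBd Λ y y')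
    (i : Fin 3) : ∑ x ∈ Λ with Ev x, y x i = ∑ x ∈ Λ with Ev x, y' x i := by
  have e : ∀ x ∈ Λ, y x ∈ Λ ↔ y' x ∈ Λ := fun x hx =>
    ⟨fun a => by_contra fun b => b (hb x hx (Or.inr b) ▸ a),
      fun a => by_contra fun b => b ((hb x hx (Or.inl b)).symm ▸ a)⟩
  rw [← sum_filter_add_sum_filter_not _ (fun x => y x ∈ Λ),
    ← sum_filter_add_sum_filter_not (filter Ev Λ) (fun x => y' x ∈ Λ), filter_filter, filter_filter,
    filter_filter, filter_filter, sum_in h, sum_in h']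
  congr 1
  · exact sum_congr (filter_congr fun x hx => and_congr_right fun _ => e x hx) fun _ _ => rfl
  · refine sum_congr (filter_congr fun x hx => and_congr_right fun _ => (e x hx).not) fun x hx => ?_
    rw [mem_filter] at hx
    rw [hb x hx.1 (Or.inr hx.2.2)]

lemma dev_patch (s : Fin 3 → ℝ) {T Λ S : Finset V} (hΛ : Λ ⊆ S) (hT : S ⊆ T) {x y y' : Cfg}
    (h : Adm Λ y) (h' : Adm Λ y') (hb : SameBd Λ y y') (hS : ∀ v ∈ S, v ∉ Λ → y v = y' v)
    (hxy : ∀ v ∈ S, x v = y v) (i : Fin 3) :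
    dev s (fun v => if v ∈ S then y' v else x v) i T = dev s x i T := by
  have key : ∑ v ∈ T with Ev v, (if v ∈ S then y' v else x v) i = ∑ v ∈ T with Ev v, x v i := by
    have e : filter (fun v => v ∈ Λ) (filter Ev T) = filter Ev Λ := by
      ext v
      simp only [mem_filter]
      exact ⟨fun a => ⟨a.2, a.1.2⟩, fun a => ⟨⟨hT (hΛ a.1), a.2⟩, a.1⟩⟩
    rw [← sum_filter_add_sum_filter_not _ (fun v => v ∈ Λ),
      ← sum_filter_add_sum_filter_not (filter Ev T) (fun v => v ∈ Λ), e]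
    congr 1
    · rw [sum_congr rfl fun v hv => by rw [if_pos (hΛ (mem_filter.1 hv).1)],
        ← sum_swap h h' hb]
      exact sum_congr rfl fun v hv => by rw [hxy v (hΛ (mem_filter.1 hv).1)]
    · refine sum_congr rfl fun v hv => ?_
      split_ifs with c
      · rw [hxy v c, hS v c (mem_filter.1 hv).2]
      · rfl
  unfold dev
  simp only [sum_sub_distrib, Int.cast_sub]
  rw [← Int.cast_sum, ← Int.cast_sum (f := fun v => x v i), key]

/-- admissible double patterns -/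
noncomputable def GA (T : Finset V) : Finset Om := (Pat T).filter fun x => Adm T x.1 ∧ Adm T x.2

/-- a window inside `T` -/
structure Wn (T S : Finset V) (y y' : Om) : Prop where
  sub : S ⊆ T
  ex : ∃ Λ ⊆ S, Swp Λ y y' ∧ ∀ v ∈ S, v ∉ Λ → y.1 v = y'.1 v ∧ y.2 v = y'.2 v
  dis : ∀ x, x ∈ cyl S y → x ∉ cyl S y'

lemma Wn.symm {T S : Finset V} {y y' : Om} (h : Wn T S y y') : Wn T S y' y := by
  obtain ⟨Λ, h1, h2, h3⟩ := h.ex
  exact ⟨h.sub, ⟨Λ, h1, swp_symm h2, fun v a b => ⟨(h3 v a b).1.symm, (h3 v a b).2.symm⟩⟩,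
    fun x a b => h.dis x b a⟩

lemma Wn.pch (s : Fin 3 → ℝ) {T S : Finset V} {y y' x : Om} (h : Wn T S y y') (hx : x ∈ GA T)
    (hxy : x ∈ cyl S y) : pch S y' x ∈ GA T ∧ ∀ i, dev s (pch S y' x).1 i T = dev s x.1 i T ∧
      dev s (pch S y' x).2 i T = dev s x.2 i T := by
  obtain ⟨Λ, hΛ, hy, hyS⟩ := h.ex
  obtain ⟨hp, a1, a2⟩ := mem_filter.1 hx
  have c1 := adm_patch hΛ a1 hy.2.2.1 hy.2.2.2.2.1 (fun v h h' => (hyS v h h').1)
    fun v h => (hxy v h).1
  have c2 := adm_patch hΛ a2 hy.2.2.2.1 hy.2.2.2.2.2 (fun v h h' => (hyS v h h').2)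
    fun v h => (hxy v h).2
  obtain ⟨p1, p2⟩ := mem_product.1 hp
  refine ⟨mem_filter.2 ⟨mem_product.2 ⟨mem_Pat1.2 ⟨fun v hv => Adj.sub_mem (c1 v hv).1,
    fun v hv => ?_⟩, mem_Pat1.2 ⟨fun v hv => Adj.sub_mem (c2 v hv).1, fun v hv => ?_⟩⟩, c1, c2⟩,
    fun i => ⟨dev_patch s hΛ h.sub hy.1 hy.2.2.1 hy.2.2.2.2.1 (fun v h h' => (hyS v h h').1)
      (fun v h => (hxy v h).1) i, dev_patch s hΛ h.sub hy.2.1 hy.2.2.2.1 hy.2.2.2.2.2
      (fun v h h' => (hyS v h h').2) (fun v h => (hxy v h).2) i⟩⟩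
  · simp [Ent.pch, (show v ∉ S from fun c => hv (h.sub c)), (mem_Pat1.1 p1).2 v hv]
  · simp [Ent.pch, (show v ∉ S from fun c => hv (h.sub c)), (mem_Pat1.1 p2).2 v hv]

lemma Wn.exch (s : Fin 3 → ℝ) {T S : Finset V} {y y' x : Om} (h : Wn T S y y') (hx : x ∈ GA T) :
    exch S y y' x ∈ GA T ∧ ∀ i, dev s (exch S y y' x).1 i T = dev s x.1 i T ∧
      dev s (exch S y y' x).2 i T = dev s x.2 i T := by
  unfold Ent.exch
  split_ifs with a b
  · exact h.pch s hx a
  · exact h.symm.pch s hx b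
  · exact ⟨hx, fun _ => ⟨rfl, rfl⟩⟩

lemma dev_res (s : Fin 3 → ℝ) (T : Finset V) (σ : Cfg) (i : Fin 3) :
    dev s (res1 T σ) i T = dev s σ i T :=
  sum_congr rfl fun v hv => by simp [res1, (mem_filter.1 hv).1]

lemma fin_vol (h : ShanStmt) {s : Fin 3 → ℝ} {ν : Measure Om} [IsProbabilityMeasure ν]
    (h1 : Inv1 s (ν.map Prod.fst)) (h2 : Inv1 s (ν.map Prod.snd)) (n : ℕ) {ι : Type}
    (Z : Finset ι) (S : ι → Finset V) (y y' : ι → Om)
    (hW : ∀ z ∈ Z, Wn (cell n 0) (S z) (y z) (y' z))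
    (hd : ∀ z ∈ Z, ∀ z' ∈ Z, z ≠ z' → Disjoint (S z) (S z')) {D B : ℝ}
    (hq : ∀ z ∈ Z, ν.real (cyl (S z) (y z)) - ν.real (cyl (S z) (y' z)) = D)
    (hB : ∀ P, Feas s n P → H1 P (cell n 0) ≤ B) :
    H2 ν (cell n 0) + Z.card * D ^ 2 / 2 ≤ 2 * B := by
  set T := cell n 0 with hT
  have hr : ∀ a, MeasurableSet (res T ⁻¹' {a}) := fun a =>
    ShanAux.measurable_res _ (measurableSet_singleton a)
  have ht : ∀ᵐ p ∂ν, Til p := by
    filter_upwards [ae_of_ae_map measurable_fst.aemeasurable h1.tiling,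
      ae_of_ae_map measurable_snd.aemeasurable h2.tiling] with p a b using ⟨a, b⟩
  have hae : ∀ᵐ p ∂ν, res T p ∈ GA T := ht.mono fun p hp =>
    mem_filter.2 ⟨ShanAux.res_mem hp, adm_res hp.1, adm_res hp.2⟩
  set P : Om → ℝ := fun a => ν.real (res T ⁻¹' {a}) with hP
  obtain ⟨w, w0, w1, w2, w3⟩ := sym (GA T)
    (fun x x' => x ∈ GA T ∧ ∃ z ∈ Z, x' = exch (S z) (y z) (y' z) x) P fun _ => measureReal_nonneg
  have sP : ∑ a ∈ GA T, P a = 1 := ShanAux.sum_real ν hr hae
  have sw : ∑ a ∈ GA T, w a = 1 := by simpa [sP] using w3 (fun _ => 1) fun _ _ _ => rfl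
  -- the symmetrised measure
  let m : Measure Om := ∑ a ∈ GA T, ENNReal.ofReal (w a) • Measure.dirac a
  have mA : ∀ A : Set Om, MeasurableSet A → m.real A = ∑ a ∈ GA T, if a ∈ A then w a else 0 := by
    intro A hA
    simp only [m, measureReal_def, Measure.coe_finsetSum, Finset.sum_apply, Measure.smul_apply,
      Measure.dirac_apply' _ hA, smul_eq_mul]
    rw [ENNReal.toReal_sum fun a _ => ENNReal.mul_ne_top ENNReal.ofReal_ne_top (by
      by_cases c : a ∈ A <;> simp [c])]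
    refine sum_congr rfl fun a _ => ?_
    by_cases c : a ∈ A <;> simp [c, w0 a]
  have mfin : m Set.univ ≠ ∞ := by
    simp [m, ENNReal.sum_eq_top]
  have : IsProbabilityMeasure m := ⟨by
    rw [← ofReal_measureReal mfin, mA _ MeasurableSet.univ]; simp [sw]⟩
  have mG : ∀ᵐ a ∂m, a ∈ GA T := by
    rw [ae_iff, ← measureReal_eq_zero_iff (measure_ne_top _ _),
      mA {a | ¬a ∈ GA T} (GA T).measurableSet.compl]
    exact sum_eq_zero fun a ha => if_neg (not_not.2 ha)
  have rG : ∀ a ∈ GA T, res T a = a := fun a ha => res_of_mem_Pat (mem_filter.1 ha).1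
  have mw : ∀ a ∈ GA T, m.real (res T ⁻¹' {a}) = w a := fun a ha => by
    rw [mA _ (hr a), sum_eq_single_of_mem a ha]
    · exact if_pos (show a ∈ res T ⁻¹' {a} from rG a ha)
    · exact fun b hb hne => if_neg fun c => hne ((rG b hb).symm.trans c)
  have mG' : ∀ᵐ a ∂m, res T a ∈ GA T := mG.mono fun a ha => by rwa [rG a ha]
  have feas : ∀ π : Om → Cfg, (π = Prod.fst ∨ π = Prod.snd) → Inv1 s (ν.map π) →
      Feas s n (m.map π) := by
    intro π hπ hi
    have mπ : Measurable π := by rcases hπ with rfl | rfl; exacts [measurable_fst, measurable_snd]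
    have eπ : ∀ p, π (res T p) = res1 T (π p) := fun p => by
      rw [ShanAux.res_eq]; rcases hπ with rfl | rfl <;> rfl
    refine ⟨Measure.isProbabilityMeasure_map mπ.aemeasurable, ?_, fun i => ?_⟩
    · have : Loc1 T {σ | Adm T σ} := fun σ σ' a b => Adm.congr b a
      refine (ae_map_iff mπ.aemeasurable this.mset).2 (mG.mono fun a ha => ?_)
      rcases hπ with rfl | rfl
      exacts [(mem_filter.1 ha).2.1, (mem_filter.1 ha).2.2]
    · have e0 := (Mst.feas_of hi n).2.2 i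
      rw [integral_map mπ.aemeasurable (Mst.measurable_dev s i _).aestronglyMeasurable] at e0 ⊢
      have e1 := ShanAux.integral_comp m hr mG' fun a => dev s (π a) i T
      have e2 := ShanAux.integral_comp ν hr hae fun a => dev s (π a) i T
      simp only [eπ, dev_res] at e1 e2
      rw [e1, sum_congr rfl fun a ha => by rw [mw a ha], w3, ← e2, e0]
      rintro x _ ⟨hx, z, hz, rfl⟩
      rcases hπ with rfl | rfl
      exacts [(((hW z hz).exch s hx).2 i).1.symm, (((hW z hz).exch s hx).2 i).2.symm]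
  have k1 : Hv m (res T) (GA T) ≤ 2 * B := by
    have := ShanAux.shan2 h m (res T) (GA T) (fun p => res1 T p.1) (Pat1 T) (fun p => res1 T p.2)
      (Pat1 T) (GA T) hr (fun a => measurable_fst (Mst.mset_res1 T a))
      (fun a => measurable_snd (Mst.mset_res1 T a)) mG (fun a ha => ⟨by rwa [rG a ha],
        Mst.res1_mem fun x hx => ((mem_filter.1 ha).2.1 x hx).1,
        Mst.res1_mem fun x hx => ((mem_filter.1 ha).2.2 x hx).1⟩)
      fun a _ b _ e1 e2 => by rw [ShanAux.res_eq, ShanAux.res_eq, e1, e2]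
    have b1 := hB _ (feas _ (Or.inl rfl) h1)
    have b2 := hB _ (feas _ (Or.inr rfl) h2)
    rw [H1, ShanAux.hv_map measurable_fst (Mst.mset_res1 T)] at b1
    rw [H1, ShanAux.hv_map measurable_snd (Mst.mset_res1 T)] at b2
    linarith
  have k2 : H2 ν T = ent (GA T) P := by
    refine (sum_subset (filter_subset _ _) fun a _ ha => ?_).symm
    have : ν.real (res T ⁻¹' {a}) = 0 := by
      rw [measureReal_eq_zero_iff]
      exact measure_eq_zero_iff_ae_notMem.2 (hae.mono fun p hp c => ha ((show res T p = a from c) ▸ hp))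
    simp [this]
  set g : ι → Om → ℝ := fun z x => Real.exp (D * phi (S z) (y z) (y' z) x - D ^ 2 / 2) with hg
  have k3 : ∑ x ∈ GA T, w x * ∏ z ∈ Z, g z x ≤ ∑ x ∈ GA T, w x := by
    refine sum_prod_w _ Z (fun z => exch (S z) (y z) (y' z)) g w w0
      (fun z hz x hx => (w1 _ _ ⟨hx, z, hz, rfl⟩).symm) (fun z hz x hx => ((hW z hz).exch s hx).1)
      (fun z hz x => ?_) (fun _ _ => (Real.exp_pos _).le) (fun z hz x => ?_)
      fun z hz z' hz' h x => ?_
    · by_cases a : x ∈ cyl (S z) (y z)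
      · have := fun h => (hW z hz).dis _ h (pch_mem (S z) (y' z) x)
        simp only [exch, if_pos a, if_neg this, if_pos (pch_mem _ _ _), pch_pch, pch_self a]
      · by_cases b : x ∈ cyl (S z) (y' z)
        · simp only [exch, if_neg a, if_pos b, if_pos (pch_mem _ _ _), pch_pch, pch_self b]
        · simp only [exch, if_neg a, if_neg b]
    · have e1 : phi (S z) (y z) (y' z) (exch (S z) (y z) (y' z) x) =
          -phi (S z) (y z) (y' z) x := by
        by_cases a : x ∈ cyl (S z) (y z)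
        · have : pch (S z) (y' z) x ∉ cyl (S z) (y z) :=
            fun h => (hW z hz).dis _ h (pch_mem (S z) (y' z) x)
          simp [phi, exch, a, this, pch_mem, (hW z hz).dis _ a]
        · by_cases b : x ∈ cyl (S z) (y' z)
          · simp [phi, exch, a, b, pch_mem, (hW z hz).dis _ (pch_mem (S z) (y z) x)]
          · simp [phi, exch, a, b]
      simp only [hg]
      rw [e1]
      set u := phi (S z) (y z) (y' z) x
      have e2 := Real.cosh_le_exp_half_sq (D * u)
      have e3 : (D * u) ^ 2 / 2 ≤ D ^ 2 / 2 := by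
        have := sq_le_one_iff_abs_le_one u |>.2 (abs_phi_le _ _ _ _)
        nlinarith [sq_nonneg D]
      have e4 := e2.trans (Real.exp_le_exp.2 e3)
      rw [Real.cosh_eq] at e4
      rw [Real.exp_sub, Real.exp_sub, ← add_div, div_le_iff₀ (Real.exp_pos _), mul_neg]
      linarith
    · have : ∀ v, exch (S z) (y z) (y' z) x ∈ cyl (S z') v ↔ x ∈ cyl (S z') v := fun v => by
        unfold exch
        split_ifs
        · exact pch_mem_iff (hd z hz z' hz' h) _ _ _
        · exact pch_mem_iff (hd z hz z' hz' h) _ _ _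
        · rfl
      simp only [hg, phi, this]
  have gp : ∀ x, 0 < ∏ z ∈ Z, g z x := fun x => prod_pos fun _ _ => Real.exp_pos _
  have k4 := gibbs_ineq (GA T) (w := P) (q := fun x => w x * ∏ z ∈ Z, g z x)
    (fun _ _ => measureReal_nonneg) (fun x _ => mul_nonneg (w0 x) (gp x).le)
    (k3.trans (sw.trans sP.symm).le) fun x hx c => mul_ne_zero (w2 x hx c) (gp x).ne'
  have k5 : ∑ x ∈ GA T, P x * Real.log (w x * ∏ z ∈ Z, g z x) =
      ∑ x ∈ GA T, P x * Real.log (w x) +
        ∑ z ∈ Z, ∑ x ∈ GA T, P x * (D * phi (S z) (y z) (y' z) x - D ^ 2 / 2) := by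
    rw [sum_comm, ← sum_add_distrib]
    refine sum_congr rfl fun x hx => ?_
    by_cases c : P x = 0
    · simp [c]
    · rw [Real.log_mul (w2 x hx c) (gp x).ne', ← Real.exp_sum, Real.log_exp, mul_add, mul_sum]
  have k6 : ∀ z ∈ Z, ∑ x ∈ GA T, P x * (D * phi (S z) (y z) (y' z) x - D ^ 2 / 2) = D ^ 2 / 2 := by
    intro z hz
    have e := fun v => real_eq_sum ν (res T) (GA T) hr hae fun u => u ∈ cyl (S z) v
    simp only [res_mem_iff (hW z hz).sub, Set.ofPred_mem_eq] at e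
    have e2 : ∑ x ∈ GA T, P x * phi (S z) (y z) (y' z) x = D := by
      rw [← hq z hz, e, e, ← sum_sub_distrib]
      exact sum_congr rfl fun u _ => by simp only [phi, mul_sub, mul_ite, mul_one, mul_zero, hP]
    have : ∀ u, P u * (D * phi (S z) (y z) (y' z) u - D ^ 2 / 2) =
        D * (P u * phi (S z) (y z) (y' z) u) - D ^ 2 / 2 * P u := fun u => by ring
    simp only [this]
    rw [sum_sub_distrib, ← mul_sum, ← mul_sum, e2, sP]
    ring
  have k7 : Hv m (res T) (GA T) = -∑ x ∈ GA T, P x * Real.log (w x) := by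
    rw [← w3 _ fun x x' c => by rw [w1 x x' c], ← sum_neg_distrib]
    exact sum_congr rfl fun a ha => by simp only [mw a ha, Real.negMulLog]; ring
  rw [k5, sum_congr rfl k6, sum_const, nsmul_eq_mul] at k4
  linarith

lemma not_lt (h : ShanStmt) {s : Fin 3 → ℝ} {μ : Measure Cfg} {ν : Measure Om}
    [IsProbabilityMeasure ν] {C : ℝ} (hμ : Mx s μ) (hν : EvInv ν) (h1 : Inv1 s (ν.map Prod.fst))
    (h2 : Inv1 s (ν.map Prod.snd))
    (hC : ∀ n : ℕ, 2 * H1 μ (cell n 0) ≤ H2 ν (cell n 0) + C * (n : ℝ) ^ 2) {Λ S : Finset V}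
    (hΛ : Λ ⊆ S) {y y' : Om} (hy : Swp Λ y y')
    (hS : ∀ x ∈ S, x ∉ Λ → y.1 x = y'.1 x ∧ y.2 x = y'.2 x) :
    ν.real (cyl S y) ≤ ν.real (cyl S y') := by
  by_contra hlt
  rw [not_le, ← sub_pos] at hlt
  set D := ν.real (cyl S y) - ν.real (cyl S y') with hD
  have hne : y ∉ cyl S y' := fun h => by
    have : cyl S y = cyl S y' := by
      ext x
      rw [← res_eq_iff, ← res_eq_iff, res_eq_iff.2 h]
    simp [hD, this] at hlt
  obtain ⟨w, hw⟩ := Ent.exists_box S
  obtain ⟨k, hk⟩ : ∃ k : ℕ, k = 2 * (w + 1) := ⟨_, rfl⟩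
  have hk0 : 0 < k := by omega
  have hk1 : (0 : ℝ) < k := by exact_mod_cast hk0
  set ε : ℝ := D ^ 2 / (300 * k ^ 3) with hε
  have hε0 : 0 < ε := by positivity
  obtain ⟨N, hN⟩ := exists_nat_gt (|C| / ε)
  obtain ⟨n, hn, -, hB⟩ := hμ.2 ε hε0 (N + 3 * k)
  obtain ⟨m, hm⟩ : ∃ m, m = n / k - 1 := ⟨_, rfl⟩
  have a1 : k * (n / k) ≤ n := Nat.mul_div_le n k
  have a2 : n < k * (n / k + 1) := Nat.lt_mul_div_succ n hk0
  have a3 : 3 ≤ n / k := (Nat.le_div_iff_mul_le hk0).2 (by omega)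
  have a4 : n / k = m + 1 := by omega
  rw [a4] at a1 a2 a3
  let sh : V → V := fun z => (k : ℤ) • (z + 1)
  have hev : ∀ z : V, Ev (sh z) := fun z => by
    unfold Ev
    simp only [sh, Pi.smul_apply, smul_eq_mul, ← mul_sum, hk]
    push_cast
    exact ((even_two_mul _).mul_right _)
  have hkz : (k : ℤ) = 2 * (w + 1) := by exact_mod_cast hk
  have key := fin_vol h h1 h2 n (cell m 0) (fun z => S.image (· + sh z))
    (fun z => shift2 (sh z) y) (fun z => shift2 (sh z) y') (fun z hz => by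
      obtain ⟨r, hr⟩ := Ent.exists_box (S.image (· + sh z))
      have W := win_shift hΛ hy hS hne (sh z) hr
      refine ⟨fun v hv => ?_, W.ex, W.dis⟩
      rw [mem_image_add] at hv
      rw [mem_cell] at hz ⊢
      intro i
      have b1 := abs_le.1 (mem_box.1 (hw hv) i)
      have b2 := hz i
      simp only [sh, Pi.sub_apply, Pi.smul_apply, Pi.add_apply, Pi.one_apply, smul_eq_mul,
        Pi.zero_apply, mul_zero, zero_add] at b1 b2 ⊢
      have b3 : (k : ℤ) * (m + 1) ≤ n := by exact_mod_cast a1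
      have b4 : (k : ℤ) * (z i + 1) ≤ k * m := mul_le_mul_of_nonneg_left (by omega) (by positivity)
      have b5 : (k : ℤ) * 1 ≤ k * (z i + 1) := mul_le_mul_of_nonneg_left (by omega) (by positivity)
      constructor <;> linarith [b1.1, b1.2])
    (fun z _ z' _ hzz => disjoint_left.2 fun v c1 c2 => hzz (funext fun i => by
      rw [mem_image_add] at c1 c2
      have b1 := abs_le.1 (mem_box.1 (hw c1) i)
      have b2 := abs_le.1 (mem_box.1 (hw c2) i)
      simp only [sh, Pi.sub_apply, Pi.smul_apply, Pi.add_apply, Pi.one_apply, smul_eq_mul] at b1 b2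
      have hkp : (0 : ℤ) < k := by exact_mod_cast hk0
      by_contra hc
      rcases lt_or_gt_of_ne hc with c | c
      · have := mul_le_mul_of_nonneg_left (Int.add_one_le_of_lt c) hkp.le
        linarith [b1.1, b1.2, b2.1, b2.2]
      · have := mul_le_mul_of_nonneg_left (Int.add_one_le_of_lt c) hkp.le
        linarith [b1.1, b1.2, b2.1, b2.2])) (D := D) (fun z _ => by
      rw [hD, ← cyl_shift (sh z) S y, ← cyl_shift (sh z) S y', measureReal_def, measureReal_def,
        measureReal_def, measureReal_def,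
        (hν _ (hev z)).measure_preimage (mset_cyl _ _).nullMeasurableSet,
        (hν _ (hev z)).measure_preimage (mset_cyl _ _).nullMeasurableSet]) hB
  rw [card_cell] at key
  push_cast at key
  have c1 := hC n
  have n0 : (0 : ℝ) ≤ n := by positivity
  have c2 : (n : ℝ) ≤ 2 * k * m := by
    have : n ≤ 2 * k * m := by nlinarith
    exact_mod_cast this
  have c3 : (n : ℝ) ^ 3 ≤ 8 * k ^ 3 * m ^ 3 := (pow_le_pow_left₀ n0 c2 3).trans_eq (by ring)
  have c4 : ε * (300 * k ^ 3) = D ^ 2 := div_mul_cancel₀ _ (by positivity)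
  have c5 : C * (n : ℝ) ^ 2 ≤ ε * n ^ 3 := by
    rw [div_lt_iff₀ hε0] at hN
    have : (N : ℝ) ≤ n := by exact_mod_cast (by omega : N ≤ n)
    have b := le_abs_self C
    have : C ≤ ε * n := by nlinarith
    nlinarith [sq_nonneg (n : ℝ)]
  have c6 := mul_le_mul_of_nonneg_left c3 hε0.le
  have c7 : (0 : ℝ) < m := by exact_mod_cast (by omega : 0 < m)
  have c8 : 0 < ε * k ^ 3 * m ^ 3 := by positivity
  rw [← c4] at key
  nlinarith

end PairB

theorem pair_ofB (h : ShanStmt) : PairStmt := by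
  intro s μ ν _ C hμ hν h1 h2 hC Λ S hΛ y y' hy hS
  exact (ENNReal.toReal_eq_toReal_iff' (measure_ne_top _ _) (measure_ne_top _ _)).1
    (le_antisymm (PairB.not_lt h hμ hν h1 h2 hC hΛ hy hS)
      (PairB.not_lt h hμ hν h1 h2 hC hΛ (Ent.swp_symm hy)
        fun x a b => ⟨(hS x a b).1.symm, (hS x a b).2.symm⟩))

end Pool.Agent.Lib.MP_640444_pr
end
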