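import Pool.Agent.Lib.MP_640444_pr.Stmts2

-- part Pool.Agent.Lib.MP_640444_pr.Alpha
section

/-!
Limits of the Gibbs specification along boxes and the lower bound for resampled patterns.
-/

open MeasureTheory Filter Finset
open scoped Classical Topology ENNReal

namespace Pool.Agent.Lib.MP_640444_pr

namespace Alpha

section
variable {X Y : Type} [MeasurableSpace X] [MeasurableSpace Y] {f g : X → ℝ}

/-- bounded measurable functions -/
def BM (f : X → ℝ) : Prop := Measurable f ∧ ∃ C, ∀ x, |f x| ≤ C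

lemma BM.const (c : ℝ) : BM fun _ : X => c := ⟨measurable_const, |c|, fun _ => le_rfl⟩

lemma BM.add (hf : BM f) (hg : BM g) : BM fun x => f x + g x := by
  obtain ⟨a, C, b⟩ := hf
  obtain ⟨c, D, d⟩ := hg
  exact ⟨a.add c, C + D, fun x => (abs_add_le _ _).trans (add_le_add (b x) (d x))⟩

lemma BM.sub (hf : BM f) (hg : BM g) : BM fun x => f x - g x := by
  obtain ⟨a, C, b⟩ := hf
  obtain ⟨c, D, d⟩ := hg
  exact ⟨a.sub c, C + D, fun x => (abs_sub _ _).trans (add_le_add (b x) (d x))⟩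

lemma BM.mul (hf : BM f) (hg : BM g) : BM fun x => f x * g x := by
  obtain ⟨a, C, b⟩ := hf
  obtain ⟨c, D, d⟩ := hg
  refine ⟨a.mul c, C * D, fun x => ?_⟩
  rw [abs_mul]
  exact mul_le_mul (b x) (d x) (abs_nonneg _) ((abs_nonneg _).trans (b x))

lemma BM.abs (hf : BM f) : BM fun x => |f x| := by
  obtain ⟨a, C, b⟩ := hf
  exact ⟨a.abs, C, fun x => by rw [abs_abs]; exact b x⟩

lemma BM.sum {ι : Type} (s : Finset ι) {F : ι → X → ℝ} (h : ∀ i, BM (F i)) :
    BM fun x => ∑ i ∈ s, F i x := by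
  induction s using Finset.induction_on with
  | empty => simpa using BM.const 0
  | insert a s ha ih => simpa only [sum_insert ha] using (h a).add ih

lemma BM.comp (hf : BM f) {u : Y → X} (hu : Measurable u) : BM fun y => f (u y) := by
  obtain ⟨a, C, b⟩ := hf
  exact ⟨a.comp hu, C, fun _ => b _⟩

lemma BM.int (hf : BM f) (μ : Measure X) [IsFiniteMeasure μ] : Integrable f μ := by
  obtain ⟨a, C, b⟩ := hf
  exact Integrable.of_bound a.aestronglyMeasurable C (.of_forall b)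

lemma BM.of01 (hf : Measurable f) (h : ∀ x, 0 ≤ f x ∧ f x ≤ 1) : BM f :=
  ⟨hf, 1, fun x => by rw [abs_of_nonneg (h x).1]; exact (h x).2⟩

end

variable {Λ Λ' : Finset V} {f g : Cfg → ℝ} {μ : Measure Cfg}

/-- functions of the configuration outside `Λ` -/
def K (Λ : Finset V) (g : Cfg → ℝ) : Prop := ∀ τ τ', (∀ x, x ∉ Λ → τ' x = τ x) → g τ' = g τ

lemma K.mul (hf : K Λ f) (hg : K Λ g) : K Λ fun σ => f σ * g σ := fun τ τ' h => by
  simp only [hf τ τ' h, hg τ τ' h]

lemma K.add (hf : K Λ f) (hg : K Λ g) : K Λ fun σ => f σ + g σ := fun τ τ' h => by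
  simp only [hf τ τ' h, hg τ τ' h]

lemma K_gam (h : Λ ⊆ Λ') (f : Cfg → ℝ) : K Λ (gam Λ' f) := fun τ τ' e => by
  unfold gam
  rw [cls_congr fun x hx => e x fun hx' => hx (h hx')]

lemma gam_mul (hg : K Λ g) (τ : Cfg) : gam Λ (fun σ => f σ * g σ) τ = gam Λ f τ * g τ := by
  unfold gam
  rw [div_mul_eq_mul_div, sum_mul]
  congr 1
  exact sum_congr rfl fun σ hσ => by simp only [hg τ σ (mem_cls.1 hσ).2]

lemma gam_nonneg (h : ∀ σ, 0 ≤ f σ) (τ : Cfg) : 0 ≤ gam Λ f τ :=
  div_nonneg (sum_nonneg fun _ _ => h _) (Nat.cast_nonneg _)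

lemma gam_le {C : ℝ} (hC : 0 ≤ C) (h : ∀ σ, f σ ≤ C) (τ : Cfg) : gam Λ f τ ≤ C := by
  refine div_le_of_le_mul₀ (Nat.cast_nonneg _) hC ((sum_le_card_nsmul _ _ C fun σ _ => h σ).trans ?_)
  rw [nsmul_eq_mul, mul_comm]

lemma abs_gam_le (τ : Cfg) : |gam Λ f τ| ≤ gam Λ (fun σ => |f σ|) τ := by
  unfold gam
  rw [abs_div, Nat.abs_cast]
  exact div_le_div_of_nonneg_right (abs_sum_le_sum_abs _ _) (Nat.cast_nonneg _)

lemma gam_const {τ : Cfg} (h : IsTiling τ) (c : ℝ) : gam Λ (fun _ => c) τ = c := by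
  have : ((cls Λ τ).card : ℝ) ≠ 0 := by exact_mod_cast (card_pos.2 ⟨τ, self_mem_cls h⟩).ne'
  unfold gam
  rw [sum_const, nsmul_eq_mul, mul_div_cancel_left₀ _ this]

lemma gam_shift (v : V) (τ : Cfg) :
    gam (Λ.image (· + v)) f (shift v τ) = gam Λ (fun σ => f (shift v σ)) τ := by
  have hi : Function.Injective (shift v) := fun a b h => by
    have := congrArg (shift (-v)) h
    rwa [shift_shift, shift_shift, add_neg_cancel, shift_zero, shift_zero] at this
  have e : cls (Λ.image (· + v)) (shift v τ) = (cls Λ τ).image (shift v) := by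
    ext σ
    obtain ⟨σ, rfl⟩ : ∃ σ', σ = shift v σ' :=
      ⟨shift (-v) σ, by rw [shift_shift, neg_add_cancel, shift_zero]⟩
    rw [hi.mem_finset_image, mem_cls, mem_cls, isTiling_shift_iff]
    refine and_congr_right fun _ => ⟨fun h x hx => ?_, fun h x hx => ?_⟩
    · have := h (x + v) (by rwa [Ent.mem_image_add, add_sub_cancel_right])
      rwa [shift_add_apply, shift_add_apply, add_left_inj] at this
    · rw [Ent.mem_image_add] at hx
      simp only [shift, h _ hx]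
  unfold gam
  rw [e, sum_image fun _ _ _ _ h => hi h, card_image_of_injective _ hi]

lemma box_ev (Λ : Finset V) : ∀ᶠ M : ℕ in atTop, Λ ⊆ box M := by
  refine eventually_atTop.2 ⟨Λ.sup fun x => univ.sup fun i => (x i).natAbs, fun M hM x hx => ?_⟩
  refine mem_box.2 fun i => ?_
  have h1 := le_sup (f := fun x : V => univ.sup fun i => (x i).natAbs) hx
  have h2 := le_sup (f := fun i => (x i).natAbs) (mem_univ i)
  rw [Int.abs_eq_natAbs]
  exact_mod_cast h2.trans (h1.trans hM)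

lemma BM.gam (hD : DlrStmt) (Λ : Finset V) (hf : BM f) : BM (gam Λ f) := by
  obtain ⟨a, C, b⟩ := hf
  exact ⟨hD.mgam Cfg Λ id (fun q => f q.2) measurable_id (a.comp measurable_snd), C,
    fun τ => (abs_gam_le τ).trans (gam_le ((abs_nonneg _).trans (b τ)) b τ)⟩

lemma real (hD : DlrStmt) [IsFiniteMeasure μ] (hG : Gib1 Λ μ) (hf : BM f) :
    ∫ τ, gam Λ f τ ∂μ = ∫ τ, f τ ∂μ := by
  obtain ⟨a, C, b⟩ := hf
  exact hD.real Λ μ hG f C a b

lemma proj (hD : DlrStmt) [IsFiniteMeasure μ] (hG : Gib1 Λ μ) (hf : BM f) (hg : BM g)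
    (hK : K Λ g) : ∫ τ, gam Λ f τ * g τ ∂μ = ∫ τ, f τ * g τ ∂μ := by
  rw [← real hD hG (hf.mul hg)]
  simp only [gam_mul hK]

lemma cauchy (hD : DlrStmt) [IsProbabilityMeasure μ] (hG : ∀ Λ, Gib1 Λ μ) (hf : BM f) {ε : ℝ}
    (hε : 0 < ε) : ∃ Λ₀, ∀ Λ Λ', Λ₀ ⊆ Λ → Λ ⊆ Λ' → ∫ σ, |gam Λ f σ - gam Λ' f σ| ∂μ ≤ ε := by
  set n : Finset V → ℝ := fun Λ => ∫ σ, gam Λ f σ * gam Λ f σ ∂μ with hn
  have key : ∀ Λ Λ', Λ ⊆ Λ' → ∫ σ, (gam Λ f σ - gam Λ' f σ) * (gam Λ f σ - gam Λ' f σ) ∂μ =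
      n Λ - n Λ' := fun Λ Λ' h => by
    have b := hf.gam hD Λ
    have b' := hf.gam hD Λ'
    have e1 := proj hD (hG Λ) hf b' (K_gam h f)
    have e2 := proj hD (hG Λ') hf b' (K_gam subset_rfl f)
    have e : ∀ σ, (gam Λ f σ - gam Λ' f σ) * (gam Λ f σ - gam Λ' f σ) = gam Λ f σ * gam Λ f σ +
        gam Λ' f σ * gam Λ' f σ - 2 * (gam Λ f σ * gam Λ' f σ) := fun σ => by ring
    simp only [e]
    rw [integral_sub (((b.mul b).add (b'.mul b')).int μ) (((b.mul b').int μ).const_mul 2),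
      integral_add ((b.mul b).int μ) ((b'.mul b').int μ), integral_const_mul, e1, ← e2]
    ring
  have hb : BddBelow (Set.range n) :=
    ⟨0, by rintro _ ⟨Λ, rfl⟩; exact integral_nonneg fun _ => mul_self_nonneg _⟩
  obtain ⟨Λ₀, h0⟩ := exists_lt_of_ciInf_lt (f := n) (lt_add_of_pos_right _ (mul_pos hε hε))
  refine ⟨Λ₀, fun Λ Λ' h1 h2 => ?_⟩
  have h3 : 0 ≤ n Λ₀ - n Λ := key _ _ h1 ▸ integral_nonneg fun _ => mul_self_nonneg _
  have h4 := ciInf_le hb Λ'
  have b := (hf.gam hD Λ).sub (hf.gam hD Λ')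
  have h5 : ∫ σ, 2 * ε * |gam Λ f σ - gam Λ' f σ| ∂μ ≤
      ∫ σ, (ε * ε + (gam Λ f σ - gam Λ' f σ) * (gam Λ f σ - gam Λ' f σ)) ∂μ := by
    refine integral_mono ((b.abs.int μ).const_mul _) (((BM.const _).add (b.mul b)).int μ)
      fun σ => ?_
    nlinarith [sq_nonneg (|gam Λ f σ - gam Λ' f σ| - ε), abs_mul_abs_self (gam Λ f σ - gam Λ' f σ)]
  rw [integral_const_mul, integral_add (integrable_const _) ((b.mul b).int μ), key _ _ h2,
    integral_const, probReal_univ, one_smul] at h5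
  refine le_of_mul_le_mul_left ?_ (mul_pos two_pos hε)
  linarith

lemma lim (hD : DlrStmt) [IsProbabilityMeasure μ] (hG : ∀ Λ, Gib1 Λ μ) (hf : Measurable f)
    (h01 : ∀ σ, 0 ≤ f σ ∧ f σ ≤ 1) : ∃ α : Cfg → ℝ, Measurable α ∧ (∀ σ, 0 ≤ α σ ∧ α σ ≤ 1) ∧
      (∀ σ σ', {x | σ' x ≠ σ x}.Finite → α σ' = α σ) ∧
      Tendsto (fun M : ℕ => ∫ σ, |gam (box M) f σ - α σ| ∂μ) atTop (𝓝 0) := by
  have bf := BM.of01 hf h01
  have b := fun M : ℕ => bf.gam hD (box M)
  set U : ℕ → Lp ℝ 1 μ := fun M => ((b M).int μ).toL1 _ with hU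
  have eU : ∀ M, U M =ᵐ[μ] gam (box M) f := fun M => ((b M).int μ).coeFn_toL1
  have hc : CauchySeq U := by
    refine Metric.cauchySeq_iff'.2 fun ε hε => ?_
    obtain ⟨Λ₀, h⟩ := cauchy hD hG bf (half_pos hε)
    obtain ⟨N, hN⟩ := (box_ev Λ₀).exists
    refine ⟨N, fun n hn => ?_⟩
    rw [dist_comm, L1.dist_eq_integral_dist]
    refine lt_of_le_of_lt (le_of_eq_of_le (integral_congr_ae ?_) (h (box N) (box n) hN ?_))
      (half_lt_self hε)
    · filter_upwards [eU N, eU n] with σ h1 h2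
      rw [h1, h2, Real.dist_eq]
    · intro x hx
      exact mem_box.2 fun i => (mem_box.1 hx i).trans (by exact_mod_cast hn)
  obtain ⟨G, hGl⟩ := cauchySeq_tendsto_of_complete hc
  obtain ⟨ns, hns, hae⟩ := (tendstoInMeasure_of_tendsto_Lp hGl).exists_seq_tendsto_ae
  have g0 : ∀ M σ, 0 ≤ gam (box M) f σ := fun M => gam_nonneg fun σ => (h01 σ).1
  have g1 : ∀ M σ, gam (box M) f σ ≤ 1 := fun M => gam_le zero_le_one fun σ => (h01 σ).2
  refine ⟨fun σ => limsup (fun k => gam (box (ns k)) f σ) atTop,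
    Measurable.limsup fun k => (b _).1, fun σ => ⟨?_, ?_⟩, fun σ σ' h => ?_, ?_⟩
  · exact le_limsup_of_frequently_le (.of_forall fun k => g0 _ σ)
      (isBoundedUnder_of ⟨1, fun k => g1 _ σ⟩)
  · exact limsup_le_of_le (isCoboundedUnder_le_of_le atTop fun k => g0 _ σ)
      (.of_forall fun k => g1 _ σ)
  · refine limsup_congr ?_
    filter_upwards [hns.tendsto_atTop.eventually (box_ev h.toFinset)] with k hk
    refine K_gam hk f σ σ' fun x hx => ?_
    simpa using hx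
  · refine (tendsto_iff_dist_tendsto_zero.1 hGl).congr fun M => ?_
    rw [L1.dist_eq_integral_dist]
    refine integral_congr_ae ?_
    filter_upwards [hae, ae_all_iff.2 eU] with σ h1 h2
    simp only [h2] at h1
    rw [h2, h1.limsup_eq, Real.dist_eq]

lemma rs_le (hD : DlrStmt) [IsProbabilityMeasure μ] {A : Set Om} (hA : MeasurableSet A) :
    Rs Λ (kap μ) A ≤ Rs Λ μ A := by
  have h : kap μ ≤ μ := (Measure.map_mono Measure.restrict_le_self measurable_fst).trans (by simp)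
  rw [← lintegral_indicator_one hA, ← lintegral_indicator_one hA,
    hD.rs _ _ _ (measurable_one.indicator hA), hD.rs _ _ _ (measurable_one.indicator hA)]
  exact lintegral_mono' h le_rfl

lemma rs_prob (hD : DlrStmt) [IsProbabilityMeasure μ] (hG : Gib1 Λ μ) :
    IsProbabilityMeasure (Rs Λ μ) :=
  ⟨by simpa using (hD.rsg Λ μ hG).2.2 Set.univ MeasurableSet.univ⟩

lemma rs_mul (hD : DlrStmt) [IsFiniteMeasure μ] (hf : BM f) (hg : BM g) :
    ∫ p, f p.1 * g p.2 ∂(Rs Λ μ) = ∫ τ, f τ * gam Λ g τ ∂μ := by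
  obtain ⟨a, C, b⟩ := (hf.comp (measurable_fst (β := Cfg))).mul (hg.comp measurable_snd)
  rw [hD.rsr Λ μ _ C a b]
  refine integral_congr_ae (.of_forall fun τ => ?_)
  simp only [mul_comm (f τ)]
  exact gam_mul (g := fun _ => f τ) (fun _ _ _ => rfl) τ

lemma rs_fst (hD : DlrStmt) [IsFiniteMeasure μ] (ht : ∀ᵐ σ ∂μ, IsTiling σ) (hf : BM f) :
    ∫ p, f p.1 ∂(Rs Λ μ) = ∫ τ, f τ ∂μ := by
  have := rs_mul (Λ := Λ) (μ := μ) hD hf (BM.const 1)
  simp only [mul_one] at this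
  rw [this]
  refine integral_congr_ae ?_
  filter_upwards [ht] with τ hτ
  rw [gam_const hτ, mul_one]

/-- the centred product -/
noncomputable def cp (Λ : Finset V) (f : Cfg → ℝ) (p : Om) : ℝ :=
  f p.1 * f p.2 - gam Λ f p.1 * gam Λ f p.1

lemma BM.cp (hD : DlrStmt) (Λ : Finset V) (hf : BM f) : BM (cp Λ f) :=
  ((hf.comp measurable_fst).mul (hf.comp measurable_snd)).sub
    (((hf.gam hD Λ).mul (hf.gam hD Λ)).comp measurable_fst)

lemma pair_eq (hD : DlrStmt) [IsProbabilityMeasure μ] (hG : Gib1 Λ μ) (ht : ∀ᵐ σ ∂μ, IsTiling σ)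
    (hf : BM f) (hg : BM g) : ∫ p, cp Λ f p * cp Λ g p ∂(Rs Λ μ) =
      ∫ τ, gam Λ (fun σ => f σ * g σ) τ * gam Λ (fun σ => f σ * g σ) τ ∂μ -
        ∫ τ, gam Λ f τ * gam Λ g τ * (gam Λ f τ * gam Λ g τ) ∂μ := by
  have := rs_prob hD hG
  have a := hf.gam hD Λ
  have b := hg.gam hD Λ
  have ka := K_gam (Λ := Λ) subset_rfl f
  have kb := K_gam (Λ := Λ) subset_rfl g
  have e : ∀ p : Om, cp Λ f p * cp Λ g p = f p.1 * g p.1 * (f p.2 * g p.2) -
      f p.1 * (gam Λ g p.1 * gam Λ g p.1) * f p.2 - g p.1 * (gam Λ f p.1 * gam Λ f p.1) * g p.2 +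
      gam Λ f p.1 * gam Λ g p.1 * (gam Λ f p.1 * gam Λ g p.1) := fun p => by
    unfold cp
    ring
  have b1 := ((hf.mul hg).comp (measurable_fst (β := Cfg))).mul ((hf.mul hg).comp measurable_snd)
  have b2 := ((hf.mul (b.mul b)).comp (measurable_fst (β := Cfg))).mul (hf.comp measurable_snd)
  have b3 := ((hg.mul (a.mul a)).comp (measurable_fst (β := Cfg))).mul (hg.comp measurable_snd)
  have b4 := ((a.mul b).mul (a.mul b)).comp (measurable_fst (β := Cfg))
  simp only [e]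
  rw [integral_add (((b1.sub b2).sub b3).int _) (b4.int _), integral_sub ((b1.sub b2).int _)
    (b3.int _), integral_sub (b1.int _) (b2.int _), rs_mul hD (hf.mul hg) (hf.mul hg),
    rs_mul hD (hf.mul (b.mul b)) hf, rs_mul hD (hg.mul (a.mul a)) hg,
    rs_fst hD ht ((a.mul b).mul (a.mul b)),
    proj hD hG (hf.mul hg) ((hf.mul hg).gam hD Λ) (K_gam subset_rfl _)]
  have e1 := proj hD hG hf ((b.mul b).mul a) ((kb.mul kb).mul ka)
  have e2 := proj hD hG hg ((a.mul a).mul b) ((ka.mul ka).mul kb)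
  have e3 : ∀ x y : ℝ, x * (y * y * x) = x * y * (x * y) := fun _ _ => by ring
  have e4 : ∀ x y : ℝ, y * (x * x * y) = x * y * (x * y) := fun _ _ => by ring
  simp only [e3] at e1
  simp only [e4] at e2
  simp only [mul_assoc] at e1 e2 ⊢
  linarith

lemma pair_near (hD : DlrStmt) [IsProbabilityMeasure μ] (hG : Gib1 Λ μ) (ht : ∀ᵐ σ ∂μ, IsTiling σ)
    (hf : BM f) (hg : BM g) (f01 : ∀ σ, 0 ≤ f σ ∧ f σ ≤ 1) (g01 : ∀ σ, 0 ≤ g σ ∧ g σ ≤ 1) :
    ∫ p, cp Λ f p * cp Λ g p ∂(Rs Λ μ) ≤ 1 := by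
  rw [pair_eq hD hG ht hf hg]
  have a := (hf.mul hg).gam hD Λ
  have h1 : ∫ τ, gam Λ (fun σ => f σ * g σ) τ * gam Λ (fun σ => f σ * g σ) τ ∂μ ≤
      ∫ _, (1 : ℝ) ∂μ := by
    refine integral_mono ((a.mul a).int _) (integrable_const _) fun τ => ?_
    have h2 := gam_le (Λ := Λ) (f := fun σ => f σ * g σ) zero_le_one
      (fun σ => mul_le_one₀ (f01 σ).2 (g01 σ).1 (g01 σ).2) τ
    exact mul_le_one₀ h2 (gam_nonneg (fun σ => mul_nonneg (f01 σ).1 (g01 σ).1) τ) h2
  rw [integral_const, probReal_univ, one_smul] at h1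
  have h2 : 0 ≤ ∫ τ, gam Λ f τ * gam Λ g τ * (gam Λ f τ * gam Λ g τ) ∂μ :=
    integral_nonneg fun _ => mul_self_nonneg _
  linarith

lemma pair_far (hD : DlrStmt) [IsProbabilityMeasure μ] (hG : Gib1 Λ μ) (hG' : Gib1 Λ' μ)
    (ht : ∀ᵐ σ ∂μ, IsTiling σ) (h : Λ' ⊆ Λ) (hf : BM f) (hg : BM g) (hK : K Λ' g)
    (f01 : ∀ σ, 0 ≤ f σ ∧ f σ ≤ 1) (g01 : ∀ σ, 0 ≤ g σ ∧ g σ ≤ 1) :
    ∫ p, cp Λ f p * cp Λ g p ∂(Rs Λ μ) ≤ 2 * ∫ σ, |gam Λ' f σ - gam Λ f σ| ∂μ := by
  rw [pair_eq hD hG ht hf hg]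
  have a := hf.gam hD Λ
  have a' := hf.gam hD Λ'
  have b := hg.gam hD Λ
  have c := (hf.mul hg).gam hD Λ
  set ψ : Cfg → ℝ := fun τ => gam Λ (fun σ => f σ * g σ) τ + gam Λ f τ * gam Λ g τ with hψ
  have d : BM ψ := c.add (a.mul b)
  have kψ : ∀ Λ₁, Λ₁ ⊆ Λ → K Λ₁ ψ := fun _ h => (K_gam h _).add ((K_gam h _).mul (K_gam h _))
  have e1 := proj hD hG (hf.mul hg) d (kψ _ subset_rfl)
  have e2 := proj hD hG hg (a.mul d) ((K_gam subset_rfl f).mul (kψ _ subset_rfl))
  have e3 := proj hD hG' hf (hg.mul d) (hK.mul (kψ _ h))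
  calc _ = ∫ τ, gam Λ (fun σ => f σ * g σ) τ * ψ τ ∂μ - ∫ τ, gam Λ g τ * (gam Λ f τ * ψ τ) ∂μ := by
        rw [← integral_sub ((c.mul c).int _) (((a.mul b).mul (a.mul b)).int _),
          ← integral_sub ((c.mul d).int _) ((b.mul (a.mul d)).int _)]
        refine integral_congr_ae (.of_forall fun τ => ?_)
        simp only [hψ]
        ring
    _ = ∫ τ, (gam Λ' f τ - gam Λ f τ) * (g τ * ψ τ) ∂μ := by
        simp only [sub_mul]
        rw [integral_sub ((a'.mul (hg.mul d)).int _) ((a.mul (hg.mul d)).int _), e1, e2, e3]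
        simp only [mul_assoc, mul_left_comm]
    _ ≤ _ := by
        rw [← integral_const_mul]
        refine integral_mono (((a'.sub a).mul (hg.mul d)).int _)
          (((a'.sub a).abs.int _).const_mul _) fun τ => ?_
        have p0 : 0 ≤ ψ τ := add_nonneg (gam_nonneg (fun σ => mul_nonneg (f01 σ).1 (g01 σ).1) τ)
          (mul_nonneg (gam_nonneg (fun σ => (f01 σ).1) τ) (gam_nonneg (fun σ => (g01 σ).1) τ))
        have p1 := gam_le (Λ := Λ) (f := fun σ => f σ * g σ) zero_le_one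
          (fun σ => mul_le_one₀ (f01 σ).2 (g01 σ).1 (g01 σ).2) τ
        have p2 : gam Λ f τ * gam Λ g τ ≤ 1 := mul_le_one₀ (gam_le zero_le_one (fun σ => (f01 σ).2) τ)
          (gam_nonneg (fun σ => (g01 σ).1) τ) (gam_le zero_le_one (fun σ => (g01 σ).2) τ)
        have p3 : g τ * ψ τ ≤ 2 := (mul_le_of_le_one_left p0 (g01 τ).2).trans (by
          simp only [hψ]; linarith)
        refine (mul_le_mul_of_nonneg_right (le_abs_self _) (mul_nonneg (g01 τ).1 p0)).trans ?_
        rw [mul_comm]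
        exact mul_le_mul_of_nonneg_right p3 (abs_nonneg _)

lemma cube_le {l : ℕ} (hl : 2 ≤ l) : l ^ 3 ≤ 3 * Ne l := by
  set Q := (cell l 0).filter Ev with hQ
  have h : cell l 0 ⊆ Q ∪ (Q.image (· + e0) ∪ Q.image (· + -e0)) := fun x hx => by
    rw [mem_union, mem_union, Ent.mem_image_add, Ent.mem_image_add, sub_neg_eq_add]
    by_cases he : Ev x
    · exact Or.inl (mem_filter.2 ⟨hx, he⟩)
    have h1 := mem_cell.1 hx
    have h0 := h1 0
    simp only [Pi.zero_apply, mul_zero, zero_add] at h1 h0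
    by_cases hz : x 0 = 0
    · refine Or.inr (Or.inr (mem_filter.2 ⟨mem_cell.2 fun i => ?_, (adj_e0 x).ev.2 he⟩))
      have := h1 i
      by_cases hi : i = 0
      · subst hi
        simp [e0]
        omega
      · simpa [e0, hi] using this
    · have ha := adj_symm (adj_e0 (x - e0))
      rw [sub_add_cancel] at ha
      refine Or.inr (Or.inl (mem_filter.2 ⟨mem_cell.2 fun i => ?_, ha.ev.2 he⟩))
      have := h1 i
      by_cases hi : i = 0
      · subst hi
        simp [e0]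
        omega
      · simpa [e0, hi] using this
  have h1 := (card_le_card h).trans ((card_union_le _ _).trans (Nat.add_le_add_left
    ((card_union_le _ _).trans (Nat.add_le_add card_image_le card_image_le)) _))
  rw [card_cell] at h1
  change _ ≤ 3 * Q.card
  omega

lemma markov {N m : ℝ} (hN : 0 < N) (hm : 0 < m) {St G H : ℝ} (hG : H ^ 2 ≤ N * G)
    (h : St < m ^ 2 / 2 * N) :
    1 ≤ 4 / (N * m) * |H - N * m| + 256 / (N ^ 2 * m ^ 4) * ((St - G) * (St - G)) := by
  have p1 : 0 ≤ 4 / (N * m) * |H - N * m| := by positivity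
  have p2 : 0 ≤ 256 / (N ^ 2 * m ^ 4) * ((St - G) * (St - G)) :=
    mul_nonneg (by positivity) (mul_self_nonneg _)
  by_cases h1 : N * m / 4 ≤ |H - N * m|
  · have : 1 ≤ 4 / (N * m) * |H - N * m| := by
      rw [div_mul_eq_mul_div, le_div_iff₀ (by positivity)]
      linarith
    linarith
  · have h2 : 3 / 4 * (N * m) ≤ H := by linarith [(abs_lt.1 (not_le.1 h1)).1]
    have h3 : (3 / 4 * (N * m)) ^ 2 ≤ N * G := (pow_le_pow_left₀ (by positivity) h2 2).trans hG
    have h4 : 9 / 16 * (N * m ^ 2) ≤ G := le_of_mul_le_mul_left (by linarith) hN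
    have h5 : (N * m ^ 2 / 16) ^ 2 ≤ (G - St) ^ 2 := pow_le_pow_left₀ (by positivity) (by linarith) 2
    have : 1 ≤ 256 / (N ^ 2 * m ^ 4) * ((St - G) * (St - G)) := by
      rw [div_mul_eq_mul_div, le_div_iff₀ (by positivity)]
      linarith
    linarith

lemma low (hD : DlrStmt) {s : Fin 3 → ℝ} (hμ : IsEGM s μ) (S : Finset V) (y : Cfg) {η : ℝ}
    (hη : 0 < η) (hm : 0 < μ.real (cylG S y)) : ∃ l, 0 < Ne l ∧ ∀ᶠ M : ℕ in atTop,
      (Rs (box M) (kap μ)).real {p | (St S y l p : ℝ) < μ.real (cylG S y) ^ 2 / 2 * Ne l} ≤ η := by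
  have := hμ.prob
  have hG : ∀ Λ, Gib1 Λ μ := fun Λ => (hD.egm s μ hμ Λ).1
  have ht : ∀ᵐ σ ∂μ, IsTiling σ := hμ.tiling
  set m := μ.real (cylG S y) with hmdef
  have i01 : ∀ σ, 0 ≤ ind (cylG S y) σ ∧ ind (cylG S y) σ ≤ 1 := fun σ => by
    unfold ind
    split_ifs <;> norm_num
  have im : Measurable (ind (cylG S y)) :=
    Measurable.ite (mset_cylG S y) measurable_const measurable_const
  have ib := BM.of01 im i01
  have ii : ∫ σ, ind (cylG S y) σ ∂μ = m := by
    rw [hmdef, ← integral_indicator_one (mset_cylG S y)]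
    rfl
  have m1 : m ≤ 1 := measureReal_le_one
  obtain ⟨Λ₀, h0⟩ := cauchy hD hG ib (ε := η * m ^ 4 / 1536) (by positivity)
  set δ := η * m / 48 with hδ
  have hδ0 : 0 < δ := by positivity
  have t1 := (ENNReal.tendsto_toReal ENNReal.zero_ne_top).comp
    (mean_erg μ hμ.inv hμ.erg _ im 1 (fun σ => by
      rw [abs_of_nonneg (i01 σ).1]; exact (i01 σ).2) δ hδ0)
  have t2 : Tendsto (fun l : ℕ => (l : ℝ) ^ 3) atTop atTop :=
    (tendsto_pow_atTop (by norm_num)).comp tendsto_natCast_atTop_atTop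
  obtain ⟨l, hl1, hl2, hl3⟩ := ((t1.eventually (ge_mem_nhds hδ0)).and ((eventually_ge_atTop 2).and
    (t2.eventually_ge_atTop (3 * (768 * (Λ₀.card * S.card) / (η * m ^ 4)))))).exists
  rw [ii] at hl1
  have hc : (l : ℝ) ^ 3 ≤ 3 * Ne l := by exact_mod_cast cube_le hl2
  have hl0 : (0 : ℝ) < l := by exact_mod_cast zero_lt_two.trans_le hl2
  have hN : (0 : ℝ) < Ne l := by linarith [pow_pos hl0 3]
  refine ⟨l, by exact_mod_cast hN, ?_⟩
  set Q := (cell l 0).filter Ev with hQ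
  have hQN : (Q.card : ℝ) = Ne l := rfl
  set N : ℝ := (Ne l : ℝ) with hNdef
  set F : V → Cfg → ℝ := fun x σ => ind (cylG S y) (shift (-x) σ) with hF
  have Fb : ∀ x, BM (F x) := fun x => ib.comp (measurable_shift _)
  have F01 : ∀ x σ, 0 ≤ F x σ ∧ F x σ ≤ 1 := fun x σ => i01 _
  have hb : BM fun σ => ∑ x ∈ Q, (F x σ - m) := BM.sum Q fun x => (Fb x).sub (BM.const m)
  have b1 : ∫ σ, |∑ x ∈ Q, (F x σ - m)| ∂μ ≤ 4 * δ * N := by
    have hA : MeasurableSet {σ | δ * (l : ℝ) ^ 3 < |∑ x ∈ Q, (F x σ - m)|} :=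
      measurableSet_lt measurable_const hb.abs.1
    have hi := (integrable_const (μ := μ) N).indicator hA
    refine (integral_mono (hb.abs.int μ) ((integrable_const (δ * l ^ 3)).add hi) fun σ => ?_).trans ?_
    · simp only [Pi.add_apply, Set.indicator_apply, Set.mem_ofPred_eq]
      split_ifs with h
      · refine le_add_of_nonneg_of_le (by positivity) ((abs_sum_le_sum_abs _ _).trans
          ((sum_le_card_nsmul _ _ 1 fun x _ => abs_le.2 ⟨?_, ?_⟩).trans (by simp [hQN]))) <;>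
        linarith [F01 x σ]
      · linarith [not_lt.1 h]
    · rw [integral_add' (integrable_const _) hi, integral_const, probReal_univ, one_smul,
        integral_indicator_const _ hA, smul_eq_mul]
      have h1 : μ.real {σ | δ * (l : ℝ) ^ 3 < |∑ x ∈ Q, (F x σ - m)|} ≤ δ := hl1
      nlinarith [mul_le_mul_of_nonneg_right h1 hN.le, mul_le_mul_of_nonneg_left hc hδ0.le]
  filter_upwards [box_ev (Q.biUnion fun x => Λ₀.image (· + x))] with M hM
  have := rs_prob hD (hG (box M))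
  have gb : ∀ x, BM (gam (box M) (F x)) := fun x => (Fb x).gam hD _
  have Hb : BM fun σ => |∑ x ∈ Q, gam (box M) (F x) σ - N * m| :=
    ((BM.sum Q gb).sub (BM.const _)).abs
  have b2 : ∫ p, |∑ x ∈ Q, gam (box M) (F x) p.1 - N * m| ∂(Rs (box M) μ) ≤ 4 * δ * N := by
    rw [rs_fst hD ht Hb]
    refine le_trans ?_ ((real hD (hG (box M)) hb.abs).trans_le b1)
    refine integral_mono_ae (Hb.int _) ((hb.abs.gam hD _).int _) ?_
    filter_upwards [ht] with τ hτ
    refine le_trans (le_of_eq ?_) (abs_gam_le τ)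
    rw [← gam_const (Λ := box M) hτ (N * m)]
    unfold gam
    rw [← sum_div, ← sub_div, sum_comm, ← sum_sub_distrib]
    simp only [sum_sub_distrib, sum_const, nsmul_eq_mul, hQN]
  have Wb : BM fun p => ∑ x ∈ Q, cp (box M) (F x) p := BM.sum Q fun x => (Fb x).cp hD _
  have b3 : ∫ p, (∑ x ∈ Q, cp (box M) (F x) p) * (∑ x ∈ Q, cp (box M) (F x) p) ∂(Rs (box M) μ) ≤
      N * (N * (η * m ^ 4 / 768) + Λ₀.card * S.card) := by
    simp only [sum_mul_sum]
    have cb : ∀ x z, BM fun p => cp (box M) (F x) p * cp (box M) (F z) p := fun x z =>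
      ((Fb x).cp hD _).mul ((Fb z).cp hD _)
    rw [integral_finsetSum _ fun x _ => (BM.sum Q (cb x)).int _]
    refine (sum_le_card_nsmul _ _ _ fun x hx => ?_).trans (by rw [nsmul_eq_mul, hQN])
    rw [integral_finsetSum _ fun z _ => (cb x z).int _]
    set B := (Λ₀ ×ˢ S).image fun q => x + q.1 - q.2 with hB
    have hs : Λ₀.image (· + x) ⊆ box M := (subset_biUnion_of_mem _ hx).trans hM
    have e0 : (Λ₀.image (· + x)).image (· + -x) = Λ₀ := by
      ext v
      rw [Ent.mem_image_add, Ent.mem_image_add, sub_neg_eq_add, add_sub_cancel_right]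
    have far : ∫ σ, |gam (Λ₀.image (· + x)) (F x) σ - gam (box M) (F x) σ| ∂μ ≤
        η * m ^ 4 / 1536 := by
      refine le_trans (le_of_eq ?_) (h0 Λ₀ ((box M).image (· + -x)) subset_rfl
        (e0 ▸ image_subset_image hs))
      have mp := hμ.mp (ev_neg.2 (mem_filter.1 hx).2)
      have := integral_map (μ := μ) mp.measurable.aemeasurable
        ((ib.gam hD Λ₀).sub (ib.gam hD ((box M).image (· + -x)))).abs.1.aestronglyMeasurable
      rw [mp.map_eq] at this
      rw [this]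
      simp only [hF, ← gam_shift, e0]
    calc _ ≤ ∑ z ∈ Q, (η * m ^ 4 / 768 + if z ∈ B then 1 else 0) := by
          refine sum_le_sum fun z _ => ?_
          split_ifs with hz
          · exact le_add_of_nonneg_of_le (by positivity)
              (pair_near hD (hG _) ht (Fb x) (Fb z) (F01 x) (F01 z))
          · refine (pair_far hD (hG _) (hG _) ht hs (Fb x) (Fb z) (fun τ τ' e => ?_) (F01 x)
              (F01 z)).trans (by linarith)
            have : ∀ a ∈ S, shift (-z) τ' a = shift (-z) τ a := fun a ha => by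
              unfold shift
              rw [e]
              intro h
              rw [Ent.mem_image_add] at h
              exact hz (mem_image.2 ⟨(a - -z - x, a), mem_product.2 ⟨h, ha⟩, by simp⟩)
            have h2 : shift (-z) τ' ∈ cylG S y ↔ shift (-z) τ ∈ cylG S y :=
              forall₂_congr fun a ha => by rw [this a ha]
            simp only [hF, ind, h2]
      _ ≤ _ := by
          rw [sum_add_distrib, sum_const, nsmul_eq_mul, hQN, sum_boole]
          refine add_le_add le_rfl ?_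
          have : (Q.filter fun z => z ∈ B).card ≤ Λ₀.card * S.card :=
            (card_le_card fun z hz => (mem_filter.1 hz).2).trans
              (card_image_le.trans (card_product _ _).le)
          exact_mod_cast this
  have eS : ∀ p : Om, (St S y l p : ℝ) = ∑ x ∈ Q, F x p.1 * F x p.2 := fun p => by
    unfold St
    rw [← filter_filter, card_filter]
    push_cast
    refine sum_congr rfl fun x _ => ?_
    simp only [hF, ind, ite_zero_mul_ite_zero, mul_one]
  have Sb : BM fun p : Om => ∑ x ∈ Q, F x p.1 * F x p.2 :=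
    BM.sum Q fun x => ((Fb x).comp measurable_fst).mul ((Fb x).comp measurable_snd)
  simp only [eS]
  have i1 := ((Hb.comp (measurable_fst (β := Cfg))).int (Rs (box M) μ)).const_mul (4 / (N * m))
  have i2 := ((Wb.mul Wb).int (Rs (box M) μ)).const_mul (256 / (N ^ 2 * m ^ 4))
  have mk := mul_meas_ge_le_integral_of_nonneg (μ := Rs (box M) μ) (.of_forall fun p => by
    exact add_nonneg (by positivity) (mul_nonneg (by positivity) (mul_self_nonneg _)))
    (i1.add i2) 1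
  rw [one_mul, integral_add' i1 i2, integral_const_mul, integral_const_mul] at mk
  refine (ENNReal.toReal_mono (measure_ne_top (Rs (box M) μ) _) ((rs_le hD
    (measurableSet_lt Sb.1 measurable_const)).trans (measure_mono fun p hp => ?_))).trans
    (mk.trans ?_)
  · have := markov hN hm (G := ∑ x ∈ Q, gam (box M) (F x) p.1 ^ 2)
      (hQN ▸ sq_sum_le_card_mul_sum_sq) hp
    simpa only [cp, sum_sub_distrib, pow_two, Set.mem_ofPred_eq, Pi.add_apply] using this
  · have c1 : 4 / (N * m) * (4 * δ * N) = η / 3 := by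
      rw [hδ]
      field_simp
      norm_num
    have c2 : 256 / (N ^ 2 * m ^ 4) * (N * (N * (η * m ^ 4 / 768) + Λ₀.card * S.card)) =
        η / 3 + η / 3 * (768 * (Λ₀.card * S.card) / (η * m ^ 4) / N) := by
      field_simp
      ring
    have c3 : 768 * (Λ₀.card * S.card) / (η * m ^ 4) / N ≤ 1 := by
      rw [div_le_one hN]
      linarith
    have c4 := mul_le_mul_of_nonneg_left b2 (show 0 ≤ 4 / (N * m) by positivity)
    have c5 := mul_le_mul_of_nonneg_left b3 (show 0 ≤ 256 / (N ^ 2 * m ^ 4) by positivity)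
    nlinarith

end Alpha

theorem alpha_of (hD : DlrStmt) : AlphaStmt :=
  ⟨fun s μ hμ _ hf h01 =>
    have := hμ.prob
    Alpha.lim hD (fun Λ => (hD.egm s μ hμ Λ).1) hf h01,
    fun _ _ hμ S y _ hη hm => Alpha.low hD hμ S y hη hm⟩

end Pool.Agent.Lib.MP_640444_pr
end

-- part Pool.Agent.Lib.MP_640444_pr.TailEq
section

/-!
Two independent samples with at least two infinite components have the same tail.
-/

set_option autoImplicit false
open MeasureTheory Filter Finset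
open scoped Classical Topology ENNReal

namespace Pool.Agent.Lib.MP_640444_pr

namespace TailEq

lemma ind01 (c : Set Cfg) (σ : Cfg) : 0 ≤ ind c σ ∧ ind c σ ≤ 1 := by
  unfold ind
  split_ifs <;> simp

lemma mind {c : Set Cfg} (hc : MeasurableSet c) : Measurable (ind c) :=
  Measurable.ite hc measurable_const measurable_const

lemma gam01 (Λ : Finset V) (c : Set Cfg) (τ : Cfg) :
    0 ≤ gam Λ (ind c) τ ∧ gam Λ (ind c) τ ≤ 1 := by
  refine ⟨div_nonneg (sum_nonneg fun σ _ => (ind01 c σ).1) (Nat.cast_nonneg _),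
    div_le_one_of_le₀ ?_ (Nat.cast_nonneg _)⟩
  simpa using sum_le_card_nsmul (cls Λ τ) (ind c) 1 fun σ _ => (ind01 c σ).2

lemma gam_mono (Λ : Finset V) {c c' : Set Cfg} (h : ∀ σ, IsTiling σ → σ ∈ c → σ ∈ c') (τ : Cfg) :
    gam Λ (ind c) τ ≤ gam Λ (ind c') τ := by
  refine div_le_div_of_nonneg_right (sum_le_sum fun σ hσ => ?_) (Nat.cast_nonneg _)
  by_cases k : σ ∈ c
  · simp [ind, k, h σ (mem_cls.1 hσ).1 k]
  · simpa [ind, k] using (ind01 c' σ).1

lemma mgam (hD : DlrStmt) (Λ : Finset V) {c : Set Cfg} (hc : MeasurableSet c) :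
    Measurable (gam Λ (ind c)) :=
  hD.mgam Cfg Λ id (fun q => ind c q.2) measurable_id ((mind hc).comp measurable_snd)

lemma intg {X : Type} [MeasurableSpace X] (m : Measure X) [IsFiniteMeasure m] {f : X → ℝ}
    (hf : Measurable f) (h : ∀ x, |f x| ≤ 2) : Integrable f m :=
  Integrable.of_bound hf.aestronglyMeasurable 2 (ae_of_all _ h)

lemma b1 {a b : ℝ} (ha : 0 ≤ a ∧ a ≤ 1) (hb : 0 ≤ b ∧ b ≤ 1) : 0 ≤ a * b ∧ a * b ≤ 1 :=
  ⟨mul_nonneg ha.1 hb.1, mul_le_one₀ ha.2 hb.1 hb.2⟩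

lemma b2 {a : ℝ} (ha : 0 ≤ a ∧ a ≤ 1) : |a| ≤ 2 := abs_le.2 ⟨by linarith [ha.1], by linarith [ha.2]⟩

lemma b3 {a b : ℝ} (ha : 0 ≤ a ∧ a ≤ 1) (hb : 0 ≤ b ∧ b ≤ 1) : |a - b| ≤ 1 :=
  abs_le.2 ⟨by linarith [ha.1, hb.2], by linarith [ha.2, hb.1]⟩

lemma b4 {a b : ℝ} (ha : 0 ≤ a ∧ a ≤ 1) (hb : 0 ≤ b ∧ b ≤ 1) : |(|a - b|)| ≤ 2 := by
  rw [abs_abs]
  linarith [b3 ha hb]

/-- `α` is a limit of the conditional probabilities of `c`. -/
structure Lim (μ : Measure Cfg) (c : Set Cfg) (α : Cfg → ℝ) : Prop where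
  ms : Measurable α
  bd : ∀ σ, 0 ≤ α σ ∧ α σ ≤ 1
  tl : ∀ σ σ', {x | σ' x ≠ σ x}.Finite → α σ' = α σ
  lim : Tendsto (fun M : ℕ => ∫ σ, |gam (box M) (ind c) σ - α σ| ∂μ) atTop (𝓝 0)

variable {s : Fin 3 → ℝ} {μ : Measure Cfg} {c c' : Set Cfg} {α α' : Cfg → ℝ}

lemma Lim.fst (h : Lim μ c α) {p q : Om} (k : FinMod p q) : α q.1 = α p.1 :=
  h.tl _ _ (Set.Finite.subset k fun _ hx => Or.inl hx)

lemma Lim.snd (h : Lim μ c α) {p q : Om} (k : FinMod p q) : α q.2 = α p.2 :=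
  h.tl _ _ (Set.Finite.subset k fun _ hx => Or.inr hx)

lemma Lim.congr (h : Lim μ c α) (k : ∀ σ, IsTiling σ → (σ ∈ c ↔ σ ∈ c')) : Lim μ c' α := by
  refine ⟨h.ms, h.bd, h.tl, h.lim.congr fun M => ?_⟩
  have : gam (box M) (ind c) = gam (box M) (ind c') := funext fun τ =>
    le_antisymm (gam_mono _ (fun σ a => (k σ a).1) τ) (gam_mono _ (fun σ a => (k σ a).2) τ)
  rw [this]

lemma Lim.mono (hD : DlrStmt) [IsFiniteMeasure μ] (hc : MeasurableSet c) (hc' : MeasurableSet c')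
    (h : Lim μ c α) (h' : Lim μ c' α') (k : c ⊆ c') : ∀ᵐ σ ∂μ, α σ ≤ α' σ := by
  have i0 : Integrable (fun σ => max (α σ - α' σ) 0) μ :=
    intg μ ((h.ms.sub h'.ms).max measurable_const) fun σ => b2 ⟨le_max_right _ _,
      max_le (by linarith [(h.bd σ).2, (h'.bd σ).1]) zero_le_one⟩
  have z : ∫ σ, max (α σ - α' σ) 0 ∂μ = 0 := by
    refine le_antisymm ?_ (integral_nonneg fun σ => le_max_right _ _)
    have t := h.lim.add h'.lim
    rw [add_zero] at t
    refine ge_of_tendsto' t fun M => ?_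
    have i1 := intg μ ((mgam hD (box M) hc).sub h.ms).abs fun σ => b4 (gam01 _ c σ) (h.bd σ)
    have i2 := intg μ ((mgam hD (box M) hc').sub h'.ms).abs fun σ => b4 (gam01 _ c' σ) (h'.bd σ)
    refine (integral_mono i0 (i1.add i2) fun σ =>
      max_le ?_ (add_nonneg (abs_nonneg _) (abs_nonneg _))).trans (integral_add i1 i2).le
    change _ ≤ |gam (box M) (ind c) σ - α σ| + |gam (box M) (ind c') σ - α' σ|
    have := gam_mono (box M) (fun σ _ a => k a) σ
    linarith [neg_le_abs (gam (box M) (ind c) σ - α σ), le_abs_self (gam (box M) (ind c') σ - α' σ)]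
  filter_upwards [(integral_eq_zero_iff_of_nonneg (fun σ => le_max_right _ _) i0).1 z] with σ hσ
  have := le_max_left (α σ - α' σ) 0
  simp only [Pi.zero_apply] at hσ
  linarith

lemma av_ofReal {β : Type} (T : Finset β) {F : β → ℝ} (h : ∀ x, 0 ≤ F x) (hT : T.Nonempty) :
    av T (fun x => ENNReal.ofReal (F x)) = ENNReal.ofReal ((∑ x ∈ T, F x) / T.card) := by
  rw [av, ENNReal.ofReal_div_of_pos (by exact_mod_cast hT.card_pos), ENNReal.ofReal_natCast,
    ENNReal.ofReal_sum_of_nonneg fun x _ => h x]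

lemma key_fin (hD : DlrStmt) (hμ : IsEGM s μ) (Λ : Finset V) {A : Set Om} (mA : MeasurableSet A)
    (tA : Tail A) (hc : MeasurableSet c) (hc' : MeasurableSet c') :
    (μ.prod μ).real (A ∩ c ×ˢ c') =
      ∫ p in A, gam Λ (ind c) p.1 * gam Λ (ind c') p.2 ∂(μ.prod μ) := by
  have := hμ.prob
  have mB : MeasurableSet (A ∩ c ×ˢ c') := mA.inter (hc.prod hc')
  have F0 : ∀ p, 0 ≤ (A ∩ c ×ˢ c').indicator (1 : Om → ℝ) p := fun p =>
    Set.indicator_nonneg (fun _ _ => zero_le_one) p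
  have g := (hD.egm s μ hμ Λ).2.2 (fun p => ENNReal.ofReal ((A ∩ c ×ˢ c').indicator 1 p))
    (measurable_one.indicator mB).ennreal_ofReal
  have mG : Measurable fun p : Om => gam Λ (ind c) p.1 * gam Λ (ind c') p.2 :=
    ((mgam hD Λ hc).comp measurable_fst).mul ((mgam hD Λ hc').comp measurable_snd)
  have G0 : ∀ p, 0 ≤ A.indicator (fun p : Om => gam Λ (ind c) p.1 * gam Λ (ind c') p.2) p :=
    fun p => Set.indicator_nonneg (fun p _ => (b1 (gam01 _ _ _) (gam01 _ _ _)).1) p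
  rw [← ofReal_integral_eq_lintegral_ofReal ((integrable_const 1).indicator mB) (ae_of_all _ F0),
    lintegral_congr_ae (g := fun p => ENNReal.ofReal
      (A.indicator (fun p : Om => gam Λ (ind c) p.1 * gam Λ (ind c') p.2) p)),
    ← ofReal_integral_eq_lintegral_ofReal
      ((intg _ mG fun p => b2 (b1 (gam01 _ _ _) (gam01 _ _ _))).indicator mA) (ae_of_all _ G0),
    ENNReal.ofReal_eq_ofReal_iff (integral_nonneg G0) (integral_nonneg F0),
    integral_indicator mA, integral_indicator_one mB] at g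
  · exact g.symm
  filter_upwards [prod_til hμ hμ] with p hp
  rw [av_ofReal (cl2 Λ p) F0 ⟨p, mem_product.2 ⟨self_mem_cls hp.1, self_mem_cls hp.2⟩⟩]
  congr 1
  have k : ∀ q ∈ cl2 Λ p, (q ∈ A ↔ p ∈ A) := fun q hq => by
    obtain ⟨k1, k2⟩ := mem_product.1 hq
    rw [mem_cls] at k1 k2
    have f : FinMod p q := Λ.finite_toSet.subset fun x hx => by
      by_contra hn
      exact hx.elim (fun e => e (k1.2 x hn)) fun e => e (k2.2 x hn)
    exact ⟨tA q p ⟨k1.1, k2.1⟩ hp f.symm, tA p q hp ⟨k1.1, k2.1⟩ f⟩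
  by_cases hA : p ∈ A
  · rw [Set.indicator_of_mem hA, gam, gam, div_mul_div_comm, sum_mul_sum, ← sum_product',
      ← Nat.cast_mul, ← card_product]
    congr 1
    refine sum_congr rfl fun q hq => ?_
    by_cases e1 : q.1 ∈ c <;> by_cases e2 : q.2 ∈ c' <;>
      simp [ind, Set.indicator_apply, (k q hq).2 hA, e1, e2]
  · rw [Set.indicator_of_notMem hA, sum_eq_zero fun q hq =>
      Set.indicator_of_notMem (fun e => hA ((k q hq).1 e.1)) _, zero_div]

lemma lim2 (hD : DlrStmt) [IsProbabilityMeasure μ] (hc : MeasurableSet c) (hc' : MeasurableSet c')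
    (h : Lim μ c α) (h' : Lim μ c' α') (A : Set Om) {u : ℕ → Om → ℝ}
    (hu : ∀ M, ∀ᵐ p ∂(μ.prod μ).restrict A, |u M p| ≤ |gam (box M) (ind c) p.1 - α p.1| +
      |gam (box M) (ind c') p.2 - α' p.2|) :
    Tendsto (fun M => ∫ p in A, u M p ∂(μ.prod μ)) atTop (𝓝 0) := by
  have t := h.lim.add h'.lim
  rw [add_zero] at t
  refine squeeze_zero_norm (fun M => ?_) t
  have i1 := intg (μ.prod μ) (((mgam hD (box M) hc).sub h.ms).abs.comp measurable_fst)
    fun p => b4 (gam01 _ c p.1) (h.bd p.1)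
  have i2 := intg (μ.prod μ) (((mgam hD (box M) hc').sub h'.ms).abs.comp measurable_snd)
    fun p => b4 (gam01 _ c' p.2) (h'.bd p.2)
  refine (norm_integral_le_of_norm_le (i1.add i2).restrict (hu M)).trans ?_
  refine (setIntegral_le_integral (i1.add i2)
    (ae_of_all _ fun p => add_nonneg (abs_nonneg _) (abs_nonneg _))).trans (le_of_eq ?_)
  refine (integral_add i1 i2).trans ?_
  have e1 := integral_fun_fst (μ := μ) (ν := μ) fun σ => |gam (box M) (ind c) σ - α σ|
  have e2 := integral_fun_snd (μ := μ) (ν := μ) fun σ => |gam (box M) (ind c') σ - α' σ|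
  simp only [probReal_univ, one_smul] at e1 e2
  rw [← e1, ← e2]
  rfl

lemma key (hD : DlrStmt) (hμ : IsEGM s μ) {A : Set Om} (mA : MeasurableSet A) (tA : Tail A)
    (hc : MeasurableSet c) (hc' : MeasurableSet c') (h : Lim μ c α) (h' : Lim μ c' α') :
    (μ.prod μ).real (A ∩ c ×ˢ c') = ∫ p in A, α p.1 * α' p.2 ∂(μ.prod μ) := by
  have := hμ.prob
  have t := lim2 hD hc hc' h h' A
    (u := fun M p => gam (box M) (ind c) p.1 * gam (box M) (ind c') p.2 - α p.1 * α' p.2)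
    fun M => ae_of_all _ fun p => by
      have a1 := gam01 (box M) c' p.2
      have a2 := h.bd p.1
      rw [show gam (box M) (ind c) p.1 * gam (box M) (ind c') p.2 - α p.1 * α' p.2 =
        (gam (box M) (ind c) p.1 - α p.1) * gam (box M) (ind c') p.2 +
          α p.1 * (gam (box M) (ind c') p.2 - α' p.2) by ring]
      refine (abs_add_le _ _).trans (add_le_add ?_ ?_)
      · rw [abs_mul, abs_of_nonneg a1.1]
        exact mul_le_of_le_one_right (abs_nonneg _) a1.2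
      · rw [abs_mul, abs_of_nonneg a2.1]
        exact mul_le_of_le_one_left (abs_nonneg _) a2.2
  refine sub_eq_zero.1 (tendsto_nhds_unique tendsto_const_nhds (t.congr fun M => ?_))
  rw [key_fin hD hμ (box M) mA tA hc hc', integral_sub]
  · exact intg _ (((mgam hD _ hc).comp measurable_fst).mul ((mgam hD _ hc').comp measurable_snd))
      fun p => b2 (b1 (gam01 _ _ _) (gam01 _ _ _))
  · exact intg _ ((h.ms.comp measurable_fst).mul (h'.ms.comp measurable_snd))
      fun p => b2 (b1 (h.bd _) (h'.bd _))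

lemma gv_sets (D : Finset (V × V)) (w : V) :
    {p : Om | gv D w p 0 = 1} = (cD D ∩ {σ | σ 0 = w}) ×ˢ (cD D \ {σ | σ 0 = w}) ∧
    {p : Om | gv D w p 0 = -1} = (cD D \ {σ | σ 0 = w}) ×ˢ (cD D ∩ {σ | σ 0 = w}) := by
  have hd : ∀ p : Om, dbl D p 0 ↔ p.1 ∈ cD D ∧ p.2 ∈ cD D := fun p => by
    simp only [dbl, cD, zero_add, Set.mem_ofPred_eq]
    exact ⟨fun h => ⟨fun x hx => (h x hx).1, fun x hx => (h x hx).2⟩,
      fun h x hx => ⟨h.1 x hx, h.2 x hx⟩⟩
  constructor <;>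
  · ext p
    simp only [gv, hd, ev_zero, true_and, zero_add, Set.mem_ofPred_eq, Set.mem_prod,
      Set.mem_inter_iff, Set.mem_sdiff]
    split_ifs <;> simp_all
    norm_num

lemma mark (hM : MarkStmt) (hs : Int0 s) (hμ : IsEGM s μ) {A : Set Om} (mA : MeasurableSet A)
    (tA : Tail A) (nA : ∀ p ∈ A, ¬ One p) (D : Finset (V × V)) {u : V} (hu : Ev u) (w : V) :
    (μ.prod μ).real (A ∩ (cD D ∩ {σ | σ u = w}) ×ˢ cD D) =
      (μ.prod μ).real (A ∩ cD D ×ˢ (cD D ∩ {σ | σ u = w})) := by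
  have := hμ.prob
  let D' := D.image fun uw => (uw.1 + -u, uw.2 + -u)
  have e1 : ∀ σ, shift (-u) σ ∈ cD D' ↔ σ ∈ cD D := fun σ => by
    simp only [cD, D', Set.mem_ofPred_eq, mem_image, forall_exists_index, and_imp,
      forall_apply_eq_imp_iff₂, shift_add_apply, add_left_inj]
  have e2 : ∀ σ : Cfg, shift (-u) σ 0 = w + -u ↔ σ u = w := fun σ => by simp [shift]
  have e3 : ∀ p : Om, shift2 u (shift2 (-u) p) = p := fun p => by
    rw [shift2_shift2, neg_add_cancel, shift2_zero]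
  have mA' := measurable_shift2 u mA
  have k := hM s μ μ hs hμ hμ _ mA' (tA.shift u) (fun p hp h => nA _ hp ((one_shift hu p).2 h))
    D' (w + -u)
  have mg : ∀ t : ℝ, MeasurableSet (shift2 u ⁻¹' A ∩ {p | gv D' (w + -u) p 0 = t}) := fun t =>
    mA'.inter (measurable_gv D' _ 0 (measurableSet_singleton t))
  have mp := prod_mp hμ hμ (ev_neg.2 hu)
  rw [← mp.measure_preimage (mg _).nullMeasurableSet, ← mp.measure_preimage (mg _).nullMeasurableSet,
    (gv_sets D' _).1, (gv_sets D' _).2] at k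
  set e : Set Cfg := {σ | σ u = w} with he
  have me : MeasurableSet e := mset_eq (measurable_pi_apply _) measurable_const
  have mB : MeasurableSet (e ×ˢ e : Set Om) := me.prod me
  rw [← measureReal_inter_add_diff mB, ← measureReal_inter_add_diff
    (s := A ∩ cD D ×ˢ (cD D ∩ e)) mB]
  congr 1
  · congr 1
    ext p
    simp only [Set.mem_inter_iff, Set.mem_prod]
    tauto
  · simp only [Measure.real]
    congr 1
    refine Eq.trans ?_ (k.trans ?_) <;>
    · congr 1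
      ext p
      simp only [Set.mem_inter_iff, Set.mem_prod, Set.mem_sdiff, Set.mem_preimage, e3, he,
        Set.mem_ofPred_eq]
      simp only [shift2, e1, e2]
      tauto

/-- The limit agrees for both samples when there are at least two infinite components. -/
def Ok (μ : Measure Cfg) (c : Set Cfg) : Prop :=
  ∃ α, Lim μ c α ∧ ∀ᵐ p ∂(μ.prod μ), ¬ One p → α p.1 = α p.2

lemma ae_nonpos {m : Measure Om} [IsFiniteMeasure m] {φ : Om → ℝ} (mφ : Measurable φ)
    (bφ : ∀ p, |φ p| ≤ 2) (h : ∫ p in {p | One p}ᶜ ∩ {p | 0 < φ p}, φ p ∂m = 0) :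
    ∀ᵐ p ∂m, ¬ One p → φ p ≤ 0 := by
  have mA : MeasurableSet ({p | One p}ᶜ ∩ {p | 0 < φ p}) :=
    mset_one.compl.inter (measurableSet_lt measurable_const mφ)
  have := (setIntegral_eq_zero_iff_of_nonneg_ae
    ((ae_restrict_iff' mA).2 (ae_of_all _ fun p hp => le_of_lt hp.2))
    (intg m mφ bφ).integrableOn).1 h
  filter_upwards [(ae_restrict_iff' mA).1 this] with p hp hn
  by_contra k
  exact (not_le.1 k).ne' (hp ⟨hn, not_le.1 k⟩)

lemma step (hD : DlrStmt) (hA : AlphaStmt) (hM : MarkStmt) (hs : Int0 s) (hμ : IsEGM s μ)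
    (D : Finset (V × V)) {u : V} (hu : Ev u) (w : V) (h : Ok μ (cD D)) :
    Ok μ (cD D ∩ {σ | σ u = w}) := by
  have := hμ.prob
  have m0 := mset_cD D
  have m1 : MeasurableSet (cD D ∩ {σ | σ u = w}) :=
    m0.inter (mset_eq (measurable_pi_apply _) measurable_const)
  obtain ⟨a0, h0, k0⟩ := h
  obtain ⟨a1, g1, g2, g3, g4⟩ := hA.lim s μ hμ _ (mind m1) (ind01 _)
  have h1 : Lim μ _ a1 := ⟨g1, g2, g3, g4⟩
  refine ⟨a1, h1, ?_⟩
  have mf : Measurable fun p : Om => a1 p.1 * a0 p.2 :=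
    (g1.comp measurable_fst).mul (h0.ms.comp measurable_snd)
  have mg : Measurable fun p : Om => a0 p.1 * a1 p.2 :=
    (h0.ms.comp measurable_fst).mul (g1.comp measurable_snd)
  have bf : ∀ p : Om, _ := fun p => b1 (g2 p.1) (h0.bd p.2)
  have bg : ∀ p : Om, _ := fun p => b1 (h0.bd p.1) (g2 p.2)
  have z : ∀ B : Set Om, MeasurableSet B → Tail B →
      ∫ p in {p | One p}ᶜ ∩ B, a1 p.1 * a0 p.2 ∂(μ.prod μ) =
        ∫ p in {p | One p}ᶜ ∩ B, a0 p.1 * a1 p.2 ∂(μ.prod μ) := fun B mB tB => by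
    have mA := mset_one.compl.inter mB
    have tA := tail_one.compl.inter tB
    rw [← key hD hμ mA tA m1 m0 h1 h0, ← key hD hμ mA tA m0 m1 h0 h1]
    exact mark hM hs hμ mA tA (fun p hp => hp.1) D hu w
  have z1 := ae_nonpos (m := μ.prod μ) (φ := fun p => a1 p.1 * a0 p.2 - a0 p.1 * a1 p.2)
    (mf.sub mg) (fun p => (b3 (bf p) (bg p)).trans one_le_two)
    (by
      rw [integral_sub (intg _ mf fun p => b2 (bf p)) (intg _ mg fun p => b2 (bg p)), sub_eq_zero]
      refine z _ (measurableSet_lt measurable_const (mf.sub mg)) fun p q _ _ f hp => ?_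
      rwa [Set.mem_ofPred_eq, h0.fst f, h0.snd f, h1.fst f, h1.snd f])
  have z2 := ae_nonpos (m := μ.prod μ) (φ := fun p => a0 p.1 * a1 p.2 - a1 p.1 * a0 p.2)
    (mg.sub mf) (fun p => (b3 (bg p) (bf p)).trans one_le_two)
    (by
      rw [integral_sub (intg _ mg fun p => b2 (bg p)) (intg _ mf fun p => b2 (bf p)), sub_eq_zero]
      refine (z _ (measurableSet_lt measurable_const (mg.sub mf)) fun p q _ _ f hp => ?_).symm
      rwa [Set.mem_ofPred_eq, Pi.sub_apply, h0.fst f, h0.snd f, h1.fst f, h1.snd f])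
  have le := h1.mono hD m1 m0 h0 Set.inter_subset_left
  filter_upwards [k0, z1, z2, (measurePreserving_fst (μ := μ) (ν := μ)).quasiMeasurePreserving.ae le,
    (measurePreserving_snd (μ := μ) (ν := μ)).quasiMeasurePreserving.ae le] with p e0 e1 e2 l1 l2 hn
  have e0 := e0 hn
  have e3 : a0 p.1 * (a1 p.1 - a1 p.2) = 0 := by
    have e1 := e1 hn
    have e2 := e2 hn
    rw [← e0] at e1 e2
    linarith
  rcases mul_eq_zero.1 e3 with e | e
  · linarith [(g2 p.1).1, (g2 p.2).1]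
  · linarith

lemma ok_cD (hD : DlrStmt) (hA : AlphaStmt) (hM : MarkStmt) (hs : Int0 s) (hμ : IsEGM s μ)
    (D : Finset (V × V)) : Ok μ (cD D) := by
  induction D using Finset.induction_on with
  | empty =>
    refine ⟨fun _ => 1, ⟨measurable_const, fun _ => by simp, fun _ _ _ => rfl,
      tendsto_const_nhds.congr fun M => (integral_eq_zero_of_ae ?_).symm⟩, by simp⟩
    filter_upwards [hμ.tiling] with σ hσ
    have : ((cls (box M) σ).card : ℝ) ≠ 0 := by
      exact_mod_cast (card_pos.2 ⟨σ, self_mem_cls hσ⟩).ne'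
    simp [gam, ind, cD, this]
  | insert uw D _ ih =>
    have e : cD (insert uw D) = cD D ∩ {σ | σ uw.1 = uw.2} := by
      ext σ; simp [cD, and_comm]
    rw [e]
    by_cases hu : Ev uw.1
    · exact step hD hA hM hs hμ D hu _ ih
    by_cases hw : Ev uw.2
    · obtain ⟨a, k1, k2⟩ := step hD hA hM hs hμ D hw uw.1 ih
      refine ⟨a, k1.congr fun σ hσ => and_congr_right fun _ => ⟨fun h => ?_, fun h => ?_⟩, k2⟩
      · have h' : σ uw.2 = uw.1 := h
        change σ uw.1 = uw.2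
        rw [← h', (hσ _).2]
      · have h' : σ uw.1 = uw.2 := h
        change σ uw.2 = uw.1
        rw [← h', (hσ _).2]
    · have l0 : Lim μ ∅ fun _ => 0 := ⟨measurable_const, fun _ => by simp, fun _ _ _ => rfl,
        by simp [gam, ind]⟩
      refine ⟨_, l0.congr fun σ hσ => ⟨fun h => h.elim, fun h => hw ?_⟩, by simp⟩
      have h' : σ uw.1 = uw.2 := h.2
      rw [← h']
      exact (IsTiling.ev hσ _).2 hu

end TailEq

open TailEq in
theorem tail_of (hD : DlrStmt) (hA : AlphaStmt) (hM : MarkStmt) : TailStmt := by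
  intro s μ hs hμ S y
  have := hμ.prob
  have e : cylG S y = cD (S.image fun x => (x, y x)) := by
    ext σ; simp [cylG, cD]
  rw [e]
  obtain ⟨α, h, k⟩ := ok_cD hD hA hM hs hμ (S.image fun x => (x, y x))
  refine lim2 hD (mset_cD _) (mset_cD _) h h _ fun M => (ae_restrict_iff' mset_one.compl).2 ?_
  filter_upwards [k] with p hp hn
  rw [abs_abs, ← hp hn, abs_sub_comm _ (α p.1)]
  rw [abs_sub_comm (α p.1), abs_sub_comm (gam _ _ p.2)]
  exact abs_sub_le _ _ _

end Pool.Agent.Lib.MP_640444_pr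
end
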