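import Pool.Agent.Lib.MP_640444_pr.Dlr
import Pool.Agent.Lib.MP_640444_pr.Mark

import Pool.Agent.Lib.MP_640444_pr.TailEq

import Pool.Agent.Lib.MP_640444_pr.Order


import Pool.Agent.Lib.MP_640444_pr.Krs


import Pool.Agent.Lib.MP_640444_pr.Ext

import Pool.Agent.Lib.MP_640444_pr.PairB


import Pool.Agent.Lib.MP_640444_pr.Approx




/-!
Existence and uniqueness of the ergodic Gibbs measure with a given interior mean current.
-/

set_option autoImplicit false

namespace Pool.Agent.Lib.MP_640444_pr

theorem uniq_all : UniqStmt :=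
  uniq_of dlr (alpha_of dlr) (trans_of dlr (tail_of dlr (alpha_of dlr) (mark_of entM))) typ
    (hyb_of typ order hybDet) (core_of krs)

theorem exist_all : ExistStmt :=
  exist_of (ext_of (approx_of shan)) (mst_of shan) (pair_ofB shan) (flip_of shan) (cur_of sstmt)

end Pool.Agent.Lib.MP_640444_pr
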