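import Pool.Agent.Lib.MP_640444_pr.Stmt
import Pool.Agent.Shared.Ergodic.Birkhoff

-- part Pool.Agent.Lib.MP_640444_pr.Defs
section

/-!
Working definitions for the double dimer model on Z^3 and a few basic lemmas.
-/

set_option autoImplicit false
open MeasureTheory Filter Topology Finset
open scoped Classical

namespace Pool.Agent.Lib.MP_640444_pr

abbrev V := Fin 3 → ℤ
abbrev Cfg := V → V
abbrev Om := Cfg × Cfg

def Adj (x y : V) : Prop := (∑ i, |y i - x i|) = 1
def Ev (x : V) : Prop := Even (∑ i, x i)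
def IsTiling (a : Cfg) : Prop := ∀ x, Adj x (a x) ∧ a (a x) = x
/-- near tiling: an involution whose non fixed points move to a neighbour -/
def NT (a : Cfg) : Prop := ∀ x, a (a x) = x ∧ (a x = x ∨ Adj x (a x))
def Til (p : Om) : Prop := IsTiling p.1 ∧ IsTiling p.2
def shift (v : V) (a : Cfg) : Cfg := fun x => a (x - v) + v
def shift2 (v : V) (p : Om) : Om := (shift v p.1, shift v p.2)

noncomputable def box (r : ℕ) : Finset V := Fintype.piFinset fun _ => Finset.Icc (-(r : ℤ)) r
noncomputable def cell (l : ℕ) (z : V) : Finset V :=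
  Fintype.piFinset fun i => Finset.Ico ((l : ℤ) * z i) ((l : ℤ) * z i + l)
noncomputable def sgn (x : V) : ℤ := if Ev x then 1 else -1
/-- total deviation of the current from `s` on the even points of `Q` -/
noncomputable def dev (s : Fin 3 → ℝ) (a : Cfg) (i : Fin 3) (Q : Finset V) : ℝ :=
  ∑ x ∈ Q with Ev x, (((a x i - x i : ℤ) : ℝ) - s i)
def Close (s : Fin 3 → ℝ) (δ : ℝ) (K l : ℕ) (a : Cfg) : Prop :=
  ∀ z ∈ box (K + 1), ∀ i, |dev s a i (cell l z)| ≤ δ * (l : ℝ) ^ 3

/-- exchange the two configurations on `F` -/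
noncomputable def flp (F : Set V) (p : Om) : Om :=
  (fun x => if x ∈ F then p.2 x else p.1 x, fun x => if x ∈ F then p.1 x else p.2 x)
def Invar (p : Om) (F : Set V) : Prop := ∀ x, (p.1 x ∈ F ↔ x ∈ F) ∧ (p.2 x ∈ F ↔ x ∈ F)
/-- `F` contains no finite component -/
def NoFin (p : Om) (F : Set V) : Prop :=
  ∀ G : Set V, G ⊆ F → G.Finite → (∀ x ∈ G, p.1 x ∈ G ∧ p.2 x ∈ G) → G = ∅
def Adm (Λ : Finset V) (τ : Cfg) : Prop := ∀ x ∈ Λ, Adj x (τ x) ∧ (τ x ∈ Λ → τ (τ x) = x)
def SameBd (Λ : Finset V) (τ₁ τ₂ : Cfg) : Prop := ∀ x ∈ Λ, (τ₁ x ∉ Λ ∨ τ₂ x ∉ Λ) → τ₁ x = τ₂ x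
/-- two admissible double patterns on `Λ` with the same boundary dimers -/
def Swp (Λ : Finset V) (y y' : Om) : Prop :=
  Adm Λ y.1 ∧ Adm Λ y.2 ∧ Adm Λ y'.1 ∧ Adm Λ y'.2 ∧ SameBd Λ y.1 y'.1 ∧ SameBd Λ y.2 y'.2
def cyl (S : Finset V) (y : Om) : Set Om := {p | ∀ x ∈ S, p.1 x = y.1 x ∧ p.2 x = y.2 x}
def Patchable (r L : ℕ) (a a' : Cfg) : Prop :=
  ∃ σ, IsTiling σ ∧ (∀ x ∈ box r, σ x = a' x) ∧ ∀ x, x ∉ box L → σ x = a x

/-- one step along the oriented double dimer component -/
noncomputable def stp (p : Om) (x : V) : V := if Ev x then p.1 x else p.2 x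
def dbl (D : Finset (V × V)) (p : Om) (x : V) : Prop :=
  ∀ uw ∈ D, p.1 (x + uw.1) = x + uw.2 ∧ p.2 (x + uw.1) = x + uw.2
/-- the orientation odd local statistic -/
noncomputable def gv (D : Finset (V × V)) (w : V) (p : Om) (x : V) : ℝ :=
  if Ev x ∧ dbl D p x then
    (if p.1 x = x + w then 1 else 0) - (if p.2 x = x + w then 1 else 0) else 0
def OutLab (D : Finset (V × V)) (w : V) (p : Om) (x : V) (L : ℝ) : Prop :=
  Tendsto (fun n : ℕ => (n : ℝ)⁻¹ * ∑ k ∈ range (2 * n), gv D w p ((stp p)^[k] x)) atTop (𝓝 L)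
def Pure (D : Finset (V × V)) (w : V) (p : Om) : Prop :=
  ∀ x, ∃ L, OutLab D w p x L ∧ OutLab D w p.swap x (-L)
/-- the backward ray from `x` -/
def bray (p : Om) (x : V) : Set V := Set.range fun k : ℕ => (stp p.swap)^[k] x

/-- the two double configurations have the same union outside a finite set -/
def Unor (p p' : Om) : Prop :=
  {x | ¬ ((p'.1 x = p.1 x ∧ p'.2 x = p.2 x) ∨ (p'.1 x = p.2 x ∧ p'.2 x = p.1 x))}.Finite
/-- equality outside a finite set -/
def FinMod (p p' : Om) : Prop := {x | p'.1 x ≠ p.1 x ∨ p'.2 x ≠ p.2 x}.Finite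

lemma mem_box {r : ℕ} {x : V} : x ∈ box r ↔ ∀ i, |x i| ≤ r := by
  simp [box, Fintype.mem_piFinset, abs_le]

lemma mem_cell {l : ℕ} {z x : V} :
    x ∈ cell l z ↔ ∀ i, (l : ℤ) * z i ≤ x i ∧ x i < (l : ℤ) * z i + l := by
  simp [cell, Fintype.mem_piFinset]

lemma card_box (r : ℕ) : (box r).card = (2 * r + 1) ^ 3 := by
  have : ((r : ℤ) + 1 - -(r : ℤ)).toNat = 2 * r + 1 := by omega
  simp only [box, Fintype.card_piFinset, Int.card_Icc, this, prod_const, card_univ,
    Fintype.card_fin]

lemma card_cell (l : ℕ) (z : V) : (cell l z).card = l ^ 3 := by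
  simp [cell, Fintype.card_piFinset]

lemma adj_symm {x y : V} (h : Adj x y) : Adj y x := by
  unfold Adj at *
  rw [← h]
  exact sum_congr rfl fun i _ => abs_sub_comm _ _

lemma Adj.ne {x y : V} (h : Adj x y) : y ≠ x := by
  rintro rfl
  simp [Adj] at h

lemma Adj.coord {x y : V} (h : Adj x y) (i : Fin 3) : |y i - x i| ≤ 1 := by
  unfold Adj at h
  rw [← h]
  exact single_le_sum (f := fun i => |y i - x i|) (fun _ _ => abs_nonneg _) (mem_univ i)

lemma Adj.ev {x y : V} (h : Adj x y) : Ev y ↔ ¬ Ev x := by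
  unfold Adj at h
  unfold Ev
  simp only [Fin.sum_univ_three] at h ⊢
  rw [Int.even_iff, Int.even_iff]
  rcases abs_cases (y 0 - x 0) with h0 | h0 <;> rcases abs_cases (y 1 - x 1) with h1 | h1 <;>
    rcases abs_cases (y 2 - x 2) with h2 | h2 <;> omega

lemma ev_add {x v : V} (hv : Ev v) : Ev (x + v) ↔ Ev x := by
  unfold Ev at *
  simp only [Pi.add_apply, sum_add_distrib]
  rw [Int.even_add]
  simp [hv]

lemma ev_neg {v : V} : Ev (-v) ↔ Ev v := by
  unfold Ev
  simp only [Pi.neg_apply, sum_neg_distrib, even_neg]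

lemma ev_zero : Ev 0 := by simp [Ev]

lemma IsTiling.nt {a : Cfg} (h : IsTiling a) : NT a := fun x => ⟨(h x).2, Or.inr (h x).1⟩

end Pool.Agent.Lib.MP_640444_pr
end

-- part Pool.Agent.Lib.MP_640444_pr.Meas
section

/-!
Translations, measurability, cylinder sets, and the product of two Gibbs measures.
-/

set_option autoImplicit false
open MeasureTheory Filter Topology Finset
open scoped Classical

namespace Pool.Agent.Lib.MP_640444_pr

section shift

lemma shift_add_apply (v : V) (a : Cfg) (x : V) : shift v a (x + v) = a x + v := by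
  simp [shift]

lemma shift_shift (u v : V) (a : Cfg) : shift u (shift v a) = shift (v + u) a := by
  funext x
  simp only [shift]
  rw [show x - u - v = x - (v + u) by abel]
  abel

lemma shift_zero (a : Cfg) : shift 0 a = a := by
  funext x; simp [shift]

lemma shift2_shift2 (u v : V) (p : Om) : shift2 u (shift2 v p) = shift2 (v + u) p := by
  simp [shift2, shift_shift]

lemma shift2_zero (p : Om) : shift2 0 p = p := by
  simp [shift2, shift_zero]

lemma shift2_swap (v : V) (p : Om) : (shift2 v p).swap = shift2 v p.swap := rfl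

lemma adj_add (x y v : V) : Adj (x + v) (y + v) ↔ Adj x y := by
  simp [Adj]

lemma isTiling_shift {a : Cfg} (h : IsTiling a) (v : V) : IsTiling (shift v a) := by
  intro x
  obtain ⟨y, rfl⟩ : ∃ y, x = y + v := ⟨x - v, by simp⟩
  rw [shift_add_apply, shift_add_apply, adj_add, (h y).2]
  exact ⟨(h y).1, rfl⟩

lemma isTiling_shift_iff (a : Cfg) (v : V) : IsTiling (shift v a) ↔ IsTiling a := by
  refine ⟨fun h => ?_, fun h => isTiling_shift h v⟩
  have := isTiling_shift h (-v)
  rwa [shift_shift, add_neg_cancel, shift_zero] at this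

lemma til_shift2_iff (p : Om) (v : V) : Til (shift2 v p) ↔ Til p := by
  simp [Til, shift2, isTiling_shift_iff]

lemma Til.swap {p : Om} (h : Til p) : Til p.swap := ⟨h.2, h.1⟩

lemma til_swap_iff (p : Om) : Til p.swap ↔ Til p := ⟨fun h => h.swap, fun h => h.swap⟩

end shift

section meas

variable {X : Type*} [MeasurableSpace X]

lemma meas_app {β : Type*} [MeasurableSpace β] {a : X → V → β} {h : X → V} (ha : Measurable a)
    (hh : Measurable h) : Measurable fun ω => a ω (h ω) := by
  have : Measurable fun q : X × V => a q.1 q.2 :=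
    measurable_from_prod_countable_left fun y => (measurable_pi_apply y).comp ha
  exact this.comp (measurable_id.prodMk hh)

lemma mset_eq {f g : X → V} (hf : Measurable f) (hg : Measurable g) :
    MeasurableSet {ω | f ω = g ω} := measurableSet_eq_fun hf hg

lemma mset_prop {f : X → V} (hf : Measurable f) (Q : V → Prop) :
    MeasurableSet {ω | Q (f ω)} :=
  hf (Set.to_countable {x | Q x}).measurableSet

lemma measurable_shift (v : V) : Measurable (shift v) :=
  measurable_pi_lambda _ fun x =>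
    (measurable_of_countable (fun y : V => y + v)).comp (measurable_pi_apply (x - v))

lemma measurable_shift2 (v : V) : Measurable (shift2 v) :=
  ((measurable_shift v).comp measurable_fst).prodMk ((measurable_shift v).comp measurable_snd)

lemma measurable_shift2' {z : X → V} {p : X → Om} (hz : Measurable z) (hp : Measurable p) :
    Measurable fun ω => shift2 (z ω) (p ω) := by
  have : Measurable fun q : Om × V => shift2 q.2 q.1 :=
    measurable_from_prod_countable_left fun y => measurable_shift2 y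
  exact this.comp (hp.prodMk hz)

lemma mset_isTiling : MeasurableSet {a : Cfg | IsTiling a} := by
  have : {a : Cfg | IsTiling a} = ⋂ x, ({a : Cfg | Adj x (a x)} ∩ {a : Cfg | a (a x) = x}) := by
    ext a; simp [IsTiling]
  rw [this]
  refine MeasurableSet.iInter fun x => MeasurableSet.inter ?_ ?_
  · exact mset_prop (measurable_pi_apply x) (Adj x)
  · exact mset_eq (meas_app measurable_id (measurable_pi_apply x)) measurable_const

lemma mset_til : MeasurableSet {p : Om | Til p} :=
  (measurable_fst mset_isTiling).inter (measurable_snd mset_isTiling)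

lemma mset_cyl (S : Finset V) (y : Om) : MeasurableSet (cyl S y) := by
  have : cyl S y = ⋂ x ∈ S, ({p : Om | p.1 x = y.1 x} ∩ {p : Om | p.2 x = y.2 x}) := by
    ext p; simp [cyl]
  rw [this]
  refine MeasurableSet.biInter S.countable_toSet fun x _ => MeasurableSet.inter ?_ ?_
  · exact mset_eq ((measurable_pi_apply x).comp measurable_fst) measurable_const
  · exact mset_eq ((measurable_pi_apply x).comp measurable_snd) measurable_const

lemma measurable_flp {F : X → Set V} {p : X → Om} (hp : Measurable p)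
    (hF : ∀ x, MeasurableSet {ω | x ∈ F ω}) : Measurable fun ω => flp (F ω) (p ω) := by
  refine Measurable.prodMk (measurable_pi_lambda _ fun x => ?_)
    (measurable_pi_lambda _ fun x => ?_)
  · exact Measurable.ite (hF x) ((measurable_pi_apply x).comp (measurable_snd.comp hp))
      ((measurable_pi_apply x).comp (measurable_fst.comp hp))
  · exact Measurable.ite (hF x) ((measurable_pi_apply x).comp (measurable_fst.comp hp))
      ((measurable_pi_apply x).comp (measurable_snd.comp hp))

end meas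

/-- cylinder sets for functions on the lattice -/
def cylG {β : Type} (S : Finset V) (y : V → β) : Set (V → β) := {σ | ∀ x ∈ S, σ x = y x}

lemma ext_cylG {β : Type} [MeasurableSpace β] [Countable β] [MeasurableSingletonClass β]
    [Nonempty β] (m₁ m₂ : Measure (V → β)) [IsFiniteMeasure m₁]
    (h : ∀ S y, m₁ (cylG S y) = m₂ (cylG S y)) : m₁ = m₂ := by
  let C : Set (Set (V → β)) := {A | ∃ S y, A = cylG S y}
  have hpi : IsPiSystem C := by
    rintro _ ⟨S, y, rfl⟩ _ ⟨S', y', rfl⟩ ⟨σ, h1, h2⟩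
    refine ⟨S ∪ S', σ, ?_⟩
    ext τ
    simp only [cylG, Set.mem_inter_iff, Set.mem_ofPred_eq, mem_union] at h1 h2 ⊢
    constructor
    · rintro ⟨a, b⟩ x (hx | hx)
      · rw [a x hx, h1 x hx]
      · rw [b x hx, h2 x hx]
    · intro a
      exact ⟨fun x hx => by rw [a x (Or.inl hx), h1 x hx],
        fun x hx => by rw [a x (Or.inr hx), h2 x hx]⟩
  have hgen : (inferInstance : MeasurableSpace (V → β)) = MeasurableSpace.generateFrom C := by
    apply le_antisymm
    · have : @Measurable _ _ (MeasurableSpace.generateFrom C) inferInstance (id : (V → β) → _) := by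
        refine @measurable_pi_lambda _ _ _ (MeasurableSpace.generateFrom C) _ _ fun x => ?_
        refine @measurable_to_countable' _ _ _ _ (MeasurableSpace.generateFrom C) _ fun b => ?_
        refine MeasurableSpace.measurableSet_generateFrom ⟨{x}, fun _ => b, ?_⟩
        ext τ; simp [cylG]
      exact fun A hA => this hA
    · refine MeasurableSpace.generateFrom_le ?_
      rintro _ ⟨S, y, rfl⟩
      have : cylG S y = ⋂ x ∈ S, (fun σ : V → β => σ x) ⁻¹' {y x} := by
        ext σ; simp [cylG]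
      rw [this]
      exact MeasurableSet.biInter S.countable_toSet fun x _ =>
        measurable_pi_apply x (measurableSet_singleton _)
  refine ext_of_generate_finite C hgen hpi ?_ ?_
  · rintro _ ⟨S, y, rfl⟩; exact h S y
  · have := h ∅ (fun _ => Classical.arbitrary β)
    simpa [cylG] using this

lemma ext_cyl (m₁ m₂ : Measure Om) [IsFiniteMeasure m₁]
    (h : ∀ S y, m₁ (cyl S y) = m₂ (cyl S y)) : m₁ = m₂ := by
  let e : Om ≃ᵐ (V → V × V) := (MeasurableEquiv.arrowProdEquivProdArrow V V V).symm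
  have : m₁.map e = m₂.map e := by
    refine ext_cylG _ _ fun S y => ?_
    rw [MeasurableEquiv.map_apply, MeasurableEquiv.map_apply]
    have : e ⁻¹' cylG S y = cyl S (fun x => (y x).1, fun x => (y x).2) := by
      ext p
      simp only [cylG, cyl, Set.mem_preimage, Set.mem_ofPred_eq]
      refine forall₂_congr fun x _ => ?_
      exact Prod.ext_iff
    rw [this, h]
  exact e.map_measurableEquiv_injective this

lemma cyl_shift (v : V) (S : Finset V) (y : Om) :
    shift2 v ⁻¹' cyl (S.image (· + v)) (shift2 v y) = cyl S y := by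
  ext p
  simp only [cyl, Set.mem_preimage, Set.mem_ofPred_eq, mem_image, forall_exists_index, and_imp,
    forall_apply_eq_imp_iff₂, shift2, shift_add_apply, add_left_inj]

section prod

variable {s : Fin 3 → ℝ} {μ₁ μ₂ : Measure Cfg}

lemma IsEGM.mp {μ : Measure Cfg} (h : IsEGM s μ) {v : V} (hv : Ev v) :
    MeasurePreserving (shift v) μ μ := ⟨measurable_shift v, h.inv v hv⟩

lemma prod_mp (h₁ : IsEGM s μ₁) (h₂ : IsEGM s μ₂) {v : V} (hv : Ev v) :
    MeasurePreserving (shift2 v) (μ₁.prod μ₂) (μ₁.prod μ₂) := by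
  have := h₁.prob
  have := h₂.prob
  exact (h₁.mp hv).prod (h₂.mp hv)

lemma prod_til (h₁ : IsEGM s μ₁) (h₂ : IsEGM s μ₂) : ∀ᵐ p ∂(μ₁.prod μ₂), Til p := by
  have := h₁.prob
  have := h₂.prob
  have a1 : ∀ᵐ p ∂(μ₁.prod μ₂), IsTiling p.1 :=
    (measurePreserving_fst (μ := μ₁) (ν := μ₂)).quasiMeasurePreserving.ae h₁.tiling
  have a2 : ∀ᵐ p ∂(μ₁.prod μ₂), IsTiling p.2 :=
    (measurePreserving_snd (μ := μ₁) (ν := μ₂)).quasiMeasurePreserving.ae h₂.tiling
  filter_upwards [a1, a2] with p h1 h2 using ⟨h1, h2⟩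

lemma cyl_eq_prod (S : Finset V) (y : Om) : cyl S y = cylG S y.1 ×ˢ cylG S y.2 := by
  ext p
  simp only [cyl, cylG, Set.mem_ofPred_eq, Set.mem_prod]
  exact ⟨fun h => ⟨fun x hx => (h x hx).1, fun x hx => (h x hx).2⟩,
    fun h x hx => ⟨h.1 x hx, h.2 x hx⟩⟩

lemma prod_gibbs (h₁ : IsEGM s μ₁) (h₂ : IsEGM s μ₂) (Λ : Finset V) (y y' : Om)
    (h : Swp Λ y y') : (μ₁.prod μ₂) (cyl Λ y) = (μ₁.prod μ₂) (cyl Λ y') := by
  have := h₁.prob
  have := h₂.prob
  obtain ⟨a1, a2, a3, a4, a5, a6⟩ := h
  have e1 := h₁.gibbs Λ y.1 y'.1 a1 a3 a5 Set.univ MeasurableSet.univ (fun _ _ _ _ => trivial)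
  have e2 := h₂.gibbs Λ y.2 y'.2 a2 a4 a6 Set.univ MeasurableSet.univ (fun _ _ _ _ => trivial)
  rw [Set.inter_univ, Set.inter_univ] at e1 e2
  rw [cyl_eq_prod, cyl_eq_prod, Measure.prod_prod, Measure.prod_prod]
  exact congrArg₂ (· * ·) e1 e2

end prod

end Pool.Agent.Lib.MP_640444_pr
end

-- part Pool.Agent.Lib.MP_640444_pr.Orb
section

/-!
The permutation attached to a pair of tilings, its orbits (the double dimer components),
canonical representatives, and the link with the graph of the symmetric difference.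
-/

set_option autoImplicit false
open MeasureTheory Filter Topology Finset
open scoped Classical

namespace Pool.Agent.Lib.MP_640444_pr

lemma IsTiling.ev {a : Cfg} (h : IsTiling a) (x : V) : Ev (a x) ↔ ¬ Ev x := (h x).1.ev

lemma stp_of_ev {p : Om} {x : V} (hx : Ev x) : stp p x = p.1 x := if_pos hx
lemma stp_of_odd {p : Om} {x : V} (hx : ¬ Ev x) : stp p x = p.2 x := if_neg hx

lemma stp_swap_stp {p : Om} (hp : Til p) (x : V) : stp p.swap (stp p x) = x := by
  by_cases hx : Ev x
  · rw [stp_of_ev hx, stp_of_odd (by rw [hp.1.ev]; simpa using hx)]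
    exact (hp.1 x).2
  · rw [stp_of_odd hx, stp_of_ev (by rw [hp.2.ev]; exact hx)]
    exact (hp.2 x).2

lemma stp_adj {p : Om} (hp : Til p) (x : V) : Adj x (stp p x) := by
  by_cases hx : Ev x
  · rw [stp_of_ev hx]; exact (hp.1 x).1
  · rw [stp_of_odd hx]; exact (hp.2 x).1

/-- the permutation of a pair of tilings -/
noncomputable def prm (p : Om) : Equiv.Perm V :=
  if h : Til p then ⟨stp p, stp p.swap, stp_swap_stp h, stp_swap_stp h.swap⟩ else 1

lemma prm_apply (p : Om) (x : V) : prm p x = if Til p then stp p x else x := by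
  unfold prm
  split_ifs <;> rfl

lemma prm_coe {p : Om} (hp : Til p) : (prm p : V → V) = stp p := by
  funext x; rw [prm_apply, if_pos hp]

lemma prm_swap (p : Om) : prm p.swap = (prm p)⁻¹ := by
  unfold prm
  by_cases h : Til p
  · rw [dif_pos h, dif_pos h.swap]; rfl
  · rw [dif_neg h, dif_neg (fun h' => h h'.swap)]; rfl

lemma prm_shift {v : V} (hv : Ev v) (p : Om) (x : V) :
    prm (shift2 v p) (x + v) = prm p x + v := by
  rw [prm_apply, prm_apply, til_shift2_iff]
  split_ifs
  · unfold stp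
    rw [ev_add hv]
    split_ifs <;> simp [shift2, shift_add_apply]
  · rfl

lemma prm_iter_shift {v : V} (hv : Ev v) (p : Om) (k : ℕ) (x : V) :
    (prm (shift2 v p))^[k] (x + v) = (prm p)^[k] x + v := by
  induction k with
  | zero => rfl
  | succ k ih => rw [Function.iterate_succ_apply', Function.iterate_succ_apply', ih, prm_shift hv]

lemma measurable_prm : Measurable fun p : Om => (prm p : V → V) := by
  refine measurable_pi_lambda _ fun x => ?_
  simp_rw [prm_apply]
  refine Measurable.ite mset_til ?_ measurable_const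
  unfold stp
  split_ifs
  · exact (measurable_pi_apply x).comp measurable_fst
  · exact (measurable_pi_apply x).comp measurable_snd

lemma measurable_prm_iter (k : ℕ) (x : V) : Measurable fun p : Om => (prm p)^[k] x := by
  induction k with
  | zero => exact measurable_const
  | succ k ih =>
    simp_rw [Function.iterate_succ_apply']
    exact meas_app measurable_prm ih

/-- same double dimer component -/
def Cm (p : Om) (x y : V) : Prop := (prm p).SameCycle x y

/-- infinite component -/
def Inf (p : Om) (x : V) : Prop := Function.Injective fun k : ℕ => (prm p)^[k] x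

lemma cm_iff (p : Om) (x y : V) :
    Cm p x y ↔ ∃ k : ℕ, (prm p)^[k] x = y ∨ (prm p)^[k] y = x := by
  constructor
  · rintro ⟨i, hi⟩
    obtain ⟨k, rfl | rfl⟩ := Int.eq_nat_or_neg i
    · exact ⟨k, Or.inl (by rw [← hi, zpow_natCast, Equiv.Perm.coe_pow])⟩
    · refine ⟨k, Or.inr ?_⟩
      rw [← hi, ← Equiv.Perm.coe_pow, zpow_neg, zpow_natCast]
      simp
  · rintro ⟨k, h | h⟩
    · exact ⟨k, by rw [zpow_natCast, Equiv.Perm.coe_pow, h]⟩
    · exact Equiv.Perm.SameCycle.symm ⟨k, by rw [zpow_natCast, Equiv.Perm.coe_pow, h]⟩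

lemma Cm.refl (p : Om) (x : V) : Cm p x x := Equiv.Perm.SameCycle.refl _ _
lemma Cm.symm {p : Om} {x y : V} (h : Cm p x y) : Cm p y x := Equiv.Perm.SameCycle.symm h
lemma Cm.trans {p : Om} {x y z : V} (h : Cm p x y) (h' : Cm p y z) : Cm p x z :=
  Equiv.Perm.SameCycle.trans h h'

lemma cm_prm (p : Om) (x : V) : Cm p x (prm p x) := ⟨1, by simp⟩
lemma cm_prm_inv (p : Om) (x : V) : Cm p x ((prm p)⁻¹ x) := ⟨-1, by simp⟩

lemma cm_swap (p : Om) (x y : V) : Cm p.swap x y ↔ Cm p x y := by
  unfold Cm; rw [prm_swap, Equiv.Perm.sameCycle_inv]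

lemma fst_cases {p : Om} (hp : Til p) (x : V) :
    (p.1 x = prm p x ∧ p.2 x = (prm p)⁻¹ x) ∨ (p.2 x = prm p x ∧ p.1 x = (prm p)⁻¹ x) := by
  rw [← prm_swap, prm_coe hp, prm_coe hp.swap]
  by_cases hx : Ev x
  · left; rw [stp_of_ev hx, stp_of_ev hx]; exact ⟨rfl, rfl⟩
  · right; rw [stp_of_odd hx, stp_of_odd hx]; exact ⟨rfl, rfl⟩

lemma cm_fst {p : Om} (hp : Til p) (x : V) : Cm p x (p.1 x) := by
  rcases fst_cases hp x with h | h
  · rw [h.1]; exact cm_prm p x
  · rw [h.2]; exact cm_prm_inv p x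

lemma cm_snd {p : Om} (hp : Til p) (x : V) : Cm p x (p.2 x) := by
  rcases fst_cases hp x with h | h
  · rw [h.2]; exact cm_prm_inv p x
  · rw [h.1]; exact cm_prm p x

lemma invar_of_cm {p : Om} (hp : Til p) {F : Set V} (h : ∀ x y, Cm p x y → x ∈ F → y ∈ F) :
    Invar p F := fun x =>
  ⟨⟨h _ _ (cm_fst hp x).symm, h _ _ (cm_fst hp x)⟩, ⟨h _ _ (cm_snd hp x).symm, h _ _ (cm_snd hp x)⟩⟩

lemma closed_prm {p : Om} (hp : Til p) {G : Set V} (h : ∀ x ∈ G, p.1 x ∈ G ∧ p.2 x ∈ G) :
    ∀ x ∈ G, prm p x ∈ G ∧ (prm p)⁻¹ x ∈ G := by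
  intro x hx
  rcases fst_cases hp x with h' | h'
  · rw [← h'.1, ← h'.2]; exact h x hx
  · rw [← h'.1, ← h'.2]; exact (h x hx).symm

lemma closed_cm {p : Om} (hp : Til p) {G : Set V} (h : ∀ x ∈ G, p.1 x ∈ G ∧ p.2 x ∈ G)
    {x y : V} (hxy : Cm p x y) (hx : x ∈ G) : y ∈ G := by
  obtain ⟨i, rfl⟩ := hxy
  induction i using Int.induction_on with
  | zero => simpa using hx
  | succ i ih =>
    rw [add_comm, zpow_add, zpow_one, Equiv.Perm.mul_apply]
    exact (closed_prm hp h _ ih).1
  | pred i ih =>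
    rw [sub_eq_add_neg, add_comm, zpow_add, zpow_neg_one, Equiv.Perm.mul_apply]
    exact (closed_prm hp h _ ih).2

lemma Invar.cm {p : Om} (hp : Til p) {F : Set V} (hF : Invar p F) {x y : V} (hxy : Cm p x y)
    (hx : x ∈ F) : y ∈ F :=
  closed_cm hp (fun z hz => ⟨(hF z).1.2 hz, (hF z).2.2 hz⟩) hxy hx

lemma inf_iff (p : Om) (x : V) : Inf p x ↔ ∀ k : ℕ, 0 < k → (prm p)^[k] x ≠ x := by
  constructor
  · intro h k hk e
    have := @h k 0 (by simpa using e)
    omega
  · intro h
    have key : ∀ a b : ℕ, a < b → (prm p)^[a] x ≠ (prm p)^[b] x := by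
      intro a b hab e
      obtain ⟨c, rfl⟩ := Nat.exists_eq_add_of_lt hab
      rw [add_assoc, Function.iterate_add_apply] at e
      exact h (c + 1) (by omega) (((prm p).injective.iterate a) e).symm
    intro a b e
    rcases lt_trichotomy a b with h1 | h1 | h1
    · exact absurd e (key a b h1)
    · exact h1
    · exact absurd e.symm (key b a h1)

lemma Inf.cm {p : Om} {x y : V} (h : Inf p x) (hxy : Cm p x y) : Inf p y := by
  rw [inf_iff] at h ⊢
  obtain ⟨i, rfl⟩ := hxy
  intro k hk e
  apply h k hk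
  rw [← Equiv.Perm.coe_pow] at e ⊢
  rw [← zpow_natCast, ← Equiv.Perm.mul_apply, ← zpow_add, add_comm, zpow_add,
    Equiv.Perm.mul_apply] at e
  rw [← zpow_natCast]
  exact ((prm p) ^ i).injective e

lemma inf_swap (p : Om) (x : V) : Inf p.swap x ↔ Inf p x := by
  rw [inf_iff, inf_iff, prm_swap]
  refine forall₂_congr fun k _ => not_congr ?_
  rw [← Equiv.Perm.coe_pow, ← Equiv.Perm.coe_pow, inv_pow, Equiv.Perm.inv_eq_iff_eq, eq_comm]

lemma inf_iff_infinite (p : Om) (x : V) : Inf p x ↔ {y | Cm p x y}.Infinite := by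
  constructor
  · intro h
    refine Set.infinite_of_injective_forall_mem h fun k => ?_
    exact (cm_iff p _ _).2 ⟨k, Or.inl rfl⟩
  · intro h
    by_contra hn
    rw [inf_iff] at hn
    push Not at hn
    obtain ⟨k, hk, e⟩ := hn
    apply h
    refine ((Set.finite_lt_nat k).image fun j => (prm p)^[j] x).subset ?_
    rintro y ⟨i, rfl⟩
    have hk' : (0 : ℤ) < k := by exact_mod_cast hk
    have e' : ((prm p) ^ (k : ℤ)) x = x := by rw [zpow_natCast, Equiv.Perm.coe_pow, e]
    refine ⟨(i % k).toNat, ?_, ?_⟩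
    · have := Int.emod_lt_of_pos i hk'
      have := Int.emod_nonneg i hk'.ne'
      simp only [Set.mem_ofPred_eq]
      omega
    · have h0 := Int.emod_nonneg i hk'.ne'
      simp only
      rw [← Equiv.Perm.coe_pow, ← zpow_natCast, Int.toNat_of_nonneg h0]
      conv_rhs => rw [← Int.emod_add_mul_ediv i k, zpow_add, zpow_mul, Equiv.Perm.mul_apply]
      rw [Equiv.Perm.zpow_apply_eq_self_of_apply_eq_self e']

lemma cm_shift {v : V} (hv : Ev v) (p : Om) (x y : V) :
    Cm (shift2 v p) (x + v) (y + v) ↔ Cm p x y := by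
  simp only [cm_iff, prm_iter_shift hv, add_left_inj]

lemma inf_shift {v : V} (hv : Ev v) (p : Om) (x : V) : Inf (shift2 v p) (x + v) ↔ Inf p x := by
  simp only [inf_iff, prm_iter_shift hv, ne_eq, add_left_inj]

lemma mset_cm (x y : V) : MeasurableSet {p : Om | Cm p x y} := by
  have : {p : Om | Cm p x y} =
      ⋃ k : ℕ, ({p : Om | (prm p)^[k] x = y} ∪ {p : Om | (prm p)^[k] y = x}) := by
    ext p; simp [cm_iff]
  rw [this]
  exact MeasurableSet.iUnion fun k =>
    (mset_eq (measurable_prm_iter k x) measurable_const).union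
      (mset_eq (measurable_prm_iter k y) measurable_const)

lemma mset_inf (x : V) : MeasurableSet {p : Om | Inf p x} := by
  have : {p : Om | Inf p x} = ⋂ k : ℕ, ⋂ _ : 0 < k, {p : Om | (prm p)^[k] x = x}ᶜ := by
    ext p; simp [inf_iff]
  rw [this]
  exact MeasurableSet.iInter fun k => MeasurableSet.iInter fun _ =>
    (mset_eq (measurable_prm_iter k x) measurable_const).compl

lemma noFin_of_inf {p : Om} (hp : Til p) {F : Set V} (hF : ∀ x ∈ F, Inf p x) : NoFin p F := by
  intro G hG hfin hcl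
  by_contra hne
  obtain ⟨x, hx⟩ := Set.nonempty_iff_ne_empty.2 hne
  exact ((inf_iff_infinite p x).1 (hF x (hG hx))) (hfin.subset fun y hy => closed_cm hp hcl hy hx)

section rep

/-- an enumeration of the lattice -/
noncomputable def enu : ℕ → V := (exists_surjective_nat V).choose

lemma enu_surj : Function.Surjective enu := (exists_surjective_nat V).choose_spec

lemma exists_enu (p : Om) (x : V) : ∃ n, Cm p x (enu n) := by
  obtain ⟨n, hn⟩ := enu_surj x
  exact ⟨n, hn ▸ Cm.refl p x⟩

/-- canonical representative of a component -/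
noncomputable def rep (p : Om) (x : V) : V := enu (Nat.find (exists_enu p x))

lemma cm_rep (p : Om) (x : V) : Cm p x (rep p x) := Nat.find_spec (exists_enu p x)

lemma rep_eq_iff (p : Om) (x y : V) : rep p x = rep p y ↔ Cm p x y := by
  constructor
  · intro h
    exact (cm_rep p x).trans (h ▸ (cm_rep p y).symm)
  · intro h
    unfold rep
    congr 1
    exact Nat.find_congr' fun {n} => ⟨fun h' => h.symm.trans h', fun h' => h.trans h'⟩

lemma measurable_rep (x : V) : Measurable fun p : Om => rep p x :=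
  (measurable_of_countable enu).comp (measurable_find _ fun n => mset_cm x (enu n))

end rep

section graph

lemma cm_of_reachable {p : Om} (hp : Til p) {x y : V} (h : (diffGraph p.1 p.2).Reachable x y) :
    Cm p x y := by
  obtain ⟨w⟩ := h
  induction w with
  | nil => exact Cm.refl p _
  | @cons u v _ huv _ ih =>
    refine Cm.trans ?_ ih
    rw [diffGraph, SimpleGraph.fromRel_adj] at huv
    rcases huv.2 with (h | h) | (h | h)
    · exact h.1 ▸ cm_fst hp u
    · exact h.1 ▸ cm_snd hp u
    · exact (h.1 ▸ cm_fst hp v : Cm p v u).symm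
    · exact (h.1 ▸ cm_snd hp v : Cm p v u).symm

lemma adj_prm {p : Om} (hp : Til p) {x : V} (hx : Inf p x) :
    (diffGraph p.1 p.2).Adj x (prm p x) := by
  have hne : prm p x ≠ (prm p)⁻¹ x := by
    intro e
    refine (inf_iff p x).1 hx 2 (by norm_num) ?_
    simp only [Function.iterate_succ_apply', Function.iterate_zero, id_eq]
    rw [e]; simp
  rw [diffGraph, SimpleGraph.fromRel_adj]
  refine ⟨?_, Or.inl ?_⟩
  · rw [prm_coe hp]; exact (stp_adj hp x).ne.symm
  · rcases fst_cases hp x with h | h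
    · exact Or.inl ⟨h.1, by rw [h.2]; exact hne.symm⟩
    · exact Or.inr ⟨h.1, by rw [h.2]; exact hne.symm⟩

lemma reachable_of_cm {p : Om} (hp : Til p) {x y : V} (hx : Inf p x) (h : Cm p x y) :
    (diffGraph p.1 p.2).Reachable x y := by
  have key : ∀ z, Inf p z → ∀ k : ℕ, (diffGraph p.1 p.2).Reachable z ((prm p)^[k] z) := by
    intro z hz k
    induction k with
    | zero => exact SimpleGraph.Reachable.refl _
    | succ k ih =>
      rw [Function.iterate_succ_apply']
      exact ih.trans (adj_prm hp (hz.cm ((cm_iff p _ _).2 ⟨k, Or.inl rfl⟩))).reachable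
  obtain ⟨k, e | e⟩ := (cm_iff p x y).1 h
  · exact e ▸ key x hx k
  · exact (e ▸ key y (hx.cm h) k : (diffGraph p.1 p.2).Reachable y x).symm

/-- if the number of infinite components is not one, any infinite component has a companion -/
lemma exists_other {p : Om} (hp : Til p)
    (hN : ¬ ∃! C : (diffGraph p.1 p.2).ConnectedComponent, C.supp.Infinite) {x : V}
    (hx : Inf p x) : ∃ y, Ev y ∧ Inf p y ∧ ¬ Cm p x y := by
  by_contra hcon
  push Not at hcon
  apply hN
  refine ⟨(diffGraph p.1 p.2).connectedComponentMk x, ?_, ?_⟩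
  · refine ((inf_iff_infinite p x).1 hx).mono fun y hy => ?_
    rw [SimpleGraph.ConnectedComponent.mem_supp_iff, SimpleGraph.ConnectedComponent.eq]
    exact (reachable_of_cm hp hx hy).symm
  · intro C hC
    obtain ⟨y, hy⟩ := hC.nonempty
    rw [SimpleGraph.ConnectedComponent.mem_supp_iff] at hy
    have hyi : Inf p y := by
      rw [inf_iff_infinite]
      refine hC.mono fun z hz => ?_
      rw [SimpleGraph.ConnectedComponent.mem_supp_iff, ← hy,
        SimpleGraph.ConnectedComponent.eq] at hz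
      exact cm_of_reachable hp hz.symm
    have hxy : Cm p x y := by
      by_cases he : Ev y
      · exact hcon y he hyi
      · exact (hcon (p.1 y) ((hp.1.ev y).2 he) (hyi.cm (cm_fst hp y))).trans (cm_fst hp y).symm
    rw [← hy, SimpleGraph.ConnectedComponent.eq]
    exact (reachable_of_cm hp hx hxy).symm

end graph

end Pool.Agent.Lib.MP_640444_pr
end

-- part Pool.Agent.Lib.MP_640444_pr.Theta
section

/-!
The shift along the component of the origin preserves the measure; two sided Birkhoff limits;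
almost sure purity.
-/

set_option autoImplicit false
open MeasureTheory Filter Finset
open scoped Classical Topology
open Pool.Agent.Shared.Ergodic

namespace Pool.Agent.Lib.MP_640444_pr

section abstr

variable {X : Type*} [MeasurableSpace X] {m : Measure X} [IsProbabilityMeasure m]
  {T T' : X → X} {f : X → ℝ} {C : ℝ}

lemma tendsto_upper (hT : MeasurePreserving T m m) (hf : Measurable f) (hC : ∀ x, |f x| ≤ C) :
    ∀ᵐ x ∂m, Tendsto (avg T f x) atTop (𝓝 (upper T f x)) := by
  filter_upwards [birkhoff_real hT hf C hC] with x ⟨L, hL⟩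
  rwa [upper, hL.limsup_eq]

lemma l1_upper (hT : MeasurePreserving T m m) (hf : Measurable f) (hC : ∀ x, |f x| ≤ C) :
    Tendsto (fun n => ∫ x, |avg T f x n - upper T f x| ∂m) atTop (𝓝 0) := by
  have := tendsto_integral_of_dominated_convergence (μ := m)
    (F := fun n x => |avg T f x n - upper T f x|) (f := fun _ => (0 : ℝ)) (fun _ => C + C)
    (fun n => ((measurable_avg hT.measurable hf n).sub
      (measurable_upper hT.measurable hf)).abs.aestronglyMeasurable)
    (integrable_const _) (fun n => Eventually.of_forall fun x => by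
      rw [Real.norm_eq_abs, abs_abs]
      exact (abs_sub _ _).trans (add_le_add (abs_avg_le T C hC x n) (abs_upper_le T C hC x)))
    (by
      filter_upwards [tendsto_upper hT hf hC] with x hx
      simpa using (hx.sub_const (upper T f x)).abs)
  simpa using this

omit [IsProbabilityMeasure m] in
lemma integral_comp_mp (hT : MeasurePreserving T m m) {g : X → ℝ} (hg : Measurable g) :
    ∫ x, g (T x) ∂m = ∫ x, g x ∂m := by
  rw [← integral_map hT.measurable.aemeasurable hg.aestronglyMeasurable, hT.map_eq]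

lemma integral_eq_zero_of_upper (hT : MeasurePreserving T m m) (hf : Measurable f)
    (hC : ∀ x, |f x| ≤ C) (h : ∀ᵐ x ∂m, upper T f x = 0) : ∫ x, f x ∂m = 0 := by
  have h1 := l1_upper hT hf hC
  have h2 : ∀ n : ℕ, 0 < n → |∫ x, f x ∂m| ≤ ∫ x, |avg T f x n - upper T f x| ∂m := by
    intro n hn
    have hn' : (n : ℝ) ≠ 0 := by exact_mod_cast hn.ne'
    have e1 : ∫ x, avg T f x n ∂m = ∫ x, f x ∂m := by
      simp only [avg]
      rw [integral_const_mul, integral_finsetSum]
      · rw [sum_congr rfl fun k _ => integral_comp_mp (hT.iterate k) hf]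
        simp [hn']
      · intro k _
        exact integrable_of_bdd (hf.comp (hT.measurable.iterate k)) C fun x => hC _
    rw [← e1]
    refine (abs_integral_le_integral_abs).trans (le_of_eq (integral_congr_ae ?_))
    filter_upwards [h] with x hx
    rw [hx, sub_zero]
  have h3 : |∫ x, f x ∂m| ≤ 0 :=
    ge_of_tendsto h1 ((eventually_gt_atTop 0).mono h2)
  exact abs_nonpos_iff.1 h3

lemma two_sided (hT : MeasurePreserving T m m) (hT' : MeasurePreserving T' m m)
    (h : ∀ x, T' (T x) = x) (hf : Measurable f) (hC : ∀ x, |f x| ≤ C) :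
    ∀ᵐ x ∂m, upper T' f x = upper T f x := by
  have hli : Function.LeftInverse T' T := h
  have hmu := measurable_upper hT.measurable hf
  have hmu' := measurable_upper hT'.measurable hf
  have e1 : ∀ n x, avg T' f (T^[n] x) (n + 1) = avg T f x (n + 1) := by
    intro n x
    simp only [avg]
    congr 1
    rw [← sum_range_reflect]
    refine sum_congr rfl fun k hk => ?_
    have hk' : k ≤ n := by simpa [Nat.lt_succ_iff] using hk
    obtain ⟨j, rfl⟩ := Nat.exists_eq_add_of_le hk'
    rw [show k + j + 1 - 1 - k = j by omega, add_comm k j, Function.iterate_add_apply,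
      hli.iterate j]
  have e2 : ∀ n x, upper T' f (T^[n] x) = upper T' f x := by
    intro n x
    rw [← upper_iterate T' C hC n (T^[n] x), hli.iterate n]
  have hb : ∀ {g g' : X → ℝ}, Measurable g → Measurable g' → (∀ x, |g x| ≤ C) →
      (∀ x, |g' x| ≤ C) → Integrable (fun x => |g x - g' x|) m := fun hg hg' b b' =>
    ((integrable_of_bdd hg C b).sub (integrable_of_bdd hg' C b')).abs
  have h2 : ∀ n, ∫ x, |upper T' f x - upper T f x| ∂m ≤
      ∫ x, |avg T' f x (n + 1) - upper T' f x| ∂m + ∫ x, |avg T f x (n + 1) - upper T f x| ∂m := by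
    intro n
    have i1 := hb (measurable_avg hT.measurable hf (n + 1)) hmu' (fun x => abs_avg_le T C hC x _)
      (abs_upper_le T' C hC)
    have i2 := hb (measurable_avg hT.measurable hf (n + 1)) hmu (fun x => abs_avg_le T C hC x _)
      (abs_upper_le T C hC)
    rw [← integral_comp_mp (hT.iterate n)
      (g := fun x => |avg T' f x (n + 1) - upper T' f x|)
      ((measurable_avg hT'.measurable hf (n + 1)).sub hmu').abs]
    simp only [e1, e2]
    rw [← integral_add i1 i2]
    refine integral_mono (hb hmu' hmu (abs_upper_le T' C hC) (abs_upper_le T C hC)) (i1.add i2)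
      fun x => ?_
    have := abs_sub_le (upper T' f x) (avg T f x (n + 1)) (upper T f x)
    rwa [abs_sub_comm (upper T' f x) (avg T f x (n + 1))] at this
  have h3 := ((l1_upper hT' hf hC).comp (tendsto_add_atTop_nat 1)).add
    ((l1_upper hT hf hC).comp (tendsto_add_atTop_nat 1))
  rw [add_zero] at h3
  have h4 : ∫ x, |upper T' f x - upper T f x| ∂m = 0 :=
    le_antisymm (ge_of_tendsto' h3 h2) (integral_nonneg fun x => abs_nonneg _)
  have h5 := (integral_eq_zero_iff_of_nonneg (fun x => abs_nonneg _)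
    (hb hmu' hmu (abs_upper_le T' C hC) (abs_upper_le T C hC))).1 h4
  filter_upwards [h5] with x hx
  exact sub_eq_zero.1 (abs_eq_zero.1 hx)

end abstr

/-- invariance under even translations -/
def EvInv (m : Measure Om) : Prop := ∀ v, Ev v → MeasurePreserving (shift2 v) m m

section general

variable {φ : Om → V → V}

lemma mp_of_equivariant {m : Measure Om} (hm : EvInv m) (hφ : Measurable φ)
    (heq : ∀ v, Ev v → ∀ p x, φ (shift2 v p) (x + v) = φ p x + v)
    (hbij : ∀ p, Function.Bijective (φ p)) (hev : ∀ p x, Ev (φ p x) ↔ Ev x) :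
    MeasurePreserving (fun p => shift2 (-φ p 0) p) m m := by
  have h0 : ∀ x, Measurable fun p => φ p x := fun x => (measurable_pi_apply x).comp hφ
  have hmeas : Measurable fun p => shift2 (-φ p 0) p :=
    measurable_shift2' ((measurable_of_countable (fun y : V => -y)).comp (h0 0)) measurable_id
  refine ⟨hmeas, ?_⟩
  ext A hA
  rw [Measure.map_apply hmeas hA]
  let E := {z : V // Ev z}
  let B : E → Set Om := fun z => {p | φ p (-z.1) = 0} ∩ A
  have hB : ∀ z, MeasurableSet (B z) := fun z => (mset_eq (h0 _) measurable_const).inter hA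
  have e1 : A = ⋃ z, B z := by
    ext p
    simp only [B, Set.mem_iUnion, Set.mem_inter_iff, Set.mem_ofPred_eq]
    refine ⟨fun hp => ?_, fun ⟨_, h⟩ => h.2⟩
    obtain ⟨y, hy⟩ := (hbij p).2 0
    refine ⟨⟨-y, ev_neg.2 ((hev p y).1 (hy ▸ ev_zero))⟩, by simpa using hy, hp⟩
  have d1 : Pairwise (Function.onFun Disjoint B) := by
    intro z z' hne
    refine Set.disjoint_left.2 fun p h1 h2 => hne (Subtype.ext ?_)
    exact neg_injective ((hbij p).1 (h1.1.trans h2.1.symm))
  have key : ∀ (z : E) p, φ (shift2 (-z.1) p) (-z.1) = 0 ↔ φ p 0 = z.1 := by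
    intro z p
    have := heq (-z.1) (ev_neg.2 z.2) p 0
    rw [zero_add] at this
    rw [this, add_neg_eq_zero]
  have e2 : (fun p => shift2 (-φ p 0) p) ⁻¹' A = ⋃ z : E, shift2 (-z.1) ⁻¹' B z := by
    ext p
    simp only [B, Set.mem_iUnion, Set.mem_inter_iff, Set.mem_ofPred_eq, Set.mem_preimage, key]
    constructor
    · intro h
      exact ⟨⟨φ p 0, (hev p 0).2 ev_zero⟩, rfl, h⟩
    · rintro ⟨z, h1, h2⟩
      rwa [h1]
  have d2 : Pairwise (Function.onFun Disjoint fun z : E => shift2 (-z.1) ⁻¹' B z) := by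
    intro z z' hne
    refine Set.disjoint_left.2 fun p h1 h2 => hne (Subtype.ext ?_)
    exact ((key z p).1 h1.1).symm.trans ((key z' p).1 h2.1)
  rw [e2, measure_iUnion d2 fun z => measurable_shift2 _ (hB z)]
  conv_rhs => rw [e1, measure_iUnion d1 hB]
  exact tsum_congr fun z => (hm _ (ev_neg.2 z.2)).measure_preimage (hB z).nullMeasurableSet

lemma iter_equivariant (heq : ∀ v, Ev v → ∀ p x, φ (shift2 v p) (x + v) = φ p x + v)
    {v : V} (hv : Ev v) (p : Om) (k : ℕ) (x : V) :
    (φ (shift2 v p))^[k] (x + v) = (φ p)^[k] x + v := by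
  induction k with
  | zero => rfl
  | succ k ih => rw [Function.iterate_succ_apply', Function.iterate_succ_apply', ih, heq v hv]

lemma ev_iter (hev : ∀ p x, Ev (φ p x) ↔ Ev x) (p : Om) (k : ℕ) (x : V) :
    Ev ((φ p)^[k] x) ↔ Ev x := by
  induction k with
  | zero => rfl
  | succ k ih => rw [Function.iterate_succ_apply', hev, ih]

lemma theta_iter (heq : ∀ v, Ev v → ∀ p x, φ (shift2 v p) (x + v) = φ p x + v)
    (hev : ∀ p x, Ev (φ p x) ↔ Ev x) (p : Om) (k : ℕ) :
    (fun p => shift2 (-φ p 0) p)^[k] p = shift2 (-(φ p)^[k] 0) p := by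
  induction k with
  | zero => simp [shift2_zero]
  | succ k ih =>
    rw [Function.iterate_succ_apply', ih, Function.iterate_succ_apply', shift2_shift2]
    have hz : Ev (-(φ p)^[k] 0) := ev_neg.2 ((ev_iter hev p k 0).2 ev_zero)
    have := heq _ hz p ((φ p)^[k] 0)
    rw [add_neg_cancel] at this
    rw [this]
    congr 1
    abel

lemma avg_theta (heq : ∀ v, Ev v → ∀ p x, φ (shift2 v p) (x + v) = φ p x + v)
    (hev : ∀ p x, Ev (φ p x) ↔ Ev x) {H : Om → V → ℝ}
    (hH : ∀ v, Ev v → ∀ p x, H (shift2 v p) (x + v) = H p x) (p : Om) {x : V} (hx : Ev x) :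
    avg (fun p => shift2 (-φ p 0) p) (fun p => H p 0) (shift2 (-x) p) = avg (φ p) (H p) x := by
  funext n
  simp only [avg]
  congr 1
  refine sum_congr rfl fun k _ => ?_
  rw [theta_iter heq hev]
  have h1 := iter_equivariant heq (ev_neg.2 hx) p k x
  rw [add_neg_cancel] at h1
  rw [h1, shift2_shift2]
  have hz : Ev (-(φ p)^[k] x) := ev_neg.2 ((ev_iter hev p k x).2 hx)
  have := hH _ hz p ((φ p)^[k] x)
  rw [add_neg_cancel] at this
  rw [← this]
  congr 2
  abel

end general

/-- two steps along the component -/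
noncomputable def Tm (p : Om) (x : V) : V := prm p (prm p x)

lemma tm_iter (p : Om) (k : ℕ) (x : V) : (Tm p)^[k] x = (prm p)^[2 * k] x := by
  rw [Function.iterate_mul]; rfl

lemma measurable_tm : Measurable Tm :=
  measurable_pi_lambda _ fun x => measurable_prm_iter 2 x

lemma measurable_tm' : Measurable fun p : Om => Tm p.swap := measurable_tm.comp measurable_swap

lemma tm_shift (v : V) (hv : Ev v) (p : Om) (x : V) : Tm (shift2 v p) (x + v) = Tm p x + v := by
  simp only [Tm, prm_shift hv]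

lemma tm_shift' (v : V) (hv : Ev v) (p : Om) (x : V) :
    Tm (shift2 v p).swap (x + v) = Tm p.swap x + v := by
  rw [shift2_swap, tm_shift v hv]

lemma tm_bij (p : Om) : Function.Bijective (Tm p) := (prm p).bijective.comp (prm p).bijective

lemma tm_ev (p : Om) (x : V) : Ev (Tm p x) ↔ Ev x := by
  unfold Tm
  by_cases hp : Til p
  · rw [prm_coe hp, (stp_adj hp _).ev, (stp_adj hp _).ev, not_not]
  · simp [prm_apply, hp]

lemma tm_swap_tm (p : Om) (x : V) : Tm p.swap (Tm p x) = x := by
  simp [Tm, prm_swap]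

lemma tm_tm_swap (p : Om) (x : V) : Tm p (Tm p.swap x) = x := by
  simp [Tm, prm_swap]

lemma tm_of_ev {p : Om} (hp : Til p) {x : V} (hx : Ev x) : Tm p x = p.2 (p.1 x) := by
  rw [Tm, prm_coe hp, stp_of_ev hx, stp_of_odd (by rw [hp.1.ev]; simpa using hx)]

/-- the shift along the component of the origin -/
noncomputable def th (p : Om) : Om := shift2 (-Tm p 0) p
noncomputable def th' (p : Om) : Om := shift2 (-Tm p.swap 0) p

lemma th_mp {m : Measure Om} (hm : EvInv m) : MeasurePreserving th m m :=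
  mp_of_equivariant hm measurable_tm tm_shift tm_bij tm_ev

lemma th'_mp {m : Measure Om} (hm : EvInv m) : MeasurePreserving th' m m :=
  mp_of_equivariant (φ := fun p => Tm p.swap) hm measurable_tm' tm_shift'
    (fun p => tm_bij p.swap) (fun p => tm_ev p.swap)

lemma th'_th (p : Om) : th' (th p) = p := by
  have hz : Ev (-Tm p 0) := ev_neg.2 ((tm_ev p 0).2 ev_zero)
  have := tm_shift' _ hz p (Tm p 0)
  rw [add_neg_cancel, tm_swap_tm] at this
  rw [th', th, this, shift2_shift2]
  simp [shift2_zero]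

lemma ae_all_even {m : Measure Om} (hm : EvInv m) {Q : Om → Prop} (h : ∀ᵐ p ∂m, Q p) :
    ∀ᵐ p ∂m, ∀ x, Ev x → Q (shift2 (-x) p) := by
  rw [ae_all_iff]
  intro x
  by_cases hx : Ev x
  · filter_upwards [(hm _ (ev_neg.2 hx)).quasiMeasurePreserving.ae h] with p hp _ using hp
  · exact Eventually.of_forall fun p h => absurd h hx

lemma upper_site {H : Om → V → ℝ} (hH : ∀ v, Ev v → ∀ p x, H (shift2 v p) (x + v) = H p x)
    (p : Om) {x : V} (hx : Ev x) :
    upper th (fun p => H p 0) (shift2 (-x) p) = upper (Tm p) (H p) x := by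
  unfold upper
  rw [← avg_theta tm_shift tm_ev hH p hx]
  rfl

/-- two sided convergence along every component -/
lemma ae_site {m : Measure Om} [IsProbabilityMeasure m] (hm : EvInv m) {H : Om → V → ℝ} {C : ℝ}
    (hH : ∀ v, Ev v → ∀ p x, H (shift2 v p) (x + v) = H p x)
    (hM : Measurable fun p => H p 0) (hC : ∀ p x, |H p x| ≤ C) :
    ∀ᵐ p ∂m, ∀ x, Ev x → Tendsto (avg (Tm p) (H p) x) atTop (𝓝 (upper (Tm p) (H p) x)) ∧
      Tendsto (avg (Tm p.swap) (H p) x) atTop (𝓝 (upper (Tm p) (H p) x)) := by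
  have h1 := tendsto_upper (th_mp hm) hM fun p => hC p 0
  have h2 := tendsto_upper (th'_mp hm) hM fun p => hC p 0
  have h3 := two_sided (th_mp hm) (th'_mp hm) th'_th hM fun p => hC p 0
  filter_upwards [ae_all_even hm h1, ae_all_even hm h2, ae_all_even hm h3] with p a1 a2 a3 x hx
  have b1 := a1 x hx
  have b2 := a2 x hx
  rw [a3 x hx] at b2
  rw [upper_site hH p hx] at b1 b2
  constructor
  · rw [← avg_theta tm_shift tm_ev hH p hx]; exact b1
  · rw [← avg_theta (φ := fun p => Tm p.swap) tm_shift' (fun p => tm_ev p.swap) hH p hx]; exact b2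

section gv

variable (D : Finset (V × V)) (w : V)

lemma dbl_shift (v : V) (p : Om) (x : V) : dbl D (shift2 v p) (x + v) ↔ dbl D p x := by
  unfold dbl
  refine forall₂_congr fun uw _ => ?_
  simp only [shift2]
  rw [add_right_comm x v uw.1, add_right_comm x v uw.2, shift_add_apply, shift_add_apply]
  simp

lemma gv_shift (v : V) (hv : Ev v) (p : Om) (x : V) :
    gv D w (shift2 v p) (x + v) = gv D w p x := by
  unfold gv
  rw [dbl_shift, ev_add hv]
  simp only [shift2, shift_add_apply, add_right_comm x v w, add_left_inj]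

lemma abs_gv_le (p : Om) (x : V) : |gv D w p x| ≤ 1 := by
  unfold gv
  split_ifs <;> simp

lemma gv_swap (p : Om) (x : V) : gv D w p.swap x = -gv D w p x := by
  have : dbl D p.swap x ↔ dbl D p x := forall₂_congr fun _ _ => and_comm
  unfold gv
  rw [this]
  split_ifs <;> simp_all

lemma gv_odd (p : Om) {x : V} (hx : ¬ Ev x) : gv D w p x = 0 := if_neg fun h => hx h.1

lemma mset_dbl (x : V) : MeasurableSet {p : Om | dbl D p x} := by
  have : {p : Om | dbl D p x} = ⋂ uw ∈ D, ({p : Om | p.1 (x + uw.1) = x + uw.2} ∩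
      {p : Om | p.2 (x + uw.1) = x + uw.2}) := by
    ext p; simp [dbl]
  rw [this]
  refine MeasurableSet.biInter D.countable_toSet fun uw _ => MeasurableSet.inter ?_ ?_
  · exact mset_eq ((measurable_pi_apply _).comp measurable_fst) measurable_const
  · exact mset_eq ((measurable_pi_apply _).comp measurable_snd) measurable_const

lemma measurable_gv (x : V) : Measurable fun p => gv D w p x := by
  unfold gv
  refine Measurable.ite ((MeasurableSet.const _).inter (mset_dbl D x)) (Measurable.sub ?_ ?_)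
    measurable_const
  · exact Measurable.ite (mset_eq ((measurable_pi_apply _).comp measurable_fst) measurable_const)
      measurable_const measurable_const
  · exact Measurable.ite (mset_eq ((measurable_pi_apply _).comp measurable_snd) measurable_const)
      measurable_const measurable_const

lemma sum_two_mul (u : ℕ → ℝ) (n : ℕ) :
    ∑ k ∈ range (2 * n), u k = ∑ k ∈ range n, (u (2 * k) + u (2 * k + 1)) := by
  induction n with
  | zero => simp
  | succ n ih => rw [Nat.mul_succ, sum_range_succ, sum_range_succ, sum_range_succ, ih]; ring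

variable {D w}

lemma outLab_even {p : Om} (hp : Til p) {x : V} (hx : Ev x) (L : ℝ) :
    OutLab D w p x L ↔ Tendsto (avg (Tm p) (gv D w p) x) atTop (𝓝 L) := by
  unfold OutLab
  refine tendsto_congr fun n => ?_
  rw [avg, sum_two_mul]
  congr 1
  refine sum_congr rfl fun k _ => ?_
  rw [Function.iterate_succ_apply', ← prm_coe hp, ← tm_iter, gv_odd D w p (x := prm p _), add_zero]
  rw [prm_coe hp, (stp_adj hp _).ev, not_not, ev_iter tm_ev]
  exact hx

lemma outLab_odd {p : Om} (hp : Til p) {x : V} (hx : ¬ Ev x) (L : ℝ) :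
    OutLab D w p x L ↔ Tendsto (avg (Tm p) (gv D w p) (p.2 x)) atTop (𝓝 L) := by
  unfold OutLab
  refine tendsto_congr fun n => ?_
  rw [avg, sum_two_mul]
  congr 1
  refine sum_congr rfl fun k _ => ?_
  rw [Function.iterate_succ_apply, stp_of_odd hx, ← prm_coe hp, ← tm_iter, ← tm_iter,
    gv_odd D w p (x := (Tm p)^[k] x), zero_add]
  rw [ev_iter tm_ev]
  exact hx

lemma avg_gv_swap (p : Om) (T : V → V) (x : V) (L : ℝ) :
    Tendsto (avg T (gv D w p.swap) x) atTop (𝓝 (-L)) ↔
      Tendsto (avg T (gv D w p) x) atTop (𝓝 L) := by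
  have : avg T (gv D w p.swap) x = fun n => -avg T (gv D w p) x n := by
    funext n; simp [avg, gv_swap]
  rw [this]
  exact ⟨fun h => by simpa using h.neg, fun h => h.neg⟩

variable (D w)

lemma ae_pure {m : Measure Om} [IsProbabilityMeasure m] (hm : EvInv m) (hT : ∀ᵐ p ∂m, Til p) :
    ∀ᵐ p ∂m, Pure D w p := by
  filter_upwards [hT, ae_site hm (gv_shift D w) (measurable_gv D w 0) (abs_gv_le D w)]
    with p hp h x
  by_cases hx : Ev x
  · refine ⟨_, (outLab_even hp hx _).2 (h x hx).1, (outLab_even hp.swap hx _).2 ?_⟩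
    exact (avg_gv_swap p _ x _).2 (h x hx).2
  · have he : Ev (p.1 x) := (hp.1.ev x).2 hx
    refine ⟨_, (outLab_odd hp hx _).2 ?_, (outLab_odd hp.swap hx _).2
      ((avg_gv_swap p _ _ _).2 (h _ he).2)⟩
    have e : p.2 x = Tm p (p.1 x) := by rw [tm_of_ev hp he, (hp.1 x).2]
    rw [e]
    have := (tendsto_avg_shift (Tm p) 1 (abs_gv_le D w p) (p.1 x)).add (h _ he).1
    simpa using this

lemma mset_pure : MeasurableSet {p : Om | Til p ∧ Pure D w p} := by
  let u : V → ℕ → Om → ℝ := fun x n p =>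
    (n : ℝ)⁻¹ * ∑ k ∈ range (2 * n), gv D w p ((prm p)^[k] x)
  have hg : Measurable fun p : Om => gv D w p := measurable_pi_lambda _ (measurable_gv D w)
  have hu : ∀ x n, Measurable (u x n) := fun x n =>
    measurable_const.mul (Finset.measurable_sum _ fun k _ => meas_app hg (measurable_prm_iter k x))
  have : {p : Om | Til p ∧ Pure D w p} = {p : Om | Til p} ∩ ⋂ x,
      ({p | ∃ c, Tendsto (fun n => u x n p) atTop (𝓝 c)} ∩
        {p | Tendsto (fun n => u x n p + u x n p.swap) atTop (𝓝 0)}) := by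
    ext p
    simp only [Set.mem_ofPred_eq, Set.mem_inter_iff, Set.mem_iInter]
    refine and_congr_right fun hp => forall_congr' fun x => ?_
    simp only [u, prm_coe hp, prm_coe hp.swap]
    constructor
    · rintro ⟨L, h1, h2⟩
      exact ⟨⟨L, h1⟩, by simpa using h1.add h2⟩
    · rintro ⟨⟨L, h1⟩, h2⟩
      exact ⟨L, h1, by simpa [OutLab] using h2.sub h1⟩
  rw [this]
  refine mset_til.inter (MeasurableSet.iInter fun x => MeasurableSet.inter ?_ ?_)
  · exact measurableSet_exists_tendsto (hu x)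
  · exact measurableSet_tendsto (𝓝 0) fun n => (hu x n).add ((hu x n).comp measurable_swap)

end gv

end Pool.Agent.Lib.MP_640444_pr
end

-- part Pool.Agent.Lib.MP_640444_pr.MeanErg
section

/-!
The mean ergodic theorem on cubes for the group of even translations.
-/

set_option autoImplicit false
open MeasureTheory Filter Topology Finset
open scoped Classical

namespace Pool.Agent.Lib.MP_640444_pr

theorem folner_card (l m : ℕ) (v : V) (hv : Ev v) (hm : ∀ i, |v i| ≤ m) :
    ((((cell l 0).filter Ev).image (· + v)) \ (cell l 0).filter Ev).card + l ^ 3 ≤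
      (l + 2 * m) ^ 3 := by
  let B : Finset V := Fintype.piFinset fun _ => Finset.Ico (-(m : ℤ)) (l + m)
  have h1 : B.card = (l + 2 * m) ^ 3 := by
    have : ((l : ℤ) + m - -(m : ℤ)).toNat = l + 2 * m := by omega
    simp only [B, Fintype.card_piFinset, Int.card_Ico, this, prod_const, card_univ,
      Fintype.card_fin]
  have h2 : cell l 0 ⊆ B := fun x hx => by
    simp only [mem_cell, Pi.zero_apply, mul_zero, zero_add] at hx
    simp only [B, Fintype.mem_piFinset, Finset.mem_Ico]
    exact fun i => by have := hx i; omega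
  rw [← h1, ← card_cell l 0, ← card_sdiff_add_card_eq_card h2]
  refine Nat.add_le_add_right (card_le_card fun x hx => ?_) _
  rw [Finset.mem_sdiff, Finset.mem_image, Finset.mem_filter] at hx
  obtain ⟨⟨y, hy, rfl⟩, hx⟩ := hx
  obtain ⟨hy, hy'⟩ := Finset.mem_filter.1 hy
  refine Finset.mem_sdiff.2 ⟨?_, fun h => hx ⟨h, (ev_add hv).2 hy'⟩⟩
  simp only [mem_cell, Pi.zero_apply, mul_zero, zero_add] at hy
  simp only [B, Fintype.mem_piFinset, Finset.mem_Ico, Pi.add_apply]
  intro i
  have := hy i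
  have := abs_le.1 (hm i)
  omega

theorem folner_tendsto (m : ℕ) :
    Tendsto (fun l : ℕ => ((l : ℝ) ^ 3)⁻¹ * (((l : ℝ) + 2 * m) ^ 3 - l ^ 3)) atTop (𝓝 0) := by
  have h1 : Tendsto (fun l : ℕ => (1 + 2 * m * (l : ℝ)⁻¹) ^ 3 - 1) atTop
      (𝓝 (((1 : ℝ) + 2 * m * 0) ^ 3 - 1)) :=
    (((tendsto_inv_atTop_nhds_zero_nat.const_mul _).const_add _).pow 3).sub_const 1
  rw [show ((1 : ℝ) + 2 * m * 0) ^ 3 - 1 = 0 by ring] at h1
  refine h1.congr' ?_
  filter_upwards [eventually_gt_atTop 0] with l hl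
  have : (l : ℝ) ≠ 0 := by positivity
  field_simp

theorem hilbert_erg {H : Type} [NormedAddCommGroup H] [InnerProductSpace ℝ H] [CompleteSpace H]
    (U : V → H →ₗ[ℝ] H) (h1 : ∀ x g, ‖U x g‖ ≤ ‖g‖)
    (h2 : ∀ x y g, Ev x → Ev y → U x (U y g) = U (x + y) g) (g : H)
    (hg : ∀ h, (∀ v, Ev v → U v h = h) → inner ℝ h g = 0) :
    Tendsto (fun l : ℕ => ((l : ℝ) ^ 3)⁻¹ • ∑ x ∈ cell l 0 with Ev x, U x g) atTop (𝓝 0) := by
  let A : ℕ → H →ₗ[ℝ] H := fun l => ((l : ℝ) ^ 3)⁻¹ • ∑ x ∈ cell l 0 with Ev x, U x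
  have hA : ∀ l g, A l g = ((l : ℝ) ^ 3)⁻¹ • ∑ x ∈ cell l 0 with Ev x, U x g := fun l g => by
    simp [A]
  have hs : ∀ (T : Finset V) g, ‖∑ x ∈ T, U x g‖ ≤ T.card * ‖g‖ := fun T g =>
    (norm_sum_le_of_le T fun x _ => h1 x g).trans (by simp)
  have hn : ∀ l g, ‖A l g‖ ≤ ‖g‖ := fun l g => by
    rw [hA, norm_smul, norm_inv, norm_pow, Real.norm_natCast]
    refine inv_mul_le_of_le_mul₀ (by positivity) (norm_nonneg _) ((hs _ g).trans ?_)
    gcongr
    exact_mod_cast (card_filter_le _ _).trans (card_cell l 0).le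
  let S : Submodule ℝ H :=
    { carrier := {g | Tendsto (fun l => A l g) atTop (𝓝 0)}
      add_mem' := fun ha hb => by simpa using Tendsto.add ha hb
      zero_mem' := by simp
      smul_mem' := fun c _ ha => by simpa using Tendsto.const_smul ha c }
  have hc : IsClosed (S : Set H) := by
    refine Equicontinuous.isClosed_setOfPred_tendsto (F := fun l g => A l g) (f := fun _ => 0) ?_
      continuous_const
    refine (Metric.uniformEquicontinuous_of_continuity_modulus id tendsto_id _
      fun x y l => ?_).equicontinuous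
    rw [dist_eq_norm, dist_eq_norm, ← map_sub]
    exact hn l _
  have hS : ∀ v g, Ev v → U v g - g ∈ S := by
    intro v g hv
    obtain ⟨m, hm⟩ : ∃ m : ℕ, ∀ i, |v i| ≤ m := ⟨∑ i, (v i).natAbs, fun i => by
      rw [Int.abs_eq_natAbs]
      exact_mod_cast single_le_sum (f := fun i => (v i).natAbs) (fun _ _ => Nat.zero_le _)
        (mem_univ i)⟩
    refine squeeze_zero_norm (fun l => ?_) (by simpa using (folner_tendsto m).mul_const (2 * ‖g‖))
    have e1 := folner_card l m v hv hm
    set Q := (cell l 0).filter Ev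
    have e2 : (Q.image (· + v)).card = Q.card := card_image_of_injective _ (add_left_injective v)
    have e3 : ∑ x ∈ Q, U x (U v g - g) = ∑ x ∈ Q.image (· + v) \ Q, U x g -
        ∑ x ∈ Q \ Q.image (· + v), U x g := by
      rw [sum_sdiff_sub_sum_sdiff, sum_image fun _ _ _ _ h => add_left_injective v h,
        ← sum_sub_distrib]
      exact sum_congr rfl fun x hx => by rw [map_sub, h2 x v g (mem_filter.1 hx).2 hv]
    have e4 := hs (Q.image (· + v) \ Q) g
    have e5 := hs (Q \ Q.image (· + v)) g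
    rw [← card_sdiff_comm e2] at e5
    have e6 : (((Q.image (· + v) \ Q).card : ℝ)) ≤ ((l : ℝ) + 2 * m) ^ 3 - l ^ 3 := by
      rw [le_sub_iff_add_le]
      exact_mod_cast e1
    rw [hA, norm_smul, norm_inv, norm_pow, Real.norm_natCast, e3, mul_assoc]
    gcongr
    refine (norm_sub_le _ _).trans ?_
    nlinarith [norm_nonneg g]
  have : g ∈ S := by
    rw [← SetLike.mem_coe, ← hc.closure_eq, ← Submodule.topologicalClosure_coe,
      ← Submodule.orthogonal_orthogonal_eq_closure, SetLike.mem_coe, Submodule.mem_orthogonal]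
    refine fun h hh => hg h fun v hv => eq_of_norm_le_re_inner_eq_norm_sq (𝕜 := ℝ) (h1 v h) ?_
    have := (Submodule.mem_orthogonal _ _).1 hh _ (hS v h hv)
    rw [inner_sub_left, sub_eq_zero] at this
    simp [this]
  simp only [← hA]
  exact this

theorem measurable_shift_m (v : V) : Measurable (shift v) :=
  measurable_pi_lambda _ fun x =>
    (measurable_of_countable fun y : V => y + v).comp (measurable_pi_apply (x - v))

theorem shift_shift_m (v w : V) (a : Cfg) : shift v (shift w a) = shift (v + w) a := by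
  funext x
  simp only [shift]
  rw [sub_sub, add_assoc, add_comm w v]

theorem shift_zero_m (a : Cfg) : shift 0 a = a := by
  funext x
  simp [shift]

theorem ae_const_of_inv (μ : Measure Cfg) [IsProbabilityMeasure μ]
    (herg : ∀ A : Set Cfg, MeasurableSet A → (∀ v, Ev v → shift v ⁻¹' A = A) → μ A = 0 ∨ μ A = 1)
    {h : Cfg → ℝ} (hm : Measurable h) (hh : ∀ v, Ev v → h ∘ shift v =ᵐ[μ] h) :
    ∃ c, h =ᵐ[μ] Function.const Cfg c := by
  refine Filter.exists_eventuallyEq_const_of_forall_separating MeasurableSet fun U hU => ?_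
  let A : Set Cfg := ⋂ v : {v // Ev v}, shift v ⁻¹' (h ⁻¹' U)
  have hA : MeasurableSet A := MeasurableSet.iInter fun v => measurable_shift_m _ (hm hU)
  have h1 : ∀ᵐ a ∂μ, a ∈ A ↔ h a ∈ U := by
    filter_upwards [ae_all_iff.2 fun v : {v // Ev v} => hh v v.2] with a ha
    simp only [A, Set.mem_iInter, Set.mem_preimage]
    refine ⟨fun h' => ?_, fun h' v => ?_⟩
    · simpa only [shift_zero_m] using h' ⟨0, ev_zero⟩
    · rwa [show h (shift v a) = h a from ha v]
  rcases herg A hA fun w hw => by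
    ext a
    simp only [A, Set.mem_iInter, Set.mem_preimage, shift_shift_m]
    refine ⟨fun h' v => ?_, fun h' v => h' ⟨v + w, (ev_add hw).2 v.2⟩⟩
    simpa using h' ⟨v + -w, (ev_add (ev_neg.2 hw)).2 v.2⟩ with h2 | h2
  · right
    filter_upwards [h1, measure_eq_zero_iff_ae_notMem.1 h2] with a ha ha' using ha.not.1 ha'
  · left
    filter_upwards [h1, (mem_ae_iff_prob_eq_one hA).2 h2] with a ha ha' using ha.1 ha'

theorem mean_erg (μ : Measure Cfg) [IsProbabilityMeasure μ]
    (hinv : ∀ v, Ev v → Measure.map (shift v) μ = μ)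
    (herg : ∀ A : Set Cfg, MeasurableSet A → (∀ v, Ev v → shift v ⁻¹' A = A) → μ A = 0 ∨ μ A = 1)
    (f : Cfg → ℝ) (hf : Measurable f) (C : ℝ) (hC : ∀ σ, |f σ| ≤ C) (δ : ℝ) (hδ : 0 < δ) :
    Tendsto (fun l : ℕ => μ {σ | δ * (l : ℝ) ^ 3 <
      |∑ x ∈ cell l 0 with Ev x, (f (shift (-x) σ) - ∫ τ, f τ ∂μ)|}) atTop (𝓝 0) := by
  have hP : ∀ v, Ev v → MeasurePreserving (shift (-v)) μ μ := fun v hv =>
    ⟨measurable_shift_m _, hinv _ (ev_neg.2 hv)⟩
  have hU0 : ∀ v, ∃ u : Lp ℝ 2 μ →ₗ[ℝ] Lp ℝ 2 μ, (∀ g, ‖u g‖ ≤ ‖g‖) ∧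
      ∀ g, Ev v → u g =ᵐ[μ] g ∘ shift (-v) := fun v => by
    by_cases hv : Ev v
    · exact ⟨Lp.compMeasurePreservingₗ ℝ _ (hP v hv),
        fun g => (Lp.norm_compMeasurePreserving g (hP v hv)).le,
        fun g _ => Lp.coeFn_compMeasurePreserving g (hP v hv)⟩
    · exact ⟨LinearMap.id, fun _ => le_rfl, fun _ h => absurd h hv⟩
  choose U hU1 hU using hU0
  have hf2 : MemLp f 2 μ := MemLp.of_bound hf.aestronglyMeasurable C (ae_of_all _ hC)
  have hg2 : MemLp (fun σ => f σ - ∫ τ, f τ ∂μ) 2 μ := hf2.sub (memLp_const _)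
  obtain ⟨g, hg⟩ : ∃ g : Lp ℝ 2 μ, g =ᵐ[μ] fun σ => f σ - ∫ τ, f τ ∂μ := ⟨_, hg2.coeFn_toLp⟩
  have h1 := hilbert_erg U hU1 (fun x y g hx hy => ?_) g fun h hh => ?_
  rotate_left
  · refine Lp.ext ((hU x _ hx).trans (EventuallyEq.trans ?_ (hU _ g ((ev_add hy).2 hx)).symm))
    refine ((hP x hx).quasiMeasurePreserving.ae_eq_comp (hU y g hy)).trans (.of_eq ?_)
    funext a
    simp only [Function.comp, shift_shift_m, neg_add_rev]
  · obtain ⟨c, hc⟩ := ae_const_of_inv μ herg (Lp.stronglyMeasurable h).measurable fun v hv => by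
      have := hU (-v) h (ev_neg.2 hv)
      rw [hh _ (ev_neg.2 hv), neg_neg] at this
      exact this.symm
    rw [L2.inner_def, integral_congr_ae (g := fun σ => (f σ - ∫ τ, f τ ∂μ) * c), integral_mul_const,
      integral_sub (hf2.integrable one_le_two) (integrable_const _)]
    · simp
    · filter_upwards [hc, hg] with a ha ha'
      simp [ha, ha']
  obtain ⟨G, hG⟩ : ∃ G : ℕ → Lp ℝ 2 μ,
      ∀ l, G l = ((l : ℝ) ^ 3)⁻¹ • ∑ x ∈ cell l 0 with Ev x, U x g := ⟨_, fun _ => rfl⟩
  have h1' : Tendsto G atTop (𝓝 0) := h1.congr fun l => (hG l).symm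
  have h2' := tendstoInMeasure_of_tendsto_Lp h1'
  rw [tendstoInMeasure_iff_norm] at h2'
  have h2 := h2' δ hδ
  refine tendsto_of_tendsto_of_tendsto_of_le_of_le' tendsto_const_nhds h2
    (.of_forall fun _ => zero_le) ?_
  filter_upwards [eventually_gt_atTop 0] with l hl
  rw [hG]
  generalize hQ : (cell l 0).filter Ev = Q
  have hQ' : ∀ x ∈ Q, Ev x := fun x hx => (mem_filter.1 (hQ ▸ hx)).2
  have h3 : ∀ᵐ a ∂μ, ∀ x ∈ Q, U x g a = f (shift (-x) a) - ∫ τ, f τ ∂μ :=
    (Finset.eventually_all _).2 fun x hx => (hU x _ (hQ' x hx)).trans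
      ((hP x (hQ' x hx)).quasiMeasurePreserving.ae_eq_comp hg)
  have h4 := Lp.coeFn_smul (((l : ℝ) ^ 3)⁻¹) (∑ x ∈ Q, U x g)
  have h5 := Lp.coeFn_fun_finsetSum Q fun x => U x g
  refine measure_mono_ae ?_
  filter_upwards [h3, Lp.coeFn_zero ℝ 2 μ, h4, h5] with a e1 e2 e3 e4 ha
  change δ * _ < |_| at ha
  change δ ≤ ‖_‖
  rw [e2, e3, Pi.zero_apply, sub_zero, Pi.smul_apply, e4, sum_congr rfl e1, norm_smul, norm_inv,
    norm_pow, Real.norm_natCast, Real.norm_eq_abs, le_inv_mul_iff₀ (by positivity), mul_comm]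
  exact ha.le

end Pool.Agent.Lib.MP_640444_pr
end
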