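import Pool.Agent.Lib.MP_640444_pr.Stmts2

/-!
Maximal entropy implies the exchange symmetry for pairs. Averaging a law over one window exchange
raises the entropy by `D ^ 2 / 2` and keeps both marginals feasible.
-/

set_option autoImplicit false
open MeasureTheory Filter Finset
open scoped Classical Topology ENNReal

namespace Pool.Agent.Lib.MP_640444_pr

namespace Pair

open Ent

/-- one averaging step for weights -/
lemma ent_step {α : Type} (G : Finset α) (io : α → α) (w φ : α → ℝ) (D : ℝ)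
    (hG : ∀ a ∈ G, io a ∈ G) (hi : ∀ a, io (io a) = a) (hw : ∀ a, 0 ≤ w a)
    (hφ : ∀ a, φ (io a) = -φ a) (h1 : ∀ a, |φ a| ≤ 1) (hs : ∑ a ∈ G, w a = 1)
    (hD : ∑ a ∈ G, w a * φ a = D) :
    ent G w + D ^ 2 / 2 ≤ ent G fun a => (w a + w (io a)) / 2 := by
  set u : α → ℝ := fun a => (w a + w (io a)) / 2 with hu
  have sym : ∀ f : α → ℝ, ∑ a ∈ G, f (io a) = ∑ a ∈ G, f a := fun f =>
    sum_nbij' io io hG hG (fun a _ => hi a) (fun a _ => hi a) fun _ _ => rfl
  have hui : ∀ a, u (io a) = u a := fun a => by simp only [hu, hi, add_comm]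
  have hu0 : ∀ a, 0 ≤ u a := fun a => div_nonneg (add_nonneg (hw _) (hw _)) zero_le_two
  have hu1 : ∑ a ∈ G, u a = 1 := by
    simp only [hu]
    rw [← sum_div, sum_add_distrib, sym w, hs]
    norm_num
  have hq : ∑ a ∈ G, u a * Real.exp (D * φ a - D ^ 2 / 2) ≤ ∑ a ∈ G, w a := by
    have e1 := sym fun a => u a * Real.exp (D * φ a - D ^ 2 / 2)
    simp only [hui, hφ] at e1
    have e2 : ∑ a ∈ G, u a * Real.exp (D * φ a - D ^ 2 / 2) +
        ∑ a ∈ G, u a * Real.exp (D * -φ a - D ^ 2 / 2) ≤ 2 * ∑ a ∈ G, u a := by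
      rw [← sum_add_distrib, mul_sum]
      refine sum_le_sum fun a _ => ?_
      rw [← mul_add, mul_comm 2]
      refine mul_le_mul_of_nonneg_left ?_ (hu0 a)
      have e2 := Real.cosh_le_exp_half_sq (D * φ a)
      have e3 : (D * φ a) ^ 2 / 2 ≤ D ^ 2 / 2 := by
        have := sq_le_one_iff_abs_le_one (φ a) |>.2 (h1 a)
        nlinarith [sq_nonneg D]
      have e4 := e2.trans (Real.exp_le_exp.2 e3)
      rw [Real.cosh_eq] at e4
      rw [Real.exp_sub, Real.exp_sub, ← add_div, div_le_iff₀ (Real.exp_pos _), mul_neg]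
      linarith
    rw [hs]
    linarith
  have hne : ∀ a, w a ≠ 0 → u a ≠ 0 := fun a ha => by
    have := (hw a).lt_of_ne' ha
    have := hw (io a)
    simp only [hu]
    positivity
  have key := gibbs_ineq G (w := w) (q := fun a => u a * Real.exp (D * φ a - D ^ 2 / 2))
    (fun a _ => hw a) (fun a _ => mul_nonneg (hu0 a) (Real.exp_pos _).le) hq
    fun a _ ha => mul_ne_zero (hne a ha) (Real.exp_pos _).ne'
  have e3 : ∀ a, w a * Real.log (u a * Real.exp (D * φ a - D ^ 2 / 2)) =
      w a * Real.log (u a) + D * (w a * φ a) - D ^ 2 / 2 * w a := fun a => by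
    by_cases ha : w a = 0
    · simp [ha]
    · rw [Real.log_mul (hne a ha) (Real.exp_pos _).ne', Real.log_exp]
      ring
  simp only [e3] at key
  rw [sum_sub_distrib, sum_add_distrib, ← mul_sum, ← mul_sum, hD, hs] at key
  have e4 := sym fun a => w a * Real.log (u a)
  simp only [hui] at e4
  have e5 : ent G u = -∑ a ∈ G, w a * Real.log (u a) := by
    have : ∀ a, Real.negMulLog (u a) =
        -(w a * Real.log (u a) + w (io a) * Real.log (u a)) / 2 := fun a => by
      rw [Real.negMulLog]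
      simp only [hu]
      ring
    simp only [ent, this]
    rw [← sum_div, sum_neg_distrib, sum_add_distrib, e4]
    ring
  rw [e5]
  linarith

section exch

variable {r : ℕ} {S T : Finset V} {y y' : Om}

lemma exch_exch (hW : Win r S y y') (x : Om) : exch S y y' (exch S y y' x) = x := by
  by_cases a : x ∈ cyl S y
  · have := fun h => hW.dis _ h (pch_mem S y' x)
    simp only [exch, if_pos a, if_neg this, if_pos (pch_mem _ _ _), pch_pch, pch_self a]
  · by_cases b : x ∈ cyl S y'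
    · simp only [exch, if_neg a, if_pos b, if_pos (pch_mem _ _ _), pch_pch, pch_self b]
    · simp only [exch, if_neg a, if_neg b]

lemma phi_exch (hW : Win r S y y') (x : Om) :
    phi S y y' (exch S y y' x) = -phi S y y' x := by
  by_cases a : x ∈ cyl S y
  · have : pch S y' x ∉ cyl S y := fun h => hW.dis _ h (pch_mem S y' x)
    simp [phi, exch, a, this, pch_mem, hW.dis _ a]
  · by_cases b : x ∈ cyl S y'
    · simp [phi, exch, a, b, pch_mem, hW.dis _ (pch_mem S y x)]
    · simp [phi, exch, a, b]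

lemma exch_mem_iff {S' : Finset V} (h : Disjoint S S') (w x : Om) :
    exch S y y' x ∈ cyl S' w ↔ x ∈ cyl S' w := by
  unfold exch
  split_ifs
  · exact pch_mem_iff h _ _ _
  · exact pch_mem_iff h _ _ _
  · rfl

lemma measurable_exch (S : Finset V) (y y' : Om) : Measurable (exch S y y') :=
  Measurable.ite (measurableSet_cyl S y) (measurable_pch S measurable_const measurable_id)
    (Measurable.ite (measurableSet_cyl S y') (measurable_pch S measurable_const measurable_id)
      measurable_id)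

lemma res_pch (h : S ⊆ T) (w x : Om) : res T (pch S w x) = pch S w (res T x) := by
  refine Prod.ext (funext fun v => ?_) (funext fun v => ?_) <;>
    by_cases hv : v ∈ S <;> simp [res, pch, hv, fun hv : v ∈ S => h hv]

lemma res_exch (h : S ⊆ T) (x : Om) : res T (exch S y y' x) = exch S y y' (res T x) := by
  simp only [exch, res_mem_iff h]
  split_ifs
  · exact res_pch h _ _
  · exact res_pch h _ _
  · rfl

lemma patch_mem_Pat1 {Λ : Finset V} (h : S ⊆ T) {x a a' : Cfg} (hx : x ∈ Pat1 T)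
    (ha : Adm Λ a') (hS : ∀ v ∈ S, v ∉ Λ → a v = a' v) (hxa : ∀ v ∈ S, x v = a v) :
    (fun v => if v ∈ S then a' v else x v) ∈ Pat1 T := by
  obtain ⟨p1, p2⟩ := mem_Pat1.1 hx
  refine mem_Pat1.2 ⟨fun v hv => ?_, fun v hv => ?_⟩
  · split_ifs with hvS
    · by_cases hΛ : v ∈ Λ
      · exact Adj.sub_mem (ha v hΛ).1
      · rw [← hS v hvS hΛ, ← hxa v hvS]
        exact p1 v hv
    · exact p1 v hv
  · rw [if_neg fun h' => hv (h h'), p2 v hv]

lemma exch_mem_Pat (hW : Win r S y y') (h : S ⊆ T) {x : Om} (hx : x ∈ Pat T) :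
    exch S y y' x ∈ Pat T := by
  obtain ⟨Λ, -, h2, h3⟩ := hW.ex
  obtain ⟨p1, p2⟩ := mem_product.1 hx
  unfold exch
  split_ifs with a b
  · exact mem_product.2
      ⟨patch_mem_Pat1 h p1 h2.2.2.1 (fun v h h' => (h3 v h h').1) fun v h => (a v h).1,
        patch_mem_Pat1 h p2 h2.2.2.2.1 (fun v h h' => (h3 v h h').2) fun v h => (a v h).2⟩
  · exact mem_product.2
      ⟨patch_mem_Pat1 h p1 h2.1 (fun v h h' => (h3 v h h').1.symm) fun v h => (b v h).1,
        patch_mem_Pat1 h p2 h2.2.1 (fun v h h' => (h3 v h h').2.symm) fun v h => (b v h).2⟩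
  · exact hx

lemma adm_exch (hW : Win r S y y') {x : Om} (hx : Adm T x.1 ∧ Adm T x.2) :
    Adm T (exch S y y' x).1 ∧ Adm T (exch S y y' x).2 := by
  obtain ⟨Λ, h1, h2, h3⟩ := hW.ex
  have h2' := swp_symm h2
  unfold exch
  split_ifs with a b
  · exact ⟨adm_patch h1 hx.1 h2.2.2.1 h2.2.2.2.2.1 (fun v h h' => (h3 v h h').1)
        fun v h => (a v h).1,
      adm_patch h1 hx.2 h2.2.2.2.1 h2.2.2.2.2.2 (fun v h h' => (h3 v h h').2)
        fun v h => (a v h).2⟩
  · exact ⟨adm_patch h1 hx.1 h2'.2.2.1 h2'.2.2.2.2.1 (fun v h h' => (h3 v h h').1.symm)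
        fun v h => (b v h).1,
      adm_patch h1 hx.2 h2'.2.2.2.1 h2'.2.2.2.2.2 (fun v h h' => (h3 v h h').2.symm)
        fun v h => (b v h).2⟩
  · exact hx

lemma sum_in {Λ : Finset V} {a : Cfg} (ha : Adm Λ a) (g : V → ℝ) :
    ∑ x ∈ Λ with Ev x ∧ a x ∈ Λ, g (a x) = ∑ u ∈ Λ with ¬ Ev u ∧ a u ∈ Λ, g u := by
  refine sum_nbij' a a (fun x hx => ?_) (fun x hx => ?_) (fun x hx => ?_) (fun x hx => ?_)
    fun _ _ => rfl
  · obtain ⟨h1, h2, h3⟩ := mem_filter.1 hx
    exact mem_filter.2 ⟨h3, fun h => (ha x h1).1.ev.1 h h2, by rwa [(ha x h1).2 h3]⟩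
  · obtain ⟨h1, h2, h3⟩ := mem_filter.1 hx
    exact mem_filter.2 ⟨h3, (ha x h1).1.ev.2 h2, by rwa [(ha x h1).2 h3]⟩
  · obtain ⟨h1, -, h3⟩ := mem_filter.1 hx
    exact (ha x h1).2 h3
  · obtain ⟨h1, -, h3⟩ := mem_filter.1 hx
    exact (ha x h1).2 h3

lemma sum_ev {Λ : Finset V} {a a' : Cfg} (ha : Adm Λ a) (ha' : Adm Λ a') (hb : SameBd Λ a a')
    (g : V → ℝ) : ∑ x ∈ Λ with Ev x, g (a x) = ∑ x ∈ Λ with Ev x, g (a' x) := by
  have hiff : ∀ x ∈ Λ, a x ∈ Λ ↔ a' x ∈ Λ := fun x hx =>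
    ⟨fun h => by
      by_contra h'
      exact h' (hb x hx (Or.inr h') ▸ h), fun h => by
      by_contra h'
      exact h' (hb x hx (Or.inl h') ▸ h)⟩
  rw [← sum_filter_add_sum_filter_not _ fun x => a x ∈ Λ,
    ← sum_filter_add_sum_filter_not (Λ.filter Ev) fun x => a' x ∈ Λ]
  simp only [filter_filter]
  rw [sum_in ha, sum_in ha']
  congr 1
  · exact sum_congr (filter_congr fun x hx => and_congr_right fun _ => hiff x hx) fun _ _ => rfl
  · refine sum_congr (filter_congr fun x hx => and_congr_right fun _ => not_congr (hiff x hx))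
      fun x hx => ?_
    obtain ⟨h1, -, h3⟩ := mem_filter.1 hx
    rw [hb x h1 (Or.inr h3)]

lemma dev_patch {Λ : Finset V} (hΛ : Λ ⊆ S) (h : S ⊆ T) {x a a' : Cfg} (ha : Adm Λ a)
    (ha' : Adm Λ a') (hb : SameBd Λ a a') (hS : ∀ v ∈ S, v ∉ Λ → a v = a' v)
    (hxa : ∀ v ∈ S, x v = a v) (s : Fin 3 → ℝ) (i : Fin 3) :
    dev s (fun v => if v ∈ S then a' v else x v) i T = dev s x i T := by
  have hsub : Λ.filter Ev ⊆ T.filter Ev := filter_subset_filter _ (hΛ.trans h)
  unfold dev
  rw [← sum_sdiff hsub, ← sum_sdiff hsub]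
  congr 1
  · refine sum_congr rfl fun v hv => ?_
    obtain ⟨h1, h2⟩ := mem_sdiff.1 hv
    have h3 : v ∉ Λ := fun h' => h2 (mem_filter.2 ⟨h', (mem_filter.1 h1).2⟩)
    have : (if v ∈ S then a' v else x v) = x v := by
      split_ifs with h4
      · rw [hxa v h4, hS v h4 h3]
      · rfl
    simp only [this]
  · have e1 : ∀ b : Cfg, ∑ v ∈ Λ with Ev v, (((b v i - v i : ℤ) : ℝ) - s i) =
        ∑ v ∈ Λ with Ev v, ((b v i : ℤ) : ℝ) - ∑ v ∈ Λ with Ev v, (((v i : ℤ) : ℝ) + s i) :=
      fun b => by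
        rw [← sum_sub_distrib]
        refine sum_congr rfl fun v _ => ?_
        push_cast
        ring
    rw [e1, e1, sum_congr rfl (g := fun v => ((a' v i : ℤ) : ℝ)) fun v hv => by
      simp only [if_pos (hΛ (mem_filter.1 hv).1)],
      sum_congr (s₂ := Λ.filter Ev) (f := fun v => ((x v i : ℤ) : ℝ)) rfl
        (g := fun v => ((a v i : ℤ) : ℝ)) fun v hv => by
      simp only [hxa v (hΛ (mem_filter.1 hv).1)],
      sum_ev ha ha' hb fun u => ((u i : ℤ) : ℝ)]

lemma dev_exch (hW : Win r S y y') (h : S ⊆ T) (s : Fin 3 → ℝ) (i : Fin 3) (x : Om) :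
    dev s (exch S y y' x).1 i T = dev s x.1 i T ∧ dev s (exch S y y' x).2 i T = dev s x.2 i T := by
  obtain ⟨Λ, h1, h2, h3⟩ := hW.ex
  have h2' := swp_symm h2
  unfold exch
  split_ifs with a b
  · exact ⟨dev_patch h1 h h2.1 h2.2.2.1 h2.2.2.2.2.1 (fun v h h' => (h3 v h h').1)
        (fun v h => (a v h).1) s i,
      dev_patch h1 h h2.2.1 h2.2.2.2.1 h2.2.2.2.2.2 (fun v h h' => (h3 v h h').2)
        (fun v h => (a v h).2) s i⟩
  · exact ⟨dev_patch h1 h h2'.1 h2'.2.2.1 h2'.2.2.2.2.1 (fun v h h' => (h3 v h h').1.symm)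
        (fun v h => (b v h).1) s i,
      dev_patch h1 h h2'.2.1 h2'.2.2.2.1 h2'.2.2.2.2.2 (fun v h h' => (h3 v h h').2.symm)
        (fun v h => (b v h).2) s i⟩
  · exact ⟨rfl, rfl⟩

end exch

/-- the average of a law and its image -/
noncomputable def sym (ν : Measure Om) (io : Om → Om) : Measure Om :=
  (2⁻¹ : ℝ≥0∞) • (ν + ν.map io)

lemma sym_apply (ν : Measure Om) {io : Om → Om} (hio : Measurable io) {A : Set Om}
    (hA : MeasurableSet A) : sym ν io A = 2⁻¹ * (ν A + ν (io ⁻¹' A)) := by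
  simp [sym, Measure.map_apply hio hA, mul_add]

lemma half_add (a : ℝ≥0∞) : 2⁻¹ * (a + a) = a := by
  rw [← two_mul, ← mul_assoc, ENNReal.inv_mul_cancel two_ne_zero ENNReal.ofNat_ne_top, one_mul]

lemma sym_real (ν : Measure Om) [IsFiniteMeasure ν] {io : Om → Om} (hio : Measurable io)
    {A : Set Om} (hA : MeasurableSet A) :
    (sym ν io).real A = (ν.real A + ν.real (io ⁻¹' A)) / 2 := by
  simp only [measureReal_def]
  rw [sym_apply ν hio hA, ENNReal.toReal_mul,
    ENNReal.toReal_add (measure_ne_top _ _) (measure_ne_top _ _)]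
  simp [div_eq_inv_mul]

lemma sym_prob (ν : Measure Om) [IsProbabilityMeasure ν] {io : Om → Om} (hio : Measurable io) :
    IsProbabilityMeasure (sym ν io) :=
  ⟨by rw [sym_apply ν hio MeasurableSet.univ, Set.preimage_univ, half_add, measure_univ]⟩

lemma sym_int (ν : Measure Om) {io : Om → Om} (hio : Measurable io) {f : Om → ℝ}
    (hf : Measurable f) (h : ∀ p, f (io p) = f p) : ∫ p, f p ∂(sym ν io) = ∫ p, f p ∂ν := by
  have e : (sym ν io).map f = ν.map f := by
    ext A hA
    rw [Measure.map_apply hf hA, Measure.map_apply hf hA, sym_apply ν hio (hf hA)]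
    have : io ⁻¹' (f ⁻¹' A) = f ⁻¹' A := by
      ext p
      simp [h]
    rw [this, half_add]
  have e1 := fun m : Measure Om => integral_map (μ := m) hf.aemeasurable
    (f := fun t : ℝ => t) measurable_id.aestronglyMeasurable
  rw [← e1, ← e1, e]

lemma mset_adm (T : Finset V) : MeasurableSet {σ : Cfg | Adm T σ} := by
  refine Loc1.mset (Λ := T) fun σ σ' h h' v hv => ?_
  rw [h v hv]
  exact ⟨(h' v hv).1, fun h2 => by rw [h _ h2, (h' v hv).2 h2]⟩

lemma measurable_dev (s : Fin 3 → ℝ) (i : Fin 3) (T : Finset V) :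
    Measurable fun σ : Cfg => dev s σ i T :=
  Finset.measurable_sum _ fun x _ =>
    (measurable_of_countable fun u : V => ((u i - x i : ℤ) : ℝ) - s i).comp (measurable_pi_apply x)

/-- laws of admissible double patterns with mean current `s` -/
structure Gd (s : Fin 3 → ℝ) (T : Finset V) (ν : Measure Om) : Prop where
  prob : IsProbabilityMeasure ν
  adm : ∀ᵐ p ∂ν, Adm T p.1 ∧ Adm T p.2
  cur : ∀ i, ∫ p, dev s p.1 i T ∂ν = 0 ∧ ∫ p, dev s p.2 i T ∂ν = 0

lemma mset_res (T : Finset V) (a : Om) : MeasurableSet (res T ⁻¹' {a}) :=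
  measurable_pch T measurable_id measurable_const (measurableSet_singleton _)

lemma Gd.step {s : Fin 3 → ℝ} {r : ℕ} {S T : Finset V} {y y' : Om} {ν : Measure Om}
    (h : Gd s T ν) (hW : Win r S y y') (hS : S ⊆ T) : Gd s T (sym ν (exch S y y')) ∧
      H2 ν T + (ν.real (cyl S y) - ν.real (cyl S y')) ^ 2 / 2 ≤ H2 (sym ν (exch S y y')) T := by
  have := h.prob
  have hm := measurable_exch S y y'
  have hA : MeasurableSet {p : Om | Adm T p.1 ∧ Adm T p.2} :=
    (measurable_fst (mset_adm T)).inter (measurable_snd (mset_adm T))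
  refine ⟨⟨sym_prob ν hm, ?_, fun i => ?_⟩, ?_⟩
  · refine Measure.ae_smul_measure (ae_add_measure_iff.2 ⟨h.adm, ?_⟩) _
    rw [ae_map_iff hm.aemeasurable hA]
    filter_upwards [h.adm] with p hp using adm_exch hW hp
  · exact ⟨(sym_int ν hm ((measurable_dev s i T).comp measurable_fst)
      fun p => (dev_exch hW hS s i p).1).trans (h.cur i).1,
      (sym_int ν hm ((measurable_dev s i T).comp measurable_snd)
      fun p => (dev_exch hW hS s i p).2).trans (h.cur i).2⟩
  · have hae : ∀ᵐ p ∂ν, res T p ∈ Pat T := by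
      filter_upwards [h.adm] with p hp
      exact res_mem_Pat fun v hv => ⟨(hp.1 v hv).1, (hp.2 v hv).1⟩
    have key := ent_step (Pat T) (exch S y y') (fun a => ν.real (res T ⁻¹' {a})) (phi S y y')
      (ν.real (cyl S y) - ν.real (cyl S y')) (fun a ha => exch_mem_Pat hW hS ha) (exch_exch hW)
      (fun _ => measureReal_nonneg) (phi_exch hW) (abs_phi_le S y y')
      (by simpa using (real_eq_sum ν (res T) (Pat T) (mset_res T) hae fun _ => True).symm)
      (by
        have e := fun w => real_eq_sum ν (res T) (Pat T) (mset_res T) hae fun u => u ∈ cyl S w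
        simp only [res_mem_iff hS, Set.ofPred_mem_eq] at e
        rw [e, e, ← sum_sub_distrib]
        refine sum_congr rfl fun u _ => ?_
        simp only [phi, mul_sub, mul_ite, mul_one, mul_zero])
    refine key.trans (le_of_eq ?_)
    unfold H2 Hv
    congr 1
    funext a
    rw [sym_real ν hm (mset_res T a)]
    congr 3
    ext p
    simp only [Set.mem_preimage, Set.mem_singleton_iff, res_exch hS]
    exact ⟨fun e => by rw [e, exch_exch hW], fun e => by rw [← e, exch_exch hW]⟩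

lemma Gd.iter {s : Fin 3 → ℝ} {r : ℕ} {T : Finset V} {ι : Type} (Z : Finset ι)
    (S : ι → Finset V) (y y' : ι → Om) (D : ℝ) (hW : ∀ z ∈ Z, Win r (S z) (y z) (y' z))
    (hS : ∀ z ∈ Z, S z ⊆ T) (hd : ∀ z ∈ Z, ∀ z' ∈ Z, z ≠ z' → Disjoint (S z) (S z'))
    {ν : Measure Om} (h : Gd s T ν)
    (hD : ∀ z ∈ Z, ν.real (cyl (S z) (y z)) - ν.real (cyl (S z) (y' z)) = D) :
    ∃ ν', Gd s T ν' ∧ H2 ν T + Z.card * (D ^ 2 / 2) ≤ H2 ν' T := by
  induction Z using Finset.induction_on generalizing ν with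
  | empty => exact ⟨ν, h, by simp⟩
  | insert z Z hz ih =>
    have := h.prob
    have hm := mem_insert_self z Z
    obtain ⟨h1, h2⟩ := h.step (hW z hm) (hS z hm)
    obtain ⟨ν', h3, h4⟩ := ih (fun a ha => hW a (mem_insert_of_mem ha))
      (fun a ha => hS a (mem_insert_of_mem ha))
      (fun a ha b hb => hd a (mem_insert_of_mem ha) b (mem_insert_of_mem hb)) h1 fun a ha => by
        have e : ∀ w, (sym ν (exch (S z) (y z) (y' z))).real (cyl (S a) w) =
            ν.real (cyl (S a) w) := fun w => by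
          rw [sym_real ν (measurable_exch _ _ _) (measurableSet_cyl _ _)]
          have : exch (S z) (y z) (y' z) ⁻¹' cyl (S a) w = cyl (S a) w := Set.ext fun p =>
            exch_mem_iff (hd z hm a (mem_insert_of_mem ha) fun e => hz (e ▸ ha)) w p
          rw [this]
          ring
        rw [e, e, hD a (mem_insert_of_mem ha)]
    refine ⟨ν', h3, ?_⟩
    rw [hD z hm] at h2
    rw [card_insert_of_notMem hz]
    push_cast
    linarith

lemma Gd.feas {s : Fin 3 → ℝ} {n : ℕ} {ν : Measure Om} (h : Gd s (cell n 0) ν) :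
    Feas s n (ν.map Prod.fst) ∧ Feas s n (ν.map Prod.snd) := by
  have := h.prob
  refine ⟨⟨Measure.isProbabilityMeasure_map measurable_fst.aemeasurable, ?_, fun i => ?_⟩,
    ⟨Measure.isProbabilityMeasure_map measurable_snd.aemeasurable, ?_, fun i => ?_⟩⟩
  · rw [ae_map_iff measurable_fst.aemeasurable (mset_adm _)]
    exact h.adm.mono fun p hp => hp.1
  · rw [integral_map measurable_fst.aemeasurable (measurable_dev s i _).aestronglyMeasurable]
    exact (h.cur i).1
  · rw [ae_map_iff measurable_snd.aemeasurable (mset_adm _)]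
    exact h.adm.mono fun p hp => hp.2
  · rw [integral_map measurable_snd.aemeasurable (measurable_dev s i _).aestronglyMeasurable]
    exact (h.cur i).2

lemma res1_mem {T : Finset V} {σ : Cfg} (h : Adm T σ) : res1 T σ ∈ Pat1 T :=
  mem_Pat1.2 ⟨fun v hv => by simpa [res1, hv] using Adj.sub_mem (h v hv).1,
    fun v hv => by simp [res1, hv]⟩

lemma Gd.le (hsh : ShanStmt) {s : Fin 3 → ℝ} {T : Finset V} {ν : Measure Om} (h : Gd s T ν) :
    H2 ν T ≤ H1 (ν.map Prod.fst) T + H1 (ν.map Prod.snd) T := by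
  have := h.prob
  have key := hsh Om Om Bool ν (fun _ => Cfg) univ (res T) (Pat T)
    (fun j p => res1 T (bif j then p.1 else p.2)) (fun _ => Pat1 T)
    {p | Adm T p.1 ∧ Adm T p.2} (mset_res T)
    (fun j b => by
      cases j
      · exact ((measurable_res1 T).comp measurable_snd) (measurableSet_singleton b)
      · exact ((measurable_res1 T).comp measurable_fst) (measurableSet_singleton b))
    h.adm
    (fun p hp => ⟨res_mem_Pat fun v hv => ⟨(hp.1 v hv).1, (hp.2 v hv).1⟩, fun j _ => by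
      cases j
      · exact res1_mem hp.2
      · exact res1_mem hp.1⟩)
    (fun p _ q _ e => res_eq_iff.2 fun v hv =>
      ⟨res1_eq_iff.1 (e true (mem_univ _)) v hv, res1_eq_iff.1 (e false (mem_univ _)) v hv⟩)
  rw [Fintype.sum_bool] at key
  refine key.trans (le_of_eq ?_)
  unfold H1 Hv
  congr 2 <;> funext a
  · rw [map_measureReal_apply measurable_fst (measurable_res1 T (measurableSet_singleton a))]
    rfl
  · rw [map_measureReal_apply measurable_snd (measurable_res1 T (measurableSet_singleton a))]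
    rfl

lemma int_dev {s : Fin 3 → ℝ} {μ : Measure Cfg} (h : Inv1 s μ) (i : Fin 3) (T : Finset V) :
    ∫ σ, dev s σ i T ∂μ = 0 := by
  have := h.prob
  let f : Cfg → ℝ := fun σ =>
    (if σ 0 = Pi.single i 1 then 1 else 0) - (if σ 0 = -Pi.single i 1 then 1 else 0)
  have ms : ∀ y : V, MeasurableSet {σ : Cfg | σ 0 = y} := fun y =>
    mset_eq (measurable_pi_apply 0) measurable_const
  have hf : Measurable f :=
    (Measurable.ite (ms _) measurable_const measurable_const).sub
      (Measurable.ite (ms _) measurable_const measurable_const)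
  have e : ∀ y : V, (fun σ : Cfg => if σ 0 = y then (1 : ℝ) else 0) =
      Set.indicator {σ : Cfg | σ 0 = y} 1 := fun y => by
    funext σ; simp [Set.indicator_apply]
  have hi : ∀ y : V, Integrable (fun σ : Cfg => if σ 0 = y then (1 : ℝ) else 0) μ := fun y => by
    rw [e]; exact (integrable_const 1).indicator (ms _)
  have hI : ∫ σ, f σ ∂μ = s i := by
    simp only [f]
    rw [integral_sub (hi _) (hi _), e, e, integral_indicator_one (ms _),
      integral_indicator_one (ms _), h.cur i]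
    rfl
  have hfi : Integrable f μ := (hi _).sub (hi _)
  have mp : ∀ x ∈ T.filter Ev, MeasurePreserving (shift (-x)) μ μ := fun x hx =>
    ⟨measurable_shift _, h.inv _ (ev_neg.2 (mem_filter.1 hx).2)⟩
  have h1 : (fun σ => dev s σ i T) =ᵐ[μ] fun σ => ∑ x ∈ T with Ev x, (f (shift (-x) σ) - s i) := by
    filter_upwards [h.tiling] with σ hσ
    refine sum_congr rfl fun x _ => ?_
    congr 1
    have e : shift (-x) σ 0 = σ x - x := by simp [shift, sub_eq_add_neg]
    simp only [f, e]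
    exact unit_coord (d := σ x - x) (hσ x).1 i
  have h2 : ∀ x ∈ T.filter Ev, Integrable (fun σ => f (shift (-x) σ)) μ := fun x hx =>
    (mp x hx).integrable_comp_of_integrable hfi
  rw [integral_congr_ae h1, integral_finsetSum (f := fun x σ => f (shift (-x) σ) - s i) _
    fun x hx => (h2 x hx).sub (integrable_const _)]
  refine sum_eq_zero fun x hx => ?_
  rw [integral_sub (h2 x hx) (integrable_const _),
    ← integral_map (mp x hx).measurable.aemeasurable hf.aestronglyMeasurable, (mp x hx).map_eq, hI]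
  simp

lemma gd_of_inv {s : Fin 3 → ℝ} {ν : Measure Om} [IsProbabilityMeasure ν]
    (h1 : Inv1 s (ν.map Prod.fst)) (h2 : Inv1 s (ν.map Prod.snd)) (T : Finset V) : Gd s T ν := by
  refine ⟨inferInstance, ?_, fun i => ⟨?_, ?_⟩⟩
  · filter_upwards [ae_of_ae_map measurable_fst.aemeasurable h1.tiling,
      ae_of_ae_map measurable_snd.aemeasurable h2.tiling] with p a b
    exact ⟨fun v _ => ⟨(a v).1, fun _ => (a v).2⟩, fun v _ => ⟨(b v).1, fun _ => (b v).2⟩⟩
  · rw [← int_dev h1 i T,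
      integral_map measurable_fst.aemeasurable (measurable_dev s i _).aestronglyMeasurable]
  · rw [← int_dev h2 i T,
      integral_map measurable_snd.aemeasurable (measurable_dev s i _).aestronglyMeasurable]

lemma cell_sub_box (n : ℕ) : cell n 0 ⊆ box n := fun x hx => by
  rw [mem_cell] at hx
  refine mem_box.2 fun i => abs_le.2 ?_
  have := hx i
  simp only [Pi.zero_apply, mul_zero, zero_add] at this
  omega

lemma arith {ε D C : ℝ} {k N n m : ℕ} (hε0 : 0 < ε) (hεk : ε * (64 * k ^ 3) = D ^ 2)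
    (hN : C / (2 * ε) < N) (hn : N ≤ n) (hn' : 0 < n) (hm2 : n ≤ 2 * (k * m))
    (h : (m : ℝ) ^ 3 * (D ^ 2 / 2) ≤ C * (n : ℝ) ^ 2 + 2 * (ε * (n : ℝ) ^ 3)) : False := by
  have hn0 : (0 : ℝ) < n := by exact_mod_cast hn'
  have hML : (n : ℝ) ^ 3 ≤ 8 * k ^ 3 * (m : ℝ) ^ 3 := by
    have : (n : ℝ) ≤ 2 * (k * m) := by exact_mod_cast hm2
    refine (pow_le_pow_left₀ hn0.le this 3).trans_eq ?_
    ring
  have g7 : 4 * (ε * (n : ℝ) ^ 3) ≤ (m : ℝ) ^ 3 * (D ^ 2 / 2) := by
    rw [← hεk]
    linarith [mul_le_mul_of_nonneg_left hML hε0.le]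
  have g8 : 2 * ε * (n : ℝ) * n ^ 2 ≤ C * n ^ 2 := by
    have : 2 * ε * (n : ℝ) * n ^ 2 = 2 * (ε * n ^ 3) := by ring
    rw [this]
    linarith
  have g9 := le_of_mul_le_mul_right g8 (by positivity)
  rw [div_lt_iff₀ (by positivity)] at hN
  have g10 : (N : ℝ) ≤ n := by exact_mod_cast hn
  have g11 := mul_le_mul_of_nonneg_left g10 hε0.le
  linarith

lemma not_lt (hsh : ShanStmt) {s : Fin 3 → ℝ} {μ : Measure Cfg} {ν : Measure Om}
    [IsProbabilityMeasure ν] {C : ℝ} (hμ : Mx s μ) (hν : EvInv ν)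
    (h1 : Inv1 s (ν.map Prod.fst)) (h2 : Inv1 s (ν.map Prod.snd))
    (hC : ∀ n : ℕ, 2 * H1 μ (cell n 0) ≤ H2 ν (cell n 0) + C * (n : ℝ) ^ 2)
    {Λ S : Finset V} (hΛ : Λ ⊆ S) {y y' : Om} (hy : Swp Λ y y')
    (hS : ∀ x ∈ S, x ∉ Λ → y.1 x = y'.1 x ∧ y.2 x = y'.2 x) :
    ν.real (cyl S y) ≤ ν.real (cyl S y') := by
  by_contra hlt
  rw [not_le, ← sub_pos] at hlt
  set D := ν.real (cyl S y) - ν.real (cyl S y') with hD
  have hne : y ∉ cyl S y' := fun h => by
    have : cyl S y = cyl S y' := by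
      ext x
      rw [← res_eq_iff, ← res_eq_iff, res_eq_iff.2 h]
    simp [hD, this] at hlt
  obtain ⟨w, hw⟩ := Ent.exists_box S
  obtain ⟨k, hk⟩ : ∃ k : ℕ, k = 2 * (w + 1) := ⟨_, rfl⟩
  have hk0 : 0 < k := by omega
  have hk1 : (0 : ℝ) < k := by exact_mod_cast hk0
  set ε : ℝ := D ^ 2 / (64 * k ^ 3) with hε
  have hε0 : 0 < ε := by positivity
  have hεk : ε * (64 * k ^ 3) = D ^ 2 := div_mul_cancel₀ _ (by positivity)
  obtain ⟨N, hN⟩ := exists_nat_gt (C / (2 * ε))
  obtain ⟨n, hn, -, hF⟩ := hμ.2 ε hε0 (N + 3 * k)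
  obtain ⟨m, hm⟩ : ∃ m, m + 1 = n / k := ⟨n / k - 1, by
    have : 1 ≤ n / k := (Nat.le_div_iff_mul_le hk0).2 (by omega)
    omega⟩
  have hm1 : k * m + k ≤ n := by
    have := Nat.mul_div_le n k
    rw [← hm] at this
    linarith
  have hm2 : n ≤ 2 * (k * m) := by
    have a1 := Nat.lt_mul_div_succ n hk0
    have a2 : 3 ≤ n / k := (Nat.le_div_iff_mul_le hk0).2 (by omega)
    rw [← hm] at a1 a2
    have a3 : k * (m + 1 + 1) ≤ k * (2 * m) := Nat.mul_le_mul_left _ (by omega)
    linarith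
  have hkz : (k : ℤ) = 2 * (w + 1) := by exact_mod_cast hk
  have hkp : (0 : ℤ) < k := by exact_mod_cast hk0
  have hev : ∀ z : V, Ev ((k : ℤ) • z) := fun z => ev_smul (hk ▸ even_two_mul _) z
  have hsub : ∀ z ∈ cell m 0, S.image (· + (k : ℤ) • (z + 1)) ⊆ cell n 0 := fun z hz v hv => by
    rw [mem_image_add] at hv
    rw [mem_cell] at hz ⊢
    intro i
    have a1 := abs_le.1 (mem_box.1 (hw hv) i)
    have a2 := hz i
    simp only [Pi.sub_apply, Pi.smul_apply, smul_eq_mul, Pi.add_apply, Pi.one_apply,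
      Pi.zero_apply, mul_zero, zero_add] at a1 a2 ⊢
    have a3 := mul_le_mul_of_nonneg_left (Int.add_one_le_of_lt a2.2) hkp.le
    have a4 := mul_nonneg hkp.le a2.1
    have a5 : (k : ℤ) * m + k ≤ n := by exact_mod_cast hm1
    constructor <;> linarith [a1.1, a1.2]
  obtain ⟨ν', g1, g2⟩ := Gd.iter (r := n) (cell m 0) (fun z => S.image (· + (k : ℤ) • (z + 1)))
    (fun z => shift2 ((k : ℤ) • (z + 1)) y) (fun z => shift2 ((k : ℤ) • (z + 1)) y') D
    (fun z hz => win_shift hΛ hy hS hne _ ((hsub z hz).trans (cell_sub_box n))) hsub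
    (fun z _ z' _ hzz => disjoint_left.2 fun v h1 h2 => hzz (funext fun i => by
      rw [mem_image_add] at h1 h2
      have a1 := abs_le.1 (mem_box.1 (hw h1) i)
      have a2 := abs_le.1 (mem_box.1 (hw h2) i)
      simp only [Pi.sub_apply, Pi.smul_apply, smul_eq_mul, Pi.add_apply, Pi.one_apply] at a1 a2
      by_contra hc
      rcases lt_or_gt_of_ne hc with h | h
      · have := mul_le_mul_of_nonneg_left (Int.add_one_le_of_lt h) hkp.le
        linarith [a1.1, a1.2, a2.1, a2.2]
      · have := mul_le_mul_of_nonneg_left (Int.add_one_le_of_lt h) hkp.le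
        linarith [a1.1, a1.2, a2.1, a2.2]))
    (gd_of_inv h1 h2 (cell n 0)) fun z _ => by
      have e : ∀ u, ν.real (cyl (S.image (· + (k : ℤ) • (z + 1))) (shift2 ((k : ℤ) • (z + 1)) u)) =
          ν.real (cyl S u) := fun u => by
        rw [← cyl_shift ((k : ℤ) • (z + 1)) S u, measureReal_def, measureReal_def,
          (hν _ (hev _)).measure_preimage (measurableSet_cyl _ _).nullMeasurableSet]
      rw [e, e]
  have g3 := g1.le hsh
  have g4 := hF _ g1.feas.1
  have g5 := hF _ g1.feas.2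
  have g6 := hC n
  rw [card_cell] at g2
  push_cast at g2
  exact arith hε0 hεk hN (by omega) (by omega) hm2 (by linarith)

end Pair

theorem pair_of (h : ShanStmt) : PairStmt := by
  intro s μ ν _ C hμ hν h1 h2 hC Λ S hΛ y y' hy hS
  have a1 := Pair.not_lt h hμ hν h1 h2 hC hΛ hy hS
  have a2 := Pair.not_lt h hμ hν h1 h2 hC hΛ (Ent.swp_symm hy)
    fun x h h' => ⟨(hS x h h').1.symm, (hS x h h').2.symm⟩
  exact (ENNReal.toReal_eq_toReal_iff' (measure_ne_top _ _) (measure_ne_top _ _)).1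
    (le_antisymm a1 a2)

end Pool.Agent.Lib.MP_640444_pr
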