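import Pool.Agent.Lib.MP_640444_pr.MeanErg

-- part Pool.Agent.Lib.MP_640444_pr.Patch1
section

/-!
Sup norm, perimeters, the Poincare inequality in boxes, cells, and isoperimetry in Z^3.
-/

set_option autoImplicit false
open Finset
open scoped Classical

namespace Pool.Agent.Lib.MP_640444_pr

def un (i : Fin 3) : V := Pi.single i 1
def nn (x : V) : ℕ := univ.sup fun i => (x i).natAbs

lemma nn_le {x : V} {t : ℕ} : nn x ≤ t ↔ ∀ i, |x i| ≤ t := by
  simp only [nn, Finset.sup_le_iff, mem_univ, forall_true_left]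
  refine forall_congr' fun i => ?_
  rw [Int.abs_eq_natAbs, Nat.cast_le]

lemma mem_box' {x : V} {r : ℕ} : x ∈ box r ↔ nn x ≤ r := mem_box.trans nn_le.symm

lemma nn_near {x y : V} (h : ∀ i, |y i - x i| ≤ 1) : nn y ≤ nn x + 1 := by
  refine nn_le.2 fun i => ?_
  have h1 := nn_le.1 (le_refl (nn x)) i
  have h2 := h i
  rw [abs_le] at *
  push_cast
  omega

lemma Adj.nn_le {x y : V} (h : Adj x y) : nn y ≤ nn x + 1 := nn_near h.coord
lemma Adj.nn_ge {x y : V} (h : Adj x y) : nn x ≤ nn y + 1 := (adj_symm h).nn_le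

lemma adj_add_p (x : V) (i : Fin 3) : Adj x (x + un i) := by
  fin_cases i <;> simp [Adj, un, Fin.sum_univ_three]

lemma adj_neg (x : V) (i : Fin 3) : Adj x (x + -un i) := by
  fin_cases i <;> simp [Adj, un, Fin.sum_univ_three]

lemma box_mono {r t : ℕ} (h : r ≤ t) : box r ⊆ box t := fun _ hx =>
  mem_box'.2 ((mem_box'.1 hx).trans h)

lemma card_two_layers (t : ℕ) : #(box (t + 2) \ box t) ≤ 12 * (2 * t + 5) ^ 2 := by
  rw [card_sdiff_of_subset (box_mono (by omega)), card_box, card_box, tsub_le_iff_right]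
  nlinarith [Nat.zero_le t, Nat.zero_le (t ^ 2)]

/-- points of `B` that leave `B` in direction `v` -/
noncomputable def out (B : Finset V) (v : V) : ℕ := #{x ∈ B | x + v ∉ B}
def bd (A : Finset V) (i : Fin 3) (x : V) : Prop := ¬ (x ∈ A ↔ x + un i ∈ A)
noncomputable def per (S A : Finset V) : ℕ := ∑ i, #{x ∈ S | bd A i x}
noncomputable def tot (A : Finset V) : ℕ := ∑ i, (out A (un i) + out A (-un i))

lemma per_le_tot (S A : Finset V) : per S A ≤ tot A := by
  refine sum_le_sum fun i _ => ?_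
  refine (card_le_card (t := {x ∈ A | x + un i ∉ A} ∪
    ({x ∈ A | x + -un i ∉ A}).image (· + -un i)) fun x hx => ?_).trans
    ((card_union_le _ _).trans (Nat.add_le_add_left card_image_le _))
  simp only [mem_filter, bd, mem_union, mem_image] at hx ⊢
  by_cases h : x ∈ A
  · exact .inl ⟨h, fun h' => hx.2 (iff_of_true h h')⟩
  · refine .inr ⟨x + un i, ⟨?_, by simpa using h⟩, by simp⟩
    by_contra h'
    exact hx.2 (iff_of_false h h')

lemma per_mono {S T : Finset V} (h : S ⊆ T) (A : Finset V) : per S A ≤ per T A :=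
  sum_le_sum fun _ _ => card_le_card (filter_subset_filter _ h)

section Poincare

variable (I : Fin 3 → Finset ℤ) (hI : ∀ i, ∀ a ∈ I i, ∀ c ∈ I i, ∀ b, a ≤ b → b ≤ c → b ∈ I i)
  (A : Finset V)

include hI in
lemma line_const (u : V) (i : Fin 3) (h : ∀ t ∈ I i, ¬ bd A i (Function.update u i t))
    {t t' : ℤ} (ht : t ∈ I i) (ht' : t' ∈ I i) :
    Function.update u i t ∈ A ↔ Function.update u i t' ∈ A := by
  wlog hle : t ≤ t' generalizing t t'
  · exact (this ht' ht (le_of_not_ge hle)).symm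
  induction t', hle using Int.leInduction with
  | base => rfl
  | succ n hn ih =>
    have h1 : n ∈ I i := hI i t ht _ ht' n hn (by omega)
    have h2 : Function.update u i n + un i = Function.update u i (n + 1) := by
      funext j
      by_cases hj : j = i
      · subst hj; simp [un]
      · simp [un, hj]
    have h3 := h n h1
    rw [bd, not_not, h2] at h3
    exact (ih h1).trans h3

/-- points on a line that contains a boundary pair -/
noncomputable def badL (i : Fin 3) : Finset V :=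
  {u ∈ Fintype.piFinset I | ∃ t ∈ I i, bd A i (Function.update u i t)}

lemma card_badL (i : Fin 3) :
    #(badL I A i) ≤ #{x ∈ Fintype.piFinset I | bd A i x} * #(I i) := by
  rw [← card_product]
  refine (card_le_card (t := (({x ∈ Fintype.piFinset I | bd A i x}) ×ˢ I i).image
    fun q => Function.update q.1 i q.2) fun u hu => ?_).trans card_image_le
  simp only [badL, mem_filter, Fintype.mem_piFinset, mem_image, mem_product] at hu ⊢
  obtain ⟨h1, t, ht, h2⟩ := hu
  refine ⟨(Function.update u i t, u i), ⟨⟨fun j => ?_, h2⟩, h1 i⟩, by simp⟩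
  by_cases hj : j = i
  · subst hj; simpa using ht
  · simpa [hj] using h1 j

lemma pw_mem (s : Finset (Fin 3)) {x y : V} (hx : x ∈ Fintype.piFinset I)
    (hy : y ∈ Fintype.piFinset I) : s.piecewise x y ∈ Fintype.piFinset I := by
  rw [Fintype.mem_piFinset] at *
  intro j
  by_cases hj : j ∈ s <;> simp [hj, hx j, hy j]

include hI in
lemma card_pairs (s : Finset (Fin 3)) :
    #{q ∈ Fintype.piFinset I ×ˢ Fintype.piFinset I | ¬ (q.1 ∈ A ↔ s.piecewise q.2 q.1 ∈ A)} ≤
      ∑ i ∈ s, #(badL I A i) * #(Fintype.piFinset I) := by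
  induction s using Finset.induction_on with
  | empty => simp
  | insert i s hi ih =>
    rw [sum_insert hi, add_comm]
    refine (card_le_card (t := {q ∈ Fintype.piFinset I ×ˢ Fintype.piFinset I |
      ¬ (q.1 ∈ A ↔ s.piecewise q.2 q.1 ∈ A)} ∪ (badL I A i ×ˢ Fintype.piFinset I).image
        fun q => (s.piecewise q.2 q.1, s.piecewise q.1 q.2)) fun q hq => ?_).trans
      ((card_union_le _ _).trans (Nat.add_le_add ih (card_image_le.trans (card_product _ _).le)))
    obtain ⟨hq, h⟩ := mem_filter.1 hq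
    obtain ⟨h1, h2⟩ := mem_product.1 hq
    by_cases h' : q.1 ∈ A ↔ s.piecewise q.2 q.1 ∈ A
    · refine mem_union_right _ (mem_image.2 ⟨(s.piecewise q.2 q.1, s.piecewise q.1 q.2),
        mem_product.2 ⟨mem_filter.2 ⟨pw_mem I s h2 h1, ?_⟩, pw_mem I s h1 h2⟩, ?_⟩)
      · by_contra hc
        push Not at hc
        have h3 := line_const I hI A _ i hc (Fintype.mem_piFinset.1 (pw_mem I s h2 h1) i)
          (Fintype.mem_piFinset.1 h2 i)
        rw [Function.update_eq_self, ← piecewise_insert] at h3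
        exact h (h'.trans h3)
      · refine Prod.ext ?_ ?_ <;> funext j <;> by_cases hj : j ∈ s <;> simp [hj]
    · exact mem_union_left _ (mem_filter.2 ⟨hq, h'⟩)

include hI in
theorem poincare (m : ℕ) (hm : ∀ i, #(I i) ≤ m) :
    #(Fintype.piFinset I ∩ A) ≤ 2 * m * per (Fintype.piFinset I) A ∨
      #(Fintype.piFinset I \ A) ≤ 2 * m * per (Fintype.piFinset I) A := by
  set Q := Fintype.piFinset I with hQ
  have h1 : #(Q ∩ A) * #(Q \ A) ≤ m * per Q A * #Q := by
    rw [← card_product]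
    refine (card_le_card fun q hq => ?_).trans ((card_pairs I hI A univ).trans ?_)
    · simp only [mem_product, mem_inter, mem_sdiff, mem_filter, piecewise_univ] at hq ⊢
      exact ⟨⟨hq.1.1, hq.2.1⟩, fun h => hq.2.2 (h.1 hq.1.2)⟩
    · rw [← sum_mul, per, mul_sum]
      refine Nat.mul_le_mul_right _ (sum_le_sum fun i _ => (card_badL I A i).trans ?_)
      rw [mul_comm]
      exact Nat.mul_le_mul_right _ (hm i)
  have h2 : #(Q ∩ A) + #(Q \ A) = #Q := card_inter_add_card_sdiff _ _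
  rw [← h2] at h1
  by_contra hc
  push Not at hc
  nlinarith [hc.1, hc.2, Nat.mul_le_mul hc.1.le (le_refl #(Q \ A)),
    Nat.mul_le_mul hc.2.le (le_refl #(Q ∩ A))]

end Poincare

lemma poincare_cell (l : ℕ) (z : V) (A : Finset V) :
    #(cell l z ∩ A) ≤ 2 * l * per (cell l z) A ∨ #(cell l z \ A) ≤ 2 * l * per (cell l z) A :=
  poincare _ (fun i a ha c hc b h1 h2 => by rw [mem_Ico] at *; omega) A l fun i => by simp

/-- the index of the cell that contains a point -/
def idx (l : ℕ) (x : V) : V := fun i => x i / l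

lemma mem_cell_iff {l : ℕ} (hl : 0 < l) {z x : V} : x ∈ cell l z ↔ idx l x = z := by
  rw [mem_cell, funext_iff]
  refine forall_congr' fun i => ?_
  have : (0 : ℤ) < l := by exact_mod_cast hl
  rw [idx, Int.ediv_eq_iff_of_pos this]
  constructor <;> rintro ⟨h1, h2⟩ <;> constructor <;> linarith

lemma sum_per_cell {l : ℕ} (hl : 0 < l) (Z A : Finset V) :
    ∑ z ∈ Z, per (cell l z) A ≤ tot A := by
  refine le_trans (le_of_eq ?_) (per_le_tot (Z.biUnion (cell l)) A)
  simp only [per]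
  rw [sum_comm]
  refine sum_congr rfl fun i _ => ?_
  rw [filter_biUnion, card_biUnion]
  intro z _ z' _ h
  refine disjoint_left.2 fun x hx hx' => h ?_
  rw [← (mem_cell_iff hl).1 (mem_filter.1 hx).1, ← (mem_cell_iff hl).1 (mem_filter.1 hx').1]

lemma sum_cells {M : Type} [AddCommMonoid M] {l : ℕ} (hl : 0 < l) {Z A : Finset V}
    (h : ∀ x ∈ A, idx l x ∈ Z) (f : V → M) :
    ∑ x ∈ A, f x = ∑ z ∈ Z, ∑ x ∈ cell l z ∩ A, f x := by
  rw [← sum_fiberwise_of_maps_to h]
  refine sum_congr rfl fun z _ => sum_congr ?_ fun _ _ => rfl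
  ext x
  simp [mem_cell_iff hl, and_comm]

theorem isoper (B : Finset V) (m : ℕ) (hm : 0 < m) (h : 2 * #B ≤ m ^ 3) :
    #B ≤ 2 * m * tot B := by
  rw [card_eq_sum_ones, sum_cells hm (Z := B.image (idx m)) fun x hx => mem_image_of_mem _ hx]
  refine le_trans (sum_le_sum fun z _ => ?_)
    ((mul_sum _ _ _).symm.le.trans (Nat.mul_le_mul_left _ (sum_per_cell hm _ B)))
  rw [← card_eq_sum_ones]
  have h1 := card_inter_add_card_sdiff (cell m z) B
  have h2 : #(cell m z ∩ B) ≤ #B := card_le_card inter_subset_right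
  rw [card_cell] at h1
  rcases poincare_cell m z B with h3 | h3 <;> omega

lemma growth (y : ℕ → ℕ) (J : ℕ) (h1 : ∀ i ≤ J, 1 ≤ y i)
    (h2 : ∀ i < J, ∃ d, y (i + 1) = y i + d ∧
      ∀ m, 0 < m → 2 * y (i + 1) ≤ m ^ 3 → y (i + 1) ≤ 48 * m * d) :
    ∀ i ≤ J, i ^ 3 ≤ 2000 ^ 3 * y i := by
  intro i
  induction i with
  | zero => simp
  | succ i ih =>
    intro hi
    by_contra hc
    push Not at hc
    have h3 := ih (by omega)
    obtain ⟨d, hd, h4⟩ := h2 i (by omega)
    have h5 : 2000 ≤ i := by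
      by_contra h
      have := Nat.pow_le_pow_left (show i + 1 ≤ 2000 by omega) 3
      have := h1 (i + 1) hi
      nlinarith
    obtain ⟨m, hm1, hm2⟩ : ∃ m, 2 * (i + 1) ≤ 2000 * m ∧ 2000 * m ≤ 5 * i :=
      ⟨2 * (i + 1) / 2000 + 1, by omega, by omega⟩
    have h6 := Nat.pow_le_pow_left hm1 3
    rw [mul_pow, mul_pow] at h6
    have h7 := h4 m (by omega) (by omega)
    have h8 : 2000 ^ 3 * d ≤ 7 * i ^ 2 := by
      have : (i + 1) ^ 3 ≤ i ^ 3 + 7 * i ^ 2 := by nlinarith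
      rw [hd, mul_add] at hc
      omega
    have h9 : i ^ 3 ≤ 48 * m * (7 * i ^ 2) := by
      calc i ^ 3 ≤ 2000 ^ 3 * y (i + 1) := h3.trans (Nat.mul_le_mul_left _ (by omega))
        _ ≤ 2000 ^ 3 * (48 * m * d) := Nat.mul_le_mul_left _ h7
        _ = 48 * m * (2000 ^ 3 * d) := by ring
        _ ≤ _ := Nat.mul_le_mul_left _ h8
    have h10 : 0 < i ^ 2 := by positivity
    have h11 : i ≤ 336 * m := by
      refine Nat.le_of_mul_le_mul_right ?_ h10
      calc i * i ^ 2 = i ^ 3 := by ring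
        _ ≤ _ := h9
        _ = _ := by ring
    omega

end Pool.Agent.Lib.MP_640444_pr
end

-- part Pool.Agent.Lib.MP_640444_pr.Patch2
section

/-!
Sets that violate the Hall condition cross the shell with a large perimeter.
-/

set_option autoImplicit false
open Finset
open scoped Classical

namespace Pool.Agent.Lib.MP_640444_pr

/-- the region to be matched -/
structure Reg (r L : ℕ) (a a' : Cfg) (R : Finset V) : Prop where
  lo : ∀ x ∈ R, r < nn x
  hi : ∀ x ∈ R, nn x ≤ L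
  mid : ∀ x, r + 1 < nn x → nn x < L → x ∈ R
  inn : ∀ x ∈ R, Adj x (a' x) ∧ (a' x ∈ R ∨ L ≤ nn (a' x))
  ext : ∀ x ∈ R, Adj x (a x) ∧ (a x ∈ R ∨ nn (a x) ≤ r + 1)
  inj : Function.Injective a
  inj' : Function.Injective a'

/-- a set that violates the Hall condition for the colour `c` -/
structure Bad (c : V → Prop) (R A : Finset V) : Prop where
  col : ∀ x y, Adj x y → (c y ↔ ¬ c x)
  sub : A ⊆ R
  cl : ∀ x ∈ A, c x → ∀ y ∈ R, Adj x y → y ∈ A
  pos : #{x ∈ A | ¬ c x} < #{x ∈ A | c x}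

lemma flow_bal {c : V → Prop} (col : ∀ x y, Adj x y → (c y ↔ ¬ c x)) (B : Finset V) {v : V}
    (hv : ∀ x, Adj x (x + v)) :
    #{x ∈ B | c x} + #{x ∈ B | ¬ c x ∧ x + -v ∉ B} =
      #{x ∈ B | ¬ c x} + #{x ∈ B | c x ∧ x + v ∉ B} := by
  have h1 : #{x ∈ B | c x ∧ x + v ∈ B} = #{x ∈ B | ¬ c x ∧ x + -v ∈ B} := by
    refine card_nbij' (· + v) (· + -v) (fun x hx => ?_) (fun x hx => ?_) (fun x _ => by simp)
      fun x _ => by simp
    · simp only [coe_filter, Set.mem_ofPred_eq] at hx ⊢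
      exact ⟨hx.2.2, by rw [col _ _ (hv x)]; exact not_not.2 hx.2.1, by simpa using hx.1⟩
    · simp only [coe_filter, Set.mem_ofPred_eq] at hx ⊢
      refine ⟨hx.2.2, ?_, by simpa using hx.1⟩
      have := col _ _ (hv (x + -v))
      simp only [neg_add_cancel_right] at this
      tauto
  have h2 := card_filter_add_card_filter_not (s := {x ∈ B | c x}) fun x => x + v ∈ B
  have h3 := card_filter_add_card_filter_not (s := {x ∈ B | ¬ c x}) fun x => x + -v ∈ B
  simp only [filter_filter] at h2 h3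
  omega

lemma tot_le {c : V → Prop} (col : ∀ x y, Adj x y → (c y ↔ ¬ c x)) (B : Finset V) {p q : ℕ}
    (hp : ∀ v, (∀ x, Adj x (x + v)) → #{x ∈ B | c x ∧ x + v ∉ B} ≤ p)
    (hq : #{x ∈ B | ¬ c x} ≤ #{x ∈ B | c x} + q) : tot B ≤ 6 * (2 * p + q) := by
  have h (v : V) (h1 : ∀ x, Adj x (x + v)) (h2 : ∀ x, Adj x (x + -v)) : out B v ≤ 2 * p + q := by
    have h3 := flow_bal col B h2
    have h4 := card_filter_add_card_filter_not (s := {x ∈ B | x + v ∉ B}) c
    simp only [filter_filter, and_comm (a := _ ∉ B), neg_neg] at h3 h4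
    have := hp v h1
    have := hp _ h2
    unfold out
    omega
  refine (sum_le_sum (g := fun _ => 2 * (2 * p + q)) fun i _ => ?_).trans (by simp; omega)
  have := h _ (adj_add_p · i) (adj_neg · i)
  have := h _ (adj_neg · i) (by simpa using (adj_add_p · i))
  omega

noncomputable def shell (A : Finset V) (t t' : ℕ) : Finset V := {x ∈ A | t ≤ nn x ∧ nn x ≤ t'}

lemma card_three (A : Finset V) (p : V → Prop) [DecidablePred p] {t t' : ℕ} (h : t ≤ t') :
    #{x ∈ A | p x} = #{x ∈ A | p x ∧ nn x < t} + #{x ∈ shell A t t' | p x} +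
      #{x ∈ A | p x ∧ t' < nn x} := by
  simp only [card_filter, shell, sum_filter, ← sum_add_distrib]
  refine sum_congr rfl fun x _ => ?_
  by_cases hp : p x <;> simp only [hp, true_and, false_and, if_true, if_false] <;>
    split_ifs <;> omega

variable {r L : ℕ} {a a' : Cfg} {R A : Finset V} {c : V → Prop}

lemma cut (hR : Reg r L a a' R) (hA : Bad c R A) {t t' : ℕ} (h0 : r + 3 ≤ t) (h1 : t ≤ t')
    (h2 : t' + 1 < L) : 1 ≤ #(shell A t t') ∧
      tot (shell A t t') ≤ 24 * #{x ∈ shell A t t' | nn x = t ∨ nn x = t'} := by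
  set E := {x ∈ shell A t t' | nn x = t ∨ nn x = t'} with hE
  have i1 : #{x ∈ A | c x ∧ nn x < t} ≤ #{x ∈ A | ¬ c x ∧ nn x < t} + #E := by
    refine (card_le_card_of_injOn a' (fun x hx => ?_) hR.inj'.injOn).trans (card_union_le _ _)
    simp only [coe_filter, Set.mem_ofPred_eq, coe_union, Set.mem_union, hE, shell,
      mem_filter] at hx ⊢
    obtain ⟨b1, b2⟩ := hR.inn x (hA.sub hx.1)
    have b3 := b1.nn_le
    have b4 := hA.cl x hx.1 hx.2.1 _ (b2.resolve_right (by omega)) b1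
    have b5 : ¬ c (a' x) := by rw [hA.col _ _ b1]; exact not_not.2 hx.2.1
    simp only [b4, b5, true_and, not_false_iff]
    omega
  have i2 : #{x ∈ A | c x ∧ t' < nn x} ≤ #{x ∈ A | ¬ c x ∧ t' < nn x} + #E := by
    refine (card_le_card_of_injOn a (fun x hx => ?_) hR.inj.injOn).trans (card_union_le _ _)
    simp only [coe_filter, Set.mem_ofPred_eq, coe_union, Set.mem_union, hE, shell,
      mem_filter] at hx ⊢
    obtain ⟨b1, b2⟩ := hR.ext x (hA.sub hx.1)
    have b3 := b1.nn_ge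
    have b4 := hA.cl x hx.1 hx.2.1 _ (b2.resolve_right (by omega)) b1
    have b5 : ¬ c (a x) := by rw [hA.col _ _ b1]; exact not_not.2 hx.2.1
    simp only [b4, b5, true_and, not_false_iff]
    omega
  have e1 := card_three A c h1
  have e2 := card_three A (fun x => ¬ c x) h1
  have e3 := hA.pos
  have e4 : #E ≤ #(shell A t t') := card_filter_le _ _
  have e5 : #{x ∈ shell A t t' | c x} ≤ #(shell A t t') := card_filter_le _ _
  refine ⟨by omega, (tot_le hA.col _ (p := #E) (q := 2 * #E) (fun v hv => ?_) (by omega)).trans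
    (by omega)⟩
  refine card_le_card fun x hx => ?_
  simp only [hE, shell, mem_filter] at hx ⊢
  have b1 := (hv x).nn_le
  have b2 := (hv x).nn_ge
  have b4 := hA.cl x hx.1.1 hx.2.1 _ (hR.mid _ (by omega) (by omega)) (hv x)
  simp only [b4, hx.1.1, true_and] at hx ⊢
  omega

lemma fat (hR : Reg r L a a' R) (hA : Bad c R A) {t h : ℕ} (h0 : r + 3 ≤ t)
    (h2 : t + 2 * h + 1 < L) : h ^ 3 ≤ 2000 ^ 3 * #(shell A t (t + 2 * h)) := by
  have := growth (fun i => #(shell A (t + h - i) (t + h + i))) h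
    (fun i hi => (cut hR hA (by omega) (by omega) (by omega)).1) (fun i hi => ?_) h le_rfl
  · rwa [show t + h - h = t by omega, show t + h + h = t + 2 * h by omega] at this
  refine ⟨#{x ∈ shell A (t + h - (i + 1)) (t + h + (i + 1)) |
    nn x = t + h - (i + 1) ∨ nn x = t + h + (i + 1)}, ?_, fun m hm h3 => ?_⟩
  · simp only [card_filter, shell, sum_filter, ← sum_add_distrib]
    refine sum_congr rfl fun x _ => ?_
    split_ifs <;> omega
  · have h4 := (cut hR hA (t := t + h - (i + 1)) (t' := t + h + (i + 1)) (by omega) (by omega)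
      (by omega)).2
    refine (isoper _ m hm h3).trans ((Nat.mul_le_mul_left _ h4).trans (le_of_eq (by ring)))

lemma tot_apriori (hR : Reg r L a a' R) (hA : Bad c R A) (h : r + 2 ≤ L) :
    tot A ≤ 288 * (2 * L + 1) ^ 2 := by
  obtain ⟨L', rfl⟩ : ∃ L', L = L' + 2 := ⟨L - 2, by omega⟩
  refine (tot_le hA.col _ (p := 24 * (2 * (L' + 2) + 1) ^ 2) (q := 0) (fun v hv => ?_)
    hA.pos.le).trans (by omega)
  refine (card_le_card (t := box (r + 2) \ box r ∪ box (L' + 2) \ box L') fun x hx => ?_).trans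
    ((card_union_le _ _).trans ?_)
  · simp only [mem_filter, mem_union, mem_sdiff, mem_box'] at hx ⊢
    have b1 := (hv x).nn_le
    have b2 := (hv x).nn_ge
    have b3 := hR.lo x (hA.sub hx.1)
    have b4 := hR.hi x (hA.sub hx.1)
    by_contra hc
    exact hx.2.2 (hA.cl x hx.1 hx.2.1 _ (hR.mid _ (by omega) (by omega)) (hv x))
  · have b1 := card_two_layers r
    have b2 := card_two_layers L'
    have b3 := Nat.pow_le_pow_left (show 2 * r + 5 ≤ 2 * L' + 5 by omega) 2
    rw [show 2 * (L' + 2) + 1 = 2 * L' + 5 by ring]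
    omega

section Slab

variable (t t' : ℕ)

noncomputable def slab (i : Fin 3) (σ : ℤ) : Finset V :=
  Fintype.piFinset fun j => {u ∈ Icc (-(t' : ℤ)) t' | j = i → (t : ℤ) ≤ σ * u}

lemma mem_slab {i : Fin 3} {σ : ℤ} {x : V} :
    x ∈ slab t t' i σ ↔ (∀ j, |x j| ≤ t') ∧ (t : ℤ) ≤ σ * x i := by
  simp [slab, abs_le, forall_and]

lemma slab_sub (i : Fin 3) {σ : ℤ} (hσ : σ = 1 ∨ σ = -1) : slab t t' i σ ⊆ shell (box t') t t' :=
  fun x hx => by
    rw [mem_slab] at hx
    have h1 := nn_le.2 hx.1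
    have h2 := abs_le.1 (nn_le.1 (le_refl (nn x)) i)
    simp only [shell, mem_filter, mem_box', h1, true_and, and_true]
    have := hx.2
    rcases hσ with rfl | rfl <;> omega

lemma slab_cover (ht : 1 ≤ t) (p : V → Prop) [DecidablePred p] {w : ℕ}
    (h : ∀ i σ, σ = 1 ∨ σ = -1 → #{x ∈ slab t t' i σ | p x} ≤ w) :
    #{x ∈ shell (box t') t t' | p x} ≤ 6 * w := by
  refine (card_le_card (t := univ.biUnion fun i => {x ∈ slab t t' i 1 | p x} ∪
    {x ∈ slab t t' i (-1) | p x}) fun x hx => ?_).trans (card_biUnion_le.trans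
      ((sum_le_sum (g := fun _ => 2 * w) fun i _ => ?_).trans (by simp; omega)))
  · simp only [shell, mem_filter, mem_biUnion, mem_univ, true_and, mem_union, mem_slab] at hx ⊢
    have h1 : ¬ nn x ≤ t - 1 := by omega
    rw [nn_le] at h1
    push Not at h1
    obtain ⟨i, hi⟩ := h1
    refine ⟨i, ?_⟩
    simp only [nn_le.1 hx.1.2.2, hx.2, implies_true, true_and, and_true]
    rw [lt_abs] at hi
    omega
  · have := h i 1 (.inl rfl)
    have := h i (-1) (.inr rfl)
    exact (card_union_le _ _).trans (by omega)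

lemma slab_inter (htt : t ≤ t') {i j : Fin 3} (hij : i ≠ j) {σ τ : ℤ} (hσ : σ = 1 ∨ σ = -1)
    (hτ : τ = 1 ∨ τ = -1) : (t' - t + 1) ^ 3 ≤ #(slab t t' i σ ∩ slab t t' j τ) := by
  have h1 : #(Fintype.piFinset fun _ : Fin 3 => Icc (t : ℤ) t') = (t' - t + 1) ^ 3 := by
    have : ((t' : ℤ) + 1 - t).toNat = t' - t + 1 := by omega
    simp [this]
  rw [← h1]
  refine card_le_card_of_injOn (fun x k => (if k = i then σ else τ) * x k) (fun x hx => ?_)
    fun x _ y _ h => funext fun k => ?_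
  · simp only [coe_inter, Set.mem_inter_iff, mem_coe, mem_slab, Fintype.mem_piFinset, mem_Icc,
      if_true, hij.symm, if_false] at hx ⊢
    have h2 (k : Fin 3) : |(if k = i then σ else τ) * x k| ≤ t' := by
      have := hx k
      rw [abs_le]
      split_ifs
      · rcases hσ with rfl | rfl <;> omega
      · rcases hτ with rfl | rfl <;> omega
    have := hx i
    have := hx j
    refine ⟨⟨h2, ?_⟩, h2, ?_⟩
    · rcases hσ with rfl | rfl <;> omega
    · rcases hτ with rfl | rfl <;> omega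
  · have h2 := congrFun h k
    dsimp only at h2
    split_ifs at h2
    · rcases hσ with rfl | rfl <;> omega
    · rcases hτ with rfl | rfl <;> omega

theorem shell_poincare (ht : 1 ≤ t) (htt : t ≤ t') (A : Finset V) {w : ℕ}
    (hw : 2 * (2 * t' + 1) * per (shell (box t') t t') A ≤ w) (h : 2 * w < (t' - t + 1) ^ 3) :
    #{x ∈ shell (box t') t t' | x ∈ A} ≤ 6 * w ∨ #{x ∈ shell (box t') t t' | x ∉ A} ≤ 6 * w := by
  have h1 (i : Fin 3) (σ : ℤ) (hσ : σ = 1 ∨ σ = -1) :
      #{x ∈ slab t t' i σ | x ∈ A} ≤ w ∨ #{x ∈ slab t t' i σ | x ∉ A} ≤ w := by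
    have h2 := poincare (fun j => {u ∈ Icc (-(t' : ℤ)) t' | j = i → (t : ℤ) ≤ σ * u})
      (fun k a ha c hc b h1 h2 => by
        simp only [mem_filter, mem_Icc] at *
        refine ⟨by omega, fun e => ?_⟩
        have := ha.2 e
        have := hc.2 e
        rcases hσ with rfl | rfl <;> omega) A (2 * t' + 1)
      fun k => (card_filter_le _ _).trans (by rw [Int.card_Icc]; omega)
    have h3 := (Nat.mul_le_mul_left (2 * (2 * t' + 1)) (per_mono (slab_sub t t' i hσ) A)).trans hw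
    rw [filter_mem_eq_inter, ← sdiff_eq_filter]
    exact h2.imp (fun h => h.trans h3) fun h => h.trans h3
  have h2 (i j : Fin 3) (hij : i ≠ j) (σ τ : ℤ) (hσ : σ = 1 ∨ σ = -1) (hτ : τ = 1 ∨ τ = -1)
      (hi : #{x ∈ slab t t' i σ | x ∈ A} ≤ w) : #{x ∈ slab t t' j τ | x ∈ A} ≤ w := by
    refine (h1 j τ hτ).resolve_right fun hj => ?_
    have h3 := slab_inter t t' htt hij hσ hτ
    have h4 : #(slab t t' i σ ∩ slab t t' j τ) ≤
        #({x ∈ slab t t' i σ | x ∈ A} ∪ {x ∈ slab t t' j τ | x ∉ A}) :=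
      card_le_card fun x hx => by
        simp only [mem_inter, mem_union, mem_filter] at hx ⊢
        tauto
    have h5 := card_union_le {x ∈ slab t t' i σ | x ∈ A} {x ∈ slab t t' j τ | x ∉ A}
    omega
  by_cases hc : ∃ i σ, (σ = 1 ∨ σ = -1) ∧ #{x ∈ slab t t' i σ | x ∈ A} ≤ w
  · obtain ⟨i, σ, hσ, hi⟩ := hc
    refine .inl (slab_cover t t' ht _ fun j τ hτ => ?_)
    by_cases hij : i = j
    · obtain ⟨k, hk⟩ := exists_ne i
      exact h2 k j (hij ▸ hk) 1 τ (.inl rfl) hτ (h2 i k hk.symm σ 1 hσ (.inl rfl) hi)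
    · exact h2 i j hij σ τ hσ hτ hi
  · exact .inr (slab_cover t t' ht _ fun j τ hτ =>
      (h1 j τ hτ).resolve_left fun hj => hc ⟨j, τ, hτ, hj⟩)

end Slab

theorem per_lower {c' : V → Prop} (hR : Reg r L a a' R) (hA : Bad c R A) (hB : Bad c' R (R \ A))
    {t h : ℕ} (h0 : r + 3 ≤ t) (h2 : t + 2 * h + 1 < L) :
    h ^ 3 ≤ 2000 ^ 3 * (6 * (2 * (2 * (t + 2 * h) + 1) *
      per (shell (box (t + 2 * h)) t (t + 2 * h)) A)) := by
  set w := 2 * (2 * (t + 2 * h) + 1) * per (shell (box (t + 2 * h)) t (t + 2 * h)) A with hw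
  by_cases hc : 2 * w < (t + 2 * h - t + 1) ^ 3
  · rcases shell_poincare t (t + 2 * h) (by omega) (by omega) A hw.ge hc with h3 | h3
    · refine (fat hR hA h0 h2).trans (Nat.mul_le_mul_left _ (le_trans (card_le_card ?_) h3))
      intro x hx
      simp only [shell, mem_filter, mem_box'] at hx ⊢
      tauto
    · refine (fat hR hB h0 h2).trans (Nat.mul_le_mul_left _ (le_trans (card_le_card ?_) h3))
      intro x hx
      simp only [shell, mem_filter, mem_box', mem_sdiff] at hx ⊢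
      tauto
  · have := Nat.pow_le_pow_left (show h ≤ t + 2 * h - t + 1 by omega) 3
    omega

end Pool.Agent.Lib.MP_640444_pr
end

-- part Pool.Agent.Lib.MP_640444_pr.Patch3
section

/-!
Smooth cutoffs, the error terms, and the slack inequality.
-/

set_option autoImplicit false
open Finset
open scoped Classical

namespace Pool.Agent.Lib.MP_640444_pr

/-- `χ` is almost affine on the cells of side `l` -/
def Aff (χ : V → ℝ) (l : ℕ) (g η : ℝ) : Prop :=
  ∀ z, ∃ G : Fin 3 → ℝ, (∀ i, |G i| ≤ g) ∧ ∀ e ∈ cell l z, ∀ o : V, (∀ i, |o i - e i| ≤ 1) →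
    |χ o - χ e - ∑ i, G i * ((o i - e i : ℤ) : ℝ)| ≤ η

lemma Aff.one_sub {χ : V → ℝ} {l : ℕ} {g η : ℝ} (h : Aff χ l g η) :
    Aff (fun x => 1 - χ x) l g η := fun z => by
  obtain ⟨G, h1, h2⟩ := h z
  refine ⟨-G, fun i => by simpa using h1 i, fun e he o ho => ?_⟩
  rw [← abs_neg]
  refine le_trans (le_of_eq (congrArg _ ?_)) (h2 e he o ho)
  simp only [Pi.neg_apply, neg_mul, sum_neg_distrib]
  ring

theorem cutoff (α : ℕ) (hα : 0 < α) : ∃ C : ℝ, 0 ≤ C ∧ ∀ h l : ℕ, 0 < h → ∃ χ : V → ℝ,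
    (∀ x, 0 ≤ χ x ∧ χ x ≤ 1) ∧ (∀ x, nn x ≤ α * h → χ x = 1) ∧
    (∀ x, (α + 1) * h ≤ nn x → χ x = 0) ∧ Aff χ l (C / h) (C * (l + 1) / h ^ 2) := by
  let Ψ : ContDiffBump (0 : Fin 3 → ℝ) := ⟨α, α + 1, by exact_mod_cast hα, by simp⟩
  have hs : ContDiff ℝ 2 Ψ := Ψ.contDiff
  obtain ⟨C₁, h₁⟩ := ContDiff.lipschitzWith_of_hasCompactSupport Ψ.hasCompactSupport hs (by simp)
  obtain ⟨C₂, h₂⟩ := ContDiff.lipschitzWith_of_hasCompactSupport (Ψ.hasCompactSupport.fderiv ℝ)
    (hs.fderiv_right (m := 1) (by norm_num)) (by simp)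
  refine ⟨C₁ + C₂, by positivity, fun h l hh => ?_⟩
  have hh' : (0 : ℝ) < h := by exact_mod_cast hh
  let pt : V → (Fin 3 → ℝ) := fun x i => (x i : ℝ) / h
  have hpt (x y : V) (ρ : ℕ) (hxy : ∀ i, |x i - y i| ≤ ρ) : ‖pt x - pt y‖ ≤ ρ / h := by
    refine (pi_norm_le_iff_of_nonneg (by positivity)).2 fun i => ?_
    have : |(x i : ℝ) - y i| ≤ ρ := by exact_mod_cast hxy i
    simp only [pt, Pi.sub_apply, Real.norm_eq_abs, ← sub_div, abs_div, abs_of_pos hh']
    gcongr
  have hp0 : pt 0 = 0 := by funext i; simp [pt]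
  refine ⟨fun x => Ψ (pt x), fun x => ⟨Ψ.nonneg, Ψ.le_one⟩, fun x hx => ?_, fun x hx => ?_,
    fun z => ?_⟩
  · refine Ψ.one_of_mem_closedBall (mem_closedBall_zero_iff.2 ?_)
    have := hpt x 0 (α * h) (by simpa using nn_le.1 hx)
    rw [hp0, sub_zero, Nat.cast_mul, mul_div_cancel_right₀ _ hh'.ne'] at this
    exact this
  · refine Ψ.zero_of_le_dist ?_
    have h1 : ¬ nn x ≤ (α + 1) * h - 1 := by
      have : 0 < (α + 1) * h := by positivity
      omega
    rw [nn_le] at h1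
    push Not at h1
    obtain ⟨i, hi⟩ := h1
    have h2 : (((α + 1) * h : ℕ) : ℤ) ≤ |x i| := by omega
    have h3 : ((α : ℝ) + 1) * h ≤ |(x i : ℝ)| := by exact_mod_cast h2
    rw [dist_zero_right]
    refine le_trans ?_ (norm_le_pi_norm (pt x) i)
    simp only [pt, Real.norm_eq_abs, abs_div, abs_of_pos hh']
    rwa [le_div_iff₀ hh']
  · let x0 : V := fun i => l * z i
    refine ⟨fun i => fderiv ℝ Ψ (pt x0) (Pi.single i 1) / h, fun i => ?_, fun e he o ho => ?_⟩
    · rw [abs_div, abs_of_pos hh']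
      gcongr
      have h1 := (fderiv ℝ Ψ (pt x0)).le_opNorm (Pi.single i 1)
      rw [Pi.norm_single, norm_one, mul_one] at h1
      have h2 := norm_fderiv_le_of_lipschitz ℝ (x₀ := pt x0) h₁
      exact h1.trans (h2.trans (by simp))
    · rw [mem_cell] at he
      have key := Convex.norm_image_sub_le_of_norm_fderiv_le' (𝕜 := ℝ) (f := Ψ)
        (s := Metric.closedBall (pt x0) (((l + 1 : ℕ) : ℝ) / h)) (φ := fderiv ℝ Ψ (pt x0))
        (C := C₂ * (((l + 1 : ℕ) : ℝ) / h)) (x := pt e) (y := pt o)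
        (fun x _ => hs.differentiable (by simp) x)
        (fun x hx => (h₂.norm_sub_le x (pt x0)).trans (by
          gcongr; exact mem_closedBall_iff_norm.1 hx)) (convex_closedBall _ _)
        (mem_closedBall_iff_norm.2 (hpt _ _ _ fun i => by
          have := he i; rw [abs_le]; simp only [x0]; push_cast; omega))
        (mem_closedBall_iff_norm.2 (hpt _ _ _ fun i => by
          have := he i; have := ho i; rw [abs_le] at *; simp only [x0]; push_cast; omega))
      have h1 : fderiv ℝ Ψ (pt x0) (pt o - pt e) =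
          ∑ i, fderiv ℝ Ψ (pt x0) (Pi.single i 1) / h * ((o i - e i : ℤ) : ℝ) := by
        have : pt o - pt e = ∑ i, (((o i - e i : ℤ) : ℝ) / h) • (Pi.single i 1 : Fin 3 → ℝ) := by
          funext j
          simp [pt, Finset.sum_apply, Pi.single_apply, sub_div]
        rw [this, map_sum]
        refine sum_congr rfl fun i _ => ?_
        rw [map_smul, smul_eq_mul]
        ring
      rw [h1, Real.norm_eq_abs] at key
      refine key.trans ((mul_le_mul_of_nonneg_left (hpt o e 1 ho) (by positivity)).trans ?_)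
      have h2 : (C₂ : ℝ) * (((l + 1 : ℕ) : ℝ) / h) * ((1 : ℕ) / h) = C₂ * (l + 1) / h ^ 2 := by
        push_cast; field_simp
      rw [h2]
      gcongr
      simp

noncomputable def pp (s : Fin 3 → ℝ) (i : Fin 3) : ℝ := (1 - ∑ j, |s j|) / 6 + max (s i) 0
noncomputable def pm (s : Fin 3 → ℝ) (i : Fin 3) : ℝ := (1 - ∑ j, |s j|) / 6 + max (-s i) 0
/-- the average over the neighbours, with mean displacement `s` -/
noncomputable def pavg (s : Fin 3 → ℝ) (χ : V → ℝ) (e : V) : ℝ :=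
  ∑ i, (pp s i * χ (e + un i) + pm s i * χ (e + -un i))
noncomputable def perr (s : Fin 3 → ℝ) (a : Cfg) (χ : V → ℝ) (A : Finset V) : ℝ :=
  ∑ e ∈ A with Ev e, (pavg s χ e - χ (a e))

variable {s : Fin 3 → ℝ}

lemma pp_ge (i : Fin 3) : (1 - ∑ j, |s j|) / 6 ≤ pp s i := le_add_of_nonneg_right (le_max_right _ _)
lemma pm_ge (i : Fin 3) : (1 - ∑ j, |s j|) / 6 ≤ pm s i := le_add_of_nonneg_right (le_max_right _ _)
lemma pp_nonneg (hs : (∑ i, |s i|) < 1) (i : Fin 3) : 0 ≤ pp s i :=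
  le_trans (by linarith) (pp_ge i)
lemma pm_nonneg (hs : (∑ i, |s i|) < 1) (i : Fin 3) : 0 ≤ pm s i :=
  le_trans (by linarith) (pm_ge i)
lemma pp_sub (i : Fin 3) : pp s i - pm s i = s i := by
  unfold pp pm
  rcases le_total (s i) 0 with h | h <;> simp [h]
lemma pp_sum : ∑ i, (pp s i + pm s i) = 1 := by
  have h (i : Fin 3) : pp s i + pm s i = (1 - ∑ j, |s j|) / 3 + |s i| := by
    unfold pp pm
    rcases le_total (s i) 0 with h | h
    · rw [max_eq_right h, max_eq_left (neg_nonneg.2 h), abs_of_nonpos h]; ring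
    · rw [max_eq_left h, max_eq_right (neg_nonpos.2 h), abs_of_nonneg h]; ring
  simp only [h, sum_add_distrib, sum_const, card_univ, Fintype.card_fin, nsmul_eq_mul]
  push_cast
  ring

lemma avg_le (hs : (∑ i, |s i|) < 1) {χ : V → ℝ} {e : V} {G : Fin 3 → ℝ} {b : ℝ}
    (h1 : ∀ i, χ (e + un i) ≤ b + G i) (h2 : ∀ i, χ (e + -un i) ≤ b - G i) :
    pavg s χ e ≤ b + ∑ i, G i * s i := by
  calc pavg s χ e ≤ ∑ i, ((pp s i + pm s i) * b + G i * s i) := sum_le_sum fun i _ => by
        rw [← pp_sub (s := s) i]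
        nlinarith [mul_le_mul_of_nonneg_left (h1 i) (pp_nonneg hs i),
          mul_le_mul_of_nonneg_left (h2 i) (pm_nonneg hs i)]
    _ = _ := by rw [sum_add_distrib, ← sum_mul, pp_sum, one_mul]

lemma abs_dev_le (hs : (∑ i, |s i|) < 1) {a : Cfg} (ha : ∀ x i, |a x i - x i| ≤ 1) (i : Fin 3)
    (S : Finset V) : |dev s a i S| ≤ 2 * #S := by
  have h1 : |s i| ≤ 1 :=
    (single_le_sum (f := fun i => |s i|) (fun _ _ => abs_nonneg _) (mem_univ i)).trans hs.le
  refine (abs_sum_le_sum_abs _ _).trans ((sum_le_sum (g := fun _ => (2 : ℝ)) fun x _ => ?_).trans ?_)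
  · have h2 : |((a x i - x i : ℤ) : ℝ)| ≤ 1 := by exact_mod_cast ha x i
    exact (abs_sub _ _).trans (by linarith)
  · rw [sum_const, nsmul_eq_mul, mul_comm]
    gcongr
    exact filter_subset _ _

lemma idx_mem {K l : ℕ} (hl : 0 < l) {x : V} (hx : nn x ≤ K * l) : idx l x ∈ box (K + 1) := by
  refine mem_box.2 fun i => ?_
  have h1 := abs_le.1 (nn_le.1 hx i)
  have h2 : (0 : ℤ) < l := by exact_mod_cast hl
  have h3 : x i / l ≤ K := Int.ediv_le_of_le_mul h2 (by push_cast at h1; omega)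
  have h4 : -(K : ℤ) ≤ x i / l := Int.le_ediv_of_mul_le h2 (by push_cast at h1; linarith)
  rw [abs_le, idx]
  push_cast
  omega

theorem perr_le (hs : (∑ i, |s i|) < 1) {a : Cfg} (ha : ∀ x i, |a x i - x i| ≤ 1) {δ g η : ℝ}
    (hδ : 0 ≤ δ) (hη : 0 ≤ η) {K l : ℕ} (hl : 0 < l) (hc : Close s δ K l a) {χ : V → ℝ}
    (hχ : Aff χ l g η) {A : Finset V} (hA : ∀ x ∈ A, nn x ≤ K * l) :
    perr s a χ A ≤ 3 * g * ((2 * K + 3) ^ 3 * (δ * l ^ 3) + 4 * l * tot A) + 2 * η * #A := by
  have hg : 0 ≤ g := let ⟨_, h, _⟩ := hχ 0; (abs_nonneg _).trans (h 0)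
  have h1 (z : V) (hz : z ∈ box (K + 1)) :
      ∑ e ∈ cell l z ∩ A, (if Ev e then pavg s χ e - χ (a e) else 0) ≤
      3 * g * (δ * l ^ 3 + 4 * l * per (cell l z) A) + 2 * η * #(cell l z ∩ A) := by
    obtain ⟨G, hG, h⟩ := hχ z
    have h2 (i : Fin 3) : |dev s a i (cell l z ∩ A)| ≤ δ * l ^ 3 + 4 * l * per (cell l z) A := by
      rcases poincare_cell l z A with h3 | h3
      · have h4 : (#(cell l z ∩ A) : ℝ) ≤ 2 * l * per (cell l z) A := by exact_mod_cast h3
        have h5 := abs_dev_le hs ha i (cell l z ∩ A)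
        have : 0 ≤ δ * (l : ℝ) ^ 3 := by positivity
        linarith
      · have h4 : (#(cell l z \ A) : ℝ) ≤ 2 * l * per (cell l z) A := by exact_mod_cast h3
        have h5 := abs_dev_le hs ha i (cell l z \ A)
        have h6 : dev s a i (cell l z ∩ A) = dev s a i (cell l z) - dev s a i (cell l z \ A) := by
          simp only [dev, sum_filter]
          rw [← sum_inter_add_sum_sdiff (cell l z) A]
          ring
        have h7 := hc z hz i
        rw [h6]
        exact (abs_sub _ _).trans (by linarith)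
    rw [← sum_filter]
    calc _ ≤ ∑ e ∈ cell l z ∩ A with Ev e,
          (2 * η - ∑ i, G i * (((a e i - e i : ℤ) : ℝ) - s i)) := sum_le_sum fun e he => by
          have he' := (mem_inter.1 (mem_filter.1 he).1).1
          have h3 := avg_le hs (χ := χ) (e := e) (G := G) (b := χ e + η) (fun i => ?_) fun i => ?_
          · have h4 := (abs_le.1 (h e he' (a e) (ha e))).1
            simp only [mul_sub, sum_sub_distrib]
            linarith
          · have h4 := (abs_le.1 (h e he' _ (adj_add_p e i).coord)).2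
            simp [un, Pi.single_apply] at h4
            simp only [un]
            linarith
          · have h4 := (abs_le.1 (h e he' _ (adj_neg e i).coord)).2
            simp [un, Pi.single_apply] at h4
            simp only [un, ← sub_eq_add_neg] at h4 ⊢
            linarith
      _ = 2 * η * #{e ∈ cell l z ∩ A | Ev e} + ∑ i, -(G i * dev s a i (cell l z ∩ A)) := by
          rw [sum_sub_distrib, sum_const, nsmul_eq_mul, mul_comm, sum_comm, sum_neg_distrib,
            sub_eq_add_neg]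
          simp only [dev, mul_sum]
      _ ≤ 2 * η * #(cell l z ∩ A) + ∑ _i : Fin 3, g * (δ * l ^ 3 + 4 * l * per (cell l z) A) := by
          gcongr with i
          · exact filter_subset _ _
          · refine (neg_le_abs _).trans ?_
            rw [abs_mul]
            exact mul_le_mul (hG i) (h2 i) (abs_nonneg _) hg
      _ = _ := by simp; ring
  have h2 := sum_cells hl (fun x hx => idx_mem hl (hA x hx)) fun _ => (1 : ℝ)
  simp only [sum_const, nsmul_eq_mul, mul_one] at h2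
  have h3 : (∑ z ∈ box (K + 1), per (cell l z) A : ℝ) ≤ tot A := by
    exact_mod_cast sum_per_cell hl _ A
  rw [perr, sum_filter, sum_cells hl fun x hx => idx_mem hl (hA x hx)]
  refine (sum_le_sum h1).trans ?_
  rw [sum_add_distrib, ← mul_sum, ← mul_sum, ← h2, sum_add_distrib, sum_const, ← mul_sum,
    card_box, nsmul_eq_mul]
  push_cast
  rw [show (2 * ((K : ℝ) + 1) + 1) = 2 * K + 3 by ring]
  gcongr

variable {r L : ℕ} {a a' : Cfg} {R A : Finset V}

theorem err_sharp (hs : (∑ i, |s i|) < 1) (hR : Reg r L a a' R) (hA : A ⊆ R) :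
    perr s a' (fun x => if nn x ≤ r + 1 then 1 else 0) A ≤ 12 * (2 * r + 5) ^ 2 := by
  calc _ ≤ ∑ e ∈ A with Ev e, (if e ∈ box (r + 2) \ box r then (1 : ℝ) else 0) :=
        sum_le_sum fun e he => by
          have h1 := hR.lo e (hA (mem_filter.1 he).1)
          refine (sub_le_self _ (by positivity)).trans ?_
          simpa only [zero_mul, sum_const_zero, add_zero] using avg_le hs
            (χ := fun x => if nn x ≤ r + 1 then 1 else 0) (e := e) (G := fun _ => 0)
            (b := if e ∈ box (r + 2) \ box r then (1 : ℝ) else 0) (fun i => by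
              have := (adj_add_p e i).nn_ge
              simp only [mem_sdiff, mem_box']
              split_ifs <;> first | omega | simp) fun i => by
              have := (adj_neg e i).nn_ge
              simp only [mem_sdiff, mem_box']
              split_ifs <;> first | omega | simp
    _ ≤ #(box (r + 2) \ box r) := by
        rw [sum_boole]
        exact_mod_cast card_le_card fun x hx => (mem_filter.1 hx).2
    _ ≤ _ := by exact_mod_cast card_two_layers r

lemma transport (hA : Bad Ev R A) {f : V → V} (hf : Function.Injective f)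
    (h1 : ∀ e ∈ A, Adj e (f e)) {χ : V → ℝ} (h0 : ∀ x, 0 ≤ χ x)
    (h2 : ∀ e ∈ A, f e ∉ R → χ (f e) = 0) {U : Finset V} (hU : U ⊆ {o ∈ A | ¬ Ev o})
    (h3 : ∀ e ∈ A, f e ∉ U) :
    ∑ e ∈ A with Ev e, χ (f e) + ∑ o ∈ U, χ o ≤ ∑ o ∈ A with ¬ Ev o, χ o := by
  have h4 : ∑ e ∈ A with Ev e, χ (f e) = ∑ o ∈ ({e ∈ A | Ev e ∧ f e ∈ R}).image f, χ o := by
    rw [sum_image hf.injOn]
    refine (sum_subset (fun x hx => ?_) fun x hx hx' => ?_).symm
    · simp only [mem_filter] at hx ⊢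
      tauto
    · simp only [mem_filter] at hx hx'
      exact h2 x hx.1 (by tauto)
  rw [h4, ← sum_union]
  · refine sum_le_sum_of_subset_of_nonneg (union_subset (fun o ho => ?_) hU) fun _ _ _ => h0 _
    obtain ⟨e, he, rfl⟩ := mem_image.1 ho
    simp only [mem_filter] at he ⊢
    exact ⟨hA.cl e he.1 he.2.1 _ he.2.2 (h1 e he.1), by rw [(h1 e he.1).ev]; exact not_not.2 he.2.1⟩
  · refine disjoint_left.2 fun o ho => ?_
    obtain ⟨e, he, rfl⟩ := mem_image.1 ho
    exact h3 e (mem_filter.1 he).1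

theorem slack (hs : (∑ i, |s i|) < 1) (hR : Reg r L a a' R) (hA : Bad Ev R A) {χ₁ χ₂ : V → ℝ}
    (n1 : ∀ x, 0 ≤ χ₁ x) (n2 : ∀ x, 0 ≤ χ₂ x) (n3 : ∀ x, χ₁ x + χ₂ x ≤ 1)
    (a1 : ∀ x, nn x ≤ r + 1 → χ₁ x = 1 ∧ χ₂ x = 0) (a2 : ∀ x, L ≤ nn x → χ₁ x = 0 ∧ χ₂ x = 1)
    {t t' : ℕ} (h0 : r + 3 ≤ t) (h2 : t' + 1 < L)
    (a3 : ∀ x, t ≤ nn x + 1 → nn x ≤ t' + 1 → χ₁ x = 0 ∧ χ₂ x = 0) :
    (1 - ∑ j, |s j|) / 6 * per (shell (box t') t t') A < perr s a' χ₁ A + perr s a χ₂ A := by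
  set χ₃ : V → ℝ := fun x => 1 - χ₁ x - χ₂ x with hχ
  have t1 := transport hA hR.inj' (fun e he => (hR.inn e (hA.sub he)).1) n1
    (fun e he h => (a2 _ ((hR.inn e (hA.sub he)).2.resolve_left h)).1) (U := ∅) (by simp) (by simp)
  have t2 := transport hA hR.inj (fun e he => (hR.ext e (hA.sub he)).1) n2
    (fun e he h => (a1 _ ((hR.ext e (hA.sub he)).2.resolve_left h)).2) (U := ∅) (by simp) (by simp)
  have t3 (v : V) (hv : ∀ x, Adj x (x + v)) : ∑ e ∈ A with Ev e, χ₃ (e + v) +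
      #{o ∈ A | ¬ Ev o ∧ χ₃ o = 1 ∧ o + -v ∉ A} ≤ ∑ o ∈ A with ¬ Ev o, χ₃ o := by
    have := transport hA (add_left_injective v) (fun e _ => hv e) (χ := χ₃)
      (fun x => by have := n3 x; simp only [hχ]; linarith) (fun e _ h => by
        rcases le_or_gt (nn (e + v)) (r + 1) with h' | h'
        · simp [hχ, a1 _ h']
        · simp [hχ, a2 _ (le_of_not_gt fun h'' => h (hR.mid _ h' h''))])
      (U := {o ∈ A | ¬ Ev o ∧ χ₃ o = 1 ∧ o + -v ∉ A})
      (fun o ho => by simp only [mem_filter] at ho ⊢; tauto) (fun e he h => by simp [he] at h)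
    rwa [sum_congr (s₁ := {o ∈ A | ¬ Ev o ∧ χ₃ o = 1 ∧ o + -v ∉ A}) (g := fun _ => (1 : ℝ)) rfl
      fun o ho => (mem_filter.1 ho).2.2.1, sum_const, nsmul_eq_mul, mul_one] at this
  have t4 (i : Fin 3) : #{x ∈ shell (box t') t t' | bd A i x} ≤
      #{o ∈ A | ¬ Ev o ∧ χ₃ o = 1 ∧ o + -un i ∉ A} +
        #{o ∈ A | ¬ Ev o ∧ χ₃ o = 1 ∧ o + - -un i ∉ A} := by
    refine (card_le_card (t := ({o ∈ A | ¬ Ev o ∧ χ₃ o = 1 ∧ o + -un i ∉ A}).image (· + -un i) ∪
      {o ∈ A | ¬ Ev o ∧ χ₃ o = 1 ∧ o + - -un i ∉ A}) fun x hx => ?_).trans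
      ((card_union_le _ _).trans (Nat.add_le_add_right card_image_le _))
    simp only [mem_filter, bd, mem_union, mem_image, shell, neg_neg] at hx ⊢
    have b1 := (adj_add_p x i).nn_le
    have b2 := (adj_add_p x i).nn_ge
    by_cases h : x ∈ A
    · have h' : x + un i ∉ A := fun h' => hx.2 (iff_of_true h h')
      exact .inr ⟨h, fun he => h' (hA.cl x h he _ (hR.mid _ (by omega) (by omega)) (adj_add_p x i)),
        by simp [hχ, a3 x (by omega) (by omega)], h'⟩
    · have h' : x + un i ∈ A := by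
        by_contra h'
        exact hx.2 (iff_of_false h h')
      exact .inl ⟨x + un i, ⟨h', fun he => h (hA.cl _ h' he _ (hR.mid _ (by omega) (by omega))
        (adj_symm (adj_add_p x i))), by simp [hχ, a3 (x + un i) (by omega) (by omega)],
        by simpa using h⟩, by simp⟩
  have t5 : ∑ e ∈ A with Ev e, pavg s χ₃ e + (1 - ∑ j, |s j|) / 6 * per (shell (box t') t t') A ≤
      ∑ o ∈ A with ¬ Ev o, χ₃ o := by
    rw [show ∑ o ∈ A with ¬ Ev o, χ₃ o = ∑ i, (pp s i + pm s i) * ∑ o ∈ A with ¬ Ev o, χ₃ o by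
      rw [← sum_mul, pp_sum, one_mul], per, Nat.cast_sum, mul_sum]
    simp only [pavg]
    rw [sum_comm, ← sum_add_distrib]
    refine sum_le_sum fun i _ => ?_
    rw [sum_add_distrib, ← mul_sum, ← mul_sum]
    have b1 := mul_le_mul_of_nonneg_left (t3 _ (adj_add_p · i)) (pp_nonneg hs i)
    have b2 := mul_le_mul_of_nonneg_left (t3 _ (adj_neg · i)) (pm_nonneg hs i)
    have b3 := mul_le_mul_of_nonneg_left (Nat.cast_le (α := ℝ).2 (t4 i))
      (show 0 ≤ (1 - ∑ j, |s j|) / 6 by linarith)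
    have b4 := mul_le_mul_of_nonneg_right (pp_ge (s := s) i)
      (Nat.cast_nonneg #{o ∈ A | ¬ Ev o ∧ χ₃ o = 1 ∧ o + -un i ∉ A})
    have b5 := mul_le_mul_of_nonneg_right (pm_ge (s := s) i)
      (Nat.cast_nonneg #{o ∈ A | ¬ Ev o ∧ χ₃ o = 1 ∧ o + - -un i ∉ A})
    push_cast at b3
    linarith
  have t6 (e : V) : pavg s χ₃ e = 1 - pavg s χ₁ e - pavg s χ₂ e := by
    rw [← pp_sum (s := s)]
    simp only [pavg, hχ, ← sum_sub_distrib]
    exact sum_congr rfl fun i _ => by ring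
  have t7 : (#{x ∈ A | ¬ Ev x} : ℝ) < #{x ∈ A | Ev x} := by exact_mod_cast hA.pos
  simp only [t6] at t5
  simp only [hχ, sum_sub_distrib, sum_const, nsmul_eq_mul, mul_one, sum_empty,
    add_zero] at t1 t2 t5
  simp only [perr, sum_sub_distrib]
  linarith

end Pool.Agent.Lib.MP_640444_pr
end

-- part Pool.Agent.Lib.MP_640444_pr.Patch
section

/-!
The patching theorem.
-/

set_option autoImplicit false
open Finset
open scoped Classical

namespace Pool.Agent.Lib.MP_640444_pr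

variable {r L : ℕ} {a a' : Cfg}

lemma NT.near (ha : NT a) (x : V) (i : Fin 3) : |a x i - x i| ≤ 1 := by
  rcases (ha x).2 with h | h
  · simp [h]
  · exact h.coord i

lemma NT.nn_up (ha : NT a) (x : V) : nn (a x) ≤ nn x + 1 := nn_near (ha.near x)

lemma NT.nn_down (ha : NT a) (x : V) : nn x ≤ nn (a x) + 1 := by
  simpa only [(ha x).1] using ha.nn_up (a x)

lemma NT.injective (ha : NT a) : Function.Injective a :=
  Function.LeftInverse.injective fun x => (ha x).1

lemma sum_sgn_inv (ha : NT a) {S : Finset V} (hS : ∀ x ∈ S, a x ∈ S) :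
    ∑ x ∈ S, sgn x = ∑ x ∈ S with a x = x, sgn x := by
  rw [← sum_filter_add_sum_filter_not S (fun x => a x = x), add_eq_left]
  refine sum_involution (fun x _ => a x) (fun x hx => ?_) (fun x hx _ => (mem_filter.1 hx).2)
    (fun x hx => ?_) fun x _ => (ha x).1
  · have h := ((ha x).2.resolve_left (mem_filter.1 hx).2).ev
    unfold sgn
    by_cases h' : Ev x <;> simp [h, h']
  · rw [mem_filter] at hx ⊢
    exact ⟨hS x hx.1, fun h => hx.2 (ha.injective h)⟩

lemma sum_sgn (S : Finset V) : ∑ x ∈ S, sgn x = #{x ∈ S | Ev x} - (#{x ∈ S | ¬ Ev x} : ℤ) := by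
  simp [sgn, sum_ite, sub_eq_add_neg]

/-- the region between the two configurations -/
noncomputable def reg (r L : ℕ) (a a' : Cfg) : Finset V :=
  {x ∈ box L | a x ∈ box L ∧ x ∉ box r ∧ a' x ∉ box r}

lemma mem_reg {x : V} :
    x ∈ reg r L a a' ↔ nn x ≤ L ∧ nn (a x) ≤ L ∧ r < nn x ∧ r < nn (a' x) := by
  simp [reg, mem_box']

lemma reg_reg (ha : NT a) (ha' : NT a') (hf : ∀ x, a x = x → x ∈ box r)
    (hf' : ∀ x, a' x = x → x ∈ box r) : Reg r L a a' (reg r L a a') where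
  lo x hx := (mem_reg.1 hx).2.2.1
  hi x hx := (mem_reg.1 hx).1
  mid x h1 h2 := by
    have := ha.nn_up x
    have := ha'.nn_down x
    rw [mem_reg]
    omega
  inn x hx := by
    rw [mem_reg] at hx
    refine ⟨(ha' x).2.resolve_left fun h => ?_, ?_⟩
    · have := mem_box'.1 (hf' x h)
      omega
    · have := ha.nn_up (a' x)
      rw [mem_reg, (ha' x).1]
      omega
  ext x hx := by
    rw [mem_reg] at hx
    refine ⟨(ha x).2.resolve_left fun h => ?_, ?_⟩
    · have := mem_box'.1 (hf x h)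
      omega
    · have := ha'.nn_down (a x)
      rw [mem_reg, (ha x).1]
      omega
  inj := ha.injective
  inj' := ha'.injective

lemma reg_bal (ha : NT a) (ha' : NT a') (hf : ∀ x, a x = x → x ∈ box r) (hL : r + 1 < L)
    (h : (∑ x ∈ box r with a x = x, sgn x) = ∑ x ∈ box r with a' x = x, sgn x) :
    #{x ∈ reg r L a a' | Ev x} = #{x ∈ reg r L a a' | ¬ Ev x} := by
  have h1 := sum_sgn_inv ha (S := {x ∈ box L | a x ∈ box L}) fun x hx => by
    rw [mem_filter] at hx ⊢
    rw [(ha x).1]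
    exact hx.symm
  have h2 := sum_sgn_inv ha' (S := {x ∈ box L | x ∈ box r ∨ a' x ∈ box r}) fun x hx => by
    have := ha'.nn_up x
    simp only [mem_filter, mem_box', (ha' x).1] at hx ⊢
    omega
  have h3 : {x ∈ {x ∈ box L | a x ∈ box L} | a x = x} = {x ∈ box r | a x = x} := by
    ext x
    simp only [mem_filter, and_congr_left_iff]
    intro e
    have := mem_box'.1 (hf x e)
    simp only [e, mem_box']
    omega
  have h4 : {x ∈ {x ∈ box L | x ∈ box r ∨ a' x ∈ box r} | a' x = x} = {x ∈ box r | a' x = x} := by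
    ext x
    simp only [mem_filter, and_congr_left_iff]
    intro e
    simp only [e, mem_box']
    omega
  have h5 : {x ∈ box L | a x ∈ box L} =
      reg r L a a' ∪ {x ∈ box L | x ∈ box r ∨ a' x ∈ box r} := by
    ext x
    have := ha.nn_up x
    have := ha'.nn_down x
    simp only [mem_filter, mem_union, mem_reg, mem_box']
    omega
  rw [h3, h, ← h4, ← h2, h5, sum_union, add_eq_right, sum_sgn] at h1
  · omega
  · refine disjoint_left.2 fun x hx hx' => ?_
    simp only [mem_filter, mem_reg, mem_box'] at hx hx'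
    omega

lemma exists_matching {R : Finset V} (hb : #{x ∈ R | Ev x} = #{x ∈ R | ¬ Ev x})
    (h : ∀ A, ¬ Bad Ev R A) : ∃ μ : V → V, ∀ x ∈ R, μ x ∈ R ∧ Adj x (μ x) ∧ μ (μ x) = x := by
  obtain ⟨f, hf, hf'⟩ := (all_card_le_biUnion_card_iff_exists_injective
    fun x : ↥{x ∈ R | Ev x} => {y ∈ R | Adj x y}).1 fun S => by
      by_contra hc
      have h1 : ∀ y ∈ S.biUnion fun x : ↥{x ∈ R | Ev x} => {y ∈ R | Adj x y},
          y ∈ R ∧ ¬ Ev y := fun y hy => by
        obtain ⟨x, _, hx⟩ := mem_biUnion.1 hy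
        rw [mem_filter] at hx
        exact ⟨hx.1, by rw [hx.2.ev]; exact not_not.2 (mem_filter.1 x.2).2⟩
      have h2 : ∀ y ∈ S.image Subtype.val, y ∈ R ∧ Ev y := fun y hy => by
        obtain ⟨x, _, rfl⟩ := mem_image.1 hy
        exact mem_filter.1 x.2
      refine h (S.image Subtype.val ∪ S.biUnion fun x => {y ∈ R | Adj x y})
        ⟨fun _ _ => Adj.ev, union_subset (fun y hy => (h2 y hy).1) fun y hy => (h1 y hy).1,
          fun x hx he y hy hxy => ?_, ?_⟩
      · obtain ⟨z, hz, rfl⟩ := mem_image.1 ((mem_union.1 hx).resolve_right fun h => (h1 x h).2 he)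
        exact mem_union_right _ (mem_biUnion.2 ⟨z, hz, mem_filter.2 ⟨hy, hxy⟩⟩)
      · refine (card_le_card fun y hy => ?_).trans_lt ((not_le.1 hc).trans_le
          ((card_image_of_injective S Subtype.val_injective).ge.trans (card_le_card fun y hy =>
            mem_filter.2 ⟨mem_union_left _ hy, (h2 y hy).2⟩)))
        rw [mem_filter] at hy
        exact (mem_union.1 hy.1).resolve_left fun h => hy.2 (h2 y h).2
  simp only [mem_filter] at hf'
  have h1 (x : ↥{x ∈ R | Ev x}) : ¬ Ev (f x) := by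
    rw [(hf' x).2.ev]; exact not_not.2 (mem_filter.1 x.2).2
  have h2 : univ.image f = {x ∈ R | ¬ Ev x} :=
    eq_of_subset_of_card_le (fun y hy => by
      obtain ⟨x, _, rfl⟩ := mem_image.1 hy
      exact mem_filter.2 ⟨(hf' x).1, h1 x⟩)
      (by rw [card_image_of_injective _ hf, card_univ, Fintype.card_coe, hb])
  let μ : V → V := fun x => if h : x ∈ {x ∈ R | Ev x} then f ⟨x, h⟩ else
    if h : ∃ e, f e = x then h.choose.1 else x
  have h3 (e : ↥{x ∈ R | Ev x}) : μ e = f e := dif_pos e.2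
  have h4 (e : ↥{x ∈ R | Ev x}) : μ (f e) = e := by
    have h5 : ∃ e', f e' = f e := ⟨e, rfl⟩
    simp only [μ]
    rw [dif_neg fun h => h1 e (mem_filter.1 h).2, dif_pos h5, hf h5.choose_spec]
  refine ⟨μ, fun x hx => ?_⟩
  by_cases he : Ev x
  · have h5 := h3 ⟨x, mem_filter.2 ⟨hx, he⟩⟩
    dsimp only at h5
    rw [h5]
    exact ⟨(hf' _).1, (hf' ⟨x, _⟩).2, h4 _⟩
  · obtain ⟨e, _, rfl⟩ := mem_image.1 (h2.ge (mem_filter.2 ⟨hx, he⟩))
    rw [h4]
    exact ⟨(mem_filter.1 e.2).1, adj_symm (hf' e).2, h3 e⟩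

lemma Bad.compl {R A : Finset V} (hb : #{x ∈ R | Ev x} = #{x ∈ R | ¬ Ev x}) (hA : Bad Ev R A) :
    Bad (fun x => ¬ Ev x) R (R \ A) where
  col _ _ h := not_congr h.ev
  sub := sdiff_subset
  cl x hx he y hy h := mem_sdiff.2 ⟨hy, fun hy' => (mem_sdiff.1 hx).2
    (hA.cl y hy' (h.ev.2 he) x (mem_sdiff.1 hx).1 (adj_symm h))⟩
  pos := by
    have h1 := hA.pos
    have h2 : #{x ∈ R \ A | Ev x} < #{x ∈ R \ A | ¬ Ev x} := by
      simp only [card_filter, ← sum_sdiff hA.sub] at hb h1 ⊢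
      omega
    exact (card_le_card fun x hx => by simpa using hx).trans_lt
      (h2.trans_le (card_le_card fun x hx => by simpa using hx))

lemma exists_patch (ha : NT a) (ha' : NT a') (hf' : ∀ x, a' x = x → x ∈ box r)
    (hf : ∀ x, a x = x → x ∈ box r) (hL : r + 1 < L) {μ : V → V}
    (h : ∀ x ∈ reg r L a a', μ x ∈ reg r L a a' ∧ Adj x (μ x) ∧ μ (μ x) = x) :
    ∃ σ, NT σ ∧ (∀ x ∈ box r, σ x = a' x) ∧ (∀ x, x ∉ box L → σ x = a x) ∧
      ∀ x, x ∉ box r → σ x ≠ x := by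
  let σ : Cfg := fun x => if x ∈ reg r L a a' then μ x else if nn x ≤ r + 1 then a' x else a x
  have c1 (x) (hx : x ∈ reg r L a a') : σ x = μ x := if_pos hx
  have c2 (x) (hx : nn x ≤ r ∨ nn (a' x) ≤ r) : σ x = a' x := by
    have := ha'.nn_down x
    simp only [σ]
    rw [if_neg (by rw [mem_reg]; omega), if_pos (by omega)]
  have c3 (x) (hx : L < nn x ∨ L < nn (a x)) : σ x = a x := by
    have := ha.nn_up x
    simp only [σ]
    rw [if_neg (by rw [mem_reg]; omega), if_neg (by omega)]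
  have c (x : V) : x ∈ reg r L a a' ∨ (nn x ≤ r ∨ nn (a' x) ≤ r) ∨ (L < nn x ∨ L < nn (a x)) := by
    rw [mem_reg]
    omega
  refine ⟨σ, fun x => ?_, fun x hx => c2 x (.inl (mem_box'.1 hx)),
    fun x hx => c3 x (.inl (not_le.1 (mt mem_box'.2 hx))), fun x hx => ?_⟩
  · rcases c x with hx | hx | hx
    · rw [c1 x hx, c1 _ (h x hx).1]
      exact ⟨(h x hx).2.2, .inr (h x hx).2.1⟩
    · rw [c2 x hx, c2 _ (by rw [(ha' x).1]; exact hx.symm)]
      exact ha' x
    · rw [c3 x hx, c3 _ (by rw [(ha x).1]; exact hx.symm)]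
      exact ha x
  · rcases c x with h1 | h1 | h1
    · rw [c1 x h1]; exact (h x h1).2.1.ne
    · rw [c2 x h1]; exact mt (hf' x) hx
    · rw [c3 x h1]; exact mt (hf x) hx

lemma err_num {s : Fin 3 → ℝ} (hs : (∑ i, |s i|) < 1) {b : Cfg} (hb : NT b) {R A : Finset V}
    {N k l : ℕ} (hN : 0 < N) (hk : 0 < k) (hl : 0 < l) (hR : Reg r (8 * N * k * l) a a' R)
    (hr : r + 2 ≤ 8 * N * k * l) (hA : Bad Ev R A) (hc : Close s (1 / k) (8 * N * k) l b)
    {C : ℝ} (hC : 0 ≤ C) {χ : V → ℝ}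
    (hχ : Aff χ l (C / (k * l : ℕ)) (C * (l + 1) / (k * l : ℕ) ^ 2)) :
    perr s b χ A ≤ 3000000 * C * N ^ 3 * (k * l ^ 2) := by
  have hN' : (1 : ℝ) ≤ N := by exact_mod_cast hN
  have hk' : (1 : ℝ) ≤ k := by exact_mod_cast hk
  have hl' : (1 : ℝ) ≤ l := by exact_mod_cast hl
  have hL : 1 ≤ N * k := Nat.mul_pos hN hk
  have hL' : 1 ≤ N * k * l := Nat.mul_pos hL hl
  have h1 : (tot A : ℝ) ≤ 288 * (24 * (N * k * l)) ^ 2 := by
    have := (tot_apriori hR hA hr).trans (Nat.mul_le_mul_left 288 (Nat.pow_le_pow_left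
      (show 2 * (8 * N * k * l) + 1 ≤ 24 * (N * k * l) by nlinarith) 2))
    exact_mod_cast this
  have h2 : (#A : ℝ) ≤ (24 * (N * k * l)) ^ 3 := by
    have := ((card_le_card fun x hx => mem_box'.2 (hR.hi x (hA.sub hx))).trans
      (card_box _).le).trans (Nat.pow_le_pow_left
      (show 2 * (8 * N * k * l) + 1 ≤ 24 * (N * k * l) by nlinarith) 3)
    exact_mod_cast this
  have h3 : (2 * ((8 * N * k : ℕ) : ℝ) + 3) ≤ 40 * (N * k) := by
    have : 2 * (8 * N * k) + 3 ≤ 40 * (N * k) := by nlinarith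
    exact_mod_cast this
  refine (perr_le hs hb.near (by positivity) (by positivity) hl hc hχ
    fun x hx => hR.hi x (hA.sub hx)).trans ?_
  calc _ ≤ 3 * (C / (k * l : ℕ)) * ((40 * (N * k)) ^ 3 * (1 / k * l ^ 3) +
        4 * l * (288 * (24 * (N * k * l)) ^ 2)) +
        2 * (C * (l + l) / (k * l : ℕ) ^ 2) * (24 * (N * k * l)) ^ 3 := by gcongr
    _ = (192000 * N ^ 3 + 1990656 * N ^ 2 + 55296 * N ^ 3) * C * (k * l ^ 2) := by
        push_cast
        field_simp
        ring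
    _ ≤ (3000000 * N ^ 3) * C * (k * l ^ 2) := by
        gcongr
        nlinarith [mul_le_mul_of_nonneg_left hN' (sq_nonneg (N : ℝ)), sq_nonneg (N : ℝ)]
    _ = _ := by ring

theorem patch (s : Fin 3 → ℝ) (hs : (∑ i, |s i|) < 1) (N : ℕ) (hN : 2 ≤ N) :
    ∃ δ : ℝ, 0 < δ ∧ ∃ K l0 : ℕ, 0 < K ∧ ∀ l : ℕ, l0 ≤ l → ∀ (r : ℕ) (a a' : Cfg), NT a → NT a' →
      N * r ≤ (N - 1) * (K * l) →
      (∀ x, a x = x → x ∈ box r) → (∀ x, a' x = x → x ∈ box r) →
      (∑ x ∈ box r with a x = x, sgn x) = (∑ x ∈ box r with a' x = x, sgn x) →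
      Close s δ K l a → (Close s δ K l a' ∨ (r : ℝ) ≤ δ * l) →
      ∃ σ, NT σ ∧ (∀ x ∈ box r, σ x = a' x) ∧ (∀ x, x ∉ box (K * l) → σ x = a x) ∧
        ∀ x, x ∉ box r → σ x ≠ x := by
  obtain ⟨n, rfl⟩ : ∃ n, N = n + 1 := ⟨N - 1, by omega⟩
  obtain ⟨C₁, p₁, c₁⟩ := cutoff (8 * n + 1) (by omega)
  obtain ⟨C₂, p₂, c₂⟩ := cutoff (8 * n + 6) (by omega)
  set κ := (1 - ∑ j, |s j|) / 6 with hκ
  have hκ0 : 0 < κ := by rw [hκ]; linarith
  set B : ℝ := 3000000 * (C₁ + C₂) * (n + 1 : ℕ) ^ 3 + 588 with hB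
  obtain ⟨k, hk⟩ := exists_nat_gt (2000 ^ 3 * 192 * (n + 1 : ℕ) * B / κ)
  have hk0 : (0 : ℝ) < k := lt_of_le_of_lt (by positivity) hk
  have hk1 : 0 < k := by exact_mod_cast hk0
  refine ⟨1 / k, by positivity, 8 * (n + 1) * k, 1, by positivity,
    fun l hl r a a' ha ha' hr hf hf' hb hc hc' => ?_⟩
  have hl0 : (0 : ℝ) < l := by exact_mod_cast hl
  obtain ⟨h, hh⟩ : ∃ h, h = k * l := ⟨_, rfl⟩
  have hh0 : 0 < h := hh ▸ Nat.mul_pos hk1 hl
  obtain ⟨M, hM⟩ : ∃ M, M = n * h := ⟨_, rfl⟩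
  have hL : 8 * (n + 1) * k * l = 8 * M + 8 * h := by rw [hM, hh]; ring
  have hr' : r ≤ 8 * M := Nat.le_of_mul_le_mul_left (hr.trans (le_of_eq (by
    rw [hM, hh, Nat.add_sub_cancel]; ring))) (Nat.succ_pos n)
  have hR := reg_reg (L := 8 * (n + 1) * k * l) ha ha' hf hf'
  have hbal := reg_bal (L := 8 * (n + 1) * k * l) ha ha' hf (by omega) hb
  obtain ⟨μ, hμ⟩ := exists_matching hbal fun A hA => by
    obtain ⟨χ₁, q1, q2, q3, q4⟩ : ∃ χ : V → ℝ, (∀ x, 0 ≤ χ x ∧ χ x ≤ 1) ∧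
        (∀ x, nn x ≤ r + 1 → χ x = 1) ∧ (∀ x, 8 * M + 2 * h ≤ nn x → χ x = 0) ∧
        perr s a' χ A ≤ (3000000 * C₁ * (n + 1 : ℕ) ^ 3 + 588) * (k * l ^ 2) := by
      rcases hc' with hc' | hc'
      · obtain ⟨χ, q1, q2, q3, q4⟩ := c₁ h l hh0
        rw [show (8 * n + 1) * h = 8 * M + h by rw [hM]; ring] at q2
        rw [show (8 * n + 1 + 1) * h = 8 * M + 2 * h by rw [hM]; ring] at q3
        refine ⟨χ, q1, fun x hx => q2 x (by omega), q3, ?_⟩
        refine (err_num (N := n + 1) hs ha' (Nat.succ_pos n) hk1 hl hR (by omega) hA hc' p₁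
          (hh ▸ q4)).trans ?_
        gcongr
        simp
      · refine ⟨_, fun x => ?_, fun x hx => if_pos hx, fun x hx => if_neg (by omega),
          (err_sharp hs hR hA.sub).trans ?_⟩
        · split_ifs <;> simp
        · have b1 : (1 : ℝ) ≤ k := by exact_mod_cast hk1
          have b2 : (1 : ℝ) ≤ l := by exact_mod_cast hl
          have b3 : (r : ℝ) ≤ l := hc'.trans (mul_le_of_le_one_left hl0.le (by
            rw [div_le_one hk0]; exact b1))
          calc _ ≤ 12 * (7 * (l : ℝ)) ^ 2 := by gcongr; linarith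
            _ = (0 + 588) * (1 * l ^ 2) := by ring
            _ ≤ _ := by gcongr; positivity
    obtain ⟨ψ, u1, u2, u3, u4⟩ := c₂ h l hh0
    rw [show (8 * n + 6) * h = 8 * M + 6 * h by rw [hM]; ring] at u2
    rw [show (8 * n + 6 + 1) * h = 8 * M + 7 * h by rw [hM]; ring] at u3
    have e2 := err_num (N := n + 1) hs ha (Nat.succ_pos n) hk1 hl hR (by omega) hA hc p₂ (hh ▸ u4.one_sub)
    have e3 := slack hs hR hA (χ₁ := χ₁) (χ₂ := fun x => 1 - ψ x) (fun x => (q1 x).1)
      (fun x => sub_nonneg.2 (u1 x).2) (fun x => by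
        rcases le_total (nn x) (8 * M + 2 * h) with h' | h'
        · simp [u2 x (by omega), q1 x]
        · simp [q3 x h', u1 x])
      (fun x hx => ⟨q2 x hx, by simp [u2 x (by omega)]⟩)
      (fun x hx => ⟨q3 x (by omega), by simp [u3 x (by omega)]⟩)
      (t := 8 * M + 3 * h) (t' := 8 * M + 3 * h + 2 * h) (by omega) (by omega)
      fun x h1 h2 => ⟨q3 x (by omega), by simp [u2 x (by omega)]⟩
    have e4 := per_lower hR hA (hA.compl hbal) (t := 8 * M + 3 * h) (h := h) (by omega) (by omega)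
    set P := per (shell (box (8 * M + 3 * h + 2 * h)) (8 * M + 3 * h) (8 * M + 3 * h + 2 * h)) A
    have e5 : h ^ 2 ≤ 2000 ^ 3 * 192 * (n + 1) * P := by
      refine Nat.le_of_mul_le_mul_left ?_ hh0
      calc h * h ^ 2 = h ^ 3 := by ring
        _ ≤ _ := e4
        _ ≤ 2000 ^ 3 * (6 * (2 * (16 * M + 16 * h) * P)) :=
          Nat.mul_le_mul_left _ (Nat.mul_le_mul_left _ (Nat.mul_le_mul_right _ (by omega)))
        _ = _ := by rw [hM]; ring
    have e6 : ((k : ℝ) * l) ^ 2 ≤ 2000 ^ 3 * 192 * (n + 1 : ℕ) * P := by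
      rw [hh] at e5
      exact_mod_cast e5
    have e7 : κ * P ≤ B * (k * l ^ 2) := by
      rw [hB, hκ]
      linarith
    rw [div_lt_iff₀ hκ0] at hk
    have e8 := mul_lt_mul_of_pos_right hk (show (0 : ℝ) < k * l ^ 2 by positivity)
    have e9 := mul_le_mul_of_nonneg_left e6 hκ0.le
    have e10 := mul_le_mul_of_nonneg_left e7
      (show (0 : ℝ) ≤ 2000 ^ 3 * 192 * (n + 1 : ℕ) by positivity)
    linarith
  exact exists_patch ha ha' hf' hf (by omega) hμ

end Pool.Agent.Lib.MP_640444_pr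
end
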