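import Mathlib

/-!
Statement-level definitions: ergodic Gibbs measures of the dimer model on Z^3 (the conditions are
those of the frozen statement S19363) and the graph of the symmetric difference of two tilings.
A tiling is encoded by the map sending a vertex to its partner.
-/

set_option autoImplicit false
open MeasureTheory

namespace Pool.Agent.Lib.MP_640444_pr

/-- `μ` is an ergodic Gibbs measure of the dimer model on Z^3 with mean current `s`. -/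
structure IsEGM (s : Fin 3 → ℝ) (μ : Measure ((Fin 3 → ℤ) → (Fin 3 → ℤ))) : Prop where
  prob : IsProbabilityMeasure μ
  tiling : ∀ᵐ σ ∂μ, ∀ x : Fin 3 → ℤ, (∑ i, |σ x i - x i|) = 1 ∧ σ (σ x) = x
  gibbs : ∀ (Λ : Finset (Fin 3 → ℤ)) (τ₁ τ₂ : (Fin 3 → ℤ) → (Fin 3 → ℤ)),
    (∀ x ∈ Λ, (∑ i, |τ₁ x i - x i|) = 1 ∧ (τ₁ x ∈ Λ → τ₁ (τ₁ x) = x)) →
    (∀ x ∈ Λ, (∑ i, |τ₂ x i - x i|) = 1 ∧ (τ₂ x ∈ Λ → τ₂ (τ₂ x) = x)) →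
    (∀ x ∈ Λ, (τ₁ x ∉ Λ ∨ τ₂ x ∉ Λ) → τ₁ x = τ₂ x) →
    ∀ A : Set ((Fin 3 → ℤ) → (Fin 3 → ℤ)), MeasurableSet A →
      (∀ σ σ' : (Fin 3 → ℤ) → (Fin 3 → ℤ),
        (∀ y : Fin 3 → ℤ, y ∉ Λ → σ y = σ' y) → σ ∈ A → σ' ∈ A) →
      μ ({σ : (Fin 3 → ℤ) → (Fin 3 → ℤ) | ∀ x ∈ Λ, σ x = τ₁ x} ∩ A)
        = μ ({σ : (Fin 3 → ℤ) → (Fin 3 → ℤ) | ∀ x ∈ Λ, σ x = τ₂ x} ∩ A)
  inv : ∀ v : Fin 3 → ℤ, Even (∑ i, v i) →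
    Measure.map
      (fun (σ : (Fin 3 → ℤ) → (Fin 3 → ℤ)) (x : Fin 3 → ℤ) => σ (x - v) + v) μ = μ
  erg : ∀ A : Set ((Fin 3 → ℤ) → (Fin 3 → ℤ)), MeasurableSet A →
    (∀ v : Fin 3 → ℤ, Even (∑ i, v i) →
      (fun (σ : (Fin 3 → ℤ) → (Fin 3 → ℤ)) (x : Fin 3 → ℤ) => σ (x - v) + v) ⁻¹' A = A) →
    μ A = 0 ∨ μ A = 1
  cur : ∀ i : Fin 3, s i =
    (μ {σ : (Fin 3 → ℤ) → (Fin 3 → ℤ) | σ 0 = (Pi.single i (1 : ℤ) : Fin 3 → ℤ)}).toReal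
    - (μ {σ : (Fin 3 → ℤ) → (Fin 3 → ℤ) | σ 0 = -(Pi.single i (1 : ℤ) : Fin 3 → ℤ)}).toReal

/-- The graph whose edges are the dimers lying in exactly one of the two tilings. -/
def diffGraph (σ₁ σ₂ : (Fin 3 → ℤ) → (Fin 3 → ℤ)) : SimpleGraph (Fin 3 → ℤ) :=
  SimpleGraph.fromRel fun x y => Xor (σ₁ x = y) (σ₂ x = y)

end Pool.Agent.Lib.MP_640444_pr
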