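import Pool.Agent.Lib.MP_640444_pr.Coin
import Pool.Agent.Lib.MP_640444_pr.End3
import Pool.Agent.Lib.MP_640444_pr.Patch
import Pool.Agent.Lib.MP_640444_pr.Ent

-- part Pool.Agent.Lib.MP_640444_pr.Near
section

/-!
The currents stay close to the mean current after random flips of components and after flipping
two rays.
-/

set_option autoImplicit false
open MeasureTheory Filter Finset
open scoped Classical Topology
open Pool.Agent.Shared.Ergodic

namespace Pool.Agent.Lib.MP_640444_pr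

lemma cell_subset {K l : ℕ} {z : V} (hz : z ∈ box (K + 1)) : cell l z ⊆ box ((K + 2) * l) := by
  intro x hx
  rw [mem_box] at hz ⊢
  intro i
  have h1 := abs_le.1 (hz i)
  have h2 := mem_cell.1 hx i
  have hl : (0 : ℤ) ≤ l := Int.natCast_nonneg l
  push_cast at h1 ⊢
  exact abs_le.2 ⟨by nlinarith, by nlinarith⟩

lemma Close.mono {s : Fin 3 → ℝ} {δ δ' : ℝ} {K l : ℕ} {a : Cfg} (h : Close s δ K l a)
    (hd : δ ≤ δ') : Close s δ' K l a := fun z hz i =>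
  (h z hz i).trans (mul_le_mul_of_nonneg_right hd (by positivity))

lemma Good.err {s : Fin 3 → ℝ} {δ : ℝ} {K m l : ℕ} {p : Om} (h : Good s δ K m l p) {z : V}
    (hz : z ∈ box (K + 1)) (i : Fin 3) :
    ∑ x ∈ cell l z with Ev x, err i m p x ≤ δ * (l : ℝ) ^ 3 ∧
    ∑ x ∈ cell l z with Ev x, Nl i p x l / (l : ℝ) ^ 3 ≤ δ * (l : ℝ) ^ 3 := by
  have h1 : ∑ x ∈ cell l z with Ev x, hh m l p x ≤ δ * (l : ℝ) ^ 3 :=
    (sum_le_sum_of_subset_of_nonneg (filter_subset_filter _ (cell_subset hz))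
      fun x _ _ => hh_nonneg m l p x).trans h.2.2
  have h2 : ∀ x, MP_640444_pr.err i m p x + Nl i p x l / (l : ℝ) ^ 3 ≤ hh m l p x := fun x =>
    single_le_sum (f := fun i => MP_640444_pr.err i m p x + Nl i p x l / (l : ℝ) ^ 3)
      (fun j _ => add_nonneg (abs_nonneg _) (Nl_div_nonneg j p x l)) (mem_univ i)
  constructor
  · refine (sum_le_sum fun x _ => ?_).trans h1
    linarith [h2 x, Nl_div_nonneg i p x l]
  · refine (sum_le_sum fun x _ => ?_).trans h1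
    have : 0 ≤ MP_640444_pr.err i m p x := abs_nonneg _
    linarith [h2 x]

lemma sum_vel_cm (i : Fin 3) {p : Om} (hp : Til p) {x : V} (hx : Ev x) (Q : Finset V) (R : ℕ)
    (hQ : ∀ y ∈ Q, y - x ∈ box R) :
    ∑ y ∈ Q with (Ev y ∧ Cm p x y), |vel i p y| ≤ 2 * Nl i p x R := by
  have e : ∀ y ∈ ({y ∈ Q | Ev y ∧ Cm p x y} : Finset V), |vel i p y| = |vel i p x| := by
    intro y hy
    rw [mem_filter] at hy
    rw [vel_cm i hp hx hy.2.1 hy.2.2]
  rw [sum_congr rfl e, sum_const, nsmul_eq_mul, Nl]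
  split_ifs with h
  · simp [h]
  · have : #{y ∈ Q | Ev y ∧ Cm p x y} ≤ cnt p x R := by
      refine card_le_card_of_injOn (fun y => y - x) (fun y hy => ?_)
        fun a _ b _ h => sub_left_injective h
      simp only [coe_filter, Set.mem_ofPred_eq] at hy ⊢
      refine ⟨hQ y hy.1, ?_, by simpa using hy.2.2⟩
      rw [sub_eq_add_neg, ev_add (ev_neg.2 hx)]; exact hy.2.1
    have h2 : (#{y ∈ Q | Ev y ∧ Cm p x y} : ℝ) ≤ cnt p x R := by exact_mod_cast this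
    rw [mul_comm]
    exact mul_le_mul (abs_vel_le i p x) h2 (by positivity) (by norm_num)

/-- signed sum of velocities -/
noncomputable def sv (l : ℕ) (z : V) (i : Fin 3) (ω : Om × (V → Bool)) : ℝ :=
  ∑ x ∈ cell l z with Ev x, sg (ω.2 (rep ω.1 x)) * vel i ω.1 x

lemma measurable_sv (l : ℕ) (z : V) (i : Fin 3) : Measurable (sv l z i) := by
  refine Finset.measurable_sum _ fun x hx => Measurable.mul ?_ ?_
  · exact (measurable_of_finite sg).comp
      (meas_app measurable_snd ((measurable_rep x).comp measurable_fst))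
  · have e : (fun p => vel i p x) = fun p => vel i (shift2 (-x) p) 0 :=
      funext fun p => (shift2_neg_apply (vel_shift i) p (mem_filter.1 hx).2).symm
    have : Measurable fun p => vel i p x := by
      rw [e]; exact (measurable_vel i).comp (measurable_shift2 _)
    exact this.comp measurable_fst

lemma sv_cheb {s : Fin 3 → ℝ} {δ t : ℝ} {K m l : ℕ} {p : Om} (hp : Til p) (h : Good s δ K m l p)
    (hl : 0 < l) (ht : 0 < t) {z : V} (hz : z ∈ box (K + 1)) (i : Fin 3) :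
    coins {ξ | t * (l : ℝ) ^ 3 < |sv l z i (p, ξ)|} ≤ ENNReal.ofReal (4 * δ / t ^ 2) := by
  have hl' : (0 : ℝ) < l := by exact_mod_cast hl
  have h1 := coins_cheb ({x ∈ cell l z | Ev x}) (rep p) (vel i p) (t := t * (l : ℝ) ^ 3)
    (B := 4 * δ * (l : ℝ) ^ 6) (by positivity) (by
      have h2 := (h.err hz i).2
      rw [← sum_div, div_le_iff₀ (by positivity)] at h2
      refine le_trans (sum_le_sum (g := fun x => 4 * Nl i p x l) fun x hx => ?_) ?_
      · rw [mem_filter] at hx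
        have h3 := sum_vel_cm i hp hx.2 (cell l z) l fun y hy => by
          rw [mem_box]
          intro j
          have a := mem_cell.1 hx.1 j
          have b := mem_cell.1 hy j
          simp only [Pi.sub_apply]
          exact abs_le.2 ⟨by omega, by omega⟩
        rw [← sum_filter, filter_filter]
        simp only [rep_eq_iff]
        refine le_trans (sum_le_sum (g := fun y => 2 * |vel i p y|) fun y _ => ?_) ?_
        · refine (le_abs_self _).trans ?_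
          rw [abs_mul]
          exact mul_le_mul_of_nonneg_right (abs_vel_le i p x) (abs_nonneg _)
        · rw [← mul_sum]; linarith
      · rw [← mul_sum]; nlinarith)
  refine h1.trans (le_of_eq ?_)
  congr 1
  field_simp

lemma flip_close {s : Fin 3 → ℝ} {δ : ℝ} {K m l : ℕ} {ω : Om × (V → Bool)} (hp : Til ω.1)
    (h : Good s δ K m l ω.1) (hm : 0 < m) (hml : (m : ℝ) ≤ δ * l)
    (hsv : ∀ z ∈ box (K + 1), ∀ i, |sv l z i ω| ≤ δ * (l : ℝ) ^ 3) :
    Close s (76 * δ) K l (fl ω).1 ∧ Close s (76 * δ) K l (fl ω).2 := by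
  have key : ∀ z ∈ box (K + 1), ∀ i,
      |∑ x ∈ cell l z with (Ev x ∧ x ∈ FF ω), dv i ω.1 x| ≤ 75 * δ * (l : ℝ) ^ 3 := by
    intro z hz i
    have e1 := (h.err hz i).1
    have e2 : (m : ℝ) * (l : ℝ) ^ 2 ≤ δ * (l : ℝ) ^ 3 :=
      (mul_le_mul_of_nonneg_right hml (by positivity)).trans (le_of_eq (by ring))
    have a1 := sumd i hp (FF ω) ∅ hm (fun k _ x _ _ hx => FF_cm ω (cm_tm_iter _ x k) hx) l z
    have a2 := sumd i hp Set.univ ∅ hm (fun _ _ _ _ _ _ => trivial) l z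
    simp only [Set.mem_univ, and_true, card_empty, Nat.cast_zero, zero_add] at a1 a2
    rw [dev_sub s hp] at a2
    have a3 : ∑ x ∈ cell l z with (Ev x ∧ x ∈ FF ω), vel i ω.1 x =
        (∑ x ∈ cell l z with Ev x, vel i ω.1 x + sv l z i ω) / 2 := by
      rw [sv, ← sum_add_distrib, sum_div, ← filter_filter, sum_filter (p := fun x => x ∈ FF ω)]
      refine sum_congr rfl fun x hx => ?_
      by_cases hi : Inf ω.1 x
      · cases hc : ω.2 (rep ω.1 x) <;> simp [FF, FS, hi, hc, sg]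
      · simp [vel_eq_zero i hp (mem_filter.1 hx).2 hi]
    have b1 := abs_le.1 (h.1 z hz i)
    have b2 := abs_le.1 (h.2.1 z hz i)
    have b3 := abs_le.1 (hsv z hz i)
    rw [a3] at a1
    rw [abs_le] at a1 a2 ⊢
    constructor <;> linarith [a1.1, a1.2, a2.1, a2.2]
  constructor
  · intro z hz i
    rw [fl, (dev_flp s hp _ i _).1]
    refine (abs_sub _ _).trans ?_
    linarith [h.1 z hz i, key z hz i]
  · intro z hz i
    rw [fl, (dev_flp s hp _ i _).2]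
    refine (abs_add_le _ _).trans ?_
    linarith [h.2.1 z hz i, key z hz i]

lemma Good.mono {s : Fin 3 → ℝ} {δ δ' : ℝ} {K m l : ℕ} {p : Om} (h : Good s δ K m l p)
    (hd : δ ≤ δ') : Good s δ' K m l p :=
  ⟨h.1.mono hd, h.2.1.mono hd, h.2.2.trans (mul_le_mul_of_nonneg_right hd (by positivity))⟩

lemma flip_prob {s : Fin 3 → ℝ} {μ₁ μ₂ : Measure Cfg} (h₁ : IsEGM s μ₁) (h₂ : IsEGM s μ₂)
    {δ η : ℝ} (hδ : 0 < δ) (hη : 0 < η) (K l0 : ℕ) :
    ∃ l : ℕ, l0 ≤ l ∧ ((μ₁.prod μ₂).prod coins) {ω | ¬ (Til ω.1 ∧ Close s δ K l ω.1.1 ∧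
      Close s δ K l ω.1.2 ∧ Close s δ K l (fl ω).1 ∧ Close s δ K l (fl ω).2)} ≤
      ENNReal.ofReal η := by
  have := h₁.prob
  have := h₂.prob
  set t := δ / 76 with ht
  have ht0 : 0 < t := by positivity
  set c : ℝ := #(box (K + 1)) * 3 with hc
  have hc0 : 0 < c := by rw [hc, card_box]; positivity
  set δ' := min t (η / 2 * t ^ 2 / (4 * c)) with hδ'
  have hδ0 : 0 < δ' := lt_min ht0 (by positivity)
  obtain ⟨m, l, hm, hl, hml, hP⟩ := good_prob h₁ h₂ hδ0 (half_pos hη) K (max l0 1)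
  refine ⟨l, (le_max_left _ _).trans hl, ?_⟩
  have hl0 : 0 < l := (le_max_right _ _).trans hl
  set B := toMeasurable (μ₁.prod μ₂) {p | ¬ (Til p ∧ Good s δ' K m l p)} with hB
  have hBm : MeasurableSet B := measurableSet_toMeasurable _ _
  have hBP : (μ₁.prod μ₂) B ≤ ENNReal.ofReal (η / 2) := by
    rw [hB, measure_toMeasurable]
    refine le_trans (measure_mono_ae ?_) hP
    filter_upwards [prod_til h₁ h₂] with p hp h1 h2 using h1 ⟨hp, h2⟩
  let T : V → Fin 3 → Set (Om × (V → Bool)) := fun z i =>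
    {ω | t * (l : ℝ) ^ 3 < |sv l z i ω|} ∩ Prod.fst ⁻¹' Bᶜ
  have hT : ∀ z ∈ box (K + 1), ∀ i, ((μ₁.prod μ₂).prod coins) (T z i) ≤
      ENNReal.ofReal (η / 2 / c) := by
    intro z hz i
    have hm' : MeasurableSet (T z i) :=
      (measurableSet_lt measurable_const (measurable_sv l z i).abs).inter (measurable_fst hBm.compl)
    rw [Measure.prod_apply hm']
    refine (lintegral_mono (g := fun _ => ENNReal.ofReal (η / 2 / c)) fun p => ?_).trans (by simp)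
    by_cases hpB : p ∈ B
    · have : Prod.mk p ⁻¹' T z i = ∅ := Set.eq_empty_of_forall_notMem fun ξ hξ => hξ.2 hpB
      simp [this]
    · have hg : Til p ∧ Good s δ' K m l p := by
        by_contra hn
        exact hpB (subset_toMeasurable _ _ hn)
      refine le_trans (measure_mono fun ξ hξ => hξ.1)
        ((sv_cheb hg.1 hg.2 hl0 ht0 hz i).trans (ENNReal.ofReal_le_ofReal ?_))
      rw [div_le_iff₀ (by positivity)]
      have : δ' ≤ η / 2 * t ^ 2 / (4 * c) := min_le_right _ _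
      rw [le_div_iff₀ (by positivity)] at this
      rw [div_mul_eq_mul_div, le_div_iff₀ hc0]
      linarith
  have hs : {ω : Om × (V → Bool) | ¬ (Til ω.1 ∧ Close s δ K l ω.1.1 ∧
      Close s δ K l ω.1.2 ∧ Close s δ K l (fl ω).1 ∧ Close s δ K l (fl ω).2)} ⊆
      Prod.fst ⁻¹' B ∪ ⋃ z ∈ box (K + 1), ⋃ i ∈ (univ : Finset (Fin 3)), T z i := by
    intro ω hω
    by_contra hn
    simp only [Set.mem_union, Set.mem_preimage, Set.mem_iUnion, not_or, not_exists] at hn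
    have hg : Til ω.1 ∧ Good s δ' K m l ω.1 := by
      by_contra h
      exact hn.1 (subset_toMeasurable _ _ h)
    have hd : δ' ≤ t := min_le_left _ _
    have hg' := hg.2.mono hd
    have := flip_close hg.1 hg' hm (hml.trans (mul_le_mul_of_nonneg_right hd (by positivity)))
      fun z hz i => not_lt.1 fun h => hn.2 z hz i (mem_univ _) ⟨h, hn.1⟩
    have e : 76 * t = δ := by rw [ht]; ring
    rw [e] at this
    have hd2 : t ≤ δ := by linarith
    exact hω ⟨hg.1, hg'.1.mono hd2, hg'.2.1.mono hd2, this⟩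
  refine (measure_mono hs).trans ((measure_union_le _ _).trans ?_)
  have c1 := ((measurePreserving_fst (μ := μ₁.prod μ₂) (ν := coins)).measure_preimage_le _).trans
    hBP
  have c2 : ((μ₁.prod μ₂).prod coins) (⋃ z ∈ box (K + 1), ⋃ i ∈ (univ : Finset (Fin 3)), T z i) ≤
      ENNReal.ofReal (η / 2) := by
    refine (measure_biUnion_finset_le _ _).trans ((sum_le_sum fun z hz =>
      (measure_biUnion_finset_le _ _).trans (sum_le_sum fun i _ => hT z hz i)).trans (le_of_eq ?_))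
    rw [sum_const, sum_const, card_univ, Fintype.card_fin, smul_smul, nsmul_eq_mul,
      ← ENNReal.ofReal_natCast, ← ENNReal.ofReal_mul (by positivity)]
    congr 1
    push_cast
    rw [← hc]
    field_simp
  refine (add_le_add c1 c2).trans (le_of_eq ?_)
  rw [← ENNReal.ofReal_add (half_pos hη).le (half_pos hη).le, add_halves]

lemma ae_good {s : Fin 3 → ℝ} {μ₁ μ₂ : Measure Cfg} (h₁ : IsEGM s μ₁) (h₂ : IsEGM s μ₂) :
    ∀ᵐ p ∂(μ₁.prod μ₂), ∀ δ : ℝ, 0 < δ → ∀ K l0 : ℕ, ∃ m l : ℕ, 0 < m ∧ l0 ≤ l ∧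
      (m : ℝ) ≤ δ * l ∧ Good s δ K m l p := by
  have : ∀ᵐ p ∂(μ₁.prod μ₂), ∀ n K l0 : ℕ, ∃ m l : ℕ, 0 < m ∧ l0 ≤ l ∧
      (m : ℝ) ≤ 1 / ((n : ℝ) + 1) * l ∧ Good s (1 / ((n : ℝ) + 1)) K m l p := by
    simp only [ae_all_iff]
    intro n K l0
    rw [ae_iff]
    refine le_antisymm (ENNReal.le_of_forall_pos_le_add fun ε hε _ => ?_) zero_le
    obtain ⟨m, l, a, b, c, d⟩ := good_prob h₁ h₂ (δ := 1 / ((n : ℝ) + 1)) (η := ε)
      (by positivity) hε K l0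
    rw [zero_add, ← ENNReal.ofReal_coe_nnreal]
    exact le_trans (measure_mono fun p hp hg => hp ⟨m, l, a, b, c, hg⟩) d
  filter_upwards [this] with p hp δ hδ K l0
  obtain ⟨n, hn⟩ := exists_nat_one_div_lt hδ
  obtain ⟨m, l, a, b, c, d⟩ := hp n K l0
  exact ⟨m, l, a, b, c.trans (mul_le_mul_of_nonneg_right hn.le (by positivity)), d.mono hn.le⟩

lemma bray_even {p : Om} (hp : Til p) {x y : V} (hx : Ev x) (hy : Ev y) (h : y ∈ bray p x) :
    ∃ j : ℕ, y = (Tm p.swap)^[j] x := by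
  obtain ⟨k, rfl⟩ := h
  simp only at hy ⊢
  rw [← prm_coe hp.swap] at hy ⊢
  obtain ⟨j, rfl | rfl⟩ := Nat.even_or_odd' k
  · exact ⟨j, (tm_iter _ j x).symm⟩
  · exfalso
    rw [Function.iterate_succ_apply', ← tm_iter, prm_coe hp.swap, (stp_adj hp.swap _).ev,
      ev_iter tm_ev] at hy
    exact hy hx

lemma bray_step {p : Om} (hp : Til p) {x0 : V} (h0 : Ev x0) {m k : ℕ} (hk : k < m) {x : V}
    (hx : Ev x) (hE : x ∉ (range m).image fun j => (Tm p.swap)^[j] x0) (h : x ∈ bray p x0) :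
    (Tm p)^[k] x ∈ bray p x0 := by
  obtain ⟨j, rfl⟩ := bray_even hp h0 hx h
  have hj : m ≤ j := not_lt.1 fun h => hE (mem_image.2 ⟨j, mem_range.2 h, rfl⟩)
  obtain ⟨c, rfl⟩ := Nat.exists_eq_add_of_le (hk.le.trans hj)
  rw [Function.iterate_add_apply, Function.LeftInverse.iterate (tm_tm_swap p) k]
  exact ⟨2 * c, by simp only; rw [← prm_coe hp.swap, tm_iter]⟩

lemma exists_box (x : V) : ∃ r : ℕ, x ∈ box r := by
  refine ⟨∑ i, (x i).natAbs, mem_box.2 fun i => ?_⟩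
  have := single_le_sum (f := fun i => (x i).natAbs) (fun _ _ => Nat.zero_le _) (mem_univ i)
  rw [← Int.natCast_natAbs]
  exact_mod_cast this

lemma ray_small {p : Om} (hp : Til p) {x : V} (hx : Ev x) (hc : Conv p x) {δ : ℝ} (hδ : 0 < δ)
    (K : ℕ) : ∀ᶠ l : ℕ in atTop, ∀ i, ∀ z ∈ box (K + 1),
      ∑ y ∈ cell l z with (Ev y ∧ y ∈ bray p x), |vel i p y| ≤ δ * (l : ℝ) ^ 3 := by
  rw [eventually_all]
  intro i
  obtain ⟨C, hC⟩ := Nl_le i hp hx hc
  obtain ⟨r, hr⟩ := exists_box x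
  filter_upwards [(tendsto_lin_cube (2 * C * (K + 2 + r + 1))).eventually (ge_mem_nhds hδ),
    eventually_gt_atTop 0] with l hl hl0 z hz
  have hl' : (0 : ℝ) < l := by exact_mod_cast hl0
  rw [div_le_iff₀ (by positivity)] at hl
  have h1 := sum_vel_cm i hp hx (cell l z) ((K + 2) * l + r) fun y hy => by
    have a := mem_box.1 (cell_subset hz hy)
    have b := mem_box.1 hr
    refine mem_box.2 fun j => ?_
    have a' := abs_le.1 (a j)
    have b' := abs_le.1 (b j)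
    simp only [Pi.sub_apply]
    push_cast at a' ⊢
    exact abs_le.2 ⟨by linarith, by linarith⟩
  refine (sum_le_sum_of_subset_of_nonneg (fun y hy => ?_) fun _ _ _ => abs_nonneg _).trans
    (h1.trans ?_)
  · rw [mem_filter] at hy ⊢
    obtain ⟨j, e⟩ := bray_even hp hx hy.2.1 hy.2.2
    exact ⟨hy.1, hy.2.1, e ▸ (cm_swap p _ _).1 (cm_tm_iter p.swap x j)⟩
  · have h2 := hC ((K + 2) * l + r)
    push_cast at h2
    refine le_trans ?_ hl
    have : ((K : ℝ) + 2) * l + r + 1 ≤ (K + 2 + r + 1) * (l + 1) := by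
      have : (0 : ℝ) ≤ r := Nat.cast_nonneg r
      have : (0 : ℝ) ≤ K := Nat.cast_nonneg K
      nlinarith
    have hC0 : (0 : ℝ) ≤ C := Nat.cast_nonneg C
    nlinarith

lemma ray_close {s : Fin 3 → ℝ} {p : Om} (hp : Til p) {x1 x2 : V} (e1 : Ev x1) (e2 : Ev x2)
    (c1 : Conv p x1) (c2 : Conv p x2)
    (hg : ∀ δ : ℝ, 0 < δ → ∀ K l0 : ℕ, ∃ m l : ℕ, 0 < m ∧ l0 ≤ l ∧
      (m : ℝ) ≤ δ * l ∧ Good s δ K m l p) (δ : ℝ) (hδ : 0 < δ) (K l0 : ℕ) :
    ∃ l, l0 ≤ l ∧ Close s δ K l (flp (bray p x1 ∪ bray p x2) p).1 ∧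
      Close s δ K l (flp (bray p x1 ∪ bray p x2) p).2 := by
  generalize hA : bray p x1 ∪ bray p x2 = A
  have hA' : ∀ x, x ∈ A ↔ x ∈ bray p x1 ∨ x ∈ bray p x2 := fun x => by rw [← hA]; rfl
  set t := δ / 60 with ht
  have ht0 : 0 < t := by positivity
  obtain ⟨l1, hl1⟩ := eventually_atTop.1 ((ray_small hp e1 c1 ht0 K).and
    ((ray_small hp e2 c2 ht0 K).and (eventually_ge_atTop 1)))
  obtain ⟨m, l, hm, hl, hml, h⟩ := hg t ht0 K (max l0 l1)
  obtain ⟨r1, r2, hl2⟩ := hl1 l ((le_max_right _ _).trans hl)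
  refine ⟨l, (le_max_left _ _).trans hl, ?_⟩
  have hl3 : (1 : ℝ) ≤ l := by exact_mod_cast hl2
  have key : ∀ z ∈ box (K + 1), ∀ i,
      |∑ x ∈ cell l z with (Ev x ∧ x ∈ A), dv i p x| ≤
        59 * t * (l : ℝ) ^ 3 := by
    intro z hz i
    have a0 := (h.err hz i).1
    have a1 := sumd i hp A
      (((range m).image fun j => (Tm p.swap)^[j] x1) ∪ (range m).image fun j => (Tm p.swap)^[j] x2)
      hm (fun k hk x hx hE hA => by
        rw [mem_union, not_or] at hE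
        rw [hA'] at hA ⊢
        exact hA.imp (bray_step hp e1 hk hx hE.1) (bray_step hp e2 hk hx hE.2)) l z
    have a2 : (#(((range m).image fun j => (Tm p.swap)^[j] x1) ∪
        (range m).image fun j => (Tm p.swap)^[j] x2) : ℝ) ≤ m + m := by
      exact_mod_cast (card_union_le _ _).trans (add_le_add (card_image_le.trans (card_range _).le)
        (card_image_le.trans (card_range _).le))
    have a3 : |∑ x ∈ cell l z with (Ev x ∧ x ∈ A), vel i p x| ≤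
        t * (l : ℝ) ^ 3 + t * (l : ℝ) ^ 3 := by
      refine (abs_sum_le_sum_abs _ _).trans (le_trans ?_ (add_le_add (r1 i z hz) (r2 i z hz)))
      rw [sum_filter, sum_filter, sum_filter, ← sum_add_distrib]
      refine sum_le_sum fun x _ => ?_
      have := abs_nonneg (vel i p x)
      by_cases b0 : Ev x <;> by_cases b1 : x ∈ bray p x1 <;> by_cases b2 : x ∈ bray p x2 <;>
        simp [hA', b0, b1, b2]
    have e2 : (m : ℝ) * (l : ℝ) ^ 2 ≤ t * (l : ℝ) ^ 3 :=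
      (mul_le_mul_of_nonneg_right hml (by positivity)).trans (le_of_eq (by ring))
    have e3 : (m : ℝ) ≤ (m : ℝ) * (l : ℝ) ^ 2 :=
      le_mul_of_one_le_right (by positivity) (one_le_pow₀ hl3)
    rw [abs_le] at a1 a3 ⊢
    constructor <;> linarith [a1.1, a1.2, a3.1, a3.2]
  have e : δ = 60 * t := by rw [ht]; ring
  constructor
  · intro z hz i
    rw [(dev_flp s hp _ i _).1, e]
    refine (abs_sub _ _).trans ?_
    linarith [h.1 z hz i, key z hz i]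
  · intro z hz i
    rw [(dev_flp s hp _ i _).2, e]
    refine (abs_add_le _ _).trans ?_
    linarith [h.2.1 z hz i, key z hz i]

end Pool.Agent.Lib.MP_640444_pr
end

-- part Pool.Agent.Lib.MP_640444_pr.Endgame
section

/-!
The deterministic endgame.
-/

set_option autoImplicit false
open MeasureTheory Filter Topology Finset
open scoped Classical

namespace Pool.Agent.Lib.MP_640444_pr

theorem endgame (s : Fin 3 → ℝ) (hs : (∑ i, |s i|) < 1) (D : Finset (V × V)) (w : V) (p : Om)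
    (hp : Til p) (hU : ∀ p', Til p' → Unor p p' → Pure D w p') (x1 x2 : V) (e1 : Ev x1)
    (e2 : Ev x2) (i1 : Function.Injective fun k : ℕ => (stp p)^[k] x1)
    (i2 : Function.Injective fun k : ℕ => (stp p)^[k] x2)
    (h12 : ∀ k : ℕ, (stp p)^[k] x1 ≠ x2 ∧ (stp p)^[k] x2 ≠ x1)
    (hC : ∀ δ : ℝ, 0 < δ → ∀ K l0 : ℕ, ∃ l, l0 ≤ l ∧
      Close s δ K l (flp (bray p x1 ∪ bray p x2) p).1 ∧
      Close s δ K l (flp (bray p x1 ∪ bray p x2) p).2) :
    OutLab D w p x1 0 :=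
  EG.endgame_of s (patch s hs 2 le_rfl) D w p hp hU x1 x2 e1 e2 i1 i2 h12 hC

end Pool.Agent.Lib.MP_640444_pr
end

-- part Pool.Agent.Lib.MP_640444_pr.Main
section

/-!
Assembly: two ergodic Gibbs measures with the same interior current whose double dimer model
almost surely does not have exactly one infinite path are equal.
-/

set_option autoImplicit false
open MeasureTheory Filter Finset
open scoped Classical Topology

namespace Pool.Agent.Lib.MP_640444_pr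

variable {s : Fin 3 → ℝ} {μ₁ μ₂ : Measure Cfg}

lemma patchable_of {r L : ℕ} {a a' : Cfg} (ha' : IsTiling a')
    (h : ∃ σ, NT σ ∧ (∀ x ∈ box r, σ x = a' x) ∧ (∀ x, x ∉ box L → σ x = a x) ∧
      ∀ x, x ∉ box r → σ x ≠ x) : Patchable r L a a' := by
  obtain ⟨σ, h1, h2, h3, h4⟩ := h
  refine ⟨σ, fun x => ⟨(h1 x).2.resolve_left ?_, (h1 x).1⟩, h2, h3⟩
  by_cases hx : x ∈ box r
  · rw [h2 x hx]; exact (ha' x).1.ne
  · exact h4 x hx

lemma swpInv_fl (hs : (∑ i, |s i|) < 1) (h₁ : IsEGM s μ₁) (h₂ : IsEGM s μ₂) :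
    SwpInv (((μ₁.prod μ₂).prod coins).map fl) := by
  have := h₁.prob
  have := h₂.prob
  have hm : EvInv (μ₁.prod μ₂) := fun v hv => prod_mp h₁ h₂ hv
  have hf := measurePreserving_fst (μ := μ₁.prod μ₂) (ν := coins)
  intro Λ S hΛ y y' hy hS
  rw [Measure.map_apply measurable_fl (mset_cyl _ _), Measure.map_apply measurable_fl (mset_cyl _ _)]
  refine swap_of_entropy ((μ₁.prod μ₂).prod coins) Prod.fst FF measurable_fst mset_FF ?_ ?_ ?_ ?_
    Λ S hΛ y y' hy hS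
  · filter_upwards [hf.quasiMeasurePreserving.ae (prod_til h₁ h₂)] with ω hω
    exact ⟨hω, invar_FF hω, noFin_FF hω⟩
  · intro Λ y y' h
    rw [hf.measure_preimage (mset_cyl _ _).nullMeasurableSet,
      hf.measure_preimage (mset_cyl _ _).nullMeasurableSet, prod_gibbs h₁ h₂ Λ y y' h]
  · intro v hv S y
    have := (fl_evInv hm v hv).measure_preimage
      (mset_cyl (S.image (· + v)) (shift2 v y)).nullMeasurableSet
    rw [cyl_shift, Measure.map_apply measurable_fl (mset_cyl _ _),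
      Measure.map_apply measurable_fl (mset_cyl _ _)] at this
    exact this
  · intro ε hε L0
    obtain ⟨N0, hN0⟩ := exists_nat_ge (2 / ε)
    set N := N0 + 2 with hN
    obtain ⟨δ, hδ, K, l0, hK, hpatch⟩ := patch s hs N (by omega)
    obtain ⟨l, hl, hP⟩ := flip_prob h₁ h₂ hδ hε K (l0 + L0 + N)
    have hL : l ≤ K * l := Nat.le_mul_of_pos_left l hK
    have hr : N * ((N - 1) * (K * l) / N) ≤ (N - 1) * (K * l) := Nat.mul_div_le _ _
    have hr2 : (N - 1) * (K * l) < N * ((N - 1) * (K * l) / N + 1) :=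
      Nat.lt_mul_div_succ _ (by omega)
    set r := (N - 1) * (K * l) / N
    have e1 : N - 1 = N0 + 1 := by omega
    refine ⟨r, K * l, by omega, ?_, ?_, le_trans (measure_mono ?_) hP⟩
    · rw [e1, hN] at hr
      have : 0 < K * l := by omega
      nlinarith
    · rw [e1, hN] at hr2
      have h1 : ((N0 : ℝ) + 1) * (K * l : ℕ) < ((N0 : ℝ) + 2) * (r + 1) := by exact_mod_cast hr2
      have h2 : (N0 : ℝ) + 2 ≤ (K * l : ℕ) := by exact_mod_cast (by omega : N0 + 2 ≤ K * l)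
      rw [div_le_iff₀ hε] at hN0
      generalize ((K * l : ℕ) : ℝ) = L at h1 h2
      have h3 : (0 : ℝ) ≤ N0 := Nat.cast_nonneg N0
      have h4 : ((N0 : ℝ) + 2) * (L - r) ≤ ((N0 : ℝ) + 2) * (ε * L) := by nlinarith
      exact le_of_mul_le_mul_left h4 (by linarith)
    · intro ω hω hc
      apply hω
      obtain ⟨ht, c1, c2, c3, c4⟩ := hc
      have ht' : Til (fl ω) := til_flp ht (invar_FF ht)
      have z : ∀ {a : Cfg}, IsTiling a → ∑ x ∈ box r with a x = x, sgn x = 0 := fun ha =>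
        sum_eq_zero fun x hx => absurd (mem_filter.1 hx).2 (ha x).1.ne
      exact ⟨patchable_of ht'.1 (hpatch l (by omega) r _ _ ht.1.nt ht'.1.nt hr
          (fun x h => absurd h (ht.1 x).1.ne) (fun x h => absurd h (ht'.1 x).1.ne)
          ((z ht.1).trans (z ht'.1).symm) c1 (Or.inl c3)),
        patchable_of ht'.2 (hpatch l (by omega) r _ _ ht.2.nt ht'.2.nt hr
          (fun x h => absurd h (ht.2 x).1.ne) (fun x h => absurd h (ht'.2 x).1.ne)
          ((z ht.2).trans (z ht'.2).symm) c2 (Or.inl c4))⟩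

lemma fl_til (h₁ : IsEGM s μ₁) (h₂ : IsEGM s μ₂) :
    ∀ᵐ p ∂(((μ₁.prod μ₂).prod coins).map fl), Til p := by
  have := h₁.prob
  have := h₂.prob
  have hf := measurePreserving_fst (μ := μ₁.prod μ₂) (ν := coins)
  rw [ae_map_iff measurable_fl.aemeasurable mset_til]
  filter_upwards [hf.quasiMeasurePreserving.ae (prod_til h₁ h₂)] with ω hω
  exact til_flp hω (invar_FF hω)

lemma ae_unor (hs : (∑ i, |s i|) < 1) (h₁ : IsEGM s μ₁) (h₂ : IsEGM s μ₂) (D : Finset (V × V))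
    (w : V) : ∀ᵐ p ∂(μ₁.prod μ₂), ∀ p', Til p' → Unor p p' → Pure D w p' := by
  have := h₁.prob
  have := h₂.prob
  have hm : EvInv (μ₁.prod μ₂) := fun v hv => prod_mp h₁ h₂ hv
  have hf := measurePreserving_fst (μ := μ₁.prod μ₂) (ν := coins)
  have hT := prod_til h₁ h₂
  have h0 : (((μ₁.prod μ₂).prod coins).map fl) {p : Om | Til p ∧ Pure D w p}ᶜ = 0 := by
    refine (ae_map_iff measurable_fl.aemeasurable (mset_pure D w)).2 ?_
    filter_upwards [hf.quasiMeasurePreserving.ae hT,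
      hf.quasiMeasurePreserving.ae (ae_pure D w hm hT)] with ω hω hp
    exact ⟨til_flp hω (invar_FF hω), pure_flp D w hω (invar_FF hω) hp⟩
  have h1 := ae_of_ae_map measurable_fl.aemeasurable
    (ae_finMod (swpInv_fl hs h₁ h₂) (mset_pure D w).compl h0)
  filter_upwards [hT, Measure.ae_ae_of_ae_prod h1] with p hp h
  refine pure_of_unor hp ?_
  filter_upwards [h] with ξ hξ p' hp' hfm
  exact (not_not.1 (hξ (til_flp hp (invar_FF (ω := (p, ξ)) hp)) p' hp' hfm)).2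

lemma ae_label (hs : (∑ i, |s i|) < 1) (h₁ : IsEGM s μ₁) (h₂ : IsEGM s μ₂)
    (hN : ∀ᵐ p ∂(μ₁.prod μ₂), ¬ ∃! C : (diffGraph p.1 p.2).ConnectedComponent, C.supp.Infinite)
    (D : Finset (V × V)) (w : V) :
    ∀ᵐ p ∂(μ₁.prod μ₂), Inf p 0 → OutLab D w p 0 0 := by
  have := h₁.prob
  have := h₂.prob
  have hm : EvInv (μ₁.prod μ₂) := fun v hv => prod_mp h₁ h₂ hv
  filter_upwards [prod_til h₁ h₂, hN, ae_unor hs h₁ h₂ D w, ae_conv hm, ae_good h₁ h₂]
    with p hp hn hU hc hg hi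
  obtain ⟨y, e2, i2, hy⟩ := exists_other hp hn hi
  refine endgame s hs D w p hp hU 0 y ev_zero e2 (by rw [← prm_coe hp]; exact hi)
    (by rw [← prm_coe hp]; exact i2) (fun k => ?_)
    (ray_close hp ev_zero e2 (hc 0 ev_zero) (hc y e2) hg)
  rw [← prm_coe hp]
  exact ⟨fun e => hy ((cm_iff p _ _).2 ⟨k, Or.inl e⟩), fun e => hy ((cm_iff p _ _).2 ⟨k, Or.inr e⟩)⟩

lemma inf_symm {m : Measure Om} [IsProbabilityMeasure m] (hm : EvInv m) (hT : ∀ᵐ p ∂m, Til p)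
    (D : Finset (V × V)) (w : V) (h : ∀ᵐ p ∂m, Inf p 0 → OutLab D w p 0 0) :
    m ({p | gv D w p 0 = 1} ∩ {p | Inf p 0}) = m ({p | gv D w p 0 = -1} ∩ {p | Inf p 0}) := by
  let H : Om → V → ℝ := fun p x => if Inf p x then gv D w p x else 0
  have hH : ∀ v, Ev v → ∀ p x, H (shift2 v p) (x + v) = H p x := fun v hv p x => by
    simp only [H, inf_shift hv, gv_shift D w v hv]
  have hM : Measurable fun p => H p 0 :=
    Measurable.ite (mset_inf 0) (measurable_gv D w 0) measurable_const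
  have hC : ∀ p, |H p 0| ≤ 1 := fun p => by
    simp only [H]; split_ifs
    · exact abs_gv_le D w p 0
    · simp
  have h0 := integral_eq_zero_of_upper (th_mp hm) hM hC (by
    filter_upwards [hT, h] with p hp hl
    have e := upper_site hH p ev_zero
    rw [neg_zero, shift2_zero] at e
    rw [e]
    by_cases hi : Inf p 0
    · have := (outLab_even hp ev_zero 0).1 (hl hi)
      refine Tendsto.limsup_eq (this.congr fun n => ?_)
      simp only [Pool.Agent.Shared.Ergodic.avg, H, fun k => hi.cm (cm_tm_iter p 0 k), if_true]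
    · have e2 : ∀ k, ¬ Inf p ((Tm p)^[k] 0) := fun k h => hi (h.cm (cm_tm_iter p 0 k).symm)
      refine Tendsto.limsup_eq (tendsto_const_nhds.congr fun n => ?_)
      simp [Pool.Agent.Shared.Ergodic.avg, H, e2])
  have ms : ∀ c : ℝ, MeasurableSet ({p | gv D w p 0 = c} ∩ {p | Inf p 0}) := fun c =>
    (measurable_gv D w 0 (measurableSet_singleton c)).inter (mset_inf 0)
  have e : (fun p => H p 0) = fun p =>
      Set.indicator ({p | gv D w p 0 = 1} ∩ {p | Inf p 0}) (1 : Om → ℝ) p -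
        Set.indicator ({p | gv D w p 0 = -1} ∩ {p | Inf p 0}) (1 : Om → ℝ) p := by
    funext p
    have : gv D w p 0 = 1 ∨ gv D w p 0 = 0 ∨ gv D w p 0 = -1 := by
      unfold gv; split_ifs <;> simp
    by_cases hi : Inf p 0
    · rcases this with a | a | a <;> simp [H, hi, a, Set.indicator_apply] <;> norm_num
    · simp [H, hi]
  rw [e, integral_sub ((integrable_const 1).indicator (ms _)) ((integrable_const 1).indicator (ms _)),
    integral_indicator_one (ms _), integral_indicator_one (ms _), sub_eq_zero] at h0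
  exact (ENNReal.toReal_eq_toReal_iff' (measure_ne_top _ _) (measure_ne_top _ _)).1 h0

lemma fin_symm (hs : (∑ i, |s i|) < 1) (h₁ : IsEGM s μ₁) (h₂ : IsEGM s μ₂) (D : Finset (V × V))
    (w : V) : (μ₁.prod μ₂) ({p | gv D w p 0 = 1} \ {p | Inf p 0}) =
      (μ₁.prod μ₂) ({p | gv D w p 0 = -1} \ {p | Inf p 0}) := by
  have := h₁.prob
  have := h₂.prob
  have hf := measurePreserving_fst (μ := μ₁.prod μ₂) (ν := coins)
  have h := loops_symm (swpInv_fl hs h₁ h₂) (fl_til h₁ h₂) D w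
  have e : ∀ c : ℝ, (((μ₁.prod μ₂).prod coins).map fl) ({p | gv D w p 0 = c} ∩ ⋃ Λ, Loop Λ) =
      (μ₁.prod μ₂) ({p | gv D w p 0 = c} \ {p | Inf p 0}) := by
    intro c
    have ms : MeasurableSet {p | gv D w p 0 = c} := measurable_gv D w 0 (measurableSet_singleton c)
    rw [Measure.map_apply measurable_fl (ms.inter (MeasurableSet.iUnion mset_loop)),
      ← hf.measure_preimage (ms.diff (mset_inf 0)).nullMeasurableSet]
    refine measure_congr ?_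
    filter_upwards [hf.quasiMeasurePreserving.ae (prod_til h₁ h₂)] with ω hω
    refine propext ?_
    change (gv D w (fl ω) 0 = c ∧ fl ω ∈ ⋃ Λ, Loop Λ) ↔ (gv D w ω.1 0 = c ∧ ¬ Inf ω.1 0)
    simp only [Set.mem_iUnion, fl, loop_flp, mem_loop_iff hω]
    refine and_congr_left fun hi => ?_
    rw [gv_flp, if_neg fun h : (0 : V) ∈ FF ω => hi h.1]
  rwa [e, e] at h

/-- cylinder given by a finite set of prescribed partners -/
def cD (D : Finset (V × V)) : Set Cfg := {σ | ∀ uw ∈ D, σ uw.1 = uw.2}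

lemma mset_cD (D : Finset (V × V)) : MeasurableSet (cD D) := by
  have : cD D = ⋂ uw ∈ D, {σ : Cfg | σ uw.1 = uw.2} := by ext σ; simp [cD]
  rw [this]
  exact MeasurableSet.biInter D.countable_toSet fun uw _ =>
    mset_eq (measurable_pi_apply _) measurable_const

section final

variable (hs : (∑ i, |s i|) < 1) (h₁ : IsEGM s μ₁) (h₂ : IsEGM s μ₂)
  (hN : ∀ᵐ p ∂(μ₁.prod μ₂), ¬ ∃! C : (diffGraph p.1 p.2).ConnectedComponent, C.supp.Infinite)
include hs h₁ h₂ hN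

lemma step_zero (D : Finset (V × V)) (w : V) (h : μ₁ (cD D) = μ₂ (cD D)) :
    μ₁ (cD D ∩ {σ | σ 0 = w}) = μ₂ (cD D ∩ {σ | σ 0 = w}) := by
  have := h₁.prob
  have := h₂.prob
  have hm : EvInv (μ₁.prod μ₂) := fun v hv => prod_mp h₁ h₂ hv
  have a1 := inf_symm hm (prod_til h₁ h₂) D w (ae_label hs h₁ h₂ hN D w)
  have a2 := fin_symm hs h₁ h₂ D w
  have a3 : (μ₁.prod μ₂) {p | gv D w p 0 = 1} = (μ₁.prod μ₂) {p | gv D w p 0 = -1} := by
    rw [← measure_inter_add_sdiff _ (mset_inf 0), a1, a2, measure_inter_add_sdiff _ (mset_inf 0)]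
  set e : Set Cfg := {σ | σ 0 = w} with he
  have me : MeasurableSet e := mset_eq (measurable_pi_apply _) measurable_const
  have hd : ∀ p : Om, dbl D p 0 ↔ p.1 ∈ cD D ∧ p.2 ∈ cD D := fun p => by
    simp only [dbl, cD, zero_add, Set.mem_ofPred_eq]
    exact ⟨fun h => ⟨fun x hx => (h x hx).1, fun x hx => (h x hx).2⟩,
      fun h x hx => ⟨h.1 x hx, h.2 x hx⟩⟩
  have b1 : {p : Om | gv D w p 0 = 1} = (cD D ∩ e) ×ˢ (cD D \ e) := by
    ext p
    simp only [gv, hd, ev_zero, true_and, zero_add, he, Set.mem_ofPred_eq, Set.mem_prod,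
      Set.mem_inter_iff, Set.mem_sdiff]
    split_ifs <;> simp_all
    norm_num
  have b2 : {p : Om | gv D w p 0 = -1} = (cD D \ e) ×ˢ (cD D ∩ e) := by
    ext p
    simp only [gv, hd, ev_zero, true_and, zero_add, he, Set.mem_ofPred_eq, Set.mem_prod,
      Set.mem_inter_iff, Set.mem_sdiff]
    split_ifs <;> simp_all
    norm_num
  rw [b1, b2, Measure.prod_prod, Measure.prod_prod] at a3
  have c1 := measure_inter_add_sdiff (μ := μ₁) (cD D) me
  have c2 := measure_inter_add_sdiff (μ := μ₂) (cD D) me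
  have c3 : μ₁ (cD D ∩ e) * μ₂ (cD D) = μ₂ (cD D ∩ e) * μ₂ (cD D) := by
    conv_lhs => rw [← c2, mul_add, a3]
    conv_rhs => rw [← h, ← c1]
    ring
  by_cases q : μ₂ (cD D) = 0
  · rw [measure_mono_null Set.inter_subset_left q,
      measure_mono_null Set.inter_subset_left (h.trans q)]
  · exact (ENNReal.mul_left_inj q (measure_ne_top _ _)).1 c3

lemma step_even (D : Finset (V × V)) {u : V} (hu : Ev u) (w : V) (h : μ₁ (cD D) = μ₂ (cD D)) :
    μ₁ (cD D ∩ {σ | σ u = w}) = μ₂ (cD D ∩ {σ | σ u = w}) := by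
  let D' := D.image fun uw => (uw.1 + -u, uw.2 + -u)
  have e1 : shift (-u) ⁻¹' cD D' = cD D := by
    ext σ
    simp only [cD, D', Set.mem_preimage, Set.mem_ofPred_eq, mem_image, forall_exists_index, and_imp,
      forall_apply_eq_imp_iff₂, shift_add_apply, add_left_inj]
  have e2 : shift (-u) ⁻¹' (cD D' ∩ {σ | σ 0 = w + -u}) = cD D ∩ {σ | σ u = w} := by
    rw [Set.preimage_inter, e1]
    congr 1
    ext σ
    simp [shift]
  have me : MeasurableSet (cD D' ∩ {σ | σ 0 = w + -u}) :=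
    (mset_cD _).inter (mset_eq (measurable_pi_apply _) measurable_const)
  have hv := ev_neg.2 hu
  rw [← e2, (h₁.mp hv).measure_preimage me.nullMeasurableSet,
    (h₂.mp hv).measure_preimage me.nullMeasurableSet]
  refine step_zero hs h₁ h₂ hN D' _ ?_
  rwa [← e1, (h₁.mp hv).measure_preimage (mset_cD _).nullMeasurableSet,
    (h₂.mp hv).measure_preimage (mset_cD _).nullMeasurableSet] at h

lemma cD_eq (D : Finset (V × V)) : μ₁ (cD D) = μ₂ (cD D) := by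
  have := h₁.prob
  have := h₂.prob
  induction D using Finset.induction_on with
  | empty => simp [cD]
  | insert uw D _ ih =>
    have e : cD (insert uw D) = cD D ∩ {σ | σ uw.1 = uw.2} := by
      ext σ; simp [cD, and_comm]
    rw [e]
    by_cases hu : Ev uw.1
    · exact step_even hs h₁ h₂ hN D hu _ ih
    · have key : ∀ μ : Measure Cfg, (∀ᵐ σ ∂μ, IsTiling σ) →
          μ (cD D ∩ {σ | σ uw.1 = uw.2}) = μ (cD D ∩ {σ | σ uw.2 = uw.1}) := by
        intro μ hμ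
        refine measure_congr ?_
        filter_upwards [hμ] with σ hσ
        refine propext (and_congr_right fun _ => ⟨fun h => ?_, fun h => ?_⟩)
        · have h' : σ uw.1 = uw.2 := h
          change σ uw.2 = uw.1
          rw [← h', (hσ _).2]
        · have h' : σ uw.2 = uw.1 := h
          change σ uw.1 = uw.2
          rw [← h', (hσ _).2]
      by_cases hw : Ev uw.2
      · rw [key μ₁ h₁.tiling, key μ₂ h₂.tiling]
        exact step_even hs h₁ h₂ hN D hw _ ih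
      · have z : ∀ μ : Measure Cfg, (∀ᵐ σ ∂μ, IsTiling σ) →
            μ (cD D ∩ {σ | σ uw.1 = uw.2}) = 0 := by
          intro μ hμ
          refine measure_mono_null ?_ (ae_iff.1 hμ)
          intro σ hσ ht
          apply hw
          have h' : σ uw.1 = uw.2 := hσ.2
          rw [← h']
          exact (IsTiling.ev ht _).2 hu
        rw [z μ₁ h₁.tiling, z μ₂ h₂.tiling]

theorem egm_eq : μ₁ = μ₂ := by
  have := h₁.prob
  refine ext_cylG _ _ fun S y => ?_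
  have e : cylG S y = cD (S.image fun x => (x, y x)) := by
    ext σ; simp [cylG, cD]
  rw [e]
  exact cD_eq hs h₁ h₂ hN _

end final

end Pool.Agent.Lib.MP_640444_pr
end

-- part Pool.Agent.Lib.MP_640444_pr.Defs2
section

/-!
Definitions for the proof of existence and uniqueness of ergodic Gibbs measures.
-/

set_option autoImplicit false
open MeasureTheory Filter Finset
open scoped Classical Topology ENNReal

namespace Pool.Agent.Lib.MP_640444_pr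

/-- at most one infinite component -/
def One (p : Om) : Prop := ∀ x y, Inf p x → Inf p y → Cm p x y
/-- exactly one infinite component -/
def N1 (p : Om) : Prop := Til p ∧ One p ∧ ∃ x, Inf p x
/-- excursions from `box r` back to `box r` stay in `box R` -/
def Exc (r R : ℕ) (p : Om) : Prop :=
  ∀ x ∈ box r, ∀ k : ℕ, (prm p)^[k] x ∈ box r → ∀ j ≤ k, (prm p)^[j] x ∈ box R
/-- order along a component -/
def Lt (p : Om) (x y : V) : Prop := ∃ k : ℕ, 0 < k ∧ (prm p)^[k] x = y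
/-- translated box -/
noncomputable def tb (z : V) (r : ℕ) : Finset V := (box r).image (· + z)
def Bef (R : ℕ) (x y : V) (p : Om) : Prop :=
  ∀ a ∈ tb x R, ∀ b ∈ tb y R, Inf p a → Inf p b → Lt p a b
/-- near `x`, then near the origin, then near `y` -/
def Btw (R : ℕ) (x y : V) (p : Om) : Prop := N1 p ∧ Bef R x 0 p ∧ Bef R 0 y p ∧ Bef R x y p
def e0 : V := Pi.single 0 1
/-- events unchanged by finite modifications -/
def Tail (A : Set Om) : Prop := ∀ p p', Til p → Til p' → FinMod p p' → p ∈ A → p' ∈ A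
def Loc1 (Λ : Finset V) (T : Set Cfg) : Prop := ∀ σ σ', σ' ∈ cylG Λ σ → σ ∈ T → σ' ∈ T
def Loc2 (Λ : Finset V) (E : Set Om) : Prop := ∀ p p', p' ∈ cyl Λ p → p ∈ E → p' ∈ E

/-- `q` comes from `p` by a recoverable surgery -/
def Rel (Λ B B0 : Finset V) (b : Bool) (p q : Om) : Prop :=
  (∀ x, x ∉ Λ → q.1 x = p.1 x ∧ q.2 x = p.2 x) ∧
  (∀ x, x ∉ B → (q.1 x = p.1 x ∧ q.2 x = p.2 x) ∨ (q.1 x = p.2 x ∧ q.2 x = p.1 x)) ∧
  q ∈ cyl B0 (if b then p.swap else p) ∧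
  ∀ G : Finset V, G ⊆ Λ → Disjoint G B → Disjoint G B0 → Cls p G → q ∈ cyl G p
/-- near tiling with exactly the holes `x`, `y` -/
def Hol (a : Cfg) (x y : V) : Prop := NT a ∧ ∀ v, a v = v ↔ v = x ∨ v = y
/-- existence of a hybrid with holes at standard places -/
def Hyb (L ρ M : ℕ) (z1 z2 : V) (p : Om) : Prop :=
  ∃ H : Om, Hol H.1 z1 (z2 + e0) ∧ Hol H.2 z2 (z1 + e0) ∧
    Rel (box M) (tb z1 L ∪ tb z2 L) (box ρ) true p H
/-- flips of rays keep the currents close to `s` -/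
def RayC (s : Fin 3 → ℝ) (δ : ℝ) (K l : ℕ) (p : Om) : Prop :=
  ∀ A : Set V, (∀ x ∈ A, ∀ y ∈ A, Cm p x y) →
    ((∀ x ∈ A, prm p x ∈ A) ∨ ∀ x ∈ A, (prm p)⁻¹ x ∈ A) →
    Close s δ K l (flp A p).1 ∧ Close s δ K l (flp A p).2
def GP (M M' : ℕ) (P : Om) : Prop := Til P ∧ One P ∧ Exc M M' P
def Out (t : Prop) (ρ : ℕ) (R s : Om) : Prop :=
  (∀ x ∈ box ρ, (s.1 x = R.1 x ∧ s.2 x = R.2 x) ∨ (s.1 x = R.2 x ∧ s.2 x = R.1 x)) ∧
    (t → s ∈ cyl (box ρ) R ∨ s ∈ cyl (box ρ) R.swap)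

/-- tilings equal to `τ` outside `Λ` -/
noncomputable def cls (Λ : Finset V) (τ : Cfg) : Finset Cfg :=
  ((Ent.Pat1 Λ).image fun y x => if x ∈ Λ then y x else τ x).filter IsTiling
noncomputable def cl2 (Λ : Finset V) (p : Om) : Finset Om := cls Λ p.1 ×ˢ cls Λ p.2
noncomputable def cl4 (Λ : Finset V) (ω : Om × Om) : Finset (Om × Om) := cl2 Λ ω.1 ×ˢ cl2 Λ ω.2
noncomputable def av {α : Type} (T : Finset α) (f : α → ℝ≥0∞) : ℝ≥0∞ := (∑ a ∈ T, f a) / T.card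
/-- the Gibbs specification -/
noncomputable def gam (Λ : Finset V) (f : Cfg → ℝ) (τ : Cfg) : ℝ :=
  (∑ σ ∈ cls Λ τ, f σ) / (cls Λ τ).card
def Gib1 (Λ : Finset V) (κ : Measure Cfg) : Prop :=
  ∀ f : Cfg → ℝ≥0∞, Measurable f → ∫⁻ τ, av (cls Λ τ) f ∂κ = ∫⁻ τ, f τ ∂κ
def Gib2 (Λ : Finset V) (Q : Measure Om) : Prop :=
  ∀ f : Om → ℝ≥0∞, Measurable f → ∫⁻ p, av (cl2 Λ p) f ∂Q = ∫⁻ p, f p ∂Q
noncomputable def ind (A : Set Cfg) (σ : Cfg) : ℝ := if σ ∈ A then 1 else 0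
/-- first marginal of the product measure on the event of at least two infinite components -/
noncomputable def kap (μ : Measure Cfg) : Measure Cfg :=
  ((μ.prod μ).restrict {p | ¬ One p}).map Prod.fst
/-- a sample and a resample in `Λ` -/
noncomputable def Rs (Λ : Finset V) (κ : Measure Cfg) : Measure Om :=
  κ.bind fun τ => ((cls Λ τ).card : ℝ≥0∞)⁻¹ • ∑ σ ∈ cls Λ τ, Measure.dirac (τ, σ)
/-- number of doubled translates of a pattern -/
noncomputable def St (S : Finset V) (y : Cfg) (l : ℕ) (p : Om) : ℕ :=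
  #{x ∈ cell l 0 | Ev x ∧ shift (-x) p.1 ∈ cylG S y ∧ shift (-x) p.2 ∈ cylG S y}
noncomputable def Ne (l : ℕ) : ℕ := #{x ∈ cell l 0 | Ev x}

/-- entropy of a weight function -/
noncomputable def ent {α : Type} (T : Finset α) (w : α → ℝ) : ℝ := ∑ a ∈ T, Real.negMulLog (w a)
/-- entropy of a random variable with values in `T` -/
noncomputable def Hv {X α : Type} [MeasurableSpace X] (P : Measure X) (f : X → α) (T : Finset α) :
    ℝ := ent T fun a => P.real (f ⁻¹' {a})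
noncomputable def res1 (T : Finset V) (σ : Cfg) : Cfg := fun v => if v ∈ T then σ v else v
noncomputable def H1 (μ : Measure Cfg) (T : Finset V) : ℝ := Hv μ (res1 T) (Ent.Pat1 T)
noncomputable def H2 (ν : Measure Om) (T : Finset V) : ℝ := Hv ν (Ent.res T) (Ent.Pat T)
/-- laws of admissible patterns on a cell with mean current `s` -/
def Feas (s : Fin 3 → ℝ) (n : ℕ) (P : Measure Cfg) : Prop :=
  IsProbabilityMeasure P ∧ (∀ᵐ σ ∂P, Adm (cell n 0) σ) ∧ ∀ i, ∫ σ, dev s σ i (cell n 0) ∂P = 0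
/-- invariant laws of tilings with mean current `s` -/
structure Inv1 (s : Fin 3 → ℝ) (μ : Measure Cfg) : Prop where
  prob : IsProbabilityMeasure μ
  tiling : ∀ᵐ σ ∂μ, IsTiling σ
  inv : ∀ v, Ev v → Measure.map (shift v) μ = μ
  cur : ∀ i, s i = (μ {σ | σ 0 = Pi.single i 1}).toReal - (μ {σ | σ 0 = -Pi.single i 1}).toReal
/-- entropy maximiser -/
def Mx (s : Fin 3 → ℝ) (μ : Measure Cfg) : Prop :=
  Inv1 s μ ∧ ∀ ε : ℝ, 0 < ε → ∀ n0 : ℕ, ∃ n, n0 ≤ n ∧ Even n ∧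
    ∀ P, Feas s n P → H1 P (cell n 0) ≤ H1 μ (cell n 0) + ε * (n : ℝ) ^ 3
noncomputable def hsup (s : Fin 3 → ℝ) (n : ℕ) : ℝ := sSup {h | ∃ P, Feas s n P ∧ h = H1 P (cell n 0)}
noncomputable def hst (s : Fin 3 → ℝ) : ℝ := ⨅ k : ℕ, hsup s (2 ^ (k + 1)) / 8 ^ (k + 1)
def Mst (s : Fin 3 → ℝ) (μ : Measure Cfg) : Prop :=
  Inv1 s μ ∧ ∀ k : ℕ, 8 ^ (k + 1) * hst s ≤ H1 μ (cell (2 ^ (k + 1)) 0)
/-- the current is `s` on every invariant event -/
def CurA (s : Fin 3 → ℝ) (μ : Measure Cfg) : Prop :=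
  ∀ A : Set Cfg, MeasurableSet A → (∀ v, Ev v → shift v ⁻¹' A = A) → ∀ i,
    μ.real (A ∩ {σ | σ 0 = Pi.single i 1}) - μ.real (A ∩ {σ | σ 0 = -Pi.single i 1}) =
      s i * μ.real A
/-- the law of the randomly flipped pair -/
noncomputable def nu (μ : Measure Cfg) : Measure Om := ((μ.prod μ).prod coins).map fl

lemma IsEGM.inv1 {s : Fin 3 → ℝ} {μ : Measure Cfg} (h : IsEGM s μ) : Inv1 s μ :=
  ⟨h.prob, h.tiling, h.inv, h.cur⟩

lemma mem_tb {z x : V} {r : ℕ} : x ∈ tb z r ↔ x - z ∈ box r := Ent.mem_image_add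

lemma tb_zero (r : ℕ) : tb 0 r = box r := by
  ext x; simp [mem_tb]

lemma card_tb (z : V) (r : ℕ) : (tb z r).card = (2 * r + 1) ^ 3 := by
  rw [tb, card_image_of_injective _ (add_left_injective z), card_box]

lemma adj_e0 (z : V) : Adj z (z + e0) := by
  simp [Adj, e0, Fin.sum_univ_three]

lemma mem_cls {Λ : Finset V} {τ σ : Cfg} :
    σ ∈ cls Λ τ ↔ IsTiling σ ∧ ∀ x, x ∉ Λ → σ x = τ x := by
  rw [cls, mem_filter, mem_image, and_comm]
  refine and_congr_right fun h => ⟨?_, fun h' => ⟨res1 Λ σ, Ent.mem_Pat1.2 ⟨fun v hv => ?_,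
    fun v hv => ?_⟩, funext fun x => ?_⟩⟩
  · rintro ⟨y, -, rfl⟩ x hx
    simp [hx]
  · simpa [res1, hv] using Ent.Adj.sub_mem (h v).1
  · simp [res1, hv]
  · by_cases hx : x ∈ Λ
    · simp [res1, hx]
    · simp [hx, h' x hx]

lemma cls_congr {Λ : Finset V} {τ τ' : Cfg} (h : ∀ x, x ∉ Λ → τ' x = τ x) :
    cls Λ τ' = cls Λ τ := by
  ext σ
  simp only [mem_cls]
  exact and_congr_right fun _ => forall₂_congr fun x hx => by rw [h x hx]

lemma cls_of_mem {Λ : Finset V} {τ σ : Cfg} (h : σ ∈ cls Λ τ) : cls Λ σ = cls Λ τ :=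
  cls_congr (mem_cls.1 h).2

lemma self_mem_cls {Λ : Finset V} {τ : Cfg} (h : IsTiling τ) : τ ∈ cls Λ τ :=
  mem_cls.2 ⟨h, fun _ _ => rfl⟩

lemma res1_eq_iff {T : Finset V} {σ τ : Cfg} : res1 T σ = res1 T τ ↔ σ ∈ cylG T τ := by
  constructor
  · intro h x hx
    simpa [res1, hx] using congrFun h x
  · intro h
    funext x
    by_cases hx : x ∈ T
    · simp [res1, hx, h x hx]
    · simp [res1, hx]

lemma measurable_res1 (T : Finset V) : Measurable (res1 T) := by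
  refine measurable_pi_lambda _ fun v => ?_
  by_cases hv : v ∈ T
  · simpa [res1, hv] using measurable_pi_apply v
  · simp [res1, hv]

lemma mset_cylG (S : Finset V) (y : Cfg) : MeasurableSet (cylG S y) := by
  have : cylG S y = ⋂ x ∈ S, {σ : Cfg | σ x = y x} := by ext σ; simp [cylG]
  rw [this]
  exact MeasurableSet.biInter S.countable_toSet fun x _ =>
    mset_eq (measurable_pi_apply x) measurable_const

lemma Loc1.mset {Λ : Finset V} {T : Set Cfg} (h : Loc1 Λ T) : MeasurableSet T := by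
  have : T = (fun (σ : Cfg) (x : Λ) => σ x) ⁻¹' ((fun (σ : Cfg) (x : Λ) => σ x) '' T) := by
    refine Set.Subset.antisymm (Set.subset_preimage_image _ _) ?_
    rintro σ ⟨τ, hτ, e⟩
    exact h τ σ (fun x hx => (congrFun e ⟨x, hx⟩).symm) hτ
  rw [this]
  exact measurable_pi_lambda _ (fun x => measurable_pi_apply _) (Set.to_countable _).measurableSet

lemma Loc2.mset {Λ : Finset V} {E : Set Om} (h : Loc2 Λ E) : MeasurableSet E := by
  let f : Om → Λ → V × V := fun p x => (p.1 x, p.2 x)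
  have : E = f ⁻¹' (f '' E) := by
    refine Set.Subset.antisymm (Set.subset_preimage_image _ _) ?_
    rintro p ⟨q, hq, e⟩
    refine h q p (fun x hx => ?_) hq
    have := congrFun e ⟨x, hx⟩
    exact ⟨(congrArg Prod.fst this).symm, (congrArg Prod.snd this).symm⟩
  rw [this]
  exact measurable_pi_lambda _ (fun x => ((measurable_pi_apply _).comp measurable_fst).prodMk
    ((measurable_pi_apply _).comp measurable_snd)) (Set.to_countable _).measurableSet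

lemma mset_one : MeasurableSet {p : Om | One p} := by
  have : {p : Om | One p} = ⋂ x, ⋂ y, ({p | Inf p x}ᶜ ∪ ({p | Inf p y}ᶜ ∪ {p | Cm p x y})) := by
    ext p
    simp only [One, Set.mem_ofPred_eq, Set.mem_iInter, Set.mem_union, Set.mem_compl_iff,
      imp_iff_not_or]
  rw [this]
  exact MeasurableSet.iInter fun x => MeasurableSet.iInter fun y =>
    (mset_inf x).compl.union ((mset_inf y).compl.union (mset_cm x y))

lemma mset_n1 : MeasurableSet {p : Om | N1 p} := by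
  have : {p : Om | N1 p} = {p | Til p} ∩ ({p | One p} ∩ ⋃ x, {p | Inf p x}) := by
    ext p; simp [N1]
  rw [this]
  exact mset_til.inter (mset_one.inter (MeasurableSet.iUnion mset_inf))

lemma mset_exc (r R : ℕ) : MeasurableSet {p : Om | Exc r R p} := by
  have : {p : Om | Exc r R p} = ⋂ x ∈ box r, ⋂ k : ℕ, ({p | (prm p)^[k] x ∈ box r}ᶜ ∪
      ⋂ j, ⋂ _ : j ≤ k, {p | (prm p)^[j] x ∈ box R}) := by
    ext p
    simp only [Exc, Set.mem_ofPred_eq, Set.mem_iInter, Set.mem_union, Set.mem_compl_iff,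
      ← imp_iff_not_or]
  rw [this]
  exact MeasurableSet.biInter (box r).countable_toSet fun x _ => MeasurableSet.iInter fun k =>
    (mset_prop (measurable_prm_iter k x) (· ∈ box r)).compl.union
      (MeasurableSet.iInter fun j => MeasurableSet.iInter fun _ =>
        mset_prop (measurable_prm_iter j x) (· ∈ box R))

lemma one_shift {v : V} (hv : Ev v) (p : Om) : One (shift2 v p) ↔ One p := by
  constructor
  · intro h x y hx hy
    exact (cm_shift hv p x y).1 (h _ _ ((inf_shift hv p x).2 hx) ((inf_shift hv p y).2 hy))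
  · intro h x y hx hy
    obtain ⟨x, rfl⟩ : ∃ x', x = x' + v := ⟨x - v, by simp⟩
    obtain ⟨y, rfl⟩ : ∃ y', y = y' + v := ⟨y - v, by simp⟩
    exact (cm_shift hv p x y).2 (h _ _ ((inf_shift hv p x).1 hx) ((inf_shift hv p y).1 hy))

lemma FinMod.symm {p q : Om} (h : FinMod p q) : FinMod q p :=
  Set.Finite.subset h fun _ hx => hx.imp Ne.symm Ne.symm

/-- a forward orbit that is injective finally avoids a finite set -/
lemma exists_avoid {f : V → V} {x : V} (h : Function.Injective fun k : ℕ => f^[k] x) {W : Set V}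
    (hW : W.Finite) : ∃ n, ∀ k, f^[k] (f^[n] x) ∉ W := by
  obtain ⟨n, hn⟩ := (hW.preimage h.injOn).bddAbove
  refine ⟨n + 1, fun k hk => ?_⟩
  rw [← Function.iterate_add_apply] at hk
  have := hn hk
  omega

lemma tail_one : Tail {p | One p} := by
  intro p q hp hq hf h x y hx hy
  have key : ∀ {z}, Inf q z → ∃ n, Inf p ((prm q)^[n] z) ∧
      ∀ k, (prm p)^[k] ((prm q)^[n] z) = (prm q)^[k] ((prm q)^[n] z) := by
    intro z hz
    obtain ⟨n, hn⟩ := exists_avoid hz hf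
    have e : ∀ k, (prm p)^[k] ((prm q)^[n] z) = (prm q)^[k] ((prm q)^[n] z) := fun k =>
      EG.orbit_eq (fun k => by
        have := hn k
        simp only [Set.mem_ofPred_eq, not_or, not_not] at this
        rw [prm_coe hp, prm_coe hq] at *
        simp only [stp, this.1, this.2]) k
    refine ⟨n, fun a b hab => ?_, e⟩
    simp only [e, ← Function.iterate_add_apply] at hab
    have := hz hab
    omega
  obtain ⟨n, a1, a2⟩ := key hx
  obtain ⟨m, b1, b2⟩ := key hy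
  have c1 : Cm q x ((prm q)^[n] x) := (cm_iff _ _ _).2 ⟨n, Or.inl rfl⟩
  have c2 : Cm q y ((prm q)^[m] y) := (cm_iff _ _ _).2 ⟨m, Or.inl rfl⟩
  refine c1.trans (Cm.trans ?_ c2.symm)
  obtain ⟨k, e | e⟩ := (cm_iff _ _ _).1 (h _ _ a1 b1)
  · exact (cm_iff _ _ _).2 ⟨k, Or.inl (by rw [← a2, e])⟩
  · exact (cm_iff _ _ _).2 ⟨k, Or.inr (by rw [← b2, e])⟩

lemma Tail.compl {A : Set Om} (h : Tail A) : Tail Aᶜ := fun p q hp hq hf h1 h2 =>
  h1 (h q p hq hp hf.symm h2)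

lemma Tail.inter {A B : Set Om} (h : Tail A) (h' : Tail B) : Tail (A ∩ B) :=
  fun p q hp hq hf h1 => ⟨h p q hp hq hf h1.1, h' p q hp hq hf h1.2⟩

lemma Tail.shift {A : Set Om} (h : Tail A) (v : V) : Tail (shift2 v ⁻¹' A) := by
  intro p q hp hq hf
  refine h _ _ ((til_shift2_iff p v).2 hp) ((til_shift2_iff q v).2 hq) ?_
  refine (hf.image (· + v)).subset fun x hx => ⟨x - v, ?_, by simp⟩
  simpa [shift2, MP_640444_pr.shift] using hx

/-- Gibbs inequality -/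
lemma gibbs_ineq {α : Type} (T : Finset α) {w q : α → ℝ} (hw : ∀ a ∈ T, 0 ≤ w a)
    (hq : ∀ a ∈ T, 0 ≤ q a) (h : ∑ a ∈ T, q a ≤ ∑ a ∈ T, w a)
    (h0 : ∀ a ∈ T, w a ≠ 0 → q a ≠ 0) : ent T w ≤ -∑ a ∈ T, w a * Real.log (q a) := by
  have : ∀ a ∈ T, Real.negMulLog (w a) + w a * Real.log (q a) ≤ q a - w a := by
    intro a ha
    by_cases e : w a = 0
    · simpa [e] using hq a ha
    have h1 : 0 < w a := (hw a ha).lt_of_ne' e
    have h2 : 0 < q a := (hq a ha).lt_of_ne' (h0 a ha e)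
    have h3 := mul_le_mul_of_nonneg_left (Real.log_le_sub_one_of_pos (div_pos h2 h1)) h1.le
    rw [Real.log_div h2.ne' e, mul_sub, mul_sub, mul_div_cancel₀ _ e] at h3
    rw [Real.negMulLog]
    linarith
  have h4 := sum_le_sum this
  rw [sum_add_distrib, sum_sub_distrib] at h4
  unfold ent
  linarith

end Pool.Agent.Lib.MP_640444_pr
end

-- part Pool.Agent.Lib.MP_640444_pr.Stmts2
section

/-!
The statements of the steps of the proof.
-/

set_option autoImplicit false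
open MeasureTheory Filter Finset
open scoped Classical Topology ENNReal

namespace Pool.Agent.Lib.MP_640444_pr

def Int0 (s : Fin 3 → ℝ) : Prop := (∑ i, |s i|) < 1

/-- entropy comparison with marks -/
def EntMStmt : Prop :=
  ∀ (X : Type) [MeasurableSpace X] (P : Measure X) [IsProbabilityMeasure P]
    (p : X → Om) (F : X → Set V) (B : V → Set X), Measurable p →
    (∀ x, MeasurableSet {ω | x ∈ F ω}) → (∀ v, MeasurableSet (B v)) →
    (∀ᵐ ω ∂P, Til (p ω) ∧ Invar (p ω) (F ω) ∧ NoFin (p ω) (F ω)) →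
    (∀ (Z Z' Λ : Finset V) (y y' : Om), Swp Λ y y' →
      P (p ⁻¹' cyl Λ y ∩ {ω | ∀ z ∈ Z, ω ∈ B z ↔ z ∈ Z'}) =
        P (p ⁻¹' cyl Λ y' ∩ {ω | ∀ z ∈ Z, ω ∈ B z ↔ z ∈ Z'})) →
    (∀ v, Ev v → ∀ (S : Finset V) (y : Om),
      P ({ω | flp (F ω) (p ω) ∈ cyl S y} ∩ B 0) =
        P ({ω | flp (F ω) (p ω) ∈ cyl (S.image (· + v)) (shift2 v y)} ∩ B v)) →
    (∀ ε : ℝ, 0 < ε → ∀ L0 : ℕ, ∃ r L : ℕ, L0 ≤ L ∧ r < L ∧ (L : ℝ) - r ≤ ε * L ∧
      P {ω | ¬ (Patchable r L (p ω).1 (flp (F ω) (p ω)).1 ∧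
        Patchable r L (p ω).2 (flp (F ω) (p ω)).2)} ≤ ENNReal.ofReal ε) →
    ∀ Λ S : Finset V, Λ ⊆ S → ∀ y y' : Om, Swp Λ y y' →
    (∀ x ∈ S, x ∉ Λ → y.1 x = y'.1 x ∧ y.2 x = y'.2 x) →
    P ({ω | flp (F ω) (p ω) ∈ cyl S y} ∩ B 0) = P ({ω | flp (F ω) (p ω) ∈ cyl S y'} ∩ B 0)

/-- symmetry on tail events with at least two infinite components -/
def MarkStmt : Prop :=
  ∀ (s : Fin 3 → ℝ) (μ₁ μ₂ : Measure Cfg), Int0 s → IsEGM s μ₁ → IsEGM s μ₂ →
    ∀ A : Set Om, MeasurableSet A → Tail A → (∀ p ∈ A, ¬ One p) → ∀ (D : Finset (V × V)) (w : V),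
    (μ₁.prod μ₂) (A ∩ {p | gv D w p 0 = 1}) = (μ₁.prod μ₂) (A ∩ {p | gv D w p 0 = -1})

/-- the DLR equations -/
structure DlrStmt : Prop where
  egm : ∀ (s : Fin 3 → ℝ) (μ : Measure Cfg), IsEGM s μ → ∀ Λ,
    Gib1 Λ μ ∧ Gib1 Λ (kap μ) ∧ Gib2 Λ (μ.prod μ)
  mav : ∀ (Y : Type) [MeasurableSpace Y] (Λ : Finset V) (t : Y → Cfg) (f : Y × Cfg → ℝ≥0∞),
    Measurable t → Measurable f → Measurable fun y => av (cls Λ (t y)) fun σ => f (y, σ)
  mgam : ∀ (Y : Type) [MeasurableSpace Y] (Λ : Finset V) (t : Y → Cfg) (f : Y × Cfg → ℝ),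
    Measurable t → Measurable f → Measurable fun y => gam Λ (fun σ => f (y, σ)) (t y)
  real : ∀ (Λ : Finset V) (κ : Measure Cfg) [IsFiniteMeasure κ], Gib1 Λ κ → ∀ (f : Cfg → ℝ) (C : ℝ),
    Measurable f → (∀ σ, |f σ| ≤ C) → ∫ τ, gam Λ f τ ∂κ = ∫ τ, f τ ∂κ
  rs : ∀ (Λ : Finset V) (κ : Measure Cfg) (f : Om → ℝ≥0∞), Measurable f →
    ∫⁻ p, f p ∂(Rs Λ κ) = ∫⁻ τ, av (cls Λ τ) (fun σ => f (τ, σ)) ∂κ
  rsr : ∀ (Λ : Finset V) (κ : Measure Cfg) [IsFiniteMeasure κ] (f : Om → ℝ) (C : ℝ),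
    Measurable f → (∀ p, |f p| ≤ C) →
    ∫ p, f p ∂(Rs Λ κ) = ∫ τ, gam Λ (fun σ => f (τ, σ)) τ ∂κ
  rsg : ∀ (Λ : Finset V) (κ : Measure Cfg), Gib1 Λ κ → Gib2 Λ (Rs Λ κ) ∧
    (∀ᵐ p ∂(Rs Λ κ), Til p ∧ ∀ x, x ∉ Λ → p.2 x = p.1 x) ∧
    ∀ T : Set Cfg, MeasurableSet T → Rs Λ κ (Prod.fst ⁻¹' T) = κ T
  count : ∀ (Λ : Finset V) (Q₁ Q₂ : Measure Om) [IsFiniteMeasure Q₁] [IsFiniteMeasure Q₂],
    Gib2 Λ Q₁ → Gib2 Λ Q₂ → ∀ (D I : Set (Om × Om)) (C : ℕ), MeasurableSet D → MeasurableSet I →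
    (∀ ω₀, #{ω ∈ cl4 Λ ω₀ | ω ∈ D} ≤ C * #{ω ∈ cl4 Λ ω₀ | ω ∈ I}) →
    (Q₁.prod Q₂).real D ≤ C * (Q₁.prod Q₂).real I

/-- limits of the specification -/
structure AlphaStmt : Prop where
  lim : ∀ (s : Fin 3 → ℝ) (μ : Measure Cfg), IsEGM s μ → ∀ f : Cfg → ℝ, Measurable f →
    (∀ σ, 0 ≤ f σ ∧ f σ ≤ 1) → ∃ α : Cfg → ℝ, Measurable α ∧ (∀ σ, 0 ≤ α σ ∧ α σ ≤ 1) ∧
      (∀ σ σ', {x | σ' x ≠ σ x}.Finite → α σ' = α σ) ∧
      Tendsto (fun M : ℕ => ∫ σ, |gam (box M) f σ - α σ| ∂μ) atTop (𝓝 0)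
  low : ∀ (s : Fin 3 → ℝ) (μ : Measure Cfg), IsEGM s μ → ∀ (S : Finset V) (y : Cfg) (η : ℝ), 0 < η →
    0 < μ.real (cylG S y) → ∃ l, 0 < Ne l ∧ ∀ᶠ M : ℕ in atTop,
      (Rs (box M) (kap μ)).real {p | (St S y l p : ℝ) < μ.real (cylG S y) ^ 2 / 2 * Ne l} ≤ η

/-- two samples with at least two infinite components have the same tail -/
def TailStmt : Prop :=
  ∀ (s : Fin 3 → ℝ) (μ : Measure Cfg), Int0 s → IsEGM s μ → ∀ (S : Finset V) (y : Cfg),
    Tendsto (fun M : ℕ => ∫ p in {p | ¬ One p},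
      |gam (box M) (ind (cylG S y)) p.1 - gam (box M) (ind (cylG S y)) p.2| ∂(μ.prod μ))
      atTop (𝓝 0)

/-- replacing the independent sample by a resample -/
structure TransStmt : Prop where
  tr : ∀ (s : Fin 3 → ℝ) (μ : Measure Cfg), Int0 s → IsEGM s μ → ∀ (Λ : Finset V) (ε : ℝ), 0 < ε →
    ∀ᶠ M : ℕ in atTop, ∀ A : Set Om, MeasurableSet A → (∀ τ, Loc1 Λ {σ | (τ, σ) ∈ A}) →
      (μ.prod μ) (A ∩ {p | ¬ One p}) ≤ Rs (box M) (kap μ) A + ENNReal.ofReal ε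
  up : ∀ (s : Fin 3 → ℝ) (μ : Measure Cfg), Int0 s → IsEGM s μ →
    ∀ (S : Finset V) (y : Cfg) (l : ℕ) (t ε : ℝ), 0 < Ne l → 0 < t → 0 < ε → ∀ᶠ M : ℕ in atTop,
      (Rs (box M) (kap μ)).real {p | t * Ne l ≤ St S y l p} ≤ μ.real (cylG S y) ^ 2 / t + ε

structure TypStmt : Prop where
  typ : ∀ (s : Fin 3 → ℝ) (μ₁ μ₂ : Measure Cfg), IsEGM s μ₁ → IsEGM s μ₂ → μ₁ ≠ μ₂ →
    ∀ η : ℝ, 0 < η → ∃ (ρ : ℕ) (T : Set Cfg), Loc1 (box ρ) T ∧ μ₁.real T ≤ η ∧ μ₂.real Tᶜ ≤ η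
  cyl : ∀ (s : Fin 3 → ℝ) (μ₁ μ₂ : Measure Cfg), IsEGM s μ₁ → IsEGM s μ₂ → μ₁ ≠ μ₂ →
    ∀ K : ℝ, 0 < K → ∃ (S : Finset V) (y : Cfg), K * μ₁.real (cylG S y) < μ₂.real (cylG S y)
  exc : ∀ (m : Measure Om) [IsFiniteMeasure m] (r : ℕ),
    Tendsto (fun R => m.real {p | ¬ Exc r R p}) atTop (𝓝 0)
  pos : ∀ (s : Fin 3 → ℝ) (μ₁ μ₂ : Measure Cfg), Int0 s → IsEGM s μ₁ → IsEGM s μ₂ → μ₁ ≠ μ₂ →
    0 < (μ₁.prod μ₂).real {p | N1 p}
  gp : ∀ (M M' : ℕ) (P : Om), M < M' → Til P → (∀ x, x ∉ box M' → P.2 x = P.1 x) → GP M M' P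
  near : ∀ (m : Measure Om) [IsFiniteMeasure m],
    Tendsto (fun r => m.real {p | N1 p ∧ ∀ u ∈ box r, Ev u → ¬ Inf p u}) atTop (𝓝 0)
  st : ∀ (S : Finset V) (y : Cfg) (l : ℕ), Measurable (St S y l) ∧ ∃ ρ₀ : ℕ, ∀ ρ, ρ₀ ≤ ρ →
    ∀ (t : Prop) (R q : Om), Out t ρ R q → St S y l q = St S y l R

/-- the order lemma -/
def OrderStmt : Prop :=
  ∀ (m : Measure Om) [IsProbabilityMeasure m], EvInv m → ∀ η : ℝ, 0 < η → ∀ R L₀ : ℕ,
    ∃ z1 z2 : V, Ev z1 ∧ Ev z2 ∧ z1 ∉ box L₀ ∧ z2 ∉ box L₀ ∧ z1 - z2 ∉ box L₀ ∧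
      m.real {p | N1 p} / 4 - η ≤ m.real {p | Btw R z1 z2 p} ∧
      m.real {p | N1 p} / 4 - η ≤ m.real {p | Btw R z2 z1 p}

def RayStmt : Prop :=
  ∀ (s : Fin 3 → ℝ) (μ₁ μ₂ : Measure Cfg), IsEGM s μ₁ → IsEGM s μ₂ → ∀ δ η : ℝ, 0 < δ → 0 < η →
    ∀ K l₀ : ℕ, ∃ l, l₀ ≤ l ∧ (μ₁.prod μ₂).real {p | ¬ RayC s δ K l p} ≤ η

/-- construction of the hybrid -/
def HybDetStmt : Prop :=
  ∀ s : Fin 3 → ℝ, Int0 s → ∃ δ : ℝ, 0 < δ ∧ ∃ K : ℕ, ∀ r : ℕ, ∃ l₀ : ℕ, ∀ l, l₀ ≤ l →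
    ∀ (ρ ρ' M₀ M R : ℕ) (z1 z2 u1 u2 : V) (p : Om), Ev z1 → Ev z2 → K * l ≤ R → ρ ≤ R →
      ρ ≤ ρ' → z1 ∉ box (ρ' + K * l) → z2 ∉ box (ρ' + K * l) → z1 - z2 ∉ box (2 * (K * l)) →
      tb z1 (K * l) ⊆ box M₀ → tb z2 (K * l) ⊆ box M₀ → ρ' ≤ M → M₀ ≤ M →
      Btw R z1 z2 p → Exc ρ ρ' p → Exc M₀ M p → u1 ∈ tb z1 r → u2 ∈ tb z2 r → Ev u1 → Ev u2 →
      Inf p u1 → Inf p u2 → RayC s δ K l (shift2 (-z1) p) → RayC s δ K l (shift2 (-z2) p) →
      Hyb (K * l) ρ M z1 z2 p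

def HybStmt : Prop :=
  ∀ (s : Fin 3 → ℝ) (μ₁ μ₂ : Measure Cfg), Int0 s → IsEGM s μ₁ → IsEGM s μ₂ → μ₁ ≠ μ₂ →
    ∃ c : ℝ, 0 < c ∧ ∃ L : ℕ, ∀ ρ : ℕ, ∃ (z1 z2 : V) (M : ℕ) (E₁ E₂ : Set Om),
      Ev z1 ∧ Ev z2 ∧ z1 ≠ z2 ∧ ρ ≤ M ∧ Loc2 (box M) E₁ ∧ Loc2 (box M) E₂ ∧
      (∀ p ∈ E₁, Til p → Hyb L ρ M z1 z2 p) ∧ (∀ p ∈ E₂, Til p → Hyb L ρ M z2 z1 p) ∧
      c ≤ (μ₁.prod μ₂).real E₁ ∧ c ≤ (μ₁.prod μ₂).real E₂

/-- repair of two near tilings with opposite holes -/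
def KrsStmt : Prop :=
  ∀ (ρ ρ' M M' : ℕ) (z1 z2 : V) (P q R : Om) (t : Prop), Ev z1 → Ev z2 → z1 ≠ z2 →
    ρ ≤ ρ' → ρ' ≤ M → M ≤ M' → GP M M' P → Hol q.1 z1 (z2 + e0) → Hol q.2 z2 (z1 + e0) →
    (∀ x, x ∉ box M → q.1 x = P.1 x ∧ q.2 x = P.2 x) → Til R → One R → q ∈ cyl (box ρ') R →
    (t → Exc ρ ρ' R) → ∃ (q' : Om) (b : Bool), Til q' ∧
      Rel (box M') {z1, z2, z1 + e0, z2 + e0} (if t then box ρ else ∅) b q q'

/-- the counting inequality -/
def CoreStmt : Prop :=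
  ∀ L : ℕ, ∃ C : ℕ, ∀ (ρ ρ' M M' : ℕ) (z1 z2 : V) (t1 t2 : Prop) (D I : Set (Om × Om)),
    Ev z1 → Ev z2 → z1 ≠ z2 → ρ ≤ ρ' → ρ' ≤ M → M ≤ M' →
    (∀ ω ∈ D, GP M M' ω.1 ∧ GP M M' ω.2 ∧ Hyb L ρ' M z1 z2 (ω.1.1, ω.2.1) ∧
      Hyb L ρ' M z2 z1 (ω.1.2, ω.2.2) ∧ (t1 → Exc ρ ρ' ω.2) ∧ (t2 → Exc ρ ρ' ω.1) ∧
      ∀ q1 q2, Out t1 ρ ω.2 q1 → Out t2 ρ ω.1 q2 → (q1, q2) ∈ I) →
    ∀ ω₀, #{ω ∈ cl4 (box M') ω₀ | ω ∈ D} ≤ C * #{ω ∈ cl4 (box M') ω₀ | ω ∈ I}

def UniqStmt : Prop :=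
  ∀ (s : Fin 3 → ℝ) (μ₁ μ₂ : Measure Cfg), Int0 s → IsEGM s μ₁ → IsEGM s μ₂ → μ₁ = μ₂

/-- subadditivity of entropy -/
def ShanStmt : Prop :=
  ∀ (X α J : Type) [MeasurableSpace X] (P : Measure X) [IsProbabilityMeasure P] (β : J → Type)
    (I : Finset J) (f : X → α) (T : Finset α) (g : ∀ j, X → β j) (U : ∀ j, Finset (β j))
    (G : Set X), (∀ a, MeasurableSet (f ⁻¹' {a})) → (∀ j b, MeasurableSet (g j ⁻¹' {b})) →
    (∀ᵐ x ∂P, x ∈ G) → (∀ x ∈ G, f x ∈ T ∧ ∀ j ∈ I, g j x ∈ U j) →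
    (∀ x ∈ G, ∀ x' ∈ G, (∀ j ∈ I, g j x = g j x') → f x = f x') →
    Hv P f T ≤ ∑ j ∈ I, Hv P (g j) (U j)

/-- maximal entropy implies the Gibbs property for pairs -/
def PairStmt : Prop :=
  ∀ (s : Fin 3 → ℝ) (μ : Measure Cfg) (ν : Measure Om) [IsProbabilityMeasure ν] (C : ℝ), Mx s μ →
    EvInv ν → Inv1 s (ν.map Prod.fst) → Inv1 s (ν.map Prod.snd) →
    (∀ n : ℕ, 2 * H1 μ (cell n 0) ≤ H2 ν (cell n 0) + C * (n : ℝ) ^ 2) → SwpInv ν

def FlipStmt : Prop :=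
  ∀ (s : Fin 3 → ℝ) (μ : Measure Cfg), Inv1 s μ →
    (∀ n : ℕ, 2 * H1 μ (cell n 0) ≤ H2 (μ.prod μ) (cell n 0)) ∧
    (∀ n : ℕ, H2 (μ.prod μ) (cell n 0) ≤ H2 (nu μ) (cell n 0) + 6 * (n : ℝ) ^ 2) ∧
    Inv1 s ((nu μ).map Prod.fst) ∧ Inv1 s ((nu μ).map Prod.snd)

/-- the almost sure current -/
def SStmt : Prop :=
  ∀ (s : Fin 3 → ℝ) (μ : Measure Cfg), Inv1 s μ → ∃ S : Cfg → Fin 3 → ℝ, Measurable S ∧
    (∀ σ i, |S σ i| ≤ 1) ∧ (∀ v, Ev v → ∀ σ, S (shift v σ) = S σ) ∧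
    (∀ δ : ℝ, 0 < δ → ∀ K : ℕ,
      Tendsto (fun j : ℕ => μ {σ | ¬ Close (S σ) δ K (2 * j) σ}) atTop (𝓝 0)) ∧
    ∀ A : Set Cfg, MeasurableSet A → (∀ v, Ev v → shift v ⁻¹' A = A) → ∀ i,
      μ.real (A ∩ {σ | σ 0 = Pi.single i 1}) - μ.real (A ∩ {σ | σ 0 = -Pi.single i 1}) =
        ∫ σ in A, S σ i ∂μ

def CurStmt : Prop :=
  ∀ (s : Fin 3 → ℝ) (μ : Measure Cfg), Int0 s → Inv1 s μ → SwpInv (nu μ) → CurA s μ

/-- periodic approximations -/
def ApproxStmt : Prop :=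
  ∀ s : Fin 3 → ℝ, Int0 s → ∀ k : ℕ, ∃ μ : Measure Cfg, IsProbabilityMeasure μ ∧
    (∀ᵐ σ ∂μ, ∀ x, Adj x (σ x)) ∧ (∀ v, Ev v → Measure.map (shift v) μ = μ) ∧
    (∀ i, s i = (μ {σ | σ 0 = Pi.single i 1}).toReal - (μ {σ | σ 0 = -Pi.single i 1}).toReal) ∧
    (∀ x, μ.real {σ | σ (σ x) ≠ x} ≤ 12 / 2 ^ k) ∧
    ∀ j ≤ k, 8 ^ (j + 1) * hst s - 8 ^ j / 8 ^ k ≤ H1 μ (cell (2 ^ (j + 1)) 0)

/-- an extreme maximiser -/
def ExtStmt : Prop :=
  ∀ s : Fin 3 → ℝ, Int0 s → ∃ μ, Mst s μ ∧ ∀ (μ' μ'' : Measure Cfg) (a : ℝ≥0∞), Mst s μ' →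
    Mst s μ'' → 0 < a → a < 1 → μ = a • μ' + (1 - a) • μ'' → μ' = μ

structure MstStmt : Prop where
  mx : ∀ (s : Fin 3 → ℝ) (μ : Measure Cfg), Mst s μ → Mx s μ
  cond : ∀ (s : Fin 3 → ℝ) (μ : Measure Cfg), Mst s μ → CurA s μ → ∀ A : Set Cfg, MeasurableSet A →
    (∀ v, Ev v → shift v ⁻¹' A = A) → μ A ≠ 0 → Mst s ((μ A)⁻¹ • μ.restrict A)

def ExistStmt : Prop := ∀ s : Fin 3 → ℝ, Int0 s → ∃ μ, IsEGM s μ

end Pool.Agent.Lib.MP_640444_pr
end
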